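import Mathlib.Algebra.Order.Ring.Star
import Mathlib.Algebra.MvPolynomial.Monad
import Mathlib.RingTheory.Valuation.ValuationSubring
import Mathlib.Algebra.Order.Star.Real
import Mathlib.LinearAlgebra.Complex.FiniteDimensional
import Mathlib.Analysis.SpecialFunctions.Complex.Analytic
import Mathlib.RingTheory.RootsOfUnity.PrimitiveRoots
import Mathlib.NumberTheory.Real.Irrational
import Mathlib.RingTheory.PiTensorProduct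
import Mathlib.RingTheory.PowerSeries.Derivative
import Mathlib.Order.CompletePartialOrder
import Mathlib.RingTheory.MvPolynomial.Ideal
import Mathlib.RingTheory.MvPolynomial.IrreducibleQuadratic
import Mathlib.Tactic.Polynomial.Basic
import Pool.Agent.MP_62f0b1_an.Defs

-- ======== part 0: formerly Pool.Agent.MP_62f0b1_an.ae.Defs
section MrgPart0

/-!
Definitions for the proof that `f_t` on triangles has no `C¹` integral independent of the area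
almost everywhere.
-/

set_option autoImplicit false

noncomputable section

namespace Pool.Agent.MP_62f0b1_an.AE

open Complex Filter Topology Set MeasureTheory
open scoped ComplexConjugate

abbrev C3 := ℂ × ℂ × ℂ
abbrev R3 := ℝ × ℝ × ℝ

/-! ### The maps on side lengths -/

/-- The cube root of unity `exp (2πi/3)`. -/
def om : ℂ := ⟨-1 / 2, Real.sqrt 3 / 2⟩

/-- Squared side `i` of `r_t P` in terms of the sides `a` of `P`. -/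
def Bf {K : Type} [Field K] (t : K) (a : Fin 3 → K) (i : Fin 3) : K :=
  (a i + t) ^ 2 + t ^ 2 -
    t * (a i + t) * (a (i + 2) ^ 2 - a i ^ 2 - a (i + 1) ^ 2) / (a i * a (i + 1))

/-- Squared side `i` of `q_t P` in terms of the sides `a` of `P`. -/
def Df {K : Type} [Field K] (t : K) (a : Fin 3 → K) (i : Fin 3) : K :=
  (a i + t) ^ 2 + t ^ 2 -
    t * (a i + t) * (a (i + 1) ^ 2 - a i ^ 2 - a (i + 2) ^ 2) / (a i * a (i + 2))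

def sig (b : Fin 3 → ℂ) : ℂ := (b 0 + b 1 + b 2) / 3
def zet (b : Fin 3 → ℂ) : ℂ := (b 0 + om ^ 2 * b 1 + om * b 2) / 3
def zet' (b : Fin 3 → ℂ) : ℂ := (b 0 + om * b 1 + om ^ 2 * b 2) / 3

/-- Principal square root. -/
def csqrt (x : ℂ) : ℂ := Complex.exp (Complex.log x / 2)

/-- Squared sides of the triangle with Darboux coordinates `(z, w)` on the level `c`. -/
def Phi (p : C3) (i : Fin 3) : ℂ :=
  p.2.2 + 2 * p.1 * p.2.1 +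
    csqrt (p.2.2 + p.1 * p.2.1) * (p.1 * om ^ i.val + p.2.1 * om ^ (2 * i.val))

/-- The inverse of `Phi`. -/
def PhiInv (b : Fin 3 → ℂ) : C3 :=
  (zet b / csqrt ((sig b + csqrt (sig b ^ 2 - 4 * zet b * zet' b)) / 2),
    zet' b / csqrt ((sig b + csqrt (sig b ^ 2 - 4 * zet b * zet' b)) / 2),
    csqrt (sig b ^ 2 - 4 * zet b * zet' b))

/-- The multiplier of the reduced map at the equilateral point, `τ = t / side`. -/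
def lam (τ : ℂ) : ℂ :=
  (1 + τ * (1 - om)) * (2 + τ * (1 - om)) / ((1 + τ * (1 - om ^ 2)) * (2 + τ * (1 - om ^ 2)))

/-- The counterclockwise triangle with centroid `0` and squared sides `Phi (z, conj z, c)`. -/
def tri (z : ℂ) (c : ℝ) : Fin 3 → ℂ := fun j =>
  (((Real.sqrt (c + ‖z‖ ^ 2) : ℝ) : ℂ) * om ^ j.val - z * om ^ (2 + 2 * j.val)) /
    ((Real.sqrt 3 : ℝ) : ℂ)

/-- The real point with coordinate `z` on the level `c`. -/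
def rp (z : ℂ) (c : ℝ) : C3 := (z, conj z, (c : ℂ))

/-- The first coordinate of the point `a` in linearised form. -/
def ztOf (t : ℝ) (a : Fin 3 → ℝ) : ℂ := zet (fun i => ((Bf t a i : ℝ) : ℂ))

/-- Orbits of period `l` of side-length triples that tend to `(1,1,1)` from every direction. -/
def PER (l : ℕ) (t : ℝ) : Prop :=
  ∀ u : ℂ, ‖u‖ = 1 → ∃ (C : ℝ) (a : ℕ → ℕ → Fin 3 → ℝ),
    (∀ k, a k l = a k 0) ∧ (∀ k j, j < l → Bf t (a k (j + 1)) = Df t (a k j)) ∧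
    (∀ k, ztOf t (a k 0) ≠ 0) ∧ Tendsto (fun k => ztOf t (a k 0)) atTop (𝓝 0) ∧
    Tendsto (fun k => ztOf t (a k 0) / ((‖ztOf t (a k 0)‖ : ℝ) : ℂ)) atTop (𝓝 u) ∧
    ∀ k j, j ≤ l → ∀ i, |a k j i - 1| ≤ C * ‖ztOf t (a k 0)‖

/-! ### Germs of planar maps with a parameter -/

def d1 (g : C3 → ℂ) (p : C3) : ℂ := fderiv ℂ g p (1, 0, 0)
def d2 (g : C3 → ℂ) (p : C3) : ℂ := fderiv ℂ g p (0, 1, 0)
def jacC (g h : C3 → ℂ) (p : C3) : ℂ := d1 g p * d2 h p - d2 g p * d1 h p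
def r1 (g : R3 → ℝ) (p : R3) : ℝ := fderiv ℝ g p (1, 0, 0)
def r2 (g : R3 → ℝ) (p : R3) : ℝ := fderiv ℝ g p (0, 1, 0)

/-- The base point. -/
def base (e0 : ℝ) : C3 := (0, 0, (e0 : ℂ))

/-- The rotation of order three. -/
def rot (p : C3) : C3 := (om * p.1, om ^ 2 * p.2.1, p.2.2)

/-- An analytic germ `(z, w) ↦ (f, g)` with parameter, equivariant and real. -/
structure Germ (f g : C3 → ℂ) (e0 : ℝ) : Prop where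
  an_f : AnalyticAt ℂ f (base e0)
  an_g : AnalyticAt ℂ g (base e0)
  eqv : ∀ᶠ p in 𝓝 (base e0), f (rot p) = om * f p ∧ g (rot p) = om ^ 2 * g p
  real : ∀ᶠ q in 𝓝 ((0 : ℂ), e0), g (rp q.1 q.2) = conj (f (rp q.1 q.2))

/-- Third order expansion, with first derivatives, uniform in the parameter. -/
structure Expn (f g : C3 → ℂ) (e0 : ℝ) (l a b l' a' b' : ℂ → ℂ) : Prop where
  an_l : AnalyticAt ℂ l e0
  an_a : AnalyticAt ℂ a e0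
  an_b : AnalyticAt ℂ b e0
  an_l' : AnalyticAt ℂ l' e0
  an_a' : AnalyticAt ℂ a' e0
  an_b' : AnalyticAt ℂ b' e0
  bound : ∃ C : ℝ, ∀ᶠ p in 𝓝 (base e0),
    ‖f p - (l p.2.2 * p.1 + a p.2.2 * p.2.1 ^ 2 + b p.2.2 * p.1 ^ 2 * p.2.1)‖ ≤
      C * ‖(p.1, p.2.1)‖ ^ 4 ∧
    ‖g p - (l' p.2.2 * p.2.1 + a' p.2.2 * p.1 ^ 2 + b' p.2.2 * p.1 * p.2.1 ^ 2)‖ ≤
      C * ‖(p.1, p.2.1)‖ ^ 4 ∧
    ‖d1 f p - (l p.2.2 + 2 * b p.2.2 * p.1 * p.2.1)‖ ≤ C * ‖(p.1, p.2.1)‖ ^ 3 ∧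
    ‖d2 f p - (2 * a p.2.2 * p.2.1 + b p.2.2 * p.1 ^ 2)‖ ≤ C * ‖(p.1, p.2.1)‖ ^ 3 ∧
    ‖d1 g p - (2 * a' p.2.2 * p.1 + b' p.2.2 * p.2.1 ^ 2)‖ ≤ C * ‖(p.1, p.2.1)‖ ^ 3 ∧
    ‖d2 g p - (l' p.2.2 + 2 * b' p.2.2 * p.1 * p.2.1)‖ ≤ C * ‖(p.1, p.2.1)‖ ^ 3

/-- Birkhoff normal form of order three with invariant density `1 - 4 k Z W`. -/
structure NF (F G : C3 → ℂ) (e0 : ℝ) (α ν k : ℂ → ℂ) : Prop where
  an_F : AnalyticAt ℂ F (base e0)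
  an_G : AnalyticAt ℂ G (base e0)
  an_α : AnalyticAt ℂ α e0
  an_ν : AnalyticAt ℂ ν e0
  an_k : AnalyticAt ℂ k e0
  real_co : ∀ᶠ e : ℝ in 𝓝 e0, (α e).im = 0 ∧ (ν e).im = 0 ∧ (k e).im = 0
  ν_pos : 0 < (ν e0).re
  α_pos : 0 < (deriv α e0).re
  bound : ∃ C : ℝ, ∀ᶠ p in 𝓝 (base e0),
    ‖F p - exp (I * α p.2.2) * p.1 * (1 + I * ν p.2.2 * p.1 * p.2.1)‖ ≤ C * ‖(p.1, p.2.1)‖ ^ 4 ∧
    ‖G p - exp (-(I * α p.2.2)) * p.2.1 * (1 - I * ν p.2.2 * p.1 * p.2.1)‖ ≤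
      C * ‖(p.1, p.2.1)‖ ^ 4
  real : ∀ᶠ q in 𝓝 ((0 : ℂ), e0), G (rp q.1 q.2) = conj (F (rp q.1 q.2))
  det : ∀ᶠ p in 𝓝 (base e0),
    jacC F G p * (1 - 4 * k p.2.2 * F p * G p) = 1 - 4 * k p.2.2 * p.1 * p.2.1

/-- On real points the change `Z ↦ Z + κ conj(Z)²` conjugates `F` to `f`. -/
structure Conj (f F : C3 → ℂ) (κ : ℂ → ℂ) (e0 : ℝ) : Prop where
  an : AnalyticAt ℂ κ e0
  link : ∀ᶠ q in 𝓝 ((0 : ℂ), e0),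
    f (rp (q.1 + κ q.2 * conj q.1 ^ 2) q.2) = F (rp q.1 q.2) + κ q.2 * conj (F (rp q.1 q.2)) ^ 2
  inv : ∃ inv : ℂ × ℝ → ℂ, ∀ᶠ q in 𝓝 ((0 : ℂ), e0),
    DifferentiableAt ℝ inv (q.1 + κ q.2 * conj q.1 ^ 2, q.2) ∧
      inv (q.1 + κ q.2 * conj q.1 ^ 2, q.2) = q.1

/-! ### Twist families -/

def domC (e0 ε r : ℝ) : Set C3 :=
  {p | |p.1.im| < 1 ∧ |p.2.1.im| < p.2.1.re ∧ p.2.1.re < r ∧ p.2.2.im = 0 ∧ |p.2.2.re - e0| < ε}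

def domR (e0 ε r : ℝ) : Set R3 := {p | 0 < p.2.1 ∧ p.2.1 < r ∧ |p.2.2 - e0| < ε}

def cp (p : R3) : C3 := ((p.1 : ℂ), (p.2.1 : ℂ), (p.2.2 : ℂ))

/-- Real part on real points. -/
def reF (g : C3 → ℂ) (p : R3) : ℝ := (g (cp p)).re

structure AlphaOK (α : ℝ → ℝ) (e0 ε : ℝ) : Prop where
  cont : ContinuousOn α (Ioo (e0 - ε) (e0 + ε))
  mono : ∃ κ > 0, ∀ e1 ∈ Ioo (e0 - ε) (e0 + ε), ∀ e2 ∈ Ioo (e0 - ε) (e0 + ε), e1 ≤ e2 →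
    κ * (e2 - e1) ≤ α e2 - α e1

/-- A holomorphic family `(θ, J) ↦ (Θ, Jn)` close to `(θ + α e + J, J)` for small `J`. -/
structure TwistC (Θ Jn : C3 → ℂ) (α : ℝ → ℝ) (e0 ε r : ℝ) : Prop where
  ε_pos : 0 < ε
  r_pos : 0 < r
  an : ∀ p ∈ domC e0 ε r, AnalyticAt ℂ Θ p ∧ AnalyticAt ℂ Jn p
  per : ∀ p : C3, Θ (p.1 + 2 * Real.pi, p.2) = Θ p + 2 * Real.pi ∧
    Jn (p.1 + 2 * Real.pi, p.2) = Jn p
  real : ∀ p ∈ domR e0 ε r, (Θ (cp p)).im = 0 ∧ (Jn (cp p)).im = 0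
  det : ∀ p ∈ domC e0 ε r, jacC Θ Jn p = 1
  est : ∀ δ > 0, ∃ r' > 0, ∀ p ∈ domC e0 ε r, ‖p.2.1‖ < r' →
    ‖Θ p - p.1 - α p.2.2.re - p.2.1‖ ≤ δ * ‖p.2.1‖ ∧ ‖Jn p - p.2.1‖ ≤ δ * ‖p.2.1‖ ^ 2
  alpha : AlphaOK α e0 ε

/-- The real form of `TwistC`, with estimates of the first derivatives. -/
structure TwistR (Θ Jn : R3 → ℝ) (α : ℝ → ℝ) (e0 ε r : ℝ) : Prop where
  ε_pos : 0 < ε
  r_pos : 0 < r
  an : ∀ p ∈ domR e0 ε r, AnalyticAt ℝ Θ p ∧ AnalyticAt ℝ Jn p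
  per : ∀ p : R3, Θ (p.1 + 2 * Real.pi, p.2) = Θ p + 2 * Real.pi ∧
    Jn (p.1 + 2 * Real.pi, p.2) = Jn p
  det : ∀ p ∈ domR e0 ε r, r1 Θ p * r2 Jn p - r2 Θ p * r1 Jn p = 1
  est : ∀ δ > 0, ∃ r' > 0, r' ≤ r ∧ ∀ p ∈ domR e0 ε r, p.2.1 < r' →
    |Θ p - p.1 - α p.2.2 - p.2.1| ≤ δ * p.2.1 ∧ |Jn p - p.2.1| ≤ δ * p.2.1 ^ 2 ∧
    |r1 Θ p - 1| ≤ δ * p.2.1 ∧ |r2 Θ p - 1| ≤ δ ∧ |r1 Jn p| ≤ δ * p.2.1 ^ 2 ∧
    |r2 Jn p - 1| ≤ δ * p.2.1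
  alpha : AlphaOK α e0 ε

/-- Polar chart `χ` that carries the twist family to the map `f` on real points. -/
structure Chart (f : C3 → ℂ) (χ : R3 → ℂ) (Θ Jn : R3 → ℝ) (e0 ε r : ℝ) (N : Set C3) : Prop where
  smooth : ContDiffOn ℝ 1 χ (domR e0 ε r)
  per : ∀ p : R3, χ (p.1 + 2 * Real.pi, p.2) = χ p
  link : ∀ p ∈ domR e0 ε r, f (rp (χ p) p.2.2) = χ (Θ p, Jn p, p.2.2)
  asym : ∃ (C ρ0 ρ1 : ℝ) (ρ : ℝ → ℝ), 0 < ρ0 ∧ ∀ p ∈ domR e0 ε r, ρ0 ≤ ρ p.2.2 ∧ ρ p.2.2 ≤ ρ1 ∧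
    ‖χ p - ((ρ p.2.2 * Real.sqrt p.2.1 : ℝ) : ℂ) * exp ((p.1 : ℂ) * I)‖ ≤ C * p.2.1
  inv : ∃ inv : ℂ × ℝ → ℝ × ℝ, ∀ p ∈ domR e0 ε r, |p.1| < Real.pi →
    DifferentiableAt ℝ inv (χ p, p.2.2) ∧ inv (χ p, p.2.2) = (p.1, p.2.1)
  nb : ∀ p ∈ domR e0 ε r, rp (χ p) p.2.2 ∈ N
  nb0 : ∀ e : ℝ, |e - e0| < ε → base e ∈ N

/-- Zero flux through every closed curve that goes once around. -/
def Exact (Θ Jn : R3 → ℝ) (e0 ε r : ℝ) : Prop :=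
  ∀ e : ℝ, |e - e0| < ε → ∀ x y : ℝ → ℝ, ContDiff ℝ 1 x → ContDiff ℝ 1 y →
    (∀ θ, x (θ + 2 * Real.pi) = x θ + 2 * Real.pi) → (∀ θ, y (θ + 2 * Real.pi) = y θ) →
    (∀ θ, 0 < y θ ∧ y θ < r) →
    ∫ θ in (0 : ℝ)..2 * Real.pi,
      (Jn (x θ, y θ, e) * deriv (fun s => Θ (x s, y s, e)) θ - y θ * deriv x θ) = 0

/-! ### KAM -/

/-- Diophantine rotation angles. -/
def DC (γ : ℝ) : Set ℝ :=
  {w | ∀ k : ℕ, k ≠ 0 → γ / (k : ℝ) ^ 2 ≤ ‖exp ((k : ℂ) * (w : ℂ) * I) - 1‖}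

def Strip (ρ : ℝ) : Set ℂ := {x | |x.im| < ρ}

def domL : Set (ℂ × ℂ) := Strip 1 ×ˢ Metric.ball 0 1

/-- Holomorphic on a strip, periodic, real on the real line. -/
structure PerHol (ρ : ℝ) (φ : ℂ → ℂ) : Prop where
  diff : DifferentiableOn ℂ φ (Strip ρ)
  per : ∀ x ∈ Strip ρ, φ (x + 2 * Real.pi) = φ x
  real : ∀ x : ℝ, (φ x).im = 0

/-- A twist map in mixed form: `x' = x + w + η s`, `y = s + A (x, s)`, `y' = s + B (x, s)`. -/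
structure LData (η δ : ℝ) (A B : ℂ × ℂ → ℂ) : Prop where
  anA : AnalyticOnNhd ℂ A domL
  anB : AnalyticOnNhd ℂ B domL
  per : ∀ p ∈ domL, A (p.1 + 2 * Real.pi, p.2) = A p ∧ B (p.1 + 2 * Real.pi, p.2) = B p
  real : ∀ x s : ℝ, |s| < 1 → (A (x, s)).im = 0 ∧ (B (x, s)).im = 0
  bound : ∀ p ∈ domL, ‖A p‖ ≤ δ ∧ ‖B p‖ ≤ δ
  closed : ∀ p ∈ domL,
    fderiv ℂ B p (0, 1) - fderiv ℂ A p (0, 1) = (η : ℂ) * fderiv ℂ B p (1, 0)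
  flux : ∀ u s : ℝ → ℝ, ContDiff ℝ 1 u → ContDiff ℝ 1 s →
    (∀ θ, u (θ + 2 * Real.pi) = u θ + 2 * Real.pi) → (∀ θ, s (θ + 2 * Real.pi) = s θ) →
    (∀ θ, |s θ| < 1) →
    ∫ θ in (0 : ℝ)..2 * Real.pi, ((s θ + (B (u θ, s θ)).re) * (deriv u θ + η * deriv s θ) -
      (s θ + (A (u θ, s θ)).re) * deriv u θ) = 0

def uL (η : ℝ) (φ : ℂ → ℂ) (x : ℂ) : ℂ := x + η * φ x
def sL (w : ℝ) (φ : ℂ → ℂ) (x : ℂ) : ℂ := φ (x + w) - φ x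

/-- The error in the invariance equation. -/
def errL (η w : ℝ) (A B : ℂ × ℂ → ℂ) (φ : ℂ → ℂ) (x : ℂ) : ℂ :=
  sL w φ (x - w) + B (uL η φ (x - w), sL w φ (x - w)) - sL w φ x - A (uL η φ x, sL w φ x)

/-- A parametrised invariant curve with rotation angle `w` at height about `η`. -/
structure KAMCurve (Θ Jn : R3 → ℝ) (e w η : ℝ) (u j : ℝ → ℝ) : Prop where
  cu : ContDiff ℝ 1 u
  cj : ContDiff ℝ 1 j
  peru : ∀ θ, u (θ + 2 * Real.pi) = u θ + 2 * Real.pi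
  perj : ∀ θ, j (θ + 2 * Real.pi) = j θ
  du : ∀ θ, 1 / 2 ≤ deriv u θ ∧ deriv u θ ≤ 2
  dj : ∀ θ, |deriv j θ| ≤ 1
  range : ∀ θ, η / 2 ≤ j θ ∧ j θ ≤ 3 * η
  inv : ∀ θ, Θ (u θ, j θ, e) = u (θ + w) ∧ Jn (u θ, j θ, e) = j (θ + w)

def HasKAM (Θ Jn : R3 → ℝ) (α : ℝ → ℝ) (e0 ε : ℝ) : Prop :=
  ∀ γ > 0, ∃ r' > 0, ∀ η : ℝ, 0 < η → η < r' → ∀ e : ℝ, |e - e0| < ε → ∀ w ∈ DC γ,
    η ≤ w - α e → w - α e ≤ 2 * η → ∃ u j, KAMCurve Θ Jn e w η u j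

/-! ### Integrals and periodic graphs -/

structure IntegralR (F Θ Jn : R3 → ℝ) (e0 ε r : ℝ) : Prop where
  smooth : ContDiffOn ℝ 1 F (domR e0 ε r)
  per : ∀ p : R3, F (p.1 + 2 * Real.pi, p.2) = F p
  inv : ∀ p ∈ domR e0 ε r, (Θ p, Jn p, p.2.2) ∈ domR e0 ε r → F (Θ p, Jn p, p.2.2) = F p

def critR (F : R3 → ℝ) (e0 ε r : ℝ) : Set R3 :=
  {p | p ∈ domR e0 ε r ∧ |p.1| < Real.pi ∧ r1 F p = 0 ∧ r2 F p = 0}

/-- The circle map induced on the graph of `h`. -/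
def gmap (Θ : R3 → ℝ) (e : ℝ) (h : ℝ → ℝ) (θ : ℝ) : ℝ := Θ (θ, h θ, e)

/-- An invariant graph all of whose points are periodic of type `(p, l)`. -/
structure PerGraph (Θ Jn : R3 → ℝ) (l : ℕ) (p : ℤ) (e : ℝ) (h : ℝ → ℝ) : Prop where
  per : ∀ θ, h (θ + 2 * Real.pi) = h θ
  pos : ∀ θ, 0 < h θ
  inv : ∀ θ, Jn (θ, h θ, e) = h (gmap Θ e h θ)
  mono : StrictMono (gmap Θ e h)
  ret : ∀ θ, (gmap Θ e h)^[l] θ = θ + 2 * Real.pi * p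

/-- The map on the extended space. -/
def step (Θ Jn : R3 → ℝ) (p : R3) : R3 := (Θ p, Jn p, p.2.2)

/-- A two-parameter family of invariant graphs, each conjugate to a translation. -/
structure Tube (Θ Jn : R3 → ℝ) (e1 v1 ρ b : ℝ) (H : R3 → ℝ) : Prop where
  ρ_pos : 0 < ρ
  cont : ContinuousOn H {q | |q.2.1 - v1| < ρ ∧ |q.2.2 - e1| < ρ}
  per : ∀ θ v e, |v - v1| < ρ → |e - e1| < ρ → H (θ + 2 * Real.pi, v, e) = H (θ, v, e)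
  range : ∀ θ v e, |v - v1| < ρ → |e - e1| < ρ → 0 < H (θ, v, e) ∧ H (θ, v, e) < b
  inv : ∀ θ v e, |v - v1| < ρ → |e - e1| < ρ →
    Jn (θ, H (θ, v, e), e) = H (Θ (θ, H (θ, v, e), e), v, e)
  mono : ∀ θ v v' e, |v - v1| < ρ → |v' - v1| < ρ → |e - e1| < ρ → v < v' →
    H (θ, v, e) < H (θ, v', e)
  cnj : ∀ v e, |v - v1| < ρ → |e - e1| < ρ → ∃ (u : ℝ → ℝ) (U s : ℝ), StrictMono u ∧
    Continuous u ∧ (∀ θ, u (θ + 2 * Real.pi) = u θ + U) ∧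
    ∀ θ, u (Θ (θ, H (θ, v, e), e)) = u θ + s

/-! ### The formal map -/

section Alg

variable {R : Type} [CommRing R]

def Pi3 (a : Fin 3 → R) : R := a 0 * a 1 * a 2

/-- `Pi3 a * Bf t a i`. -/
def Bt (t : R) (a : Fin 3 → R) (i : Fin 3) : R :=
  Pi3 a * ((a i + t) ^ 2 + t ^ 2) -
    t * (a i + t) * (a (i + 2) ^ 2 - a i ^ 2 - a (i + 1) ^ 2) * a (i + 2)

/-- `Pi3 a * Df t a i`. -/
def Dt (t : R) (a : Fin 3 → R) (i : Fin 3) : R :=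
  Pi3 a * ((a i + t) ^ 2 + t ^ 2) -
    t * (a i + t) * (a (i + 1) ^ 2 - a i ^ 2 - a (i + 2) ^ 2) * a (i + 1)

/-- Heron's form: sixteen times the squared area in terms of squared sides. -/
def her (b : Fin 3 → R) : R :=
  2 * (b 0 * b 1 + b 1 * b 2 + b 2 * b 0) - (b 0 ^ 2 + b 1 ^ 2 + b 2 ^ 2)

/-- Sides in terms of the coordinates `(z, w, s)`. -/
def aOf (w : R) (x : Fin 3 → R) (i : Fin 3) : R :=
  1 + x 2 + w ^ i.val * x 0 + w ^ (2 * i.val) * x 1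

end Alg

abbrev P3 (O : Type) [CommRing O] := MvPolynomial (Fin 3) O
abbrev P2 (O : Type) [CommRing O] := MvPolynomial (Fin 2) O
abbrev I3 (O : Type) [CommRing O] : Ideal (P3 O) := MvPolynomial.idealOfVars (Fin 3) O
abbrev I2 (O : Type) [CommRing O] : Ideal (P2 O) := MvPolynomial.idealOfVars (Fin 2) O

/-- Arithmetic data: a local ring in which `t` and `l` are not units. -/
structure Ctx (O : Type) [CommRing O] [IsLocalRing O] (l : ℕ) where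
  w : O
  t : O
  ze : O
  mu : ℕ → O
  hw : w ^ 2 + w + 1 = 0
  ht0 : t ≠ 0
  htm : t ∈ IsLocalRing.maximalIdeal O
  hlm : (l : O) ∈ IsLocalRing.maximalIdeal O
  hp : l.Prime
  h5 : 5 ≤ l
  hze : IsPrimitiveRoot ze l
  hlam : (1 + t * (1 - w ^ 2)) * (2 + t * (1 - w ^ 2)) * ze = (1 + t * (1 - w)) * (2 + t * (1 - w))
  hmu : ∀ j, t * mu j = ze ^ j - 1
  hmu1 : 2 * mu 1 + 3 * (1 + 2 * w) ∈ IsLocalRing.maximalIdeal O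
  hmuj : ∀ j : ℕ, mu j - j * mu 1 ∈ IsLocalRing.maximalIdeal O
  h2 : IsUnit (2 : O)
  h3 : IsUnit (3 : O)

section FM

open MvPolynomial

variable {O : Type} [CommRing O] [IsLocalRing O] {l : ℕ}

/-- The sides as polynomials in `z = X 0`, `w = X 1`, `s = X 2`. -/
def Ctx.a (c : Ctx O l) : Fin 3 → P3 O := aOf (C c.w) X

def Ctx.p0 (c : Ctx O l) : O := ∏ j ∈ Finset.Ico 1 l, (-c.mu j)

/-- The ideal generated by the maximal ideal and `I ^ N`. -/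
def Jm (O : Type) [CommRing O] [IsLocalRing O] (N : ℕ) : Ideal (P3 O) :=
  (IsLocalRing.maximalIdeal O).map (C : O →+* P3 O) ⊔ I3 O ^ N

/-- The map `B⁻¹ ∘ D` as a polynomial map `x + t G` modulo `I ^ N`, with `F = 1 + t L`. -/
structure FM (c : Ctx O l) (N : ℕ) where
  G : Fin 3 → P3 O
  L : Module.End O (P3 O)
  hG : ∀ i, G i ∈ I3 O
  hL : ∀ p : P3 O, aeval (fun i => X i + C c.t * G i) p = p + C c.t * L p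
  eqn : ∀ i, Pi3 c.a * aeval (fun i => X i + C c.t * G i) (Bt (C c.t) c.a i) -
    aeval (fun i => X i + C c.t * G i) (Pi3 c.a) * Dt (C c.t) c.a i ∈ I3 O ^ N

variable {c : Ctx O l} {N : ℕ}

def FM.F (m : FM c N) : P3 O →ₐ[O] P3 O := aeval (fun i => X i + C c.t * m.G i)

def FM.Eh (m : FM c N) : Module.End O (P3 O) :=
  Polynomial.aeval m.L (∏ j ∈ Finset.range l, (Polynomial.X - Polynomial.C (c.mu j)))

def FM.Th (m : FM c N) : P3 O :=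
  Polynomial.aeval m.L (∏ j ∈ Finset.Ico 1 l, (Polynomial.X - Polynomial.C (c.mu j))) (X 2)

/-- Increment of side `i`, divided by `t`. -/
def FM.A (m : FM c N) (i : Fin 3) : P3 O :=
  m.G 2 + C c.w ^ i.val * m.G 0 + C c.w ^ (2 * i.val) * m.G 1

structure FM.FactsA (m : FM c N) : Prop where
  pres : ∀ (d : ℕ) (p : P3 O), p ∈ I3 O ^ d → m.L p ∈ I3 O ^ d
  one : m.L 1 = 0
  ret : ∀ p, (m.F : P3 O → P3 O)^[l] p - p = C c.t ^ l * m.Eh p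
  sum : ∑ k ∈ Finset.range l, (m.F : P3 O → P3 O)^[k] (X 2) = C c.t ^ (l - 1) * m.Th
  der : ∀ p, ∃ q, m.L p = ∑ i, m.G i * pderiv i p + C c.t * q
  field : ∀ i, 2 * Pi3 c.a * m.A i - (c.a (i + 2) - c.a (i + 1)) *
    ((c.a (i + 1) + c.a (i + 2)) ^ 2 - c.a i ^ 2) ∈ Jm O N

structure FM.FactsB (m : FM c N) : Prop where
  ez : ∃ α : O, IsUnit α ∧ m.Eh (X 0) - C α * (X 0 * X 2) ∈ I3 O ^ 3
  ew : ∃ α : O, IsUnit α ∧ m.Eh (X 1) - C α * (X 1 * X 2) ∈ I3 O ^ 3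
  ls : m.L (X 2) ∈ I3 O ^ 2
  lss : m.L (X 2 * X 2) ∈ I3 O ^ 3
  lzw : m.L (X 0 * X 1) ∈ I3 O ^ 3

/-- Restriction to the surface `s = ψ (z, w)`. -/
def res (ψ : P2 O) : P3 O →ₐ[O] P2 O := aeval ![X 0, X 1, ψ]

/-- The bracket for the derivations `z ∂_z` and `w ∂_w`. -/
def br (f g : P2 O) : P2 O :=
  X 0 * pderiv 0 f * (X 1 * pderiv 1 g) - X 1 * pderiv 1 f * (X 0 * pderiv 0 g)

/-- Heron's form of the squared sides, as a polynomial in `(z, w, s)`. -/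
def Hpoly (O : Type) [CommRing O] : P3 O :=
  3 * (1 + X 2) ^ 4 - 36 * (1 + X 2) ^ 2 * (X 0 * X 1) - 24 * (1 + X 2) * (X 0 ^ 3 + X 1 ^ 3)

/-- The invariant `C0` and the function `M` with leading term `z w` on the surface. -/
structure FM.MData (m : FM c N) (C0 M : P3 O) : Prop where
  hC : Pi3 c.a ^ 2 * C0 - her (Bt (C c.t) c.a) ∈ I3 O ^ N
  comb : ∃ cs c00 : O, M - (C c.p0 * C0 - C cs * m.Th - C c00) ∈ I3 O ^ N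
  lead : ∃ μ css : O, IsUnit μ ∧ M - C μ * (X 0 * X 1) - C css * (X 2 * X 2) ∈ I3 O ^ 3
  unit : IsUnit c.p0
  memT : m.Th ∈ I3 O
  redT : m.Th - C c.p0 * X 2 ∈ Jm O N
  redM : M - C c.p0 * (Hpoly O - 3 - 12 * X 2) ∈ Jm O N

end FM

/-- Points approaching the origin from every direction at which `Eh` is small. -/
def Seqs {O : ValuationSubring ℂ} {l N : ℕ} {c : Ctx O l} (m : FM c N) : Prop :=
  ∀ u : ℂ, ‖u‖ = 1 → ∃ (C : ℝ) (z s : ℕ → ℂ), (∀ k, z k ≠ 0) ∧ Tendsto z atTop (𝓝 0) ∧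
    Tendsto (fun k => z k / ((‖z k‖ : ℝ) : ℂ)) atTop (𝓝 u) ∧ (∀ k, ‖s k‖ ≤ C * ‖z k‖) ∧
    ∀ k i, ‖MvPolynomial.aeval ![z k, conj (z k), s k] (m.Eh (MvPolynomial.X i))‖ ≤
      C * ‖z k‖ ^ N

end Pool.Agent.MP_62f0b1_an.AE

end
end MrgPart0

-- ======== part 1: formerly Pool.Agent.MP_62f0b1_an.ae.Spec
section MrgPart1

/-!
Statements of the modules.  Row `X` proves `theorem x : XStmt` in the file `ae/X.lean`.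
-/

set_option autoImplicit false

noncomputable section

namespace Pool.Agent.MP_62f0b1_an.AE

open Complex Filter Topology Set MeasureTheory
open scoped ComplexConjugate

/-! ### G: normal form -/

def G1Stmt : Prop :=
  ∀ (f g : C3 → ℂ) (e0 : ℝ), Germ f g e0 → ∃ l a b l' a' b' : ℂ → ℂ, Expn f g e0 l a b l' a' b'

def G2Stmt : Prop := G1Stmt →
  ∀ (f g : C3 → ℂ) (e0 : ℝ) (l a b l' a' b' : ℂ → ℂ), Germ f g e0 → Expn f g e0 l a b l' a' b' →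
    (∀ᶠ p in 𝓝 (base e0), jacC f g p = 1) → l e0 ^ 3 ≠ 1 →
    0 < (b e0 / l e0 + 2 * a e0 * a' e0 / (l e0 ^ 3 - 1)).im → 0 < (deriv l e0 / l e0).im →
    ∃ (F G : C3 → ℂ) (α ν k κ : ℂ → ℂ), NF F G e0 α ν k ∧ Conj f F κ e0 ∧
      ∀ᶠ e : ℂ in 𝓝 (e0 : ℂ), l e = exp (I * α e)

def G3Stmt : Prop :=
  ∀ (F G : C3 → ℂ) (e0 : ℝ) (α ν k : ℂ → ℂ), NF F G e0 α ν k → ∀ N ∈ 𝓝 (base e0),
    ∃ (Θ Jn : C3 → ℂ) (χ : R3 → ℂ) (ε r : ℝ), TwistC Θ Jn (fun e : ℝ => (α e).re) e0 ε r ∧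
      Chart F χ (reF Θ) (reF Jn) e0 ε r N

def G6Stmt : Prop :=
  ∀ (f F : C3 → ℂ) (κ : ℂ → ℂ) (e0 : ℝ), Conj f F κ e0 → ∀ N ∈ 𝓝 (base e0),
    ∃ N' ∈ 𝓝 (base e0), ∀ (χ : R3 → ℂ) (Θ Jn : R3 → ℝ) (ε r : ℝ), Chart F χ Θ Jn e0 ε r N' →
      Chart f (fun p => χ p + κ p.2.2 * conj (χ p) ^ 2) Θ Jn e0 ε r N

/-- The reduced map near the equilateral point with side `η0` before applying `r_t`. -/
structure Red (t η0 : ℝ) (f g : C3 → ℂ) (β : C3 → Fin 3 → ℂ) (U : Set C3) : Prop where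
  germ : Germ f g (η0 ^ 2 + 3 * t * η0 + 3 * t ^ 2)
  jac : ∀ᶠ p in 𝓝 (base (η0 ^ 2 + 3 * t * η0 + 3 * t ^ 2)), jacC f g p = 1
  isOpen : IsOpen U
  mem : base (η0 ^ 2 + 3 * t * η0 + 3 * t ^ 2) ∈ U
  an : AnalyticOnNhd ℂ β U
  eqB : ∀ p ∈ U, Bf (t : ℂ) (β p) = Phi p
  eqD : ∀ p ∈ U, Df (t : ℂ) (β p) = Phi (f p, g p, p.2.2)
  real : ∀ (z : ℂ) (c : ℝ), rp z c ∈ U → g (rp z c) = conj (f (rp z c)) ∧
    ∀ i, (β (rp z c) i).im = 0 ∧ 0 < (β (rp z c) i).re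
  diag : ∀ c : ℝ, base c ∈ U → ∃ η : ℝ, 0 < η ∧ β (base c) = (fun _ => (η : ℂ)) ∧
    c = η ^ 2 + 3 * t * η + 3 * t ^ 2
  loc : ∀ᶠ a : Fin 3 → ℂ in 𝓝 (fun _ => (η0 : ℂ)),
    f (PhiInv (Bf (t : ℂ) a)) = (PhiInv (Df (t : ℂ) a)).1

def G4bStmt : Prop :=
  ∀ (t c0 : ℝ) (f g : C3 → ℂ) (β : C3 → Fin 3 → ℂ), 0 < c0 → AnalyticAt ℂ f (base c0) →
    AnalyticAt ℂ g (base c0) → f (base c0) = 0 → g (base c0) = 0 → AnalyticAt ℂ β (base c0) →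
    (∀ i, β (base c0) i ≠ 0) → (∀ᶠ p in 𝓝 (base c0), Bf (t : ℂ) (β p) = Phi p) →
    (∀ᶠ p in 𝓝 (base c0), Df (t : ℂ) (β p) = Phi (f p, g p, p.2.2)) →
    ∀ᶠ p in 𝓝 (base c0), jacC f g p = 1

def G4Concl : Prop :=
  ∀ t η0 : ℝ, 0 < t → 0 < η0 → ∃ f g β U, Red t η0 f g β U

def G4Stmt : Prop := G4bStmt → G4Concl

def G5Stmt : Prop :=
  ∀ (t η0 c0 : ℝ) (f g : C3 → ℂ) (β : C3 → Fin 3 → ℂ) (U : Set C3) (l a b l' a' b' : ℂ → ℂ),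
    0 < t → 0 < η0 → c0 = η0 ^ 2 + 3 * t * η0 + 3 * t ^ 2 → Red t η0 f g β U →
    Expn f g c0 l a b l' a' b' →
    l c0 ^ 3 ≠ 1 ∧ 0 < (b c0 / l c0 + 2 * a c0 * a' c0 / (l c0 ^ 3 - 1)).im ∧
      0 < (deriv l c0 / l c0).im ∧
      ∀ᶠ e : ℝ in 𝓝 c0, ∀ η : ℝ, 0 < η → e = η ^ 2 + 3 * t * η + 3 * t ^ 2 →
        l e = lam ((t / η : ℝ) : ℂ)

/-! ### R, X, K: real estimates, zero flux, KAM -/

def RStmt : Prop :=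
  ∀ (Θ Jn : C3 → ℂ) (α : ℝ → ℝ) (e0 ε r : ℝ), TwistC Θ Jn α e0 ε r →
    TwistR (reF Θ) (reF Jn) α e0 ε r

def XStmt : Prop :=
  ∀ (Θ Jn : R3 → ℝ) (α : ℝ → ℝ) (e0 ε r : ℝ), TwistR Θ Jn α e0 ε r → Exact Θ Jn e0 ε r

def K1Stmt : Prop :=
  ∃ C1 > (0 : ℝ), ∀ (γ w ρ d M : ℝ) (g : ℂ → ℂ), 0 < γ → w ∈ DC γ → 0 < d → d < ρ → ρ ≤ 1 →
    PerHol ρ g → (∀ x ∈ Strip ρ, ‖g x‖ ≤ M) → (∫ θ in (0 : ℝ)..2 * Real.pi, g θ = 0) →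
    ∃ ξ : ℂ → ℂ, PerHol (ρ - d) ξ ∧ (∀ x ∈ Strip (ρ - d), ‖ξ x‖ ≤ C1 * M / (γ * d ^ 3)) ∧
      ∀ x ∈ Strip (ρ - d), ξ (x + w) - ξ x = g x

def K2Concl : Prop :=
  ∃ C2 > (0 : ℝ), ∀ (γ w η δ ρ d E : ℝ) (A B : ℂ × ℂ → ℂ) (φ : ℂ → ℂ), 0 < γ → γ ≤ 1 →
    w ∈ DC γ → 0 < η → η ≤ 1 → δ ≤ 1 / 100 → LData η δ A B → 0 < d → 4 * d < ρ → ρ ≤ 1 / 2 →
    PerHol ρ φ → (∀ x ∈ Strip ρ, ‖φ x‖ ≤ 1 / 8 ∧ ‖deriv φ x‖ ≤ 1 / 8) →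
    (∀ x ∈ Strip ρ, ‖errL η w A B φ x‖ ≤ E) → C2 * E / (γ ^ 2 * d ^ 7) ≤ 1 / 16 →
    ∃ ψ : ℂ → ℂ, PerHol (ρ - 4 * d) ψ ∧ ∀ x ∈ Strip (ρ - 4 * d),
      ‖ψ x‖ ≤ C2 * E / (γ ^ 2 * d ^ 7) ∧ ‖deriv ψ x‖ ≤ C2 * E / (γ ^ 2 * d ^ 7) ∧
      ‖errL η w A B (fun y => φ y + ψ y) x‖ ≤ C2 * E ^ 2 / (γ ^ 4 * d ^ 14)

def K2Stmt : Prop := K1Stmt → K2Concl

def KLConcl : Prop :=
  ∀ γ > (0 : ℝ), ∃ δ0 > (0 : ℝ), ∀ (w η : ℝ) (A B : ℂ × ℂ → ℂ), w ∈ DC γ → 0 < η → η ≤ 1 →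
    LData η δ0 A B → ∃ φ : ℂ → ℂ, PerHol (1 / 4) φ ∧
      ∀ x ∈ Strip (1 / 4), ‖φ x‖ ≤ 1 / 8 ∧ ‖deriv φ x‖ ≤ 1 / 8 ∧ errL η w A B φ x = 0

def K3Stmt : Prop := K2Concl → KLConcl

/-- The mixed form of a twist family at height `η`. -/
def K0aConcl : Prop :=
  ∀ (Θ Jn : C3 → ℂ) (α : ℝ → ℝ) (e0 ε r : ℝ), TwistC Θ Jn α e0 ε r →
    Exact (reF Θ) (reF Jn) e0 ε r → ∀ δ > (0 : ℝ), ∃ r' > (0 : ℝ), ∀ η e w : ℝ, 0 < η → η < r' →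
      |e - e0| < ε → η ≤ w - α e → w - α e ≤ 2 * η →
      ∃ A B : ℂ × ℂ → ℂ, LData (η / 4) δ A B ∧ ∀ p ∈ domL,
        Θ (p.1, (w - α e : ℝ) + (η / 4 : ℝ) * (p.2 + A p), e) = p.1 + w + (η / 4 : ℝ) * p.2 ∧
        Jn (p.1, (w - α e : ℝ) + (η / 4 : ℝ) * (p.2 + A p), e) =
          (w - α e : ℝ) + (η / 4 : ℝ) * (p.2 + B p)

def K0aStmt : Prop := K0aConcl

def K0bStmt : Prop := K0aConcl → KLConcl →
  ∀ (Θ Jn : C3 → ℂ) (α : ℝ → ℝ) (e0 ε r : ℝ), TwistC Θ Jn α e0 ε r →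
    Exact (reF Θ) (reF Jn) e0 ε r → HasKAM (reF Θ) (reF Jn) α e0 ε

/-! ### M: from a null critical set to periodic graphs -/

def M0Stmt : Prop :=
  ∀ x1 x2 : ℝ, x1 < x2 → ∃ γ > (0 : ℝ), volume (DC γ ∩ Ioo x1 x2) ≠ 0

def M1Stmt : Prop :=
  ∀ (Ω : Set ℝ) (g : ℝ → ℝ → ℝ) (L C : ℝ) (K : Set (ℝ × ℝ)), IsCompact K → volume K = 0 →
    (∀ w ∈ Ω, ∀ x y, |g w x - g w y| ≤ L * |x - y|) →
    (∀ w ∈ Ω, ∀ x ∈ Icc (-Real.pi) Real.pi, (x, g w x) ∈ K) →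
    (∀ w1 ∈ Ω, ∀ w2 ∈ Ω, w1 < w2 → (∀ x, g w1 x ≤ g w2 x) ∧
      w2 - w1 ≤ C * ∫ x in (-Real.pi)..Real.pi, (g w2 x - g w1 x)) →
    volume Ω = 0

def M2Stmt : Prop :=
  ∀ (Θ Jn : R3 → ℝ) (α : ℝ → ℝ) (e0 ε r : ℝ), TwistR Θ Jn α e0 ε r →
    ∃ r' > (0 : ℝ), ∃ C : ℝ, ∀ η e : ℝ, 0 < η → η < r' → |e - e0| < ε →
      ∀ (Ω : Set ℝ) (u j : ℝ → ℝ → ℝ), (∀ w ∈ Ω, KAMCurve Θ Jn e w η (u w) (j w)) →
        ∃ g : ℝ → ℝ → ℝ, (∀ w ∈ Ω, ∀ x, ∃ θ, u w θ = x ∧ g w x = j w θ) ∧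
          (∀ w ∈ Ω, ∀ x y, |g w x - g w y| ≤ 2 * |x - y|) ∧
          ∀ w1 ∈ Ω, ∀ w2 ∈ Ω, w1 < w2 → (∀ x, g w1 x ≤ g w2 x) ∧
            w2 - w1 ≤ C * ∫ x in (-Real.pi)..Real.pi, (g w2 x - g w1 x)

def M3aStmt : Prop :=
  ∀ (F Θ Jn : R3 → ℝ) (α : ℝ → ℝ) (e0 ε r : ℝ), TwistR Θ Jn α e0 ε r → IntegralR F Θ Jn e0 ε r →
    ∀ (e1 w η : ℝ) (u j : ℝ → ℝ), |e1 - e0| < ε → 0 < η → 4 * η < r →
      KAMCurve Θ Jn e1 w η u j → Irrational (w / (2 * Real.pi)) →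
      (∃ θ, ¬ (r1 F (u θ, j θ, e1) = 0 ∧ r2 F (u θ, j θ, e1) = 0)) →
      ∀ ρ0 > (0 : ℝ), ∃ (v1 ρ : ℝ) (H : R3 → ℝ), ρ ≤ ρ0 ∧ Tube Θ Jn e1 v1 ρ (4 * η) H

def M3bStmt : Prop :=
  ∀ (Θ Jn : R3 → ℝ) (α : ℝ → ℝ) (e0 ε r : ℝ), TwistR Θ Jn α e0 ε r →
    ∃ r' > (0 : ℝ), ∀ (e1 v1 ρ b : ℝ) (H : R3 → ℝ), b ≤ r' → |e1 - e0| + ρ ≤ ε →
      Tube Θ Jn e1 v1 ρ b H → ∀ N0 : ℕ, ∃ (l : ℕ) (p : ℤ) (ρ' : ℝ), l.Prime ∧ l % 8 = 3 ∧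
        N0 < l ∧ 0 < ρ' ∧ ρ' ≤ ρ ∧
        ∀ e, |e - e1| < ρ' → ∃ h, PerGraph Θ Jn l p e h ∧ ∀ θ, h θ < b

def MConcl : Prop :=
  ∀ (F Θ Jn : R3 → ℝ) (α : ℝ → ℝ) (e0 ε r : ℝ), TwistR Θ Jn α e0 ε r → HasKAM Θ Jn α e0 ε →
    IntegralR F Θ Jn e0 ε r → volume (critR F e0 ε r) = 0 →
    ∀ b > (0 : ℝ), ∀ N0 : ℕ, ∃ (l : ℕ) (p : ℤ) (ea eb : ℝ), l.Prime ∧ l % 8 = 3 ∧ N0 < l ∧
      e0 - ε / 2 ≤ ea ∧ ea < eb ∧ eb ≤ e0 ∧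
      ∀ e ∈ Ioo ea eb, ∃ h, PerGraph Θ Jn l p e h ∧ ∀ θ, h θ < b

def M4Stmt : Prop := M0Stmt → M1Stmt → M2Stmt → M3aStmt → M3bStmt → MConcl

/-! ### C: continuation of periodic graphs -/

def C1Stmt : Prop :=
  ∀ (Θ Jn : R3 → ℝ) (α : ℝ → ℝ) (e0 ε r : ℝ), TwistR Θ Jn α e0 ε r →
    ∃ r1 > (0 : ℝ), r1 ≤ r ∧ ∀ (l : ℕ) (p : ℤ) (e : ℝ) (h : ℝ → ℝ), 0 < l → |e - e0| < ε →
      PerGraph Θ Jn l p e h → (∀ θ, h θ < r1) →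
      (∀ x y, |h x - h y| ≤ |x - y|) ∧
        ∀ θ, (2 * Real.pi * p / l - α e) / 2 ≤ h θ ∧ h θ ≤ 2 * (2 * Real.pi * p / l - α e)

def C2Stmt : Prop :=
  ∀ (Θ Jn : R3 → ℝ) (α : ℝ → ℝ) (e0 ε r : ℝ), TwistR Θ Jn α e0 ε r →
    ∀ (l : ℕ) (p : ℤ) (es m M : ℝ) (H : ℝ → ℝ → ℝ), 0 < l → |es - e0| < ε → 0 < m → M < r →
      (∀ᶠ e in 𝓝[<] es, PerGraph Θ Jn l p e (H e) ∧ (∀ x y, |H e x - H e y| ≤ |x - y|) ∧
        ∀ θ, m ≤ H e θ ∧ H e θ ≤ M) →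
      ∃ (𝒰 : Filter ℝ) (h : ℝ → ℝ), 𝒰.NeBot ∧ 𝒰 ≤ 𝓝[<] es ∧ PerGraph Θ Jn l p es h ∧
        (∀ x y, |h x - h y| ≤ |x - y|) ∧ (∀ θ, m ≤ h θ ∧ h θ ≤ M) ∧
        ∀ θ, Tendsto (fun e => H e θ) 𝒰 (𝓝 (h θ))

def C3Stmt : Prop :=
  ∀ (Θ Jn : R3 → ℝ) (α : ℝ → ℝ) (e0 ε r : ℝ), TwistR Θ Jn α e0 ε r →
    ∃ r1 > (0 : ℝ), ∀ (l : ℕ) (p : ℤ) (e : ℝ) (h : ℝ → ℝ), 0 < l → |e - e0| < ε →
      PerGraph Θ Jn l p e h → (∀ θ, h θ < r1) → (∀ x y, |h x - h y| ≤ |x - y|) →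
      ∀ θ, 0 < r2 (fun q => ((step Θ Jn)^[l] q).1) (θ, h θ, e)

def C4Stmt : Prop :=
  ∀ (Θ Jn : R3 → ℝ) (α : ℝ → ℝ) (e0 ε r : ℝ), TwistR Θ Jn α e0 ε r →
    ∀ (l : ℕ) (p : ℤ) (es m M b : ℝ) (H : ℝ → ℝ → ℝ) (h : ℝ → ℝ) (𝒰 : Filter ℝ), 0 < l →
      |es - e0| < ε → 0 < m → M < b → b ≤ r → PerGraph Θ Jn l p es h →
      (∀ x y, |h x - h y| ≤ |x - y|) → (∀ θ, m ≤ h θ ∧ h θ ≤ M) →
      (∀ θ, 0 < r2 (fun q => ((step Θ Jn)^[l] q).1) (θ, h θ, es)) →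
      𝒰.NeBot → 𝒰 ≤ 𝓝[<] es → (∀ᶠ e in 𝒰, PerGraph Θ Jn l p e (H e)) →
      (∀ θ, Tendsto (fun e => H e θ) 𝒰 (𝓝 (h θ))) →
      ∃ ρ > (0 : ℝ), ∀ e, |e - es| < ρ → ∃ h', PerGraph Θ Jn l p e h' ∧ ∀ θ, h' θ < b

def CConcl : Prop :=
  ∀ (Θ Jn : R3 → ℝ) (α : ℝ → ℝ) (e0 ε r : ℝ), TwistR Θ Jn α e0 ε r →
    ∃ b > (0 : ℝ), ∀ (l : ℕ) (p : ℤ) (ea eb : ℝ), 0 < l → e0 - ε / 2 ≤ ea → ea < eb → eb ≤ e0 →
      (∀ e ∈ Ioo ea eb, ∃ h, PerGraph Θ Jn l p e h ∧ ∀ θ, h θ < b) →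
      ∃ es e' : ℝ, |es - e0| < ε ∧ |e' - e0| < ε ∧ e' < es ∧ α es = 2 * Real.pi * p / l ∧
        ∀ e ∈ Ioo e' es, ∃ h, PerGraph Θ Jn l p e h ∧
          ∀ θ, h θ < r ∧ (α es - α e) / 2 ≤ h θ ∧ h θ ≤ 2 * (α es - α e)

def C5Stmt : Prop := C1Stmt → C2Stmt → C3Stmt → C4Stmt → CConcl

/-! ### A: the arithmetic obstruction -/

def A1aStmt : Prop :=
  ∀ l : ℕ, l.Prime → l % 8 = 3 → 3 < l → ∀ ze : ℂ, IsPrimitiveRoot ze l →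
    ∀ p : Polynomial ℚ, Polynomial.aeval (ze * om ^ 2) p ^ 2 ≠
      (ze * om ^ 2) ^ 2 + 10 * (ze * om ^ 2) + 1

def A1Concl : Prop :=
  ∀ l : ℕ, l.Prime → l % 8 = 3 → 3 < l → ∀ τ : ℝ, 0 < τ → lam τ ^ l = 1 →
    ∃ (O : ValuationSubring ℂ) (c : Ctx O l), (c.w : ℂ) = om ∧ (c.t : ℂ) = τ

def A1bStmt : Prop := A1aStmt → A1Concl

def A2Stmt : Prop :=
  ∀ (O : Type) [CommRing O] [IsDomain O] [IsLocalRing O] (l : ℕ) (c : Ctx O l) (N : ℕ),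
    Nonempty (FM c N)

def A3aStmt : Prop :=
  ∀ (O : Type) [CommRing O] [IsDomain O] [IsLocalRing O] (l : ℕ) (c : Ctx O l) (N : ℕ)
    (m : FM c N), m.FactsA

def A3bStmt : Prop :=
  ∀ (O : Type) [CommRing O] [IsDomain O] [IsLocalRing O] (l : ℕ) (c : Ctx O l) (N : ℕ)
    (m : FM c N), 3 ≤ N → m.FactsA → m.FactsB

def A0aStmt : Prop :=
  ∀ (O : ValuationSubring ℂ) (l N : ℕ) (c : Ctx O l) (m : FM c N) (τ : ℝ), 0 < τ →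
    (c.w : ℂ) = om → (c.t : ℂ) = τ → 1 ≤ N → m.FactsA → PER l τ → Seqs m

def A0bStmt : Prop :=
  ∀ (O : ValuationSubring ℂ) (l N : ℕ) (c : Ctx O l) (m : FM c N), 4 ≤ N → m.FactsB → Seqs m →
    ∃ ψ ∈ I2 O ^ 2, ∀ i, res ψ (m.Eh (MvPolynomial.X i)) ∈ I2 O ^ (N - 2)

def A4Stmt : Prop :=
  ∀ (O : Type) [CommRing O] [IsDomain O] [IsLocalRing O] (l : ℕ) (c : Ctx O l) (N K : ℕ)
    (m : FM c N) (ψ : P2 O) (C0 : P3 O), K ≤ N → m.FactsA → ψ ∈ I2 O ^ 2 →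
    (∀ i, res ψ (m.Eh (MvPolynomial.X i)) ∈ I2 O ^ K) →
    Pi3 c.a ^ 2 * C0 - her (Bt (MvPolynomial.C c.t) c.a) ∈ I3 O ^ N →
    br (res ψ C0) (res ψ m.Th) ∈ I2 O ^ K

def A5Stmt : Prop :=
  ∀ (O : Type) [CommRing O] [IsDomain O] [IsLocalRing O] (l : ℕ) (c : Ctx O l) (N : ℕ)
    (m : FM c N), 3 ≤ N → m.FactsA → m.FactsB → ∃ C0 M, m.MData C0 M

def A6Stmt : Prop :=
  ∀ (O : Type) [CommRing O] [IsDomain O] [CharZero O] (K : ℕ) (μ : O) (M T : P2 O), IsUnit μ →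
    M - MvPolynomial.C μ * (MvPolynomial.X 0 * MvPolynomial.X 1) ∈ I2 O ^ 3 → T ∈ I2 O →
    br M T ∈ I2 O ^ K → ∃ U : P2 O, T - M * U ∈ I2 O ^ (K - 2)

def A8Stmt : Prop :=
  ∀ (k : Type) [Field k] (l : ℕ), l.Prime → 5 ≤ l → (l : k) = 0 → ∀ (β : k) (Y : PowerSeries k)
    (K : ℕ), β ≠ 0 → 3 * l + 2 ≤ K → PowerSeries.coeff 0 Y = 0 →
    PowerSeries.X ^ K ∣ (1 + PowerSeries.X ^ 3) ^ 2 * (PowerSeries.X * PowerSeries.derivative k Y) -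
      ((1 + PowerSeries.X ^ 3) ^ 2 + PowerSeries.C β * PowerSeries.X ^ 3) * Y →
    PowerSeries.coeff 1 Y = 0

def A7Stmt : Prop := A8Stmt →
  ∀ (O : Type) [CommRing O] [IsDomain O] [IsLocalRing O] (l : ℕ) (c : Ctx O l) (N K : ℕ)
    (m : FM c N) (ψ U : P2 O) (C0 M : P3 O), 3 * l + 2 ≤ K → K ≤ N → m.FactsA → m.MData C0 M →
    ψ ∈ I2 O ^ 2 → res ψ (m.Eh (MvPolynomial.X 0)) ∈ I2 O ^ K →
    res ψ m.Th - res ψ M * U ∈ I2 O ^ K → False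

def AConcl : Prop :=
  ∀ l : ℕ, l.Prime → l % 8 = 3 → 3 < l → ∀ τ : ℝ, 0 < τ → lam τ ^ l = 1 → ¬ PER l τ

/-! ### W: triangles -/

def W1aStmt : Prop :=
  ∀ (t c : ℝ) (a : Fin 3 → ℝ) (z z' : ℂ), 0 < t → 0 < c → (∀ i, 0 < a i) →
    (∀ i, ((Bf t a i : ℝ) : ℂ) = Phi (rp z c) i) → (∀ i, ((Df t a i : ℝ) : ℂ) = Phi (rp z' c) i) →
    ∃ (P : Fin 3 → ℂ) (m ρ m' ρ' : ℂ), IsPolygon P ∧ ‖ρ‖ = 1 ∧ ‖ρ'‖ = 1 ∧
      rMap t P = (fun i => m + ρ * tri z c i) ∧ qMap t P = (fun i => m' + ρ' * tri z' c i) ∧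
      ∀ i, ‖tri z c i - tri z c (i - 1)‖ ^ 2 = Bf t a i

/-- The hypotheses on the integral `F`. -/
structure Adm (t : ℝ) (V : Set (Fin 3 → ℂ)) (F : (Fin 3 → ℂ) → ℝ) : Prop where
  isOpen : IsOpen V
  rigid : ∀ P ∈ V, ∀ m ρ : ℂ, ‖ρ‖ = 1 → (fun i => m + ρ * P i) ∈ V
  smooth : ContDiffOn ℝ 1 F V
  translation : ∀ P ∈ V, ∀ m : ℂ, F (fun i => P i + m) = F P
  poisson : ∀ P ∈ V, ∀ v, (∀ w, omegaForm v w = fderiv ℝ multiArea P w) → fderiv ℝ F P v = 0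
  invariant : ∀ P, IsPolygon P → (∀ i, 2 * t < ‖rMap t P i - rMap t P (i - 1)‖) →
    rMap t P ∈ V → qMap t P ∈ V → F (qMap t P) = F (rMap t P)

def crit (V : Set (Fin 3 → ℂ)) (F : (Fin 3 → ℂ) → ℝ) : Set (Fin 3 → ℂ) :=
  {P | P ∈ V ∧ ∃ c : ℝ, fderiv ℝ F P = c • fderiv ℝ multiArea P}

def W1bStmt : Prop :=
  ∀ (t : ℝ) (V : Set (Fin 3 → ℂ)) (F : (Fin 3 → ℂ) → ℝ), Adm t V F →
    ∀ P ∈ V, ∀ m ρ : ℂ, ‖ρ‖ = 1 → F (fun i => m + ρ * P i) = F P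

def W1cStmt : Prop :=
  ∀ (V : Set (Fin 3 → ℂ)) (F : (Fin 3 → ℂ) → ℝ) (f : C3 → ℂ) (χ : R3 → ℂ) (Θ Jn : R3 → ℝ)
    (e0 ε r : ℝ) (N : Set C3), IsOpen V → ContDiffOn ℝ 1 F V →
    (∀ P ∈ V, ∀ m ρ : ℂ, ‖ρ‖ = 1 → (fun i => m + ρ * P i) ∈ V ∧ F (fun i => m + ρ * P i) = F P) →
    Chart f χ Θ Jn e0 ε r N → (∀ z c, rp z c ∈ N → 0 < c ∧ tri z c ∈ V) →
    volume (crit V F) = 0 → volume (critR (fun p => F (tri (χ p) p.2.2)) e0 ε r) = 0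

def W1dStmt : Prop := W1aStmt → W1bStmt →
  ∀ (t η0 c0 : ℝ) (V : Set (Fin 3 → ℂ)) (F : (Fin 3 → ℂ) → ℝ) (f g : C3 → ℂ)
    (β : C3 → Fin 3 → ℂ) (U : Set C3), 0 < t → c0 = η0 ^ 2 + 3 * t * η0 + 3 * t ^ 2 →
    4 * t ^ 2 < c0 → Adm t V F → tri 0 c0 ∈ V → Red t η0 f g β U →
    ∃ N ∈ 𝓝 (base c0), N ⊆ U ∧ (∀ z c, rp z c ∈ N → 0 < c ∧ tri z c ∈ V) ∧
      ∀ N' ⊆ N, ∀ (χ : R3 → ℂ) (Θ Jn : R3 → ℝ) (ε r : ℝ), Chart f χ Θ Jn c0 ε r N' →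
        IntegralR (fun p => F (tri (χ p) p.2.2)) Θ Jn c0 ε r

def W2Stmt : Prop :=
  ∀ (t η0 c0 : ℝ) (f g : C3 → ℂ) (β : C3 → Fin 3 → ℂ) (U N : Set C3) (χ : R3 → ℂ)
    (Θ Jn : R3 → ℝ) (α : ℝ → ℝ) (ε r : ℝ) (l : ℕ) (p : ℤ) (es e' η : ℝ), 0 < t →
    c0 = η0 ^ 2 + 3 * t * η0 + 3 * t ^ 2 → Red t η0 f g β U → N ⊆ U →
    Chart f χ Θ Jn c0 ε r N → AlphaOK α c0 ε → |es - c0| < ε → |e' - c0| < ε → e' < es →
    (∀ e ∈ Ioo e' es, ∃ h, PerGraph Θ Jn l p e h ∧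
      ∀ θ, h θ < r ∧ (α es - α e) / 2 ≤ h θ ∧ h θ ≤ 2 * (α es - α e)) →
    0 < η → β (base es) = (fun _ => (η : ℂ)) → es = η ^ 2 + 3 * t * η + 3 * t ^ 2 →
    PER l (t / η)

def MainPos : Prop :=
  ∀ (t c0 : ℝ) (V : Set (Fin 3 → ℂ)) (F : (Fin 3 → ℂ) → ℝ), 0 < t → 4 * t ^ 2 < c0 →
    Adm t V F → tri 0 c0 ∈ V → volume (crit V F) ≠ 0

def MainStmt : Prop :=
  ∀ (t s : ℝ) (V : Set (Fin 3 → ℂ)) (F : (Fin 3 → ℂ) → ℝ) (P0 : Fin 3 → ℂ), 0 < t → 2 * t < s →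
    Adm t V F → P0 ∈ V → (∀ i, ‖P0 i - P0 (i - 1)‖ = s) → volume (crit V F) ≠ 0

def W0Stmt : Prop := MainPos → MainStmt

end Pool.Agent.MP_62f0b1_an.AE

end
end MrgPart1

-- ======== part 2: formerly Pool.Agent.MP_62f0b1_an.ae.Basic
section MrgPart2

/-!
Small shared lemmas.
-/

set_option autoImplicit false

noncomputable section

namespace Pool.Agent.MP_62f0b1_an.AE

open Complex Filter Topology Set
open scoped ComplexConjugate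

theorem om_rel : om ^ 2 + om + 1 = 0 := by
  have h : Real.sqrt 3 ^ 2 = 3 := Real.sq_sqrt (by norm_num)
  apply Complex.ext <;> simp [om, sq] <;> nlinarith [h]

theorem om_cube : om ^ 3 = 1 := by linear_combination (om - 1) * om_rel

theorem conj_om : conj om = om ^ 2 := by
  have h : Real.sqrt 3 ^ 2 = 3 := Real.sq_sqrt (by norm_num)
  apply Complex.ext <;> simp [om, sq] <;> nlinarith [h]

theorem conj_om_sq : conj (om ^ 2) = om := by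
  rw [map_pow, conj_om]; linear_combination om * om_cube

theorem norm_om : ‖om‖ = 1 := by
  have h : ‖om‖ ^ 3 = 1 := by rw [← norm_pow, om_cube, norm_one]
  exact (pow_eq_one_iff_of_nonneg (norm_nonneg _) (by norm_num)).1 h

theorem om_ne_zero : om ≠ 0 := by
  intro h; have := norm_om; rw [h] at this; simp at this

theorem om_delta : 1 + 2 * om = I * ((Real.sqrt 3 : ℝ) : ℂ) := by
  apply Complex.ext <;> simp [om] <;> ring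

theorem csqrt_ne_zero (x : ℂ) : csqrt x ≠ 0 := Complex.exp_ne_zero _

theorem csqrt_sq {x : ℂ} (hx : x ≠ 0) : csqrt x ^ 2 = x := by
  rw [csqrt, ← Complex.exp_nat_mul]
  have : ((2 : ℕ) : ℂ) * (Complex.log x / 2) = Complex.log x := by push_cast; ring
  rw [this, Complex.exp_log hx]

theorem csqrt_of_sq {c : ℂ} (hc : 0 < c.re) : csqrt (c ^ 2) = c := by
  have hc0 : c ≠ 0 := by rintro rfl; simp at hc
  have h1 : |c.arg| < Real.pi / 2 := Complex.abs_arg_lt_pi_div_two_iff.2 (Or.inl hc)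
  have h2 : c ^ 2 = Complex.exp (2 * Complex.log c) := by
    have : (2 : ℂ) * Complex.log c = ((2 : ℕ) : ℂ) * Complex.log c := by push_cast; ring
    rw [this, Complex.exp_nat_mul, Complex.exp_log hc0]
  have h3 := abs_lt.1 h1
  rw [csqrt, h2, Complex.log_exp (by simp [Complex.log_im]; linarith)
    (by simp [Complex.log_im]; linarith)]
  have : 2 * Complex.log c / 2 = Complex.log c := by ring
  rw [this, Complex.exp_log hc0]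

theorem csqrt_ofReal {x : ℝ} (hx : 0 < x) : csqrt (x : ℂ) = ((Real.sqrt x : ℝ) : ℂ) := by
  have h : (x : ℂ) = ((Real.sqrt x : ℝ) : ℂ) ^ 2 := by
    rw [← Complex.ofReal_pow, Real.sq_sqrt hx.le]
  conv_lhs => rw [h]
  exact csqrt_of_sq (by simpa using Real.sqrt_pos.2 hx)

theorem analyticAt_csqrt {x : ℂ} (hx : x ∈ Complex.slitPlane) : AnalyticAt ℂ csqrt x :=
  ((analyticAt_clog hx).div_const).cexp'

section Poly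

open MvPolynomial

variable {σ τ O : Type} [CommRing O]

theorem mem_pow_of_C_mul_mem [IsDomain O] {t : O} (ht : t ≠ 0) {n : ℕ} {p : MvPolynomial σ O}
    (h : C t * p ∈ idealOfVars σ O ^ n) : p ∈ idealOfVars σ O ^ n := by
  rw [mem_pow_idealOfVars_iff'] at h ⊢
  intro x hx
  have := h x hx
  rw [coeff_C_mul] at this
  exact (mul_eq_zero.1 this).resolve_left ht

/-- An element congruent to `1` modulo `I` can be cancelled modulo any ideal containing `I ^ N`. -/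
theorem mem_of_unit_mul_mem {R : Type} [CommRing R] {I J : Ideal R} {N : ℕ} (hJ : I ^ N ≤ J)
    {u x : R} (hu : u - 1 ∈ I) (h : u * x ∈ J) : x ∈ J := by
  have h1 : (1 - u) ^ N ∈ I ^ N := Ideal.pow_mem_pow (by simpa using I.neg_mem hu) N
  have h2 := mul_neg_geom_sum (1 - u) N
  have h3 : x = (∑ i ∈ Finset.range N, (1 - u) ^ i) * (u * x) + (1 - u) ^ N * x := by
    linear_combination (-x) * h2
  rw [h3]
  exact J.add_mem (J.mul_mem_left _ h) (J.mul_mem_right _ (hJ h1))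

theorem aeval_mem_pow {S : Type} [CommRing S] [Algebra O S] {J : Ideal S} {g : σ → S}
    (hg : ∀ i, g i ∈ J) {n : ℕ} {p : MvPolynomial σ O} (hp : p ∈ idealOfVars σ O ^ n) :
    aeval g p ∈ J ^ n := by
  have h1 : (idealOfVars σ O).map (aeval g : MvPolynomial σ O →ₐ[O] S) ≤ J := by
    rw [Ideal.map_span, Ideal.span_le]
    rintro _ ⟨_, ⟨i, rfl⟩, rfl⟩
    simpa using hg i
  have h2 := Ideal.mem_map_of_mem (aeval g : MvPolynomial σ O →ₐ[O] S) hp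
  rw [Ideal.map_pow] at h2
  exact Ideal.pow_right_mono h1 n h2

theorem X_mem_idealOfVars (i : σ) : (X i : MvPolynomial σ O) ∈ idealOfVars σ O :=
  Ideal.subset_span ⟨i, rfl⟩

end Poly

end Pool.Agent.MP_62f0b1_an.AE

end
end MrgPart2

-- ======== part 3: formerly Pool.Agent.MP_62f0b1_an.ae.Asm
section MrgPart3

/-!
Assembly of the modules.
-/

set_option autoImplicit false

noncomputable section

namespace Pool.Agent.MP_62f0b1_an.AE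

open Complex Filter Topology Set MeasureTheory
open scoped ComplexConjugate

namespace Asm

open MvPolynomial

variable {O : Type} [CommRing O]

theorem coeff_euler (i : Fin 2) (p : P2 O) (x : Fin 2 →₀ ℕ) :
    coeff x (X i * pderiv i p) = (x i : O) * coeff x p := by
  induction p using MvPolynomial.induction_on' with
  | monomial u a =>
    rw [X_mul_pderiv_monomial, coeff_smul, coeff_monomial]
    split_ifs with h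
    · subst h; simp
    · simp
  | add p q hp hq => simp only [map_add, mul_add, coeff_add, hp, hq]

theorem euler_mem (i : Fin 2) {n : ℕ} {p : P2 O} (hp : p ∈ I2 O ^ n) :
    X i * pderiv i p ∈ I2 O ^ n := by
  rw [mem_pow_idealOfVars_iff'] at hp ⊢
  intro x hx
  rw [coeff_euler i p x, hp x hx, mul_zero]

theorem br_mem_left {n : ℕ} {f : P2 O} (hf : f ∈ I2 O ^ n) (g : P2 O) : br f g ∈ I2 O ^ n :=
  Ideal.sub_mem _ (Ideal.mul_mem_right _ _ (euler_mem 0 hf))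
    (Ideal.mul_mem_right _ _ (euler_mem 1 hf))

theorem res_mem {ψ : P2 O} (hψ : ψ ∈ I2 O ^ 2) {n : ℕ} {p : P3 O} (hp : p ∈ I3 O ^ n) :
    res ψ p ∈ I2 O ^ n := by
  refine aeval_mem_pow (fun i => ?_) hp
  fin_cases i
  · exact X_mem_idealOfVars _
  · exact X_mem_idealOfVars _
  · exact Ideal.pow_le_self (by norm_num) hψ

end Asm

open MvPolynomial in
theorem aConcl_of (h1 : A1Concl) (h2 : A2Stmt) (h3a : A3aStmt) (h3b : A3bStmt) (h0a : A0aStmt)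
    (h0b : A0bStmt) (h4 : A4Stmt) (h5 : A5Stmt) (h6 : A6Stmt) (h7 : A7Stmt) (h8 : A8Stmt) :
    AConcl := by
  intro l hp h8' h3 τ hτ hl hper
  obtain ⟨O, c, hw, ht⟩ := h1 l hp h8' h3 τ hτ hl
  obtain ⟨m⟩ := h2 O l c (3 * l + 10)
  have fa := h3a O l c _ m
  have fb := h3b O l c _ m (by omega) fa
  have hs := h0a O l _ c m τ hτ hw ht (by omega) fa hper
  obtain ⟨ψ, hψ, hE⟩ := h0b O l _ c m (by omega) fb hs
  obtain ⟨C0, M, hM⟩ := h5 O l c _ m (by omega) fa fb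
  have hbr := h4 O l c _ (3 * l + 10 - 2) m ψ C0 (by omega) fa hψ hE hM.hC
  obtain ⟨cs, c00, hcomb⟩ := hM.comb
  obtain ⟨μ, css, hμ, hlead⟩ := hM.lead
  have hle : I2 O ^ (3 * l + 10) ≤ I2 O ^ (3 * l + 10 - 2) := Ideal.pow_le_pow_right (by omega)
  have hbr2 : br (res ψ M) (res ψ m.Th) ∈ I2 O ^ (3 * l + 10 - 2) := by
    have e1 := hle (Asm.br_mem_left (Asm.res_mem hψ hcomb) (res ψ m.Th))
    have e2 : br (res ψ M) (res ψ m.Th) =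
        br (res ψ (M - (C c.p0 * C0 - C cs * m.Th - C c00))) (res ψ m.Th) +
          C c.p0 * br (res ψ C0) (res ψ m.Th) := by
      have r1 : ∀ x : O, res ψ (C x) = C x := fun x => by simp [res]
      simp only [br, map_sub, map_mul, r1, Derivation.leibniz, pderiv_C, smul_eq_mul]
      ring
    rw [e2]
    exact Ideal.add_mem _ e1 (Ideal.mul_mem_left _ _ hbr)
  have hlead2 : res ψ M - C μ * (X 0 * X 1) ∈ I2 O ^ 3 := by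
    have e1 := Asm.res_mem hψ hlead
    have e2 : ψ * ψ ∈ I2 O ^ 3 := by
      have : ψ * ψ ∈ I2 O ^ 2 * I2 O ^ 2 := Ideal.mul_mem_mul hψ hψ
      rw [← pow_add] at this
      exact Ideal.pow_le_pow_right (by norm_num) this
    have e3 : res ψ M - C μ * (X 0 * X 1) =
        res ψ (M - C μ * (X 0 * X 1) - C css * (X 2 * X 2)) + C css * (ψ * ψ) := by
      simp [res]
    rw [e3]
    exact Ideal.add_mem _ e1 (Ideal.mul_mem_left _ _ e2)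
  have hT : res ψ m.Th ∈ I2 O := by
    have := Asm.res_mem (n := 1) hψ (by simpa using hM.memT)
    simpa using this
  obtain ⟨U, hU⟩ := h6 O _ μ _ _ hμ hlead2 hT hbr2
  refine h7 h8 O l c _ (3 * l + 10 - 2 - 2) m ψ U C0 M (by omega) (by omega) fa hM hψ ?_ hU
  exact Ideal.pow_le_pow_right (by omega) (hE 0)

theorem mainPos_of (g1 : G1Stmt) (g2 : G2Stmt) (g3 : G3Stmt) (g4 : G4Concl) (g5 : G5Stmt)
    (g6 : G6Stmt) (hr : RStmt) (hx : XStmt) (k0a : K0aConcl) (k0b : K0bStmt) (kl : KLConcl)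
    (hm : MConcl) (hc : CConcl) (ha : AConcl) (w1a : W1aStmt) (w1b : W1bStmt) (w1c : W1cStmt)
    (w1d : W1dStmt) (w2 : W2Stmt) : MainPos := by
  intro t c0 V F ht hc0 hadm hV hnull
  -- the side of the preimage under `r_t`
  obtain ⟨η0, hη0, hc0'⟩ : ∃ η0 : ℝ, 0 < η0 ∧ c0 = η0 ^ 2 + 3 * t * η0 + 3 * t ^ 2 := by
    have h1 : 0 ≤ 4 * c0 - 3 * t ^ 2 := by nlinarith
    have h2 := Real.sq_sqrt h1
    have h3 : 3 * t < Real.sqrt (4 * c0 - 3 * t ^ 2) :=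
      Real.lt_sqrt_of_sq_lt (by nlinarith)
    exact ⟨(Real.sqrt (4 * c0 - 3 * t ^ 2) - 3 * t) / 2, by linarith, by nlinarith⟩
  obtain ⟨f, g, β, U, hred⟩ := g4 t η0 ht hη0
  have hgerm : Germ f g c0 := hc0' ▸ hred.germ
  have hjac : ∀ᶠ p in 𝓝 (base c0), jacC f g p = 1 := hc0' ▸ hred.jac
  obtain ⟨l, a, b, l', a', b', hex⟩ := g1 f g c0 hgerm
  obtain ⟨t1, t2, t3, t4⟩ := g5 t η0 c0 f g β U l a b l' a' b' ht hη0 hc0' hred hex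
  obtain ⟨F2, G2, α, ν, k, κ, hnf, hcj, hl⟩ := g2 g1 f g c0 l a b l' a' b' hgerm hex hjac t1 t2 t3
  obtain ⟨N, hN, hNU, hNV, hint⟩ := w1d w1a w1b t η0 c0 V F f g β U ht hc0' hc0 hadm hV hred
  -- the neighbourhood of the base point
  have hc3 : Tendsto (fun p : C3 => p.2.2) (𝓝 (base c0)) (𝓝 (c0 : ℂ)) :=
    (continuous_snd.comp continuous_snd).continuousAt
  have hc4 : Tendsto (fun p : C3 => p.2.2.re) (𝓝 (base c0)) (𝓝 c0) := by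
    have := (Complex.continuous_re.tendsto (c0 : ℂ)).comp hc3
    simpa [Function.comp_def] using this
  have hN1 := ((hc3.eventually hl).and ((hc4.eventually t4).and
    (hc4.eventually hnf.real_co))).and hN
  obtain ⟨N', hN', hch⟩ := g6 f F2 κ c0 hcj _ hN1
  obtain ⟨Θ, Jn, χ0, ε, r, htc, hch0⟩ := g3 F2 G2 c0 α ν k hnf N' hN'
  have hchart := hch χ0 _ _ ε r hch0
  have htr := hr _ _ _ _ _ _ htc
  have hex' := hx _ _ _ _ _ _ htr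
  have hkam := k0b k0a kl _ _ _ _ _ _ htc hex'
  have hsub : {p : C3 | (l p.2.2 = exp (I * α p.2.2) ∧
      (∀ η : ℝ, 0 < η → p.2.2.re = η ^ 2 + 3 * t * η + 3 * t ^ 2 →
        l (p.2.2.re : ℝ) = lam ((t / η : ℝ) : ℂ)) ∧
      (α (p.2.2.re : ℝ)).im = 0 ∧ (ν (p.2.2.re : ℝ)).im = 0 ∧ (k (p.2.2.re : ℝ)).im = 0) ∧
      p ∈ N} ⊆ N := fun p hp => hp.2
  have hI := hint _ hsub _ _ _ ε r hchart
  have hcrit := w1c V F f _ _ _ c0 ε r _ hadm.isOpen hadm.smooth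
    (fun P hP m ρ hρ => ⟨hadm.rigid P hP m ρ hρ, w1b t V F hadm P hP m ρ hρ⟩) hchart
    (fun z c h => hNV z c (hsub h)) hnull
  obtain ⟨bb, hbb, hC⟩ := hc _ _ _ _ _ _ htr
  obtain ⟨ℓ, p, ea, eb, hp, h8, h3, h4, h5, h6, h7⟩ := hm _ _ _ _ _ _ _ htr hkam hI hcrit bb hbb 3
  obtain ⟨es, e', hes, he', hlt, hα, hgr⟩ := hC ℓ p ea eb hp.pos h4 h5 h6 h7
  have hb := hchart.nb0 es hes
  obtain ⟨⟨b1, b2, b3, -, -⟩, b4⟩ := hb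
  obtain ⟨η, hη, hβ, hes'⟩ := hred.diag es (hNU b4)
  have hper := w2 t η0 c0 f g β U _ _ _ _ _ ε r ℓ p es e' η ht hc0' hred
    (hsub.trans hNU) hchart htc.alpha hes he' hlt hgr hη hβ hes'
  refine ha ℓ hp h8 h3 (t / η) (div_pos ht hη) ?_ hper
  simp only [base, ofReal_re] at b1 b2 b3
  rw [← b2 η hη hes', b1, ← Complex.exp_nat_mul]
  have e1 : α es = ((2 * Real.pi * p / ℓ : ℝ) : ℂ) := by
    apply Complex.ext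
    · simpa using hα
    · simpa using b3
  have hl0 : (ℓ : ℂ) ≠ 0 := by exact_mod_cast hp.ne_zero
  rw [e1, ← Complex.exp_int_mul_two_pi_mul_I p]
  congr 1
  push_cast
  field_simp

end Pool.Agent.MP_62f0b1_an.AE

end
end MrgPart3

-- marker of a merged file
example : 731051 + 241412 = 731051 + 241412 := rfl
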