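import Mathlib.LinearAlgebra.FreeModule.PID
import Mathlib.Topology.Sheaves.Presheaf
import Mathlib.Tactic.Monotonicity.Lemmas
import Mathlib.RingTheory.Flat.TorsionFree
import Mathlib.RingTheory.PicardGroup
import Mathlib.Algebra.MvPolynomial.Funext
import Mathlib.Analysis.Complex.Polynomial.Basic
import Mathlib.Analysis.Calculus.Deriv.Prod
import Mathlib.Analysis.Analytic.Polynomial
import Mathlib.Analysis.InnerProductSpace.Calculus
import Mathlib.MeasureTheory.Measure.Haar.Unique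
import Mathlib.Analysis.Calculus.InverseFunctionTheorem.ContDiff
import Mathlib.Analysis.Complex.LocallyUniformLimit
import Mathlib.Analysis.SpecialFunctions.PolarCoord
import Mathlib.Topology.MetricSpace.Contracting
import Mathlib.Analysis.Real.Pi.Bounds
import Mathlib.Topology.Separation.CompletelyRegular
import Mathlib.RingTheory.SimpleRing.Principal
import Mathlib.RingTheory.TotallySplit
import Pool.Agent.MP_62f0b1_an.ae.Asm

-- ======== part 0: formerly Pool.Agent.MP_62f0b1_an.ae.K3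
section MrgPart0

/-!
Convergence of the quadratic iteration.
-/

set_option autoImplicit false

noncomputable section

namespace Pool.Agent.MP_62f0b1_an.AE

open Complex Filter Topology Set

namespace K3

theorem strip_mono {a b : ℝ} (h : a ≤ b) : Strip a ⊆ Strip b := fun _ hx => lt_of_lt_of_le hx h

theorem isOpen_strip (a : ℝ) : IsOpen (Strip a) :=
  isOpen_lt (continuous_abs.comp continuous_im) continuous_const

theorem add_mem {a : ℝ} {x : ℂ} (hx : x ∈ Strip a) (w : ℝ) : x + w ∈ Strip a := by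
  simpa [Strip] using hx

theorem sub_mem {a : ℝ} {x : ℂ} (hx : x ∈ Strip a) (w : ℝ) : x - w ∈ Strip a := by
  simpa [Strip] using hx

theorem dc_mono {g γ : ℝ} (h : g ≤ γ) : DC γ ⊆ DC g := fun _ hw k hk =>
  le_trans (div_le_div_of_nonneg_right h (by positivity)) (hw k hk)

/-- the state of the iteration at scale `t` -/
def St (η w a : ℝ) (A B : ℂ × ℂ → ℂ) (t : ℝ) (φ : ℂ → ℂ) : Prop :=
  PerHol (1 / 4 + t / 4) φ ∧ ∀ x ∈ Strip (1 / 4 + t / 4),
    ‖φ x‖ ≤ 1 / 8 - t / 8 ∧ ‖deriv φ x‖ ≤ 1 / 8 - t / 8 ∧ ‖errL η w A B φ x‖ ≤ a * t ^ 15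

theorem num1 {C g a t : ℝ} (hC : 0 < C) (hg : 0 < g) (hg1 : g ≤ 1) (ha : 0 < a)
    (h : C * a * (32 ^ 14 * 2 ^ 15) ≤ g ^ 4) (ht : 0 < t) (ht1 : t ≤ 1) :
    C * (a * t ^ 15) / (g ^ 2 * (t / 32) ^ 7) ≤ t / 16 := by
  rw [div_le_iff₀ (by positivity)]
  have h1 : g ^ 4 ≤ g ^ 2 := pow_le_pow_of_le_one hg.le hg1 (by norm_num)
  have h2 : t ^ 15 ≤ t ^ 8 := pow_le_pow_of_le_one ht.le ht1 (by norm_num)
  have h3 : C * a ≤ g ^ 2 / (16 * 32 ^ 7) := by
    rw [le_div_iff₀ (by positivity)]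
    have : 0 < C * a := by positivity
    nlinarith
  calc C * (a * t ^ 15) = C * a * t ^ 15 := by ring
    _ ≤ g ^ 2 / (16 * 32 ^ 7) * t ^ 8 := by gcongr
    _ = t / 16 * (g ^ 2 * (t / 32) ^ 7) := by ring

theorem num2 {C g a t : ℝ} (hg : 0 < g) (ha : 0 < a)
    (h : C * a * (32 ^ 14 * 2 ^ 15) ≤ g ^ 4) (ht : 0 < t) (ht1 : t ≤ 1) :
    C * (a * t ^ 15) ^ 2 / (g ^ 4 * (t / 32) ^ 14) ≤ a * (t / 2) ^ 15 := by
  rw [div_le_iff₀ (by positivity)]
  have h2 : t ^ 30 ≤ t ^ 29 := pow_le_pow_of_le_one ht.le ht1 (by norm_num)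
  have h3 : C * a ≤ g ^ 4 / (32 ^ 14 * 2 ^ 15) := by rwa [le_div_iff₀ (by positivity)]
  calc C * (a * t ^ 15) ^ 2 = C * a * (a * t ^ 30) := by ring
    _ ≤ g ^ 4 / (32 ^ 14 * 2 ^ 15) * (a * t ^ 29) := by gcongr
    _ = a * (t / 2) ^ 15 * (g ^ 4 * (t / 32) ^ 14) := by ring

theorem start {η w a : ℝ} {A B : ℂ × ℂ → ℂ} (h : LData η (a / 2) A B) :
    St η w a A B 1 fun _ => 0 := by
  refine ⟨⟨differentiableOn_const _, fun _ _ => rfl, fun _ => rfl⟩, fun x hx => ⟨by simp, by simp, ?_⟩⟩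
  have k : ∀ y ∈ Strip (1 / 4 + 1 / 4), (y, (0 : ℂ)) ∈ domL := fun y hy =>
    ⟨strip_mono (by norm_num) hy, Metric.mem_ball_self one_pos⟩
  have h1 := (h.bound _ (k _ (sub_mem hx w))).2
  have h2 := (h.bound _ (k _ hx)).1
  have h3 := norm_sub_le (B (x - w, 0)) (A (x, 0))
  simp only [errL, sL, uL, sub_self, mul_zero, add_zero, zero_add, sub_zero, one_pow, mul_one]
  linarith

theorem mem_dom {η w : ℝ} (h0 : 0 < η) (h1 : η ≤ 1) {φ : ℂ → ℂ}
    (hφ : ∀ x ∈ Strip (1 / 4), ‖φ x‖ ≤ 1 / 8) {x : ℂ} (hx : x ∈ Strip (1 / 4)) :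
    (uL η φ x, sL w φ x) ∈ domL := by
  have a1 := hφ x hx
  have a2 := hφ _ (add_mem hx w)
  refine ⟨?_, ?_⟩
  · have a3 : |(φ x).im| ≤ 1 / 8 := (abs_im_le_norm _).trans a1
    have a4 : |x.im| < 1 / 4 := hx
    have a5 : |η * (φ x).im| ≤ 1 / 8 := by
      rw [abs_mul, abs_of_pos h0]
      nlinarith [abs_nonneg (φ x).im]
    have a6 := abs_add_le x.im (η * (φ x).im)
    change |(x + η * φ x).im| < 1
    simp only [add_im, mul_im, ofReal_re, ofReal_im, zero_mul, add_zero]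
    linarith
  · have a3 := norm_sub_le (φ (x + w)) (φ x)
    rw [mem_ball_zero_iff, sL]
    linarith

theorem limit {η w a δ : ℝ} {A B : ℂ × ℂ → ℂ} (h0 : 0 < η) (h1 : η ≤ 1) (h : LData η δ A B)
    (f : ℕ → ℂ → ℂ) (hs : ∀ n, St η w a A B ((1 / 2) ^ n) (f n))
    (hd : ∀ n, ∀ x ∈ Strip (1 / 4), ‖f n x - f (n + 1) x‖ ≤ 1 / 16 * (1 / 2) ^ n) :
    ∃ φ : ℂ → ℂ, PerHol (1 / 4) φ ∧
      ∀ x ∈ Strip (1 / 4), ‖φ x‖ ≤ 1 / 8 ∧ ‖deriv φ x‖ ≤ 1 / 8 ∧ errL η w A B φ x = 0 := by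
  have pos : ∀ n : ℕ, (0 : ℝ) < (1 / 2) ^ n := fun n => by positivity
  have sub : ∀ n : ℕ, Strip (1 / 4) ⊆ Strip (1 / 4 + (1 / 2) ^ n / 4) := fun n =>
    strip_mono (by linarith [pos n])
  have hd' : ∀ x ∈ Strip (1 / 4), ∀ n, dist (f n x) (f (n + 1) x) ≤ 1 / 16 * (1 / 2) ^ n :=
    fun x hx n => by rw [dist_eq_norm]; exact hd n x hx
  obtain ⟨φ, hφ⟩ : ∃ φ : ℂ → ℂ, ∀ x ∈ Strip (1 / 4), Tendsto (fun n => f n x) atTop (𝓝 (φ x)) :=
    ⟨fun x => limUnder atTop fun n => f n x, fun x hx =>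
      (cauchySeq_of_le_geometric (1 / 2) (1 / 16) (by norm_num) (hd' x hx)).tendsto_limUnder⟩
  have geo : Tendsto (fun n : ℕ => ((1 : ℝ) / 2) ^ n) atTop (𝓝 0) :=
    tendsto_pow_atTop_nhds_zero_of_lt_one (by norm_num) (by norm_num)
  have hu : TendstoUniformlyOn f φ atTop (Strip (1 / 4)) := by
    rw [Metric.tendstoUniformlyOn_iff]
    intro ε hε
    filter_upwards [geo.eventually (gt_mem_nhds hε)] with n hn x hx
    have := dist_le_of_le_geometric_of_tendsto (1 / 2) (1 / 16) (by norm_num) (hd' x hx) (hφ x hx) n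
    rw [show ∀ y : ℝ, 1 / 16 * y / (1 - 1 / 2) = y / 8 from fun y => by ring] at this
    rw [dist_comm]
    linarith [pos n]
  have hl := hu.tendstoLocallyUniformlyOn
  have df : ∀ᶠ n in atTop, DifferentiableOn ℂ (f n) (Strip (1 / 4)) :=
    Eventually.of_forall fun n => (hs n).1.diff.mono (sub n)
  have hb : ∀ x ∈ Strip (1 / 4), ‖φ x‖ ≤ 1 / 8 := fun x hx =>
    le_of_tendsto' (hφ x hx).norm fun n => by linarith [((hs n).2 x (sub n hx)).1, pos n]
  refine ⟨φ, ⟨hl.differentiableOn df (isOpen_strip _), fun x hx => ?_, fun x => ?_⟩,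
    fun x hx => ⟨hb x hx, ?_, ?_⟩⟩
  · have e : x + 2 * Real.pi ∈ Strip (1 / 4) := by simpa [Strip] using hx
    exact tendsto_nhds_unique (hφ _ e) ((hφ x hx).congr fun n => ((hs n).1.per x (sub n hx)).symm)
  · have e : (x : ℂ) ∈ Strip (1 / 4) := by simp [Strip]
    exact tendsto_nhds_unique ((continuous_im.tendsto _).comp (hφ _ e))
      (tendsto_const_nhds.congr fun n => ((hs n).1.real x).symm)
  · exact le_of_tendsto' ((hl.deriv df (isOpen_strip _)).tendsto_at hx).norm fun n => by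
      have := ((hs n).2 x (sub n hx)).2.1
      simp only [Function.comp_apply]
      linarith [pos n]
  · have ts : ∀ y ∈ Strip (1 / 4), Tendsto (fun n => sL w (f n) y) atTop (𝓝 (sL w φ y)) :=
      fun y hy => (hφ _ (add_mem hy w)).sub (hφ y hy)
    have tp : ∀ y ∈ Strip (1 / 4), Tendsto (fun n => (uL η (f n) y, sL w (f n) y)) atTop
        (𝓝 (uL η φ y, sL w φ y)) := fun y hy =>
      (((hφ y hy).const_mul _).const_add _).prodMk_nhds (ts y hy)
    have hx' := sub_mem hx w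
    have t1 : Tendsto (fun n => errL η w A B (f n) x) atTop (𝓝 (errL η w A B φ x)) :=
      (((ts _ hx').add ((h.anB _ (mem_dom h0 h1 hb hx')).continuousAt.tendsto.comp
        (tp _ hx'))).sub (ts x hx)).sub
        ((h.anA _ (mem_dom h0 h1 hb hx)).continuousAt.tendsto.comp (tp x hx))
    have t2 : Tendsto (fun n : ℕ => a * (((1 : ℝ) / 2) ^ n) ^ 15) atTop (𝓝 0) := by
      simpa using (geo.pow 15).const_mul a
    exact tendsto_nhds_unique t1 (squeeze_zero_norm (fun n => ((hs n).2 x (sub n hx)).2.2) t2)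

end K3

open K3 in
theorem k3 : K3Stmt := by
  rintro ⟨C, hC, h2⟩ γ hγ
  obtain ⟨g, hg, hg1, hgγ⟩ : ∃ g : ℝ, 0 < g ∧ g ≤ 1 ∧ g ≤ γ :=
    ⟨min 1 γ, lt_min one_pos hγ, min_le_left _ _, min_le_right _ _⟩
  obtain ⟨a, ha, ha1, ha2⟩ : ∃ a : ℝ, 0 < a ∧ a ≤ 1 / 50 ∧ C * a * (32 ^ 14 * 2 ^ 15) ≤ g ^ 4 := by
    refine ⟨min (1 / 50) (g ^ 4 / (C * (32 ^ 14 * 2 ^ 15))), lt_min (by norm_num) (by positivity),
      min_le_left _ _, ?_⟩
    have := min_le_right (1 / 50) (g ^ 4 / (C * (32 ^ 14 * 2 ^ 15)))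
    rw [le_div_iff₀ (by positivity)] at this
    linarith
  refine ⟨a / 2, by positivity, fun w η A B hw h0 h1 h => ?_⟩
  have step : ∀ (t : ℝ) (φ : ℂ → ℂ), 0 < t → t ≤ 1 → St η w a A B t φ →
      ∃ φ', St η w a A B (t / 2) φ' ∧ ∀ x ∈ Strip (1 / 4), ‖φ x - φ' x‖ ≤ 1 / 16 * t := by
    intro t φ ht ht1 hs
    have n1 := num1 hC hg hg1 ha ha2 ht ht1
    have n2 := num2 hg ha ha2 ht ht1
    obtain ⟨ψ, k1, k2⟩ := h2 g w η (a / 2) (1 / 4 + t / 4) (t / 32) (a * t ^ 15) A B φ hg hg1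
      (dc_mono hgγ hw) h0 h1 (by linarith) h (by positivity) (by linarith) (by linarith) hs.1
      (fun x hx => ⟨by linarith [(hs.2 x hx).1], by linarith [(hs.2 x hx).2.1]⟩)
      (fun x hx => (hs.2 x hx).2.2) (by linarith)
    have e : 1 / 4 + t / 4 - 4 * (t / 32) = 1 / 4 + t / 2 / 4 := by ring
    rw [e] at k1 k2
    have sub : Strip (1 / 4 + t / 2 / 4) ⊆ Strip (1 / 4 + t / 4) := strip_mono (by linarith)
    have dφ := hs.1.diff.mono sub
    refine ⟨fun y => φ y + ψ y, ⟨⟨dφ.add k1.diff, fun x hx => ?_, fun x => ?_⟩,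
      fun x hx => ⟨?_, ?_, (k2 x hx).2.2.trans n2⟩⟩, fun x hx => ?_⟩
    · rw [hs.1.per x (sub hx), k1.per x hx]
    · rw [add_im, hs.1.real, k1.real, add_zero]
    · linarith [norm_add_le (φ x) (ψ x), (hs.2 x (sub hx)).1, (k2 x hx).1]
    · have nb := (isOpen_strip _).mem_nhds hx
      rw [deriv_fun_add (dφ.differentiableAt nb) (k1.diff.differentiableAt nb)]
      linarith [norm_add_le (deriv φ x) (deriv ψ x), (hs.2 x (sub hx)).2.1, (k2 x hx).2.1]
    · rw [sub_add_cancel_left, norm_neg]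
      linarith [(k2 x (strip_mono (by linarith) hx)).1]
  choose! F hF using step
  let f : ℕ → ℂ → ℂ := fun n => Nat.rec (fun _ => 0) (fun n φ => F ((1 / 2) ^ n) φ) n
  have pos : ∀ n : ℕ, (0 : ℝ) < (1 / 2) ^ n := fun n => by positivity
  have le1 : ∀ n : ℕ, ((1 : ℝ) / 2) ^ n ≤ 1 := fun n => pow_le_one₀ (by norm_num) (by norm_num)
  have hs : ∀ n, St η w a A B ((1 / 2) ^ n) (f n) := by
    intro n
    induction n with
    | zero =>
      rw [pow_zero]
      exact start h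
    | succ n ih =>
      rw [show ((1 : ℝ) / 2) ^ (n + 1) = (1 / 2) ^ n / 2 by ring]
      exact (hF _ _ (pos n) (le1 n) ih).1
  exact limit h0 h1 h f hs fun n => (hF _ _ (pos n) (le1 n) (hs n)).2

end Pool.Agent.MP_62f0b1_an.AE

end
end MrgPart0

-- ======== part 1: formerly Pool.Agent.MP_62f0b1_an.ae.K0a
section MrgPart1

/-!
The mixed form of a twist family: contraction principle and analytic inverse function theorem.
-/

set_option autoImplicit false

noncomputable section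

namespace Pool.Agent.MP_62f0b1_an.AE

open Complex Filter Topology Set Metric

namespace K0a

theorem isOpen_domL : IsOpen domL :=
  (isOpen_lt (continuous_abs.comp Complex.continuous_im) continuous_const).prod isOpen_ball

theorem real_mem {x s : ℝ} (hs : |s| < 1) : ((x : ℂ), (s : ℂ)) ∈ domL :=
  ⟨by simp [Strip], by simpa using hs⟩

theorem split (L : (ℂ × ℂ) →L[ℂ] ℂ) (v : ℂ × ℂ) : L v = v.1 * L (1, 0) + v.2 * L (0, 1) := by
  have : v = v.1 • ((1, 0) : ℂ × ℂ) + v.2 • ((0, 1) : ℂ × ℂ) := by ext <;> simp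
  conv_lhs => rw [this, map_add, map_smul, map_smul]
  rfl

/-- Analytic inverse function theorem. -/
theorem local_inv {f : ℂ × ℂ → ℂ × ℂ} {q : ℂ × ℂ} (hf : AnalyticAt ℂ f q)
    (hi : Function.Injective (fderiv ℂ f q)) :
    ∃ g : ℂ × ℂ → ℂ × ℂ, AnalyticAt ℂ g (f q) ∧ g (f q) = q ∧ ∀ᶠ p in 𝓝 (f q), f (g p) = p := by
  let i : (ℂ × ℂ) ≃L[ℂ] (ℂ × ℂ) :=
    (LinearEquiv.ofInjectiveEndo (fderiv ℂ f q).toLinearMap hi).toContinuousLinearEquiv
  have hi : (i : (ℂ × ℂ) →L[ℂ] (ℂ × ℂ)) = fderiv ℂ f q := ContinuousLinearMap.ext fun _ => rfl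
  have hd : HasFDerivAt f (i : (ℂ × ℂ) →L[ℂ] (ℂ × ℂ)) q := hi ▸ hf.differentiableAt.hasFDerivAt
  have hc : ContDiffAt ℂ ⊤ f q := hf.contDiffAt
  exact ⟨hc.localInverse hd (by simp), (hc.to_localInverse hd (by simp)).analyticAt,
    hc.localInverse_apply_image hd (by simp),
    (hc.hasStrictFDerivAt' hd (by simp)).eventually_right_inverse⟩

section Root

variable {T : ℂ × ℂ → ℂ} {J0 a : ℂ} {η : ℝ}

/-- `T (x, z)` is close to `x + a + z` near `z = J0`. -/
structure Near (T : ℂ × ℂ → ℂ) (J0 a : ℂ) (η : ℝ) : Prop where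
  pos : 0 < η
  an : ∀ x ∈ Strip 1, ∀ z ∈ closedBall J0 (2 * η / 5), AnalyticAt ℂ T (x, z)
  bd : ∀ x ∈ Strip 1, ∀ z ∈ closedBall J0 (2 * η / 5), ‖T (x, z) - x - a - z‖ ≤ η / 20

theorem Near.sub (h : Near T J0 a η) : closedBall J0 (3 * η / 10) ⊆ closedBall J0 (2 * η / 5) :=
  closedBall_subset_closedBall (by linarith [h.pos])

theorem Near.hasDeriv (h : Near T J0 a η) {x z : ℂ} (hx : x ∈ Strip 1)
    (hz : z ∈ closedBall J0 (2 * η / 5)) :
    HasDerivAt (fun z => T (x, z) - x - a - z) (fderiv ℂ T (x, z) (0, 1) - 1) z := by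
  have h1 : HasDerivAt (fun z : ℂ => (x, z)) ((0, 1) : ℂ × ℂ) z :=
    (hasDerivAt_const z x).prodMk (hasDerivAt_id z)
  have h2 := (h.an x hx z hz).differentiableAt.hasFDerivAt.comp_hasDerivAt z h1
  exact ((h2.sub_const x).sub_const a).sub (hasDerivAt_id z)

theorem Near.dbound (h : Near T J0 a η) {x z : ℂ} (hx : x ∈ Strip 1)
    (hz : z ∈ closedBall J0 (3 * η / 10)) : ‖fderiv ℂ T (x, z) (0, 1) - 1‖ ≤ 1 / 2 := by
  have p := h.pos
  have hs : closedBall z (η / 10) ⊆ closedBall J0 (2 * η / 5) :=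
    closedBall_subset_closedBall' (by rw [mem_closedBall] at hz; linarith)
  have hd : DiffContOnCl ℂ (fun z => T (x, z) - x - a - z) (ball z (η / 10)) := by
    refine DifferentiableOn.diffContOnCl fun y hy => ?_
    exact (h.hasDeriv hx (hs (closure_ball_subset_closedBall hy))).differentiableAt.differentiableWithinAt
  have := norm_deriv_le_of_forall_mem_sphere_norm_le (by linarith) hd
    fun y hy => h.bd x hx y (hs (sphere_subset_closedBall hy))
  rw [(h.hasDeriv hx (h.sub hz)).deriv] at this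
  refine this.trans (le_of_eq ?_)
  field_simp
  norm_num

theorem Near.lip (h : Near T J0 a η) {x z z' : ℂ} (hx : x ∈ Strip 1)
    (hz : z ∈ closedBall J0 (3 * η / 10)) (hz' : z' ∈ closedBall J0 (3 * η / 10)) :
    ‖(T (x, z') - x - a - z') - (T (x, z) - x - a - z)‖ ≤ 1 / 2 * ‖z' - z‖ :=
  Convex.norm_image_sub_le_of_norm_deriv_le (f := fun z => T (x, z) - x - a - z)
    (fun y hy => (h.hasDeriv hx (h.sub hy)).differentiableAt)
    (fun y hy => by rw [(h.hasDeriv hx (h.sub hy)).deriv]; exact h.dbound hx hy)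
    (convex_closedBall _ _) hz hz'

theorem Near.uniq (h : Near T J0 a η) {x z z' : ℂ} (hx : x ∈ Strip 1)
    (hz : z ∈ closedBall J0 (3 * η / 10)) (hz' : z' ∈ closedBall J0 (3 * η / 10))
    (e : T (x, z) = T (x, z')) : z = z' := by
  have k := h.lip hx hz hz'
  have : T (x, z') - x - a - z' - (T (x, z) - x - a - z) = -(z' - z) := by rw [e]; ring
  rw [this, norm_neg] at k
  have : ‖z' - z‖ = 0 := by linarith [norm_nonneg (z' - z)]
  exact (sub_eq_zero.1 (norm_eq_zero.1 this)).symm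

theorem Near.small (h : Near T J0 a η) {s e : ℂ} (hs : ‖s‖ < 1) (he : ‖e‖ ≤ η / 20) :
    J0 + (η / 4 : ℝ) * s - e ∈ ball J0 (3 * η / 10) := by
  have p := h.pos
  rw [mem_ball, dist_eq_norm]
  have e1 : J0 + (η / 4 : ℝ) * s - e - J0 = (η / 4 : ℝ) * s - e := by ring
  have e2 : ‖((η / 4 : ℝ) : ℂ) * s‖ < η / 4 := by
    rw [norm_mul, norm_real, Real.norm_of_nonneg (by linarith)]
    nlinarith
  rw [e1]
  linarith [norm_sub_le (((η / 4 : ℝ) : ℂ) * s) e]

theorem Near.exists_root (h : Near T J0 a η) {p : ℂ × ℂ} (hp : p ∈ domL) :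
    ∃ z ∈ ball J0 (3 * η / 10), T (p.1, z) = p.1 + a + J0 + (η / 4 : ℝ) * p.2 := by
  have hs : ‖p.2‖ < 1 := by simpa using hp.2
  let F : ℂ → ℂ := fun z => J0 + (η / 4 : ℝ) * p.2 - (T (p.1, z) - p.1 - a - z)
  have m : ∀ z ∈ closedBall J0 (3 * η / 10), F z ∈ ball J0 (3 * η / 10) := fun z hz =>
    h.small hs (h.bd _ hp.1 z (h.sub hz))
  have mp : MapsTo F (closedBall J0 (3 * η / 10)) (closedBall J0 (3 * η / 10)) := fun z hz =>
    ball_subset_closedBall (m z hz)
  have hc : ContractingWith (1 / 2) (mp.restrict F _ _) := by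
    refine ⟨by norm_num, LipschitzWith.of_dist_le_mul fun y z => ?_⟩
    have k := h.lip hp.1 y.2 z.2
    rw [Subtype.dist_eq, Subtype.dist_eq, MapsTo.val_restrict_apply, MapsTo.val_restrict_apply,
      dist_eq_norm, dist_eq_norm, norm_sub_rev y.1]
    have : F y - F z = T (p.1, z) - p.1 - a - z - (T (p.1, y) - p.1 - a - y) := by
      simp only [F]; ring
    rw [this]
    simpa using k
  obtain ⟨z, hz, hf, -⟩ := hc.exists_fixedPoint' isClosed_closedBall.isComplete mp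
    (mem_closedBall_self (by linarith [h.pos])) (edist_ne_top _ _)
  have e : F z = z := hf
  refine ⟨z, e ▸ m z hz, ?_⟩
  simp only [F] at e
  linear_combination -e

theorem Near.exists_fun (h : Near T J0 a η) : ∃ J : ℂ × ℂ → ℂ, AnalyticOnNhd ℂ J domL ∧
    ∀ p ∈ domL, J p ∈ ball J0 (3 * η / 10) ∧
      T (p.1, J p) = p.1 + a + J0 + (η / 4 : ℝ) * p.2 := by
  choose! J hJ eJ using fun p (hp : p ∈ domL) => h.exists_root hp
  refine ⟨J, fun p hp => ?_, fun p hp => ⟨hJ p hp, eJ p hp⟩⟩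
  have n0 : ((η / 4 : ℝ) : ℂ) ≠ 0 := ofReal_ne_zero.2 (by linarith [h.pos])
  have hb := ball_subset_closedBall (hJ p hp)
  have aT := h.an p.1 hp.1 _ (h.sub hb)
  let Ψ : ℂ × ℂ → ℂ × ℂ := fun q => (q.1, ((η / 4 : ℝ) : ℂ)⁻¹ * (T q - q.1 - a - J0))
  have aΨ : AnalyticAt ℂ Ψ (p.1, J p) :=
    analyticAt_fst.prod (analyticAt_const.mul
      (((aT.sub analyticAt_fst).sub analyticAt_const).sub analyticAt_const))
  have dΨ : HasFDerivAt Ψ ((ContinuousLinearMap.fst ℂ ℂ ℂ).prod (((η / 4 : ℝ) : ℂ)⁻¹ •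
      (fderiv ℂ T (p.1, J p) - ContinuousLinearMap.fst ℂ ℂ ℂ))) (p.1, J p) :=
    hasFDerivAt_fst.prodMk ((((aT.differentiableAt.hasFDerivAt.sub hasFDerivAt_fst).sub_const
      a).sub_const J0).const_mul _)
  have nz : fderiv ℂ T (p.1, J p) (0, 1) ≠ 0 := fun z => by
    have := h.dbound hp.1 hb
    rw [z] at this
    norm_num at this
  have hi : Function.Injective (fderiv ℂ Ψ (p.1, J p)) := by
    rw [dΨ.fderiv, injective_iff_map_eq_zero]
    intro v hv
    have v1 : v.1 = 0 := congrArg Prod.fst hv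
    have v2 : ((η / 4 : ℝ) : ℂ)⁻¹ * (fderiv ℂ T (p.1, J p) v - v.1) = 0 := congrArg Prod.snd hv
    rw [split, v1, zero_mul, zero_add, sub_zero] at v2
    exact Prod.ext v1
      ((mul_eq_zero.1 ((mul_eq_zero.1 v2).resolve_left (inv_ne_zero n0))).resolve_right nz)
  have e0 : Ψ (p.1, J p) = p := by
    refine Prod.ext rfl ?_
    simp only [Ψ]
    rw [eJ p hp]
    field_simp
    ring
  obtain ⟨g, ag, g0, gi⟩ := local_inv aΨ hi
  rw [e0] at ag g0 gi
  have g2 : AnalyticAt ℂ (fun q => (g q).2) p := analyticAt_snd.comp ag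
  have ev : ∀ᶠ q in 𝓝 p, (g q).2 ∈ ball J0 (3 * η / 10) :=
    g2.continuousAt.eventually_mem (isOpen_ball.mem_nhds (by rw [g0]; exact hJ p hp))
  refine g2.congr ?_
  filter_upwards [ev, gi, isOpen_domL.mem_nhds hp] with q q1 q2 q3
  have r1 : (g q).1 = q.1 := (congrArg Prod.fst q2 :)
  have r2 : ((η / 4 : ℝ) : ℂ)⁻¹ * (T (g q) - (g q).1 - a - J0) = q.2 := congrArg Prod.snd q2
  refine h.uniq q3.1 (ball_subset_closedBall q1) (ball_subset_closedBall (hJ q q3)) ?_
  rw [eJ q q3, ← r2, ← r1, mul_inv_cancel_left₀ n0]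
  simp

theorem Near.real_root {J0 a : ℝ} (h : Near T J0 a η) {x s : ℝ} (hs : |s| < 1)
    (hr : ∀ t : ℝ, (t : ℂ) ∈ closedBall (J0 : ℂ) (3 * η / 10) → (T (x, t)).im = 0) :
    ∃ t : ℝ, (t : ℂ) ∈ closedBall (J0 : ℂ) (3 * η / 10) ∧
      T (x, t) = x + a + J0 + (η / 4 : ℝ) * s := by
  have p := h.pos
  have hx : (x : ℂ) ∈ Strip 1 := by simp [Strip]
  have mem : ∀ t ∈ Icc (J0 - 3 * η / 10) (J0 + 3 * η / 10),
      (t : ℂ) ∈ closedBall (J0 : ℂ) (3 * η / 10) := fun t ht => by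
    rw [mem_closedBall, dist_eq_norm, ← ofReal_sub, norm_real, Real.norm_eq_abs, abs_le]
    constructor <;> linarith [ht.1, ht.2]
  have hc : ContinuousOn (fun t : ℝ => (T (x, t)).re) (Icc (J0 - 3 * η / 10) (J0 + 3 * η / 10)) :=
    fun t ht => (continuous_re.continuousAt.comp ((h.an x hx t (h.sub (mem t ht))).continuousAt.comp
      (f := fun t : ℝ => ((x : ℂ), (t : ℂ))) (by fun_prop))).continuousWithinAt
  have est : ∀ t ∈ Icc (J0 - 3 * η / 10) (J0 + 3 * η / 10), |(T (x, t)).re - x - a - t| ≤ η / 20 :=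
    fun t ht => by
      have := (abs_re_le_norm _).trans (h.bd x hx t (h.sub (mem t ht)))
      simpa using this
  have le : J0 - 3 * η / 10 ≤ J0 + 3 * η / 10 := by linarith
  have s1 := abs_lt.1 hs
  obtain ⟨t, ht, et⟩ := intermediate_value_Icc le hc (show x + a + J0 + η / 4 * s ∈ _ by
    have b1 := abs_le.1 (est _ (left_mem_Icc.2 le))
    have b2 := abs_le.1 (est _ (right_mem_Icc.2 le))
    constructor <;> nlinarith [b1.1, b1.2, b2.1, b2.2])
  refine ⟨t, mem t ht, Complex.ext ?_ ?_⟩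
  · simpa using et
  · rw [hr t (mem t ht)]; simp

end Root

theorem split3 (L : C3 →L[ℂ] ℂ) (a b : ℂ) : L (a, b, 0) = a * L (1, 0, 0) + b * L (0, 1, 0) := by
  have : ((a, b, 0) : C3) = a • ((1, 0, 0) : C3) + b • ((0, 1, 0) : C3) := by ext <;> simp
  rw [this, map_add, map_smul, map_smul]
  rfl

theorem chain {G : C3 → ℂ} {J : ℂ × ℂ → ℂ} {e : ℂ} {p : ℂ × ℂ} (hG : AnalyticAt ℂ G (p.1, J p, e))
    (hJ : AnalyticAt ℂ J p) : AnalyticAt ℂ (fun q => G (q.1, J q, e)) p ∧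
      ∀ v, fderiv ℂ (fun q => G (q.1, J q, e)) p v =
        v.1 * d1 G (p.1, J p, e) + fderiv ℂ J p v * d2 G (p.1, J p, e) := by
  refine ⟨hG.comp (f := fun q : ℂ × ℂ => ((q.1, J q, e) : C3))
    (analyticAt_fst.prod (hJ.prod analyticAt_const)), fun v => ?_⟩
  have h1 : HasFDerivAt (fun q : ℂ × ℂ => ((q.1, J q, e) : C3))
      ((ContinuousLinearMap.fst ℂ ℂ ℂ).prod ((fderiv ℂ J p).prod 0)) p :=
    hasFDerivAt_fst.prodMk (hJ.differentiableAt.hasFDerivAt.prodMk (hasFDerivAt_const e p))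
  have h2 := (hG.differentiableAt.hasFDerivAt.comp p h1).fderiv
  exact (congrArg (fun L => L v) h2).trans (split3 _ _ _)

theorem dsub {G : ℂ × ℂ → ℂ} {p : ℂ × ℂ} (hG : AnalyticAt ℂ G p) (c d : ℂ) (v : ℂ × ℂ) :
    fderiv ℂ (fun q => c * (G q - d) - q.2) p v = c * fderiv ℂ G p v - v.2 := by
  exact congrArg (fun L => L v)
    (((hG.differentiableAt.hasFDerivAt.sub_const d).const_mul c).sub hasFDerivAt_snd).fderiv

theorem flux {F s : ℝ → ℝ} {c J0 : ℝ} (hc : c ≠ 0) (hF : Continuous F) (hs : ContDiff ℝ 1 s)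
    (ps : ∀ θ, s (θ + 2 * Real.pi) = s θ)
    (h : ∫ θ in (0 : ℝ)..2 * Real.pi, c * (F θ + J0 * deriv s θ) = 0) :
    ∫ θ in (0 : ℝ)..2 * Real.pi, F θ = 0 := by
  have i1 := (hs.continuous_deriv le_rfl).intervalIntegrable (μ := MeasureTheory.volume) 0
    (2 * Real.pi)
  rw [intervalIntegral.integral_const_mul, intervalIntegral.integral_add
    (hF.intervalIntegrable _ _) (i1.const_mul J0), intervalIntegral.integral_const_mul,
    intervalIntegral.integral_deriv_eq_sub (fun x _ => hs.differentiable (by simp) x) i1] at h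
  have := ps 0
  rw [zero_add] at this
  rw [this, sub_self, mul_zero, add_zero] at h
  exact (mul_eq_zero.1 h).resolve_left hc

end K0a

open K0a in
theorem k0a : K0aStmt := by
  intro Θ Jn α e0 ε r hT hE δ hδ
  have dp : 0 < min (δ / 24) (1 / 60) := lt_min (by linarith) (by norm_num)
  obtain ⟨r1, hr1, est⟩ := hT.est _ dp
  have a1 := min_le_left (δ / 24) (1 / 60)
  have a2 := min_le_right (δ / 24) (1 / 60)
  generalize min (δ / 24) (1 / 60) = δ' at dp est a1 a2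
  refine ⟨min (min r1 r) 1 / 3, div_pos (lt_min (lt_min hr1 hT.r_pos) one_pos) (by norm_num),
    fun η e w hη hr he h1 h2 => ?_⟩
  have b1 : 3 * η < r1 := by
    linarith [min_le_left (min r1 r) 1, min_le_left r1 r]
  have b2 : 3 * η < r := by
    linarith [min_le_left (min r1 r) 1, min_le_right r1 r]
  have b3 : 3 * η < 1 := by linarith [min_le_right (min r1 r) 1]
  have hw : (w : ℂ) = α e + (w - α e : ℝ) := by push_cast; ring
  rw [hw]
  have hw' : w = α e + (w - α e) := by ring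
  generalize w - α e = J0 at h1 h2 hw hw'
  have n0 : ((η / 4 : ℝ) : ℂ) ≠ 0 := ofReal_ne_zero.2 (by linarith)
  have dom : ∀ x ∈ Strip 1, ∀ z ∈ closedBall (J0 : ℂ) (2 * η / 5),
      ((x, z, (e : ℂ)) : C3) ∈ domC e0 ε r ∧ ‖z‖ ≤ 3 * η ∧ 0 < z.re ∧ z.re < r := by
    intro x hx z hz
    rw [mem_closedBall, dist_eq_norm] at hz
    have c1 := abs_le.1 ((abs_re_le_norm _).trans hz)
    have c2 := (abs_im_le_norm _).trans hz
    have c3 := norm_add_le (z - J0) J0
    rw [sub_add_cancel, norm_real, Real.norm_of_nonneg (by linarith)] at c3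
    simp only [sub_re, ofReal_re, sub_im, ofReal_im, sub_zero] at c1 c2
    exact ⟨⟨hx, by simp only; linarith [c1.1], by simp only; linarith [c1.2], by simp,
      by simpa using he⟩, by linarith, by linarith [c1.1], by linarith [c1.2]⟩
  have es : ∀ x ∈ Strip 1, ∀ z ∈ closedBall (J0 : ℂ) (2 * η / 5),
      ‖Θ (x, z, e) - x - α e - z‖ ≤ δ' * (3 * η) ∧ ‖Jn (x, z, e) - z‖ ≤ δ' * (3 * η) := by
    intro x hx z hz
    obtain ⟨m, nz, -⟩ := dom x hx z hz
    obtain ⟨k1, k2⟩ := est _ m (by simp only; linarith)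
    simp only [ofReal_re] at k1 k2
    have k3 : ‖z‖ ^ 2 ≤ 3 * η := by nlinarith [norm_nonneg z]
    exact ⟨k1.trans (by gcongr), k2.trans (by gcongr)⟩
  have hN : Near (fun q => Θ (q.1, q.2, e)) J0 (α e) η :=
    ⟨hη, fun x hx z hz => (hT.an _ (dom x hx z hz).1).1.comp (f := fun q : ℂ × ℂ =>
      ((q.1, q.2, (e : ℂ)) : C3)) (analyticAt_fst.prod (analyticAt_snd.prod analyticAt_const)),
      fun x hx z hz => (es x hx z hz).1.trans (by nlinarith)⟩
  obtain ⟨J, aJ, hJ⟩ := hN.exists_fun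
  have mJ : ∀ p ∈ domL, J p ∈ closedBall (J0 : ℂ) (3 * η / 10) := fun p hp =>
    ball_subset_closedBall (hJ p hp).1
  have eJ : ∀ p ∈ domL, Θ (p.1, J p, e) = p.1 + α e + J0 + (η / 4 : ℝ) * p.2 := fun p hp =>
    (hJ p hp).2
  have dJ := fun p (hp : p ∈ domL) => dom p.1 hp.1 _ (hN.sub (mJ p hp))
  have pJ : ∀ p ∈ domL, J (p.1 + 2 * Real.pi, p.2) = J p := fun p hp => by
    have hp' : (p.1 + 2 * Real.pi, p.2) ∈ domL := ⟨by simpa [Strip] using hp.1, hp.2⟩
    refine hN.uniq hp'.1 (mJ _ hp') (mJ p hp) ?_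
    have := (hT.per (p.1, J p, e)).1
    simp only at this ⊢
    rw [this, eJ p hp, eJ _ hp']
    ring
  have rJ : ∀ x s : ℝ, |s| < 1 → (((J (x, s)).re : ℝ) : ℂ) = J (x, s) := fun x s hs => by
    have hp := real_mem (x := x) hs
    obtain ⟨t, mt, et⟩ := hN.real_root (x := x) hs fun t ht => by
      obtain ⟨-, -, k1, k2⟩ := dom x hp.1 t (hN.sub ht)
      exact (hT.real (x, t, e) ⟨k1, k2, he⟩).1
    have : J (x, s) = t := hN.uniq hp.1 (mJ _ hp) mt ((eJ _ hp).trans et.symm)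
    rw [this, ofReal_re]
  have aS := fun p (hp : p ∈ domL) => chain (hT.an _ (dJ p hp).1).2 (aJ p hp)
  have aA : AnalyticOnNhd ℂ (fun p => ((η / 4 : ℝ) : ℂ)⁻¹ * (J p - J0) - p.2) domL := fun p hp =>
    (analyticAt_const.mul ((aJ p hp).sub analyticAt_const)).sub analyticAt_snd
  have aB : AnalyticOnNhd ℂ (fun p => ((η / 4 : ℝ) : ℂ)⁻¹ * (Jn (p.1, J p, e) - J0) - p.2) domL :=
    fun p hp => (analyticAt_const.mul ((aS p hp).1.sub analyticAt_const)).sub analyticAt_snd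
  have key : ∀ z s : ℂ, J0 + (η / 4 : ℝ) * (s + (((η / 4 : ℝ) : ℂ)⁻¹ * (z - J0) - s)) = z := by
    intro z s
    field_simp
    ring
  refine ⟨_, _, ⟨aA, aB, fun p hp => ?_, fun x s hs => ?_, fun p hp => ?_, fun p hp => ?_,
    fun u s cu cs pu ps hs => ?_⟩, fun p hp => ?_⟩
  · have := (hT.per (p.1, J p, e)).2
    simp only at this ⊢
    rw [pJ p hp, this]
    exact ⟨rfl, rfl⟩
  · obtain ⟨-, -, k1, k2⟩ := dJ _ (real_mem (x := x) hs)
    have k := (hT.real (x, (J (x, s)).re, e) ⟨k1, k2, he⟩).2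
    simp only [cp, rJ x s hs] at k
    have k' : (J (x, s)).im = 0 := by rw [← rJ x s hs, ofReal_im]
    rw [← ofReal_inv]
    simp [k, k']
  · obtain ⟨k1, k2⟩ := es p.1 hp.1 _ (hN.sub (mJ p hp))
    have nn : ‖((η / 4 : ℝ) : ℂ)⁻¹‖ = 4 / η := by
      rw [norm_inv, norm_real, Real.norm_of_nonneg (by linarith), inv_div]
    have eA : ((η / 4 : ℝ) : ℂ)⁻¹ * (J p - J0) - p.2 =
        -(((η / 4 : ℝ) : ℂ)⁻¹ * (Θ (p.1, J p, e) - p.1 - α e - J p)) := by
      rw [eJ p hp]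
      field_simp
      ring
    have q : 4 / η * (δ' * (3 * η)) ≤ δ / 2 := by
      have : 4 / η * (δ' * (3 * η)) = 12 * δ' := by field_simp; ring
      linarith
    have bA : ‖((η / 4 : ℝ) : ℂ)⁻¹ * (J p - J0) - p.2‖ ≤ δ / 2 := by
      rw [eA, norm_neg, norm_mul, nn]
      exact le_trans (by gcongr) q
    have bB : ‖((η / 4 : ℝ) : ℂ)⁻¹ * (Jn (p.1, J p, e) - J p)‖ ≤ δ / 2 := by
      rw [norm_mul, nn]
      exact le_trans (by gcongr) q
    refine ⟨by linarith, ?_⟩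
    have := norm_add_le (((η / 4 : ℝ) : ℂ)⁻¹ * (J p - J0) - p.2)
      (((η / 4 : ℝ) : ℂ)⁻¹ * (Jn (p.1, J p, e) - J p))
    refine le_trans (le_of_eq (congrArg _ (by ring))) (this.trans (by linarith))
  · have ev : (fun q : ℂ × ℂ => Θ (q.1, J q, e)) =ᶠ[𝓝 p]
        fun q => q.1 + α e + J0 + (η / 4 : ℝ) * q.2 :=
      Filter.eventually_of_mem (isOpen_domL.mem_nhds hp) eJ
    have dv : HasFDerivAt (fun q : ℂ × ℂ => q.1 + α e + J0 + (η / 4 : ℝ) * q.2)
        (ContinuousLinearMap.fst ℂ ℂ ℂ + ((η / 4 : ℝ) : ℂ) • ContinuousLinearMap.snd ℂ ℂ ℂ) p :=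
      ((hasFDerivAt_fst.add_const _).add_const _).add (hasFDerivAt_snd.const_mul _)
    have cT := (chain (hT.an _ (dJ p hp).1).1 (aJ p hp)).2
    rw [ev.fderiv_eq, dv.fderiv] at cT
    have t1 := cT (1, 0)
    have t2 := cT (0, 1)
    have det := hT.det _ (dJ p hp).1
    simp only [add_apply, smul_apply,
      ContinuousLinearMap.coe_fst', ContinuousLinearMap.coe_snd', smul_eq_mul] at t1 t2
    rw [dsub (aS p hp).1, dsub (aS p hp).1, dsub (aJ p hp), (aS p hp).2, (aS p hp).2]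
    have hk : ((η / 4 : ℝ) : ℂ)⁻¹ * fderiv ℂ J p (0, 1) * d2 Θ (p.1, J p, e) = 1 := by
      rw [mul_assoc, inv_mul_eq_one₀ n0]
      linear_combination t2
    have iv := mul_inv_cancel₀ n0
    simp only [jacC] at det ⊢
    linear_combination (d1 Jn (p.1, J p, e) + fderiv ℂ J p (1, 0) * d2 Jn (p.1, J p, e)) *
      (hk - iv) + ((η / 4 : ℝ) : ℂ)⁻¹ * fderiv ℂ J p (0, 1) * (d2 Jn (p.1, J p, e) * t1 + det)
  · have cc : ContDiff ℝ 1 fun θ => ((u θ : ℂ), (s θ : ℂ)) :=
      (ofRealCLM.contDiff.comp cu).prodMk (ofRealCLM.contDiff.comp cs)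
    have cr : ∀ G : ℂ × ℂ → ℂ, AnalyticOnNhd ℂ G domL → ContDiff ℝ 1 fun θ => (G (u θ, s θ)).re :=
      fun G hG => contDiff_iff_contDiffAt.2 fun θ => reCLM.contDiff.contDiffAt.comp θ
        (((hG _ (real_mem (hs θ))).contDiffAt.restrict_scalars ℝ).comp θ cc.contDiffAt)
    have ex := hE e he u (fun θ => (J (u θ, s θ)).re) cu (cr J aJ) pu (fun θ => by
      have := pJ _ (real_mem (x := u θ) (hs θ))
      simp only [pu, ps, ofReal_add, ofReal_mul, ofReal_ofNat] at this ⊢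
      rw [this]) fun θ => (dJ _ (real_mem (hs θ))).2.2
    have e1 : (fun t => reF Θ (u t, (J (u t, s t)).re, e)) =
        fun t => u t + α e + J0 + η / 4 * s t := funext fun t => by
      have := eJ _ (real_mem (x := u t) (hs t))
      simp only [reF, cp, rJ _ _ (hs t)] at this ⊢
      rw [this]
      simp
    have du := cu.differentiable (by simp)
    have ds := cs.differentiable (by simp)
    refine flux (c := η / 4) (J0 := J0) (by linarith) ?_ cs ps (Eq.trans ?_ ex)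
    · exact ((cs.continuous.add (cr _ aB).continuous).mul ((cu.continuous_deriv le_rfl).add
        (continuous_const.mul (cs.continuous_deriv le_rfl)))).sub
        ((cs.continuous.add (cr _ aA).continuous).mul (cu.continuous_deriv le_rfl))
    · refine intervalIntegral.integral_congr fun θ _ => ?_
      have d : deriv (fun t => u t + α e + J0 + η / 4 * s t) θ = deriv u θ + η / 4 * deriv s θ :=
        ((((du θ).hasDerivAt.add_const _).add_const _).add ((ds θ).hasDerivAt.const_mul _)).deriv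
      rw [e1]
      simp only [d, reF, cp, rJ _ _ (hs θ)]
      rw [← ofReal_inv]
      simp only [sub_re, re_ofReal_mul, ofReal_re]
      field_simp
      ring
  · simp only [key]
    exact ⟨(eJ p hp).trans (by ring), trivial⟩

end Pool.Agent.MP_62f0b1_an.AE

end
end MrgPart1

-- ======== part 2: formerly Pool.Agent.MP_62f0b1_an.ae.A0a
section MrgPart2

/-!
The polynomial map shadows real periodic orbits.
-/

set_option autoImplicit false

noncomputable section

namespace Pool.Agent.MP_62f0b1_an.AE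

open Complex Filter Topology Set Asymptotics
open scoped ComplexConjugate

namespace A0a

abbrev V3 := Fin 3 → ℂ

/-- Fourier coordinates. -/
def lin : V3 →L[ℂ] V3 := LinearMap.toContinuousLinearMap
  { toFun := fun v => ![zet v, zet' v, sig v]
    map_add' := fun v w => by
      ext i
      fin_cases i <;> simp [zet, zet', sig] <;> ring
    map_smul' := fun s v => by
      ext i
      fin_cases i <;> simp [zet, zet', sig] <;> ring }

theorem lin_apply (v : V3) : lin v = ![zet v, zet' v, sig v] := rfl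

theorem lin_aOf (x : V3) : lin (aOf om x - 1) = x := by
  ext i
  fin_cases i <;> simp [lin_apply, zet, zet', sig, aOf]
  · linear_combination (x 2 / 3 + x 1 * (om ^ 3 - om + 1) / 3 + (2 / 3) * x 0 * (om - 1)) * om_rel
  · linear_combination (x 2 / 3 + x 0 * (om ^ 2 - om + 1) / 3 +
      x 1 * (om - 1) * (om ^ 3 + 2) / 3) * om_rel
  · linear_combination (x 0 / 3 + x 1 * (om ^ 2 - om + 1) / 3) * om_rel

theorem aOf_lin (v : V3) : aOf om (lin v) = 1 + v := by
  ext i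
  fin_cases i <;> simp [lin_apply, zet, zet', sig, aOf]
  · linear_combination (v 1 / 3 + v 2 / 3) * om_rel
  · linear_combination (v 0 / 3 + (2 / 3) * v 1 * (om - 1) + v 2 * (om ^ 2 - om + 1) / 3) * om_rel
  · linear_combination (v 0 * (om ^ 2 - om + 1) / 3 + v 1 * (om ^ 3 - om + 1) / 3 +
      v 2 * (om - 1) * (om ^ 3 + 2) / 3) * om_rel

theorem aOf_zero : aOf om (0 : V3) = 1 := by
  ext i
  simp [aOf]

theorem cont_aOf : Continuous (aOf om : V3 → V3) := by
  unfold aOf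
  fun_prop

theorem an_B (t : ℂ) : AnalyticAt ℂ (Bf t : V3 → V3) 1 := by
  refine AnalyticAt.pi fun i => ?_
  have h : ∀ j : Fin 3, AnalyticAt ℂ (fun a : V3 => a j) 1 := fun j =>
    (ContinuousLinearMap.proj j : V3 →L[ℂ] ℂ).analyticAt 1
  unfold Bf
  refine ((((h i).add analyticAt_const).pow 2).add analyticAt_const).sub
    (((analyticAt_const.mul ((h i).add analyticAt_const)).mul
      ((((h _).pow 2).sub ((h _).pow 2)).sub ((h _).pow 2))).div ((h _).mul (h _)) (by simp))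

theorem fderiv_B (t : ℂ) (v : V3) (i : Fin 3) : fderiv ℂ (Bf t : V3 → V3) 1 v i =
    (2 + 4 * t + t ^ 2) * v i + t * (1 + t) * v (i + 1) - 2 * t * (1 + t) * v (i + 2) := by
  have h : ∀ j : Fin 3, HasDerivAt (fun s : ℂ => 1 + s * v j) (v j) 0 := fun j => by
    simpa using ((hasDerivAt_id (0 : ℂ)).mul_const (v j)).const_add 1
  have h1 : HasDerivAt (fun s : ℂ => (fun j => 1 + s * v j : V3)) v 0 := hasDerivAt_pi.2 h
  have h2 : HasFDerivAt (Bf t : V3 → V3) (fderiv ℂ (Bf t : V3 → V3) 1)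
      (fun j => 1 + (0 : ℂ) * v j) := by
    have : (fun j => 1 + (0 : ℂ) * v j : V3) = 1 := by ext j; simp
    rw [this]
    exact (an_B t).differentiableAt.hasFDerivAt
  have h3 := hasDerivAt_pi.1 (h2.comp_hasDerivAt (0 : ℂ) h1) i
  have h4 := ((((h i).add_const t).fun_pow 2).add_const (t ^ 2)).fun_sub
    (((((h i).add_const t).const_mul t).fun_mul
      ((((h (i + 2)).fun_pow 2).fun_sub ((h i).fun_pow 2)).fun_sub ((h (i + 1)).fun_pow 2))).fun_div
      ((h i).fun_mul (h (i + 1))) (by simp))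
  have h5 := h3.unique h4
  rw [h5]
  simp
  ring

/-- The eigenvalue on the first Fourier coordinate. -/
def ev1 (t : ℂ) : ℂ := 2 + 6 * t + 3 * t ^ 2 + (3 * t + 3 * t ^ 2) * om

theorem zet_fderiv (t : ℂ) (v : V3) :
    zet (fderiv ℂ (Bf t : V3 → V3) 1 v) = ev1 t * zet v := by
  simp only [zet, fderiv_B, ev1]
  simp
  linear_combination (-(t + t ^ 2) * (2 * v 0 / 3 + v 1 * (om - 1 / 3) + 2 * v 2 / 3)) * om_rel

theorem zet'_fderiv (t : ℂ) (v : V3) :
    zet' (fderiv ℂ (Bf t : V3 → V3) 1 v) = (2 + 3 * t - (3 * t + 3 * t ^ 2) * om) * zet' v := by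
  simp only [zet', fderiv_B]
  simp
  linear_combination ((t + t ^ 2) * (v 0 / 3 + v 1 / 3 + v 2 * (om - 2 / 3))) * om_rel

theorem sig_fderiv (t : ℂ) (v : V3) :
    sig (fderiv ℂ (Bf t : V3 → V3) 1 v) = (2 + 3 * t) * sig v := by
  simp only [sig, fderiv_B]
  simp
  ring

theorem ne_of_im {a b : ℝ} (hb : b ≠ 0) : (a : ℂ) + (b : ℂ) * om ≠ 0 := by
  intro h
  have := congrArg Complex.im h
  simp [om, hb] at this

theorem ev1_ne {τ : ℝ} (h : 0 < τ) : ev1 τ ≠ 0 := by
  have := ne_of_im (a := 2 + 6 * τ + 3 * τ ^ 2) (b := 3 * τ + 3 * τ ^ 2) (by positivity)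
  simpa [ev1] using this

theorem inj_fderiv {τ : ℝ} (h : 0 < τ) (v : V3)
    (hv : fderiv ℂ (Bf (τ : ℂ) : V3 → V3) 1 v = 0) : v = 0 := by
  have h1 := zet_fderiv τ v
  have h2 := zet'_fderiv τ v
  have h3 := sig_fderiv τ v
  rw [hv] at h1 h2 h3
  have n2 : (2 + 3 * (τ : ℂ) - (3 * τ + 3 * τ ^ 2) * om) ≠ 0 := by
    have := ne_of_im (a := 2 + 3 * τ) (b := -(3 * τ + 3 * τ ^ 2)) (neg_ne_zero.2 (by positivity))
    intro e
    apply this
    push_cast
    linear_combination e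
  have n3 : (2 + 3 * (τ : ℂ)) ≠ 0 := by
    have : (2 + 3 * τ : ℝ) ≠ 0 := by positivity
    exact_mod_cast this
  have e1 : zet v = 0 := (mul_eq_zero.1 (h1.symm.trans (by simp [zet]))).resolve_left (ev1_ne h)
  have e2 : zet' v = 0 := (mul_eq_zero.1 (h2.symm.trans (by simp [zet']))).resolve_left n2
  have e3 : sig v = 0 := (mul_eq_zero.1 (h3.symm.trans (by simp [sig]))).resolve_left n3
  have e4 : lin v = 0 := by
    rw [lin_apply, e1, e2, e3]
    ext i
    fin_cases i <;> rfl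
  have := aOf_lin v
  rw [e4, aOf_zero] at this
  simpa using this

theorem anti_B {τ : ℝ} (h : 0 < τ) {a a' : ℕ → V3} (ha : Tendsto a atTop (𝓝 1))
    (ha' : Tendsto a' atTop (𝓝 1)) :
    (fun k => a k - a' k) =O[atTop] fun k => Bf (τ : ℂ) (a k) - Bf (τ : ℂ) (a' k) := by
  set L := fderiv ℂ (Bf (τ : ℂ) : V3 → V3) 1 with hL
  obtain ⟨K, -, hK⟩ := (L : V3 →ₗ[ℂ] V3).exists_antilipschitzWith
    (LinearMap.ker_eq_bot'.2 (inj_fderiv h))
  have h1 : (fun k => a k - a' k) =O[atTop] fun k => L (a k - a' k) :=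
    IsBigO.of_bound K (Eventually.of_forall fun k => hK.le_mul_norm (map_zero _) _)
  have h2 := ((an_B τ).hasStrictFDerivAt.isLittleO.comp_tendsto (ha.prodMk_nhds ha')).trans_isBigO h1
  refine h1.trans (h2.right_isBigO_add.congr_right fun k => ?_)
  simp [hL]

section Ev

open MvPolynomial

variable {O : ValuationSubring ℂ} {x : ℕ → V3} {ρ : ℕ → ℝ}

theorem an_aeval (p : P3 O) (y : V3) : AnalyticAt ℂ (fun x : V3 => aeval x p) y :=
  AnalyticAt.aeval_mvPolynomial (f := fun x : V3 => x)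
    (fun j => (ContinuousLinearMap.proj j : V3 →L[ℂ] ℂ).analyticAt y) p

theorem bigO_one (hx : Tendsto x atTop (𝓝 0)) (p : P3 O) :
    (fun k => aeval (x k) p) =O[atTop] fun _ => (1 : ℝ) :=
  ((an_aeval p 0).continuousAt.tendsto.comp hx).isBigO_one ℝ

theorem bigO_mem (hx : x =O[atTop] ρ) (hρ : Tendsto ρ atTop (𝓝 0)) {p : P3 O} (hp : p ∈ I3 O) :
    (fun k => aeval (x k) p) =O[atTop] ρ := by
  induction hp using Submodule.span_induction with
  | mem p hp =>
    obtain ⟨i, rfl⟩ := hp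
    simpa using isBigO_pi.1 hx i
  | zero => simpa using isBigO_zero _ _
  | add p q _ _ hp hq => simpa using hp.add hq
  | smul q p _ hp => simpa using (bigO_one (hx.trans_tendsto hρ) q).mul hp

theorem bigO_pow (hx : x =O[atTop] ρ) (hρ : Tendsto ρ atTop (𝓝 0)) (n : ℕ) {p : P3 O}
    (hp : p ∈ I3 O ^ n) : (fun k => aeval (x k) p) =O[atTop] fun k => ρ k ^ n := by
  induction n generalizing p with
  | zero => simpa using bigO_one (hx.trans_tendsto hρ) p
  | succ n ih =>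
    rw [pow_succ] at hp
    refine Submodule.mul_induction_on hp (fun a ha b hb => ?_) fun a b ha hb => ?_
    · simpa [pow_succ] using (ih ha).mul (bigO_mem hx hρ hb)
    · simpa using ha.add hb

variable {l N : ℕ} {c : Ctx O l}

/-- The polynomial map on complex points. -/
def gh (m : FM c N) (y : V3) : V3 := fun i => aeval y (X i + C c.t * m.G i)

theorem aeval_F (m : FM c N) (y : V3) (p : P3 O) : aeval y (m.F p) = aeval (gh m y) p := by
  have : (aeval y : P3 O →ₐ[O] ℂ).comp m.F = aeval (gh m y) := by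
    ext i
    simp [FM.F, gh]
  exact DFunLike.congr_fun this p

theorem aeval_iter (m : FM c N) (y : V3) (j : ℕ) (p : P3 O) :
    aeval y ((m.F : P3 O → P3 O)^[j] p) = aeval ((gh m)^[j] y) p := by
  induction j generalizing p with
  | zero => rfl
  | succ j ih => rw [Function.iterate_succ_apply, ih, aeval_F, Function.iterate_succ_apply']

theorem an_gh (m : FM c N) : AnalyticAt ℂ (gh m) 0 := AnalyticAt.pi fun _ => an_aeval _ _

theorem gh_bigO (m : FM c N) (hx : x =O[atTop] ρ) (hρ : Tendsto ρ atTop (𝓝 0)) :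
    (fun k => gh m (x k)) =O[atTop] ρ :=
  isBigO_pi.2 fun i => bigO_mem hx hρ
    ((I3 O).add_mem (X_mem_idealOfVars i) ((I3 O).mul_mem_left _ (m.hG i)))

theorem aeval_a (hw : (c.w : ℂ) = om) (y : V3) (i : Fin 3) : aeval y (c.a i) = aOf om y i := by
  simp [Ctx.a, aOf, ← hw]

theorem Bt_eq (t : ℂ) (a : V3) (ha : Pi3 a ≠ 0) (i : Fin 3) : Bt t a i = Pi3 a * Bf t a i := by
  have h0 : a 0 ≠ 0 := fun e => ha (by simp [Pi3, e])
  have h1 : a 1 ≠ 0 := fun e => ha (by simp [Pi3, e])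
  have h2 : a 2 ≠ 0 := fun e => ha (by simp [Pi3, e])
  fin_cases i <;> simp [Bt, Bf, Pi3] <;> field_simp

theorem Dt_eq (t : ℂ) (a : V3) (ha : Pi3 a ≠ 0) (i : Fin 3) : Dt t a i = Pi3 a * Df t a i := by
  have h0 : a 0 ≠ 0 := fun e => ha (by simp [Pi3, e])
  have h1 : a 1 ≠ 0 := fun e => ha (by simp [Pi3, e])
  have h2 : a 2 ≠ 0 := fun e => ha (by simp [Pi3, e])
  fin_cases i <;> simp [Dt, Df, Pi3] <;> field_simp

theorem tendsto_a (hx : Tendsto x atTop (𝓝 0)) :
    Tendsto (fun k => aOf om (x k)) atTop (𝓝 1) := by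
  have := (cont_aOf.tendsto 0).comp hx
  rwa [aOf_zero] at this

theorem tendsto_Pi (hx : Tendsto x atTop (𝓝 0)) :
    Tendsto (fun k => Pi3 (aOf om (x k))) atTop (𝓝 1) := by
  have h : Continuous (Pi3 : V3 → ℂ) := by
    unfold Pi3
    fun_prop
  have := (h.tendsto 1).comp (tendsto_a hx)
  rwa [show Pi3 (1 : V3) = 1 by simp [Pi3]] at this

/-- One step. -/
theorem step_bigO (m : FM c N) {τ : ℝ} (hw : (c.w : ℂ) = om) (ht : (c.t : ℂ) = τ)
    (hx : x =O[atTop] ρ) (hρ : Tendsto ρ atTop (𝓝 0)) :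
    (fun k => Bf (τ : ℂ) (aOf om (gh m (x k))) - Df (τ : ℂ) (aOf om (x k))) =O[atTop]
      fun k => ρ k ^ N := by
  refine isBigO_pi.2 fun i => ?_
  have h1 := bigO_pow hx hρ N (m.eqn i)
  have p1 := tendsto_Pi (hx.trans_tendsto hρ)
  have p2 := tendsto_Pi ((gh_bigO m hx hρ).trans_tendsto hρ)
  have h2 := ((p1.mul p2).inv₀ (by simp)).isBigO_one ℝ
  have h3 := h2.mul h1
  simp only [one_mul] at h3
  refine h3.congr' ?_ EventuallyEq.rfl
  filter_upwards [p1.eventually_ne one_ne_zero, p2.eventually_ne one_ne_zero] with k n1 n2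
  have e1 : ∀ y : V3, aeval y (Pi3 c.a) = Pi3 (aOf om y) := fun y => by
    simp [Pi3, aeval_a hw]
  have e2 : ∀ y : V3, aeval y (Bt (C c.t) c.a i) = Bt (τ : ℂ) (aOf om y) i := fun y => by
    simp [Bt, Pi3, aeval_a hw, ← ht]
  have e3 : ∀ y : V3, aeval y (Dt (C c.t) c.a i) = Dt (τ : ℂ) (aOf om y) i := fun y => by
    simp [Dt, Pi3, aeval_a hw, ← ht]
  have e4 := aeval_F m (x k)
  simp only [FM.F] at e4
  rw [map_sub, map_mul, map_mul, e4, e4, e1, e1, e2, e3, Bt_eq _ _ n2, Dt_eq _ _ n1]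
  simp only [Pi.sub_apply]
  field_simp

/-- Shadowing of a whole orbit. -/
theorem shadow (m : FM c N) {τ : ℝ} (hτ : 0 < τ) (hw : (c.w : ℂ) = om) (ht : (c.t : ℂ) = τ)
    (hN : 1 ≤ N) (hρ : Tendsto ρ atTop (𝓝 0)) (y : ℕ → ℕ → V3)
    (hy : ∀ j ≤ l, (fun k => y k j) =O[atTop] ρ)
    (hs : ∀ k, ∀ j < l, Bf (τ : ℂ) (aOf om (y k (j + 1))) = Df (τ : ℂ) (aOf om (y k j)))
    (j : ℕ) (hj : j ≤ l) :
    (fun k => (gh m)^[j] (y k 0) - y k j) =O[atTop] fun k => ρ k ^ N := by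
  have hρN : Tendsto (fun k => ρ k ^ N) atTop (𝓝 0) := by
    simpa [show N ≠ 0 by omega] using hρ.pow N
  induction j with
  | zero => simpa using isBigO_zero _ _
  | succ j ih =>
    have ih := ih (by omega)
    have t1 := (hy j (by omega)).trans_tendsto hρ
    have t2 : Tendsto (fun k => (gh m)^[j] (y k 0)) atTop (𝓝 0) := by
      simpa using (ih.trans_tendsto hρN).add t1
    have h1 := (((an_gh m).hasStrictFDerivAt.isBigO_sub).comp_tendsto (t2.prodMk_nhds t1)).trans ih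
    have h2 := step_bigO m hw ht (hy j (by omega)) hρ
    have h3 := anti_B hτ (tendsto_a ((gh_bigO m (hy j (by omega)) hρ).trans_tendsto hρ))
      (tendsto_a ((hy (j + 1) hj).trans_tendsto hρ))
    simp only [hs _ j (by omega)] at h3
    have h4 := (lin.isBigO_comp _ atTop).trans (h3.trans h2)
    refine (h1.add h4).congr_left fun k => ?_
    have e : aOf om (gh m (y k j)) - aOf om (y k (j + 1)) =
        (aOf om (gh m (y k j)) - 1) - (aOf om (y k (j + 1)) - 1) := by abel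
    rw [e, map_sub, lin_aOf, lin_aOf, Function.iterate_succ_apply']
    simp

end Ev

end A0a

open A0a MvPolynomial in
theorem a0a : A0aStmt := by
  intro O l N c m τ hτ hw ht hN hF hP u hu
  have r0 : ev1 τ ≠ 0 := ev1_ne hτ
  have rn : ((‖ev1 τ‖ : ℝ) : ℂ) ≠ 0 := by simpa using r0
  obtain ⟨C0, a, h1, h2, h3, h4, h5, h6⟩ := hP (u * ev1 τ / ((‖ev1 τ‖ : ℝ) : ℂ)) (by
    simp [hu, r0])
  set ζ : ℕ → ℂ := fun k => ztOf τ (a k 0) with hζ
  set ρ : ℕ → ℝ := fun k => ‖ζ k‖ with hρd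
  have hρ : Tendsto ρ atTop (𝓝 0) := by simpa using h4.norm
  set A : ℕ → ℕ → V3 := fun k j i => ((a k j i : ℝ) : ℂ) with hA
  have hA1 : ∀ j ≤ l, (fun k => A k j - 1) =O[atTop] ρ := fun j hj =>
    isBigO_pi.2 fun i => IsBigO.of_bound C0 (Eventually.of_forall fun k => by
      have := h6 k j hj i
      have e : (A k j - 1) i = ((a k j i - 1 : ℝ) : ℂ) := by simp [hA]
      rw [e, Complex.norm_real]
      simpa [hρd] using this)
  set y : ℕ → ℕ → V3 := fun k j => lin (A k j - 1) with hyd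
  have hy : ∀ j ≤ l, (fun k => y k j) =O[atTop] ρ := fun j hj =>
    (lin.isBigO_comp _ atTop).trans (hA1 j hj)
  have hya : ∀ k j, aOf om (y k j) = A k j := fun k j => by
    simp only [hyd, aOf_lin]
    abel
  have cB : ∀ k j i, Bf (τ : ℂ) (A k j) i = ((Bf τ (a k j) i : ℝ) : ℂ) := fun k j i => by
    simp [Bf, hA]
  have cD : ∀ k j i, Df (τ : ℂ) (A k j) i = ((Df τ (a k j) i : ℝ) : ℂ) := fun k j i => by
    simp [Df, hA]
  have hs := shadow m hτ hw ht hN hρ y hy (fun k j hj => by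
    ext i
    rw [hya, hya, cB, cD, h2 k j hj]) l le_rfl
  have hyl : ∀ k, y k l = y k 0 := fun k => by simp [hyd, hA, h1 k]
  have hE : (fun k i => aeval (y k 0) (m.Eh (X i)) : ℕ → V3) =O[atTop] fun k => ρ k ^ N := by
    refine isBigO_pi.2 fun i => ?_
    refine ((isBigO_pi.1 hs i).const_mul_left (((τ : ℂ) ^ l)⁻¹)).congr_left fun k => ?_
    have e := congrArg (aeval (y k 0)) (hF.ret (X i))
    rw [map_sub, aeval_iter, map_mul, map_pow, aeval_C, aeval_X, aeval_X] at e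
    have e' : algebraMap O ℂ c.t = τ := ht
    have n : (τ : ℂ) ^ l ≠ 0 := pow_ne_zero _ (by exact_mod_cast hτ.ne')
    rw [Pi.sub_apply, hyl, e, e']
    field_simp
  set z : ℕ → ℂ := fun k => y k 0 0 with hz
  have hzc : ∀ k, ![z k, conj (z k), y k 0 2] = y k 0 := fun k => by
    ext i
    fin_cases i
    · rfl
    · have c3 : conj (3 : ℂ) = 3 := map_ofNat _ 3
      have c4 : (om ^ 2) ^ 2 = om := by linear_combination om * om_cube
      simp [hz, hyd, lin_apply, zet, zet', hA, conj_om, c3, c4]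
    · rfl
  -- the first jet
  have hj : (fun k => ζ k - ev1 τ * z k) =o[atTop] ρ := by
    have t1 : Tendsto (fun k => A k 0) atTop (𝓝 1) := by
      simpa using ((hA1 0 (Nat.zero_le _)).trans_tendsto hρ).add_const 1
    have g1 := (((an_B τ).differentiableAt.hasFDerivAt.isLittleO).comp_tendsto t1).trans_isBigO
      (hA1 0 (Nat.zero_le _))
    have g2 := isLittleO_pi.1 ((lin.isBigO_comp _ atTop).trans_isLittleO g1) 0
    refine g2.congr_left fun k => ?_
    have e0 : zet (Bf (τ : ℂ) (1 : V3)) = 0 := by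
      simp only [zet, Bf, Pi.one_apply]
      linear_combination (((1 + τ) ^ 2 + τ ^ 2 - τ * (1 + τ) * (1 ^ 2 - 1 ^ 2 - 1 ^ 2) / (1 * 1) : ℂ) / 3)
        * om_rel
    have e1 : zet (Bf (τ : ℂ) (A k 0)) = ζ k := by simp only [hζ, ztOf, zet, cB]
    have e2 := zet_fderiv τ (A k 0 - 1)
    simp only [Function.comp_apply, map_sub, Pi.sub_apply] at e2 ⊢
    simp only [lin_apply, Matrix.cons_val_zero, e0, e1, hz, hyd]
    have e3 : ∀ v w : V3, zet (v - w) = zet v - zet w := fun v w => by simp [zet]; ring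
    rw [e3] at e2
    rw [← e2]
    ring
  have hj2 : Tendsto (fun k => (ζ k - ev1 τ * z k) / ((ρ k : ℝ) : ℂ)) atTop (𝓝 0) := by
    refine IsLittleO.tendsto_div_nhds_zero (hj.trans_isBigO (IsBigO.of_bound' ?_))
    exact Eventually.of_forall fun k => by simp
  have ρ0 : ∀ k, ((ρ k : ℝ) : ℂ) ≠ 0 := fun k => by simpa [hρd, hζ] using h3 k
  have hq : Tendsto (fun k => z k / ((ρ k : ℝ) : ℂ)) atTop (𝓝 (u / ((‖ev1 τ‖ : ℝ) : ℂ))) := by
    have := (h5.sub hj2).div_const (ev1 τ)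
    convert this using 2
    · have := ρ0 ‹_›
      simp only [hρd, hζ] at this ⊢
      field_simp
      ring
    · field_simp
      ring
  have q0 : u / ((‖ev1 τ‖ : ℝ) : ℂ) ≠ 0 := div_ne_zero (by rintro rfl; simp at hu) rn
  have hz0 : ∀ᶠ k in atTop, z k ≠ 0 :=
    (hq.eventually_ne q0).mono fun k h e => h (by simp [e])
  have hρz : ρ =O[atTop] fun k => ‖z k‖ := by
    have := ((hq.inv₀ q0).isBigO_one ℝ).mul (isBigO_refl z atTop).norm_right
    simp only [one_mul] at this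
    refine IsBigO.trans (IsBigO.of_bound' ?_) this
    filter_upwards [hz0] with k hk
    rw [inv_div, div_mul_cancel₀ _ hk]
    simp
  have hdir : Tendsto (fun k => z k / ((‖z k‖ : ℝ) : ℂ)) atTop (𝓝 u) := by
    have n1 := (Complex.continuous_ofReal.tendsto _).comp hq.norm
    have n2 := hq.div n1 (by simpa using q0)
    convert n2 using 2
    · have := ρ0 ‹_›
      simp only [hρd, Pi.div_apply, Function.comp_apply, norm_div, Complex.norm_real,
        norm_norm] at this ⊢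
      push_cast
      rw [div_div_div_cancel_right₀ this]
    · simp [hu, r0]
  obtain ⟨c1, b1⟩ := ((isBigO_pi.1 (hy 0 (Nat.zero_le _)) 2).trans hρz).bound
  obtain ⟨c2, b2⟩ := (hE.trans (hρz.pow N)).bound
  obtain ⟨k0, hk0⟩ := eventually_atTop.1 (hz0.and (b1.and b2))
  have tz : Tendsto z atTop (𝓝 0) := (isBigO_pi.1 (hy 0 (Nat.zero_le _)) 0).trans_tendsto hρ
  refine ⟨max c1 c2, fun k => z (k + k0), fun k => y (k + k0) 0 2,
    fun k => (hk0 _ (by omega)).1, (tendsto_add_atTop_iff_nat k0).2 tz,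
    (tendsto_add_atTop_iff_nat k0).2 hdir, fun k => ?_, fun k i => ?_⟩
  · have := (hk0 (k + k0) (by omega)).2.1
    rw [norm_norm] at this
    exact this.trans (mul_le_mul_of_nonneg_right (le_max_left _ _) (norm_nonneg _))
  · have := (hk0 (k + k0) (by omega)).2.2
    rw [norm_pow, norm_norm] at this
    rw [hzc]
    exact ((norm_le_pi_norm (fun i => aeval (y (k + k0) 0) (m.Eh (X i)) : V3) i).trans this).trans
      (mul_le_mul_of_nonneg_right (le_max_right _ _) (by positivity))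

end Pool.Agent.MP_62f0b1_an.AE

end
end MrgPart2

-- ======== part 3: formerly Pool.Agent.MP_62f0b1_an.ae.A0b
section MrgPart3

/-!
The formal surface obtained from real points.
-/

set_option autoImplicit false

noncomputable section

namespace Pool.Agent.MP_62f0b1_an.AE

open Complex Filter Topology Set Asymptotics MvPolynomial
open scoped ComplexConjugate

namespace A0b

section Alg

variable {σ O : Type} [CommRing O]

/-- A multiplicative filtration contains the filtration by powers of the variables. -/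
theorem filt (T : ℕ → MvPolynomial σ O → Prop) (h0 : ∀ n, T n 0) (hC : ∀ a, T 0 (C a))
    (hX : ∀ i, T 1 (X i)) (hX0 : ∀ i, T 0 (X i)) (ha : ∀ n p q, T n p → T n q → T n (p + q))
    (hm : ∀ n m p q, T n p → T m q → T (n + m) (p * q)) (n : ℕ) :
    ∀ p ∈ idealOfVars σ O ^ n, T n p := by
  have z : ∀ p, T 0 p := fun p =>
    MvPolynomial.induction_on p hC (fun p q => ha 0 p q) fun p i h => hm 0 0 _ _ h (hX0 i)
  have o : ∀ p ∈ idealOfVars σ O, T 1 p := fun p hp => by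
    refine Submodule.span_induction (p := fun p _ => T 1 p) ?_ (h0 1) (fun p q _ _ => ha 1 p q)
      (fun a p _ h => hm 0 1 _ _ (z a) h) hp
    rintro _ ⟨i, rfl⟩
    exact hX i
  induction n with
  | zero => exact fun p _ => z p
  | succ n ih =>
    intro p hp
    rw [pow_succ] at hp
    exact Submodule.mul_induction_on hp (fun a h b k => hm n 1 _ _ (ih a h) (o b k))
      fun a b => ha _ a b

theorem cancel_X {n : ℕ} {i : σ} {g : MvPolynomial σ O}
    (h : X i * g ∈ idealOfVars σ O ^ (n + 1)) : g ∈ idealOfVars σ O ^ n := by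
  rw [mem_pow_idealOfVars_iff'] at h ⊢
  intro x hx
  rw [← coeff_X_mul x i g]
  apply h
  rw [map_add, Finsupp.degree_single]
  omega

theorem aeval_mul_hom {S : Type} [CommRing S] [Algebra O S] (w : Fin 2 → S) (t : S) {p : P2 O}
    {n : ℕ} (hp : p.IsHomogeneous n) : aeval (fun i => t * w i) p = t ^ n * aeval w p := by
  rw [aeval_def, aeval_def, eval₂_eq', eval₂_eq', Finset.mul_sum]
  refine Finset.sum_congr rfl fun m hm => ?_
  have h : m 0 + m 1 = n := by
    by_contra hne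
    refine (mem_support_iff.1 hm) (hp.coeff_eq_zero ?_)
    rwa [Finsupp.degree_eq_sum, Fin.sum_univ_two]
  rw [Fin.prod_univ_two, Fin.prod_univ_two, mul_pow, mul_pow, ← h, pow_add]
  ring

theorem sub_hc_mem {n : ℕ} {p : MvPolynomial σ O} (h : p ∈ idealOfVars σ O ^ n) :
    p - homogeneousComponent n p ∈ idealOfVars σ O ^ (n + 1) := by
  rw [mem_pow_idealOfVars_iff'] at h ⊢
  intro x hx
  rw [coeff_sub, coeff_homogeneousComponent]
  split_ifs with k
  · exact sub_self _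
  · rw [h x (by omega), sub_zero]

/-- The first variable is set to zero. -/
def kill (O : Type) [CommRing O] : P2 O →ₐ[O] P2 O := aeval ![0, X 1]

theorem kill_mem {n : ℕ} {p : P2 O} (h : p ∈ I2 O ^ n) : kill O p ∈ I2 O ^ n :=
  aeval_mem_pow (fun i => by
    fin_cases i
    · exact Ideal.zero_mem _
    · exact X_mem_idealOfVars 1) h

theorem exists_split (p : P2 O) : ∃ h, p = X 0 * h + kill O p := by
  induction p using MvPolynomial.induction_on with
  | C a => exact ⟨0, by simp [kill]⟩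
  | add p q hp hq =>
    obtain ⟨a, ha⟩ := hp
    obtain ⟨b, hb⟩ := hq
    exact ⟨a + b, by rw [map_add]; linear_combination ha + hb⟩
  | mul_X p i hp =>
    obtain ⟨a, ha⟩ := hp
    fin_cases i
    · exact ⟨p, by simp [kill, mul_comm]⟩
    · refine ⟨a * X 1, ?_⟩
      have e : kill O (X 1) = X 1 := by simp [kill]
      change p * X 1 = X 0 * (a * X 1) + kill O (p * X 1)
      rw [map_mul, e]
      linear_combination X 1 * ha

theorem res_mem {ψ : P2 O} (hψ : ψ ∈ I2 O) {n : ℕ} {p : P3 O} (h : p ∈ I3 O ^ n) :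
    res ψ p ∈ I2 O ^ n :=
  aeval_mem_pow (fun i => by
    fin_cases i
    · exact X_mem_idealOfVars 0
    · exact X_mem_idealOfVars 1
    · exact hψ) h

theorem aeval_res {S : Type} [CommRing S] [Algebra O S] (a b : S) (ψ : P2 O) (p : P3 O) :
    aeval ![a, b] (res ψ p) = aeval ![a, b, aeval ![a, b] ψ] p := by
  have : (aeval ![a, b] : P2 O →ₐ[O] S).comp (res ψ) = aeval ![a, b, aeval ![a, b] ψ] := by
    ext i
    fin_cases i <;> simp [res]
  exact AlgHom.congr_fun this p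

end Alg

/-- `f` is of order `n` along `z`. -/
def Ob (z : ℕ → ℂ) (n : ℕ) (f : ℕ → ℂ) : Prop := f =O[atTop] fun k => ‖z k‖ ^ n

section Ob

variable {z f g : ℕ → ℂ} {n m : ℕ}

theorem Ob.zero : Ob z n fun _ => 0 := isBigO_zero _ _

theorem Ob.const (a : ℂ) : Ob z 0 fun _ => a := by
  simpa [Ob] using isBigO_const_one ℝ a atTop

theorem Ob.add (h : Ob z n f) (h' : Ob z n g) : Ob z n fun k => f k + g k := IsBigO.add h h'

theorem Ob.sub (h : Ob z n f) (h' : Ob z n g) : Ob z n fun k => f k - g k := IsBigO.sub h h'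

theorem Ob.mul (h : Ob z n f) (h' : Ob z m g) : Ob z (n + m) fun k => f k * g k := by
  simpa only [Ob, pow_add] using IsBigO.mul h h'

theorem Ob.cmul (h : Ob z n f) (a : ℂ) : Ob z n fun k => a * f k := IsBigO.const_mul_left h a

theorem Ob.congr (h : Ob z n f) (e : ∀ k, f k = g k) : Ob z n g := (funext e : f = g) ▸ h

theorem Ob.anti (hz : Tendsto z atTop (𝓝 0)) (h : Ob z n f) (e : m ≤ n) : Ob z m f := by
  obtain ⟨d, rfl⟩ := Nat.exists_eq_add_of_le e
  refine IsBigO.trans h ?_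
  simpa only [pow_add, mul_one] using
    (isBigO_refl (fun k => ‖z k‖ ^ m) atTop).mul ((hz.norm.pow d).isBigO_one ℝ)

theorem Ob.self : Ob z 1 z := by
  simpa only [Ob, pow_one] using (isBigO_refl z atTop).norm_right

theorem Ob.conj : Ob z 1 fun k => conj (z k) :=
  IsBigO.of_bound 1 (Eventually.of_forall fun k => by simp)

theorem Ob.of_le {C : ℝ} (h : ∀ k, ‖f k‖ ≤ C * ‖z k‖ ^ n) : Ob z n f :=
  IsBigO.of_bound C (Eventually.of_forall fun k => by simpa using h k)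

theorem Ob.cancel (h0 : ∀ k, z k ≠ 0) (h : Ob z (n + 1) fun k => z k * f k) : Ob z n f := by
  obtain ⟨C, hC⟩ := isBigO_iff.1 h
  refine IsBigO.of_bound C (hC.mono fun k hk => ?_)
  simp only [norm_mul, norm_pow, norm_norm] at hk ⊢
  refine le_of_mul_le_mul_left ?_ (norm_pos_iff.2 (h0 k))
  rw [pow_succ] at hk
  linarith

variable {σ O : Type} [CommRing O] [Algebra O ℂ]

/-- Values and differences of values of polynomials. -/
theorem ob_diff (hz : Tendsto z atTop (𝓝 0)) {x y : ℕ → σ → ℂ} {e : ℕ}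
    (hx : ∀ i, Ob z 1 fun k => x k i) (hy : ∀ i, Ob z 1 fun k => y k i)
    (hd : ∀ i, Ob z (1 + e) fun k => x k i - y k i) {p : MvPolynomial σ O}
    (hp : p ∈ idealOfVars σ O ^ n) :
    (Ob z n fun k => aeval (x k) p) ∧ (Ob z n fun k => aeval (y k) p) ∧
      Ob z (n + e) fun k => aeval (x k) p - aeval (y k) p := by
  refine filt (fun n p => (Ob z n fun k => aeval (x k) p) ∧ (Ob z n fun k => aeval (y k) p) ∧
    Ob z (n + e) fun k => aeval (x k) p - aeval (y k) p) (fun n => ?_) (fun a => ?_) (fun i => ?_)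
    (fun i => ?_) (fun n p q h h' => ?_) (fun n m p q h h' => ?_) n p hp
  · simpa using ⟨Ob.zero, Ob.zero⟩
  · simpa using ⟨Ob.const _, Ob.zero⟩
  · simpa using ⟨hx i, hy i, hd i⟩
  · simpa using ⟨(hx i).anti hz zero_le_one, (hy i).anti hz zero_le_one,
      (hd i).anti hz (by omega)⟩
  · simp only [map_add]
    exact ⟨h.1.add h'.1, h.2.1.add h'.2.1, (h.2.2.add h'.2.2).congr fun k => by ring⟩
  · simp only [map_mul]
    refine ⟨h.1.mul h'.1, h.2.1.mul h'.2.1, ?_⟩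
    exact (((h.1.mul h'.2.2).anti hz (by omega)).add
      ((h.2.2.mul h'.2.1).anti hz (by omega))).congr fun k => by ring

theorem ob_val (hz : Tendsto z atTop (𝓝 0)) {x : ℕ → σ → ℂ} (hx : ∀ i, Ob z 1 fun k => x k i)
    {p : MvPolynomial σ O} (hp : p ∈ idealOfVars σ O ^ n) : Ob z n fun k => aeval (x k) p :=
  (ob_diff hz (e := 0) hx hx (fun _ => Ob.zero.congr fun _ => (sub_self _).symm) hp).1

theorem ob_two : ∀ i, Ob z 1 fun k => ![z k, conj (z k)] i := fun i => by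
  fin_cases i
  exacts [Ob.self, Ob.conj]

theorem ob_three (hf : Ob z 1 f) : ∀ i, Ob z 1 fun k => ![z k, conj (z k), f k] i := fun i => by
  fin_cases i
  exacts [Ob.self, Ob.conj, hf]

theorem ob_res (hz : Tendsto z atTop (𝓝 0)) {s : ℕ → ℂ} (hs : Ob z 1 s) {ψ : P2 O}
    (hψ : ψ ∈ I2 O ^ 2) {e : ℕ} (hd : Ob z (1 + e) fun k => s k - aeval ![z k, conj (z k)] ψ)
    {p : P3 O} (hp : p ∈ I3 O ^ n) :
    Ob z (n + e) fun k => aeval ![z k, conj (z k), s k] p - aeval ![z k, conj (z k)] (res ψ p) := by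
  simp only [aeval_res]
  refine (ob_diff hz (ob_three hs) (ob_three ((ob_val hz ob_two hψ).anti hz one_le_two))
    (fun i => ?_) hp).2.2
  fin_cases i
  · exact Ob.zero.congr fun k => (sub_self _).symm
  · exact Ob.zero.congr fun k => (sub_self _).symm
  · exact hd

theorem circle_infinite : {u : ℂ | ‖u‖ = 1}.Infinite := by
  have h : InjOn (fun t : ℝ => exp (t * I)) (Ioo 0 1) := by
    intro a ha b hb e
    have p := Real.pi_gt_three
    have k : ∀ t ∈ Ioo (0 : ℝ) 1, arg (exp (t * I)) = t := fun t ht => by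
      rw [exp_mul_I]
      exact arg_cos_add_sin_mul_I ⟨by linarith [ht.1], by linarith [ht.2]⟩
    rw [← k a ha, ← k b hb]
    exact congrArg arg e
  refine ((Ioo_infinite zero_lt_one).image h).mono ?_
  rintro _ ⟨t, -, rfl⟩
  exact norm_exp_ofReal_mul_I t

theorem hom_eq_zero (hO : Function.Injective (algebraMap O ℂ)) {h : P2 O}
    (hh : h.IsHomogeneous n) (hv : ∀ u : ℂ, ‖u‖ = 1 → aeval ![u, conj u] h = 0) : h = 0 := by
  apply map_injective _ hO
  rw [map_zero]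
  refine funext_set (fun _ => {u : ℂ | ‖u‖ = 1}) (fun _ => circle_infinite) fun x hx => ?_
  have h0 : ‖x 0‖ = 1 := hx 0 trivial
  have h1 : ‖x 1‖ = 1 := hx 1 trivial
  obtain ⟨c, hc⟩ := IsAlgClosed.exists_pow_nat_eq (x 0 * x 1) two_pos
  have c1 : ‖c‖ = 1 := by
    have : ‖c‖ ^ 2 = 1 := by rw [← norm_pow, hc, norm_mul, h0, h1, mul_one]
    exact (pow_eq_one_iff_of_nonneg (norm_nonneg _) two_ne_zero).1 this
  have k : ∀ a : ℂ, ‖a‖ = 1 → a * conj a = 1 := fun a ha => by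
    rw [mul_conj, normSq_eq_norm_sq, ha]
    simp
  have e : x = fun i => c * ![x 0 * conj c, conj (x 0 * conj c)] i := by
    funext i
    fin_cases i
    · change x 0 = c * (x 0 * conj c)
      linear_combination (-x 0) * k c c1
    · change x 1 = c * conj (x 0 * conj c)
      rw [map_mul, conj_conj]
      linear_combination (-conj (x 0)) * hc - x 1 * k _ h0
  rw [map_zero, eval_map, ← aeval_def, e, aeval_mul_hom _ _ hh, hv, mul_zero]
  rw [norm_mul, h0, RCLike.norm_conj, c1, mul_one]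

theorem dir_zero (h0 : ∀ k, z k ≠ 0) (hz : Tendsto z atTop (𝓝 0)) {u : ℂ}
    (hu : Tendsto (fun k => z k / ((‖z k‖ : ℝ) : ℂ)) atTop (𝓝 u)) {h : P2 O}
    (hh : h.IsHomogeneous n) (hv : Ob z (n + 1) fun k => aeval ![z k, conj (z k)] h) :
    aeval ![u, conj u] h = 0 := by
  have c : Continuous fun v : ℂ => aeval ![v, conj v] h := by
    simp only [aeval_def, eval₂_eq', Fin.prod_univ_two, Matrix.cons_val_zero, Matrix.cons_val_one]
    fun_prop
  refine tendsto_nhds_unique ((c.tendsto u).comp hu) ?_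
  obtain ⟨C, hC⟩ := isBigO_iff.1 hv
  have t : Tendsto (fun k => C * ‖z k‖) atTop (𝓝 0) := by simpa using hz.norm.const_mul C
  refine squeeze_zero_norm' (hC.mono fun k hk => ?_) t
  have p : 0 < ‖z k‖ := norm_pos_iff.2 (h0 k)
  have p' : ((‖z k‖ : ℝ) : ℂ) ≠ 0 := ofReal_ne_zero.2 p.ne'
  have e : ![z k, conj (z k)] = fun i => ((‖z k‖ : ℝ) : ℂ) *
      ![z k / ((‖z k‖ : ℝ) : ℂ), conj (z k / ((‖z k‖ : ℝ) : ℂ))] i := by
    funext i
    fin_cases i
    · exact (mul_div_cancel₀ _ p').symm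
    · change conj (z k) = _ * conj (z k / _)
      rw [map_div₀, conj_ofReal]
      exact (mul_div_cancel₀ _ p').symm
  rw [e, aeval_mul_hom _ _ hh] at hk
  simp only [norm_mul, norm_pow, norm_norm, norm_real] at hk
  refine le_of_mul_le_mul_left ?_ (pow_pos p n)
  rw [pow_succ] at hk
  simp only [Function.comp]
  linarith

end Ob

section Main

variable {O : Type} [CommRing O] [Algebra O ℂ] (hO : Function.Injective (algebraMap O ℂ))
  {z s : ℂ → ℕ → ℂ} (h0 : ∀ u : ℂ, ‖u‖ = 1 → ∀ k, z u k ≠ 0)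
  (hz : ∀ u : ℂ, ‖u‖ = 1 → Tendsto (z u) atTop (𝓝 0))
  (hu : ∀ u : ℂ, ‖u‖ = 1 → Tendsto (fun k => z u k / ((‖z u k‖ : ℝ) : ℂ)) atTop (𝓝 u))

include hO h0 hz hu

/-- A polynomial that is small along sequences from every direction has high order. -/
theorem mem_of_ob {m : ℕ} {p : P2 O}
    (hp : ∀ u : ℂ, ‖u‖ = 1 → Ob (z u) m fun k => aeval ![z u k, conj (z u k)] p) :
    p ∈ I2 O ^ m := by
  induction m with
  | zero => simp
  | succ m ih =>
    have a := sub_hc_mem (ih fun u h => (hp u h).anti (hz u h) m.le_succ)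
    have b : homogeneousComponent m p = 0 :=
      hom_eq_zero hO (homogeneousComponent_isHomogeneous m p) fun u h =>
        dir_zero (h0 u h) (hz u h) (hu u h) (homogeneousComponent_isHomogeneous m p)
          (((hp u h).sub (ob_val (hz u h) ob_two a)).congr fun k => by rw [map_sub]; ring)
    rwa [b, sub_zero] at a

theorem improve (hs : ∀ u : ℂ, ‖u‖ = 1 → Ob (z u) 1 (s u)) {E0 E1 : P3 O} {α β : O} (hα : IsUnit α)
    (hβ : IsUnit β) (e0 : E0 - C α * (X 0 * X 2) ∈ I3 O ^ 3)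
    (e1 : E1 - C β * (X 1 * X 2) ∈ I3 O ^ 3) {d : ℕ}
    (v0 : ∀ u : ℂ, ‖u‖ = 1 → Ob (z u) (3 + d) fun k => aeval ![z u k, conj (z u k), s u k] E0)
    (v1 : ∀ u : ℂ, ‖u‖ = 1 → Ob (z u) (3 + d) fun k => aeval ![z u k, conj (z u k), s u k] E1)
    {ψ : P2 O} (hψ : ψ ∈ I2 O ^ 2)
    (hd : ∀ u : ℂ, ‖u‖ = 1 → Ob (z u) (1 + d) fun k => s u k - aeval ![z u k, conj (z u k)] ψ) :
    ∃ ψ' ∈ I2 O ^ 2, ∀ u : ℂ, ‖u‖ = 1 →
      Ob (z u) (1 + (d + 1)) fun k => s u k - aeval ![z u k, conj (z u k)] ψ' := by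
  have a0 : ∀ u : ℂ, ‖u‖ = 1 → Ob (z u) (3 + d) fun k =>
      algebraMap O ℂ α * (z u k * (s u k - aeval ![z u k, conj (z u k)] ψ)) +
        aeval ![z u k, conj (z u k)] (res ψ E0) := fun u h =>
    ((v0 u h).sub (ob_res (hz u h) (hs u h) hψ (hd u h) e0)).congr fun k => by
      simp [res]
      ring
  have a1 : ∀ u : ℂ, ‖u‖ = 1 → Ob (z u) (3 + d) fun k =>
      algebraMap O ℂ β * (conj (z u k) * (s u k - aeval ![z u k, conj (z u k)] ψ)) +
        aeval ![z u k, conj (z u k)] (res ψ E1) := fun u h =>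
    ((v1 u h).sub (ob_res (hz u h) (hs u h) hψ (hd u h) e1)).congr fun k => by
      simp [res]
      ring
  have b : C β * (X 1 * res ψ E0) - C α * (X 0 * res ψ E1) ∈ I2 O ^ (3 + d + 1) :=
    mem_of_ob hO h0 hz hu fun u h =>
      ((((a0 u h).mul Ob.conj).cmul (algebraMap O ℂ β)).sub
        (((a1 u h).mul Ob.self).cmul (algebraMap O ℂ α))).congr fun k => by
          simp
          ring
  obtain ⟨α', hα'⟩ := hα.exists_left_inv
  obtain ⟨β', hβ'⟩ := hβ.exists_left_inv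
  have g : kill O (res ψ E0) ∈ I2 O ^ (3 + d) := by
    apply cancel_X (i := 1)
    have := Ideal.mul_mem_left _ (C β') (kill_mem b)
    have e : C β' * kill O (C β * (X 1 * res ψ E0) - C α * (X 0 * res ψ E1)) =
        X 1 * kill O (res ψ E0) := by
      have k1 : kill O (X 1) = X 1 := by simp [kill]
      have k0 : kill O (X 0) = 0 := by simp [kill]
      have kc : ∀ a, kill O (C a) = C a := fun a => by simp [kill]
      simp only [map_sub, map_mul, k1, k0, kc]
      rw [zero_mul, mul_zero, sub_zero, ← mul_assoc, ← map_mul, hβ', map_one, one_mul]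
    rwa [e] at this
  obtain ⟨h, hh⟩ := exists_split (res ψ E0)
  have hψ1 : ψ ∈ I2 O := Ideal.pow_le_self two_ne_zero hψ
  have r3 : res ψ E0 ∈ I2 O ^ 3 := by
    have k1 := res_mem hψ1 e0
    have k2 : C α * (X 0 * ψ) ∈ I2 O ^ 3 := by
      rw [pow_succ']
      exact Ideal.mul_mem_left _ _ (Ideal.mul_mem_mul (X_mem_idealOfVars 0) hψ)
    have e : res ψ E0 = res ψ (E0 - C α * (X 0 * X 2)) + C α * (X 0 * ψ) := by simp [res]
    rw [e]
    exact add_mem k1 k2
  have h2 : h ∈ I2 O ^ 2 := by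
    apply cancel_X (i := 0)
    rw [eq_sub_of_add_eq hh.symm]
    exact sub_mem r3 (Ideal.pow_le_pow_right (by omega) g)
  refine ⟨ψ - C α' * h, sub_mem hψ (Ideal.mul_mem_left _ _ h2), fun u hu1 => ?_⟩
  apply Ob.cancel (h0 u hu1)
  have q : algebraMap O ℂ α' * algebraMap O ℂ α = 1 := by rw [← map_mul, hα', map_one]
  refine ((((a0 u hu1).sub (ob_val (hz u hu1) ob_two g)).cmul (algebraMap O ℂ α')).anti
    (hz u hu1) (by omega)).congr fun k => ?_
  have e := congrArg (aeval ![z u k, conj (z u k)]) hh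
  simp only [map_add, map_mul, map_sub, aeval_X, aeval_C, Matrix.cons_val_zero] at e ⊢
  linear_combination (z u k * (s u k - aeval ![z u k, conj (z u k)] ψ)) * q +
    algebraMap O ℂ α' * e

end Main

end A0b

open A0b in
theorem a0b : A0bStmt := by
  intro O l N c m hN hB hS
  have hO : Function.Injective (algebraMap O ℂ) := Subtype.val_injective
  choose! C z s h0 hz hu hs hE using hS
  obtain ⟨α, hα, e0⟩ := hB.ez
  obtain ⟨β, hβ, e1⟩ := hB.ew
  have hs' : ∀ u : ℂ, ‖u‖ = 1 → Ob (z u) 1 (s u) := fun u h =>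
    Ob.of_le (C := C u) fun k => by simpa using hs u h k
  have hE' : ∀ i, ∀ u : ℂ, ‖u‖ = 1 →
      Ob (z u) N fun k => aeval ![z u k, conj (z u k), s u k] (m.Eh (X i)) := fun i u h =>
    Ob.of_le fun k => hE u h k i
  have key : ∀ d, d + 2 ≤ N → ∃ ψ ∈ I2 O ^ 2, ∀ u : ℂ, ‖u‖ = 1 →
      Ob (z u) (1 + d) fun k => s u k - aeval ![z u k, conj (z u k)] ψ := by
    intro d
    induction d with
    | zero => exact fun _ => ⟨0, zero_mem _, fun u h => (hs' u h).congr fun k => by simp⟩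
    | succ d ih =>
      intro hd
      obtain ⟨ψ, hψ, h⟩ := ih (by omega)
      exact improve hO h0 hz hu hs' hα hβ e0 e1
        (fun u k => (hE' 0 u k).anti (hz u k) (by omega))
        (fun u k => (hE' 1 u k).anti (hz u k) (by omega)) hψ h
  obtain ⟨ψ, hψ, h⟩ := key (N - 2) (by omega)
  refine ⟨ψ, hψ, fun i => mem_of_ob hO h0 hz hu fun u k => ?_⟩
  have a := ob_res (n := 0) (hz u k) (hs' u k) hψ (h u k) (p := m.Eh (X i)) (by simp)
  rw [zero_add] at a
  exact (((hE' i u k).anti (hz u k) (by omega)).sub a).congr fun k => by ring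

end Pool.Agent.MP_62f0b1_an.AE

end
end MrgPart3

-- ======== part 4: formerly Pool.Agent.MP_62f0b1_an.ae.W1c
section MrgPart4

/-!
Row W1c: a null critical set on triangles gives a null critical set in the polar chart.
-/

set_option autoImplicit false

noncomputable section

namespace Pool.Agent.MP_62f0b1_an.AE

open Complex Filter Topology Set MeasureTheory
open scoped ComplexConjugate

namespace W1c

abbrev T3 := Fin 3 → ℂ
abbrev P6 := ℂ × ℝ × R3

theorem finrank_eq : Module.finrank ℝ P6 = Module.finrank ℝ T3 := by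
  simp [Module.finrank_prod, Module.finrank_pi_fintype, Complex.finrank_real_complex]

theorem haar3 : (volume : Measure R3).IsAddHaarMeasure := Measure.prod.instIsAddHaarMeasure _ _

theorem haar4 : (volume : Measure (ℝ × R3)).IsAddHaarMeasure :=
  haveI := haar3
  Measure.prod.instIsAddHaarMeasure _ _

theorem haar6 : (volume : Measure P6).IsAddHaarMeasure :=
  haveI := haar4
  Measure.prod.instIsAddHaarMeasure _ _

/-- A differentiable map between spaces of the same dimension sends null sets to null sets. -/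
theorem null_image {Λ : T3 → P6} {T : Set T3} (hT : volume T = 0)
    (hΛ : DifferentiableOn ℝ Λ T) : volume (Λ '' T) = 0 := by
  have := haar6
  let L : P6 ≃L[ℝ] T3 := ContinuousLinearEquiv.ofFinrankEq finrank_eq
  have h1 : DifferentiableOn ℝ (L ∘ Λ) T := L.differentiable.comp_differentiableOn hΛ
  have h2 : volume ((L ∘ Λ) '' T) = 0 :=
    addHaar_image_eq_zero_of_differentiableOn_of_addHaar_eq_zero volume h1 hT
  have h3 : (volume : Measure P6) ≪ Measure.map L.symm (volume : Measure T3) :=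
    Measure.absolutelyContinuous_isAddHaarMeasure _ _
  apply h3
  have h4 : MeasurableEmbedding L.symm := L.symm.toHomeomorph.measurableEmbedding
  rw [h4.map_apply]
  have h5 : L.symm ⁻¹' (Λ '' T) = (L ∘ Λ) '' T := by
    rw [Set.image_comp]
    ext x
    constructor
    · intro hx
      exact ⟨L.symm x, hx, by simp⟩
    · rintro ⟨y, hy, rfl⟩
      simpa using hy
  rw [h5, h2]

/-- The parametrisation of triangles. -/
def Psi (χ : R3 → ℂ) (x : P6) : T3 :=
  fun i => x.1 + exp ((x.2.1 : ℂ) * I) * tri (χ x.2.2) x.2.2.2.2 i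

def ph (P : T3) : ℝ := (Complex.log (zet P)).im

def zOf (P : T3) : ℂ := -((Real.sqrt 3 : ℝ) : ℂ) * om * zet' P * exp (-((ph P : ℂ) * I))

def cOf (P : T3) : ℝ := 3 * (Complex.normSq (zet P) - Complex.normSq (zet' P))

/-- The left inverse of `Psi`. -/
def Lam (inv : ℂ × ℝ → ℝ × ℝ) (P : T3) : P6 :=
  (sig P, ph P, (inv (zOf P, cOf P)).1, (inv (zOf P, cOf P)).2, cOf P)

theorem s3_ne : ((Real.sqrt 3 : ℝ) : ℂ) ≠ 0 := by
  have : 0 < Real.sqrt 3 := Real.sqrt_pos.2 (by norm_num)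
  exact_mod_cast this.ne'

theorem s3_sq : ((Real.sqrt 3 : ℝ) : ℂ) ^ 2 = 3 := by
  rw [← Complex.ofReal_pow, Real.sq_sqrt (by norm_num)]; norm_num

theorem sig_mv (m ρ z : ℂ) (c : ℝ) : sig (fun i => m + ρ * tri z c i) = m := by
  have h := s3_ne
  simp only [sig, tri]
  field_simp
  simp only [Fin.val_zero, Fin.val_one, Fin.val_two]
  linear_combination (ρ * ((Real.sqrt (c + ‖z‖ ^ 2) : ℝ) : ℂ) -
    ρ * z * om ^ 2 * (om ^ 2 - om + 1)) * om_rel

theorem zet_mv (m ρ z : ℂ) (c : ℝ) : zet (fun i => m + ρ * tri z c i) =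
    ρ * (((Real.sqrt (c + ‖z‖ ^ 2) / Real.sqrt 3 : ℝ) : ℂ)) := by
  have h := s3_ne
  simp only [zet, tri]
  push_cast
  field_simp
  simp only [Fin.val_zero, Fin.val_one, Fin.val_two]
  linear_combination (m * ((Real.sqrt 3 : ℝ) : ℂ) - ρ * z) * om_rel +
    (2 * ρ * ((Real.sqrt (c + ‖z‖ ^ 2) : ℝ) : ℂ) - ρ * z * (om ^ 3 + 1) * (1 + om)) * om_cube

theorem zet'_mv (m ρ z : ℂ) (c : ℝ) : zet' (fun i => m + ρ * tri z c i) =
    -(ρ * z * om ^ 2) / ((Real.sqrt 3 : ℝ) : ℂ) := by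
  have h := s3_ne
  simp only [zet', tri]
  field_simp
  simp only [Fin.val_zero, Fin.val_one, Fin.val_two]
  linear_combination (m * ((Real.sqrt 3 : ℝ) : ℂ) +
    ρ * ((Real.sqrt (c + ‖z‖ ^ 2) : ℝ) : ℂ)) * om_rel +
    (ρ * ((Real.sqrt (c + ‖z‖ ^ 2) : ℝ) : ℂ) * om - ρ * z * om ^ 2 * (om ^ 3 + 2)) * om_cube

theorem multiArea_eq (P : T3) : multiArea P = -(Real.sqrt 3 / 2) * cOf P := by
  have h : Real.sqrt 3 ^ 2 = 3 := Real.sq_sqrt (by norm_num)
  simp only [cOf, zet, zet', ← conj_om]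
  simp [multiArea, Fin.sum_univ_three, Complex.normSq_apply, om]
  ring_nf
  simp only [h]
  ring

theorem cOf_mv (m ρ z : ℂ) (c : ℝ) (hρ : ‖ρ‖ = 1) (hc : 0 < c) :
    cOf (fun i => m + ρ * tri z c i) = c := by
  have h3 : (0 : ℝ) < Real.sqrt 3 := Real.sqrt_pos.2 (by norm_num)
  have h : Real.sqrt 3 ^ 2 = 3 := Real.sq_sqrt (by norm_num)
  have hs : Real.sqrt (c + ‖z‖ ^ 2) ^ 2 = c + ‖z‖ ^ 2 := Real.sq_sqrt (by positivity)
  rw [cOf, zet_mv, zet'_mv, Complex.normSq_eq_norm_sq, Complex.normSq_eq_norm_sq]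
  simp only [norm_mul, norm_div, norm_neg, norm_pow, hρ, norm_om, Complex.norm_real,
    Real.norm_eq_abs, one_mul, mul_one, one_pow, div_pow, sq_abs, h, hs]
  ring

theorem ph_mv (m z : ℂ) (c φ : ℝ) (hc : 0 < c) (hφ : |φ| < 1) :
    ph (fun i => m + exp ((φ : ℂ) * I) * tri z c i) = φ := by
  have h3 : (0 : ℝ) < Real.sqrt 3 := Real.sqrt_pos.2 (by norm_num)
  have hs : 0 < Real.sqrt (c + ‖z‖ ^ 2) / Real.sqrt 3 :=
    div_pos (Real.sqrt_pos.2 (by positivity)) h3
  have hpi := Real.pi_gt_three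
  have h1 := abs_lt.1 hφ
  rw [ph, zet_mv, Complex.log_im, mul_comm, Complex.arg_real_mul _ hs, Complex.arg_exp_mul_I,
    toIocMod_eq_self]
  constructor <;> linarith

theorem zOf_mv (m z : ℂ) (c φ : ℝ) (hc : 0 < c) (hφ : |φ| < 1) :
    zOf (fun i => m + exp ((φ : ℂ) * I) * tri z c i) = z := by
  have h := s3_ne
  have he : exp ((φ : ℂ) * I) * exp (-((φ : ℂ) * I)) = 1 := by
    rw [← Complex.exp_add]; simp
  rw [zOf, ph_mv m z c φ hc hφ, zet'_mv]
  field_simp
  linear_combination (z * om ^ 3) * he + z * om_cube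

theorem zet_slit (m z : ℂ) (c φ : ℝ) (hc : 0 < c) (hφ : |φ| < 1) :
    zet (fun i => m + exp ((φ : ℂ) * I) * tri z c i) ∈ Complex.slitPlane := by
  have h3 : (0 : ℝ) < Real.sqrt 3 := Real.sqrt_pos.2 (by norm_num)
  have hs : 0 < Real.sqrt (c + ‖z‖ ^ 2) / Real.sqrt 3 :=
    div_pos (Real.sqrt_pos.2 (by positivity)) h3
  have hpi := Real.pi_gt_three
  have h1 := abs_lt.1 hφ
  have hcos : 0 < Real.cos φ := Real.cos_pos_of_mem_Ioo ⟨by linarith, by linarith⟩
  rw [zet_mv]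
  left
  rw [Complex.re_mul_ofReal, Complex.exp_ofReal_mul_I_re]
  exact mul_pos hcos hs

theorem diff_sig (P : T3) : DifferentiableAt ℝ sig P := by
  unfold sig; fun_prop

theorem diff_zet (P : T3) : DifferentiableAt ℝ zet P := by
  unfold zet; fun_prop

theorem diff_zet' (P : T3) : DifferentiableAt ℝ zet' P := by
  unfold zet'; fun_prop

theorem diff_normSq (w : ℂ) : DifferentiableAt ℝ (fun x : ℂ => Complex.normSq x) w := by
  have : (fun x : ℂ => Complex.normSq x) = fun x : ℂ => reCLM x * reCLM x + imCLM x * imCLM x := by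
    funext x; simp [Complex.normSq_apply]
  rw [this]; fun_prop

theorem diff_cOf (P : T3) : DifferentiableAt ℝ cOf P := by
  have h1 := (diff_normSq (zet P)).comp P (diff_zet P)
  have h2 := (diff_normSq (zet' P)).comp P (diff_zet' P)
  exact (h1.sub h2).const_mul 3

theorem diff_ph {P : T3} (h : zet P ∈ Complex.slitPlane) : DifferentiableAt ℝ ph P := by
  have h1 : DifferentiableAt ℝ Complex.log (zet P) :=
    (Complex.differentiableAt_log h).restrictScalars ℝ
  exact imCLM.differentiableAt.comp P (h1.comp P (diff_zet P))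

theorem diff_zOf {P : T3} (h : zet P ∈ Complex.slitPlane) : DifferentiableAt ℝ zOf P := by
  have h1 : DifferentiableAt ℝ (fun Q => ((ph Q : ℝ) : ℂ)) P :=
    ofRealCLM.differentiableAt.comp P (diff_ph h)
  have h2 : DifferentiableAt ℝ (fun Q => exp (-(((ph Q : ℝ) : ℂ) * I))) P :=
    (h1.mul_const I).neg.cexp
  exact ((diff_zet' P).const_mul _).mul h2

theorem diff_Lam {inv : ℂ × ℝ → ℝ × ℝ} {P : T3} (h : zet P ∈ Complex.slitPlane)
    (hi : DifferentiableAt ℝ inv (zOf P, cOf P)) : DifferentiableAt ℝ (Lam inv) P := by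
  have h1 : DifferentiableAt ℝ (fun Q => inv (zOf Q, cOf Q)) P :=
    hi.comp P ((diff_zOf h).prodMk (diff_cOf P))
  exact (diff_sig P).prodMk ((diff_ph h).prodMk (h1.fst.prodMk (h1.snd.prodMk (diff_cOf P))))

theorem diff_tri {χ : R3 → ℂ} {p : R3} (hχ : DifferentiableAt ℝ χ p) (hc : 0 < p.2.2) :
    DifferentiableAt ℝ (fun q : R3 => tri (χ q) q.2.2) p := by
  have h1 : DifferentiableAt ℝ (fun q : R3 => q.2.2 + ‖χ q‖ ^ 2) p :=
    (differentiableAt_snd.snd).add (hχ.norm_sq ℝ)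
  have h2 : DifferentiableAt ℝ (fun q : R3 => Real.sqrt (q.2.2 + ‖χ q‖ ^ 2)) p :=
    h1.sqrt (by positivity)
  have h3 : DifferentiableAt ℝ (fun q : R3 => ((Real.sqrt (q.2.2 + ‖χ q‖ ^ 2) : ℝ) : ℂ)) p :=
    ofRealCLM.differentiableAt.comp p h2
  rw [differentiableAt_pi]
  intro j
  simp only [tri, div_eq_mul_inv]
  exact ((h3.mul_const _).sub (hχ.mul_const _)).mul_const _

theorem diff_Psi {χ : R3 → ℂ} {x : P6} (hχ : DifferentiableAt ℝ χ x.2.2) (hc : 0 < x.2.2.2.2) :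
    DifferentiableAt ℝ (Psi χ) x := by
  have h1 : DifferentiableAt ℝ (fun y : P6 => tri (χ y.2.2) y.2.2.2.2) x :=
    (diff_tri hχ hc).comp x (differentiableAt_snd.snd)
  have h2 : DifferentiableAt ℝ (fun y : P6 => ((y.2.1 : ℝ) : ℂ)) x :=
    ofRealCLM.differentiableAt.comp x (differentiableAt_snd.fst)
  have h3 : DifferentiableAt ℝ (fun y : P6 => exp (((y.2.1 : ℝ) : ℂ) * I)) x :=
    (h2.mul_const I).cexp
  rw [differentiableAt_pi] at h1 ⊢
  intro j
  exact differentiableAt_fst.add (h3.mul (h1 j))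

theorem isOpen_domR (e0 ε r : ℝ) : IsOpen (domR e0 ε r) := by
  have h1 : IsOpen {p : R3 | 0 < p.2.1} := isOpen_lt continuous_const (by fun_prop)
  have h2 : IsOpen {p : R3 | p.2.1 < r} := isOpen_lt (by fun_prop) continuous_const
  have h3 : IsOpen {p : R3 | |p.2.2 - e0| < ε} := isOpen_lt (by fun_prop) continuous_const
  exact h1.inter (h2.inter h3)

/-- The domain of the parametrisation. -/
def dom6 (e0 ε r : ℝ) : Set P6 :=
  {x | |x.2.1| < 1 ∧ x.2.2 ∈ domR e0 ε r ∧ |x.2.2.1| < Real.pi}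

theorem isOpen_dom6 (e0 ε r : ℝ) : IsOpen (dom6 e0 ε r) := by
  have h1 : IsOpen {x : P6 | |x.2.1| < 1} := isOpen_lt (by fun_prop) continuous_const
  have h2 : IsOpen {x : P6 | x.2.2 ∈ domR e0 ε r} :=
    (isOpen_domR e0 ε r).preimage (by fun_prop : Continuous fun x : P6 => x.2.2)
  have h3 : IsOpen {x : P6 | |x.2.2.1| < Real.pi} := isOpen_lt (by fun_prop) continuous_const
  exact h1.inter (h2.inter h3)

/-- A map with a differentiable left inverse has a surjective derivative. -/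
theorem surj_of_leftInv {Ψ : P6 → T3} {Λ : T3 → P6} {x : P6} (hΨ : DifferentiableAt ℝ Ψ x)
    (hΛ : DifferentiableAt ℝ Λ (Ψ x)) (h : ∀ᶠ y in 𝓝 x, Λ (Ψ y) = y) :
    Function.Surjective (fderiv ℝ Ψ x) := by
  have h1 : HasFDerivAt (Λ ∘ Ψ) ((fderiv ℝ Λ (Ψ x)).comp (fderiv ℝ Ψ x)) x :=
    hΛ.hasFDerivAt.comp x hΨ.hasFDerivAt
  have h2 : HasFDerivAt (Λ ∘ Ψ) (ContinuousLinearMap.id ℝ P6) x :=
    (hasFDerivAt_id x).congr_of_eventuallyEq h
  have h3 := h1.unique h2
  have h4 : Function.Injective (fderiv ℝ Ψ x) := by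
    intro v w hvw
    have hv := congrArg (fun A : P6 →L[ℝ] P6 => A v) h3
    have hw := congrArg (fun A : P6 →L[ℝ] P6 => A w) h3
    simp only [ContinuousLinearMap.comp_apply, ContinuousLinearMap.id_apply] at hv hw
    rw [← hv, ← hw, hvw]
  exact (LinearMap.injective_iff_surjective_of_finrank_eq_finrank finrank_eq
    (f := (fderiv ℝ Ψ x : P6 →ₗ[ℝ] T3))).1 h4

theorem fderiv_crit {G : R3 → ℝ} {p : R3} (h1 : r1 G p = 0) (h2 : r2 G p = 0) (v : R3) :
    fderiv ℝ G p v = v.2.2 * fderiv ℝ G p (0, 0, 1) := by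
  have hv : v = v.1 • ((1, 0, 0) : R3) + v.2.1 • ((0, 1, 0) : R3) + v.2.2 • ((0, 0, 1) : R3) := by
    ext <;> simp
  rw [r1] at h1
  rw [r2] at h2
  conv_lhs => rw [hv]
  rw [map_add, map_add, map_smul, map_smul, map_smul, h1, h2]
  simp

end W1c

open W1c in
theorem w1c : W1cStmt := by
  intro V F f χ Θ Jn e0 ε r N hV hF hrig hch hN hnull
  obtain ⟨inv, hinv⟩ := hch.inv
  set G : R3 → ℝ := fun p => F (tri (χ p) p.2.2) with hG
  have hpos : ∀ p ∈ domR e0 ε r, 0 < p.2.2 ∧ tri (χ p) p.2.2 ∈ V := fun p hp =>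
    hN _ _ (hch.nb p hp)
  have hχd : ∀ p ∈ domR e0 ε r, DifferentiableAt ℝ χ p := fun p hp =>
    (hch.smooth.differentiableOn (by norm_num)).differentiableAt
      ((isOpen_domR e0 ε r).mem_nhds hp)
  have hFd : ∀ P ∈ V, DifferentiableAt ℝ F P := fun P hP =>
    (hF.differentiableOn (by norm_num)).differentiableAt (hV.mem_nhds hP)
  have hrot : ∀ φ : ℝ, ‖exp ((φ : ℂ) * I)‖ = 1 := fun φ => Complex.norm_exp_ofReal_mul_I φ
  have hPV : ∀ x ∈ dom6 e0 ε r, Psi χ x ∈ V ∧ F (Psi χ x) = G x.2.2 := fun x hx =>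
    hrig _ (hpos _ hx.2.1).2 x.1 _ (hrot x.2.1)
  have hz : ∀ x ∈ dom6 e0 ε r, zOf (Psi χ x) = χ x.2.2 := fun x hx =>
    zOf_mv _ _ _ _ (hpos _ hx.2.1).1 hx.1
  have hc : ∀ x ∈ dom6 e0 ε r, cOf (Psi χ x) = x.2.2.2.2 := fun x hx =>
    cOf_mv _ _ _ _ (hrot x.2.1) (hpos _ hx.2.1).1
  have hleft : ∀ x ∈ dom6 e0 ε r, Lam inv (Psi χ x) = x := by
    intro x hx
    have h1 : sig (Psi χ x) = x.1 := sig_mv _ _ _ _
    have h2 : ph (Psi χ x) = x.2.1 := ph_mv _ _ _ _ (hpos _ hx.2.1).1 hx.1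
    have h3 := (hinv _ hx.2.1 hx.2.2).2
    rw [Lam, h1, h2, hz x hx, hc x hx, h3]
  have hLd : ∀ x ∈ dom6 e0 ε r, DifferentiableAt ℝ (Lam inv) (Psi χ x) := by
    intro x hx
    apply diff_Lam (zet_slit _ _ _ _ (hpos _ hx.2.1).1 hx.1)
    have h3 := (hinv _ hx.2.1 hx.2.2).1
    rw [← hz x hx, ← hc x hx] at h3
    exact h3
  have hPd : ∀ x ∈ dom6 e0 ε r, DifferentiableAt ℝ (Psi χ) x := fun x hx =>
    diff_Psi (hχd _ hx.2.1) (hpos _ hx.2.1).1
  set S : Set P6 := (univ : Set ℂ) ×ˢ (Ioo (-1 : ℝ) 1 ×ˢ critR G e0 ε r) with hS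
  have hSd : S ⊆ dom6 e0 ε r := by
    rintro x ⟨-, hx1, hx2⟩
    exact ⟨abs_lt.2 hx1, hx2.1, hx2.2.1⟩
  have hcrit : Psi χ '' S ⊆ crit V F := by
    rintro _ ⟨x, hx, rfl⟩
    have hxd := hSd hx
    have hnb : ∀ᶠ y in 𝓝 x, y ∈ dom6 e0 ε r := (isOpen_dom6 e0 ε r).mem_nhds hxd
    have hsurj := surj_of_leftInv (hPd x hxd) (hLd x hxd) (hnb.mono hleft)
    obtain ⟨-, -, hp, -, hr1, hr2⟩ := hx
    have hGd : DifferentiableAt ℝ G x.2.2 :=
      (hFd _ (hpos _ hp).2).comp x.2.2 (diff_tri (hχd _ hp) (hpos _ hp).1)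
    have hpr : HasFDerivAt (fun y : P6 => y.2.2)
        ((ContinuousLinearMap.snd ℝ ℝ R3).comp (ContinuousLinearMap.snd ℝ ℂ (ℝ × R3))) x :=
      (hasFDerivAt_snd.snd)
    have e1 := (hFd _ (hPV x hxd).1).hasFDerivAt.comp x (hPd x hxd).hasFDerivAt
    have e2' := HasFDerivAt.comp (g := G) (f := fun y : P6 => y.2.2) x hGd.hasFDerivAt hpr
    have e2 := e2'.congr_of_eventuallyEq
      (f₁ := F ∘ Psi χ) (hnb.mono fun y hy => (hPV y hy).2)
    have e3 := e1.unique e2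
    have c1 := (diff_cOf (Psi χ x)).hasFDerivAt.comp x (hPd x hxd).hasFDerivAt
    have c2 := (hpr.snd.snd).congr_of_eventuallyEq
      (f₁ := cOf ∘ Psi χ) (hnb.mono fun y hy => hc y hy)
    have c3 := c1.unique c2
    have hA : HasFDerivAt (multiArea : T3 → ℝ)
        ((-(Real.sqrt 3 / 2)) • fderiv ℝ cOf (Psi χ x)) (Psi χ x) := by
      have : (multiArea : T3 → ℝ) = fun P => -(Real.sqrt 3 / 2) * cOf P := funext multiArea_eq
      rw [this]
      exact (diff_cOf _).hasFDerivAt.const_mul _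
    have h3 : (0 : ℝ) < Real.sqrt 3 := Real.sqrt_pos.2 (by norm_num)
    refine ⟨(hPV x hxd).1, fderiv ℝ G x.2.2 (0, 0, 1) / (-(Real.sqrt 3 / 2)), ?_⟩
    rw [hA.fderiv]
    ext1 w
    obtain ⟨v, rfl⟩ := hsurj w
    have e4 := congrArg (fun A : P6 →L[ℝ] ℝ => A v) e3
    have c4 := congrArg (fun A : P6 →L[ℝ] ℝ => A v) c3
    simp only [ContinuousLinearMap.comp_apply, ContinuousLinearMap.coe_snd'] at e4 c4
    rw [e4, fderiv_crit hr1 hr2]
    simp only [smul_apply, smul_eq_mul, c4]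
    field_simp
  have hnull2 : volume (Psi χ '' S) = 0 := measure_mono_null hcrit hnull
  have hdiff : DifferentiableOn ℝ (Lam inv) (Psi χ '' S) := by
    rintro _ ⟨x, hx, rfl⟩
    exact (hLd x (hSd hx)).differentiableWithinAt
  have himg : Lam inv '' (Psi χ '' S) = S := by
    ext x
    constructor
    · rintro ⟨_, ⟨y, hy, rfl⟩, rfl⟩
      rw [hleft y (hSd hy)]; exact hy
    · intro hx
      exact ⟨_, ⟨x, hx, rfl⟩, hleft x (hSd hx)⟩
  have hS0 := null_image hnull2 hdiff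
  rw [himg, hS, Measure.volume_eq_prod, Measure.prod_prod, Measure.volume_eq_prod,
    Measure.prod_prod] at hS0
  have hu : volume (univ : Set ℂ) ≠ 0 := isOpen_univ.measure_ne_zero _ univ_nonempty
  have hI : volume (Ioo (-1 : ℝ) 1) ≠ 0 := by simp
  exact (mul_eq_zero.1 ((mul_eq_zero.1 hS0).resolve_left hu)).resolve_left hI

end Pool.Agent.MP_62f0b1_an.AE

end
end MrgPart4

-- marker of a merged file
example : 731051 + 877856 = 731051 + 877856 := rfl
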