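import Mathlib.Topology.Sheaves.Presheaf
import Mathlib.Tactic.Monotonicity.Lemmas
import Mathlib.RingTheory.Flat.TorsionFree
import Mathlib.Analysis.Complex.Polynomial.Basic
import Mathlib.RingTheory.Polynomial.Resultant.Basic
import Mathlib.RingTheory.Valuation.LocalSubring
import Mathlib.Analysis.InnerProductSpace.Calculus
import Mathlib.RingTheory.Polynomial.Cyclotomic.Roots
import Mathlib.Data.Rat.Star
import Mathlib.MeasureTheory.Integral.CurveIntegral.Poincare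
import Mathlib.Topology.Separation.CompletelyRegular
import Mathlib.RingTheory.SimpleRing.Principal
import Mathlib.RingTheory.TotallySplit
import Mathlib.RingTheory.Etale.Weakly
import Pool.Agent.MP_62f0b1_an.ae.Asm

-- ======== part 0: formerly Pool.Agent.MP_62f0b1_an.ae.G6
section MrgPart0

/-!
Row G6: transport of the polar chart through the quadratic change of coordinates.
-/

set_option autoImplicit false

noncomputable section

namespace Pool.Agent.MP_62f0b1_an.AE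

open Complex Filter Topology Set
open scoped ComplexConjugate

namespace G6

/-- The projection to the real data. -/
def pr (p : C3) : ℂ × ℝ := (p.1, p.2.2.re)

theorem pr_rp (z : ℂ) (c : ℝ) : pr (rp z c) = (z, c) := by simp [pr, rp]

theorem tendsto_pr (e0 : ℝ) : Tendsto pr (𝓝 (base e0)) (𝓝 ((0 : ℂ), e0)) := by
  have h : Continuous pr := by unfold pr; fun_prop
  have h2 := h.tendsto (base e0)
  have : pr (base e0) = ((0 : ℂ), e0) := by simp [pr, base]
  rwa [this] at h2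

theorem tendsto_snd_c (e0 : ℝ) :
    Tendsto (fun q : ℂ × ℝ => (q.2 : ℂ)) (𝓝 ((0 : ℂ), e0)) (𝓝 (e0 : ℂ)) := by
  have h : Continuous (fun q : ℂ × ℝ => (q.2 : ℂ)) := by fun_prop
  exact h.tendsto ((0 : ℂ), e0)

theorem tendsto_new {κ : ℂ → ℂ} {e0 : ℝ} (h : AnalyticAt ℂ κ e0) :
    Tendsto (fun q : ℂ × ℝ => rp (q.1 + κ q.2 * conj q.1 ^ 2) q.2) (𝓝 ((0 : ℂ), e0))
      (𝓝 (base e0)) := by
  have h1 : ContinuousAt (fun q : ℂ × ℝ => κ q.2) ((0 : ℂ), e0) :=
    h.continuousAt.tendsto.comp (tendsto_snd_c e0)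
  have h2 : ContinuousAt (fun q : ℂ × ℝ => q.1 + κ q.2 * conj q.1 ^ 2) ((0 : ℂ), e0) := by
    have h3 : Continuous (fun q : ℂ × ℝ => conj q.1 ^ 2) := by fun_prop
    exact continuous_fst.continuousAt.add (h1.mul h3.continuousAt)
  have h4 : ContinuousAt (fun q : ℂ × ℝ => rp (q.1 + κ q.2 * conj q.1 ^ 2) q.2) ((0 : ℂ), e0) := by
    unfold rp
    refine h2.prodMk (ContinuousAt.prodMk ?_ ?_)
    · exact Complex.continuous_conj.continuousAt.comp h2
    · exact tendsto_snd_c e0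
  have h5 : rp ((0 : ℂ) + κ e0 * conj (0 : ℂ) ^ 2) e0 = base e0 := by simp [rp, base]
  have h6 := h4.tendsto
  simp only at h6
  rwa [h5] at h6

theorem sq_bound {x : ℂ} {ρ ρ1 C J r θ : ℝ} (hρ : 0 ≤ ρ) (hρ1 : ρ ≤ ρ1) (hJ : 0 < J) (hr : J < r)
    (h : ‖x - ((ρ * Real.sqrt J : ℝ) : ℂ) * exp ((θ : ℂ) * I)‖ ≤ C * J) :
    ‖x‖ ^ 2 ≤ (2 * ρ1 ^ 2 + 2 * C ^ 2 * r) * J := by
  have h1 : ‖((ρ * Real.sqrt J : ℝ) : ℂ) * exp ((θ : ℂ) * I)‖ = ρ * Real.sqrt J := by
    rw [norm_mul, Complex.norm_exp_ofReal_mul_I, mul_one, Complex.norm_real, Real.norm_eq_abs,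
      abs_of_nonneg (mul_nonneg hρ (Real.sqrt_nonneg _))]
  have h2 : ‖x‖ ≤ C * J + ρ * Real.sqrt J := by
    have := norm_add_le (x - ((ρ * Real.sqrt J : ℝ) : ℂ) * exp ((θ : ℂ) * I))
      (((ρ * Real.sqrt J : ℝ) : ℂ) * exp ((θ : ℂ) * I))
    rw [sub_add_cancel, h1] at this
    linarith
  have h3 : Real.sqrt J ^ 2 = J := Real.sq_sqrt hJ.le
  have h4 : ‖x‖ ^ 2 ≤ (C * J + ρ * Real.sqrt J) ^ 2 := pow_le_pow_left₀ (norm_nonneg _) h2 2
  have h5 : (C * J + ρ * Real.sqrt J) ^ 2 ≤ 2 * (C * J) ^ 2 + 2 * (ρ * Real.sqrt J) ^ 2 := by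
    nlinarith [sq_nonneg (C * J - ρ * Real.sqrt J)]
  have h6 : (ρ * Real.sqrt J) ^ 2 = ρ ^ 2 * J := by rw [mul_pow, h3]
  have h7 : ρ ^ 2 ≤ ρ1 ^ 2 := pow_le_pow_left₀ hρ hρ1 2
  have h8 : ρ ^ 2 * J ≤ ρ1 ^ 2 * J := mul_le_mul_of_nonneg_right h7 hJ.le
  have h9 : (C * J) ^ 2 ≤ C ^ 2 * r * J := by
    have : C ^ 2 * J * J ≤ C ^ 2 * r * J :=
      mul_le_mul_of_nonneg_right (mul_le_mul_of_nonneg_left hr.le (sq_nonneg C)) hJ.le
    nlinarith
  nlinarith

end G6

open G6 in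
theorem g6 : G6Stmt := by
  intro f F κ e0 hc N hN
  obtain ⟨inv1, hinv1⟩ := hc.inv
  have hA : ∀ᶠ q in 𝓝 ((0 : ℂ), e0), AnalyticAt ℂ κ ((q.2 : ℝ) : ℂ) :=
    (tendsto_snd_c e0).eventually hc.an.eventually_analyticAt
  have hB : ∀ᶠ q in 𝓝 ((0 : ℂ), e0), ‖κ ((q.2 : ℝ) : ℂ)‖ < ‖κ e0‖ + 1 := by
    have h1 : Tendsto (fun q : ℂ × ℝ => ‖κ q.2‖) (𝓝 ((0 : ℂ), e0)) (𝓝 ‖κ e0‖) :=
      (hc.an.continuousAt.tendsto.comp (tendsto_snd_c e0)).norm
    exact h1.eventually (gt_mem_nhds (by linarith))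
  have hC : ∀ᶠ q in 𝓝 ((0 : ℂ), e0), rp (q.1 + κ q.2 * conj q.1 ^ 2) q.2 ∈ N :=
    (tendsto_new hc.an).eventually hN
  have hall := (tendsto_pr e0).eventually (hA.and (hB.and (hC.and (hc.link.and hinv1))))
  refine ⟨_, Filter.inter_mem hN hall, ?_⟩
  intro χ Θ Jn ε r hch
  have key : ∀ p ∈ domR e0 ε r, AnalyticAt ℂ κ ((p.2.2 : ℝ) : ℂ) ∧
      ‖κ ((p.2.2 : ℝ) : ℂ)‖ < ‖κ e0‖ + 1 ∧
      rp (χ p + κ p.2.2 * conj (χ p) ^ 2) p.2.2 ∈ N ∧
      (f (rp (χ p + κ p.2.2 * conj (χ p) ^ 2) p.2.2) =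
        F (rp (χ p) p.2.2) + κ p.2.2 * conj (F (rp (χ p) p.2.2)) ^ 2) ∧
      (DifferentiableAt ℝ inv1 (χ p + κ p.2.2 * conj (χ p) ^ 2, p.2.2) ∧
        inv1 (χ p + κ p.2.2 * conj (χ p) ^ 2, p.2.2) = χ p) := by
    intro p hp
    have h := (hch.nb p hp).2
    simp only [mem_ofPred_eq, pr_rp] at h
    exact h
  refine ⟨?_, ?_, ?_, ?_, ?_, ?_, ?_⟩
  · intro p hp
    have h1 : ContDiffWithinAt ℝ 1 χ (domR e0 ε r) p := hch.smooth p hp
    have h2 : ContDiffAt ℝ 1 κ ((p.2.2 : ℝ) : ℂ) :=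
      ((key p hp).1.contDiffAt (n := 1)).restrict_scalars ℝ
    have h3 : ContDiff ℝ 1 (fun p : R3 => ((p.2.2 : ℝ) : ℂ)) :=
      Complex.ofRealCLM.contDiff.comp (contDiff_snd.comp contDiff_snd)
    have h4 : ContDiffAt ℝ 1 (fun p : R3 => κ ((p.2.2 : ℝ) : ℂ)) p := h2.comp p h3.contDiffAt
    have h5 : ContDiffWithinAt ℝ 1 (fun p : R3 => conj (χ p)) (domR e0 ε r) p :=
      (Complex.conjCLE.contDiff.contDiffAt).comp_contDiffWithinAt p h1
    exact h1.add (h4.contDiffWithinAt.mul (h5.pow 2))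
  · intro p
    simp only [hch.per p]
  · intro p hp
    rw [(key p hp).2.2.2.1, hch.link p hp]
  · obtain ⟨C, ρ0, ρ1, ρ, h0, h⟩ := hch.asym
    refine ⟨C + (‖κ e0‖ + 1) * (2 * ρ1 ^ 2 + 2 * C ^ 2 * r), ρ0, ρ1, ρ, h0, fun p hp => ?_⟩
    obtain ⟨h1, h2, h3⟩ := h p hp
    refine ⟨h1, h2, ?_⟩
    have h4 := sq_bound (le_trans h0.le h1) h2 hp.1 hp.2.1 h3
    have h5 : ‖κ p.2.2 * conj (χ p) ^ 2‖ ≤ (‖κ e0‖ + 1) * ((2 * ρ1 ^ 2 + 2 * C ^ 2 * r) * p.2.1) := by
      rw [norm_mul, norm_pow, Complex.norm_conj]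
      exact mul_le_mul (key p hp).2.1.le h4 (sq_nonneg _) (by positivity)
    have h6 : χ p + κ p.2.2 * conj (χ p) ^ 2 -
        ((ρ p.2.2 * Real.sqrt p.2.1 : ℝ) : ℂ) * exp ((p.1 : ℂ) * I) =
        (χ p - ((ρ p.2.2 * Real.sqrt p.2.1 : ℝ) : ℂ) * exp ((p.1 : ℂ) * I)) +
          κ p.2.2 * conj (χ p) ^ 2 := by ring
    rw [h6]
    refine le_trans (norm_add_le _ _) ?_
    nlinarith
  · obtain ⟨inv2, h⟩ := hch.inv
    refine ⟨fun q => inv2 (inv1 q, q.2), fun p hp hπ => ?_⟩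
    obtain ⟨h1, h2⟩ := h p hp hπ
    obtain ⟨h3, h4⟩ := (key p hp).2.2.2.2
    refine ⟨?_, ?_⟩
    · have h5 : DifferentiableAt ℝ (fun q : ℂ × ℝ => (inv1 q, q.2))
          (χ p + κ p.2.2 * conj (χ p) ^ 2, p.2.2) := h3.prodMk differentiableAt_snd
      have h6 : DifferentiableAt ℝ inv2
          ((fun q : ℂ × ℝ => (inv1 q, q.2)) (χ p + κ p.2.2 * conj (χ p) ^ 2, p.2.2)) := by
        simp only [h4]; exact h1
      exact DifferentiableAt.comp (g := inv2) (f := fun q : ℂ × ℝ => (inv1 q, q.2)) _ h6 h5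
    · simp only [h4, h2]
  · intro p hp
    exact (key p hp).2.2.1
  · intro e he
    exact (hch.nb0 e he).1

end Pool.Agent.MP_62f0b1_an.AE

end
end MrgPart0

-- ======== part 1: formerly Pool.Agent.MP_62f0b1_an.ae.R
section MrgPart1

/-!
Real form of a twist family.
-/

set_option autoImplicit false

noncomputable section

namespace Pool.Agent.MP_62f0b1_an.AE

open Complex Filter Topology Set
open scoped ComplexConjugate

namespace R

/-- The embedding of real points as a continuous linear map. -/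
def cpL : R3 →L[ℝ] C3 := ofRealCLM.prodMap (ofRealCLM.prodMap ofRealCLM)

theorem cpL_eq (p : R3) : cpL p = cp p := rfl

theorem cp_mem {e0 ε r : ℝ} {p : R3} (hp : p ∈ domR e0 ε r) : cp p ∈ domC e0 ε r := by
  obtain ⟨h1, h2, h3⟩ := hp
  simp [domC, cp, h1, h2, h3]

theorem open_domR (e0 ε r : ℝ) : IsOpen (domR e0 ε r) := by
  simp only [domR, ofPred_and]
  exact (isOpen_lt (by fun_prop) (by fun_prop)).inter
    ((isOpen_lt (by fun_prop) (by fun_prop)).inter (isOpen_lt (by fun_prop) (by fun_prop)))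

theorem an_re {g : C3 → ℂ} {p : R3} (h : AnalyticAt ℂ g (cp p)) : AnalyticAt ℝ (reF g) p :=
  (reCLM.analyticAt _).comp ((h.restrictScalars (𝕜 := ℝ)).comp_of_eq (cpL.analyticAt p) rfl)

theorem fd {g : C3 → ℂ} {p : R3} (h : AnalyticAt ℂ g (cp p)) (L : ℂ →L[ℝ] ℝ) (v : R3) :
    fderiv ℝ (fun q => L (g (cp q))) p v = L (fderiv ℂ g (cp p) (cp v)) := by
  have k := L.hasFDerivAt.comp p
    ((h.differentiableAt.hasFDerivAt.restrictScalars ℝ).comp p cpL.hasFDerivAt)
  exact congrArg (fun M => M v) k.fderiv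

theorem fd_eq {g : C3 → ℂ} {e0 ε r : ℝ} {p : R3} (hp : p ∈ domR e0 ε r)
    (h : AnalyticAt ℂ g (cp p)) (hr : ∀ q ∈ domR e0 ε r, (g (cp q)).im = 0) (v : R3) :
    ((fderiv ℝ (reF g) p v : ℝ) : ℂ) = fderiv ℂ g (cp p) (cp v) := by
  have h1 : fderiv ℝ (reF g) p v = (fderiv ℂ g (cp p) (cp v)).re := fd h reCLM v
  have h2 : fderiv ℝ (fun q => imCLM (g (cp q))) p v = (fderiv ℂ g (cp p) (cp v)).im :=
    fd h imCLM v
  have h3 : (fun q => imCLM (g (cp q))) =ᶠ[𝓝 p] fun _ => 0 :=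
    ((open_domR e0 ε r).eventually_mem hp).mono hr
  rw [h3.fderiv_eq] at h2
  apply Complex.ext
  · simpa using h1
  · simpa using h2

theorem cp1 : cp (1, 0, 0) = (1, 0, 0) := by simp [cp]

theorem cp2 : cp (0, 1, 0) = (0, 1, 0) := by simp [cp]

theorem cauchy {g : C3 → ℂ} {p v : C3} {ρ C : ℝ} {a b : ℂ} (hρ : 0 < ρ)
    (h : ∀ z : ℂ, ‖z‖ ≤ ρ → AnalyticAt ℂ g (p + z • v) ∧ ‖g (p + z • v) - (a + b * z)‖ ≤ C) :
    ‖fderiv ℂ g p v - b‖ ≤ C / ρ := by
  have hd : ∀ z : ℂ, ‖z‖ ≤ ρ → HasDerivAt (fun z : ℂ => g (p + z • v) - (a + b * z))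
      (fderiv ℂ g (p + z • v) v - b) z := by
    intro z hz
    have k1 : HasDerivAt (fun z : ℂ => p + z • v) v z := by
      simpa using ((hasDerivAt_id z).smul_const v).const_add p
    have k2 : HasDerivAt (fun z : ℂ => a + b * z) b z := by
      simpa using ((hasDerivAt_id z).const_mul b).const_add a
    exact ((h z hz).1.differentiableAt.hasFDerivAt.comp_hasDerivAt z k1).sub k2
  have k := norm_deriv_le_of_forall_mem_sphere_norm_le (c := 0)
    (f := fun z : ℂ => g (p + z • v) - (a + b * z)) hρ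
    (DifferentiableOn.diffContOnCl fun z hz => (hd z (by
      rw [closure_ball _ hρ.ne'] at hz
      simpa using hz)).differentiableAt.differentiableWithinAt)
    (fun z hz => (h z (by simpa using (mem_sphere_iff_norm.1 hz).le)).2)
  rw [(hd 0 (by simpa using hρ.le)).deriv] at k
  simpa using k

theorem abs_of {x c B : ℝ} {z : ℂ} (e : (x : ℂ) = z) (h : ‖z - c‖ ≤ B) : |x - c| ≤ B := by
  rwa [← e, ← ofReal_sub, norm_real, Real.norm_eq_abs] at h

end R

open R in
theorem r : RStmt := by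
  intro Θ Jn α e0 ε r h
  have hΘ := fun p (hp : p ∈ domR e0 ε r) =>
    fd_eq hp (h.an _ (cp_mem hp)).1 fun q hq => (h.real q hq).1
  have hJ := fun p (hp : p ∈ domR e0 ε r) =>
    fd_eq hp (h.an _ (cp_mem hp)).2 fun q hq => (h.real q hq).2
  refine ⟨h.ε_pos, h.r_pos, fun p hp => ⟨an_re (h.an _ (cp_mem hp)).1, an_re (h.an _ (cp_mem hp)).2⟩,
    fun p => ?_, fun p hp => ?_, fun δ hδ => ?_, h.alpha⟩
  · have e : cp (p.1 + 2 * Real.pi, p.2) = ((cp p).1 + 2 * Real.pi, (cp p).2) := by simp [cp]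
    simp only [reF, e, h.per (cp p)]
    simp
  · have k := h.det _ (cp_mem hp)
    rw [jacC, d1, d2, d1, d2, ← cp1, ← cp2, ← hΘ p hp, ← hΘ p hp, ← hJ p hp, ← hJ p hp] at k
    exact_mod_cast k
  · obtain ⟨r', r0, hr⟩ := h.est (δ / 6) (by positivity)
    have r1' := h.r_pos
    refine ⟨min (r' / 2) (r / 2), by positivity, (min_le_right _ _).trans (by linarith),
      fun p hp hs => ?_⟩
    obtain ⟨s1, s2⟩ := lt_min_iff.1 hs
    have J0 := hp.1
    have nJ : ‖(p.2.1 : ℂ)‖ = p.2.1 := by rw [norm_real, Real.norm_of_nonneg J0.le]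
    have m1 : ∀ z : ℂ, ‖z‖ ≤ 1 / 2 → cp p + z • ((1, 0, 0) : C3) ∈ domC e0 ε r ∧
        cp p + z • ((1, 0, 0) : C3) = ((p.1 : ℂ) + z, (p.2.1 : ℂ), (p.2.2 : ℂ)) := by
      intro z hz
      have e : cp p + z • ((1, 0, 0) : C3) = ((p.1 : ℂ) + z, (p.2.1 : ℂ), (p.2.2 : ℂ)) := by
        simp [cp]
      refine ⟨?_, e⟩
      have := abs_im_le_norm z
      simp only [e, domC, mem_ofPred_eq, add_im, ofReal_im, ofReal_re, zero_add, abs_zero]
      exact ⟨by linarith, J0, hp.2.1, trivial, hp.2.2⟩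
    have m2 : ∀ z : ℂ, ‖z‖ ≤ p.2.1 / 3 → cp p + z • ((0, 1, 0) : C3) ∈ domC e0 ε r ∧
        cp p + z • ((0, 1, 0) : C3) = ((p.1 : ℂ), (p.2.1 : ℂ) + z, (p.2.2 : ℂ)) ∧
        ‖(p.2.1 : ℂ) + z‖ ≤ 4 / 3 * p.2.1 := by
      intro z hz
      have e : cp p + z • ((0, 1, 0) : C3) = ((p.1 : ℂ), (p.2.1 : ℂ) + z, (p.2.2 : ℂ)) := by
        simp [cp]
      refine ⟨?_, e, by linarith [norm_add_le (p.2.1 : ℂ) z]⟩
      have a1 := abs_im_le_norm z
      have a2 := abs_le.1 (abs_re_le_norm z)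
      simp only [e, domC, mem_ofPred_eq, add_im, add_re, ofReal_im, ofReal_re, zero_add, abs_zero]
      exact ⟨one_pos, by linarith [a2.1], by linarith [a2.2], trivial, hp.2.2⟩
    have k0 := hr _ (cp_mem hp) (by simp only [cp, nJ]; linarith)
    simp only [cp, nJ, ofReal_re] at k0
    have q0 := mul_pos hδ J0
    have q1 := mul_pos hδ (pow_pos J0 2)
    refine ⟨?_, ?_, ?_, ?_, ?_, ?_⟩
    · have := (abs_re_le_norm _).trans k0.1
      simp only [sub_re, ofReal_re] at this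
      exact this.trans (by linarith)
    · have := (abs_re_le_norm _).trans k0.2
      simp only [sub_re, ofReal_re] at this
      exact this.trans (by linarith)
    · refine abs_of (hΘ p hp _) ?_
      rw [cp1]
      refine (cauchy (a := p.1 + α p.2.2 + p.2.1) (C := δ / 6 * p.2.1) one_half_pos
        fun z hz => ⟨(h.an _ (m1 z hz).1).1, ?_⟩).trans (by linarith)
      have := (hr _ (m1 z hz).1 (by simp only [(m1 z hz).2, nJ]; linarith)).1
      simp only [(m1 z hz).2, nJ, ofReal_re] at this ⊢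
      convert this using 2
      push_cast
      ring
    · refine abs_of (hΘ p hp _) ?_
      rw [cp2]
      refine (cauchy (a := p.1 + α p.2.2 + p.2.1) (C := δ / 6 * (4 / 3 * p.2.1))
        (ρ := p.2.1 / 3) (by positivity) fun z hz => ⟨(h.an _ (m2 z hz).1).1, ?_⟩).trans
        (by rw [div_le_iff₀ (by positivity)]; linarith)
      have := (hr _ (m2 z hz).1 (by simp only [(m2 z hz).2.1]; linarith [(m2 z hz).2.2])).1
      simp only [(m2 z hz).2.1, ofReal_re] at this ⊢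
      refine le_trans (le_of_eq ?_) (this.trans
        (mul_le_mul_of_nonneg_left (m2 z hz).2.2 (by positivity)))
      congr 1
      push_cast
      ring
    · rw [← sub_zero (r1 _ _)]
      refine abs_of (hJ p hp _) ?_
      rw [cp1]
      refine (cauchy (a := p.2.1) (C := δ / 6 * p.2.1 ^ 2) one_half_pos
        fun z hz => ⟨(h.an _ (m1 z hz).1).2, ?_⟩).trans (by linarith)
      have := (hr _ (m1 z hz).1 (by simp only [(m1 z hz).2, nJ]; linarith)).2
      simp only [(m1 z hz).2, nJ] at this ⊢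
      simpa using this
    · refine abs_of (hJ p hp _) ?_
      rw [cp2]
      refine (cauchy (a := p.2.1) (C := δ / 6 * (4 / 3 * p.2.1) ^ 2)
        (ρ := p.2.1 / 3) (by positivity) fun z hz => ⟨(h.an _ (m2 z hz).1).2, ?_⟩).trans
        (by rw [div_le_iff₀ (by positivity)]; nlinarith)
      have := (hr _ (m2 z hz).1 (by simp only [(m2 z hz).2.1]; linarith [(m2 z hz).2.2])).2
      simp only [(m2 z hz).2.1] at this ⊢
      refine le_trans (le_of_eq ?_) (this.trans (mul_le_mul_of_nonneg_left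
        (pow_le_pow_left₀ (norm_nonneg _) (m2 z hz).2.2 2) (by positivity)))
      simp

end Pool.Agent.MP_62f0b1_an.AE

end
end MrgPart1

-- ======== part 2: formerly Pool.Agent.MP_62f0b1_an.ae.X
section MrgPart2

/-!
Zero flux of an area preserving twist family that is close to the identity in the action.
-/

set_option autoImplicit false

noncomputable section

namespace Pool.Agent.MP_62f0b1_an.AE

open Filter Topology Set MeasureTheory

namespace X

def strip (r : ℝ) : Set (ℝ × ℝ) := {q | 0 < q.2 ∧ q.2 < r}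

theorem strip_open (r : ℝ) : IsOpen (strip r) :=
  (isOpen_lt continuous_const continuous_snd).inter (isOpen_lt continuous_snd continuous_const)

theorem strip_convex (r : ℝ) : Convex ℝ (strip r) :=
  (convex_Ioo (0 : ℝ) r).linear_preimage (LinearMap.snd ℝ ℝ ℝ)

/-- The form `G dT - y dx`. -/
def form (T G : ℝ × ℝ → ℝ) (q : ℝ × ℝ) : ℝ × ℝ →L[ℝ] ℝ :=
  G q • fderiv ℝ T q - q.2 • ContinuousLinearMap.fst ℝ ℝ ℝ

theorem form_apply (T G : ℝ × ℝ → ℝ) (q v : ℝ × ℝ) :
    form T G q v = G q * fderiv ℝ T q v - q.2 * v.1 := by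
  simp [form]

theorem lin_apply (L : ℝ × ℝ →L[ℝ] ℝ) (v : ℝ × ℝ) :
    L v = v.1 * L (1, 0) + v.2 * L (0, 1) := by
  have h : v = v.1 • ((1, 0) : ℝ × ℝ) + v.2 • ((0, 1) : ℝ × ℝ) := by ext <;> simp
  conv_lhs => rw [h]
  rw [map_add, map_smul, map_smul, smul_eq_mul, smul_eq_mul]

theorem hasFDerivAt_form {T G : ℝ × ℝ → ℝ} {q : ℝ × ℝ} (hT : AnalyticAt ℝ T q)
    (hG : AnalyticAt ℝ G q) :
    HasFDerivAt (form T G) ((G q • fderiv ℝ (fderiv ℝ T) q +
      (fderiv ℝ G q).smulRight (fderiv ℝ T q)) -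
      (ContinuousLinearMap.snd ℝ ℝ ℝ).smulRight (ContinuousLinearMap.fst ℝ ℝ ℝ)) q :=
  (hG.differentiableAt.hasFDerivAt.smul hT.fderiv.differentiableAt.hasFDerivAt).sub
    ((hasFDerivAt_snd (𝕜 := ℝ) (p := q)).smul_const (ContinuousLinearMap.fst ℝ ℝ ℝ))

theorem exists_prim {T G : ℝ × ℝ → ℝ} {r : ℝ} (hT : ∀ q ∈ strip r, AnalyticAt ℝ T q)
    (hG : ∀ q ∈ strip r, AnalyticAt ℝ G q)
    (det : ∀ q ∈ strip r, fderiv ℝ T q (1, 0) * fderiv ℝ G q (0, 1) -
      fderiv ℝ T q (0, 1) * fderiv ℝ G q (1, 0) = 1) :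
    ∃ S : ℝ × ℝ → ℝ, ∀ q ∈ strip r, HasFDerivAt S (form T G q) q := by
  refine (strip_convex r).exists_forall_hasFDerivAt_of_fderiv_symmetric (strip_open r)
    (fun q hq => (hasFDerivAt_form (hT q hq) (hG q hq)).differentiableAt.differentiableWithinAt)
    fun q hq u v => ?_
  have hs : fderiv ℝ (fderiv ℝ T) q u v = fderiv ℝ (fderiv ℝ T) q v u :=
    (((hT q hq).contDiffAt (n := ⊤)).isSymmSndFDerivAt le_top).eq u v
  rw [(hasFDerivAt_form (hT q hq) (hG q hq)).fderiv]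
  simp only [sub_apply, add_apply,
    smul_apply, ContinuousLinearMap.smulRight_apply,
    ContinuousLinearMap.coe_fst', ContinuousLinearMap.coe_snd', smul_eq_mul, hs]
  rw [lin_apply (fderiv ℝ G q) u, lin_apply (fderiv ℝ G q) v, lin_apply (fderiv ℝ T q) u,
    lin_apply (fderiv ℝ T q) v]
  linear_combination (u.2 * v.1 - u.1 * v.2) * det q hq

theorem prim_per {T G S : ℝ × ℝ → ℝ} {r c : ℝ} (hc : 0 ≤ c)
    (hS : ∀ q ∈ strip r, HasFDerivAt S (form T G q) q)
    (perT : ∀ q, T (q + (c, 0)) = T q + c) (perG : ∀ q, G (q + (c, 0)) = G q)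
    (est : ∀ η > 0, ∃ y, 0 < y ∧ y < r ∧ ∀ x, |G (x, y) * fderiv ℝ T (x, y) (1, 0) - y| ≤ η)
    {q : ℝ × ℝ} (hq : q ∈ strip r) : S (q + (c, 0)) = S q := by
  have hper : ∀ p, form T G (p + (c, 0)) = form T G p := fun p => by
    have h1 : fderiv ℝ T (p + (c, 0)) = fderiv ℝ T p := by
      rw [← fderiv_comp_add_right, funext perT, fderiv_add_const]
    simp [form, h1, perG]
  have hP : ∀ p ∈ strip r,
      HasFDerivAt (fun p => S (p + (c, 0)) - S p) (0 : ℝ × ℝ →L[ℝ] ℝ) p := fun p hp => by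
    have h1 : HasFDerivAt (fun p => S (p + (c, 0))) (form T G (p + (c, 0))) p :=
      (hasFDerivAt_comp_add_right _).2 (hS _ (by simpa [strip] using hp))
    have h2 := h1.sub (hS p hp)
    rwa [hper, sub_self] at h2
  have hconst : ∀ p ∈ strip r, S (q + (c, 0)) - S q = S (p + (c, 0)) - S p := fun p hp =>
    (strip_open r).is_const_of_fderiv_eq_zero (𝕜 := ℝ) (strip_convex r).isPreconnected
      (fun p hp => (hP p hp).differentiableAt.differentiableWithinAt)
      (fun p hp => (hP p hp).fderiv) hq hp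
  have hsmall : ∀ η > 0, |S (q + (c, 0)) - S q| ≤ η * c := fun η hη => by
    obtain ⟨y, h0, h1, h2⟩ := est η hη
    have hd : ∀ x ∈ (univ : Set ℝ), HasDerivWithinAt (fun x => S (x, y))
        (form T G (x, y) (1, 0)) univ x := fun x _ =>
      ((hS (x, y) ⟨h0, h1⟩).comp_hasDerivAt x
        ((hasDerivAt_id x).prodMk (hasDerivAt_const x y))).hasDerivWithinAt
    have h3 := convex_univ.norm_image_sub_le_of_norm_hasDerivWithin_le hd
      (fun x _ => by rw [form_apply, Real.norm_eq_abs, mul_one]; exact h2 x)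
      (mem_univ 0) (mem_univ c)
    rw [hconst (0, y) ⟨h0, h1⟩]
    simpa [abs_of_nonneg hc] using h3
  have h0 : |S (q + (c, 0)) - S q| ≤ 0 := by
    refine le_of_forall_pos_le_add fun η hη => ?_
    have h1 := hsmall (η / (c + 1)) (by positivity)
    have h2 : η / (c + 1) * c ≤ η := by
      rw [div_mul_eq_mul_div, div_le_iff₀ (by positivity)]; nlinarith
    linarith
  exact sub_eq_zero.1 (abs_nonpos_iff.1 h0)

theorem flux {T G S : ℝ × ℝ → ℝ} {r c : ℝ} (hT : ∀ q ∈ strip r, AnalyticAt ℝ T q)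
    (hG : ∀ q ∈ strip r, AnalyticAt ℝ G q) (hS : ∀ q ∈ strip r, HasFDerivAt S (form T G q) q)
    {x y : ℝ → ℝ} (hx : ContDiff ℝ 1 x) (hy : ContDiff ℝ 1 y) (hr : ∀ θ, 0 < y θ ∧ y θ < r) :
    ∫ θ in (0 : ℝ)..c, (G (x θ, y θ) * deriv (fun s => T (x s, y s)) θ - y θ * deriv x θ) =
      S (x c, y c) - S (x 0, y 0) := by
  have hγ : ∀ θ, HasDerivAt (fun s => (x s, y s)) (deriv x θ, deriv y θ) θ := fun θ =>
    (hx.differentiable one_ne_zero θ).hasDerivAt.prodMk
      (hy.differentiable one_ne_zero θ).hasDerivAt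
  have hc : Continuous fun s => (x s, y s) := hx.continuous.prodMk hy.continuous
  have hc' : Continuous fun s => (deriv x s, deriv y s) :=
    (hx.continuous_deriv le_rfl).prodMk (hy.continuous_deriv le_rfl)
  have hd : ∀ θ, deriv (fun s => T (x s, y s)) θ =
      fderiv ℝ T (x θ, y θ) (deriv x θ, deriv y θ) := fun θ =>
    ((hT _ (hr θ)).differentiableAt.hasFDerivAt.comp_hasDerivAt θ (hγ θ)).deriv
  simp only [hd]
  refine intervalIntegral.integral_eq_sub_of_hasDerivAt (f := fun s => S (x s, y s))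
    (fun θ _ => ?_) (Continuous.intervalIntegrable ?_ _ _)
  · have h := (hS _ (hr θ)).comp_hasDerivAt θ (hγ θ)
    rw [form_apply] at h
    exact h
  · have h1 : Continuous fun s => G (x s, y s) := continuous_iff_continuousAt.2 fun θ =>
      ContinuousAt.comp (f := fun s => (x s, y s)) (hG _ (hr θ)).continuousAt hc.continuousAt
    have h2 : Continuous fun s => fderiv ℝ T (x s, y s) := continuous_iff_continuousAt.2 fun θ =>
      ContinuousAt.comp (f := fun s => (x s, y s)) (hT _ (hr θ)).fderiv.continuousAt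
        hc.continuousAt
    exact (h1.mul (h2.clm_apply hc')).sub (hy.continuous.mul (hx.continuous_deriv le_rfl))

theorem an_slice {F : R3 → ℝ} {e : ℝ} {q : ℝ × ℝ} (h : AnalyticAt ℝ F (q.1, q.2, e)) :
    AnalyticAt ℝ (fun p : ℝ × ℝ => F (p.1, p.2, e)) q :=
  AnalyticAt.comp (f := fun p : ℝ × ℝ => ((p.1, p.2, e) : R3)) h
    (analyticAt_fst.prod (analyticAt_snd.prod analyticAt_const))

theorem fderiv_slice {F : R3 → ℝ} {e : ℝ} {q : ℝ × ℝ} (h : AnalyticAt ℝ F (q.1, q.2, e))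
    (v : ℝ × ℝ) : fderiv ℝ (fun p : ℝ × ℝ => F (p.1, p.2, e)) q v =
      fderiv ℝ F (q.1, q.2, e) (v.1, v.2, 0) := by
  have h1 : HasFDerivAt (fun p : ℝ × ℝ => ((p.1, p.2, e) : R3))
      ((ContinuousLinearMap.fst ℝ ℝ ℝ).prod ((ContinuousLinearMap.snd ℝ ℝ ℝ).prod 0)) q :=
    hasFDerivAt_fst.prodMk (hasFDerivAt_snd.prodMk (hasFDerivAt_const e q))
  have h2 := (HasFDerivAt.comp q (f := fun p : ℝ × ℝ => ((p.1, p.2, e) : R3))
    h.differentiableAt.hasFDerivAt h1).fderiv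
  exact (DFunLike.congr_fun h2 v).trans (by simp)

end X

open X in
theorem x : XStmt := by
  intro Θ Jn α e0 ε r h e he x y hx hy px py hr
  have mem : ∀ q ∈ strip r, ((q.1, q.2, e) : R3) ∈ domR e0 ε r := fun q hq => ⟨hq.1, hq.2, he⟩
  have hT : ∀ q ∈ strip r, AnalyticAt ℝ (fun p : ℝ × ℝ => Θ (p.1, p.2, e)) q :=
    fun q hq => an_slice (h.an _ (mem q hq)).1
  have hG : ∀ q ∈ strip r, AnalyticAt ℝ (fun p : ℝ × ℝ => Jn (p.1, p.2, e)) q :=
    fun q hq => an_slice (h.an _ (mem q hq)).2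
  obtain ⟨S, hS⟩ := exists_prim hT hG fun q hq => by
    have h1 := (h.an _ (mem q hq)).1
    have h2 := (h.an _ (mem q hq)).2
    rw [fderiv_slice h1, fderiv_slice h1, fderiv_slice h2, fderiv_slice h2]
    exact h.det _ (mem q hq)
  have key := prim_per (c := 2 * Real.pi) (by positivity) hS
    (fun q => by simpa using (h.per (q.1, q.2, e)).1)
    (fun q => by simpa using (h.per (q.1, q.2, e)).2)
    (fun η hη => by
      obtain ⟨r', h0, h1, h2⟩ := h.est 1 one_pos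
      obtain ⟨z, z0, z1, z2, z3⟩ : ∃ z : ℝ, 0 < z ∧ z < r' ∧ z ≤ 1 ∧ 3 * z ≤ η :=
        ⟨min (r' / 2) (min 1 (η / 3)), by positivity,
          (min_le_left _ _).trans_lt (by linarith),
          (min_le_right _ _).trans (min_le_left _ _), by
            have := (min_le_right (r' / 2) _).trans (min_le_right 1 (η / 3))
            linarith⟩
      refine ⟨z, z0, z1.trans_le h1, fun u => ?_⟩
      have hm := mem (u, z) ⟨z0, z1.trans_le h1⟩
      obtain ⟨-, a1, a2, -⟩ := h2 _ hm z1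
      rw [fderiv_slice (h.an _ hm).1]
      change |Jn (u, z, e) * r1 Θ (u, z, e) - z| ≤ η
      simp only [one_mul] at a1 a2
      have e1 : Jn (u, z, e) * r1 Θ (u, z, e) - z = (Jn (u, z, e) - z) * (r1 Θ (u, z, e) - 1) +
          (Jn (u, z, e) - z) + z * (r1 Θ (u, z, e) - 1) := by ring
      have b1 : |(Jn (u, z, e) - z) * (r1 Θ (u, z, e) - 1)| ≤ z ^ 2 * z := by
        rw [abs_mul]; exact mul_le_mul a1 a2 (abs_nonneg _) (by positivity)
      have b2 : |z * (r1 Θ (u, z, e) - 1)| ≤ z * z := by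
        rw [abs_mul, abs_of_pos z0]; exact mul_le_mul_of_nonneg_left a2 z0.le
      have b3 : z ^ 2 ≤ z := by nlinarith
      have b4 : z ^ 2 * z ≤ z := by nlinarith
      rw [e1]
      refine (abs_add_three _ _ _).trans ?_
      nlinarith)
    (q := (x 0, y 0)) (hr 0)
  have h1 := flux (c := 2 * Real.pi) hT hG hS hx hy hr
  have h2 : x (2 * Real.pi) = x 0 + 2 * Real.pi := by simpa using px 0
  have h3 : y (2 * Real.pi) = y 0 := by simpa using py 0
  refine h1.trans ?_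
  rw [h2, h3, sub_eq_zero]
  simpa using key

end Pool.Agent.MP_62f0b1_an.AE

end
end MrgPart2

-- ======== part 3: formerly Pool.Agent.MP_62f0b1_an.ae.C2
section MrgPart3

/-!
Limit of periodic graphs along an ultrafilter of parameters.
-/

set_option autoImplicit false

noncomputable section

namespace Pool.Agent.MP_62f0b1_an.AE

open Filter Topology Set

namespace C2

/-- Equi-Lipschitz functions that converge pointwise converge along convergent arguments. -/
theorem tendsto_comp {F : Filter ℝ} {H : ℝ → ℝ → ℝ} {h x : ℝ → ℝ} {x0 : ℝ}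
    (hL : ∀ᶠ e in F, ∀ a b, |H e a - H e b| ≤ |a - b|)
    (hh : ∀ θ, Tendsto (fun e => H e θ) F (𝓝 (h θ))) (hx : Tendsto x F (𝓝 x0)) :
    Tendsto (fun e => H e (x e)) F (𝓝 (h x0)) := by
  have h1 : Tendsto (fun e => |x e - x0|) F (𝓝 0) := by
    simpa using (hx.sub_const x0).abs
  have h2 : Tendsto (fun e => H e (x e) - H e x0) F (𝓝 0) :=
    squeeze_zero_norm' (hL.mono fun e he => he _ _) h1
  simpa using h2.add (hh x0)

end C2

theorem c2 : C2Stmt := by
  intro Θ Jn α e0 ε r hT l p es m M H hl hes hm hM hev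
  let U : Ultrafilter ℝ := Ultrafilter.of (𝓝[<] es)
  have hU : (U : Filter ℝ) ≤ 𝓝[<] es := Ultrafilter.of_le _
  have hev' := hev.filter_mono hU
  have hex : ∀ θ, ∃ y ∈ Icc m M, Tendsto (fun e => H e θ) U (𝓝 y) := fun θ =>
    isCompact_Icc.ultrafilter_le_nhds (U.map fun e => H e θ)
      (le_principal_iff.2 (hev'.mono fun e he => he.2.2 θ))
  choose h hI hh using hex
  have hL : ∀ᶠ e in (U : Filter ℝ), ∀ a b, |H e a - H e b| ≤ |a - b| := hev'.mono fun e he => he.2.1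
  have hP : ∀ᶠ e in (U : Filter ℝ), PerGraph Θ Jn l p e (H e) := hev'.mono fun e he => he.1
  have he : Tendsto (fun e : ℝ => e) U (𝓝 es) := hU.trans nhdsWithin_le_nhds
  have hd : ∀ θ, ((θ, h θ, es) : R3) ∈ domR e0 ε r := fun θ =>
    ⟨hm.trans_le (hI θ).1, (hI θ).2.trans_lt hM, hes⟩
  have key : ∀ (x : ℝ → ℝ) (x0 : ℝ), Tendsto x U (𝓝 x0) →
      Tendsto (fun e => ((x e, H e (x e), e) : R3)) U (𝓝 (x0, h x0, es)) := fun x x0 hx =>
    hx.prodMk_nhds ((C2.tendsto_comp hL hh hx).prodMk_nhds he)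
  have hg : ∀ (x : ℝ → ℝ) (x0 : ℝ), Tendsto x U (𝓝 x0) →
      Tendsto (fun e => gmap Θ e (H e) (x e)) U (𝓝 (gmap Θ es h x0)) := fun x x0 hx =>
    (hT.an _ (hd x0)).1.continuousAt.tendsto.comp (key x x0 hx)
  have hit : ∀ (j : ℕ) (θ : ℝ),
      Tendsto (fun e => (gmap Θ e (H e))^[j] θ) U (𝓝 ((gmap Θ es h)^[j] θ)) := by
    intro j θ
    induction j with
    | zero => exact tendsto_const_nhds
    | succ j ih =>
      simp only [Function.iterate_succ_apply']
      exact hg _ _ ih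
  have hret : ∀ θ, (gmap Θ es h)^[l] θ = θ + 2 * Real.pi * p := fun θ =>
    tendsto_nhds_unique_of_eventuallyEq (hit l θ) tendsto_const_nhds
      (hP.mono fun e he => he.ret θ)
  have hmono : Monotone (gmap Θ es h) := fun a b hab =>
    le_of_tendsto_of_tendsto (hg _ a tendsto_const_nhds) (hg _ b tendsto_const_nhds)
      (hP.mono fun e he => he.mono.monotone hab)
  have hinj : Function.Injective (gmap Θ es h) := by
    obtain ⟨k, rfl⟩ : ∃ k, l = k + 1 := ⟨l - 1, by omega⟩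
    intro a b hab
    have h1 := hret a
    rw [Function.iterate_succ_apply, hab, ← Function.iterate_succ_apply, hret b] at h1
    linarith
  refine ⟨U, h, inferInstance, hU, ⟨fun θ => ?_, fun θ => hm.trans_le (hI θ).1, fun θ => ?_,
    hmono.strictMono_of_injective hinj, hret⟩, fun a b => ?_, hI, hh⟩
  · exact tendsto_nhds_unique_of_eventuallyEq (hh _) (hh θ) (hP.mono fun e he => he.per θ)
  · exact tendsto_nhds_unique_of_eventuallyEq
      ((hT.an _ (hd θ)).2.continuousAt.tendsto.comp (key _ θ tendsto_const_nhds))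
      (C2.tendsto_comp hL hh (hg _ θ tendsto_const_nhds)) (hP.mono fun e he => he.inv θ)
  · exact le_of_tendsto ((hh a).sub (hh b)).abs (hL.mono fun e he => he a b)

end Pool.Agent.MP_62f0b1_an.AE

end
end MrgPart3

-- ======== part 4: formerly Pool.Agent.MP_62f0b1_an.ae.C3
section MrgPart4

/-!
Row C3: the Jacobi field along a periodic invariant graph.
-/

set_option autoImplicit false

noncomputable section

namespace Pool.Agent.MP_62f0b1_an.AE

open Filter Topology Set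

namespace C3

theorem orbit {Θ Jn : R3 → ℝ} {l : ℕ} {p : ℤ} {e : ℝ} {h : ℝ → ℝ} (G : PerGraph Θ Jn l p e h)
    (j : ℕ) (θ : ℝ) :
    (step Θ Jn)^[j] (θ, h θ, e) = ((gmap Θ e h)^[j] θ, h ((gmap Θ e h)^[j] θ), e) := by
  induction j with
  | zero => rfl
  | succ j ih =>
    rw [Function.iterate_succ_apply', Function.iterate_succ_apply', ih]
    simp only [step]
    rw [G.inv]
    rfl

theorem apply_plane (A : R3 →L[ℝ] ℝ) (v : R3) (hv : v.2.2 = 0) :
    A v = v.1 * A (1, 0, 0) + v.2.1 * A (0, 1, 0) := by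
  have : v = v.1 • ((1, 0, 0) : R3) + v.2.1 • ((0, 1, 0) : R3) := by
    obtain ⟨a, b, c⟩ := v
    simp only at hv
    subst hv
    simp
  conv_lhs => rw [this]
  rw [map_add, map_smul, map_smul, smul_eq_mul, smul_eq_mul]

theorem exists_slope {h : ℝ → ℝ} (hL : ∀ x y, |h x - h y| ≤ |x - y|) (θ : ℝ) :
    ∃ (s : ℝ) (τ : ℕ → ℝ), (∀ n, 0 < τ n) ∧ Tendsto τ atTop (𝓝 0) ∧
      Tendsto (fun n => (τ n)⁻¹ * (h (θ + τ n) - h θ)) atTop (𝓝 s) := by
  have hpos : ∀ n : ℕ, (0 : ℝ) < 1 / ((n : ℝ) + 1) := fun n => by positivity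
  have hmem : ∀ n : ℕ, (1 / ((n : ℝ) + 1))⁻¹ * (h (θ + 1 / ((n : ℝ) + 1)) - h θ) ∈
      Icc (-1 : ℝ) 1 := by
    intro n
    have h1 := hL (θ + 1 / ((n : ℝ) + 1)) θ
    rw [add_sub_cancel_left, abs_of_pos (hpos n)] at h1
    have h2 : |(1 / ((n : ℝ) + 1))⁻¹ * (h (θ + 1 / ((n : ℝ) + 1)) - h θ)| ≤ 1 := by
      rw [abs_mul, abs_of_pos (inv_pos.2 (hpos n)), inv_mul_le_iff₀ (hpos n), mul_one]
      exact h1
    exact abs_le.1 h2
  obtain ⟨s, -, φ, hφ, hs⟩ := isCompact_Icc.tendsto_subseq hmem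
  exact ⟨s, fun n => 1 / ((φ n : ℝ) + 1), fun n => hpos _,
    (tendsto_one_div_add_atTop_nhds_zero_nat (𝕜 := ℝ)).comp hφ.tendsto_atTop, hs⟩

theorem cone {Θ Jn : R3 → ℝ} {l : ℕ} {p : ℤ} {e : ℝ} {h : ℝ → ℝ} (G : PerGraph Θ Jn l p e h)
    (hL : ∀ x y, |h x - h y| ≤ |x - y|) (θ : ℝ) :
    ∃ s : ℝ, ∀ (j : ℕ) (D : R3 →L[ℝ] R3), HasFDerivAt ((step Θ Jn)^[j]) D (θ, h θ, e) →
      0 ≤ (D (1, s, 0)).1 := by
  obtain ⟨s, τ, hτ, hτ0, hs⟩ := exists_slope hL θ
  refine ⟨s, fun j D hD => ?_⟩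
  have hd0 : Tendsto (fun n => h (θ + τ n) - h θ) atTop (𝓝 0) := by
    have h1 := hτ0.mul hs
    rw [zero_mul] at h1
    refine h1.congr fun n => ?_
    rw [← mul_assoc, mul_inv_cancel₀ (hτ n).ne', one_mul]
  have hd : Tendsto (fun n => ((τ n, h (θ + τ n) - h θ, 0) : R3)) atTop (𝓝 0) :=
    hτ0.prodMk_nhds (hd0.prodMk_nhds tendsto_const_nhds)
  have hc : Tendsto (fun n => (τ n)⁻¹ • ((τ n, h (θ + τ n) - h θ, 0) : R3)) atTop
      (𝓝 (1, s, 0)) := by
    have h1 : Tendsto (fun n => ((1, (τ n)⁻¹ * (h (θ + τ n) - h θ), 0) : R3)) atTop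
        (𝓝 (1, s, 0)) := tendsto_const_nhds.prodMk_nhds (hs.prodMk_nhds tendsto_const_nhds)
    refine h1.congr fun n => ?_
    simp [inv_mul_cancel₀ (hτ n).ne']
  have hlim := (hD.hasFDerivWithinAt (s := univ)).lim hd (Eventually.of_forall fun _ => mem_univ _) hc
  have h1 := (continuous_fst.tendsto _).comp hlim
  refine ge_of_tendsto' h1 fun n => ?_
  have h2 : ((θ, h θ, e) : R3) + (τ n, h (θ + τ n) - h θ, 0) = (θ + τ n, h (θ + τ n), e) := by
    simp
  simp only [Function.comp, h2, orbit G, Prod.smul_fst, Prod.fst_sub, smul_eq_mul]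
  have h3 : (gmap Θ e h)^[j] θ ≤ (gmap Θ e h)^[j] (θ + τ n) :=
    G.mono.monotone.iterate j (by linarith [hτ n])
  exact mul_nonneg (inv_pos.2 (hτ n)).le (sub_nonneg.2 h3)

end C3

open C3 in
theorem c3 : C3Stmt := by
  intro Θ Jn α e0 ε r T
  obtain ⟨r', hr', hr'r, hest⟩ := T.est (1 / 2) (by norm_num)
  refine ⟨r', hr', fun l p e h hl he G hh hL θ => ?_⟩
  obtain ⟨s, hs⟩ := cone G hL θ
  have key : ∀ j : ℕ, ∃ D : R3 →L[ℝ] R3, HasFDerivAt ((step Θ Jn)^[j]) D (θ, h θ, e) ∧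
      (D (1, s, 0)).2.2 = 0 ∧ (D (0, 1, 0)).2.2 = 0 ∧
      (D (1, s, 0)).1 * (D (0, 1, 0)).2.1 - (D (1, s, 0)).2.1 * (D (0, 1, 0)).1 = 1 ∧
      0 ≤ (D (0, 1, 0)).1 ∧ (0 < j → 0 < (D (0, 1, 0)).1) := by
    intro j
    induction j with
    | zero =>
      refine ⟨ContinuousLinearMap.id ℝ R3, hasFDerivAt_id _, ?_, ?_, ?_, ?_, ?_⟩ <;> simp
    | succ j ih =>
      obtain ⟨D, hD, h1, h2, h3, h4, -⟩ := ih
      set P : R3 := (step Θ Jn)^[j] (θ, h θ, e) with hP
      have hPe : P = ((gmap Θ e h)^[j] θ, h ((gmap Θ e h)^[j] θ), e) := orbit G j θ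
      have hdom : P ∈ domR e0 ε r := by
        rw [hPe]
        exact ⟨G.pos _, (hh _).trans_le hr'r, he⟩
      have hlt : P.2.1 < r' := by rw [hPe]; exact hh _
      obtain ⟨aΘ, aJ⟩ := T.an P hdom
      have hdet := T.det P hdom
      obtain ⟨-, -, -, hB, -, -⟩ := hest P hdom hlt
      have hBpos : 0 < r2 Θ P := by have := abs_le.1 hB; linarith [this.1]
      have hS : HasFDerivAt (step Θ Jn) ((fderiv ℝ Θ P).prod ((fderiv ℝ Jn P).prod
          ((ContinuousLinearMap.snd ℝ ℝ ℝ).comp (ContinuousLinearMap.snd ℝ ℝ (ℝ × ℝ))))) P :=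
        aΘ.differentiableAt.hasFDerivAt.prodMk (aJ.differentiableAt.hasFDerivAt.prodMk
          ((ContinuousLinearMap.snd ℝ ℝ ℝ).comp
            (ContinuousLinearMap.snd ℝ ℝ (ℝ × ℝ))).hasFDerivAt)
      have hD' : HasFDerivAt ((step Θ Jn)^[j + 1]) (((fderiv ℝ Θ P).prod ((fderiv ℝ Jn P).prod
          ((ContinuousLinearMap.snd ℝ ℝ ℝ).comp (ContinuousLinearMap.snd ℝ ℝ (ℝ × ℝ))))).comp D)
          (θ, h θ, e) := by
        rw [Function.iterate_succ']
        exact hS.comp _ hD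
      have hL0 := hs j D hD
      have hL1 := hs (j + 1) _ hD'
      have e1 := apply_plane (fderiv ℝ Θ P) _ h1
      have e2 := apply_plane (fderiv ℝ Θ P) _ h2
      have e3 := apply_plane (fderiv ℝ Jn P) _ h1
      have e4 := apply_plane (fderiv ℝ Jn P) _ h2
      simp only [r1, r2] at hdet hBpos
      have hL1' : 0 ≤ fderiv ℝ Θ P (D (1, s, 0)) := hL1
      have hpos : 0 < fderiv ℝ Θ P (D (0, 1, 0)) := by
        have h5 : fderiv ℝ Θ P (D (0, 1, 0)) * (D (1, s, 0)).1 =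
            (D (0, 1, 0)).1 * fderiv ℝ Θ P (D (1, s, 0)) + fderiv ℝ Θ P (0, 1, 0) := by
          rw [e1, e2]; linear_combination (fderiv ℝ Θ P (0, 1, 0)) * h3
        have h6 : 0 < fderiv ℝ Θ P (D (0, 1, 0)) * (D (1, s, 0)).1 := by
          rw [h5]; exact add_pos_of_nonneg_of_pos (mul_nonneg h4 hL1') hBpos
        by_contra hn
        exact absurd h6 (not_lt.2 (mul_nonpos_of_nonpos_of_nonneg (not_lt.1 hn) hL0))
      refine ⟨_, hD', h1, h2, ?_, hpos.le, fun _ => hpos⟩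
      show fderiv ℝ Θ P (D (1, s, 0)) * fderiv ℝ Jn P (D (0, 1, 0)) -
        fderiv ℝ Jn P (D (1, s, 0)) * fderiv ℝ Θ P (D (0, 1, 0)) = 1
      rw [e1, e2, e3, e4]
      linear_combination ((D (1, s, 0)).1 * (D (0, 1, 0)).2.1 -
        (D (1, s, 0)).2.1 * (D (0, 1, 0)).1) * hdet + h3
  obtain ⟨D, hD, -, -, -, -, h5⟩ := key l
  have h6 := hD.fst.fderiv
  rw [r2, h6]
  exact h5 hl

end Pool.Agent.MP_62f0b1_an.AE

end
end MrgPart4

-- ======== part 5: formerly Pool.Agent.MP_62f0b1_an.ae.A1a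
section MrgPart5

/-!
Row A1a: `η ^ 2 + 10 η + 1` is not a square in the cyclotomic field of a primitive `3 l`-th root
of unity `η`, for a prime `l = 3 mod 8`, `l > 3`.
-/

set_option autoImplicit false

noncomputable section

namespace Pool.Agent.MP_62f0b1_an.AE

open Polynomial

namespace A1a

/-- The sequence `2, 10, 98, 970, ...`. -/
def V : ℕ → ℤ
  | 0 => 2
  | 1 => 10
  | (n + 2) => 10 * V (n + 1) - V n

theorem V_eq (s1 s2 : ℂ) (hs : s1 + s2 = 10) (hp : s1 * s2 = 1) :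
    ∀ n : ℕ, (V n : ℂ) = s1 ^ n + s2 ^ n
  | 0 => by simp [V]; norm_num
  | 1 => by simp [V, hs]
  | (n + 2) => by
    have h1 := V_eq s1 s2 hs hp (n + 1)
    have h0 := V_eq s1 s2 hs hp n
    simp only [V]
    push_cast
    rw [h1, h0]
    linear_combination (-(s1 ^ (n + 1) + s2 ^ (n + 1))) * hs + (s1 ^ n + s2 ^ n) * hp

theorem V_mod (k : ℕ) : ((V (8 * k + 3) : ℤ) : ZMod 7) = 4 ∧ ((V (8 * k + 4) : ℤ) : ZMod 7) = 5 := by
  induction k with
  | zero => constructor <;> decide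
  | succ k ih =>
    obtain ⟨h3, h4⟩ := ih
    have step : ∀ n : ℕ, ((V (n + 2) : ℤ) : ZMod 7) =
        10 * ((V (n + 1) : ℤ) : ZMod 7) - ((V n : ℤ) : ZMod 7) := by
      intro n
      simp only [V]
      push_cast
      ring
    have h5 : ((V (8 * k + 5) : ℤ) : ZMod 7) = 4 := by
      rw [show 8 * k + 5 = (8 * k + 3) + 2 from rfl, step, h3, h4]; decide
    have h6 : ((V (8 * k + 6) : ℤ) : ZMod 7) = 0 := by
      rw [show 8 * k + 6 = (8 * k + 4) + 2 from rfl, step, h4, h5]; decide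
    have h7 : ((V (8 * k + 7) : ℤ) : ZMod 7) = 3 := by
      rw [show 8 * k + 7 = (8 * k + 5) + 2 from rfl, step, h5, h6]; decide
    have h8 : ((V (8 * k + 8) : ℤ) : ZMod 7) = 2 := by
      rw [show 8 * k + 8 = (8 * k + 6) + 2 from rfl, step, h6, h7]; decide
    have h9 : ((V (8 * k + 9) : ℤ) : ZMod 7) = 3 := by
      rw [show 8 * k + 9 = (8 * k + 7) + 2 from rfl, step, h7, h8]; decide
    have h10 : ((V (8 * k + 10) : ℤ) : ZMod 7) = 0 := by
      rw [show 8 * k + 10 = (8 * k + 8) + 2 from rfl, step, h8, h9]; decide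
    have h11 : ((V (8 * k + 11) : ℤ) : ZMod 7) = 4 := by
      rw [show 8 * k + 11 = (8 * k + 9) + 2 from rfl, step, h9, h10]; decide
    have h12 : ((V (8 * k + 12) : ℤ) : ZMod 7) = 5 := by
      rw [show 8 * k + 12 = (8 * k + 10) + 2 from rfl, step, h10, h11]; decide
    exact ⟨h11, h12⟩

/-- The field generated by `om`, as a subalgebra. -/
def K : Subalgebra ℚ ℂ where
  carrier := {x | ∃ a b : ℚ, x = a + b * om}
  mul_mem' := by
    rintro _ _ ⟨a, b, rfl⟩ ⟨c, d, rfl⟩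
    refine ⟨a * c - b * d, a * d + b * c - b * d, ?_⟩
    push_cast
    linear_combination ((b : ℂ) * d) * om_rel
  add_mem' := by
    rintro _ _ ⟨a, b, rfl⟩ ⟨c, d, rfl⟩
    refine ⟨a + c, b + d, ?_⟩
    push_cast
    ring
  algebraMap_mem' := by
    intro r
    exact ⟨r, 0, by simp⟩

theorem om_mem : om ∈ K := ⟨0, 1, by simp⟩

theorem om_ne_one : om ≠ 1 := by
  intro h
  have := om_rel
  rw [h] at this
  norm_num at this

theorem om_sq_prim : IsPrimitiveRoot (om ^ 2) 3 := by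
  have : Fact (Nat.Prime 3) := ⟨Nat.prime_three⟩
  rw [IsPrimitiveRoot.iff_orderOf]
  apply orderOf_eq_prime
  · linear_combination (om ^ 3 + 1) * om_cube
  · intro h
    apply om_ne_one
    linear_combination om_cube - om * h

theorem prim_mul {l : ℕ} (hl : l.Prime) (h3 : 3 < l) {μ : ℂ} (hμ : IsPrimitiveRoot μ l) :
    IsPrimitiveRoot (μ * om ^ 2) (l * 3) := by
  rw [IsPrimitiveRoot.iff_orderOf]
  have h1 : orderOf μ = l := hμ.eq_orderOf.symm
  have h2 : orderOf (om ^ 2) = 3 := om_sq_prim.eq_orderOf.symm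
  have hc : (orderOf μ).Coprime (orderOf (om ^ 2)) := by
    rw [h1, h2]
    exact (Nat.coprime_primes hl Nat.prime_three).2 (by omega)
  rw [(Commute.all μ (om ^ 2)).orderOf_mul_eq_mul_orderOf_of_coprime hc, h1, h2]

/-- The relative norm lies in the field generated by `om`. -/
theorem norm_mem {l : ℕ} (hl : 0 < l) {ze : ℂ} (hze : IsPrimitiveRoot ze l) (p : ℚ[X]) :
    ∏ μ ∈ primitiveRoots l ℂ, aeval (μ * om ^ 2) p ∈ K := by
  have : NeZero (l : ℂ) := ⟨by exact_mod_cast hl.ne'⟩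
  obtain ⟨w, hw⟩ : ∃ w : K, (w : ℂ) = om ^ 2 := ⟨⟨om ^ 2, pow_mem om_mem 2⟩, rfl⟩
  obtain ⟨g, hg⟩ : ∃ g : K[X], g = (p.map (algebraMap ℚ K)).comp (X * C w) := ⟨_, rfl⟩
  obtain ⟨φ, hφ⟩ : ∃ φ : K →+* ℂ, φ = K.val.toRingHom := ⟨_, rfl⟩
  have hφ' : ∀ x : K, φ x = (x : ℂ) := by intro x; rw [hφ]; rfl
  have hcomp : φ.comp (algebraMap ℚ K) = algebraMap ℚ ℂ := Subsingleton.elim _ _
  have hev : ∀ μ : ℂ, (g.map φ).eval μ = aeval (μ * om ^ 2) p := by
    intro μ
    rw [hg, Polynomial.map_comp, eval_comp, Polynomial.map_map, hcomp, eval_map_algebraMap]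
    congr 2
    rw [Polynomial.map_mul, map_X, map_C, eval_mul, eval_X, eval_C, hφ', hw]
  have h1 := resultant_eq_prod_eval (cyclotomic l ℂ) (g.map φ) (g.map φ).natDegree le_rfl
    (IsAlgClosed.splits _)
  rw [(cyclotomic.monic l ℂ).leadingCoeff, one_pow, one_mul,
    cyclotomic.roots_eq_primitiveRoots_val] at h1
  have h2 : (Multiset.map (fun x => eval x (g.map φ)) (primitiveRoots l ℂ).val).prod =
      ∏ μ ∈ primitiveRoots l ℂ, aeval (μ * om ^ 2) p := by
    rw [Finset.prod_eq_multiset_prod]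
    congr 1
    exact Multiset.map_congr rfl (fun x _ => hev x)
  rw [← h2, ← h1]
  have h3 := resultant_map_map (cyclotomic l K) g (cyclotomic l ℂ).natDegree
    (g.map φ).natDegree φ
  rw [map_cyclotomic] at h3
  rw [h3, hφ']
  exact Subtype.prop _

theorem om_pow_rel {l : ℕ} (h : ¬ 3 ∣ l) : (om ^ l) ^ 2 + om ^ l + 1 = 0 := by
  have hd := Nat.div_add_mod l 3
  have hp : om ^ l = om ^ (l % 3) := pow_eq_pow_mod l om_cube
  have : l % 3 = 1 ∨ l % 3 = 2 := by omega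
  rcases this with h1 | h1
  · rw [hp, h1]; linear_combination om_rel
  · rw [hp, h1]; linear_combination om_rel + om * om_cube

theorem prod_sub {l : ℕ} (hl : l.Prime) {ze : ℂ} (hze : IsPrimitiveRoot ze l) (y : ℂ) :
    (∏ μ ∈ primitiveRoots l ℂ, (y - μ)) * (y - 1) = y ^ l - 1 := by
  have : Fact l.Prime := ⟨hl⟩
  have h := congrArg (eval y) (cyclotomic_prime_mul_X_sub_one ℂ l)
  rw [cyclotomic_eq_prod_X_sub_primitiveRoots hze] at h
  simpa [eval_prod] using h

theorem prod_P {l : ℕ} (hl : l.Prime) (h3 : 3 < l) {ze : ℂ} (hze : IsPrimitiveRoot ze l) :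
    ∃ m : ℕ, 9 * ∏ μ ∈ primitiveRoots l ℂ, ((μ * om ^ 2) ^ 2 + 10 * (μ * om ^ 2) + 1) =
      ((V l : ℂ) - 1) * om ^ m := by
  obtain ⟨δ, hδ⟩ := IsAlgClosed.exists_pow_nat_eq (24 : ℂ) (n := 2) (by norm_num)
  obtain ⟨s1, h1⟩ : ∃ s1 : ℂ, s1 = 5 + δ := ⟨_, rfl⟩
  obtain ⟨s2, h2⟩ : ∃ s2 : ℂ, s2 = 5 - δ := ⟨_, rfl⟩
  have hs : s1 + s2 = 10 := by rw [h1, h2]; ring
  have hp : s1 * s2 = 1 := by rw [h1, h2]; linear_combination -hδ
  have hodd : Odd l := hl.odd_of_ne_two (by omega)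
  have hn3 : ¬ 3 ∣ l := by
    intro h
    have := (Nat.prime_dvd_prime_iff_eq Nat.prime_three hl).1 h
    omega
  have hfac : ∀ μ : ℂ, (μ * om ^ 2) ^ 2 + 10 * (μ * om ^ 2) + 1 =
      om ^ 4 * ((-(s1 * om) - μ) * (-(s2 * om) - μ)) := by
    intro μ
    linear_combination (-(μ * om ^ 5)) * hs - om ^ 6 * hp
      - (10 * μ * om ^ 2 + om ^ 3 + 1) * om_cube
  have hA := prod_sub hl hze (-(s1 * om))
  have hB := prod_sub hl hze (-(s2 * om))
  rw [hodd.neg_pow, mul_pow] at hA hB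
  have hV := V_eq s1 s2 hs hp l
  have hpl : s1 ^ l * s2 ^ l = 1 := by rw [← mul_pow, hp, one_pow]
  have hom := om_pow_rel hn3
  refine ⟨4 * (primitiveRoots l ℂ).card + l + 2, ?_⟩
  rw [Finset.prod_congr rfl (fun μ _ => hfac μ), Finset.prod_mul_distrib, Finset.prod_mul_distrib,
    Finset.prod_const, ← pow_mul]
  obtain ⟨A, hA'⟩ : ∃ A, A = ∏ μ ∈ primitiveRoots l ℂ, (-(s1 * om) - μ) := ⟨_, rfl⟩
  obtain ⟨B, hB'⟩ : ∃ B, B = ∏ μ ∈ primitiveRoots l ℂ, (-(s2 * om) - μ) := ⟨_, rfl⟩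
  rw [← hA'] at hA ⊢
  rw [← hB'] at hB ⊢
  have e1 : (-(s1 * om) - 1) * (-(s2 * om) - 1) = 9 * om := by
    linear_combination om ^ 2 * hp + om * hs + om_rel
  have e2 : (-(s1 ^ l * om ^ l) - 1) * (-(s2 ^ l * om ^ l) - 1) = ((V l : ℂ) - 1) * om ^ l := by
    rw [hV]
    linear_combination (om ^ l) ^ 2 * hpl + hom
  have e3 : A * B * (9 * om) = ((V l : ℂ) - 1) * om ^ l := by
    rw [← e1, ← e2, ← hA, ← hB]; ring
  have e4 : 9 * (A * B) = ((V l : ℂ) - 1) * om ^ l * om ^ 2 := by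
    rw [← e3]
    linear_combination (-(9 * A * B)) * om_cube
  rw [pow_add, pow_add]
  linear_combination om ^ (4 * (primitiveRoots l ℂ).card) * e4

theorem not_sq (q : ℚ) (n : ℤ) (h : q ^ 2 = n) : (n : ZMod 7) ≠ 3 ∧ (n : ZMod 7) ≠ 5 := by
  have h1 : IsSquare (n : ℚ) := ⟨q, by rw [← h]; ring⟩
  obtain ⟨r, hr⟩ := Rat.isSquare_intCast_iff.1 h1
  have h2 : (n : ZMod 7) = (r : ZMod 7) * r := by rw [hr]; push_cast; ring
  rw [h2]
  generalize (r : ZMod 7) = u
  revert u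
  decide

theorem final (x : ℂ) (hx : x ∈ K) (n : ℤ) (hn : (n : ZMod 7) = 3) (h : 9 * x ^ 2 = n) :
    False := by
  obtain ⟨a, b, rfl⟩ := hx
  have h1 : ((9 * (a ^ 2 - b ^ 2) - n : ℚ) : ℂ) + ((9 * (2 * a * b - b ^ 2) : ℚ) : ℂ) * om = 0 := by
    push_cast
    linear_combination h - 9 * (b : ℂ) ^ 2 * om_rel
  have h3 : (0 : ℝ) < Real.sqrt 3 := Real.sqrt_pos.2 (by norm_num)
  have h2 : ((9 * (2 * a * b - b ^ 2) : ℚ) : ℝ) = 0 := by
    have := congrArg Complex.im h1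
    rw [Complex.add_im, Complex.ratCast_im, Complex.mul_im, Complex.ratCast_im,
      Complex.ratCast_re] at this
    have h4 : om.im = Real.sqrt 3 / 2 := rfl
    rw [h4] at this
    have h5 : ((9 * (2 * a * b - b ^ 2) : ℚ) : ℝ) * (Real.sqrt 3 / 2) = 0 := by
      simpa using this
    rcases mul_eq_zero.1 h5 with h6 | h6
    · exact h6
    · linarith
  have h6 : (9 * (2 * a * b - b ^ 2) : ℚ) = 0 := by exact_mod_cast h2
  rw [h6] at h1
  have h7 : (9 * (a ^ 2 - b ^ 2) - n : ℚ) = 0 := by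
    have : ((9 * (a ^ 2 - b ^ 2) - n : ℚ) : ℂ) = 0 := by simpa using h1
    exact_mod_cast this
  have h8 : b * (2 * a - b) = 0 := by linarith
  rcases mul_eq_zero.1 h8 with h9 | h9
  · exact (not_sq (3 * a) n (by rw [h9] at h7; linarith)).1 hn
  · have hb : b = 2 * a := by linarith
    refine (not_sq (9 * a) (-3 * n) (by rw [hb] at h7; push_cast; linarith)).2 ?_
    push_cast
    rw [hn]
    decide

end A1a

theorem a1a : A1aStmt := by
  intro l hl h8 h3 ze hze p hp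
  have hpos : 0 < l * 3 := by omega
  have hall : ∀ μ ∈ primitiveRoots l ℂ, aeval (μ * om ^ 2) p ^ 2 =
      (μ * om ^ 2) ^ 2 + 10 * (μ * om ^ 2) + 1 := by
    intro μ hμ
    have hμ' := isPrimitiveRoot_of_mem_primitiveRoots hμ
    have e1 := cyclotomic_eq_minpoly_rat (A1a.prim_mul hl h3 hze) hpos
    have e2 := cyclotomic_eq_minpoly_rat (A1a.prim_mul hl h3 hμ') hpos
    have hd : minpoly ℚ (ze * om ^ 2) ∣ p ^ 2 - (X ^ 2 + 10 * X + 1) := by
      apply minpoly.dvd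
      simp only [map_sub, map_add, map_mul, map_pow, aeval_X, map_one, map_ofNat]
      rw [hp, sub_self]
    rw [← e1, e2] at hd
    have h0 := aeval_eq_zero_of_dvd_aeval_eq_zero hd (minpoly.aeval ℚ (μ * om ^ 2))
    simp only [map_sub, map_add, map_mul, map_pow, aeval_X, map_one, map_ofNat] at h0
    exact sub_eq_zero.1 h0
  obtain ⟨m, hm⟩ := A1a.prod_P hl h3 hze
  have hmem := A1a.norm_mem hl.pos hze p
  rw [← Finset.prod_congr rfl hall, Finset.prod_pow] at hm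
  obtain ⟨ν, hν⟩ : ∃ ν, ν = ∏ μ ∈ primitiveRoots l ℂ, aeval (μ * om ^ 2) p := ⟨_, rfl⟩
  rw [← hν] at hm hmem
  have hc : (om ^ m) ^ 3 = 1 := by rw [← pow_mul, mul_comm, pow_mul, om_cube, one_pow]
  refine A1a.final (ν * om ^ m) (mul_mem hmem (pow_mem A1a.om_mem m)) (A1a.V l - 1) ?_ ?_
  · have hl' : l = 8 * (l / 8) + 3 := by omega
    have := (A1a.V_mod (l / 8)).1
    rw [← hl'] at this
    push_cast
    rw [this]
    decide
  · push_cast
    linear_combination (om ^ m) ^ 2 * hm + ((A1a.V l : ℂ) - 1) * hc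

end Pool.Agent.MP_62f0b1_an.AE

end
end MrgPart5

-- ======== part 6: formerly Pool.Agent.MP_62f0b1_an.ae.A1b
section MrgPart6

/-!
Row A1b: a valuation ring of the complex numbers in which `τ` and `l` are not units.
-/

set_option autoImplicit false

noncomputable section

namespace Pool.Agent.MP_62f0b1_an.AE

open Complex IsLocalRing

namespace A1b

section Loc

variable {O : Type} [CommRing O] [IsLocalRing O]

theorem sub_one_mem {l : ℕ} (hp : l.Prime) (hl : (l : O) ∈ maximalIdeal O) {z : O}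
    (hz : z ^ l = 1) : z - 1 ∈ maximalIdeal O := by
  obtain ⟨r, hr⟩ := exists_add_pow_prime_eq hp (z - 1) (1 : O)
  have h1 : (z - 1) ^ l = (l : O) * (-((z - 1) * r)) := by
    rw [sub_add_cancel, hz, one_pow] at hr
    linear_combination -hr
  have h2 : (z - 1) ^ l ∈ maximalIdeal O := by
    rw [h1]; exact Ideal.mul_mem_right _ _ hl
  exact (maximalIdeal.isMaximal O).isPrime.mem_of_pow_mem l h2

theorem unit_of_coprime {l n : ℕ} (hl : (l : O) ∈ maximalIdeal O) (h : Nat.Coprime n l) :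
    IsUnit (n : O) := by
  by_contra hn
  have hn' : (n : O) ∈ maximalIdeal O := hn
  obtain ⟨a, b, hab⟩ : IsCoprime (n : O) (l : O) := Nat.Coprime.cast h
  have : (1 : O) ∈ maximalIdeal O := by
    rw [← hab]
    exact Ideal.add_mem _ (Ideal.mul_mem_left _ _ hn') (Ideal.mul_mem_left _ _ hl)
  exact (maximalIdeal.isMaximal O).ne_top ((Ideal.eq_top_iff_one _).2 this)

theorem unit_add {u x : O} (hu : IsUnit u) (hx : x ∈ maximalIdeal O) : IsUnit (u + x) := by
  by_contra h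
  have h1 : u + x ∈ maximalIdeal O := h
  have h2 : u ∈ maximalIdeal O := by simpa using Ideal.sub_mem _ h1 hx
  exact h2 hu

theorem unit_two {l : ℕ} (hp : l.Prime) (h5 : 5 ≤ l) (hl : (l : O) ∈ maximalIdeal O) :
    IsUnit (2 : O) := by
  have h : Nat.Coprime 2 l := (Nat.coprime_primes Nat.prime_two hp).2 (by omega)
  simpa using unit_of_coprime hl h

theorem unit_three {l : ℕ} (hp : l.Prime) (h5 : 5 ≤ l) (hl : (l : O) ∈ maximalIdeal O) :
    IsUnit (3 : O) := by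
  have h : Nat.Coprime 3 l := (Nat.coprime_primes Nat.prime_three hp).2 (by omega)
  simpa using unit_of_coprime hl h

omit [IsLocalRing O] in
theorem unit_one_sub {w : O} (hw : w ^ 2 + w + 1 = 0) (h3 : IsUnit (3 : O)) : IsUnit (1 - w) := by
  have h : (1 - w) * (2 + w) = 3 := by linear_combination -hw
  exact isUnit_of_mul_isUnit_left (h ▸ h3)

/-- The arithmetic data from the basic facts. -/
theorem exists_ctx {l : ℕ} (w t ze : O) (hw : w ^ 2 + w + 1 = 0) (ht0 : t ≠ 0)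
    (htm : t ∈ maximalIdeal O) (hlm : (l : O) ∈ maximalIdeal O) (hp : l.Prime) (h5 : 5 ≤ l)
    (hze : IsPrimitiveRoot ze l)
    (hlam : (1 + t * (1 - w ^ 2)) * (2 + t * (1 - w ^ 2)) * ze =
      (1 + t * (1 - w)) * (2 + t * (1 - w))) :
    ∃ c : Ctx O l, c.w = w ∧ c.t = t := by
  have h2 := unit_two hp h5 hlm
  have h3 := unit_three hp h5 hlm
  have hr : IsUnit ((1 + t * (1 - w ^ 2)) * (2 + t * (1 - w ^ 2))) :=
    (unit_add isUnit_one (Ideal.mul_mem_right _ _ htm)).mul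
      (unit_add h2 (Ideal.mul_mem_right _ _ htm))
  obtain ⟨r, hr1⟩ := hr.exists_right_inv
  have hz1 := sub_one_mem hp hlm hze.pow_eq_one
  set m1 : O := -3 * (1 + 2 * w) * (1 + t) * r with hm1
  have hm : t * m1 = ze - 1 := by
    rw [hm1]
    linear_combination (ze - 1) * hr1 - r * hlam +
      (r * t * (t * w ^ 2 - t * w - 3 * t - 3)) * hw
  refine ⟨{ w := w, t := t, ze := ze, mu := fun j => m1 * ∑ i ∈ Finset.range j, ze ^ i
            hw := hw, ht0 := ht0, htm := htm, hlm := hlm, hp := hp, h5 := h5, hze := hze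
            hlam := hlam, hmu := ?_, hmu1 := ?_, hmuj := ?_, h2 := h2, h3 := h3 }, rfl, rfl⟩
  · intro j
    rw [← mul_assoc, hm, mul_geom_sum]
  · have h : 2 * (m1 * ∑ i ∈ Finset.range 1, ze ^ i) + 3 * (1 + 2 * w) =
        t * (3 * (1 + 2 * w) * r * (1 - 3 * w ^ 2 + t * (1 - w ^ 2) ^ 2)) := by
      simp only [Finset.range_one, Finset.sum_singleton, pow_zero, mul_one]
      rw [hm1]
      linear_combination (-3 * (1 + 2 * w)) * hr1
    rw [h]
    exact Ideal.mul_mem_right _ _ htm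
  · intro j
    have h : m1 * ∑ i ∈ Finset.range j, ze ^ i - j * (m1 * ∑ i ∈ Finset.range 1, ze ^ i) =
        m1 * ∑ i ∈ Finset.range j, (ze ^ i - 1) := by
      simp only [Finset.range_one, Finset.sum_singleton, pow_zero, mul_one,
        Finset.sum_sub_distrib, Finset.sum_const, Finset.card_range, nsmul_eq_mul]
      ring
    rw [h]
    refine Ideal.mul_mem_left _ _ (Ideal.sum_mem _ fun i _ => ?_)
    exact Ideal.mem_of_dvd _ (sub_one_dvd_pow_sub_one ze i) hz1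

end Loc

theorem mem_of_pow (O : ValuationSubring ℂ) {x : ℂ} {n : ℕ} (hn : n ≠ 0) (h : x ^ n = 1) :
    x ∈ O := by
  rcases O.mem_or_inv_mem x with h1 | h1
  · exact h1
  · have hx : x ≠ 0 := by rintro rfl; simp [hn] at h
    obtain ⟨k, rfl⟩ := Nat.exists_eq_succ_of_ne_zero hn
    have h2 : x = x⁻¹ ^ k := by
      rw [inv_pow]
      refine eq_inv_of_mul_eq_one_left ?_
      rw [← h, pow_succ, mul_comm]
    rw [h2]
    exact pow_mem h1 k

theorem mem_of_quad (O : ValuationSubring ℂ) {y s n : ℂ} (hs : s ∈ O) (hn : n ∈ O)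
    (h : y ^ 2 = s * y - n) : y ∈ O := by
  rcases O.mem_or_inv_mem y with h1 | h1
  · exact h1
  · by_cases hy : y = 0
    · rw [hy]; exact zero_mem _
    have h2 : y = s - n * y⁻¹ := by
      field_simp
      linear_combination h
    rw [h2]
    exact sub_mem hs (mul_mem hn h1)

theorem exists_first {l : ℕ} (hp : l.Prime) : ∃ O : ValuationSubring ℂ, (l : ℂ) ∈ O.nonunits := by
  let A : Subring ℂ := (Int.castRingHom ℂ).range
  have hI : Ideal.span {(l : A)} ≠ ⊤ := by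
    intro h
    have h1 : (1 : A) ∈ Ideal.span {(l : A)} := h ▸ Submodule.mem_top
    obtain ⟨⟨_, k, rfl⟩, hk⟩ := Ideal.mem_span_singleton'.1 h1
    have h2 : ((k * l : ℤ) : ℂ) = ((1 : ℤ) : ℂ) := by
      have := congrArg Subtype.val hk
      simpa using this
    have h3 : k * l = 1 := by exact_mod_cast h2
    have h4 : (l : ℤ) ∣ 1 := Dvd.intro_left k h3
    have h5 : l ∣ 1 := by exact_mod_cast h4
    exact hp.one_lt.ne' (Nat.dvd_one.1 h5)
  obtain ⟨O, -, hO⟩ := Ideal.image_subset_nonunits_valuationSubring _ hI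
  exact ⟨O, hO ⟨_, Ideal.subset_span rfl, by simp⟩⟩

/-- Exchange of the two roots of an irreducible quadratic. -/
theorem exchange (K : Subfield ℂ) (O : ValuationSubring ℂ) {l : ℕ} {y1 y2 : ℂ}
    (hs : y1 + y2 ∈ K) (hn : y1 * y2 ∈ K) (hy : y1 ∉ K) (hl : (l : ℂ) ∈ O.nonunits)
    (h2 : y2 ∈ O.nonunits) :
    ∃ O' : ValuationSubring ℂ, (l : ℂ) ∈ O'.nonunits ∧ y1 ∈ O'.nonunits := by
  let A : Subring ℂ := Subring.closure {y1}
  have h2O : y2 ∈ O := ValuationSubring.nonunits_subset h2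
  have key : ∀ x ∈ A, ∃ a ∈ K, ∃ b ∈ K, x = a + b * y1 ∧ a + b * y2 ∈ O := by
    intro x hx
    induction hx using Subring.closure_induction with
    | mem x hx =>
      refine ⟨0, zero_mem _, 1, one_mem _, by simpa using hx, by simpa using h2O⟩
    | zero => exact ⟨0, zero_mem _, 0, zero_mem _, by simp, by simp⟩
    | one => exact ⟨1, one_mem _, 0, zero_mem _, by simp, by simp⟩
    | add x y _ _ ihx ihy =>
      obtain ⟨a, ha, b, hb, rfl, h1⟩ := ihx
      obtain ⟨c, hc, d, hd, rfl, h3⟩ := ihy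
      refine ⟨a + c, add_mem ha hc, b + d, add_mem hb hd, by ring, ?_⟩
      have := add_mem h1 h3
      convert this using 1
      ring
    | neg x _ ihx =>
      obtain ⟨a, ha, b, hb, rfl, h1⟩ := ihx
      refine ⟨-a, neg_mem ha, -b, neg_mem hb, by ring, ?_⟩
      have := neg_mem h1
      convert this using 1
      ring
    | mul x y _ _ ihx ihy =>
      obtain ⟨a, ha, b, hb, rfl, h1⟩ := ihx
      obtain ⟨c, hc, d, hd, rfl, h3⟩ := ihy
      refine ⟨a * c - b * d * (y1 * y2), sub_mem (mul_mem ha hc) (mul_mem (mul_mem hb hd) hn),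
        a * d + b * c + b * d * (y1 + y2),
        add_mem (add_mem (mul_mem ha hd) (mul_mem hb hc)) (mul_mem (mul_mem hb hd) hs),
        by ring, ?_⟩
      have := mul_mem h1 h3
      convert this using 1
      ring
  let Y : A := ⟨y1, Subring.subset_closure rfl⟩
  have hI : Ideal.span {(l : A), Y} ≠ ⊤ := by
    intro h
    have h1 : (1 : A) ∈ Ideal.span {(l : A), Y} := h ▸ Submodule.mem_top
    obtain ⟨u, v, huv⟩ := Ideal.mem_span_pair.1 h1
    obtain ⟨a, ha, b, hb, hu, hu2⟩ := key u.1 u.2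
    obtain ⟨c, hc, d, hd, hv, hv2⟩ := key v.1 v.2
    have h3 : (u : ℂ) * l + v * y1 = 1 := by
      have := congrArg Subtype.val huv
      simpa [Y] using this
    rw [hu, hv] at h3
    have hlK : (l : ℂ) ∈ K := natCast_mem K l
    have hp : (l : ℂ) * a - d * (y1 * y2) ∈ K := sub_mem (mul_mem hlK ha) (mul_mem hd hn)
    have hq : (l : ℂ) * b + c + d * (y1 + y2) ∈ K :=
      add_mem (add_mem (mul_mem hlK hb) hc) (mul_mem hd hs)
    have h4 : ((l : ℂ) * b + c + d * (y1 + y2)) * y1 = 1 - ((l : ℂ) * a - d * (y1 * y2)) := by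
      linear_combination h3
    have h5 : (l : ℂ) * b + c + d * (y1 + y2) = 0 := by
      by_contra h0
      apply hy
      rw [(eq_div_iff h0).2 ((mul_comm _ _).trans h4)]
      exact div_mem (sub_mem (one_mem _) hp) hq
    have h6 : (a + b * y2) * l + (c + d * y2) * y2 = 1 := by
      linear_combination h3 + (y2 - y1) * h5
    obtain ⟨hlO, hlm⟩ := ValuationSubring.mem_nonunits_iff_exists_mem_maximalIdeal.1 hl
    obtain ⟨hyO, hym⟩ := ValuationSubring.mem_nonunits_iff_exists_mem_maximalIdeal.1 h2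
    have h7 := Ideal.add_mem _ (Ideal.mul_mem_left _ (⟨_, hu2⟩ : O) hlm)
      (Ideal.mul_mem_left _ (⟨_, hv2⟩ : O) hym)
    have h8 : (⟨_, hu2⟩ : O) * ⟨_, hlO⟩ + (⟨_, hv2⟩ : O) * ⟨_, hyO⟩ = 1 := Subtype.ext h6
    rw [h8] at h7
    exact (maximalIdeal.isMaximal O).ne_top ((Ideal.eq_top_iff_one _).2 h7)
  obtain ⟨O', -, hO⟩ := Ideal.image_subset_nonunits_valuationSubring _ hI
  exact ⟨O', hO ⟨(l : A), Ideal.subset_span (by simp), by simp⟩,
    hO ⟨Y, Ideal.subset_span (by simp), rfl⟩⟩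

theorem natCast_mem_max {O : ValuationSubring ℂ} {l : ℕ} (hl : (l : ℂ) ∈ O.nonunits) :
    (l : O) ∈ maximalIdeal O :=
  ValuationSubring.coe_mem_nonunits_iff.1 (by simpa using hl)

theorem sub_one_nonunit {O : ValuationSubring ℂ} {l : ℕ} (hp : l.Prime)
    (hl : (l : ℂ) ∈ O.nonunits) {z : ℂ} (hz : z ^ l = 1) : z - 1 ∈ O.nonunits := by
  have hzO := mem_of_pow O hp.ne_zero hz
  have h1 : (⟨z, hzO⟩ : O) ^ l = 1 := Subtype.ext (by simpa using hz)
  have h2 := ValuationSubring.coe_mem_nonunits_iff.2 (sub_one_mem hp (natCast_mem_max hl) h1)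
  simpa using h2

/-- A valuation ring in which `l` and the given root of the quadratic are not units. -/
theorem exists_second (h1a : A1aStmt) {l : ℕ} (hp : l.Prime) (h8 : l % 8 = 3) (h3 : 3 < l)
    {ze y : ℂ} (hze : IsPrimitiveRoot ze l)
    (hy : y ^ 2 + 3 * (1 + ze * om ^ 2) * y + 2 * (1 - ze) * (1 - ze * om) = 0) :
    ∃ O : ValuationSubring ℂ, (l : ℂ) ∈ O.nonunits ∧ y ∈ O.nonunits := by
  obtain ⟨O, hl⟩ := exists_first hp
  set η := ze * om ^ 2 with hη
  set y2 := -3 * (1 + η) - y with hy2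
  have hn : 2 * (1 - ze) * (1 - ze * om) = 2 * (1 + η + η ^ 2) := by
    rw [hη]
    linear_combination (-2 * ze - 2 * ze ^ 2 * (om ^ 2 - om)) * om_rel
  have hprod : y * y2 = 2 * (1 - ze) * (1 - ze * om) := by
    rw [hy2]; linear_combination -hy
  have hzO := mem_of_pow O hp.ne_zero hze.pow_eq_one
  have hwO := mem_of_pow O (by norm_num : 3 ≠ 0) om_cube
  have hηO : η ∈ O := mul_mem hzO (pow_mem hwO 2)
  have hsO : -3 * (1 + η) ∈ O :=
    mul_mem (neg_mem (ofNat_mem O 3)) (add_mem (one_mem _) hηO)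
  have hnO : 2 * (1 - ze) * (1 - ze * om) ∈ O :=
    mul_mem (mul_mem (ofNat_mem O 2) (sub_mem (one_mem _) hzO))
      (sub_mem (one_mem _) (mul_mem hzO hwO))
  have hyO : y ∈ O := mem_of_quad O hsO hnO (by linear_combination hy)
  have hy2O : y2 ∈ O := sub_mem hsO hyO
  obtain ⟨hz1, hz1m⟩ := ValuationSubring.mem_nonunits_iff_exists_mem_maximalIdeal.1
    (sub_one_nonunit hp hl hze.pow_eq_one)
  have hcO : -2 * (1 - ze * om) ∈ O :=
    mul_mem (neg_mem (ofNat_mem O 2)) (sub_mem (one_mem _) (mul_mem hzO hwO))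
  have hm : (⟨y, hyO⟩ : O) * ⟨y2, hy2O⟩ ∈ maximalIdeal O := by
    have h : (⟨y, hyO⟩ : O) * ⟨y2, hy2O⟩ = ⟨_, hcO⟩ * ⟨_, hz1⟩ :=
      Subtype.ext (by
        change y * y2 = -2 * (1 - ze * om) * (ze - 1)
        linear_combination hprod)
    rw [h]
    exact Ideal.mul_mem_left _ _ hz1m
  rcases (maximalIdeal.isMaximal O).isPrime.mem_or_mem hm with h | h
  · exact ⟨O, hl, ValuationSubring.coe_mem_nonunits_iff.2 h⟩
  · have halg : IsAlgebraic ℚ η := by
      refine IsAlgebraic.of_pow (n := 3 * l) (by omega) ?_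
      have : η ^ (3 * l) = 1 := by
        rw [hη, mul_pow, mul_comm 3 l, pow_mul, hze.pow_eq_one, one_pow, one_mul, ← pow_mul,
          show 2 * (l * 3) = 3 * (2 * l) by ring, pow_mul, om_cube, one_pow]
      rw [this]
      exact isAlgebraic_one
    let K : Subfield ℂ := (IntermediateField.adjoin ℚ {η}).toSubfield
    have hηK : η ∈ K := IntermediateField.mem_adjoin_simple_self ℚ η
    refine exchange K O (y2 := y2) ?_ ?_ ?_ hl (ValuationSubring.coe_mem_nonunits_iff.2 h)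
    · have : y + y2 = -3 * (1 + η) := by rw [hy2]; ring
      rw [this]
      exact mul_mem (neg_mem (ofNat_mem K 3)) (add_mem (one_mem _) hηK)
    · rw [hprod, hn]
      exact mul_mem (ofNat_mem K 2) (add_mem (add_mem (one_mem _) hηK) (pow_mem hηK 2))
    · intro hyK
      have h1 : y ∈ (IntermediateField.adjoin ℚ {η}).toSubalgebra := hyK
      rw [IntermediateField.adjoin_simple_toSubalgebra_of_isAlgebraic halg,
        Algebra.adjoin_singleton_eq_range_aeval] at h1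
      obtain ⟨p, hpy⟩ := h1
      have hpy' : Polynomial.aeval η p = y := hpy
      apply h1a l hp h8 h3 ze hze (2 * p + 3 * (1 + Polynomial.X))
      rw [← hη]
      simp only [map_add, map_mul, map_ofNat, map_one, Polynomial.aeval_X, hpy']
      linear_combination 4 * hy - 4 * hn

theorem den_ne (τ : ℝ) (hτ : 0 < τ) :
    (1 + (τ : ℂ) * (1 - om ^ 2)) * (2 + (τ : ℂ) * (1 - om ^ 2)) ≠ 0 := by
  have h : om ^ 2 = -1 - om := by linear_combination om_rel
  rw [h]
  refine mul_ne_zero ?_ ?_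
  · intro h0
    have := congrArg Complex.re h0
    simp [om] at this
    linarith
  · intro h0
    have := congrArg Complex.re h0
    simp [om] at this
    linarith

end A1b

open A1b

theorem a1b : A1bStmt := by
  intro h1a l hp h8 h3 τ hτ hl
  have h5 : 5 ≤ l := by omega
  have hden := den_ne τ hτ
  have hτ0 : (τ : ℂ) ≠ 0 := by exact_mod_cast hτ.ne'
  set ze := lam τ with hze0
  have hlam : (1 + (τ : ℂ) * (1 - om ^ 2)) * (2 + (τ : ℂ) * (1 - om ^ 2)) * ze =
      (1 + (τ : ℂ) * (1 - om)) * (2 + (τ : ℂ) * (1 - om)) := by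
    rw [hze0, lam]
    exact mul_div_cancel₀ _ hden
  have hne : ze ≠ 1 := by
    intro h1
    rw [h1] at hlam
    have h2 : (τ : ℂ) * (1 + τ) * (1 + 2 * om) = 0 := by
      linear_combination (1 / 3 : ℂ) * hlam -
        (1 / 3 : ℂ) * (τ * (τ * om ^ 2 - τ * om - 3 * τ - 3)) * om_rel
    rw [om_delta] at h2
    have h4 : (1 + (τ : ℂ)) ≠ 0 := by exact_mod_cast (by linarith : (1 + τ : ℝ) ≠ 0)
    have h6 : ((Real.sqrt 3 : ℝ) : ℂ) ≠ 0 := by
      exact_mod_cast (Real.sqrt_pos.2 (by norm_num : (0 : ℝ) < 3)).ne'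
    exact mul_ne_zero (mul_ne_zero hτ0 h4) (mul_ne_zero I_ne_zero h6) h2
  have hprim : IsPrimitiveRoot ze l := by
    have := Fact.mk hp
    have h0 := IsPrimitiveRoot.orderOf ze
    rwa [orderOf_eq_prime hl hne] at h0
  obtain ⟨O, hlO, hyO⟩ := exists_second h1a hp h8 h3 hprim
    (y := (1 - ze * om) * (1 - om) * τ) (by
      linear_combination (-(1 - ze * om)) * hlam - (ze * τ ^ 2 * (1 - om) + 3 * ze * τ -
        3 * ze ^ 2 * τ * om - ze ^ 2 * τ ^ 2 * om * (1 - om)) * om_cube)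
  have hlm := natCast_mem_max hlO
  have hzO := mem_of_pow O hp.ne_zero hl
  have hwO := mem_of_pow O (by norm_num : 3 ≠ 0) om_cube
  let w : O := ⟨om, hwO⟩
  let z : O := ⟨ze, hzO⟩
  have hw : w ^ 2 + w + 1 = 0 := Subtype.ext (by simpa [w] using om_rel)
  have hz : IsPrimitiveRoot z l := by
    refine IsPrimitiveRoot.of_map_of_injective (f := O.subtype) ?_ Subtype.val_injective
    exact hprim
  have hu1 := unit_one_sub hw (unit_three hp h5 hlm)
  have hu2 : IsUnit (1 - z * w) := by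
    have h : 1 - z * w = (1 - w) + (z - 1) * (-w) := by ring
    rw [h]
    exact unit_add hu1 (Ideal.mul_mem_right _ _ (sub_one_mem hp hlm hz.pow_eq_one))
  obtain ⟨u, hu⟩ := (hu2.mul hu1).exists_right_inv
  have hu' : (1 - ze * om) * (1 - om) * (u : ℂ) = 1 := by
    have := congrArg Subtype.val hu
    simpa [w, z] using this
  obtain ⟨hy1, hym⟩ := ValuationSubring.mem_nonunits_iff_exists_mem_maximalIdeal.1 hyO
  let t : O := ⟨_, hy1⟩ * u
  have ht : (t : ℂ) = τ := by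
    change (1 - ze * om) * (1 - om) * τ * (u : ℂ) = τ
    linear_combination (τ : ℂ) * hu'
  obtain ⟨c, hcw, hct⟩ := exists_ctx (l := l) w t z hw
    (fun h => hτ0 (by rw [← ht, h]; rfl)) (Ideal.mul_mem_right _ _ hym) hlm hp h5 hz
    (Subtype.ext (by
      have := hlam
      rw [← ht] at this
      exact this))
  exact ⟨O, c, by rw [hcw], by rw [hct, ht]⟩

end Pool.Agent.MP_62f0b1_an.AE

end
end MrgPart6

-- ======== part 7: formerly Pool.Agent.MP_62f0b1_an.ae.A6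
section MrgPart7

/-!
Row A6: a polynomial whose bracket with `M = μ z w + ...` vanishes to high order is, to high order,
a multiple of `M`.
-/

set_option autoImplicit false

noncomputable section

namespace Pool.Agent.MP_62f0b1_an.AE

open MvPolynomial

namespace A6

variable {O : Type} [CommRing O]

theorem coeff_euler (i : Fin 2) (p : P2 O) (m : Fin 2 →₀ ℕ) :
    coeff m (X i * pderiv i p) = (m i : O) * coeff m p := by
  classical
  induction p using MvPolynomial.induction_on' with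
  | add p q hp hq => rw [map_add, mul_add, coeff_add, hp, hq, coeff_add, mul_add]
  | monomial n a =>
    rw [X_mul_pderiv_monomial, coeff_smul, coeff_monomial]
    by_cases h : n = m
    · subst h; simp
    · simp [h]

theorem euler_mem (i : Fin 2) {n : ℕ} {p : P2 O} (hp : p ∈ I2 O ^ n) :
    X i * pderiv i p ∈ I2 O ^ n := by
  rw [mem_pow_idealOfVars_iff'] at hp ⊢
  intro x hx
  rw [coeff_euler, hp x hx, mul_zero]

theorem br_mem {a b : ℕ} {f g : P2 O} (hf : f ∈ I2 O ^ a) (hg : g ∈ I2 O ^ b) :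
    br f g ∈ I2 O ^ (a + b) := by
  rw [pow_add]
  exact Ideal.sub_mem _ (Ideal.mul_mem_mul (euler_mem 0 hf) (euler_mem 1 hg))
    (Ideal.mul_mem_mul (euler_mem 1 hf) (euler_mem 0 hg))

theorem br_sub_left (f f' g : P2 O) : br (f - f') g = br f g - br f' g := by
  simp only [br, map_sub]; ring

theorem br_sub_right (f g g' : P2 O) : br f (g - g') = br f g - br f g' := by
  simp only [br, map_sub]; ring

theorem br_add_right (f g g' : P2 O) : br f (g + g') = br f g + br f g' := by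
  simp only [br, map_add]; ring

theorem br_C_mul_pow (M : P2 O) (c : O) (k : ℕ) : br M (C c * M ^ k) = 0 := by
  simp only [br, pderiv_C_mul, pderiv_pow]; ring

theorem br_lead (μ : O) (R : P2 O) :
    br (C μ * (X 0 * X 1)) R =
      C μ * (X 0 * (X 1 * (X 1 * pderiv 1 R - X 0 * pderiv 0 R))) := by
  have h0 : pderiv (0 : Fin 2) (X 0 * X 1 : P2 O) = X 1 := by
    rw [pderiv_mul, pderiv_X_self, pderiv_X_of_ne (by decide)]; ring
  have h1 : pderiv (1 : Fin 2) (X 0 * X 1 : P2 O) = X 0 := by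
    rw [pderiv_mul, pderiv_X_self, pderiv_X_of_ne (by decide)]; ring
  simp only [br, pderiv_C_mul, h0, h1]; ring

theorem degree_two (x : Fin 2 →₀ ℕ) : Finsupp.degree x = x 0 + x 1 := by
  rw [Finsupp.degree_eq_sum, Fin.sum_univ_two]

/-- The low coefficients off the diagonal vanish. -/
theorem off_diag [IsDomain O] [CharZero O] {μ : O} (hμ : μ ≠ 0) {M R : P2 O} {d : ℕ}
    (hM : M - C μ * (X 0 * X 1) ∈ I2 O ^ 3) (hR : R ∈ I2 O ^ d) (hb : br M R ∈ I2 O ^ (d + 3))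
    (x : Fin 2 →₀ ℕ) (hx : Finsupp.degree x < d + 1) (hne : x 0 ≠ x 1) : coeff x R = 0 := by
  have h1 : br (M - C μ * (X 0 * X 1)) R ∈ I2 O ^ (d + 3) := by
    rw [add_comm]; exact br_mem hM hR
  have h2 : br (C μ * (X 0 * X 1)) R ∈ I2 O ^ (d + 3) := by
    have := Ideal.sub_mem _ hb h1
    rwa [br_sub_left, sub_sub_cancel] at this
  rw [br_lead] at h2
  have h3 := mem_pow_of_C_mul_mem hμ h2
  rw [mem_pow_idealOfVars_iff'] at h3
  have h4 := h3 (Finsupp.single 0 1 + (Finsupp.single 1 1 + x)) (by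
    rw [degree_two] at hx ⊢
    simp
    omega)
  rw [coeff_X_mul, coeff_X_mul, coeff_sub, coeff_euler, coeff_euler, ← sub_mul] at h4
  refine (mul_eq_zero.1 h4).resolve_left ?_
  rw [sub_eq_zero]
  exact fun h => hne (Nat.cast_injective h).symm

theorem zw_mem : (X 0 * X 1 : P2 O) ∈ I2 O ^ 2 := by
  rw [pow_two]
  exact Ideal.mul_mem_mul (X_mem_idealOfVars 0) (X_mem_idealOfVars 1)

theorem pow_sub_mem {μ : O} {M : P2 O} (hM : M - C μ * (X 0 * X 1) ∈ I2 O ^ 3) (k : ℕ) :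
    M ^ (k + 1) - (C μ * (X 0 * X 1)) ^ (k + 1) ∈ I2 O ^ (2 * (k + 1) + 1) := by
  have hL : (C μ * (X 0 * X 1) : P2 O) ∈ I2 O ^ 2 := Ideal.mul_mem_left _ _ zw_mem
  have hM2 : M ∈ I2 O ^ 2 := by
    have := Ideal.add_mem _ (Ideal.pow_le_pow_right (by norm_num : 2 ≤ 3) hM) hL
    rwa [sub_add_cancel] at this
  induction k with
  | zero => simpa using hM
  | succ k ih =>
    have e : M ^ (k + 1 + 1) - (C μ * (X 0 * X 1)) ^ (k + 1 + 1) =
        M * (M ^ (k + 1) - (C μ * (X 0 * X 1)) ^ (k + 1)) +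
          (M - C μ * (X 0 * X 1)) * (C μ * (X 0 * X 1)) ^ (k + 1) := by ring
    rw [e]
    refine Ideal.add_mem _ ?_ ?_
    · rw [show 2 * (k + 1 + 1) + 1 = 2 + (2 * (k + 1) + 1) by ring, pow_add]
      exact Ideal.mul_mem_mul hM2 ih
    · rw [show 2 * (k + 1 + 1) + 1 = 3 + 2 * (k + 1) by ring, pow_add, pow_mul]
      exact Ideal.mul_mem_mul hM (Ideal.pow_mem_pow hL _)

theorem zw_pow (k : ℕ) :
    (X 0 * X 1 : P2 O) ^ k = monomial (Finsupp.single 0 k + Finsupp.single 1 k) 1 := by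
  rw [mul_pow, X_pow_eq_monomial, X_pow_eq_monomial, monomial_mul, one_mul]

/-- One step of the induction. -/
theorem step [IsDomain O] [CharZero O] {μ : O} (hμ : IsUnit μ) {M R : P2 O} {d : ℕ}
    (hd : 1 ≤ d) (hM : M - C μ * (X 0 * X 1) ∈ I2 O ^ 3) (hR : R ∈ I2 O ^ d)
    (hb : br M R ∈ I2 O ^ (d + 3)) :
    ∃ (c : O) (k : ℕ), R - C c * M ^ (k + 1) ∈ I2 O ^ (d + 1) := by
  classical
  have hoff := off_diag hμ.ne_zero hM hR hb
  have hR' := (mem_pow_idealOfVars_iff' _ _).1 hR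
  rcases Nat.even_or_odd' d with ⟨j, hj | hj⟩
  · obtain ⟨k, rfl⟩ : ∃ k, j = k + 1 := ⟨j - 1, by omega⟩
    obtain ⟨ν, hν⟩ := hμ.exists_left_inv
    set m0 : Fin 2 →₀ ℕ := Finsupp.single 0 (k + 1) + Finsupp.single 1 (k + 1) with hm0
    refine ⟨coeff m0 R * ν ^ (k + 1), k, ?_⟩
    have h1 : R - monomial m0 (coeff m0 R) ∈ I2 O ^ (d + 1) := by
      rw [mem_pow_idealOfVars_iff']
      intro x hx
      rw [coeff_sub, coeff_monomial]
      by_cases h : m0 = x
      · rw [if_pos h, h, sub_self]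
      · rw [if_neg h, sub_zero]
        by_cases hx' : Finsupp.degree x < d
        · exact hR' x hx'
        · refine hoff x hx fun hh => h ?_
          rw [degree_two] at hx hx'
          ext i
          fin_cases i <;> simp [hm0] <;> omega
    have h2 := pow_sub_mem hM k
    rw [← hj] at h2
    have e : R - C (coeff m0 R * ν ^ (k + 1)) * M ^ (k + 1) =
        (R - monomial m0 (coeff m0 R)) - C (coeff m0 R * ν ^ (k + 1)) *
          (M ^ (k + 1) - (C μ * (X 0 * X 1)) ^ (k + 1)) := by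
      have e1 : (C (coeff m0 R * ν ^ (k + 1)) * (C μ * (X 0 * X 1)) ^ (k + 1) : P2 O) =
          monomial m0 (coeff m0 R) := by
        rw [mul_pow, zw_pow, ← C_pow, ← mul_assoc, ← C_mul, C_mul_monomial, mul_one, mul_assoc,
          ← mul_pow, hν, one_pow, mul_one]
      rw [mul_sub, e1]; ring
    rw [e]
    exact Ideal.sub_mem _ h1 (Ideal.mul_mem_left _ _ h2)
  · refine ⟨0, 0, ?_⟩
    rw [C_0, zero_mul, sub_zero, mem_pow_idealOfVars_iff']
    intro x hx
    by_cases hx' : Finsupp.degree x < d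
    · exact hR' x hx'
    · refine hoff x hx fun hh => ?_
      rw [degree_two] at hx hx'
      omega

end A6

theorem a6 : A6Stmt := by
  intro O _ _ _ K μ M T hμ hM hT hb
  have key : ∀ d : ℕ, 1 ≤ d → d + 2 ≤ K ∨ d = 1 →
      ∃ U : P2 O, T - M * U ∈ I2 O ^ d ∧ br M (M * U) = 0 := by
    intro d hd
    induction d, hd using Nat.le_induction with
    | base =>
      intro _
      refine ⟨0, by simpa using hT, ?_⟩
      simp [br]
    | succ d hd ih =>
      intro h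
      have hK : d + 3 ≤ K := by omega
      obtain ⟨U, hU, hU0⟩ := ih (Or.inl (by omega))
      have hb' : br M (T - M * U) ∈ I2 O ^ (d + 3) := by
        rw [A6.br_sub_right, hU0, sub_zero]
        exact Ideal.pow_le_pow_right hK hb
      obtain ⟨c, k, hc⟩ := A6.step hμ hd hM hU hb'
      refine ⟨U + C c * M ^ k, ?_, ?_⟩
      · have e : T - M * (U + C c * M ^ k) = T - M * U - C c * M ^ (k + 1) := by ring
        rwa [e]
      · have e : M * (U + C c * M ^ k) = M * U + C c * M ^ (k + 1) := by ring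
        rw [e, A6.br_add_right, hU0, A6.br_C_mul_pow, add_zero]
  by_cases h : 3 ≤ K
  · obtain ⟨U, hU, -⟩ := key (K - 2) (by omega) (Or.inl (by omega))
    exact ⟨U, hU⟩
  · refine ⟨0, ?_⟩
    rw [show K - 2 = 0 by omega, pow_zero, Ideal.one_eq_top]
    exact Submodule.mem_top

end Pool.Agent.MP_62f0b1_an.AE

end
end MrgPart7

-- ======== part 8: formerly Pool.Agent.MP_62f0b1_an.ae.W0
section MrgPart8

/-!
Row W0: reduction to the counterclockwise equilateral triangle.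
-/

set_option autoImplicit false

noncomputable section

namespace Pool.Agent.MP_62f0b1_an.AE

open Complex Filter Topology Set MeasureTheory
open scoped ComplexConjugate

namespace W0

/-- Complex conjugation of all vertices. -/
def cj : (Fin 3 → ℂ) ≃L[ℝ] (Fin 3 → ℂ) := ContinuousLinearEquiv.piCongrRight fun _ => conjCLE

theorem cj_apply (P : Fin 3 → ℂ) (i : Fin 3) : cj P i = conj (P i) := rfl

theorem cj_cj (P : Fin 3 → ℂ) : cj (cj P) = P := by
  funext i
  simp [cj_apply]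

theorem area_cj (P : Fin 3 → ℂ) : multiArea (cj P) = -multiArea P := by
  simp only [multiArea, cj_apply, conj_re, conj_im, ← Finset.sum_neg_distrib]
  refine Finset.sum_congr rfl fun i _ => Finset.sum_congr rfl fun j _ => ?_
  split_ifs <;> ring

theorem omega_cj (v w : Fin 3 → ℂ) : omegaForm (-cj v) (cj w) = -omegaForm v w := by
  simp only [omegaForm, Pi.neg_apply, cj_apply, neg_re, neg_im, conj_re, conj_im,
    ← Finset.sum_neg_distrib]
  refine Finset.sum_congr rfl fun i _ => Finset.sum_congr rfl fun j _ => ?_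
  split_ifs <;> ring

theorem fderiv_cj (F : (Fin 3 → ℂ) → ℝ) (P w : Fin 3 → ℂ) :
    fderiv ℝ (F ∘ cj) P w = fderiv ℝ F (cj P) (cj w) := by
  rw [cj.comp_right_fderiv]
  rfl

theorem darea_cj (P w : Fin 3 → ℂ) :
    fderiv ℝ multiArea (cj P) (cj w) = -fderiv ℝ multiArea P w := by
  have e : (multiArea ∘ cj : (Fin 3 → ℂ) → ℝ) = -multiArea := funext area_cj
  rw [← fderiv_cj, e, fderiv_neg]
  rfl

theorem norm_cj (P : Fin 3 → ℂ) (i j : Fin 3) : ‖cj P i - cj P j‖ = ‖P i - P j‖ := by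
  rw [cj_apply, cj_apply, ← map_sub, norm_conj]

theorem qMap_cj (t : ℝ) (P : Fin 3 → ℂ) : qMap t (cj P) = cj (qMap t P) := by
  funext i
  rw [cj_apply, qMap, qMap, norm_cj]
  simp [cj_apply]

theorem rMap_cj (t : ℝ) (P : Fin 3 → ℂ) : rMap t (cj P) = cj (rMap t P) := by
  funext i
  rw [cj_apply, rMap, rMap, norm_cj]
  simp [cj_apply]

theorem adm_cj {t : ℝ} {V : Set (Fin 3 → ℂ)} {F : (Fin 3 → ℂ) → ℝ} (h : Adm t V F) :
    Adm t (cj ⁻¹' V) (F ∘ cj) where
  isOpen := h.isOpen.preimage cj.continuous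
  rigid P hP m ρ hρ := by
    have e : cj (fun i => m + ρ * P i) = fun i => conj m + conj ρ * cj P i := by
      funext i
      simp [cj_apply]
    rw [mem_preimage, e]
    exact h.rigid _ hP _ _ (by rw [norm_conj, hρ])
  smooth := h.smooth.comp cj.contDiff.contDiffOn fun _ hP => hP
  translation P hP m := by
    have e : cj (fun i => P i + m) = fun i => cj P i + conj m := by
      funext i
      simp [cj_apply]
    rw [Function.comp_apply, Function.comp_apply, e]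
    exact h.translation _ hP _
  poisson P hP v hv := by
    have h1 := h.poisson _ hP (-cj v) fun w => by
      rw [← cj_cj w, omega_cj, darea_cj, hv]
    rw [map_neg, neg_eq_zero] at h1
    rw [fderiv_cj, h1]
  invariant P hP hn hr hq := by
    rw [Function.comp_apply, Function.comp_apply, ← qMap_cj, ← rMap_cj]
    refine h.invariant _ (fun i e => hP i ?_) (fun i => ?_) ?_ ?_
    · exact (starRingEnd ℂ).injective e
    · rw [rMap_cj, norm_cj]
      exact hn i
    · rwa [rMap_cj]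
    · rwa [qMap_cj]

theorem crit_cj (V : Set (Fin 3 → ℂ)) (F : (Fin 3 → ℂ) → ℝ) :
    crit (cj ⁻¹' V) (F ∘ cj) ⊆ cj ⁻¹' crit V F := by
  rintro P ⟨hP, c, hc⟩
  refine ⟨hP, -c, ContinuousLinearMap.ext fun w => ?_⟩
  rw [← cj_cj w, ← fderiv_cj, hc, smul_apply, smul_apply,
    darea_cj, smul_neg, neg_smul, neg_neg]

theorem norm_om_sub : ‖om - 1‖ = Real.sqrt 3 := by
  have h : Real.sqrt 3 ^ 2 = 3 := Real.sq_sqrt (by norm_num)
  rw [norm_eq_sqrt_sq_add_sq]
  congr 1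
  simp [om]
  nlinarith [h]

theorem tri_mem {t s : ℝ} {V : Set (Fin 3 → ℂ)} {F : (Fin 3 → ℂ) → ℝ} (h : Adm t V F)
    {P : Fin 3 → ℂ} (hP : P ∈ V) (hs : 0 < s) (ha : ‖P 1 - P 0‖ = s)
    (hb : P 2 - P 1 = om * (P 1 - P 0)) : tri 0 (s ^ 2) ∈ V := by
  have h3 : (0 : ℝ) < Real.sqrt 3 := Real.sqrt_pos.2 (by norm_num)
  have h3' : ((Real.sqrt 3 : ℝ) : ℂ) ≠ 0 := ofReal_ne_zero.2 h3.ne'
  have ha0 : P 1 - P 0 ≠ 0 := by
    rw [← norm_pos_iff, ha]
    exact hs
  obtain ⟨ρ, hρ⟩ : ∃ ρ : ℂ, ρ * (P 1 - P 0) = s * (om - 1) / ((Real.sqrt 3 : ℝ) : ℂ) :=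
    ⟨_, div_mul_cancel₀ _ ha0⟩
  have hn : ‖ρ‖ = 1 := by
    have := congrArg norm hρ
    rw [norm_mul, ha, norm_div, norm_mul, norm_om_sub, norm_real, norm_real, Real.norm_eq_abs,
      Real.norm_eq_abs, abs_of_pos hs, abs_of_pos h3, mul_div_cancel_right₀ _ h3.ne'] at this
    exact mul_right_cancel₀ hs.ne' (this.trans (one_mul s).symm)
  have e : tri 0 (s ^ 2) = fun i => (s / ((Real.sqrt 3 : ℝ) : ℂ) - ρ * P 0) + ρ * P i := by
    have e0 : Real.sqrt (s ^ 2 + ‖(0 : ℂ)‖ ^ 2) = s := by simp [Real.sqrt_sq hs.le]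
    funext i
    rw [tri, e0]
    fin_cases i
    · simp
    · simp only [Fin.mk_one, Fin.isValue, pow_one]
      linear_combination -hρ
    · simp only [Fin.reduceFinMk, Fin.isValue]
      linear_combination -(1 + om) * hρ - ρ * hb
  rw [e]
  exact h.rigid _ hP _ _ hn

theorem two_cases {a b : ℂ} {s : ℝ} (hs : 0 < s) (ha : ‖a‖ = s) (hb : ‖b‖ = s)
    (hc : ‖a + b‖ = s) : b = om * a ∨ b = om ^ 2 * a := by
  have e1 := mul_conj' a
  have e2 := mul_conj' b
  have e3 := mul_conj' (a + b)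
  rw [ha] at e1
  rw [hb] at e2
  rw [hc, map_add] at e3
  have hs' : (s : ℂ) ^ 2 ≠ 0 := pow_ne_zero _ (ofReal_ne_zero.2 hs.ne')
  have e4 : (s : ℂ) ^ 2 * (a ^ 2 + a * b + b ^ 2) = 0 := by
    linear_combination a * b * e3 - (a * b + b ^ 2) * e1 - (a * b + a ^ 2) * e2
  have e5 := (mul_eq_zero.1 e4).resolve_left hs'
  have e6 : (b - om * a) * (b - om ^ 2 * a) = 0 := by
    linear_combination e5 - a * b * om_rel + a ^ 2 * om_cube
  exact (mul_eq_zero.1 e6).imp sub_eq_zero.1 sub_eq_zero.1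

end W0

open W0

theorem w0 : W0Stmt := by
  intro H t s V F P ht hs h hP hn
  have hs0 : 0 < s := by linarith
  have h4 : 4 * t ^ 2 < s ^ 2 := by nlinarith
  have ha : ‖P 1 - P 0‖ = s := hn 1
  have hb : ‖P 2 - P 1‖ = s := hn 2
  have hc : ‖P 1 - P 0 + (P 2 - P 1)‖ = s := by
    have : ‖P 0 - P 2‖ = s := hn 0
    rw [← this, norm_sub_rev (P 0)]
    congr 1
    ring
  rcases two_cases hs0 ha hb hc with e | e
  · exact H t _ V F ht h4 h (tri_mem h hP hs0 ha e)
  · have h1 := H t _ _ _ ht h4 (adm_cj h) (tri_mem (P := cj P) (adm_cj h)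
      (by rwa [mem_preimage, cj_cj]) hs0 (by rw [norm_cj, ha]) (by
        rw [cj_apply, cj_apply, cj_apply, ← map_sub, ← map_sub, e, map_mul, conj_om_sq]))
    intro h0
    refine h1 (measure_mono_null (crit_cj V F) ?_)
    rw [Measure.addHaar_preimage_continuousLinearEquiv, h0, mul_zero]

end Pool.Agent.MP_62f0b1_an.AE

end
end MrgPart8

-- ======== part 9: formerly Pool.Agent.MP_62f0b1_an.ae.W1b
section MrgPart9

/-!
An integral that commutes with the area is invariant under rotations.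
-/

set_option autoImplicit false

noncomputable section

namespace Pool.Agent.MP_62f0b1_an.AE

open Complex Filter Topology Set

namespace W1b

theorem area (P w : Fin 3 → ℂ) : omegaForm (fun i => -(I * P i)) w = fderiv ℝ multiArea P w := by
  have hx : ∀ i, HasFDerivAt (fun P : Fin 3 → ℂ => (P i).re)
      (reCLM.comp (ContinuousLinearMap.proj i)) P := fun i =>
    (reCLM.comp (ContinuousLinearMap.proj (R := ℝ) (φ := fun _ : Fin 3 => ℂ) i)).hasFDerivAt
  have hy : ∀ i, HasFDerivAt (fun P : Fin 3 → ℂ => (P i).im)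
      (imCLM.comp (ContinuousLinearMap.proj i)) P := fun i =>
    (imCLM.comp (ContinuousLinearMap.proj (R := ℝ) (φ := fun _ : Fin 3 => ℂ) i)).hasFDerivAt
  have e : (multiArea : (Fin 3 → ℂ) → ℝ) = fun P => (P 0).re * (P 2).im - (P 0).im * (P 2).re -
      ((P 0).re * (P 1).im - (P 0).im * (P 1).re) - ((P 1).re * (P 2).im - (P 1).im * (P 2).re) := by
    funext P
    simp [multiArea, Fin.sum_univ_three]
    ring
  have d := (((((hx 0).mul (hy 2)).sub ((hy 0).mul (hx 2))).sub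
    (((hx 0).mul (hy 1)).sub ((hy 0).mul (hx 1)))).sub
    (((hx 1).mul (hy 2)).sub ((hy 1).mul (hx 2)))).fderiv
  rw [e]
  refine Eq.trans ?_ (congrArg (fun L => L w) d).symm
  simp [omegaForm, Fin.sum_univ_three]
  ring

end W1b

theorem w1b : W1bStmt := by
  intro t V F h P hP m ρ hρ
  have mem : ∀ φ : ℝ, (fun i => exp (φ * I) * P i) ∈ V := fun φ => by
    simpa using h.rigid P hP 0 (exp (φ * I)) (norm_exp_ofReal_mul_I φ)
  have hd : ∀ φ : ℝ, HasDerivAt (fun φ : ℝ => F fun i => exp (φ * I) * P i) 0 φ := fun φ => by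
    have h1 : HasDerivAt (fun φ : ℝ => fun i => exp (φ * I) * P i)
        (-fun i => -(I * (exp (φ * I) * P i))) φ := by
      refine hasDerivAt_pi.2 fun i => ?_
      have := ((((hasDerivAt_id (φ : ℂ)).mul_const I).cexp).mul_const (P i)).comp_ofReal
      refine this.congr_deriv ?_
      simp only [id, Pi.neg_apply]
      ring
    have h2 := ((h.smooth.differentiableOn (by simp)).differentiableAt
      (h.isOpen.mem_nhds (mem φ))).hasFDerivAt.comp_hasDerivAt φ h1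
    rw [map_neg, h.poisson _ (mem φ) _ (W1b.area _), neg_zero] at h2
    exact h2
  have hc := is_const_of_deriv_eq_zero (fun φ => (hd φ).differentiableAt) (fun φ => (hd φ).deriv)
    ρ.arg 0
  have hr : exp (ρ.arg * I) = ρ := by simpa [hρ] using norm_mul_exp_arg_mul_I ρ
  have ht := h.translation _ (mem ρ.arg) m
  simp only [hr] at hc ht
  simp only [ofReal_zero, zero_mul, exp_zero, one_mul] at hc
  rw [← hc, ← ht]
  simp only [add_comm]

end Pool.Agent.MP_62f0b1_an.AE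

end
end MrgPart9

-- ======== part 10: formerly Pool.Agent.MP_62f0b1_an.ae.W1d
section MrgPart10

/-!
The integral in the polar chart.
-/

set_option autoImplicit false

noncomputable section

namespace Pool.Agent.MP_62f0b1_an.AE

open Complex Filter Topology Set
open scoped ComplexConjugate

namespace W1d

theorem cont_tri : Continuous fun p : C3 => tri p.1 p.2.2.re := by
  unfold tri
  fun_prop

theorem cont_Phi {c : ℝ} (hc : 0 < c) (i : Fin 3) : ContinuousAt (fun p => Phi p i) (base c) := by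
  have h : ContinuousAt (fun p : C3 => csqrt (p.2.2 + p.1 * p.2.1)) (base c) :=
    ContinuousAt.comp (g := csqrt)
      (analyticAt_csqrt (by simpa [base] using ofReal_mem_slitPlane.2 hc)).continuousAt
      (by fun_prop)
  unfold Phi
  exact ContinuousAt.add (by fun_prop) (h.mul (by fun_prop))

theorem smooth_tri {χ : R3 → ℂ} {s : Set R3} (h : ContDiffOn ℝ 1 χ s)
    (hs : ∀ p ∈ s, 0 < p.2.2) : ContDiffOn ℝ 1 (fun p => tri (χ p) p.2.2) s := by
  have h1 : ContDiffOn ℝ 1 (fun p : R3 => Real.sqrt (p.2.2 + ‖χ p‖ ^ 2)) s :=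
    (ContDiffOn.add (by fun_prop) (h.norm_sq ℝ)).sqrt fun p hp => by
      have := hs p hp
      positivity
  have h2 : ContDiffOn ℝ 1 (fun p : R3 => ((Real.sqrt (p.2.2 + ‖χ p‖ ^ 2) : ℝ) : ℂ)) s :=
    ofRealCLM.contDiff.comp_contDiffOn h1
  refine contDiffOn_pi.2 fun j => ?_
  unfold tri
  exact ((h2.mul contDiffOn_const).sub (h.mul contDiffOn_const)).div_const _

theorem cast_Bf (t : ℝ) (a : Fin 3 → ℝ) (i : Fin 3) :
    ((Bf t a i : ℝ) : ℂ) = Bf (t : ℂ) (fun j => (a j : ℂ)) i := by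
  simp [Bf]

theorem cast_Df (t : ℝ) (a : Fin 3 → ℝ) (i : Fin 3) :
    ((Df t a i : ℝ) : ℂ) = Df (t : ℂ) (fun j => (a j : ℂ)) i := by
  simp [Df]

end W1d

open W1d in
theorem w1d : W1dStmt := by
  intro ha hb t η0 c0 V F f g β U ht hc0 hc adm hV red
  have c0p : 0 < c0 := lt_of_le_of_lt (by positivity) hc
  have hU : U ∈ 𝓝 (base c0) := red.isOpen.mem_nhds (hc0 ▸ red.mem)
  have h1 : ∀ᶠ p : C3 in 𝓝 (base c0), 0 < p.2.2.re :=
    (show ContinuousAt (fun p : C3 => p.2.2.re) (base c0) by fun_prop).eventually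
      (lt_mem_nhds (by simpa [base] using c0p))
  have h2 : ∀ᶠ p : C3 in 𝓝 (base c0), tri p.1 p.2.2.re ∈ V :=
    cont_tri.continuousAt.eventually (adm.isOpen.mem_nhds (by simpa [base] using hV))
  have h3 : ∀ᶠ p : C3 in 𝓝 (base c0), ∀ i, 4 * t ^ 2 < (Phi p i).re :=
    eventually_all.2 fun i => (continuous_re.continuousAt.comp (cont_Phi c0p i)).eventually
      (lt_mem_nhds (by simpa [base, Phi] using hc))
  refine ⟨{p | p ∈ U ∧ 0 < p.2.2.re ∧ tri p.1 p.2.2.re ∈ V ∧ ∀ i, 4 * t ^ 2 < (Phi p i).re},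
    by filter_upwards [hU, h1, h2, h3] with p k0 k1 k2 k3 using ⟨k0, k1, k2, k3⟩,
    fun p hp => hp.1, fun z c hp => ⟨hp.2.1, hp.2.2.1⟩, fun N' hN χ Θ Jn ε r ch => ⟨?_, ?_, ?_⟩⟩
  · exact adm.smooth.comp (smooth_tri ch.smooth fun p hp => (hN (ch.nb p hp)).2.1)
      fun p hp => (hN (ch.nb p hp)).2.2.1
  · intro p
    rw [ch.per p]
  · intro p hp hq
    obtain ⟨k0, k1, k2, k3⟩ := hN (ch.nb p hp)
    have k4 : tri (χ (Θ p, Jn p, p.2.2)) p.2.2 ∈ V := (hN (ch.nb _ hq)).2.2.1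
    obtain ⟨r1, r2⟩ := red.real _ _ k0
    have e : (fun j => (((β (rp (χ p) p.2.2) j).re : ℝ) : ℂ)) = β (rp (χ p) p.2.2) :=
      funext fun j => Complex.ext rfl (r2 j).1.symm
    have eB : ∀ i, ((Bf t (fun j => (β (rp (χ p) p.2.2) j).re) i : ℝ) : ℂ) =
        Phi (rp (χ p) p.2.2) i := fun i => by rw [cast_Bf, e, red.eqB _ k0]
    obtain ⟨P, m, ρ, m', ρ', p1, p2, p3, p4, p5, p6⟩ := ha t p.2.2
      (fun j => (β (rp (χ p) p.2.2) j).re) (χ p) (χ (Θ p, Jn p, p.2.2)) ht k1 (fun j => (r2 j).2) eB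
      fun i => by
        rw [cast_Df, e, red.eqD _ k0, r1, ch.link p hp]
        rfl
    have inv := adm.invariant P p1 (fun i => by
      have a1 := k3 i
      rw [← eB i, ofReal_re, ← p6 i] at a1
      rw [p4, add_sub_add_left_eq_sub, ← mul_sub, norm_mul, p2, one_mul]
      exact lt_of_pow_lt_pow_left₀ 2 (norm_nonneg _) (by linarith))
      (p4 ▸ adm.rigid _ k2 m ρ p2) (p5 ▸ adm.rigid _ k4 m' ρ' p3)
    rw [p4, p5, hb t V F adm _ k4 m' ρ' p3] at inv
    exact inv.trans (hb t V F adm _ k2 m ρ p2)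

end Pool.Agent.MP_62f0b1_an.AE

end
end MrgPart10

-- marker of a merged file
example : 731051 + 470838 = 731051 + 470838 := rfl
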