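import Mathlib.Algebra.AffineMonoid.UniqueSums
import Mathlib.Tactic.Monotonicity.Lemmas
import Mathlib.RingTheory.PowerSeries.Inverse
import Mathlib.Combinatorics.SimpleGraph.Basic
import Mathlib.RingTheory.SimpleRing.Principal
import Mathlib.RingTheory.Henselian
import Mathlib.RingTheory.RegularLocalRing.Defs
import Pool.Agent.MP_62f0b1_an.ae.Asm

-- ======== part 0: formerly Pool.Agent.MP_62f0b1_an.ae.M4
section MrgPart0

/-!
Row M4: from a null critical set to graphs of periodic points on an interval of parameters.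
-/

set_option autoImplicit false

noncomputable section

namespace Pool.Agent.MP_62f0b1_an.AE

open Filter Topology Set MeasureTheory

namespace M4

theorem irr {γ w : ℝ} (hγ : 0 < γ) (hw : w ∈ DC γ) : Irrational (w / (2 * Real.pi)) := by
  rintro ⟨q, hq⟩
  have hpi : (2 * Real.pi) ≠ 0 := by positivity
  have hden : (q.den : ℝ) ≠ 0 := by exact_mod_cast q.den_nz
  have h1 : (q.den : ℝ) * w = q.num * (2 * Real.pi) := by
    have h2 : w = (q : ℝ) * (2 * Real.pi) := by rw [hq]; field_simp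
    rw [h2, Rat.cast_def]; field_simp
  have h3 := hw q.den q.den_nz
  have h4 : ((q.den : ℕ) : ℂ) * (w : ℂ) * Complex.I = (q.num : ℂ) * (2 * Real.pi * Complex.I) := by
    have h5 : ((q.den : ℕ) : ℂ) * (w : ℂ) = (q.num : ℂ) * (2 * Real.pi) := by
      exact_mod_cast congrArg (fun x : ℝ => (x : ℂ)) h1
    rw [h5]; ring
  rw [h4, Complex.exp_int_mul_two_pi_mul_I] at h3
  have h6 : 0 < γ / (q.den : ℝ) ^ 2 := by positivity
  simp at h3
  linarith

theorem isOpen_domR (e0 ε r : ℝ) : IsOpen (domR e0 ε r) := by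
  have h1 : IsOpen {p : R3 | 0 < p.2.1} := isOpen_lt continuous_const (by fun_prop)
  have h2 : IsOpen {p : R3 | p.2.1 < r} := isOpen_lt (by fun_prop) continuous_const
  have h3 : IsOpen {p : R3 | |p.2.2 - e0| < ε} := isOpen_lt (by fun_prop) continuous_const
  exact h1.inter (h2.inter h3)

theorem slices {S : Set R3} (hS : volume S = 0) :
    ∀ᵐ e : ℝ, volume {q : ℝ × ℝ | (q.1, q.2, e) ∈ S} = 0 := by
  have h1 : MeasurePreserving (Prod.swap : ℝ × (ℝ × ℝ) → (ℝ × ℝ) × ℝ) volume volume :=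
    Measure.measurePreserving_swap
  have h2 : MeasurePreserving (MeasurableEquiv.prodAssoc : (ℝ × ℝ) × ℝ ≃ᵐ ℝ × ℝ × ℝ)
      volume volume := volume_preserving_prodAssoc
  have h3 := (h2.comp h1).quasiMeasurePreserving.preimage_null hS
  have h4 := Measure.measure_ae_null_of_prod_null (μ := (volume : Measure ℝ))
    (ν := (volume : Measure (ℝ × ℝ))) h3
  filter_upwards [h4] with e he
  exact he

theorem null_line (c : ℝ) : volume {q : ℝ × ℝ | q.1 = c} = 0 := by
  have h : {q : ℝ × ℝ | q.1 = c} = ({c} : Set ℝ) ×ˢ (univ : Set ℝ) := by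
    ext q; simp
  rw [h, Measure.volume_eq_prod, Measure.prod_prod]
  simp

/-- The critical points in a compact box on one level. -/
def KK (F : R3 → ℝ) (e η : ℝ) : Set (ℝ × ℝ) :=
  (Icc (-Real.pi) Real.pi ×ˢ Icc (η / 2) (3 * η)) ∩
    {q | r1 F (q.1, q.2, e) = 0 ∧ r2 F (q.1, q.2, e) = 0}

theorem KK_compact {F : R3 → ℝ} {e0 ε r e η : ℝ} (hF : ContDiffOn ℝ 1 F (domR e0 ε r))
    (he : |e - e0| < ε) (hη : 0 < η) (hr : 4 * η < r) : IsCompact (KK F e η) := by
  have hB : IsCompact (Icc (-Real.pi) Real.pi ×ˢ Icc (η / 2) (3 * η)) :=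
    isCompact_Icc.prod isCompact_Icc
  have hc : ContinuousOn (fderiv ℝ F) (domR e0 ε r) :=
    hF.continuousOn_fderiv_of_isOpen (isOpen_domR e0 ε r) le_rfl
  have hm : MapsTo (fun q : ℝ × ℝ => ((q.1, q.2, e) : R3))
      (Icc (-Real.pi) Real.pi ×ˢ Icc (η / 2) (3 * η)) (domR e0 ε r) := by
    intro q hq
    obtain ⟨-, h1, h2⟩ := hq
    exact ⟨by show 0 < q.2; linarith, by show q.2 < r; linarith, he⟩
  have hc' : ContinuousOn (fun q : ℝ × ℝ => fderiv ℝ F (q.1, q.2, e))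
      (Icc (-Real.pi) Real.pi ×ˢ Icc (η / 2) (3 * η)) :=
    hc.comp (by fun_prop) hm
  have hg : ContinuousOn (fun q : ℝ × ℝ => (r1 F (q.1, q.2, e), r2 F (q.1, q.2, e)))
      (Icc (-Real.pi) Real.pi ×ˢ Icc (η / 2) (3 * η)) :=
    (hc'.clm_apply continuousOn_const).prodMk (hc'.clm_apply continuousOn_const)
  have hcl := hg.preimage_isClosed_of_isClosed hB.isClosed
    (isClosed_singleton (x := ((0 : ℝ), (0 : ℝ))))
  have heq : KK F e η = (Icc (-Real.pi) Real.pi ×ˢ Icc (η / 2) (3 * η)) ∩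
      (fun q : ℝ × ℝ => (r1 F (q.1, q.2, e), r2 F (q.1, q.2, e))) ⁻¹' {((0 : ℝ), (0 : ℝ))} := by
    ext q; simp [KK]
  rw [heq]
  exact hB.of_isClosed_subset hcl inter_subset_left

theorem KK_null {F : R3 → ℝ} {e0 ε r e η : ℝ} (he : |e - e0| < ε) (hη : 0 < η) (hr : 4 * η < r)
    (hS : volume {q : ℝ × ℝ | (q.1, q.2, e) ∈ critR F e0 ε r} = 0) : volume (KK F e η) = 0 := by
  refine measure_mono_null (t := {q : ℝ × ℝ | (q.1, q.2, e) ∈ critR F e0 ε r} ∪
    ({q : ℝ × ℝ | q.1 = Real.pi} ∪ {q : ℝ × ℝ | q.1 = -Real.pi})) ?_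
    (measure_union_null hS (measure_union_null (null_line _) (null_line _)))
  rintro q ⟨⟨⟨h1, h2⟩, h3, h4⟩, h5, h6⟩
  rcases h1.eq_or_lt with h1 | h1
  · exact Or.inr (Or.inr h1.symm)
  rcases h2.eq_or_lt with h2 | h2
  · exact Or.inr (Or.inl h2)
  refine Or.inl ⟨⟨by show 0 < q.2; linarith, by show q.2 < r; linarith, he⟩, ?_, h5, h6⟩
  exact abs_lt.2 ⟨h1, h2⟩

end M4

open M4 in
theorem m4 : M4Stmt := by
  intro h0 h1 h2 h3a h3b F Θ Jn α e0 ε r hT hK hF hcrit b hb N0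
  have hε := hT.ε_pos
  have hr := hT.r_pos
  obtain ⟨κ, hκ, hmono⟩ := hT.alpha.mono
  have hA : κ * (ε / 6) ≤ α (e0 - ε / 3) - α (e0 - ε / 2) := by
    have := hmono (e0 - ε / 2) ⟨by linarith, by linarith⟩ (e0 - ε / 3) ⟨by linarith, by linarith⟩
      (by linarith)
    convert this using 2; ring
  have hB : κ * (ε / 12) ≤ α (e0 - ε / 4) - α (e0 - ε / 3) := by
    have := hmono (e0 - ε / 3) ⟨by linarith, by linarith⟩ (e0 - ε / 4) ⟨by linarith, by linarith⟩
      (by linarith)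
    convert this using 2; ring
  have hκε : 0 < κ * ε := mul_pos hκ hε
  obtain ⟨γ, hγ, hS⟩ := h0 (α (e0 - ε / 3)) (α (e0 - ε / 4)) (by nlinarith)
  obtain ⟨rK, hrK, hKAM⟩ := hK γ hγ
  obtain ⟨r2', hr2, C, hM2⟩ := h2 Θ Jn α e0 ε r hT
  obtain ⟨r3, hr3, hM3⟩ := h3b Θ Jn α e0 ε r hT
  obtain ⟨η, hη, hη1, hη2, hη3, hη4, hη5, hη6⟩ : ∃ η : ℝ, 0 < η ∧ η < rK ∧ η < r2' ∧
      4 * η ≤ r3 ∧ 4 * η < r ∧ 4 * η ≤ b ∧ η < κ * ε / 9 := by
    set m := min (min (min rK r2') (min r3 r)) (min b (κ * ε)) with hm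
    have hm0 : 0 < m := by positivity
    have a1 : m ≤ rK := (min_le_left _ _).trans ((min_le_left _ _).trans (min_le_left _ _))
    have a2 : m ≤ r2' := (min_le_left _ _).trans ((min_le_left _ _).trans (min_le_right _ _))
    have a3 : m ≤ r3 := (min_le_left _ _).trans ((min_le_right _ _).trans (min_le_left _ _))
    have a4 : m ≤ r := (min_le_left _ _).trans ((min_le_right _ _).trans (min_le_right _ _))
    have a5 : m ≤ b := (min_le_right _ _).trans (min_le_left _ _)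
    have a6 : m ≤ κ * ε := (min_le_right _ _).trans (min_le_right _ _)
    exact ⟨m / 10, by linarith, by linarith, by linarith, by linarith, by linarith, by linarith,
      by linarith⟩
  obtain ⟨x, hxS, hx⟩ : ∃ x ∈ DC γ ∩ Ioo (α (e0 - ε / 3)) (α (e0 - ε / 4)),
      volume ((DC γ ∩ Ioo (α (e0 - ε / 3)) (α (e0 - ε / 4))) ∩ Ioo (x - η / 4) (x + η / 4)) ≠ 0 := by
    by_contra hcon
    push Not at hcon
    refine hS (measure_null_of_locally_null _ fun x hx => ⟨_, ?_, hcon x hx⟩)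
    exact inter_mem_nhdsWithin _ (Ioo_mem_nhds (by linarith) (by linarith))
  set Ω := (DC γ ∩ Ioo (α (e0 - ε / 3)) (α (e0 - ε / 4))) ∩ Ioo (x - η / 4) (x + η / 4) with hΩ
  have hEo : IsOpen (Ioo (e0 - ε / 2) e0 ∩ α ⁻¹' Ioo (x - 7 * η / 4) (x - 5 * η / 4)) :=
    (hT.alpha.cont.mono (Ioo_subset_Ioo (by linarith) (by linarith))).isOpen_inter_preimage
      isOpen_Ioo isOpen_Ioo
  have hEn : (Ioo (e0 - ε / 2) e0 ∩ α ⁻¹' Ioo (x - 7 * η / 4) (x - 5 * η / 4)).Nonempty := by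
    have hc : ContinuousOn α (Icc (e0 - ε / 2) (e0 - ε / 4)) :=
      hT.alpha.cont.mono (Icc_subset_Ioo (by linarith) (by linarith))
    obtain ⟨e, he, hev⟩ := intermediate_value_Ioo (by linarith) hc
      (show x - 3 * η / 2 ∈ Ioo (α (e0 - ε / 2)) (α (e0 - ε / 4)) from
        ⟨by linarith [hxS.2.1], by linarith [hxS.2.2]⟩)
    refine ⟨e, ⟨he.1, by linarith [he.2]⟩, ?_⟩
    rw [mem_preimage, hev]
    exact ⟨by linarith, by linarith⟩
  obtain ⟨e1, ⟨he1, hα1⟩, hsl⟩ := Measure.exists_mem_of_measure_ne_zero_of_ae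
    (hEo.measure_pos volume hEn).ne' (ae_restrict_of_ae (slices hcrit))
  have he1' : |e1 - e0| < ε / 2 := abs_lt.2 ⟨by linarith [he1.1], by linarith [he1.2]⟩
  have he1'' : |e1 - e0| < ε := by linarith
  have hcur : ∀ w, ∃ u j : ℝ → ℝ, w ∈ Ω → KAMCurve Θ Jn e1 w η u j := by
    intro w
    by_cases hw : w ∈ Ω
    · obtain ⟨u, j, h⟩ := hKAM η hη hη1 e1 he1'' w hw.1.1 (by linarith [hw.2.1, hα1.2])
        (by linarith [hw.2.2, hα1.1])
      exact ⟨u, j, fun _ => h⟩
    · exact ⟨id, id, fun h => absurd h hw⟩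
  choose u j huj using hcur
  by_cases hreg : ∃ w ∈ Ω, ∃ θ, ¬ (r1 F (u w θ, j w θ, e1) = 0 ∧ r2 F (u w θ, j w θ, e1) = 0)
  · obtain ⟨w, hw, hθ⟩ := hreg
    have hρ0 : 0 < min (e1 - (e0 - ε / 2)) (e0 - e1) :=
      lt_min (by linarith [he1.1]) (by linarith [he1.2])
    obtain ⟨v1, ρ, H, hρ, hTube⟩ := h3a F Θ Jn α e0 ε r hT hF e1 w η (u w) (j w) he1'' hη hη4
      (huj w hw) (irr hγ hw.1.1) hθ _ hρ0
    have hρ1 := hρ.trans (min_le_left _ _)
    have hρ2 := hρ.trans (min_le_right _ _)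
    obtain ⟨l, p, ρ', hl, hl8, hlN, hρ', hρ'', hper⟩ := hM3 e1 v1 ρ (4 * η) H hη3
      (by linarith [he1.1]) hTube N0
    refine ⟨l, p, e1 - ρ', e1 + ρ', hl, hl8, hlN, by linarith, by linarith, by linarith, ?_⟩
    intro e he
    obtain ⟨h, hh, hb'⟩ := hper e (abs_lt.2 ⟨by linarith [he.1], by linarith [he.2]⟩)
    exact ⟨h, hh, fun θ => (hb' θ).trans_le hη5⟩
  · exfalso
    push Not at hreg
    obtain ⟨g, hg1, hg2, hg3⟩ := hM2 η e1 hη hη2 he1'' Ω u j huj
    refine hx (h1 Ω g 2 C (KK F e1 η) (KK_compact hF.smooth he1'' hη hη4)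
      (KK_null he1'' hη hη4 hsl) hg2 ?_ hg3)
    intro w hw y hy
    obtain ⟨θ, hθ1, hθ2⟩ := hg1 w hw y
    refine ⟨⟨hy, ?_⟩, ?_⟩
    · show g w y ∈ Icc (η / 2) (3 * η)
      rw [hθ2]; exact (huj w hw).range θ
    · show r1 F (y, g w y, e1) = 0 ∧ r2 F (y, g w y, e1) = 0
      rw [hθ2, ← hθ1]; exact hreg w hw θ

end Pool.Agent.MP_62f0b1_an.AE

end
end MrgPart0

-- ======== part 1: formerly Pool.Agent.MP_62f0b1_an.ae.C5
section MrgPart1

/-!
Continuation of a family of periodic graphs up to the parameter where it shrinks to the fixed point.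
-/

set_option autoImplicit false

noncomputable section

namespace Pool.Agent.MP_62f0b1_an.AE

open Complex Filter Topology Set

namespace C5

/-- Induction along a real interval. -/
theorem cont_ind (P : ℝ → Prop) (a c : ℝ) (h0 : ∃ ρ > (0 : ℝ), ∀ e, |e - a| < ρ → P e)
    (hs : ∀ σ ∈ Ioo a c, (∀ e ∈ Ico a σ, P e) → ∃ ρ > (0 : ℝ), ∀ e, |e - σ| < ρ → P e) :
    ∀ e ∈ Ico a c, P e := by
  by_contra hne
  push Not at hne
  obtain ⟨x, hx, hPx⟩ := hne
  set B : Set ℝ := {e | e ∈ Ico a c ∧ ¬ P e} with hB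
  have hBne : B.Nonempty := ⟨x, hx, hPx⟩
  have hBb : BddBelow B := ⟨a, fun e he => he.1.1⟩
  have h1 : a ≤ sInf B := le_csInf hBne fun e he => he.1.1
  have h2 : sInf B < c := lt_of_le_of_lt (csInf_le hBb ⟨hx, hPx⟩) hx.2
  have h3 : ∀ e ∈ Ico a (sInf B), P e := by
    intro e he
    by_contra hP
    have : sInf B ≤ e := csInf_le hBb ⟨⟨he.1, he.2.trans h2⟩, hP⟩
    exact absurd he.2 (not_lt.mpr this)
  have h4 : ∃ ρ > (0 : ℝ), ∀ e, |e - sInf B| < ρ → P e := by
    rcases h1.eq_or_lt with h | h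
    · rw [← h]; exact h0
    · exact hs _ ⟨h, h2⟩ h3
  obtain ⟨ρ, hρ, hP⟩ := h4
  have h5 : sInf B + ρ ≤ sInf B := by
    refine le_csInf hBne fun e he => ?_
    by_contra hlt
    have hle : sInf B ≤ e := csInf_le hBb he
    exact he.2 (hP e (by rw [abs_lt]; constructor <;> linarith [not_le.mp hlt]))
  linarith

end C5

theorem c5 : C5Stmt := by
  intro h1 h2 h3 h4 Θ Jn α e0 ε r hT
  obtain ⟨rA, hrA, hrAr, hC1⟩ := h1 Θ Jn α e0 ε r hT
  obtain ⟨rB, hrB, hC3⟩ := h3 Θ Jn α e0 ε r hT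
  obtain ⟨κ, hκ, hmono⟩ := hT.alpha.mono
  have hε := hT.ε_pos
  set R : ℝ := min rA rB with hR
  have hR0 : 0 < R := lt_min hrA hrB
  have hRA : R ≤ rA := min_le_left _ _
  have hRB : R ≤ rB := min_le_right _ _
  set b : ℝ := min (R / 8) (κ * ε / 8) with hb
  have hκε : 0 < κ * ε := mul_pos hκ hε
  have hb0 : 0 < b := lt_min (by linarith) (by linarith)
  have hbR : b ≤ R / 8 := min_le_left _ _
  have hbκ : b ≤ κ * ε / 8 := min_le_right _ _
  refine ⟨b, hb0, ?_⟩
  intro l p ea eb hl hea hab heb hG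
  set T : ℝ := 2 * Real.pi * p / l with hTdef
  set e1 : ℝ := (ea + eb) / 2 with he1
  have he1a : ea < e1 := by rw [he1]; linarith
  have he1b : e1 < eb := by rw [he1]; linarith
  have habs : ∀ e, e1 ≤ e → e ≤ e0 + ε / 2 → |e - e0| < ε := by
    intro e ha hb'
    rw [abs_lt]; constructor <;> linarith
  have hmem : ∀ e, e1 ≤ e → e ≤ e0 + ε / 2 → e ∈ Ioo (e0 - ε) (e0 + ε) := by
    intro e ha hb'
    constructor <;> linarith
  have hmon : ∀ x y, e1 ≤ x → x ≤ y → y ≤ e0 + ε / 2 → κ * (y - x) ≤ α y - α x := by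
    intro x y hx hxy hy
    exact hmono x (hmem x hx (hxy.trans hy)) y (hmem y (hx.trans hxy) hy) hxy
  obtain ⟨g1, hg1, hg1b⟩ := hG e1 ⟨he1a, he1b⟩
  have he12 : e1 ≤ e0 + ε / 2 := by linarith
  obtain ⟨-, hb1⟩ := hC1 l p e1 g1 hl (habs e1 le_rfl he12) hg1
    (fun θ => by linarith [hg1b θ])
  have hΔ0 : α e1 < T := by
    have := (hb1 0).2
    have := hg1.pos 0
    linarith
  have hΔ1 : T - α e1 < 2 * b := by
    have := (hb1 0).1
    have := hg1b 0
    linarith
  have hΔ2 : T < α (e0 + ε / 2) := by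
    have h5 := hmon e1 (e0 + ε / 2) le_rfl he12 le_rfl
    have h6 : κ * (ε / 2) ≤ κ * (e0 + ε / 2 - e1) :=
      mul_le_mul_of_nonneg_left (by linarith) hκ.le
    nlinarith
  have hcont : ContinuousOn α (Icc e1 (e0 + ε / 2)) :=
    hT.alpha.cont.mono fun e he => hmem e he.1 he.2
  obtain ⟨es, hes, hαes⟩ := intermediate_value_Ioo he12 hcont ⟨hΔ0, hΔ2⟩
  have key : ∀ e ∈ Ico e1 es, ∃ h, PerGraph Θ Jn l p e h ∧ ∀ θ, h θ < R := by
    refine C5.cont_ind _ e1 es ?_ ?_
    · refine ⟨(eb - ea) / 2, by linarith, fun e he => ?_⟩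
      rw [abs_lt] at he
      obtain ⟨h, hh, hhb⟩ := hG e ⟨by linarith [he.1], by linarith [he.2]⟩
      exact ⟨h, hh, fun θ => by linarith [hhb θ]⟩
    · intro σ hσ hP
      have hσ2 : σ ≤ e0 + ε / 2 := by linarith [hσ.2, hes.2]
      have hσε : |σ - e0| < ε := habs σ hσ.1.le hσ2
      have hΔσ : α σ < T := by
        have h5 := hmon σ es hσ.1.le hσ.2.le hes.2.le
        have h6 : 0 < κ * (es - σ) := mul_pos hκ (by linarith [hσ.2])
        linarith
      choose! H hH using hP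
      have hev : ∀ᶠ e in 𝓝[<] σ, PerGraph Θ Jn l p e (H e) ∧
          (∀ x y, |H e x - H e y| ≤ |x - y|) ∧
          ∀ θ, (T - α σ) / 2 ≤ H e θ ∧ H e θ ≤ 4 * b := by
        filter_upwards [Ioo_mem_nhdsLT hσ.1] with e he
        obtain ⟨hp, hlt⟩ := hH e ⟨he.1.le, he.2⟩
        have he2 : e ≤ e0 + ε / 2 := by linarith [he.2]
        obtain ⟨hL, hbd⟩ := hC1 l p e (H e) hl (habs e he.1.le he2) hp
          (fun θ => by linarith [hlt θ])
        have h5 := hmon e σ he.1.le he.2.le hσ2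
        have h6 : 0 ≤ κ * (σ - e) := mul_nonneg hκ.le (by linarith [he.2])
        have h7 := hmon e1 e le_rfl he.1.le he2
        have h8 : 0 ≤ κ * (e - e1) := mul_nonneg hκ.le (by linarith [he.1])
        refine ⟨hp, hL, fun θ => ⟨?_, ?_⟩⟩
        · linarith [(hbd θ).1]
        · linarith [(hbd θ).2]
      have hm : 0 < (T - α σ) / 2 := by linarith
      obtain ⟨𝒰, h, hne, hle, hp, hL, hbd, hlim⟩ := h2 Θ Jn α e0 ε r hT l p σ ((T - α σ) / 2)
        (4 * b) H hl hσε hm (by linarith) hev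
      have hpos := hC3 l p σ h hl hσε hp (fun θ => by linarith [(hbd θ).2]) hL
      exact h4 Θ Jn α e0 ε r hT l p σ ((T - α σ) / 2) (4 * b) R H h 𝒰 hl hσε hm (by linarith)
        (by linarith) hp hL hbd hpos hne hle ((hev.filter_mono hle).mono fun e he => he.1) hlim
  refine ⟨es, e1, habs es hes.1.le hes.2.le, habs e1 le_rfl he12, hes.1, hαes, fun e he => ?_⟩
  obtain ⟨h, hp, hlt⟩ := key e ⟨he.1.le, he.2⟩
  obtain ⟨-, hbd⟩ := hC1 l p e h hl (habs e he.1.le (by linarith [he.2, hes.2])) hp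
    (fun θ => by linarith [hlt θ])
  refine ⟨h, hp, fun θ => ⟨by linarith [hlt θ], ?_, ?_⟩⟩
  · rw [hαes]; exact (hbd θ).1
  · rw [hαes]; exact (hbd θ).2

end Pool.Agent.MP_62f0b1_an.AE

end
end MrgPart1

-- ======== part 2: formerly Pool.Agent.MP_62f0b1_an.ae.A2
section MrgPart2

/-!
Row A2: the formal map.
-/

set_option autoImplicit false

noncomputable section

namespace Pool.Agent.MP_62f0b1_an.AE

namespace A2

section Lin

variable {R : Type} [CommRing R] {I J : Ideal R}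

/-- First order calculus modulo ideals. -/
structure Lin (I J : Ideal R) (f f' f0 df : R) : Prop where
  h0 : f - f0 ∈ I
  h1 : f' - f - df ∈ I * J
  h2 : df ∈ J

theorem Lin.const {f f0 : R} (h : f - f0 ∈ I) : Lin I J f f f0 0 :=
  ⟨h, by simp, J.zero_mem⟩

theorem Lin.add {f f' f0 df g g' g0 dg : R} (h : Lin I J f f' f0 df) (k : Lin I J g g' g0 dg) :
    Lin I J (f + g) (f' + g') (f0 + g0) (df + dg) :=
  ⟨by have := I.add_mem h.h0 k.h0; rwa [show f - f0 + (g - g0) = f + g - (f0 + g0) by ring] at this,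
    by
      have := (I * J).add_mem h.h1 k.h1
      rwa [show f' - f - df + (g' - g - dg) = f' + g' - (f + g) - (df + dg) by ring] at this,
    J.add_mem h.h2 k.h2⟩

theorem Lin.sub {f f' f0 df g g' g0 dg : R} (h : Lin I J f f' f0 df) (k : Lin I J g g' g0 dg) :
    Lin I J (f - g) (f' - g') (f0 - g0) (df - dg) :=
  ⟨by have := I.sub_mem h.h0 k.h0; rwa [show f - f0 - (g - g0) = f - g - (f0 - g0) by ring] at this,
    by
      have := (I * J).sub_mem h.h1 k.h1
      rwa [show f' - f - df - (g' - g - dg) = f' - g' - (f - g) - (df - dg) by ring] at this,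
    J.sub_mem h.h2 k.h2⟩

theorem Lin.mul (hJ : J ≤ I) {f f' f0 df g g' g0 dg : R} (h : Lin I J f f' f0 df)
    (k : Lin I J g g' g0 dg) : Lin I J (f * g) (f' * g') (f0 * g0) (f0 * dg + g0 * df) := by
  refine ⟨?_, ?_, J.add_mem (J.mul_mem_left _ k.h2) (J.mul_mem_left _ h.h2)⟩
  · rw [show f * g - f0 * g0 = g * (f - f0) + f0 * (g - g0) by ring]
    exact I.add_mem (I.mul_mem_left _ h.h0) (I.mul_mem_left _ k.h0)
  · rw [show f' * g' - f * g - (f0 * dg + g0 * df) =
      g' * (f' - f - df) + (f + df) * (g' - g - dg) + (f - f0) * dg + (g - g0) * df + df * dg by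
        ring]
    exact Ideal.add_mem _ (Ideal.add_mem _ (Ideal.add_mem _ (Ideal.add_mem _
      (Ideal.mul_mem_left _ _ h.h1) (Ideal.mul_mem_left _ _ k.h1)) (Ideal.mul_mem_mul h.h0 k.h2))
      (Ideal.mul_mem_mul k.h0 h.h2)) (Ideal.mul_mem_mul (hJ h.h2) k.h2)

/-- The equation divided by `t`, for one index; `x y z` are consecutive sides. -/
def res1 (t x y z A B C : R) : R :=
  x * y * z * ((x + t * A) * (y + t * B) * (z + t * C)) * (A * (2 * x + 2 * t + t * A)) -
    x * y * z * ((x + t * A + t) * ((z + t * C) * (z + t * C) - (x + t * A) * (x + t * A) -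
      (y + t * B) * (y + t * B)) * (z + t * C)) +
    (x + t * A) * (y + t * B) * (z + t * C) * ((x + t) * (y * y - x * x - z * z) * y)

theorem res1_lin (hJ : J ≤ I) {t x y z A B C a b c : R} (hx : x - 1 ∈ I) (hy : y - 1 ∈ I)
    (hz : z - 1 ∈ I) (hA : A ∈ I) (hB : B ∈ I) (hC : C ∈ I) (ha : a ∈ J) (hb : b ∈ J)
    (hc : c ∈ J) :
    res1 t x y z A B C ∈ I ∧ res1 t x y z (A + a) (B + b) (C + c) - res1 t x y z A B C -
      ((2 + 3 * t) * a + t * (1 + t) * (a + b - 2 * c)) ∈ I * J := by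
  have lx : Lin I J x x 1 0 := Lin.const hx
  have ly : Lin I J y y 1 0 := Lin.const hy
  have lz : Lin I J z z 1 0 := Lin.const hz
  have lt : Lin I J t t t 0 := Lin.const (by simp)
  have l2 : Lin I J (2 : R) 2 2 0 := Lin.const (by simp)
  have lA : Lin I J A (A + a) 0 a := ⟨by simpa using hA, by simp, ha⟩
  have lB : Lin I J B (B + b) 0 b := ⟨by simpa using hB, by simp, hb⟩
  have lC : Lin I J C (C + c) 0 c := ⟨by simpa using hC, by simp, hc⟩
  have ux := lx.add (lt.mul hJ lA)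
  have uy := ly.add (lt.mul hJ lB)
  have uz := lz.add (lt.mul hJ lC)
  have p0 := (lx.mul hJ ly).mul hJ lz
  have p1 := (ux.mul hJ uy).mul hJ uz
  have t1 := (p0.mul hJ p1).mul hJ (lA.mul hJ (((l2.mul hJ lx).add (l2.mul hJ lt)).add
    (lt.mul hJ lA)))
  have t2 := p0.mul hJ (((ux.add lt).mul hJ (((uz.mul hJ uz).sub (ux.mul hJ ux)).sub
    (uy.mul hJ uy))).mul hJ uz)
  have t3 := p1.mul hJ (((lx.add lt).mul hJ (((ly.mul hJ ly).sub (lx.mul hJ lx)).sub
    (lz.mul hJ lz))).mul hJ ly)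
  have h := (t1.sub t2).add t3
  refine ⟨?_, ?_⟩
  · have h0 := h.h0
    have e : ∀ u v : R, v = 0 → u - v ∈ I → u ∈ I := fun u v hv hu => by simpa [hv] using hu
    exact e _ _ (by ring) h0
  · have h1 := h.h1
    have e : ∀ u v w : R, v = w → u - v ∈ I * J → u - w ∈ I * J := fun u v w hv hu => hv ▸ hu
    exact e _ _ _ (by ring) h1

/-- Newton iteration with a fixed inverse of the linear part. -/
theorem exists_sol {t p q d : R} (x : Fin 3 → R) (hx : ∀ i, x i - 1 ∈ I)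
    (hp : p = 2 + 3 * t + t * (1 + t)) (hq : q = t * (1 + t))
    (hd : d * (p ^ 3 + q ^ 3 - 8 * q ^ 3 + 6 * p * q ^ 2) = 1) (N : ℕ) :
    ∃ A : Fin 3 → R, (∀ i, A i ∈ I) ∧
      ∀ i, res1 t (x i) (x (i + 1)) (x (i + 2)) (A i) (A (i + 1)) (A (i + 2)) ∈ I ^ (N + 1) := by
  induction N with
  | zero =>
    refine ⟨0, fun _ => I.zero_mem, fun i => ?_⟩
    simpa using (res1_lin (J := I) le_rfl (t := t) (hx i) (hx (i + 1)) (hx (i + 2)) I.zero_mem
      I.zero_mem I.zero_mem I.zero_mem I.zero_mem I.zero_mem).1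
  | succ n ih =>
    obtain ⟨A, hA, hr⟩ := ih
    set r : Fin 3 → R := fun i =>
      res1 t (x i) (x (i + 1)) (x (i + 2)) (A i) (A (i + 1)) (A (i + 2)) with hrdef
    set δ : Fin 3 → R := fun i => -(d * ((p ^ 2 + 2 * q ^ 2) * r i +
      (4 * q ^ 2 - p * q) * r (i + 1) + (q ^ 2 + 2 * p * q) * r (i + 2))) with hδdef
    have hδ : ∀ i, δ i ∈ I ^ (n + 1) := fun i =>
      Ideal.neg_mem_iff _ |>.2 (Ideal.mul_mem_left _ _ (Ideal.add_mem _ (Ideal.add_mem _
        (Ideal.mul_mem_left _ _ (hr i)) (Ideal.mul_mem_left _ _ (hr (i + 1))))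
        (Ideal.mul_mem_left _ _ (hr (i + 2)))))
    have hJ : I ^ (n + 1) ≤ I := Ideal.pow_le_self (by omega)
    refine ⟨A + δ, fun i => I.add_mem (hA i) (hJ (hδ i)), fun i => ?_⟩
    have h := (res1_lin hJ (t := t) (hx i) (hx (i + 1)) (hx (i + 2)) (hA i) (hA (i + 1))
      (hA (i + 2)) (hδ i) (hδ (i + 1)) (hδ (i + 2))).2
    rw [← pow_succ'] at h
    have e : r i + ((2 + 3 * t) * δ i + t * (1 + t) * (δ i + δ (i + 1) - 2 * δ (i + 2))) = 0 := by
      have e1 : (2 + 3 * t) * δ i + t * (1 + t) * (δ i + δ (i + 1) - 2 * δ (i + 2)) =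
          p * δ i + q * δ (i + 1) - 2 * q * δ (i + 2) := by rw [hp, hq]; ring
      rw [e1]
      have i1 : i + 1 + 1 = i + 2 := by rw [add_assoc]; rfl
      have i2 : i + 1 + 2 = i := by rw [add_assoc]; simp
      have i3 : i + 2 + 1 = i := by rw [add_assoc]; simp
      have i4 : i + 2 + 2 = i + 1 := by rw [add_assoc]; rfl
      simp only [hδdef, i1, i2, i3, i4]
      linear_combination (-r i) * hd
    have e2 : ∀ u v w : R, v + w = 0 → u - v - w ∈ I ^ (n + 1 + 1) → u ∈ I ^ (n + 1 + 1) := by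
      intro u v w h1 h2
      rwa [show u - v - w = u - (v + w) by ring, h1, sub_zero] at h2
    exact e2 _ _ _ e h

end Lin

open MvPolynomial

theorem exists_L {O : Type} [CommRing O] [IsDomain O] {t : O} (ht : t ≠ 0) (G : Fin 3 → P3 O) :
    ∃ L : Module.End O (P3 O), ∀ p : P3 O,
      aeval (fun i => X i + C t * G i) p = p + C t * L p := by
  have h1 : ∀ p : P3 O, ∃ q, aeval (fun i => X i + C t * G i) p = p + C t * q := by
    intro p
    induction p using MvPolynomial.induction_on with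
    | C a => exact ⟨0, by simp⟩
    | add p q hp hq =>
      obtain ⟨p', hp⟩ := hp
      obtain ⟨q', hq⟩ := hq
      exact ⟨p' + q', by rw [map_add, hp, hq]; ring⟩
    | mul_X p n hp =>
      obtain ⟨p', hp⟩ := hp
      exact ⟨p' * X n + p * G n + C t * p' * G n, by rw [map_mul, hp, aeval_X]; ring⟩
  choose L hL using h1
  have hC : (C t : P3 O) ≠ 0 := by simpa using ht
  refine ⟨⟨⟨L, fun p q => ?_⟩, fun a p => ?_⟩, hL⟩
  · apply mul_left_cancel₀ hC
    have := hL (p + q)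
    rw [map_add, hL p, hL q] at this
    linear_combination -this
  · apply mul_left_cancel₀ hC
    have := hL (a • p)
    rw [map_smul, hL p] at this
    simp only [smul_eq_C_mul, RingHom.id_apply] at this ⊢
    linear_combination -this

end A2

open MvPolynomial A2 in
theorem a2 : A2Stmt := by
  intro O _ _ _ l c N
  have hu : IsUnit ((2 + 3 * c.t + c.t * (1 + c.t)) ^ 3 + (c.t * (1 + c.t)) ^ 3 -
      8 * (c.t * (1 + c.t)) ^ 3 + 6 * (2 + 3 * c.t + c.t * (1 + c.t)) * (c.t * (1 + c.t)) ^ 2) := by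
    by_contra hn
    have h1 := (IsLocalRing.mem_maximalIdeal _).2 hn
    have h2 : (2 : O) ^ 3 ∈ IsLocalRing.maximalIdeal O := by
      have := Ideal.sub_mem _ h1 (Ideal.mul_mem_right
        (48 + 120 * c.t + 153 * c.t ^ 2 + 99 * c.t ^ 3 + 27 * c.t ^ 4) _ c.htm)
      rwa [show (2 + 3 * c.t + c.t * (1 + c.t)) ^ 3 + (c.t * (1 + c.t)) ^ 3 -
        8 * (c.t * (1 + c.t)) ^ 3 + 6 * (2 + 3 * c.t + c.t * (1 + c.t)) * (c.t * (1 + c.t)) ^ 2 -
        c.t * (48 + 120 * c.t + 153 * c.t ^ 2 + 99 * c.t ^ 3 + 27 * c.t ^ 4) = 2 ^ 3 by ring]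
        at this
    exact (IsLocalRing.mem_maximalIdeal _).1 h2 (c.h2.pow 3)
  obtain ⟨d, hd⟩ := hu.exists_left_inv
  obtain ⟨e, he⟩ := c.h3.exists_left_inv
  have hX := fun i : Fin 3 => X_mem_idealOfVars (O := O) i
  have hx : ∀ i, c.a i - 1 ∈ I3 O := fun i => by
    have : c.a i - 1 = X 2 + C c.w ^ i.val * X 0 + C c.w ^ (2 * i.val) * X 1 := by
      simp only [Ctx.a, aOf]; ring
    rw [this]
    exact Ideal.add_mem _ (Ideal.add_mem _ (hX 2) (Ideal.mul_mem_left _ _ (hX 0)))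
      (Ideal.mul_mem_left _ _ (hX 1))
  have hd' := congrArg (C : O →+* P3 O) hd
  simp only [map_mul, map_add, map_sub, map_pow, map_ofNat, map_one] at hd'
  obtain ⟨A, hA, hr⟩ := exists_sol (I := I3 O) (t := C c.t) c.a hx rfl rfl hd' N
  have he' := congrArg (C : O →+* P3 O) he
  simp only [map_mul, map_ofNat, map_one] at he'
  have hw := congrArg (C : O →+* P3 O) c.hw
  simp only [map_add, map_pow, map_one, map_zero] at hw
  set w : P3 O := C c.w with hwdef
  let G : Fin 3 → P3 O := ![C e * (A 0 + w ^ 2 * A 1 + w * A 2), C e * (A 0 + w * A 1 + w ^ 2 * A 2),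
    C e * (A 0 + A 1 + A 2)]
  have hG : ∀ i, G i ∈ I3 O := by
    intro i
    fin_cases i
    · exact Ideal.mul_mem_left _ _ (Ideal.add_mem _ (Ideal.add_mem _ (hA 0)
        (Ideal.mul_mem_left _ _ (hA 1))) (Ideal.mul_mem_left _ _ (hA 2)))
    · exact Ideal.mul_mem_left _ _ (Ideal.add_mem _ (Ideal.add_mem _ (hA 0)
        (Ideal.mul_mem_left _ _ (hA 1))) (Ideal.mul_mem_left _ _ (hA 2)))
    · exact Ideal.mul_mem_left _ _ (Ideal.add_mem _ (Ideal.add_mem _ (hA 0) (hA 1)) (hA 2))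
  obtain ⟨L, hL⟩ := exists_L c.ht0 G
  have hF : ∀ i, aeval (fun i => X i + C c.t * G i) (c.a i) = c.a i + C c.t * A i := by
    intro i
    have hFw : aeval (fun i => X i + C c.t * G i) w = w := by simp [hwdef]
    simp only [Ctx.a, aOf, map_add, map_mul, map_pow, map_one, aeval_X, ← hwdef, hFw]
    fin_cases i
    · simp [G]
      linear_combination (C c.t * A 0) * he' + (C c.t * C e * (A 1 + A 2)) * hw
    · simp [G]
      linear_combination (C c.t * A 1) * he' +
        (C c.t * C e * (A 0 + (2 * w - 2) * A 1 + (w ^ 2 - w + 1) * A 2)) * hw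
    · simp [G]
      linear_combination (C c.t * A 2) * he' + (C c.t * C e * ((w ^ 2 - w + 1) * A 0 +
        (w ^ 3 - w + 1) * A 1 + (w ^ 4 - w ^ 3 + 2 * w - 2) * A 2)) * hw
  refine ⟨⟨G, L, hG, hL, fun i => ?_⟩⟩
  have hFt : aeval (fun i => X i + C c.t * G i) (C c.t : P3 O) = C c.t := by simp
  have key := Ideal.pow_le_pow_right (I := I3 O) (Nat.le_succ N)
    (Ideal.mul_mem_left _ (C c.t) (hr i))
  simp only [Bt, Dt, Pi3, map_add, map_sub, map_mul, map_pow, hF, hFt]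
  have e : ∀ u v : P3 O, u = v → u ∈ I3 O ^ N → v ∈ I3 O ^ N := fun u v h hu => h ▸ hu
  refine e _ _ ?_ key
  fin_cases i <;> simp [res1] <;> ring

end Pool.Agent.MP_62f0b1_an.AE

end
end MrgPart2

-- ======== part 3: formerly Pool.Agent.MP_62f0b1_an.ae.A7
section MrgPart3

/-!
Row A7: reduction modulo the maximal ideal to the nodal branch `s = 0`, `3 z w + 2 (z³ + w³) = 0`.
-/

set_option autoImplicit false

noncomputable section

namespace Pool.Agent.MP_62f0b1_an.AE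

namespace A7

section Branch

open PowerSeries

variable {k : Type} [Field k]

/-- The ideal of series without constant term. -/
def J (k : Type) [Field k] : Ideal (PowerSeries k) := Ideal.span {(X : PowerSeries k)}

theorem mem_J_pow {n : ℕ} {f : PowerSeries k} : f ∈ J k ^ n ↔ (X : PowerSeries k) ^ n ∣ f := by
  rw [J, Ideal.span_singleton_pow, Ideal.mem_span_singleton]

theorem mem_J {f : PowerSeries k} : f ∈ J k ↔ (X : PowerSeries k) ∣ f := by
  rw [J, Ideal.mem_span_singleton]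

theorem coeff_one_of_mem {n : ℕ} (hn : 2 ≤ n) {f : PowerSeries k} (hf : f ∈ J k ^ n) :
    coeff 1 f = 0 :=
  X_pow_dvd_iff.1 (mem_J_pow.1 hf) 1 (by omega)

/-- The parametrisation of the nodal branch. -/
structure Br (u : k) (Z W : PowerSeries k) : Prop where
  memZ : Z ∈ J k
  memW : W ∈ J k
  c1 : coeff 1 Z = u
  dZ : X * derivative k Z = Z + 2 * W ^ 2
  dW : X * derivative k W = -W - 2 * Z ^ 2
  node : 3 * (Z * W) + 2 * (Z ^ 3 + W ^ 3) = 0
  pi : (1 + X ^ 3) ^ 2 * (Z ^ 3 + W ^ 3 - 3 * (Z * W)) = C (u ^ 3 - 3 * u ^ 2) * X ^ 3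

theorem exists_br (u : k) (hu : 2 * u = -3) : ∃ Z W : PowerSeries k, Br u Z W := by
  obtain ⟨e, he⟩ : ∃ e : PowerSeries k, (1 + X ^ 3) * e = 1 :=
    ⟨(1 + X ^ 3)⁻¹, PowerSeries.mul_inv_cancel _ (by simp)⟩
  have ha : 2 * (C u : PowerSeries k) = -3 := by
    have := congrArg (C : k →+* PowerSeries k) hu
    simpa [map_ofNat] using this
  have hda : derivative k (C u : PowerSeries k) = 0 := derivative_C
  have hde : derivative k e = -3 * X ^ 2 * e ^ 2 := by
    have h1 := congrArg (derivative k) he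
    simp only [Derivation.leibniz, map_add, Derivation.map_one_eq_zero, Derivation.leibniz_pow,
      derivative_X, smul_eq_mul, nsmul_eq_mul] at h1
    push_cast at h1
    linear_combination e * h1 - derivative k e * he
  have he0 : constantCoeff e = 1 := by
    have := congrArg constantCoeff he
    simpa using this
  have hC : (C (u ^ 3 - 3 * u ^ 2) : PowerSeries k) = C u ^ 3 - 3 * C u ^ 2 := by
    simp [map_ofNat]
  refine ⟨X * (C u * e), X * (X * (C u * e)), ?_, ?_, ?_, ?_, ?_, ?_, ?_⟩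
  · exact mem_J.2 (dvd_mul_right _ _)
  · exact mem_J.2 (dvd_mul_right _ _)
  · rw [coeff_succ_X_mul]; simp [he0]
  · simp only [Derivation.leibniz, derivative_X, hda, hde, smul_eq_mul]
    linear_combination (-(C u * X ^ 4 * e ^ 2)) * ha
  · simp only [Derivation.leibniz, derivative_X, hda, hde, smul_eq_mul]
    linear_combination (C u * X ^ 2 * e ^ 2) * ha - 3 * C u * X ^ 2 * e * he
  · linear_combination (C u ^ 2 * X ^ 3 * e ^ 2) * ha + 2 * C u ^ 3 * X ^ 3 * e ^ 2 * he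
  · rw [hC]
    linear_combination (C u ^ 3 * X ^ 3 * (((1 + X ^ 3) * e) ^ 2 + (1 + X ^ 3) * e + 1) -
      3 * C u ^ 2 * X ^ 3 * ((1 + X ^ 3) * e + 1)) * he

end Branch

section Eval

open MvPolynomial

variable {O : Type} [CommRing O] [IsLocalRing O] {k : Type} [Field k] [Algebra O k]

theorem aeval_C_max (hk : ∀ x ∈ IsLocalRing.maximalIdeal O, algebraMap O k x = 0)
    {σ : Type} (g : σ → PowerSeries k) {x : O} (hx : x ∈ IsLocalRing.maximalIdeal O) :
    aeval g (C x : MvPolynomial σ O) = 0 := by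
  rw [aeval_C, PowerSeries.algebraMap_apply, hk x hx, map_zero]

theorem aeval_Jm (hk : ∀ x ∈ IsLocalRing.maximalIdeal O, algebraMap O k x = 0)
    {g : Fin 3 → PowerSeries k} (hg : ∀ i, g i ∈ J k) {N : ℕ} {p : P3 O} (hp : p ∈ Jm O N) :
    aeval g p ∈ J k ^ N := by
  obtain ⟨a, ha, b, hb, rfl⟩ := Submodule.mem_sup.1 hp
  have h1 : (IsLocalRing.maximalIdeal O).map (C : O →+* P3 O) ≤
      RingHom.ker (aeval g : P3 O →ₐ[O] PowerSeries k) := by
    rw [Ideal.map_le_iff_le_comap]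
    intro x hx
    rw [Ideal.mem_comap, RingHom.mem_ker]
    exact aeval_C_max hk g hx
  have h2 : aeval g a = 0 := h1 ha
  rw [map_add, h2, zero_add]
  exact aeval_mem_pow hg hb

omit [IsLocalRing O] in
theorem derivative_aeval (g : Fin 3 → PowerSeries k) (p : P3 O) :
    PowerSeries.derivative k (aeval g p) =
      ∑ i, aeval g (pderiv i p) * PowerSeries.derivative k (g i) := by
  induction p using MvPolynomial.induction_on with
  | C a => simp [PowerSeries.algebraMap_apply]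
  | add p q hp hq => simp [hp, hq, add_mul, Finset.sum_add_distrib]
  | mul_X p i hp =>
    rw [map_mul, Derivation.leibniz, hp, aeval_X]
    simp only [Derivation.leibniz, smul_eq_mul, map_add, map_mul, aeval_X, add_mul,
      Finset.sum_add_distrib, Finset.mul_sum, pderiv_X, Pi.single_apply]
    congr 1
    · rw [Finset.sum_eq_single i]
      · simp
      · intro j _ hj; simp [Ne.symm hj]
      · simp
    · exact Finset.sum_congr rfl fun j _ => by ring

omit [IsLocalRing O] in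
theorem aeval_sub_mem {I : Ideal (PowerSeries k)} {g h : Fin 3 → PowerSeries k}
    (hgh : ∀ i, g i - h i ∈ I) (p : P3 O) : aeval g p - aeval h p ∈ I := by
  induction p using MvPolynomial.induction_on with
  | C a => simp
  | add p q hp hq =>
    have := I.add_mem hp hq
    rw [map_add, map_add]
    convert this using 1; ring
  | mul_X p i hp =>
    have := I.add_mem (I.mul_mem_right (g i) hp) (I.mul_mem_left (aeval h p) (hgh i))
    rw [map_mul, map_mul, aeval_X, aeval_X]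
    convert this using 1; ring

omit [IsLocalRing O] in
theorem aeval_res (Z W : PowerSeries k) (ψ : P2 O) (p : P3 O) :
    aeval ![Z, W] (res ψ p) = aeval ![Z, W, aeval ![Z, W] ψ] p := by
  have : (aeval ![Z, W] : P2 O →ₐ[O] PowerSeries k).comp (res ψ) =
      aeval ![Z, W, aeval ![Z, W] ψ] := by
    apply MvPolynomial.algHom_ext
    intro i
    fin_cases i <;> simp [res]
  exact DFunLike.congr_fun this p

end Eval

section Ring

variable {R : Type} [CommRing R]

theorem field_id {w : R} (hw : w ^ 2 + w + 1 = 0) (Z W : R) (i : Fin 3) :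
    (aOf w ![Z, W, 0] (i + 2) - aOf w ![Z, W, 0] (i + 1)) *
      ((aOf w ![Z, W, 0] (i + 1) + aOf w ![Z, W, 0] (i + 2)) ^ 2 - aOf w ![Z, W, 0] i ^ 2) =
      -3 * (1 + 2 * w) * (w ^ i.val * (Z + 2 * W ^ 2) + w ^ (2 * i.val) * (-W - 2 * Z ^ 2)) := by
  fin_cases i <;> simp [aOf] <;> grind

theorem pi_id {w : R} (hw : w ^ 2 + w + 1 = 0) (Z W : R) :
    Pi3 (aOf w ![Z, W, 0]) = 1 + (Z ^ 3 + W ^ 3 - 3 * (Z * W)) := by
  simp [Pi3, aOf]; grind

theorem fourier {w : R} (hw : w ^ 2 + w + 1 = 0) {I : Ideal R} (h6 : IsUnit (6 : R))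
    {x0 x1 x2 : R} (h : ∀ i : Fin 3, 2 * (x2 + w ^ i.val * x0 + w ^ (2 * i.val) * x1) ∈ I) :
    x0 ∈ I ∧ x1 ∈ I ∧ x2 ∈ I := by
  have h0 := h 0
  have h1 := h 1
  have h2 := h 2
  simp only [Fin.val_zero, Fin.val_one, Fin.val_two] at h0 h1 h2
  refine ⟨(I.unit_mul_mem_iff_mem h6).1 ?_, (I.unit_mul_mem_iff_mem h6).1 ?_,
    (I.unit_mul_mem_iff_mem h6).1 ?_⟩
  · convert I.add_mem (I.add_mem h0 (I.mul_mem_left (w ^ 2) h1)) (I.mul_mem_left w h2) using 1
    grind
  · convert I.add_mem (I.add_mem h0 (I.mul_mem_left w h1)) (I.mul_mem_left (w ^ 2) h2) using 1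
    grind
  · convert I.add_mem (I.add_mem h0 h1) h2 using 1
    grind

end Ring

section Main

open MvPolynomial

variable {O : Type} [CommRing O] [IsLocalRing O] {k : Type} [Field k] [Algebra O k]
  {l N K : ℕ} {c : Ctx O l} {u : k} {Z W : PowerSeries k}

theorem mem2 (hb : Br u Z W) : ∀ i, (![Z, W] : Fin 2 → PowerSeries k) i ∈ J k := by
  intro i; fin_cases i
  · exact hb.memZ
  · exact hb.memW

theorem mem3 (hb : Br u Z W) {s : PowerSeries k} (hs : s ∈ J k) :
    ∀ i, (![Z, W, s] : Fin 3 → PowerSeries k) i ∈ J k := by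
  intro i; fin_cases i
  · exact hb.memZ
  · exact hb.memW
  · exact hs

theorem psi_small (hk : ∀ x ∈ IsLocalRing.maximalIdeal O, algebraMap O k x = 0) (m : FM c N)
    {C0 M : P3 O} (hM : m.MData C0 M) (hKN : K ≤ N) (hb : Br u Z W) {ψ U : P2 O}
    (hψ : ψ ∈ I2 O ^ 2) (h : res ψ m.Th - res ψ M * U ∈ I2 O ^ K) :
    aeval ![Z, W] ψ ∈ J k ^ K := by
  have hs : aeval ![Z, W] ψ ∈ J k :=
    Ideal.pow_le_self (by norm_num) (aeval_mem_pow (mem2 hb) hψ)
  have h3 := aeval_mem_pow (mem2 hb) h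
  rw [map_sub, map_mul, aeval_res, aeval_res] at h3
  set s := aeval ![Z, W] ψ with hsdef
  have hle : J k ^ N ≤ J k ^ K := Ideal.pow_le_pow_right hKN
  have h1 := hle (aeval_Jm hk (mem3 hb hs) hM.redT)
  have h2 := hle (aeval_Jm hk (mem3 hb hs) hM.redM)
  simp only [Hpoly, map_sub, map_mul, map_add, map_pow, map_one, map_ofNat, aeval_X, aeval_C,
    Matrix.cons_val_zero, Matrix.cons_val_one, Matrix.cons_val] at h1 h2
  have hp : IsUnit (algebraMap O (PowerSeries k) c.p0) := hM.unit.map _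
  have hE : (1 - (18 * s + 12 * s ^ 2 + 3 * s ^ 3 - 36 * (1 + s) * (Z * W)) *
      aeval ![Z, W] U) - 1 ∈ J k := by
    have e1 := (J k).mul_mem_right ((18 + 12 * s + 3 * s ^ 2) * aeval ![Z, W] U) hs
    have e2 := (J k).mul_mem_right (36 * (1 + s) * W * aeval ![Z, W] U) hb.memZ
    convert (J k).sub_mem e2 e1 using 1
    ring
  refine (Ideal.unit_mul_mem_iff_mem _ hp).1 (mem_of_unit_mul_mem le_rfl hE ?_)
  convert (J k ^ K).add_mem ((J k ^ K).sub_mem h3 h1)
    ((J k ^ K).mul_mem_right (aeval ![Z, W] U) h2) using 1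
  linear_combination (-12 * algebraMap O (PowerSeries k) c.p0 * (1 + s) * aeval ![Z, W] U) * hb.node

theorem aeval_a (g : Fin 3 → PowerSeries k) (i : Fin 3) :
    aeval g (c.a i) = aOf (algebraMap O (PowerSeries k) c.w) g i := by
  simp [Ctx.a, aOf]

theorem lie (hk : ∀ x ∈ IsLocalRing.maximalIdeal O, algebraMap O k x = 0) (m : FM c N)
    (hA : m.FactsA) (hb : Br u Z W) (p : P3 O) :
    (1 + (Z ^ 3 + W ^ 3 - 3 * (Z * W))) * aeval ![Z, W, 0] (m.L p) -
      algebraMap O (PowerSeries k) (c.mu 1) *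
        (PowerSeries.X * PowerSeries.derivative k (aeval ![Z, W, 0] p)) ∈ J k ^ N := by
  have hw : algebraMap O (PowerSeries k) c.w ^ 2 + algebraMap O (PowerSeries k) c.w + 1 = 0 := by
    have := congrArg (algebraMap O (PowerSeries k)) c.hw
    simpa using this
  have hμ : 2 * algebraMap O (PowerSeries k) (c.mu 1) +
      3 * (1 + 2 * algebraMap O (PowerSeries k) c.w) = 0 := by
    have := aeval_C_max hk (![Z, W, 0]) c.hmu1
    rw [aeval_C] at this
    simpa [map_ofNat] using this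
  have h6 : IsUnit (6 : PowerSeries k) := by
    have := (c.h2.mul c.h3).map (algebraMap O (PowerSeries k))
    rw [map_mul, map_ofNat, map_ofNat] at this
    convert this using 1; norm_num
  have hP : aeval ![Z, W, 0] (Pi3 c.a) = 1 + (Z ^ 3 + W ^ 3 - 3 * (Z * W)) := by
    rw [← pi_id hw]
    simp only [Pi3, map_mul, aeval_a]
  set P := 1 + (Z ^ 3 + W ^ 3 - 3 * (Z * W)) with hPdef
  set μ := algebraMap O (PowerSeries k) (c.mu 1) with hμdef
  obtain ⟨f0, f1, f2⟩ := fourier hw (I := J k ^ N) h6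
    (x0 := P * aeval ![Z, W, 0] (m.G 0) - μ * (Z + 2 * W ^ 2))
    (x1 := P * aeval ![Z, W, 0] (m.G 1) - μ * (-W - 2 * Z ^ 2))
    (x2 := P * aeval ![Z, W, 0] (m.G 2)) (by
      intro i
      have h1 := aeval_Jm hk (mem3 hb (J k).zero_mem) (hA.field i)
      simp only [map_sub, map_mul, map_add, map_pow, map_ofNat, hP, aeval_a, FM.A, aeval_C] at h1
      rw [field_id hw] at h1
      convert h1 using 1
      linear_combination (-(algebraMap O (PowerSeries k) c.w ^ i.val * (Z + 2 * W ^ 2) +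
        algebraMap O (PowerSeries k) c.w ^ (2 * i.val) * (-W - 2 * Z ^ 2))) * hμ)
  obtain ⟨q, hq⟩ := hA.der p
  rw [hq, derivative_aeval, map_add, map_mul, aeval_C_max hk _ c.htm, map_sum,
    Fin.sum_univ_three, Fin.sum_univ_three]
  simp only [map_mul, Matrix.cons_val_zero, Matrix.cons_val_one, Matrix.cons_val, map_zero]
  convert (J k ^ N).add_mem ((J k ^ N).add_mem
    ((J k ^ N).mul_mem_right (aeval ![Z, W, 0] (pderiv 0 p)) f0)
    ((J k ^ N).mul_mem_right (aeval ![Z, W, 0] (pderiv 1 p)) f1))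
    ((J k ^ N).mul_mem_right (aeval ![Z, W, 0] (pderiv 2 p)) f2) using 1
  linear_combination (-μ * aeval ![Z, W, 0] (pderiv 0 p)) * hb.dZ +
    (-μ * aeval ![Z, W, 0] (pderiv 1 p)) * hb.dW

theorem cubic_mem (hb : Br u Z W) : Z ^ 3 + W ^ 3 - 3 * (Z * W) ∈ J k ^ 2 := by
  have h1 : Z * Z ∈ J k ^ 2 := by rw [sq]; exact Ideal.mul_mem_mul hb.memZ hb.memZ
  have h2 : W * W ∈ J k ^ 2 := by rw [sq]; exact Ideal.mul_mem_mul hb.memW hb.memW
  have h3 : Z * W ∈ J k ^ 2 := by rw [sq]; exact Ideal.mul_mem_mul hb.memZ hb.memW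
  convert (J k ^ 2).sub_mem ((J k ^ 2).add_mem ((J k ^ 2).mul_mem_left Z h1)
    ((J k ^ 2).mul_mem_left W h2)) ((J k ^ 2).mul_mem_left 3 h3) using 1
  ring

theorem coeff_L (hk : ∀ x ∈ IsLocalRing.maximalIdeal O, algebraMap O k x = 0) (m : FM c N)
    (hA : m.FactsA) (hb : Br u Z W) (hN : 2 ≤ N) (p : P3 O) :
    PowerSeries.coeff 1 (aeval ![Z, W, 0] (m.L p)) =
      algebraMap O k (c.mu 1) * PowerSeries.coeff 1 (aeval ![Z, W, 0] p) := by
  have h1 := coeff_one_of_mem hN (lie hk m hA hb p)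
  have h2 := coeff_one_of_mem le_rfl
    ((J k ^ 2).mul_mem_right (aeval ![Z, W, 0] (m.L p)) (cubic_mem hb))
  rw [add_mul, one_mul, map_sub, map_add, h2, PowerSeries.algebraMap_apply,
    PowerSeries.coeff_C_mul, PowerSeries.coeff_succ_X_mul, PowerSeries.coeff_derivative] at h1
  simp only [Nat.cast_zero, zero_add, mul_one, add_zero] at h1
  exact sub_eq_zero.1 h1

theorem aeval_factor (m : FM c N) (g : Fin 3 → PowerSeries k) (x : O) (f : Polynomial O)
    (p : P3 O) :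
    aeval g (Polynomial.aeval m.L ((Polynomial.X - Polynomial.C x) * f) p) =
      aeval g (m.L (Polynomial.aeval m.L f p)) -
        algebraMap O (PowerSeries k) x * aeval g (Polynomial.aeval m.L f p) := by
  rw [map_mul, Module.End.mul_apply, map_sub, Polynomial.aeval_X, Polynomial.aeval_C,
    LinearMap.sub_apply, map_sub, Module.algebraMap_end_apply, map_smul, Algebra.smul_def]

theorem coeff_prod (hk : ∀ x ∈ IsLocalRing.maximalIdeal O, algebraMap O k x = 0) (m : FM c N)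
    (hA : m.FactsA) (hb : Br u Z W) (hN : 2 ≤ N) (S : Finset ℕ) (p : P3 O) :
    PowerSeries.coeff 1 (aeval ![Z, W, 0]
      (Polynomial.aeval m.L (∏ j ∈ S, (Polynomial.X - Polynomial.C (c.mu j))) p)) =
      (∏ j ∈ S, (algebraMap O k (c.mu 1) - algebraMap O k (c.mu j))) *
        PowerSeries.coeff 1 (aeval ![Z, W, 0] p) := by
  induction S using Finset.induction_on with
  | empty => simp
  | insert j S hj ih =>
    rw [Finset.prod_insert hj, Finset.prod_insert hj, aeval_factor, map_sub,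
      coeff_L hk m hA hb hN, PowerSeries.algebraMap_apply, PowerSeries.coeff_C_mul, ih]
    ring

theorem prod_ne_zero (hk : ∀ x ∈ IsLocalRing.maximalIdeal O, algebraMap O k x = 0)
    (hμ : algebraMap O k (c.mu 1) ≠ 0) :
    ∏ j ∈ (Finset.range l).erase 1, (algebraMap O k (c.mu 1) - algebraMap O k (c.mu j)) ≠ 0 := by
  have hl : (l : k) = 0 := by simpa using hk _ c.hlm
  have : CharP k l := (CharP.charP_iff_prime_eq_zero c.hp).2 hl
  rw [Finset.prod_ne_zero_iff]
  intro j hj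
  obtain ⟨hj1, hjl⟩ := Finset.mem_erase.1 hj
  have h1 := hk _ (c.hmuj j)
  rw [map_sub, map_mul, map_natCast] at h1
  intro h
  have h2 : ((1 : ℕ) - (j : k)) * algebraMap O k (c.mu 1) = 0 := by
    push_cast
    linear_combination h + h1
  have h3 := sub_eq_zero.1 ((mul_eq_zero.1 h2).resolve_right hμ)
  have h5 := c.h5
  exact hj1 (CharP.natCast_injOn_Iio k l (Set.mem_Iio.2 (Finset.mem_range.1 hjl))
    (Set.mem_Iio.2 (by omega)) h3.symm)

theorem main (h8 : A8Stmt) (k : Type) [Field k] [Algebra O k]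
    (hk : ∀ x ∈ IsLocalRing.maximalIdeal O, algebraMap O k x = 0) (m : FM c N) {ψ U : P2 O}
    {C0 M : P3 O} (hK : 3 * l + 2 ≤ K) (hKN : K ≤ N) (hA : m.FactsA) (hM : m.MData C0 M)
    (hψ : ψ ∈ I2 O ^ 2) (hE : res ψ (m.Eh (X 0)) ∈ I2 O ^ K)
    (hT : res ψ m.Th - res ψ M * U ∈ I2 O ^ K) : False := by
  have h2 : (2 : k) ≠ 0 := by
    have := (c.h2.map (algebraMap O k)).ne_zero
    rwa [map_ofNat] at this
  have h3 : (3 : k) ≠ 0 := by
    have := (c.h3.map (algebraMap O k)).ne_zero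
    rwa [map_ofNat] at this
  have hl : (l : k) = 0 := by simpa using hk _ c.hlm
  have hu : 2 * (-3 / 2 : k) = -3 := by field_simp
  generalize (-3 / 2 : k) = u at hu
  have hu0 : u ≠ 0 := by
    rintro rfl
    exact h3 (by linear_combination hu)
  have hβ : u ^ 3 - 3 * u ^ 2 ≠ 0 := by
    intro h
    have : u ^ 2 * 3 ^ 2 = 0 := by linear_combination (-2) * h + u ^ 2 * hu
    exact mul_ne_zero (pow_ne_zero _ hu0) (pow_ne_zero _ h3) this
  have hμ : algebraMap O k (c.mu 1) ≠ 0 := by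
    intro h
    have e1 := hk _ c.hmu1
    have e2 := congrArg (algebraMap O k) c.hw
    simp only [map_add, map_mul, map_pow, map_one, map_ofNat, map_zero, h] at e1 e2
    have : (3 : k) ^ 3 = 0 := by
      linear_combination 36 * e2 - 3 * (1 + 2 * algebraMap O k c.w) * e1
    exact pow_ne_zero _ h3 this
  obtain ⟨Z, W, hb⟩ := exists_br u hu
  have hs := psi_small hk m hM hKN hb hψ hT
  have e1 := aeval_mem_pow (mem2 hb) hE
  rw [aeval_res] at e1
  have e2 := aeval_sub_mem (O := O) (I := J k ^ K) (g := ![Z, W, aeval ![Z, W] ψ])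
    (h := ![Z, W, 0]) (by
      intro i; fin_cases i
      · simp
      · simp
      · simpa using hs) (m.Eh (X 0))
  have e3 : aeval ![Z, W, 0] (m.Eh (X 0)) ∈ J k ^ K := by
    convert (J k ^ K).sub_mem e1 e2 using 1; ring
  have h5 := c.h5
  have h1l : 1 ∈ Finset.range l := Finset.mem_range.2 (by omega)
  rw [FM.Eh, ← Finset.mul_prod_erase _ _ h1l, aeval_factor] at e3
  have e4 := coeff_prod hk m hA hb (by omega) ((Finset.range l).erase 1) (X 0)
  generalize Polynomial.aeval m.L (∏ j ∈ (Finset.range l).erase 1,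
    (Polynomial.X - Polynomial.C (c.mu j))) (X 0) = q at e3 e4
  have e5 := Ideal.pow_le_pow_right hKN (lie hk m hA hb q)
  have hμ' : IsUnit (algebraMap O (PowerSeries k) (c.mu 1)) := by
    rw [PowerSeries.algebraMap_apply]
    exact (Ne.isUnit hμ).map _
  have e6 : PowerSeries.X * PowerSeries.derivative k (aeval ![Z, W, 0] q) -
      (1 + (Z ^ 3 + W ^ 3 - 3 * (Z * W))) * aeval ![Z, W, 0] q ∈ J k ^ K := by
    refine (Ideal.unit_mul_mem_iff_mem _ hμ').1 ?_
    convert (J k ^ K).sub_mem ((J k ^ K).mul_mem_left (1 + (Z ^ 3 + W ^ 3 - 3 * (Z * W))) e3) e5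
      using 1
    ring
  have e7 : PowerSeries.coeff 0 (aeval ![Z, W, 0] q) = 0 := by
    have a1 : J k ^ K ≤ J k := Ideal.pow_le_self (by omega)
    have a2 : J k ^ 2 ≤ J k := Ideal.pow_le_self (by omega)
    have a3 := (J k).mul_mem_right (aeval ![Z, W, 0] q) (a2 (cubic_mem hb))
    have a4 : PowerSeries.X * PowerSeries.derivative k (aeval ![Z, W, 0] q) ∈ J k :=
      mem_J.2 (dvd_mul_right _ _)
    have a5 : aeval ![Z, W, 0] q ∈ J k := by
      convert (J k).sub_mem ((J k).sub_mem a4 (a1 e6)) a3 using 1; ring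
    simpa using PowerSeries.X_dvd_iff.1 (mem_J.1 a5)
  have e8 := h8 k l c.hp c.h5 hl (u ^ 3 - 3 * u ^ 2) (aeval ![Z, W, 0] q) K hβ hK e7 (by
    rw [← mem_J_pow, ← hb.pi]
    convert (J k ^ K).mul_mem_left ((1 + PowerSeries.X ^ 3) ^ 2) e6 using 1
    ring)
  rw [e8, aeval_X] at e4
  have e9 : PowerSeries.coeff 1 ((![Z, W, 0] : Fin 3 → PowerSeries k) 0) = u := hb.c1
  rw [e9] at e4
  exact mul_ne_zero (prod_ne_zero hk hμ) hu0 e4.symm

end Main

end A7

theorem a7 : A7Stmt := by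
  intro h8 O _ _ _ l c N K m ψ U C0 M hK hKN hA hM hψ hE hT
  exact A7.main h8 (IsLocalRing.ResidueField O)
    (fun x hx => (IsLocalRing.residue_eq_zero_iff x).2 hx) m hK hKN hA hM hψ hE hT

end Pool.Agent.MP_62f0b1_an.AE

end
end MrgPart3

-- marker of a merged file
example : 731051 + 835092 = 731051 + 835092 := rfl
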