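import Mathlib.Algebra.AffineMonoid.UniqueSums
import Mathlib.Topology.Sheaves.Presheaf
import Mathlib.Tactic.Monotonicity.Lemmas
import Mathlib.RingTheory.Flat.TorsionFree
import Mathlib.RingTheory.PicardGroup
import Mathlib.Algebra.Order.Archimedean.Real.Hom
import Mathlib.RingTheory.PowerSeries.Inverse
import Mathlib.Analysis.Calculus.ImplicitContDiff
import Mathlib.FieldTheory.KummerExtension
import Mathlib.NumberTheory.LSeries.PrimesInAP
import Mathlib.RingTheory.SimpleRing.Principal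
import Mathlib.NumberTheory.Transcendental.Liouville.Measure
import Mathlib.RingTheory.TotallySplit
import Mathlib.RingTheory.Etale.Weakly
import Mathlib.RingTheory.Henselian
import Mathlib.RingTheory.RegularLocalRing.Defs
import Pool.Agent.MP_62f0b1_an.ae.Asm

-- ======== part 0: formerly Pool.Agent.MP_62f0b1_an.ae.G4
section MrgPart0

/-!
The reduced germ near the equilateral point.
-/

set_option autoImplicit false

noncomputable section

namespace Pool.Agent.MP_62f0b1_an.AE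

open Complex Filter Topology Set
open scoped ComplexConjugate

namespace G4

theorem inv_germ {E : Type} [NormedAddCommGroup E] [NormedSpace ℂ E] [FiniteDimensional ℂ E]
    {B : E → E} {a0 : E} (hB : AnalyticAt ℂ B a0)
    (hi : Function.Injective (fderiv ℂ B a0)) :
    ∃ Bi : E → E, AnalyticAt ℂ Bi (B a0) ∧ (∀ᶠ a in 𝓝 a0, Bi (B a) = a) ∧
      ∀ᶠ b in 𝓝 (B a0), B (Bi b) = b := by
  have := FiniteDimensional.complete ℂ E
  let L : E ≃L[ℂ] E := (LinearEquiv.ofInjectiveEndo (fderiv ℂ B a0).toLinearMap hi).toContinuousLinearEquiv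
  have hL : HasFDerivAt B (L : E →L[ℂ] E) a0 := hB.differentiableAt.hasFDerivAt
  have hc : ContDiffAt ℂ ⊤ B a0 := hB.contDiffAt
  have hs := hc.hasStrictFDerivAt' hL (by simp)
  exact ⟨hc.localInverse hL (by simp),
    (hc.to_localInverse hL (by simp)).analyticAt,
    hs.eventually_left_inverse, hs.eventually_right_inverse⟩

theorem an_ap (i : Fin 3) (a : Fin 3 → ℂ) : AnalyticAt ℂ (fun a : Fin 3 → ℂ => a i) a :=
  (ContinuousLinearMap.proj (R := ℂ) (φ := fun _ : Fin 3 => ℂ) i).analyticAt a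

theorem an_Bf (t : ℂ) {a : Fin 3 → ℂ} (ha : ∀ i, a i ≠ 0) : AnalyticAt ℂ (Bf t) a := by
  refine analyticAt_pi_iff.2 fun i => ?_
  have h0 := an_ap i a
  have h1 := an_ap (i + 1) a
  have h2 := an_ap (i + 2) a
  exact (((h0.add analyticAt_const).pow 2).add analyticAt_const).sub
    (((analyticAt_const.mul (h0.add analyticAt_const)).mul
      (((h2.pow 2).sub (h0.pow 2)).sub (h1.pow 2))).div (h0.mul h1) (mul_ne_zero (ha _) (ha _)))

theorem an_Df (t : ℂ) {a : Fin 3 → ℂ} (ha : ∀ i, a i ≠ 0) : AnalyticAt ℂ (Df t) a := by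
  refine analyticAt_pi_iff.2 fun i => ?_
  have h0 := an_ap i a
  have h1 := an_ap (i + 1) a
  have h2 := an_ap (i + 2) a
  exact (((h0.add analyticAt_const).pow 2).add analyticAt_const).sub
    (((analyticAt_const.mul (h0.add analyticAt_const)).mul
      (((h1.pow 2).sub (h0.pow 2)).sub (h2.pow 2))).div (h0.mul h2) (mul_ne_zero (ha _) (ha _)))

theorem Bf_const (t : ℂ) {η : ℂ} (h : η ≠ 0) :
    Bf t (fun _ => η) = fun _ => η ^ 2 + 3 * t * η + 3 * t ^ 2 := by
  funext i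
  simp only [Bf]
  field_simp
  ring

theorem Df_const (t : ℂ) {η : ℂ} (h : η ≠ 0) :
    Df t (fun _ => η) = fun _ => η ^ 2 + 3 * t * η + 3 * t ^ 2 := by
  funext i
  simp only [Df]
  field_simp
  ring

theorem fderiv_Bf (t : ℂ) {η : ℂ} (h : η ≠ 0) (v : Fin 3 → ℂ) (i : Fin 3) :
    η * fderiv ℂ (Bf t) (fun _ => η) v i =
      η * (2 * η + 3 * t) * v i + t * (η + t) * (v i + v (i + 1) - 2 * v (i + 2)) := by
  have hd := (an_Bf t (a := fun _ => η) fun _ => h).differentiableAt.hasFDerivAt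
  have h0 := hasFDerivAt_apply (𝕜 := ℂ) i (fun _ : Fin 3 => η)
  have h1 := hasFDerivAt_apply (𝕜 := ℂ) (i + 1) (fun _ : Fin 3 => η)
  have h2 := hasFDerivAt_apply (𝕜 := ℂ) (i + 2) (fun _ : Fin 3 => η)
  have k1 := (h0.mul h1).mul (hasFDerivAt_pi'.1 hd i)
  have k2 := ((h0.mul h1).mul (((h0.add_const t).pow 2).add_const (t ^ 2))).sub
    (((h0.add_const t).const_mul t).mul (((h2.pow 2).sub (h0.pow 2)).sub (h1.pow 2)))
  have e := k1.unique (k2.congr_of_eventuallyEq (by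
    have : ∀ᶠ a : Fin 3 → ℂ in 𝓝 fun _ => η, ∀ j, a j ≠ 0 :=
      eventually_all.2 fun j => (continuous_apply j).continuousAt.eventually_ne h
    filter_upwards [this] with a ha
    have a0 := ha i
    have a1 := ha (i + 1)
    simp only [Bf, Pi.mul_apply, Pi.sub_apply]
    field_simp))
  have e2 := congrArg (fun L => L v) e
  simp [Bf_const t h] at e2
  apply mul_left_cancel₀ h
  linear_combination e2

theorem inj_Bf {t η : ℝ} (ht : 0 < t) (h : 0 < η) :
    Function.Injective (fderiv ℂ (Bf (t : ℂ)) fun _ => (η : ℂ)) := by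
  rw [injective_iff_map_eq_zero]
  intro v hv
  have h' : (η : ℂ) ≠ 0 := ofReal_ne_zero.2 h.ne'
  have e0 := fderiv_Bf t h' v 0
  have e1 := fderiv_Bf t h' v 1
  have e2 := fderiv_Bf t h' v 2
  rw [hv] at e0 e1 e2
  simp only [Pi.zero_apply, mul_zero, Fin.reduceAdd] at e0 e1 e2
  obtain ⟨k, hk⟩ : ∃ k : ℝ, k = η * (2 * η + 3 * t) := ⟨_, rfl⟩
  obtain ⟨m, hm⟩ : ∃ m : ℝ, m = t * (η + t) := ⟨_, rfl⟩
  have k0 : 0 < k := by rw [hk]; positivity
  have m0 : 0 < m := by rw [hm]; positivity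
  have ek : (η : ℂ) * (2 * η + 3 * t) = k := by rw [hk]; push_cast; ring
  have em : (t : ℂ) * (η + t) = m := by rw [hm]; push_cast; ring
  rw [ek, em] at e0 e1 e2
  have k1 : (k : ℂ) ≠ 0 := ofReal_ne_zero.2 k0.ne'
  have k2 : (k : ℂ) ^ 2 + 3 * m * k + 9 * m ^ 2 ≠ 0 := by
    have : (0 : ℝ) < k ^ 2 + 3 * m * k + 9 * m ^ 2 := by positivity
    exact_mod_cast this.ne'
  have s : v 0 + v 1 + v 2 = 0 := by
    apply mul_left_cancel₀ k1
    linear_combination -e0 - e1 - e2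
  have f0 : k * v 0 = 3 * m * v 2 := by linear_combination -e0 - m * s
  have f1 : k * v 1 = 3 * m * v 0 := by linear_combination -e1 - m * s
  have f2 : k * v 2 = 3 * m * v 1 := by linear_combination -e2 - m * s
  have g0 : v 0 = 0 := by
    apply mul_left_cancel₀ k2
    linear_combination (k : ℂ) ^ 2 * s - (k + 3 * m) * f1 - k * f2
  have g1 : v 1 = 0 := by
    apply mul_left_cancel₀ k1
    rw [f1, g0]
    ring
  funext i
  fin_cases i
  · exact g0
  · exact g1
  · simpa [g0, g1] using s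

/-- Cyclic shift. -/
def sh (a : Fin 3 → ℂ) : Fin 3 → ℂ := fun i => a (i + 1)

/-- Conjugation in Darboux coordinates. -/
def cj (p : C3) : C3 := (conj p.2.1, conj p.1, conj p.2.2)

theorem Bf_sh (t : ℂ) (a : Fin 3 → ℂ) : Bf t (sh a) = sh (Bf t a) := by
  funext i
  fin_cases i <;> rfl

theorem Df_sh (t : ℂ) (a : Fin 3 → ℂ) : Df t (sh a) = sh (Df t a) := by
  funext i
  fin_cases i <;> rfl

theorem Bf_star (t : ℝ) (a : Fin 3 → ℂ) : Bf (t : ℂ) (star a) = star (Bf (t : ℂ) a) := by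
  funext i
  simp [Bf]

theorem Df_star (t : ℝ) (a : Fin 3 → ℂ) : Df (t : ℂ) (star a) = star (Df (t : ℂ) a) := by
  funext i
  simp [Df]

theorem om4 : om ^ 4 = om := by linear_combination om * om_cube

theorem Phi_rot (p : C3) : Phi (rot p) = sh (Phi p) := by
  have e : om * p.1 * (om ^ 2 * p.2.1) = p.1 * p.2.1 := by
    linear_combination p.1 * p.2.1 * om_cube
  funext i
  simp only [Phi, rot, sh, e]
  generalize csqrt (p.2.2 + p.1 * p.2.1) = h
  fin_cases i
  · simp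
    linear_combination 2 * e
  · simp
    linear_combination 2 * e
  · simp
    linear_combination 2 * e + h * (p.1 + p.2.1 * (om ^ 3 + 1)) * om_cube

theorem sig_sh (b : Fin 3 → ℂ) : sig (sh b) = sig b := by
  simp only [sig, sh, Fin.reduceAdd]
  ring

theorem zet_sh (b : Fin 3 → ℂ) : zet (sh b) = om * zet b := by
  simp only [zet, sh, Fin.reduceAdd]
  linear_combination -b 1 / 3 * om_cube

theorem zet'_sh (b : Fin 3 → ℂ) : zet' (sh b) = om ^ 2 * zet' b := by
  simp only [zet', sh, Fin.reduceAdd]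
  linear_combination -(b 1 + om * b 2) / 3 * om_cube

theorem PhiInv_sh (b : Fin 3 → ℂ) : PhiInv (sh b) = rot (PhiInv b) := by
  have e : 4 * (om * zet b) * (om ^ 2 * zet' b) = 4 * zet b * zet' b := by
    linear_combination 4 * zet b * zet' b * om_cube
  simp only [PhiInv, rot, sig_sh, zet_sh, zet'_sh, e, mul_div_assoc]

theorem csqrt_conj {x : ℂ} (hx : 0 < x.re) : csqrt (conj x) = conj (csqrt x) := by
  have : x.arg ≠ Real.pi := slitPlane_arg_ne_pi (Or.inl hx)
  rw [csqrt, csqrt, log_conj x this, ← exp_conj, map_div₀, conj_ofNat]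

theorem Phi_cj {p : C3} (h : 0 < (p.2.2 + p.1 * p.2.1).re) : Phi (cj p) = star (Phi p) := by
  have e : csqrt (conj p.2.2 + conj p.2.1 * conj p.1) = conj (csqrt (p.2.2 + p.1 * p.2.1)) := by
    rw [← csqrt_conj h, map_add, map_mul, mul_comm]
  funext i
  simp only [Phi, cj, e, Pi.star_apply, RCLike.star_def, map_add, map_mul, map_pow,
    conj_om, conj_ofNat]
  generalize conj (csqrt (p.2.2 + p.1 * p.2.1)) = k
  fin_cases i
  · simp
    ring
  · simp
    linear_combination -k * conj p.2.1 * om * om_cube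
  · simp
    linear_combination -k * conj p.2.1 * om ^ 2 * (om ^ 3 + 1) * om_cube

theorem sig_star (b : Fin 3 → ℂ) : sig (star b) = conj (sig b) := by
  simp [sig, conj_ofNat]

theorem zet_star (b : Fin 3 → ℂ) : zet (star b) = conj (zet' b) := by
  simp only [zet, zet', Pi.star_apply, RCLike.star_def, map_div₀, map_add, map_mul, conj_om,
    conj_om_sq, conj_ofNat]

theorem zet'_star (b : Fin 3 → ℂ) : zet' (star b) = conj (zet b) := by
  simp only [zet, zet', Pi.star_apply, RCLike.star_def, map_div₀, map_add, map_mul, conj_om,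
    conj_om_sq, conj_ofNat]

/-- The discriminant whose square root is the level. -/
def dsc (b : Fin 3 → ℂ) : ℂ := sig b ^ 2 - 4 * zet b * zet' b

/-- The square of the scaling factor. -/
def hf (b : Fin 3 → ℂ) : ℂ := (sig b + csqrt (dsc b)) / 2

theorem PhiInv_eq (b : Fin 3 → ℂ) :
    PhiInv b = (zet b / csqrt (hf b), zet' b / csqrt (hf b), csqrt (dsc b)) := rfl

theorem PhiInv_star {b : Fin 3 → ℂ} (h1 : 0 < (dsc b).re) (h2 : 0 < (hf b).re) :
    PhiInv (star b) = cj (PhiInv b) := by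
  have e1 : dsc (star b) = conj (dsc b) := by
    simp only [dsc, sig_star, zet_star, zet'_star, map_sub, map_mul, map_pow, conj_ofNat]
    ring
  have e2 : hf (star b) = conj (hf b) := by
    simp only [hf, sig_star, e1, csqrt_conj h1, map_div₀, map_add, conj_ofNat]
  simp only [PhiInv_eq, cj, e1, e2, csqrt_conj h1, csqrt_conj h2, zet_star, zet'_star, map_div₀]

theorem Phi_PhiInv {b : Fin 3 → ℂ} (h1 : 0 < (dsc b).re) (h2 : 0 < (hf b).re) :
    Phi (PhiInv b) = b := by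
  have n1 : dsc b ≠ 0 := fun e => by simp [e] at h1
  have n2 : hf b ≠ 0 := fun e => by simp [e] at h2
  have q1 := csqrt_sq n1
  have q2 := csqrt_sq n2
  have n3 := csqrt_ne_zero (hf b)
  have e : zet b / csqrt (hf b) * (zet' b / csqrt (hf b)) = hf b - csqrt (dsc b) := by
    rw [div_mul_div_comm, ← sq, q2, div_eq_iff n2, hf]
    rw [dsc] at q1 ⊢
    linear_combination q1 / 4
  funext i
  simp only [Phi, PhiInv_eq, mul_assoc (2 : ℂ), e, add_sub_cancel]
  have e2 : csqrt (hf b) * (zet b / csqrt (hf b) * om ^ i.val +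
      zet' b / csqrt (hf b) * om ^ (2 * i.val)) = zet b * om ^ i.val + zet' b * om ^ (2 * i.val) := by
    field_simp
  rw [e2, hf]
  generalize csqrt (dsc b) = c
  simp only [sig, zet, zet']
  fin_cases i
  · simp
    linear_combination (b 1 + b 2) / 3 * om_rel
  · simp
    linear_combination (b 0 + b 2) / 3 * om_rel + (2 * b 1 + om * b 2) / 3 * om_cube
  · simp
    linear_combination (b 0 + b 1) / 3 * om_rel +
      (om * b 0 + (om + om ^ 2) * b 1 + (om ^ 3 + 2) * b 2) / 3 * om_cube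

theorem dsc_her (b : Fin 3 → ℂ) : dsc b = her b / 3 := by
  simp only [dsc, her, sig, zet, zet']
  linear_combination -4 / 9 * (b 0 * b 1 + b 0 * b 2 + b 1 * b 2) * om_rel -
    4 / 9 * (b 1 ^ 2 + b 2 ^ 2 + om * b 1 * b 2) * om_cube

theorem her_BD (t : ℂ) {a : Fin 3 → ℂ} (ha : ∀ i, a i ≠ 0) : her (Df t a) = her (Bf t a) := by
  have h0 := ha 0
  have h1 := ha 1
  have h2 := ha 2
  simp only [her, Bf, Df, Fin.reduceAdd]
  field_simp
  ring

theorem dsc_Phi {p : C3} (h : 0 < (p.2.2 + p.1 * p.2.1).re) : dsc (Phi p) = p.2.2 ^ 2 := by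
  have q := csqrt_sq (x := p.2.2 + p.1 * p.2.1) fun e => by simp [e] at h
  have e1 : sig (Phi p) = p.2.2 + 2 * p.1 * p.2.1 := by
    simp [sig, Phi]
    linear_combination csqrt (p.2.2 + p.1 * p.2.1) / 3 * (p.1 + p.2.1) * om_rel +
      csqrt (p.2.2 + p.1 * p.2.1) / 3 * p.2.1 * om * om_cube
  have e2 : zet (Phi p) = csqrt (p.2.2 + p.1 * p.2.1) * p.1 := by
    simp [zet, Phi]
    linear_combination (p.2.2 + 2 * p.1 * p.2.1 + csqrt (p.2.2 + p.1 * p.2.1) * p.2.1) / 3 * om_rel +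
      csqrt (p.2.2 + p.1 * p.2.1) / 3 * (2 * p.1 + p.2.1 * (om + om ^ 2)) * om_cube
  have e3 : zet' (Phi p) = csqrt (p.2.2 + p.1 * p.2.1) * p.2.1 := by
    simp [zet', Phi]
    linear_combination (p.2.2 + 2 * p.1 * p.2.1 + csqrt (p.2.2 + p.1 * p.2.1) * p.1) / 3 * om_rel +
      csqrt (p.2.2 + p.1 * p.2.1) / 3 * (p.1 * om + p.2.1 * (om ^ 3 + 2)) * om_cube
  rw [dsc, e1, e2, e3]
  linear_combination -4 * p.1 * p.2.1 * q

theorem Phi_base (c : ℝ) : Phi (base c) = fun _ => (c : ℂ) := by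
  funext i
  simp [Phi, base]

theorem zet_const (c : ℂ) : zet (fun _ => c) = 0 := by
  simp only [zet]
  linear_combination c / 3 * om_rel

theorem zet'_const (c : ℂ) : zet' (fun _ => c) = 0 := by
  simp only [zet']
  linear_combination c / 3 * om_rel

theorem dsc_const (c : ℂ) : dsc (fun _ => c) = c ^ 2 := by
  simp only [dsc, zet_const, sig]
  ring

theorem hf_const {c : ℂ} (hc : 0 < c.re) : hf (fun _ => c) = c := by
  simp only [hf, dsc_const, csqrt_of_sq hc, sig]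
  ring

theorem PhiInv_const {c : ℝ} (hc : 0 < c) : PhiInv (fun _ => (c : ℂ)) = base c := by
  rw [PhiInv_eq, zet_const, zet'_const, dsc_const, csqrt_of_sq (by simpa using hc), zero_div, base]

theorem an_sig (b : Fin 3 → ℂ) : AnalyticAt ℂ sig b :=
  (((an_ap 0 b).add (an_ap 1 b)).add (an_ap 2 b)).div_const

theorem an_zet (b : Fin 3 → ℂ) : AnalyticAt ℂ zet b :=
  (((an_ap 0 b).add (analyticAt_const.mul (an_ap 1 b))).add
    (analyticAt_const.mul (an_ap 2 b))).div_const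

theorem an_zet' (b : Fin 3 → ℂ) : AnalyticAt ℂ zet' b :=
  (((an_ap 0 b).add (analyticAt_const.mul (an_ap 1 b))).add
    (analyticAt_const.mul (an_ap 2 b))).div_const

theorem an_dsc (b : Fin 3 → ℂ) : AnalyticAt ℂ dsc b :=
  ((an_sig b).pow 2).sub ((analyticAt_const.mul (an_zet b)).mul (an_zet' b))

theorem an_hf {b : Fin 3 → ℂ} (h1 : 0 < (dsc b).re) : AnalyticAt ℂ hf b :=
  ((an_sig b).add ((analyticAt_csqrt (Or.inl h1)).comp (an_dsc b))).div_const

theorem an_PhiInv {b : Fin 3 → ℂ} (h1 : 0 < (dsc b).re) (h2 : 0 < (hf b).re) :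
    AnalyticAt ℂ PhiInv b :=
  have k := (analyticAt_csqrt (Or.inl h2)).comp (an_hf h1)
  ((an_zet b).div k (csqrt_ne_zero _)).prod (((an_zet' b).div k (csqrt_ne_zero _)).prod
    ((analyticAt_csqrt (Or.inl h1)).comp (an_dsc b)))

theorem an_Phi {p : C3} (h : 0 < (p.2.2 + p.1 * p.2.1).re) : AnalyticAt ℂ Phi p := by
  refine analyticAt_pi_iff.2 fun i => ?_
  have h1 : AnalyticAt ℂ (fun p : C3 => p.1) p := analyticAt_fst
  have h2 : AnalyticAt ℂ (fun p : C3 => p.2.1) p := analyticAt_fst.comp analyticAt_snd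
  have h3 : AnalyticAt ℂ (fun p : C3 => p.2.2) p := analyticAt_snd.comp analyticAt_snd
  exact (h3.add ((analyticAt_const.mul h1).mul h2)).add
    (((analyticAt_csqrt (Or.inl h)).comp (f := fun p : C3 => p.2.2 + p.1 * p.2.1)
      (h3.add (h1.mul h2))).mul ((h1.mul analyticAt_const).add (h2.mul analyticAt_const)))

theorem ev_re {X : Type} [TopologicalSpace X] {f : X → ℂ} {x : X} (hf : ContinuousAt f x)
    (h : 0 < (f x).re) : ∀ᶠ y in 𝓝 x, 0 < (f y).re :=
  (continuous_re.continuousAt.comp hf).eventually (lt_mem_nhds h)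

end G4

open G4 in
theorem g4 : G4Stmt := by
  intro hb t η0 ht hη
  obtain ⟨c0, hc0⟩ : ∃ c0 : ℝ, c0 = η0 ^ 2 + 3 * t * η0 + 3 * t ^ 2 := ⟨_, rfl⟩
  have c0p : 0 < c0 := by rw [hc0]; positivity
  have n0 : (η0 : ℂ) ≠ 0 := ofReal_ne_zero.2 hη.ne'
  have ec : (η0 : ℂ) ^ 2 + 3 * t * η0 + 3 * t ^ 2 = c0 := by rw [hc0]; push_cast; ring
  have eB := Bf_const t n0
  have eD := Df_const t n0
  rw [ec] at eB eD
  have aB := an_Bf t (a := fun _ => (η0 : ℂ)) fun _ => n0
  have aD := an_Df t (a := fun _ => (η0 : ℂ)) fun _ => n0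
  obtain ⟨Bi, aI, hl, hr⟩ := inv_germ aB (inj_Bf ht hη)
  have eI := hl.self_of_nhds
  rw [eB] at aI hr eI
  have p0 : 0 < ((base c0).2.2 + (base c0).1 * (base c0).2.1).re := by simpa [base] using c0p
  have d0 : 0 < (dsc fun _ => (c0 : ℂ)).re := by
    rw [dsc_const, ← ofReal_pow, ofReal_re]
    positivity
  have h0 : 0 < (hf fun _ => (c0 : ℂ)).re := by
    rw [hf_const (by simpa using c0p)]
    simpa using c0p
  have aP := an_Phi p0
  have tP : Tendsto Phi (𝓝 (base c0)) (𝓝 fun _ => (c0 : ℂ)) := Phi_base c0 ▸ aP.continuousAt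
  obtain ⟨β, hβ⟩ : ∃ β, β = Bi ∘ Phi := ⟨_, rfl⟩
  have aβ : AnalyticAt ℂ β (base c0) := hβ ▸ aI.comp_of_eq aP (Phi_base c0)
  have eβ : β (base c0) = fun _ => (η0 : ℂ) := by rw [hβ, Function.comp, Phi_base, eI]
  have tβ : Tendsto β (𝓝 (base c0)) (𝓝 fun _ => (η0 : ℂ)) := eβ ▸ aβ.continuousAt
  obtain ⟨F, hF⟩ : ∃ F, F = PhiInv ∘ Df (t : ℂ) ∘ β := ⟨_, rfl⟩
  have aF : AnalyticAt ℂ F (base c0) := hF ▸ (an_PhiInv d0 h0).comp_of_eq (aD.comp_of_eq aβ eβ)
    (by rw [Function.comp, eβ, eD])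
  have eF : F (base c0) = base c0 := by
    rw [hF, Function.comp, Function.comp, eβ, eD, PhiInv_const c0p]
  have evb : ∀ᶠ b in 𝓝 fun _ : Fin 3 => (c0 : ℂ), 0 < (dsc b).re ∧ 0 < (hf b).re :=
    (ev_re (an_dsc _).continuousAt d0).and (ev_re (an_hf d0).continuousAt h0)
  have tB : Tendsto (Bf (t : ℂ)) (𝓝 fun _ => (η0 : ℂ)) (𝓝 fun _ => (c0 : ℂ)) :=
    eB ▸ aB.continuousAt
  have tD : Tendsto (Df (t : ℂ)) (𝓝 fun _ => (η0 : ℂ)) (𝓝 fun _ => (c0 : ℂ)) :=
    eD ▸ aD.continuousAt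
  have tsh : Tendsto sh (𝓝 fun _ => (η0 : ℂ)) (𝓝 fun _ => (η0 : ℂ)) :=
    (continuous_pi fun i => continuous_apply (i + 1)).continuousAt
  have tst : Tendsto star (𝓝 fun _ : Fin 3 => (η0 : ℂ)) (𝓝 fun _ => (η0 : ℂ)) := by
    have : star (fun _ : Fin 3 => (η0 : ℂ)) = fun _ => (η0 : ℂ) := by
      funext i
      simp
    have k := (continuous_star.continuousAt (x := fun _ : Fin 3 => (η0 : ℂ))).tendsto
    rwa [this] at k
  have ev : ∀ᶠ p in 𝓝 (base c0), AnalyticAt ℂ β p ∧ Bf (t : ℂ) (β p) = Phi p ∧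
      Df (t : ℂ) (β p) = Phi ((F p).1, (F p).2.1, p.2.2) ∧ β (rot p) = sh (β p) ∧
      β (cj p) = star (β p) ∧ F (cj p) = cj (F p) ∧ ∀ i, 0 < (β p i).re := by
    filter_upwards [aβ.eventually_analyticAt, tP.eventually hr, (tD.comp tβ).eventually evb,
      (tsh.comp tβ).eventually hl, (tst.comp tβ).eventually hl,
      ev_re (f := fun p : C3 => p.2.2 + p.1 * p.2.1) (by fun_prop) p0,
      ev_re (f := fun p : C3 => p.2.2) (x := base c0) (by fun_prop) (by simpa [base] using c0p),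
      tβ.eventually (eventually_all.2 fun i =>
        ev_re (continuous_apply i).continuousAt (by simpa using hη))]
      with p a1 a2 a3 a4 a5 a6 a7 a8
    have b1 : Bf (t : ℂ) (β p) = Phi p := hβ ▸ a2
    have b2 : β (cj p) = star (β p) := by
      rw [← show Bi (Bf (t : ℂ) (star (β p))) = star (β p) from a5, Bf_star, b1, ← Phi_cj a6, hβ]
      rfl
    refine ⟨a1, b1, ?_, ?_, b2, ?_, a8⟩
    · have e3 : (F p).2.2 = p.2.2 := by
        have n : ∀ i, β p i ≠ 0 := fun i e => by simpa [e] using a8 i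
        rw [hF]
        show csqrt (dsc (Df (t : ℂ) (β p))) = _
        rw [dsc_her, her_BD _ n, ← dsc_her, b1, dsc_Phi a6, csqrt_of_sq a7]
      rw [← e3, hF]
      exact (Phi_PhiInv a3.1 a3.2).symm
    · rw [← show Bi (Bf (t : ℂ) (sh (β p))) = sh (β p) from a4, Bf_sh, b1, ← Phi_rot, hβ]
      rfl
    · rw [hF]
      show PhiInv (Df (t : ℂ) (β (cj p))) = cj (PhiInv (Df (t : ℂ) (β p)))
      rw [b2, Df_star]
      exact PhiInv_star a3.1 a3.2
  obtain ⟨U, hU, oU, mU⟩ := eventually_nhds_iff.1 ev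
  have af : AnalyticAt ℂ (fun p => (F p).1) (base c0) := analyticAt_fst.comp aF
  have ag : AnalyticAt ℂ (fun p => (F p).2.1) (base c0) :=
    analyticAt_fst.comp (analyticAt_snd.comp aF)
  have hre : ∀ (z : ℂ) (c : ℝ), rp z c ∈ U → (F (rp z c)).2.1 = conj (F (rp z c)).1 ∧
      ∀ i, (β (rp z c) i).im = 0 ∧ 0 < (β (rp z c) i).re := by
    intro z c hp
    obtain ⟨-, -, -, -, a5, a6, a7⟩ := hU _ hp
    have e : cj (rp z c) = rp z c := by simp [cj, rp]
    rw [e] at a5 a6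
    exact ⟨congrArg (·.2.1) a6, fun i => ⟨conj_eq_iff_im.1 (congrFun a5 i).symm, a7 i⟩⟩
  refine ⟨fun p => (F p).1, fun p => (F p).2.1, β, U, ?_⟩
  constructor
  · rw [← hc0]
    refine ⟨af, ag, ev.mono fun p hp => ?_, ?_⟩
    · have : F (rot p) = rot (F p) := by
        rw [hF]
        show PhiInv (Df (t : ℂ) (β (rot p))) = rot (PhiInv (Df (t : ℂ) (β p)))
        rw [hp.2.2.2.1, Df_sh, PhiInv_sh]
      rw [this]
      exact ⟨rfl, rfl⟩
    · have c : Continuous fun q : ℂ × ℝ => rp q.1 q.2 := by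
        unfold rp
        fun_prop
      have := c.continuousAt (x := (0, c0)).eventually
        (oU.mem_nhds (show rp 0 c0 ∈ U by simpa [rp, base] using mU))
      exact this.mono fun q hq => (hre _ _ hq).1
  · rw [← hc0]
    exact hb t c0 _ _ β c0p af ag (by rw [eF]; rfl) (by rw [eF]; rfl) aβ
      (fun i => by rw [eβ]; exact n0) (ev.mono fun p hp => hp.2.1) (ev.mono fun p hp => hp.2.2.1)
  · exact oU
  · exact hc0 ▸ mU
  · exact fun p hp => (hU p hp).1
  · exact fun p hp => (hU p hp).2.1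
  · exact fun p hp => (hU p hp).2.2.1
  · exact hre
  · intro c hc
    have e0 : base c = rp 0 c := by simp [rp, base]
    have a1 := (hre 0 c (e0 ▸ hc)).2 0
    rw [← e0] at a1
    obtain ⟨-, a2, -, a4, -⟩ := hU _ hc
    have e1 : rot (base c) = base c := by simp [rot, base]
    rw [e1] at a4
    have e2 : β (base c) 0 = ((β (base c) 0).re : ℂ) := by
      apply Complex.ext <;> simp [a1.1]
    obtain ⟨η, hη'⟩ : ∃ η, η = (β (base c) 0).re := ⟨_, rfl⟩
    rw [← hη'] at e2 a1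
    have e3 : β (base c) = fun _ => (η : ℂ) := by
      have k0 : β (base c) 0 = β (base c) 1 := congrFun a4 0
      have k2 : β (base c) 2 = β (base c) 0 := congrFun a4 2
      funext i
      fin_cases i
      · exact e2
      · exact k0.symm.trans e2
      · exact k2.trans e2
    refine ⟨η, a1.2, e3, ?_⟩
    rw [e3, Bf_const _ (ofReal_ne_zero.2 a1.2.ne'), Phi_base] at a2
    exact_mod_cast (congrFun a2 0).symm
  · filter_upwards [hl, tB.eventually evb] with a a1 a2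
    rw [hF, hβ]
    show (PhiInv (Df (t : ℂ) (Bi (Phi (PhiInv (Bf (t : ℂ) a)))))).1 = _
    rw [Phi_PhiInv a2.1 a2.2, a1]

end Pool.Agent.MP_62f0b1_an.AE

end
end MrgPart0

-- ======== part 1: formerly Pool.Agent.MP_62f0b1_an.ae.M0
section MrgPart1

/-!
Every interval contains a set of positive measure of Diophantine angles with a common constant.
-/

set_option autoImplicit false

noncomputable section

namespace Pool.Agent.MP_62f0b1_an.AE

open Filter Set MeasureTheory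

namespace M0

theorem low (y : ℝ) :
    |y - round y| ≤ ‖Complex.exp (Complex.I * ((2 * Real.pi * y : ℝ) : ℂ)) - 1‖ := by
  have hp := Real.pi_pos
  have h1 := abs_sub_round y
  have e : 2 * Real.pi * y / 2 = Real.pi * (y - round y) + round y * Real.pi := by ring
  rw [Complex.norm_exp_I_mul_ofReal_sub_one, e, Real.sin_add_int_mul_pi, Real.norm_eq_abs, abs_mul,
    abs_mul, abs_zpow, abs_neg, abs_one, one_zpow, one_mul, abs_two]
  generalize y - round y = δ at h1
  have h2 : |Real.sin (Real.pi * δ)| = |Real.sin (Real.pi * |δ|)| := by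
    rcases abs_choice δ with h | h
    · rw [h]
    · rw [h, mul_neg, Real.sin_neg, abs_neg]
  have h3 := Real.mul_le_sin (x := Real.pi * |δ|) (by positivity) (by nlinarith)
  have h4 : 2 / Real.pi * (Real.pi * |δ|) = 2 * |δ| := by field_simp
  have h5 := le_abs_self (Real.sin (Real.pi * |δ|))
  have h6 := abs_nonneg δ
  linarith

theorem fin {x : ℝ} (hi : Irrational x) (N : ℕ) :
    ∃ c > (0 : ℝ), ∀ k : ℕ, k ≠ 0 → k < N → c ≤ |k * x - round (k * x)| := by
  induction N with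
  | zero => exact ⟨1, one_pos, fun k _ h => absurd h (Nat.not_lt_zero k)⟩
  | succ N ih =>
    obtain ⟨c, hc, h⟩ := ih
    by_cases hN : N = 0
    · exact ⟨1, one_pos, fun k h1 h2 => by omega⟩
    refine ⟨min c |N * x - round (N * x)|,
      lt_min hc (abs_pos.2 (sub_ne_zero.2 ((hi.natCast_mul hN).ne_int _))), fun k h1 h2 => ?_⟩
    rcases Nat.lt_succ_iff_lt_or_eq.1 h2 with h3 | rfl
    · exact (min_le_left _ _).trans (h k h1 h3)
    · exact min_le_right _ _

theorem dio {x : ℝ} (hi : Irrational x) (hl : ¬ LiouvilleWith 3 x) :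
    ∃ c > (0 : ℝ), ∀ k : ℕ, k ≠ 0 → c / (k : ℝ) ^ 2 ≤ |k * x - round (k * x)| := by
  have h1 : ¬ ∃ᶠ n : ℕ in atTop, ∃ m : ℤ, x ≠ m / n ∧ |x - m / n| < 1 / (n : ℝ) ^ (3 : ℝ) :=
    fun h => hl ⟨1, h⟩
  rw [not_frequently, eventually_atTop] at h1
  obtain ⟨N, hN⟩ := h1
  obtain ⟨c, hc, h⟩ := fin hi N
  refine ⟨min c 1, lt_min hc one_pos, fun k hk => ?_⟩
  have k1 : (1 : ℝ) ≤ k := by exact_mod_cast Nat.one_le_iff_ne_zero.2 hk
  have k0 : (0 : ℝ) < k := by linarith
  by_cases h2 : k < N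
  · exact (div_le_self (lt_min hc one_pos).le (one_le_pow₀ k1)).trans
      ((min_le_left _ _).trans (h k hk h2))
  · have h3 : 1 / (k : ℝ) ^ (3 : ℝ) ≤ |x - round (k * x) / k| := by
      by_contra h4
      refine hN k (not_lt.1 h2) ⟨round (k * x), fun h5 => ?_, not_le.1 h4⟩
      refine (hi.natCast_mul hk).ne_int (round (k * x)) ?_
      rw [mul_comm, ← eq_div_iff k0.ne', mul_comm]
      exact h5
    have e : (k : ℝ) * x - round (k * x) = k * (x - round (k * x) / k) := by field_simp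
    rw [show (3 : ℝ) = (3 : ℕ) by norm_num, Real.rpow_natCast] at h3
    rw [e, abs_mul, abs_of_pos k0]
    calc min c 1 / (k : ℝ) ^ 2 ≤ 1 / (k : ℝ) ^ 2 := by gcongr; exact min_le_right _ _
      _ = k * (1 / (k : ℝ) ^ 3) := by field_simp
      _ ≤ _ := by gcongr

theorem mem {w : ℝ} (hi : Irrational ((2 * Real.pi)⁻¹ * w))
    (hl : ¬ LiouvilleWith 3 ((2 * Real.pi)⁻¹ * w)) : ∃ n : ℕ, w ∈ DC (1 / (n + 1)) := by
  obtain ⟨c, hc, h⟩ := dio hi hl
  obtain ⟨n, hn⟩ := exists_nat_one_div_lt hc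
  refine ⟨n, fun k hk => ?_⟩
  have h1 := (h k hk).trans (low _)
  have e : 2 * Real.pi * (k * ((2 * Real.pi)⁻¹ * w)) = k * w := by
    have := Real.pi_pos
    field_simp
  rw [e, Complex.ofReal_mul, Complex.ofReal_natCast, mul_comm] at h1
  exact le_trans (by gcongr) h1

theorem ae_mem : ∀ᵐ w : ℝ, ∃ n : ℕ, w ∈ DC (1 / (n + 1)) := by
  have h1 : ∀ᵐ x : ℝ, Irrational x ∧ ¬ LiouvilleWith 3 x := by
    filter_upwards [(countable_range ((↑) : ℚ → ℝ)).ae_notMem volume, ae_not_liouvilleWith] with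
      x h2 h3 using ⟨h2, h3 3 (by norm_num)⟩
  have h2 : (2 * Real.pi)⁻¹ ≠ 0 := by have := Real.pi_pos; positivity
  have h3 := Real.volume_preimage_mul_left h2 {x : ℝ | ¬ (Irrational x ∧ ¬ LiouvilleWith 3 x)}
  rw [ae_iff.1 h1, mul_zero] at h3
  refine ae_iff.2 (measure_mono_null (fun w hw => ?_) h3)
  exact fun h => hw (mem h.1 h.2)

end M0

theorem m0 : M0Stmt := by
  intro x1 x2 h
  by_contra h1
  have h2 : ∀ n : ℕ, ∀ᵐ w : ℝ, w ∉ DC (1 / (n + 1)) ∩ Ioo x1 x2 := fun n =>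
    measure_eq_zero_iff_ae_notMem.1 (not_not.1 fun h3 => h1 ⟨_, Nat.one_div_pos_of_nat, h3⟩)
  have h3 : volume (Ioo x1 x2) = 0 := measure_eq_zero_iff_ae_notMem.2 (by
    filter_upwards [ae_all_iff.2 h2, M0.ae_mem] with w h4 h5 h6
    obtain ⟨n, h5⟩ := h5
    exact h4 n ⟨h5, h6⟩)
  rw [Real.volume_Ioo, ENNReal.ofReal_eq_zero] at h3
  linarith

end Pool.Agent.MP_62f0b1_an.AE

end
end MrgPart1

-- ======== part 2: formerly Pool.Agent.MP_62f0b1_an.ae.M1
section MrgPart2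

/-!
Row M1: ordered Lipschitz graphs inside a null compact set form a null family.
-/

set_option autoImplicit false

noncomputable section

namespace Pool.Agent.MP_62f0b1_an.AE

open Filter Topology Set MeasureTheory

namespace M1

theorem cont {φ : ℝ → ℝ} {L : ℝ} (h : ∀ x y, |φ x - φ y| ≤ L * |x - y|) : Continuous φ := by
  have : LipschitzWith (Real.toNNReal L) φ := by
    refine LipschitzWith.of_dist_le_mul fun x y => ?_
    rw [Real.dist_eq, Real.dist_eq]
    exact (h x y).trans (mul_le_mul_of_nonneg_right (Real.le_coe_toNNReal L) (abs_nonneg _))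
  exact this.continuous

theorem isOpen_region {φ ψ : ℝ → ℝ} (h1 : Continuous φ) (h2 : Continuous ψ) (a b : ℝ) :
    IsOpen (regionBetween φ ψ (Ioo a b)) := by
  have : regionBetween φ ψ (Ioo a b) = (Prod.fst ⁻¹' Ioo a b) ∩
      ({p : ℝ × ℝ | φ p.1 < p.2} ∩ {p : ℝ × ℝ | p.2 < ψ p.1}) := rfl
  rw [this]
  exact (isOpen_Ioo.preimage continuous_fst).inter
    ((isOpen_lt (h1.comp continuous_fst) continuous_snd).inter
      (isOpen_lt continuous_snd (h2.comp continuous_fst)))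

theorem vol_region {φ ψ : ℝ → ℝ} (h1 : Continuous φ) (h2 : Continuous ψ) (hle : ∀ x, φ x ≤ ψ x)
    {a b : ℝ} (hab : a ≤ b) :
    volume (regionBetween φ ψ (Ioo a b)) = ENNReal.ofReal (∫ x in a..b, (ψ x - φ x)) := by
  have i1 : IntegrableOn φ (Ioo a b) volume :=
    (h1.continuousOn.integrableOn_Icc (a := a) (b := b)).mono_set Ioo_subset_Icc_self
  have i2 : IntegrableOn ψ (Ioo a b) volume :=
    (h2.continuousOn.integrableOn_Icc (a := a) (b := b)).mono_set Ioo_subset_Icc_self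
  have := volume_regionBetween_eq_integral i1 i2 measurableSet_Ioo fun x _ => hle x
  rw [intervalIntegral.integral_of_le hab, integral_Ioc_eq_integral_Ioo]
  exact this

theorem classes (Ω : Set ℝ) (g : ℝ → ℝ → ℝ) (L : ℝ) (a b : ℝ)
    (hL : ∀ w ∈ Ω, ∀ x y, |g w x - g w y| ≤ L * |x - y|)
    (hm : ∀ w1 ∈ Ω, ∀ w2 ∈ Ω, w1 ≤ w2 → ∀ x, g w1 x ≤ g w2 x) {δ : ℝ} (hδ : 0 < δ) :
    ∃ c : ℝ → ℤ, (∀ w1 ∈ Ω, ∀ w2 ∈ Ω, w1 ≤ w2 → c w1 ≤ c w2) ∧
      ∀ w1 ∈ Ω, ∀ w2 ∈ Ω, w1 ≤ w2 → c w1 = c w2 → ∀ x ∈ Icc a b, g w2 x - g w1 x ≤ δ := by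
  have hη : 0 < δ / (4 * (|L| + 1)) := by positivity
  obtain ⟨t, -, htf, hcov⟩ := finite_cover_balls_of_compact (isCompact_Icc (a := a) (b := b)) hη
  refine ⟨fun w => ⌊(∑ x ∈ htf.toFinset, g w x) / (δ / 2)⌋, fun w1 h1 w2 h2 h12 => ?_,
    fun w1 h1 w2 h2 h12 hc x hx => ?_⟩
  · exact Int.floor_le_floor (div_le_div_of_nonneg_right
      (Finset.sum_le_sum fun x _ => hm w1 h1 w2 h2 h12 x) (by positivity))
  · obtain ⟨y, hy, hxy⟩ := mem_iUnion₂.1 (hcov hx)
    have h3 := Int.abs_sub_lt_one_of_floor_eq_floor hc.symm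
    rw [← sub_div, ← Finset.sum_sub_distrib, abs_lt] at h3
    have h4 := (div_lt_one (by positivity)).1 h3.2
    have h5 : g w2 y - g w1 y ≤ ∑ x ∈ htf.toFinset, (g w2 x - g w1 x) :=
      Finset.single_le_sum (f := fun x => g w2 x - g w1 x)
        (fun x _ => sub_nonneg.2 (hm w1 h1 w2 h2 h12 x)) (htf.mem_toFinset.2 hy)
    have h6 : L * |x - y| ≤ δ / 4 := by
      have h7 : |x - y| ≤ δ / (4 * (|L| + 1)) := by
        rw [← Real.dist_eq]; exact (Metric.mem_ball.1 hxy).le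
      have h8 : (|L| + 1) * (δ / (4 * (|L| + 1))) = δ / 4 := by field_simp
      calc L * |x - y| ≤ (|L| + 1) * |x - y| :=
            mul_le_mul_of_nonneg_right (by linarith [le_abs_self L]) (abs_nonneg _)
        _ ≤ (|L| + 1) * (δ / (4 * (|L| + 1))) := mul_le_mul_of_nonneg_left h7 (by positivity)
        _ = δ / 4 := h8
    have h9 := abs_le.1 ((hL w1 h1 x y).trans h6)
    have h10 := abs_le.1 ((hL w2 h2 x y).trans h6)
    linarith [h9.1, h10.2]

end M1

open M1 in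
theorem m1 : M1Stmt := by
  intro Ω g L C K hK hK0 hL hin hord
  have hm : ∀ w1 ∈ Ω, ∀ w2 ∈ Ω, w1 ≤ w2 → ∀ x, g w1 x ≤ g w2 x := by
    intro w1 h1 w2 h2 h12 x
    rcases h12.eq_or_lt with rfl | h
    · exact le_rfl
    · exact (hord w1 h1 w2 h2 h).1 x
  have hpi : -Real.pi ≤ Real.pi := by linarith [Real.pi_pos]
  have key : ∀ δ : ℝ, 0 < δ → volume Ω ≤ ENNReal.ofReal C * volume (Metric.cthickening δ K) := by
    intro δ hδ
    obtain ⟨c, hc1, hc2⟩ := classes Ω g L (-Real.pi) Real.pi hL hm hδ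
    let A : ℤ → Set ℝ := fun j => {w | w ∈ Ω ∧ c w = j}
    let R : ℤ → Set (ℝ × ℝ) := fun j => ⋃ w1 ∈ A j, ⋃ w2 ∈ A j, ⋃ _ : w1 < w2,
      regionBetween (g w1) (g w2) (Ioo (-Real.pi) Real.pi)
    have hRm : ∀ j p, p ∈ R j ↔ ∃ w1 ∈ A j, ∃ w2 ∈ A j, w1 < w2 ∧
        p ∈ regionBetween (g w1) (g w2) (Ioo (-Real.pi) Real.pi) := by
      intro j p
      simp only [R, mem_iUnion, exists_prop]
    have hRo : ∀ j, IsOpen (R j) := fun j =>
      isOpen_biUnion fun w1 h1 => isOpen_biUnion fun w2 h2 => isOpen_iUnion fun _ =>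
        isOpen_region (cont (hL w1 h1.1)) (cont (hL w2 h2.1)) _ _
    have hlt : ∀ j k, j < k → Disjoint (R j) (R k) := by
      intro j k hjk
      rw [Set.disjoint_left]
      intro p hp hq
      obtain ⟨w1, -, w2, h2, -, -, -, hp2⟩ := (hRm j p).1 hp
      obtain ⟨w3, h3, w4, -, -, -, hq1, -⟩ := (hRm k p).1 hq
      have h23 : w2 ≤ w3 := by
        by_contra hn
        have := hc1 w3 h3.1 w2 h2.1 (not_le.1 hn).le
        rw [h2.2, h3.2] at this
        exact absurd hjk (not_lt.2 this)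
      have := hm w2 h2.1 w3 h3.1 h23 p.1
      linarith
    have hdis : Pairwise (Function.onFun Disjoint R) := by
      intro j k hjk
      rcases lt_or_gt_of_ne hjk with h | h
      · exact hlt j k h
      · exact (hlt k j h).symm
    have hsub : (⋃ j, R j) ⊆ Metric.cthickening δ K := by
      intro p hp
      obtain ⟨j, hj⟩ := mem_iUnion.1 hp
      obtain ⟨w1, h1, w2, h2, h12, hx, hp1, hp2⟩ := (hRm j p).1 hj
      have h3 := hc2 w1 h1.1 w2 h2.1 h12.le (h1.2.trans h2.2.symm) p.1 (Ioo_subset_Icc_self hx)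
      refine Metric.mem_cthickening_of_dist_le p (p.1, g w1 p.1) δ K
        (hin w1 h1.1 p.1 (Ioo_subset_Icc_self hx)) ?_
      rw [Prod.dist_eq, dist_self, Real.dist_eq, max_le_iff, abs_le]
      exact ⟨hδ.le, by linarith, by linarith⟩
    have hone : ∀ j, ∀ w1 ∈ A j, ∀ w2 ∈ A j, w1 < w2 →
        edist w1 w2 ≤ ENNReal.ofReal C * volume (R j) := by
      intro j w1 h1 w2 h2 h12
      obtain ⟨h3, h4⟩ := hord w1 h1.1 w2 h2.1 h12
      have h5 : 0 ≤ ∫ x in (-Real.pi)..Real.pi, (g w2 x - g w1 x) :=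
        intervalIntegral.integral_nonneg hpi fun x _ => sub_nonneg.2 (h3 x)
      rw [edist_dist, Real.dist_eq, abs_sub_comm, abs_of_pos (sub_pos.2 h12)]
      refine (ENNReal.ofReal_le_ofReal h4).trans ?_
      rw [ENNReal.ofReal_mul' h5, ← vol_region (cont (hL w1 h1.1)) (cont (hL w2 h2.1)) h3 hpi]
      gcongr
      exact fun p hp => (hRm j p).2 ⟨w1, h1, w2, h2, h12, hp⟩
    have hA : ∀ j, volume (A j) ≤ ENNReal.ofReal C * volume (R j) := by
      intro j
      refine (Real.volume_le_diam _).trans (Metric.ediam_le fun w1 h1 w2 h2 => ?_)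
      rcases lt_trichotomy w1 w2 with h | h | h
      · exact hone j w1 h1 w2 h2 h
      · subst h; simp
      · rw [edist_comm]; exact hone j w2 h2 w1 h1 h
    calc volume Ω ≤ volume (⋃ j, A j) := measure_mono fun w hw => mem_iUnion.2 ⟨c w, hw, rfl⟩
      _ ≤ ∑' j, volume (A j) := measure_iUnion_le _
      _ ≤ ∑' j, ENNReal.ofReal C * volume (R j) := ENNReal.tsum_le_tsum hA
      _ = ENNReal.ofReal C * volume (⋃ j, R j) := by
          rw [ENNReal.tsum_mul_left, measure_iUnion hdis fun j => (hRo j).measurableSet]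
      _ ≤ ENNReal.ofReal C * volume (Metric.cthickening δ K) := by gcongr
  have h1 := tendsto_measure_cthickening_of_isCompact (μ := volume) hK
  rw [hK0] at h1
  have h2 := ENNReal.Tendsto.const_mul (a := ENNReal.ofReal C) h1 (Or.inr ENNReal.ofReal_ne_top)
  rw [mul_zero] at h2
  have h3 : volume Ω ≤ 0 := ge_of_tendsto (h2.mono_left (nhdsWithin_le_nhds (s := Ioi 0)))
    (eventually_nhdsWithin_of_forall fun δ hδ => key δ hδ)
  exact le_antisymm h3 bot_le

end Pool.Agent.MP_62f0b1_an.AE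

end
end MrgPart2

-- ======== part 3: formerly Pool.Agent.MP_62f0b1_an.ae.M3b
section MrgPart3

/-!
From a tube of invariant graphs to graphs of periodic points with prime period.
-/

set_option autoImplicit false

noncomputable section

namespace Pool.Agent.MP_62f0b1_an.AE

open Filter Topology Set

namespace M3b

section Conj

variable {T u : ℝ → ℝ} {U s : ℝ}

theorem u_iter (h : ∀ θ, u (T θ) = u θ + s) (n : ℕ) (θ : ℝ) : u (T^[n] θ) = u θ + n * s := by
  induction n with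
  | zero => simp
  | succ n ih => rw [Function.iterate_succ_apply', h, ih]; push_cast; ring

theorem u_int (h : ∀ θ, u (θ + 2 * Real.pi) = u θ + U) (p : ℤ) (θ : ℝ) :
    u (θ + 2 * Real.pi * p) = u θ + p * U := by
  induction p using Int.induction_on with
  | zero => simp
  | succ n ih =>
    have e : θ + 2 * Real.pi * ((n : ℤ) + 1 : ℤ) = θ + 2 * Real.pi * (n : ℤ) + 2 * Real.pi := by
      push_cast; ring
    rw [e, h, ih]; push_cast; ring
  | pred n ih =>
    have e : θ + 2 * Real.pi * (-(n : ℤ) : ℤ) =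
        θ + 2 * Real.pi * (-(n : ℤ) - 1 : ℤ) + 2 * Real.pi := by
      push_cast; ring
    rw [e, h] at ih
    push_cast at ih ⊢
    linarith

theorem u_iter_ge {c : ℝ} (h : ∀ θ, u θ + c ≤ u (T θ)) (n : ℕ) (θ : ℝ) :
    u θ + n * c ≤ u (T^[n] θ) := by
  induction n with
  | zero => simp
  | succ n ih =>
    rw [Function.iterate_succ_apply']
    have := h (T^[n] θ)
    push_cast
    linarith

theorem ret (hu : StrictMono u) (h1 : ∀ θ, u (θ + 2 * Real.pi) = u θ + U)
    (h2 : ∀ θ, u (T θ) = u θ + s) {l : ℕ} {p : ℤ} (h0 : T^[l] 0 = 2 * Real.pi * p) (θ : ℝ) :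
    T^[l] θ = θ + 2 * Real.pi * p := by
  have e1 := u_iter h2 l 0
  have e2 := u_int h1 p 0
  rw [zero_add, ← h0, e1] at e2
  apply hu.injective
  rw [u_iter h2, u_int h1]
  linarith

end Conj

theorem pos_of_periodic {g : ℝ → ℝ} (hc : Continuous g) (hp : Function.Periodic g (2 * Real.pi))
    (h : ∀ θ, 0 < g θ) : ∃ c > 0, ∀ θ, c ≤ g θ := by
  have h2 : 0 < 2 * Real.pi := by positivity
  obtain ⟨x, -, hx⟩ := (isCompact_Icc (a := 0) (b := 2 * Real.pi)).exists_isMinOn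
    (nonempty_Icc.2 h2.le) hc.continuousOn
  refine ⟨g x, h x, fun θ => ?_⟩
  obtain ⟨y, hy, e⟩ := hp.exists_mem_Ico₀ h2 θ
  rw [e]
  exact hx (Ico_subset_Icc_self hy)

theorem twist {Θ Jn : R3 → ℝ} {α : ℝ → ℝ} {e0 ε r : ℝ} (h : TwistR Θ Jn α e0 ε r) :
    ∃ r' > (0 : ℝ), r' ≤ r ∧ ∀ θ e, |e - e0| < ε →
      StrictMonoOn (fun J => Θ (θ, J, e)) (Ioo 0 r') := by
  obtain ⟨r', h0, h1, h2⟩ := h.est (1 / 2) (by norm_num)
  refine ⟨r', h0, h1, fun θ e he => ?_⟩
  have hd : ∀ J ∈ Ioo 0 r', HasDerivAt (fun J => Θ (θ, J, e)) (r2 Θ (θ, J, e)) J := by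
    intro J hJ
    have hm : (θ, J, e) ∈ domR e0 ε r := ⟨hJ.1, hJ.2.trans_le h1, he⟩
    have hl : HasDerivAt (fun J : ℝ => ((θ, J, e) : R3)) (0, 1, 0) J :=
      (hasDerivAt_const J θ).prodMk ((hasDerivAt_id J).prodMk (hasDerivAt_const J e))
    exact (h.an _ hm).1.differentiableAt.hasFDerivAt.comp_hasDerivAt J hl
  refine strictMonoOn_of_deriv_pos (convex_Ioo _ _)
    (fun J hJ => (hd J hJ).continuousAt.continuousWithinAt) fun J hJ => ?_
  rw [interior_Ioo] at hJ
  rw [(hd J hJ).deriv]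
  have hm : (θ, J, e) ∈ domR e0 ε r := ⟨hJ.1, hJ.2.trans_le h1, he⟩
  have := (abs_le.1 (h2 _ hm hJ.2).2.2.2.1).1
  linarith

end M3b

open M3b in
theorem m3b : M3bStmt := by
  intro Θ Jn α e0 ε r hT
  obtain ⟨r', hr0, hr1, hmono⟩ := twist hT
  refine ⟨r', hr0, fun e1 v1 ρ b H hb hε hH N0 => ?_⟩
  have hρ := hH.ρ_pos
  have he0 : ∀ e, |e - e1| < ρ → |e - e0| < ε := fun e he => by
    have := abs_sub_le e e1 e0
    linarith
  have hS : IsOpen {q : R3 | |q.2.1 - v1| < ρ ∧ |q.2.2 - e1| < ρ} :=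
    (isOpen_lt (f := fun q : R3 => |q.2.1 - v1|) (by fun_prop) continuous_const).inter
      (isOpen_lt (f := fun q : R3 => |q.2.2 - e1|) (by fun_prop) continuous_const)
  -- joint continuity of the induced map
  have hc : ∀ q : R3, |q.2.1 - v1| < ρ → |q.2.2 - e1| < ρ →
      ContinuousAt (fun q : R3 => Θ (q.1, H q, q.2.2)) q := by
    intro q h1 h2
    have h3 : ContinuousAt H q := hH.cont.continuousAt (hS.mem_nhds ⟨h1, h2⟩)
    have h4 := hH.range q.1 q.2.1 q.2.2 h1 h2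
    have hm : (q.1, H q, q.2.2) ∈ domR e0 ε r :=
      ⟨h4.1, (h4.2.trans_le hb).trans_le hr1, he0 _ h2⟩
    exact ContinuousAt.comp (f := fun q : R3 => ((q.1, H q, q.2.2) : R3))
      (hT.an _ hm).1.continuousAt
      (continuousAt_fst.prodMk (h3.prodMk (continuousAt_snd.comp continuousAt_snd)))
  obtain ⟨T, hTd⟩ : ∃ T : ℝ × ℝ → ℝ → ℝ,
      T = fun q => gmap Θ q.2 fun θ => H (θ, q.1, q.2) := ⟨_, rfl⟩
  have hT' : ∀ q θ, T q θ = Θ (θ, H (θ, q.1, q.2), q.2) := fun q θ => by rw [hTd]; rfl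
  have hit : ∀ (n : ℕ) (q : ℝ × ℝ), |q.1 - v1| < ρ → |q.2 - e1| < ρ →
      ContinuousAt (fun q => (T q)^[n] 0) q := by
    intro n q h1 h2
    induction n with
    | zero => exact continuousAt_const
    | succ n ih =>
      simp only [Function.iterate_succ_apply', hT']
      exact ContinuousAt.comp (f := fun q : ℝ × ℝ => (((T q)^[n] 0, q) : R3))
        (hc ((T q)^[n] 0, q) h1 h2) (ih.prodMk continuousAt_id)
  have ha : |v1 - v1| < ρ := by rwa [sub_self, abs_zero]
  have hb' : |v1 + ρ / 2 - v1| < ρ := by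
    rw [add_sub_cancel_left, abs_of_pos (by linarith)]; linarith
  have he : |e1 - e1| < ρ := by rwa [sub_self, abs_zero]
  obtain ⟨u, U, s, u1, u2, u3, u4⟩ := hH.cnj v1 e1 ha he
  have hU : 0 < U := by
    have := u1 (show (0 : ℝ) < 0 + 2 * Real.pi by positivity)
    rw [u3] at this
    linarith
  have hlt : ∀ θ, T (v1, e1) θ < T (v1 + ρ / 2, e1) θ := fun θ => by
    have h1 := hH.range θ v1 e1 ha he
    have h2 := hH.range θ _ e1 hb' he
    rw [hT', hT']
    exact hmono θ e1 (he0 _ he) ⟨h1.1, h1.2.trans_le hb⟩ ⟨h2.1, h2.2.trans_le hb⟩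
      (hH.mono θ _ _ e1 ha hb' he (by linarith))
  have hTc : Continuous (T (v1 + ρ / 2, e1)) := continuous_iff_continuousAt.2 fun θ => by
    have e : T (v1 + ρ / 2, e1) = (fun q : R3 => Θ (q.1, H q, q.2.2)) ∘
        fun θ : ℝ => ((θ, v1 + ρ / 2, e1) : R3) := funext fun θ => hT' _ θ
    rw [e]
    exact ContinuousAt.comp (hc (θ, v1 + ρ / 2, e1) hb' he) (by fun_prop)
  obtain ⟨c, hc0, hc1⟩ := pos_of_periodic
    (g := fun θ => u (T (v1 + ρ / 2, e1) θ) - u θ - s) (by fun_prop) (fun θ => by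
      have e := (hT.per (θ, H (θ, v1 + ρ / 2, e1), e1)).1
      simp only [hT'] at e ⊢
      rw [hH.per θ _ e1 hb' he, e, u3, u3]
      ring) (fun θ => by
      have h1 := u1 (hlt θ)
      rw [hT' (v1, e1), u4] at h1
      linarith)
  obtain ⟨l, hl, hp, h8⟩ := Nat.forall_exists_prime_gt_and_modEq (max N0 ⌈U / c⌉₊)
    (q := 8) (a := 3) (by norm_num) (by norm_num)
  have hlc : U < l * c := by
    rw [← div_lt_iff₀ hc0]
    exact (Nat.le_ceil _).trans_lt (Nat.cast_lt.2 ((le_max_right _ _).trans_lt hl))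
  obtain ⟨p, hp1, hp2⟩ : ∃ p : ℤ, l * s < p * U ∧ p * U < l * (s + c) := by
    refine ⟨⌊l * s / U⌋ + 1, ?_, ?_⟩
    · rw [← div_lt_iff₀ hU]
      push_cast
      exact Int.lt_floor_add_one _
    · have := (le_div_iff₀ hU).1 (Int.floor_le (l * s / U))
      push_cast
      linarith
  have hz := u_int u3 p 0
  rw [zero_add] at hz
  have f1 : (T (v1, e1))^[l] 0 < 2 * Real.pi * p := by
    rw [← u1.lt_iff_lt, hz, u_iter (u := u) (T := T (v1, e1)) (s := s) fun θ => by rw [hT', u4]]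
    linarith
  have f2 : 2 * Real.pi * p < (T (v1 + ρ / 2, e1))^[l] 0 := by
    have := u_iter_ge (u := u) (T := T (v1 + ρ / 2, e1)) (c := s + c)
      (fun θ => by have := hc1 θ; linarith) l 0
    rw [← u1.lt_iff_lt, hz]
    linarith
  have g1 : ∀ᶠ e in 𝓝 e1, (T (v1, e))^[l] 0 < 2 * Real.pi * p :=
    (ContinuousAt.comp (f := fun e : ℝ => (v1, e)) (hit l (v1, e1) ha he)
      (by fun_prop)).eventually_lt continuousAt_const f1
  have g2 : ∀ᶠ e in 𝓝 e1, 2 * Real.pi * p < (T (v1 + ρ / 2, e))^[l] 0 :=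
    continuousAt_const.eventually_lt (ContinuousAt.comp (f := fun e : ℝ => (v1 + ρ / 2, e))
      (hit l (v1 + ρ / 2, e1) hb' he) (by fun_prop)) f2
  obtain ⟨δ, hδ, hg⟩ := Metric.eventually_nhds_iff.1 (g1.and g2)
  refine ⟨l, p, min δ ρ, hp, h8, (le_max_left _ _).trans_lt hl, lt_min hδ hρ, min_le_right _ _,
    fun e he' => ?_⟩
  have he1 : |e - e1| < ρ := he'.trans_le (min_le_right _ _)
  obtain ⟨k1, k2⟩ := hg (y := e) (by rw [Real.dist_eq]; exact he'.trans_le (min_le_left _ _))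
  have hI : ∀ v ∈ Icc v1 (v1 + ρ / 2), |v - v1| < ρ := fun v hv => by
    rw [abs_of_nonneg (by linarith [hv.1])]; linarith [hv.2]
  obtain ⟨v, hv, hv0⟩ := intermediate_value_Icc (f := fun v => (T (v, e))^[l] 0)
    (show v1 ≤ v1 + ρ / 2 by linarith)
    (fun v hv => (ContinuousAt.comp (f := fun v : ℝ => (v, e)) (hit l (v, e) (hI v hv) he1)
      (by fun_prop)).continuousWithinAt) ⟨k1.le, k2.le⟩
  have hv1 := hI v hv
  obtain ⟨w, W, σ, w1, -, w3, w4⟩ := hH.cnj v e hv1 he1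
  refine ⟨fun θ => H (θ, v, e), ⟨fun θ => hH.per θ v e hv1 he1,
    fun θ => (hH.range θ v e hv1 he1).1, fun θ => hH.inv θ v e hv1 he1, fun x y hxy => ?_,
    fun θ => ?_⟩, fun θ => (hH.range θ v e hv1 he1).2⟩
  · rw [← w1.lt_iff_lt, gmap, gmap, w4, w4]
    linarith [w1 hxy]
  · rw [hTd] at hv0
    exact ret w1 w3 w4 hv0 θ

end Pool.Agent.MP_62f0b1_an.AE

end
end MrgPart3

-- ======== part 4: formerly Pool.Agent.MP_62f0b1_an.ae.C4
section MrgPart4

/-!
Row C4: a graph of periodic points with positive twist continues to nearby parameters.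
-/

set_option autoImplicit false

noncomputable section

namespace Pool.Agent.MP_62f0b1_an.AE

open Filter Topology Set

namespace C4

theorem hasDerivAt_r2 {g : R3 → ℝ} {q : R3} (hg : DifferentiableAt ℝ g q) :
    HasDerivAt (fun J => g (q.1, J, q.2.2)) (r2 g q) q.2.1 := by
  have h1 : HasDerivAt (fun J : ℝ => ((q.1, J, q.2.2) : R3)) (0, 1, 0) q.2.1 :=
    (hasDerivAt_const _ _).prodMk ((hasDerivAt_id _).prodMk (hasDerivAt_const _ _))
  exact hg.hasFDerivAt.comp_hasDerivAt q.2.1 h1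

/-- The analytic implicit function theorem in the middle variable. -/
theorem ift {G : R3 → ℝ} {q : R3} {c : ℝ} (hG : AnalyticAt ℝ G q) (hc : c ≠ 0)
    (hd : HasDerivAt (fun J => G (q.1, J, q.2.2)) c q.2.1) :
    ∃ ψ : ℝ × ℝ → ℝ, AnalyticAt ℝ ψ (q.1, q.2.2) ∧ ψ (q.1, q.2.2) = q.2.1 ∧
      ∀ᶠ x in 𝓝 (q.1, q.2.2), G (x.1, ψ x, x.2) = G q := by
  let f : (ℝ × ℝ) × ℝ → ℝ := fun v => G (v.1.1, v.2, v.1.2)
  let u : (ℝ × ℝ) × ℝ := ((q.1, q.2.2), q.2.1)
  have hl : AnalyticAt ℝ (fun v : (ℝ × ℝ) × ℝ => ((v.1.1, v.2, v.1.2) : R3)) u :=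
    (analyticAt_fst.comp analyticAt_fst).prod
      (analyticAt_snd.prod (analyticAt_snd.comp analyticAt_fst))
  have hf : AnalyticAt ℝ f u := AnalyticAt.comp (g := G) hG hl
  have h1 : HasDerivAt (fun J : ℝ => (((q.1, q.2.2), J) : (ℝ × ℝ) × ℝ)) (0, 1) q.2.1 :=
    (hasDerivAt_const _ _).prodMk (hasDerivAt_id _)
  have h2 : HasDerivAt (fun J => G (q.1, J, q.2.2)) (fderiv ℝ f u (0, 1)) q.2.1 :=
    hf.differentiableAt.hasFDerivAt.comp_hasDerivAt q.2.1 h1
  have h3 : fderiv ℝ f u (0, 1) = c := h2.unique hd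
  have h4 : ∀ y : ℝ, fderiv ℝ f u (0, y) = y * c := by
    intro y
    have : ((0, y) : (ℝ × ℝ) × ℝ) = y • (0, 1) := by simp
    rw [this, map_smul, h3, smul_eq_mul]
  have hinv : (fderiv ℝ f u ∘L ContinuousLinearMap.inr ℝ (ℝ × ℝ) ℝ).IsInvertible := by
    refine ContinuousLinearMap.IsInvertible.of_inverse (g := c⁻¹ • ContinuousLinearMap.id ℝ ℝ)
      ?_ ?_
    · ext
      simp [h4, hc]
    · ext
      simp [h4, hc]
  have cdf : ContDiffAt ℝ ⊤ f u := hf.contDiffAt
  have hn : (⊤ : WithTop ℕ∞) ≠ 0 := by simp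
  exact ⟨cdf.implicitFunction hn hinv, (cdf.contDiffAt_implicitFunction hn hinv).analyticAt,
    cdf.implicitFunction_apply_self hn hinv, cdf.eventually_apply_implicitFunction hn hinv⟩

/-- A periodic property that holds near a periodic graph holds on a uniform tube. -/
theorem tube {P : R3 → Prop} {g : ℝ → ℝ} {es : ℝ}
    (hP : ∀ q : R3, P (q.1 + 2 * Real.pi, q.2) ↔ P q) (hg : Continuous g)
    (hper : ∀ θ, g (θ + 2 * Real.pi) = g θ) (hev : ∀ θ, ∀ᶠ q in 𝓝 ((θ, g θ, es) : R3), P q) :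
    ∃ d > 0, ∀ θ J e, |J - g θ| ≤ d → |e - es| ≤ d → P (θ, J, e) := by
  have h1 : ∀ᶠ x : ℝ × ℝ in 𝓝 (0, 0), ∀ θ ∈ Icc (0 : ℝ) (2 * Real.pi),
      P (θ, g θ + x.1, es + x.2) := by
    refine isCompact_Icc.eventually_forall_of_forall_eventually (fun θ _ => ?_)
    have hc : Continuous (fun z : (ℝ × ℝ) × ℝ => ((z.2, g z.2 + z.1.1, es + z.1.2) : R3)) := by
      fun_prop
    have := hc.tendsto ((0, 0), θ)
    simp only [add_zero] at this
    exact this.eventually (hev θ)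
  obtain ⟨d, hd, h2⟩ := Metric.eventually_nhds_iff.1 h1
  refine ⟨d / 2, by positivity, fun θ J e hJ he => ?_⟩
  have hp : Function.Periodic (fun x => P (x, g x + (J - g θ), es + (e - es))) (2 * Real.pi) := by
    intro x
    simp only [hper]
    exact propext (hP (x, g x + (J - g θ), es + (e - es)))
  obtain ⟨y, hy, hxy⟩ := hp.exists_mem_Ico₀ (by positivity) θ
  have h3 : dist ((J - g θ, e - es) : ℝ × ℝ) (0, 0) < d := by
    rw [Prod.dist_eq, Real.dist_eq, Real.dist_eq, sub_zero, sub_zero, max_lt_iff]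
    constructor <;> linarith
  have h4 := h2 h3 y (Ico_subset_Icc_self hy)
  have h5 : P (θ, g θ + (J - g θ), es + (e - es)) := hxy ▸ h4
  simpa using h5

variable {Θ Jn : R3 → ℝ} {α : ℝ → ℝ} {e0 ε r : ℝ}

theorem step_shift (hT : TwistR Θ Jn α e0 ε r) (p : ℤ) (q : R3) :
    step Θ Jn (q.1 + 2 * Real.pi * p, q.2) =
      ((step Θ Jn q).1 + 2 * Real.pi * p, (step Θ Jn q).2) := by
  have h1 : Function.Periodic (fun x : ℝ => (Θ (x, q.2) - x, Jn (x, q.2))) (2 * Real.pi) := by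
    intro x
    have := hT.per (x, q.2)
    simp only at this
    simp only [this.1, this.2]
    congr 1
    ring
  have h2 := h1.int_mul p q.1
  simp only [Prod.mk.injEq] at h2
  rw [mul_comm (p : ℝ)] at h2
  simp only [step, Prod.mk.injEq, h2.2, and_true]
  linarith [h2.1]

theorem iter_shift (hT : TwistR Θ Jn α e0 ε r) (j : ℕ) (q : R3) :
    (step Θ Jn)^[j] (q.1 + 2 * Real.pi, q.2) =
      (((step Θ Jn)^[j] q).1 + 2 * Real.pi, ((step Θ Jn)^[j] q).2) := by
  induction j with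
  | zero => rfl
  | succ j ih =>
    rw [Function.iterate_succ_apply', Function.iterate_succ_apply', ih]
    simpa using step_shift hT 1 ((step Θ Jn)^[j] q)

theorem iter_par (j : ℕ) (q : R3) : ((step Θ Jn)^[j] q).2.2 = q.2.2 := by
  induction j with
  | zero => rfl
  | succ j ih => rw [Function.iterate_succ_apply', ← ih]; rfl

theorem iter_graph {e : ℝ} {h : ℝ → ℝ} (hi : ∀ θ, Jn (θ, h θ, e) = h (gmap Θ e h θ)) (j : ℕ)
    (θ : ℝ) : (step Θ Jn)^[j] (θ, h θ, e) =
      ((gmap Θ e h)^[j] θ, h ((gmap Θ e h)^[j] θ), e) := by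
  induction j with
  | zero => rfl
  | succ j ih =>
    rw [Function.iterate_succ_apply', Function.iterate_succ_apply', ih]
    simp only [step, hi]
    rfl

theorem isOpen_domR : IsOpen (domR e0 ε r) := by
  have h1 : IsOpen {p : R3 | 0 < p.2.1} := isOpen_lt continuous_const (by fun_prop)
  have h2 : IsOpen {p : R3 | p.2.1 < r} := isOpen_lt (by fun_prop) continuous_const
  have h3 : IsOpen {p : R3 | |p.2.2 - e0| < ε} := isOpen_lt (by fun_prop) continuous_const
  exact h1.inter (h2.inter h3)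

theorem an_iter (hT : TwistR Θ Jn α e0 ε r) (j : ℕ) {q : R3}
    (hq : ∀ i < j, (step Θ Jn)^[i] q ∈ domR e0 ε r) : AnalyticAt ℝ (step Θ Jn)^[j] q := by
  induction j with
  | zero => exact analyticAt_id
  | succ j ih =>
    rw [Function.iterate_succ']
    have h1 := hT.an _ (hq j (Nat.lt_succ_self j))
    have h2 : AnalyticAt ℝ (step Θ Jn) ((step Θ Jn)^[j] q) :=
      h1.1.prod (h1.2.prod (analyticAt_snd.comp analyticAt_snd))
    exact h2.comp (ih (fun i hi => hq i (Nat.lt_succ_of_lt hi)))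

theorem ev_dom (hT : TwistR Θ Jn α e0 ε r) (j : ℕ) {q : R3}
    (hq : ∀ i < j, (step Θ Jn)^[i] q ∈ domR e0 ε r) :
    ∀ᶠ q' in 𝓝 q, ∀ i < j, (step Θ Jn)^[i] q' ∈ domR e0 ε r := by
  have : ∀ i ∈ Iio j, ∀ᶠ q' in 𝓝 q, (step Θ Jn)^[i] q' ∈ domR e0 ε r := fun i hi =>
    (an_iter hT i (fun k hk => hq k (hk.trans hi))).continuousAt.eventually
      (isOpen_domR.mem_nhds (hq i hi))
  exact ((finite_Iio j).eventually_all.2 this)

/-- The angular defect of periodicity. -/
def Gm (Θ Jn : R3 → ℝ) (l : ℕ) (p : ℤ) (q : R3) : ℝ :=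
  ((step Θ Jn)^[l] q).1 - q.1 - 2 * Real.pi * p

/-- Points whose orbit stays in the domain and at which the return map twists. -/
def Good (Θ Jn : R3 → ℝ) (e0 ε r : ℝ) (l : ℕ) (q : R3) : Prop :=
  (∀ i < l, (step Θ Jn)^[i] q ∈ domR e0 ε r) ∧ 0 < r2 (fun q => ((step Θ Jn)^[l] q).1) q

theorem gm_shift (hT : TwistR Θ Jn α e0 ε r) (l : ℕ) (p : ℤ) (q : R3) :
    Gm Θ Jn l p (q.1 + 2 * Real.pi, q.2) = Gm Θ Jn l p q := by
  simp only [Gm, iter_shift hT]
  ring

theorem good_shift (hT : TwistR Θ Jn α e0 ε r) (l : ℕ) (q : R3) :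
    Good Θ Jn e0 ε r l (q.1 + 2 * Real.pi, q.2) ↔ Good Θ Jn e0 ε r l q := by
  have h1 : r2 (fun q => ((step Θ Jn)^[l] q).1) (q.1 + 2 * Real.pi, q.2) =
      r2 (fun q => ((step Θ Jn)^[l] q).1) q := by
    have h2 : ((q.1 + 2 * Real.pi, q.2) : R3) = q + (2 * Real.pi, 0) := by
      ext <;> simp
    have h3 : (fun x : R3 => ((step Θ Jn)^[l] (x + (2 * Real.pi, 0))).1) =
        fun x => ((step Θ Jn)^[l] x).1 + 2 * Real.pi := by
      funext x
      have h4 : x + (2 * Real.pi, 0) = ((x.1 + 2 * Real.pi, x.2) : R3) := by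
        ext <;> simp
      rw [h4, iter_shift hT]
    rw [r2, r2, h2, ← fderiv_comp_add_right, h3, fderiv_add_const]
  simp only [Good, h1, iter_shift hT]
  rfl

theorem Good.an {l : ℕ} {q : R3} (hT : TwistR Θ Jn α e0 ε r) (hq : Good Θ Jn e0 ε r l q)
    (p : ℤ) : AnalyticAt ℝ (Gm Θ Jn l p) q :=
  ((analyticAt_fst.comp (an_iter hT l hq.1)).sub analyticAt_fst).sub analyticAt_const

theorem Good.der {l : ℕ} {q : R3} (hT : TwistR Θ Jn α e0 ε r) (hq : Good Θ Jn e0 ε r l q)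
    (p : ℤ) : HasDerivAt (fun J => Gm Θ Jn l p (q.1, J, q.2.2))
      (r2 (fun q => ((step Θ Jn)^[l] q).1) q) q.2.1 :=
  ((hasDerivAt_r2 (analyticAt_fst.comp (an_iter hT l hq.1)).differentiableAt).sub_const
    q.1).sub_const _

theorem Good.ev {l : ℕ} {q : R3} (hT : TwistR Θ Jn α e0 ε r) (hq : Good Θ Jn e0 ε r l q) :
    ∀ᶠ q' in 𝓝 q, Good Θ Jn e0 ε r l q' := by
  refine (ev_dom hT l hq.1).and ?_
  have h1 : AnalyticAt ℝ (fun q => ((step Θ Jn)^[l] q).1) q :=
    analyticAt_fst.comp (an_iter hT l hq.1)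
  have h2 : ContinuousAt (r2 (fun q => ((step Θ Jn)^[l] q).1)) q :=
    h1.fderiv.continuousAt.clm_apply continuousAt_const
  exact h2.eventually (lt_mem_nhds hq.2)

theorem gm_graph {l : ℕ} {p : ℤ} {e : ℝ} {h : ℝ → ℝ} (hP : PerGraph Θ Jn l p e h) (θ : ℝ) :
    Gm Θ Jn l p (θ, h θ, e) = 0 ∧ ((step Θ Jn)^[l] (θ, h θ, e)).2.1 = h θ := by
  have h1 : Function.Periodic h (2 * Real.pi) := hP.per
  have h2 := h1.int_mul p θ
  rw [mul_comm (p : ℝ)] at h2
  simp only [Gm, iter_graph hP.inv, hP.ret, h2, and_true]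
  ring

/-- The analytic family of roots of the angular defect in a tube. -/
theorem roots (hT : TwistR Θ Jn α e0 ε r) {l : ℕ} {p : ℤ} {es d d' : ℝ} {h : ℝ → ℝ}
    (hP : PerGraph Θ Jn l p es h) (hc : Continuous h) (hd' : 0 < d') (hdd : d' ≤ d)
    (hG : ∀ θ J e, |J - h θ| ≤ d → |e - es| ≤ d → Good Θ Jn e0 ε r l (θ, J, e)) :
    ∃ ρ > 0, ρ ≤ d' ∧ ∃ R : ℝ × ℝ → ℝ, ∀ θ e, |e - es| < ρ →
      |R (θ, e) - h θ| < d' ∧ Gm Θ Jn l p (θ, R (θ, e), e) = 0 ∧ AnalyticAt ℝ R (θ, e) ∧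
      ∀ J, |J - h θ| ≤ d → Gm Θ Jn l p (θ, J, e) = 0 → J = R (θ, e) := by
  have hIcc : ∀ θ J, J ∈ Icc (h θ - d) (h θ + d) ↔ |J - h θ| ≤ d := by
    intro θ J
    rw [abs_le, mem_Icc]
    constructor <;> rintro ⟨a, b⟩ <;> constructor <;> linarith
  have hcont : ∀ θ e, |e - es| ≤ d →
      ContinuousOn (fun J => Gm Θ Jn l p (θ, J, e)) (Icc (h θ - d) (h θ + d)) :=
    fun θ e he J hJ =>
      ((hG θ J e ((hIcc θ J).1 hJ) he).der hT p).continuousAt.continuousWithinAt
  have hmono : ∀ θ e, |e - es| ≤ d →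
      StrictMonoOn (fun J => Gm Θ Jn l p (θ, J, e)) (Icc (h θ - d) (h θ + d)) := by
    intro θ e he
    refine strictMonoOn_of_deriv_pos (convex_Icc _ _) (hcont θ e he) (fun J hJ => ?_)
    have h1 := hG θ J e ((hIcc θ J).1 (interior_subset hJ)) he
    rw [(h1.der hT p).deriv]
    exact h1.2
  have hes : |es - es| ≤ d := by simp; linarith
  have m0 : ∀ θ, h θ ∈ Icc (h θ - d) (h θ + d) := fun θ => ⟨by linarith, by linarith⟩
  have mp : ∀ θ, h θ + d' ∈ Icc (h θ - d) (h θ + d) := fun θ => ⟨by linarith, by linarith⟩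
  have mm : ∀ θ, h θ - d' ∈ Icc (h θ - d) (h θ + d) := fun θ => ⟨by linarith, by linarith⟩
  obtain ⟨ρ1, hρ1, hpos⟩ := tube (P := fun q => 0 < Gm Θ Jn l p q) (g := fun θ => h θ + d')
    (es := es) (fun q => by rw [gm_shift hT]) (by fun_prop) (fun θ => by rw [hP.per]) (fun θ => by
      refine ((hG θ _ es ((hIcc θ _).1 (mp θ)) hes).an hT p).continuousAt.eventually
        (lt_mem_nhds ?_)
      have := hmono θ es hes (m0 θ) (mp θ) (by linarith)
      simp only [(gm_graph hP θ).1] at this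
      exact this)
  obtain ⟨ρ2, hρ2, hneg⟩ := tube (P := fun q => Gm Θ Jn l p q < 0) (g := fun θ => h θ - d')
    (es := es) (fun q => by rw [gm_shift hT]) (by fun_prop) (fun θ => by rw [hP.per]) (fun θ => by
      refine ((hG θ _ es ((hIcc θ _).1 (mm θ)) hes).an hT p).continuousAt.eventually
        (gt_mem_nhds ?_)
      have := hmono θ es hes (mm θ) (m0 θ) (by linarith)
      simp only [(gm_graph hP θ).1] at this
      exact this)
  obtain ⟨ρ, hρ, k0, k1, k2⟩ : ∃ ρ > 0, ρ ≤ d' ∧ ρ ≤ ρ1 ∧ ρ ≤ ρ2 :=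
    ⟨min d' (min ρ1 ρ2), by positivity, min_le_left _ _,
      (min_le_right _ _).trans (min_le_left _ _), (min_le_right _ _).trans (min_le_right _ _)⟩
  have hex : ∀ x : ℝ × ℝ, ∃ J, |x.2 - es| < ρ →
      |J - h x.1| < d' ∧ Gm Θ Jn l p (x.1, J, x.2) = 0 := by
    rintro ⟨θ, e⟩
    by_cases he : |e - es| < ρ
    · have h1 := intermediate_value_Ioo (show h θ - d' ≤ h θ + d' by linarith)
        ((hcont θ e (by linarith)).mono (Icc_subset_Icc (by linarith) (by linarith)))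
      obtain ⟨J, hJ, hJ0⟩ := h1 (show (0 : ℝ) ∈ Ioo _ _ from
        ⟨hneg θ _ e (by simp; linarith) (by linarith), hpos θ _ e (by simp; linarith) (by linarith)⟩)
      refine ⟨J, fun _ => ⟨abs_lt.2 ⟨by linarith [hJ.1], by linarith [hJ.2]⟩, hJ0⟩⟩
    · exact ⟨0, fun h' => absurd h' he⟩
  choose R hR using hex
  have huniq : ∀ θ e, |e - es| < ρ → ∀ J, |J - h θ| ≤ d → Gm Θ Jn l p (θ, J, e) = 0 →
      J = R (θ, e) := by
    intro θ e he J hJ h0
    have h1 := hR (θ, e) he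
    exact (hmono θ e (by linarith)).injOn ((hIcc θ _).2 hJ)
      ((hIcc θ _).2 (by linarith [h1.1])) (h0.trans h1.2.symm)
  refine ⟨ρ, hρ, k0, R, fun θ e he => ⟨(hR (θ, e) he).1, (hR (θ, e) he).2, ?_, huniq θ e he⟩⟩
  have h1 := hR (θ, e) he
  have h2 := hG θ (R (θ, e)) e (by linarith [h1.1]) (by linarith)
  obtain ⟨ψ, a1, a2, a3⟩ := ift (h2.an hT p) h2.2.ne' (h2.der hT p)
  simp only at a1 a2 a3
  refine a1.congr ?_
  have b1 : ContinuousAt (fun x : ℝ × ℝ => |ψ x - h x.1|) (θ, e) :=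
    (a1.continuousAt.sub (hc.comp continuous_fst).continuousAt).abs
  have b2 : ContinuousAt (fun x : ℝ × ℝ => |x.2 - es|) (θ, e) := by fun_prop
  have b3 : |ψ (θ, e) - h θ| < d' := by rw [a2]; exact h1.1
  filter_upwards [a3, b1.eventually (gt_mem_nhds b3), b2.eventually (gt_mem_nhds he)]
    with x c1 c2 c3
  exact huniq x.1 x.2 c3 _ (by linarith) (c1.trans h1.2)

end C4

open C4 in
theorem c4 : C4Stmt := by
  intro Θ Jn α e0 ε r hT l p es m M b H h 𝒰 hl hes hm hMb hbr hP hlip hmM htw hne hU hH hlim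
  have hc : Continuous h :=
    (LipschitzWith.of_dist_le_mul (K := 1) (fun x y => by simpa [Real.dist_eq] using hlip x y)).continuous
  have hdom : ∀ θ, ((θ, h θ, es) : R3) ∈ domR e0 ε r := fun θ =>
    ⟨hP.pos θ, by simp only; linarith [(hmM θ).2], hes⟩
  have hgood : ∀ θ, Good Θ Jn e0 ε r l (θ, h θ, es) := fun θ =>
    ⟨fun i _ => by rw [iter_graph hP.inv]; exact hdom _, htw θ⟩
  obtain ⟨d, hd, hG⟩ := tube (good_shift hT l) hc hP.per (fun θ => (hgood θ).ev hT)
  obtain ⟨d1, hd1, hS⟩ := tube (P := fun q => |Jn q - h (Θ q)| < d) (es := es)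
    (fun q => by rw [(hT.per q).1, (hT.per q).2, hP.per]) hc hP.per (fun θ => by
      have h1 := hT.an _ (hdom θ)
      have h2 : ContinuousAt (fun q => |Jn q - h (Θ q)|) (θ, h θ, es) :=
        (h1.2.continuousAt.sub (hc.continuousAt.comp h1.1.continuousAt)).abs
      refine h2.eventually (gt_mem_nhds ?_)
      have h3 : Jn (θ, h θ, es) = h (Θ (θ, h θ, es)) := hP.inv θ
      simpa [h3] using hd)
  obtain ⟨d', hd', k0, k1, k2⟩ : ∃ d' > 0, d' ≤ d ∧ d' ≤ d1 ∧ d' ≤ b - M :=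
    ⟨min d (min d1 (b - M)), lt_min hd (lt_min hd1 (by linarith)), min_le_left _ _,
      (min_le_right _ _).trans (min_le_left _ _), (min_le_right _ _).trans (min_le_right _ _)⟩
  obtain ⟨ρ, hρ, hρd, R, hR⟩ := roots hT hP hc hd' k0 hG
  have hGR : ∀ θ e, |e - es| < ρ → Good Θ Jn e0 ε r l (θ, R (θ, e), e) := fun θ e he =>
    hG θ _ e (by linarith [(hR θ e he).1]) (by linarith)
  have hK : ∀ θ e, |e - es| < ρ → ((step Θ Jn)^[l] (θ, R (θ, e), e)).2.1 - R (θ, e) = 0 := by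
    intro θ
    have h1 : AnalyticOnNhd ℝ (fun e => ((step Θ Jn)^[l] (θ, R (θ, e), e)).2.1 - R (θ, e))
        (Metric.ball es ρ) := by
      intro e he
      have he' : |e - es| < ρ := by simpa [Real.dist_eq] using he
      have a1 : AnalyticAt ℝ (fun e => R (θ, e)) e :=
        AnalyticAt.comp (g := R) (hR θ e he').2.2.1 (analyticAt_const.prod analyticAt_id)
      have a2 : AnalyticAt ℝ (fun e => ((θ, R (θ, e), e) : R3)) e :=
        analyticAt_const.prod (a1.prod analyticAt_id)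
      have a3 : AnalyticAt ℝ (fun e => (step Θ Jn)^[l] (θ, R (θ, e), e)) e :=
        AnalyticAt.comp (g := (step Θ Jn)^[l]) (an_iter hT l (hGR θ e he').1) a2
      exact (analyticAt_fst.comp (analyticAt_snd.comp a3)).sub a1
    have hU' : 𝒰 ≤ 𝓝 es := hU.trans nhdsWithin_le_nhds
    have h2 : ∀ᶠ e in 𝒰, ((step Θ Jn)^[l] (θ, R (θ, e), e)).2.1 - R (θ, e) = 0 := by
      have b1 : ∀ᶠ e in 𝒰, |e - es| < ρ := by
        filter_upwards [hU' (Metric.ball_mem_nhds es hρ)] with e he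
        simpa [Real.dist_eq] using he
      have b2 : ∀ᶠ e in 𝒰, |H e θ - h θ| < d := by
        filter_upwards [hlim θ (Metric.ball_mem_nhds (h θ) hd)] with e he
        simpa [Real.dist_eq] using he
      filter_upwards [hH, b1, b2] with e c1 c2 c3
      have c4 := gm_graph c1 θ
      rw [← (hR θ e c2).2.2.2 _ c3.le c4.1, c4.2, sub_self]
    have h3 := h1.eqOn_zero_of_preconnected_of_frequently_eq_zero
      (convex_ball es ρ).isPreconnected (Metric.mem_ball_self hρ)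
      (h2.frequently.filter_mono (hU.trans (nhdsLT_le_nhdsNE es)))
    intro e he
    exact h3 (by simpa [Real.dist_eq] using he)
  refine ⟨ρ, hρ, fun e he => ⟨fun θ => R (θ, e), ?_, fun θ => ?_⟩⟩
  swap
  · have := abs_lt.1 (hR θ e he).1
    linarith [(hmM θ).2]
  have hret : ∀ θ, (step Θ Jn)^[l] (θ, R (θ, e), e) = (θ + 2 * Real.pi * p, R (θ, e), e) := by
    intro θ
    have h1 := (hR θ e he).2.1
    have h2 := hK θ e he
    have h3 := iter_par (Θ := Θ) (Jn := Jn) l (θ, R (θ, e), e)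
    simp only [Gm] at h1
    refine Prod.ext (by simp only; linarith) (Prod.ext (by simp only; linarith) h3)
  have hper : ∀ θ, R (θ + 2 * Real.pi, e) = R (θ, e) := by
    intro θ
    refine ((hR _ e he).2.2.2 _ ?_ ?_).symm
    · rw [hP.per]; linarith [(hR θ e he).1]
    · exact (gm_shift hT l p (θ, R (θ, e), e)).trans (hR θ e he).2.1
  have hinv : ∀ θ, Jn (θ, R (θ, e), e) = R (gmap Θ e (fun θ => R (θ, e)) θ, e) := by
    intro θ
    refine (hR _ e he).2.2.2 _ (hS θ _ e (by linarith [(hR θ e he).1]) (by linarith)).le ?_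
    have h1 : (step Θ Jn)^[l] (step Θ Jn (θ, R (θ, e), e)) =
        ((step Θ Jn (θ, R (θ, e), e)).1 + 2 * Real.pi * p, (step Θ Jn (θ, R (θ, e), e)).2) := by
      rw [← Function.iterate_succ_apply, Function.iterate_succ_apply', hret]
      exact step_shift hT p (θ, R (θ, e), e)
    show ((step Θ Jn)^[l] (step Θ Jn (θ, R (θ, e), e))).1 - (step Θ Jn (θ, R (θ, e), e)).1 -
      2 * Real.pi * p = 0
    rw [h1]
    ring
  have hret' : ∀ θ, (gmap Θ e (fun θ => R (θ, e)))^[l] θ = θ + 2 * Real.pi * p := by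
    intro θ
    have h1 := iter_graph (h := fun θ => R (θ, e)) hinv l θ
    rw [hret] at h1
    exact (congrArg Prod.fst h1).symm
  have hdomR : ∀ θ, ((θ, R (θ, e), e) : R3) ∈ domR e0 ε r := fun θ => (hGR θ e he).1 0 hl
  refine ⟨hper, fun θ => (hdomR θ).1, hinv, ?_, hret'⟩
  have hcT : Continuous (gmap Θ e (fun θ => R (θ, e))) := by
    refine continuous_iff_continuousAt.2 (fun θ => ?_)
    have a1 : ContinuousAt (fun θ => R (θ, e)) θ :=
      ContinuousAt.comp (g := R) (hR θ e he).2.2.1.continuousAt (by fun_prop)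
    exact ContinuousAt.comp (g := Θ) (hT.an _ (hdomR θ)).1.continuousAt
      (continuousAt_id.prodMk (a1.prodMk continuousAt_const))
  have hinj : Function.Injective (gmap Θ e (fun θ => R (θ, e))) := by
    intro x y hxy
    obtain ⟨k, rfl⟩ : ∃ k, l = k + 1 := ⟨l - 1, by omega⟩
    have h1 := hret' x
    have h2 := hret' y
    rw [Function.iterate_succ_apply] at h1 h2
    rw [hxy, h2] at h1
    linarith
  refine (hcT.strictMono_of_inj hinj).resolve_right (fun ha => ?_)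
  have h1 := ha (show (0 : ℝ) < 0 + 2 * Real.pi by positivity)
  have h2 := (hT.per (0, R (0, e), e)).1
  simp only [gmap, hper] at h1
  simp only at h2
  linarith [Real.pi_pos]

end Pool.Agent.MP_62f0b1_an.AE

end
end MrgPart4

-- ======== part 5: formerly Pool.Agent.MP_62f0b1_an.ae.A3a
section MrgPart5

/-!
Row A3a: operator identities for the formal map `F = 1 + t L`.
-/

set_option autoImplicit false

noncomputable section

namespace Pool.Agent.MP_62f0b1_an.AE

open MvPolynomial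

namespace A3a

section Ring

variable {R : Type} [CommRing R]

theorem pi3_eq (a : Fin 3 → R) (i : Fin 3) : Pi3 a = a i * a (i + 1) * a (i + 2) := by
  fin_cases i <;> simp [Pi3] <;> ring

/-- The equation divided by `t`. -/
def E1 (t x y z X Y Z : R) : R :=
  x * y * z * ((x + t * X) * (y + t * Y) * (z + t * Z)) * X * (2 * x + 2 * t + t * X) -
    x * y * z * (x + t * X + t) *
      (((z + t * Z) ^ 2 - (x + t * X) ^ 2 - (y + t * Y) ^ 2) * (z + t * Z)) +
    (x + t * X) * (y + t * Y) * (z + t * Z) * (x + t) * ((y ^ 2 - x ^ 2 - z ^ 2) * y)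

theorem eqn_eq (t : R) (a A : Fin 3 → R) (i : Fin 3) :
    Pi3 a * Bt t (fun j => a j + t * A j) i - Pi3 (fun j => a j + t * A j) * Dt t a i =
      t * E1 t (a i) (a (i + 1)) (a (i + 2)) (A i) (A (i + 1)) (A (i + 2)) := by
  simp only [Bt, Dt, pi3_eq a i, pi3_eq (fun j => a j + t * A j) i, E1]
  ring

theorem E1_sub_mem {J : Ideal R} {t : R} (ht : t ∈ J) (x y z X Y Z : R) :
    E1 t x y z X Y Z - x * y * z * x *
      (2 * (x * y * z) * X - (z - y) * ((y + z) ^ 2 - x ^ 2)) ∈ J := by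
  rw [← Ideal.Quotient.eq_zero_iff_mem] at ht ⊢
  simp only [E1, map_sub, map_add, map_mul, map_pow, ht, map_ofNat]
  ring

theorem map_Bt {S : Type} [CommRing S] (f : R →+* S) (t : R) (a : Fin 3 → R) (i : Fin 3) :
    f (Bt t a i) = Bt (f t) (fun j => f (a j)) i := by
  simp [Bt, Pi3]

theorem map_Pi3 {S : Type} [CommRing S] (f : R →+* S) (a : Fin 3 → R) :
    f (Pi3 a) = Pi3 (fun j => f (a j)) := by
  simp [Pi3]

end Ring

variable {O : Type} [CommRing O] [IsDomain O] [IsLocalRing O] {l : ℕ} {c : Ctx O l} {N : ℕ}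

omit [IsDomain O] in
theorem Ct_ne (c : Ctx O l) : (C c.t : P3 O) ≠ 0 := by
  simpa using c.ht0

omit [IsDomain O] in
theorem F_apply (m : FM c N) (p : P3 O) : m.F p = p + C c.t * m.L p := m.hL p

theorem L_eq (m : FM c N) {p q : P3 O} (h : m.F p = p + C c.t * q) : m.L p = q := by
  rw [F_apply] at h
  exact mul_left_cancel₀ (Ct_ne c) (add_left_cancel h)

theorem pres (m : FM c N) (d : ℕ) (p : P3 O) (hp : p ∈ I3 O ^ d) : m.L p ∈ I3 O ^ d := by
  apply mem_pow_of_C_mul_mem c.ht0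
  have h1 : m.F p ∈ I3 O ^ d :=
    aeval_mem_pow (fun i => (I3 O).add_mem (X_mem_idealOfVars i)
      ((I3 O).mul_mem_left _ (m.hG i))) hp
  have h2 : C c.t * m.L p = m.F p - p := by rw [F_apply]; ring
  rw [h2]
  exact Ideal.sub_mem _ h1 hp

theorem L_C (m : FM c N) (a : O) : m.L (C a) = 0 :=
  L_eq m (by simp [FM.F])

theorem der (m : FM c N) (p : P3 O) :
    ∃ q, m.L p = ∑ i, m.G i * pderiv i p + C c.t * q := by
  induction p using MvPolynomial.induction_on with
  | C a => exact ⟨0, by simp [L_C]⟩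
  | add p q hp hq =>
    obtain ⟨p', hp'⟩ := hp
    obtain ⟨q', hq'⟩ := hq
    refine ⟨p' + q', ?_⟩
    simp only [map_add, hp', hq', mul_add, Finset.sum_add_distrib]
    ring
  | mul_X p n hp =>
    obtain ⟨q, hq⟩ := hp
    have h1 : m.L (p * X n) = m.L p * X n + p * m.G n + C c.t * (m.L p * m.G n) := by
      apply L_eq
      rw [map_mul, F_apply m p]
      simp only [FM.F, aeval_X]
      ring
    have h2 : ∑ i, m.G i * pderiv i (p * X n) = (∑ i, m.G i * pderiv i p) * X n + p * m.G n := by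
      have h3 : ∀ i, m.G i * pderiv i (p * X n) =
          m.G i * pderiv i p * X n + if i = n then p * m.G n else 0 := by
        intro i
        rw [Derivation.leibniz, pderiv_X]
        by_cases h : i = n
        · subst h
          simp only [smul_eq_mul, Pi.single_eq_same, if_true]
          ring
        · have h' : n ≠ i := fun e => h e.symm
          simp only [smul_eq_mul, Pi.single_eq_of_ne h', if_neg h]
          ring
      simp only [h3, Finset.sum_add_distrib, Finset.sum_ite_eq', Finset.mem_univ, if_true,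
        Finset.sum_mul]
    refine ⟨q * X n + m.L p * m.G n, ?_⟩
    rw [h1, h2]
    nth_rewrite 1 [hq]
    ring

/-- The polynomial `1 + t X`. -/
def Y (c : Ctx O l) : Polynomial O := 1 + Polynomial.C c.t * Polynomial.X

omit [IsDomain O] in
theorem aeval_Y_pow (m : FM c N) (k : ℕ) (p : P3 O) :
    Polynomial.aeval m.L (Y c ^ k) p = (m.F : P3 O → P3 O)^[k] p := by
  have h1 : Polynomial.aeval m.L (Y c) = (m.F.toLinearMap : Module.End O (P3 O)) := by
    apply LinearMap.ext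
    intro q
    simp [Y, F_apply, smul_eq_C_mul]
  rw [map_pow, h1, Module.End.pow_apply]
  rfl

omit [IsDomain O] in
theorem Y_sub (c : Ctx O l) (j : ℕ) : Y c - Polynomial.C (c.ze ^ j) =
    Polynomial.C c.t * (Polynomial.X - Polynomial.C (c.mu j)) := by
  rw [mul_sub, ← Polynomial.C_mul, c.hmu j, Y, Polynomial.C_sub, Polynomial.C_1]
  ring

theorem X_pow_sub_one (c : Ctx O l) : (Polynomial.X : Polynomial O) ^ l - 1 =
    ∏ j ∈ Finset.range l, (Polynomial.X - Polynomial.C (c.ze ^ j)) := by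
  have h := X_pow_sub_C_eq_prod c.hze (α := 1) (a := 1) c.hp.pos (one_pow l)
  simpa using h

theorem geom_X (c : Ctx O l) : ∑ k ∈ Finset.range l, (Polynomial.X : Polynomial O) ^ k =
    ∏ j ∈ Finset.Ico 1 l, (Polynomial.X - Polynomial.C (c.ze ^ j)) := by
  have h0 : (Polynomial.X - 1 : Polynomial O) ≠ 0 := by
    simpa using Polynomial.X_sub_C_ne_zero (1 : O)
  apply mul_left_cancel₀ h0
  rw [mul_geom_sum, X_pow_sub_one c, Finset.range_eq_Ico,
    Finset.prod_eq_prod_Ico_succ_bot c.hp.pos]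
  simp

theorem Y_pow_sub_one (c : Ctx O l) : Y c ^ l - 1 = Polynomial.C c.t ^ l *
    ∏ j ∈ Finset.range l, (Polynomial.X - Polynomial.C (c.mu j)) := by
  have h := congrArg (fun p => Polynomial.comp p (Y c)) (X_pow_sub_one c)
  simp only [Polynomial.sub_comp, Polynomial.pow_comp, Polynomial.X_comp, Polynomial.one_comp,
    Polynomial.prod_comp, Polynomial.C_comp, Y_sub, Finset.prod_mul_distrib, Finset.prod_const,
    Finset.card_range] at h
  exact h

theorem geom_Y (c : Ctx O l) : ∑ k ∈ Finset.range l, Y c ^ k = Polynomial.C c.t ^ (l - 1) *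
    ∏ j ∈ Finset.Ico 1 l, (Polynomial.X - Polynomial.C (c.mu j)) := by
  have h := congrArg (fun p => Polynomial.comp p (Y c)) (geom_X c)
  simp only [Polynomial.sub_comp, Polynomial.pow_comp, Polynomial.X_comp, Polynomial.sum_comp,
    Polynomial.prod_comp, Polynomial.C_comp, Y_sub, Finset.prod_mul_distrib, Finset.prod_const,
    Nat.card_Ico] at h
  exact h

omit [IsDomain O] in
theorem aeval_C_pow_mul (m : FM c N) (k : ℕ) (q : Polynomial O) (p : P3 O) :
    Polynomial.aeval m.L (Polynomial.C c.t ^ k * q) p =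
      C c.t ^ k * Polynomial.aeval m.L q p := by
  rw [← Polynomial.C_pow, ← Polynomial.smul_eq_C_mul, map_smul, LinearMap.smul_apply,
    smul_eq_C_mul, C_pow]

theorem ret (m : FM c N) (p : P3 O) :
    (m.F : P3 O → P3 O)^[l] p - p = C c.t ^ l * m.Eh p := by
  have h := congrArg (fun q => Polynomial.aeval m.L q p) (Y_pow_sub_one c)
  simp only [map_sub, map_one, LinearMap.sub_apply, Module.End.one_apply, aeval_Y_pow,
    aeval_C_pow_mul] at h
  exact h

theorem sum (m : FM c N) :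
    ∑ k ∈ Finset.range l, (m.F : P3 O → P3 O)^[k] (X 2) = C c.t ^ (l - 1) * m.Th := by
  have h := congrArg (fun q => Polynomial.aeval m.L q (X 2)) (geom_Y c)
  simp only [map_sum, LinearMap.sum_apply, aeval_Y_pow, aeval_C_pow_mul] at h
  exact h

omit [IsDomain O] in
theorem F_a (m : FM c N) (i : Fin 3) : m.F (c.a i) = c.a i + C c.t * m.A i := by
  simp only [FM.F, Ctx.a, aOf, FM.A, map_add, map_mul, map_pow, map_one, aeval_X, aeval_C,
    algebraMap_eq]
  ring

omit [IsDomain O] in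
theorem a_sub_one (c : Ctx O l) (i : Fin 3) : c.a i - 1 ∈ I3 O := by
  have h : c.a i - 1 = X 2 + C c.w ^ i.val * X 0 + C c.w ^ (2 * i.val) * X 1 := by
    simp only [Ctx.a, aOf]
    ring
  rw [h]
  exact (I3 O).add_mem ((I3 O).add_mem (X_mem_idealOfVars 2)
    ((I3 O).mul_mem_left _ (X_mem_idealOfVars 0))) ((I3 O).mul_mem_left _ (X_mem_idealOfVars 1))

omit [IsDomain O] in
theorem eqn' (m : FM c N) (i : Fin 3) :
    C c.t * E1 (C c.t) (c.a i) (c.a (i + 1)) (c.a (i + 2)) (m.A i) (m.A (i + 1)) (m.A (i + 2)) ∈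
      I3 O ^ N := by
  have hFt : m.F.toRingHom (C c.t) = C c.t := by simp [FM.F]
  have hFa : (fun j => m.F.toRingHom (c.a j)) = fun j => c.a j + C c.t * m.A j :=
    funext fun j => by
      rw [← F_a m j]
      simp only [AlgHom.toRingHom_eq_coe, RingHom.coe_coe]
  have h1 := map_Bt m.F.toRingHom (C c.t) c.a i
  have h2 := map_Pi3 m.F.toRingHom c.a
  rw [hFt, hFa] at h1
  rw [hFa] at h2
  rw [← eqn_eq, ← h1, ← h2]
  exact m.eqn i

omit [IsDomain O] in
theorem unit_sub_one (c : Ctx O l) (i : Fin 3) :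
    c.a i * c.a (i + 1) * c.a (i + 2) * c.a i - 1 ∈ I3 O := by
  rw [← Ideal.Quotient.eq]
  have h4 : ∀ j, Ideal.Quotient.mk (I3 O) (c.a j) = 1 := fun j => by
    rw [← map_one (Ideal.Quotient.mk (I3 O)), Ideal.Quotient.eq]
    exact a_sub_one c j
  simp only [map_mul, h4, mul_one, map_one]

theorem field (m : FM c N) (i : Fin 3) : 2 * Pi3 c.a * m.A i - (c.a (i + 2) - c.a (i + 1)) *
    ((c.a (i + 1) + c.a (i + 2)) ^ 2 - c.a i ^ 2) ∈ Jm O N := by
  have h1 := mem_pow_of_C_mul_mem c.ht0 (eqn' m i)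
  have hJ : I3 O ^ N ≤ Jm O N := le_sup_right
  have ht : (C c.t : P3 O) ∈ Jm O N :=
    Ideal.mem_sup_left (Ideal.mem_map_of_mem _ c.htm)
  have h2 := E1_sub_mem ht (c.a i) (c.a (i + 1)) (c.a (i + 2)) (m.A i) (m.A (i + 1)) (m.A (i + 2))
  have h3 := (Jm O N).sub_mem (hJ h1) h2
  rw [sub_sub_cancel] at h3
  rw [pi3_eq c.a i]
  exact mem_of_unit_mul_mem hJ (unit_sub_one c i) h3

end A3a

theorem a3a : A3aStmt := by
  intro O _ _ _ l c N m
  exact ⟨A3a.pres m, by simpa using A3a.L_C m 1, A3a.ret m, A3a.sum m, A3a.der m, A3a.field m⟩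

end Pool.Agent.MP_62f0b1_an.AE

end
end MrgPart5

-- ======== part 6: formerly Pool.Agent.MP_62f0b1_an.ae.A8
section MrgPart6

/-! Row A8: the truncated exponential obstruction in characteristic `l`. -/

namespace Pool.Agent.MP_62f0b1_an.AE

namespace A8

open PowerSeries

variable {k : Type} [Field k]

/-- The truncated exponential of `-g`. -/
noncomputable def W (g : PowerSeries k) (n : ℕ) : PowerSeries k :=
  ∑ i ∈ Finset.range n, C ((i.factorial : k)⁻¹) * (-g) ^ i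

theorem deriv_W (g : PowerSeries k) (n : ℕ) (hn : ∀ i, 0 < i → i ≤ n → (i : k) ≠ 0) :
    derivative k (W g (n + 1)) = -(derivative k g) * W g n := by
  induction n with
  | zero => simp [W]
  | succ n ih =>
    have ih' := ih (fun i h0 h1 => hn i h0 (by omega))
    have e1 : W g (n + 1 + 1) = W g (n + 1) + C (((n + 1).factorial : k)⁻¹) * (-g) ^ (n + 1) := by
      simp only [W]
      rw [Finset.sum_range_succ]
    have e2 : W g (n + 1) = W g n + C ((n.factorial : k)⁻¹) * (-g) ^ n := by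
      simp only [W]
      rw [Finset.sum_range_succ]
    have hne : ((n + 1 : ℕ) : k) ≠ 0 := hn (n + 1) (by omega) le_rfl
    have e3 : (C (((n + 1).factorial : k)⁻¹) : PowerSeries k) * ((n + 1 : ℕ) : PowerSeries k) =
        C ((n.factorial : k)⁻¹) := by
      rw [← map_natCast (C : k →+* PowerSeries k), ← map_mul]
      congr 1
      rw [Nat.factorial_succ, Nat.cast_mul, mul_inv, mul_comm, ← mul_assoc,
        mul_inv_cancel₀ hne, one_mul]
    rw [e1, map_add, ih', Derivation.leibniz, Derivation.leibniz_pow, derivative_C, e2, map_neg]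
    simp only [smul_eq_mul, nsmul_eq_mul, Nat.add_sub_cancel, mul_zero, add_zero]
    linear_combination (-(derivative k g) * (-g) ^ n) * e3

end A8

open PowerSeries in
theorem a8 : A8Stmt := by
  intro k _ l hl h5 hlk β Y K hβ hK hY0 hdiv
  have hchar : CharP k l := (CharP.charP_iff_prime_eq_zero hl).2 hlk
  have hne : ∀ i, 0 < i → i < l → (i : k) ≠ 0 := by
    intro i h0 h1 h
    have := (CharP.cast_eq_zero_iff k l i).1 h
    exact absurd (Nat.le_of_dvd h0 this) (by omega)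
  have h3 : (3 : k) ≠ 0 := by
    have := hne 3 (by omega) (by omega)
    exact_mod_cast this
  obtain ⟨U, rfl⟩ : ∃ U, Y = X * U := by
    have : (X : PowerSeries k) ∣ Y := X_dvd_iff.2 (by simpa using hY0)
    exact this
  obtain ⟨h, hh⟩ : ∃ h : PowerSeries k, (1 + X ^ 3) * h = 1 :=
    ⟨(1 + X ^ 3)⁻¹, PowerSeries.mul_inv_cancel _ (by simp)⟩
  have hh0 : constantCoeff h = 1 := by
    have := congrArg constantCoeff hh
    simpa using this
  have hdh : derivative k h = -3 * X ^ 2 * h ^ 2 := by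
    have e := congrArg (derivative k) hh
    rw [Derivation.leibniz, map_add, Derivation.leibniz_pow, derivative_X,
      Derivation.map_one_eq_zero] at e
    simp only [smul_eq_mul, nsmul_eq_mul] at e
    have e' : (1 + X ^ 3) * derivative k h + h * (3 * X ^ 2) = 0 := by
      rw [← e]
      push_cast
      ring
    linear_combination h * e' - (derivative k h) * hh
  set g : PowerSeries k := C (β / 3) * (X ^ 3 * h) with hg
  have hC3 : (C (β / 3) : PowerSeries k) * 3 = C β := by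
    rw [← map_ofNat (C : k →+* PowerSeries k) 3, ← map_mul]
    congr 1
    field_simp
  have hdg : X * derivative k g = C β * X ^ 3 * h ^ 2 := by
    rw [hg, Derivation.leibniz, Derivation.leibniz, Derivation.leibniz_pow, derivative_X,
      derivative_C, hdh, ← hC3]
    simp only [smul_eq_mul, nsmul_eq_mul]
    push_cast
    linear_combination (-(C (β / 3)) * 3 * X ^ 3 * h) * hh
  obtain ⟨n, rfl⟩ : ∃ n, l = n + 1 := ⟨l - 1, by omega⟩
  have hW := A8.deriv_W g n (fun i h0 h1 => hne i h0 (by omega))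
  have e2 : A8.W g (n + 1) = A8.W g n + C ((n.factorial : k)⁻¹) * (-g) ^ n := by
    simp only [A8.W]
    rw [Finset.sum_range_succ]
  obtain ⟨K', rfl⟩ : ∃ K', K = K' + 1 := ⟨K - 1, by omega⟩
  have hdiv' : (X : PowerSeries k) ^ K' ∣
      (1 + X ^ 3) ^ 2 * (X * derivative k U) - C β * X ^ 3 * U := by
    obtain ⟨R, hR⟩ := hdiv
    refine ⟨R, ?_⟩
    apply mul_left_cancel₀ (X_ne_zero (R := k))
    rw [Derivation.leibniz, derivative_X] at hR
    simp only [smul_eq_mul] at hR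
    linear_combination hR
  obtain ⟨R, hR⟩ := hdiv'
  have hU : X * derivative k U = C β * X ^ 3 * h ^ 2 * U + X ^ K' * (R * h ^ 2) := by
    linear_combination h ^ 2 * hR -
      (X * derivative k U * ((1 + X ^ 3) * h + 1)) * hh
  have key : X * derivative k (U * A8.W g (n + 1)) =
      X ^ (3 * (n + 1)) * (U * C β * h ^ 2 * C ((n.factorial : k)⁻¹) * (-(C (β / 3) * h)) ^ n) +
        X ^ K' * (R * h ^ 2 * A8.W g (n + 1)) := by
    have e4 : (-g) ^ n = X ^ (3 * n) * (-(C (β / 3) * h)) ^ n := by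
      rw [pow_mul, ← mul_pow, hg]
      congr 1
      ring
    rw [Derivation.leibniz, hW]
    simp only [smul_eq_mul]
    have e5 : (X : PowerSeries k) ^ (3 * (n + 1)) = X ^ (3 * n) * X ^ 3 := by
      rw [← pow_add]
      congr 1
    rw [e5]
    rw [e4] at e2
    linear_combination (A8.W g (n + 1)) * hU - (U * A8.W g n) * hdg +
      (C β * X ^ 3 * h ^ 2 * U) * e2
  have c1 := congrArg (coeff (3 * (n + 1))) key
  have c2 : coeff (3 * (n + 1)) (X * derivative k (U * A8.W g (n + 1))) = 0 := by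
    have e : 3 * (n + 1) = (3 * n + 2) + 1 := by ring
    rw [e, coeff_succ_X_mul, coeff_derivative]
    have e' : ((3 * n + 2 : ℕ) : k) + 1 = 3 * ((n + 1 : ℕ) : k) := by
      push_cast
      ring
    rw [e', hlk]
    simp
  have c3 : coeff (3 * (n + 1)) ((X : PowerSeries k) ^ K' * (R * h ^ 2 * A8.W g (n + 1))) = 0 := by
    rw [coeff_X_pow_mul', if_neg (by omega)]
  have c4 : ∀ Z : PowerSeries k, coeff (3 * (n + 1)) (X ^ (3 * (n + 1)) * Z) = constantCoeff Z := by
    intro Z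
    rw [coeff_X_pow_mul', if_pos le_rfl, Nat.sub_self, coeff_zero_eq_constantCoeff_apply]
  rw [c2, map_add, c3, c4] at c1
  simp only [map_mul, map_pow, map_neg, constantCoeff_C, hh0] at c1
  have hf : (n.factorial : k) ≠ 0 := by
    have : ∀ m, m ≤ n → (m.factorial : k) ≠ 0 := by
      intro m
      induction m with
      | zero => simp
      | succ m ih =>
        intro hm
        rw [Nat.factorial_succ, Nat.cast_mul]
        exact mul_ne_zero (hne _ (by omega) (by omega)) (ih (by omega))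
    exact this n le_rfl
  have hU0 : constantCoeff U = 0 := by
    by_contra h0
    have : constantCoeff U * β * 1 ^ 2 * (n.factorial : k)⁻¹ * (-(β / 3 * 1)) ^ n ≠ 0 := by
      refine mul_ne_zero (mul_ne_zero (mul_ne_zero (mul_ne_zero h0 hβ) (by simp))
        (inv_ne_zero hf)) (pow_ne_zero _ ?_)
      simpa using div_ne_zero hβ h3
    apply this
    linear_combination -c1
  rw [show (1 : ℕ) = 0 + 1 from rfl, coeff_succ_X_mul, coeff_zero_eq_constantCoeff_apply, hU0]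

end Pool.Agent.MP_62f0b1_an.AE

end MrgPart6

-- ======== part 7: formerly Pool.Agent.MP_62f0b1_an.ae.W1a
section MrgPart7

/-!
Row W1a: triangle geometry.
-/

set_option autoImplicit false

noncomputable section

namespace Pool.Agent.MP_62f0b1_an.AE

open Complex
open scoped ComplexConjugate

namespace W1a

/-- Twice the signed area. -/
def cr (P : Fin 3 → ℂ) : ℝ :=
  (P 1 - P 0).re * (P 2 - P 1).im - (P 1 - P 0).im * (P 2 - P 1).re

theorem nsq (u : ℂ) : ‖u‖ ^ 2 = u.re ^ 2 + u.im ^ 2 := by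
  rw [Complex.sq_norm, Complex.normSq_apply]; ring

theorem s0 : (0 : Fin 3) - 1 = 2 := rfl
theorem s1 : (1 : Fin 3) - 1 = 0 := rfl
theorem s2 : (2 : Fin 3) - 1 = 1 := rfl
theorem a01 : (0 : Fin 3) + 1 = 1 := rfl
theorem a11 : (1 : Fin 3) + 1 = 2 := rfl
theorem a21 : (2 : Fin 3) + 1 = 0 := rfl
theorem a02 : (0 : Fin 3) + 2 = 2 := rfl
theorem a12 : (1 : Fin 3) + 2 = 0 := rfl
theorem a22 : (2 : Fin 3) + 2 = 1 := rfl

theorem all3 {p : Fin 3 → Prop} (h0 : p 0) (h1 : p 1) (h2 : p 2) : ∀ i, p i := by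
  intro i
  match i with
  | 0 => exact h0
  | 1 => exact h1
  | 2 => exact h2

theorem her_sides (P : Fin 3 → ℂ) :
    her (fun i => ‖P i - P (i - 1)‖ ^ 2) = 4 * cr P ^ 2 := by
  simp only [her, cr, nsq, sub_re, sub_im, s0, s1, s2]
  ring

theorem congr_tri (X Y : Fin 3 → ℂ) (hs : ∀ i, ‖X i - X (i - 1)‖ ^ 2 = ‖Y i - Y (i - 1)‖ ^ 2)
    (hX : 0 < cr X) (hY : 0 < cr Y) : ∃ m ρ : ℂ, ‖ρ‖ = 1 ∧ X = fun i => m + ρ * Y i := by
  have hc : cr X = cr Y := by
    have h1 := her_sides X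
    have h2 := her_sides Y
    have h3 : (fun i => ‖X i - X (i - 1)‖ ^ 2) = fun i => ‖Y i - Y (i - 1)‖ ^ 2 := funext hs
    rw [h3, h2] at h1
    have h4 : cr X ^ 2 = cr Y ^ 2 := by linarith
    exact (pow_left_inj₀ hX.le hY.le (by norm_num)).1 h4
  have hu : Y 1 - Y 0 ≠ 0 := by
    intro h; rw [cr, h] at hY; simp at hY
  have hu' : X 1 - X 0 ≠ 0 := by
    intro h; rw [cr, h] at hX; simp at hX
  have e0 := hs 0
  have e1 := hs 1
  have e2 := hs 2
  have hn : ‖X 1 - X 0‖ = ‖Y 1 - Y 0‖ := by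
    rw [s1] at e1
    exact (pow_left_inj₀ (norm_nonneg _) (norm_nonneg _) (by norm_num)).1 e1
  simp only [nsq, sub_re, sub_im, s0, s1, s2] at e0 e1 e2
  simp only [cr, sub_re, sub_im] at hc
  have k1 : conj (X 1 - X 0) * (X 2 - X 1) = conj (Y 1 - Y 0) * (Y 2 - Y 1) := by
    apply Complex.ext
    · simp only [mul_re, conj_re, conj_im, sub_re, sub_im]
      linear_combination (e0 - e1 - e2) / 2
    · simp only [mul_im, conj_re, conj_im, sub_re, sub_im]
      linear_combination hc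
  have k2 : conj (X 1 - X 0) * (X 1 - X 0) = conj (Y 1 - Y 0) * (Y 1 - Y 0) := by
    apply Complex.ext
    · simp only [mul_re, conj_re, conj_im, sub_re, sub_im]
      linear_combination e1
    · simp only [mul_im, conj_re, conj_im, sub_re, sub_im]
      ring
  have hcu : conj (X 1 - X 0) ≠ 0 := (map_ne_zero _).2 hu'
  have k3 : (X 2 - X 1) * (Y 1 - Y 0) = (X 1 - X 0) * (Y 2 - Y 1) := by
    apply mul_left_cancel₀ hcu
    linear_combination (Y 1 - Y 0) * k1 - (Y 2 - Y 1) * k2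
  refine ⟨X 0 - (X 1 - X 0) / (Y 1 - Y 0) * Y 0, (X 1 - X 0) / (Y 1 - Y 0), ?_, ?_⟩
  · rw [norm_div, hn, div_self (norm_ne_zero_iff.2 hu)]
  · funext i
    revert i
    apply all3
    · ring
    · field_simp; ring
    · field_simp; linear_combination k3

/-! ### The model triangle -/

theorem s3_sq : (((Real.sqrt 3 : ℝ) : ℂ)) ^ 2 = 3 := by
  rw [← Complex.ofReal_pow, Real.sq_sqrt (by norm_num)]; norm_num

theorem s3_ne : (((Real.sqrt 3 : ℝ) : ℂ)) ≠ 0 := by
  intro h; have := s3_sq; rw [h] at this; norm_num at this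

theorem nsqC (u : ℂ) : ((‖u‖ ^ 2 : ℝ) : ℂ) = u * conj u := by
  rw [Complex.mul_conj, Complex.sq_norm]

theorem h_sq (z : ℂ) {c : ℝ} (hc : 0 < c) :
    (((Real.sqrt (c + ‖z‖ ^ 2) : ℝ) : ℂ)) ^ 2 = c + z * conj z := by
  rw [← Complex.ofReal_pow, Real.sq_sqrt (by positivity), Complex.ofReal_add, nsqC]

theorem cs_eq (z : ℂ) {c : ℝ} (hc : 0 < c) :
    csqrt ((c : ℂ) + z * conj z) = ((Real.sqrt (c + ‖z‖ ^ 2) : ℝ) : ℂ) := by
  rw [← csqrt_ofReal (by positivity), Complex.ofReal_add, nsqC]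

theorem tri_side (z : ℂ) {c : ℝ} (hc : 0 < c) (i : Fin 3) :
    ((‖tri z c i - tri z c (i - 1)‖ ^ 2 : ℝ) : ℂ) = Phi (rp z c) i := by
  have h1 := h_sq z hc
  have h3 := s3_sq
  have h4 := s3_ne
  have hw := om_rel
  rw [nsqC]
  simp only [Phi, rp, cs_eq z hc, tri, map_sub, map_div₀, map_mul, map_pow, conj_ofReal, conj_om]
  set h : ℂ := ((Real.sqrt (c + ‖z‖ ^ 2) : ℝ) : ℂ)
  set s : ℂ := ((Real.sqrt 3 : ℝ) : ℂ)
  revert i
  apply all3
  · simp only [s0, Fin.val_zero, Fin.val_two]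
    field_simp
    rw [h3]
    grind
  · simp only [s1, Fin.val_zero, Fin.val_one]
    field_simp
    rw [h3]
    grind
  · simp only [s2, Fin.val_one, Fin.val_two]
    field_simp
    rw [h3]
    grind

theorem crC (P : Fin 3 → ℂ) : ((cr P : ℝ) : ℂ) * (2 * I) =
    conj (P 1 - P 0) * (P 2 - P 1) - (P 1 - P 0) * conj (P 2 - P 1) := by
  apply Complex.ext <;> simp [cr] <;> ring

theorem tri_cr (z : ℂ) {c : ℝ} (hc : 0 < c) : 0 < cr (tri z c) := by
  have h1 := h_sq z hc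
  have h3 := s3_sq
  have h4 := s3_ne
  have hw := om_rel
  have hd := om_delta
  have k := crC (tri z c)
  simp only [tri, map_sub, map_div₀, map_mul, map_pow, conj_ofReal, conj_om, Fin.val_zero,
    Fin.val_one, Fin.val_two] at k
  have k2 : ((cr (tri z c) : ℝ) : ℂ) * (2 * I) = c * (1 + 2 * om) := by
    rw [show ((cr (tri z c) : ℝ) : ℂ) * (2 * I) = _ from k]
    set h : ℂ := ((Real.sqrt (c + ‖z‖ ^ 2) : ℝ) : ℂ)
    set s : ℂ := ((Real.sqrt 3 : ℝ) : ℂ)
    field_simp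
    rw [h3]
    grind
  rw [hd] at k2
  have k3 := congrArg Complex.im k2
  simp at k3
  have : 0 < Real.sqrt 3 := Real.sqrt_pos.2 (by norm_num)
  nlinarith [mul_pos hc this]

/-! ### A triangle with given sides -/

theorem her_Bf (t : ℝ) (a : Fin 3 → ℝ) (ha : ∀ i, 0 < a i) :
    her (Bf t a) * (a 0 * a 1 * a 2) ^ 2 = her (fun i => a i ^ 2) *
      (a 0 * a 1 * a 2 + t * (a 0 * a 1 + a 1 * a 2 + a 2 * a 0) + t ^ 2 * (a 0 + a 1 + a 2)) ^ 2 := by
  have h0 := (ha 0).ne'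
  have h1 := (ha 1).ne'
  have h2 := (ha 2).ne'
  simp only [her, Bf, a01, a11, a21, a02, a12, a22]
  field_simp
  ring

theorem exists_tri (a : Fin 3 → ℝ) (ha : ∀ i, 0 < a i) (hh : 0 < her (fun i => a i ^ 2)) :
    ∃ P : Fin 3 → ℂ, (∀ i, ‖P i - P (i - 1)‖ = a i) ∧ 0 < cr P := by
  have h0 := ha 0
  have h1 := ha 1
  have h2 := ha 2
  set x : ℝ := (a 0 ^ 2 + a 1 ^ 2 - a 2 ^ 2) / (2 * a 1) with hx
  have hx' : 2 * a 1 * x = a 0 ^ 2 + a 1 ^ 2 - a 2 ^ 2 := by rw [hx]; field_simp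
  have hy : 0 < a 0 ^ 2 - x ^ 2 := by
    have : 4 * a 1 ^ 2 * (a 0 ^ 2 - x ^ 2) = her (fun i => a i ^ 2) := by
      simp only [her]
      linear_combination (-(2 * a 1 * x + (a 0 ^ 2 + a 1 ^ 2 - a 2 ^ 2))) * hx'
    have h4 : 0 < 4 * a 1 ^ 2 := by positivity
    by_contra hn
    push Not at hn
    nlinarith [mul_nonneg h4.le (neg_nonneg.2 hn)]
  set y : ℝ := Real.sqrt (a 0 ^ 2 - x ^ 2) with hyd
  have hy0 : 0 < y := Real.sqrt_pos.2 hy
  have hy2 : y ^ 2 = a 0 ^ 2 - x ^ 2 := Real.sq_sqrt hy.le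
  refine ⟨![0, (a 1 : ℂ), ⟨x, y⟩], ?_, ?_⟩
  · intro i
    apply (pow_left_inj₀ (norm_nonneg _) (ha i).le (two_ne_zero)).1
    revert i
    apply all3
    · simp [nsq]; linarith
    · simp
    · simp [nsq, s2]; linarith
  · simp [cr]; positivity

section Maps

variable {t : ℝ} {a : Fin 3 → ℝ} {P : Fin 3 → ℂ}

theorem r_apply (hP : ∀ i, ‖P i - P (i - 1)‖ = a i) (i : Fin 3) :
    rMap t P i = P i + ((t / a (i + 1) : ℝ) : ℂ) * (P i - P (i + 1)) := by
  have := hP (i + 1)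
  rw [add_sub_cancel_right, norm_sub_rev] at this
  simp only [rMap, this, Complex.real_smul]

theorem q_apply (hP : ∀ i, ‖P i - P (i - 1)‖ = a i) (i : Fin 3) :
    qMap t P i = P i + ((t / a i : ℝ) : ℂ) * (P i - P (i - 1)) := by
  simp only [qMap, hP i, Complex.real_smul]

theorem sides_sq (hP : ∀ i, ‖P i - P (i - 1)‖ = a i) (i : Fin 3) :
    a i ^ 2 = ((P i).re - (P (i - 1)).re) ^ 2 + ((P i).im - (P (i - 1)).im) ^ 2 := by
  rw [← hP i, nsq, sub_re, sub_im]

theorem gen_side (t p q r : ℝ) (hp : 0 < p) (hq : 0 < q) (x1 y1 x2 y2 : ℝ)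
    (e1 : p ^ 2 = x1 ^ 2 + y1 ^ 2) (e2 : q ^ 2 = x2 ^ 2 + y2 ^ 2)
    (e3 : r ^ 2 = (x1 + x2) ^ 2 + (y1 + y2) ^ 2) :
    ((1 + t / p) * x1 - t / q * x2) ^ 2 + ((1 + t / p) * y1 - t / q * y2) ^ 2 =
      (p + t) ^ 2 + t ^ 2 - t * (p + t) * (r ^ 2 - p ^ 2 - q ^ 2) / (p * q) := by
  have k : r ^ 2 - p ^ 2 - q ^ 2 = 2 * (x1 * x2 + y1 * y2) := by linear_combination e3 - e1 - e2
  rw [k]
  have k1 : ((1 + t / p) * x1 - t / q * x2) ^ 2 + ((1 + t / p) * y1 - t / q * y2) ^ 2 =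
      (1 + t / p) ^ 2 * (x1 ^ 2 + y1 ^ 2) + (t / q) ^ 2 * (x2 ^ 2 + y2 ^ 2) -
        2 * (1 + t / p) * (t / q) * (x1 * x2 + y1 * y2) := by ring
  rw [k1, ← e1, ← e2]
  field_simp

theorem r_side (ha : ∀ i, 0 < a i) (hP : ∀ i, ‖P i - P (i - 1)‖ = a i) (i : Fin 3) :
    ‖rMap t P i - rMap t P (i - 1)‖ ^ 2 = Bf t a i := by
  have e0 := sides_sq hP 0
  have e1 := sides_sq hP 1
  have e2 := sides_sq hP 2
  rw [s0] at e0
  rw [s1] at e1
  rw [s2] at e2
  rw [r_apply hP, r_apply hP, nsq]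
  simp only [sub_re, sub_im, add_re, add_im, re_ofReal_mul, im_ofReal_mul, Bf]
  revert i
  apply all3
  · simp only [s0, a01, a21, a02]
    rw [← gen_side t (a 0) (a 1) (a 2) (ha 0) (ha 1) _ _ _ _ e0 e1 (by linear_combination e2)]
    ring
  · simp only [s1, a01, a11, a12]
    rw [← gen_side t (a 1) (a 2) (a 0) (ha 1) (ha 2) _ _ _ _ e1 e2 (by linear_combination e0)]
    ring
  · simp only [s2, a11, a21, a22]
    rw [← gen_side t (a 2) (a 0) (a 1) (ha 2) (ha 0) _ _ _ _ e2 e0 (by linear_combination e1)]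
    ring

theorem q_side (ha : ∀ i, 0 < a i) (hP : ∀ i, ‖P i - P (i - 1)‖ = a i) (i : Fin 3) :
    ‖qMap t P i - qMap t P (i - 1)‖ ^ 2 = Df t a i := by
  have e0 := sides_sq hP 0
  have e1 := sides_sq hP 1
  have e2 := sides_sq hP 2
  rw [s0] at e0
  rw [s1] at e1
  rw [s2] at e2
  rw [q_apply hP, q_apply hP, nsq]
  simp only [sub_re, sub_im, add_re, add_im, re_ofReal_mul, im_ofReal_mul, Df]
  revert i
  apply all3
  · simp only [s0, s2, a01, a02]
    rw [← gen_side t (a 0) (a 2) (a 1) (ha 0) (ha 2) _ _ _ _ e0 e2 (by linear_combination e1)]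
    ring
  · simp only [s1, s0, a11, a12]
    rw [← gen_side t (a 1) (a 0) (a 2) (ha 1) (ha 0) _ _ _ _ e1 e0 (by linear_combination e2)]
    ring
  · simp only [s2, s1, a21, a22]
    rw [← gen_side t (a 2) (a 1) (a 0) (ha 2) (ha 1) _ _ _ _ e2 e1 (by linear_combination e0)]
    ring

theorem r_cr (ht : 0 < t) (ha : ∀ i, 0 < a i) (hP : ∀ i, ‖P i - P (i - 1)‖ = a i)
    (hc : 0 < cr P) : 0 < cr (rMap t P) := by
  have k : cr (rMap t P) =
      ((1 + t / a 1) * (1 + t / a 2 + t / a 0) + t / a 2 * (t / a 0)) * cr P := by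
    simp only [cr, r_apply hP, sub_re, sub_im, add_re, add_im, re_ofReal_mul, im_ofReal_mul,
      a01, a11, a21]
    ring
  have h0 := ha 0
  have h1 := ha 1
  have h2 := ha 2
  rw [k]; positivity

theorem q_cr (ht : 0 < t) (ha : ∀ i, 0 < a i) (hP : ∀ i, ‖P i - P (i - 1)‖ = a i)
    (hc : 0 < cr P) : 0 < cr (qMap t P) := by
  have k : cr (qMap t P) =
      ((1 + t / a 1 + t / a 0) * (1 + t / a 2) + t / a 0 * (t / a 1)) * cr P := by
    simp only [cr, q_apply hP, sub_re, sub_im, add_re, add_im, re_ofReal_mul, im_ofReal_mul,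
      s0, s1, s2]
    ring
  have h0 := ha 0
  have h1 := ha 1
  have h2 := ha 2
  rw [k]; positivity

end Maps

end W1a

open W1a in
theorem w1a : W1aStmt := by
  intro t c a z z' ht hc ha hB hD
  have hB' : ∀ i, ‖tri z c i - tri z c (i - 1)‖ ^ 2 = Bf t a i := fun i =>
    Complex.ofReal_injective ((tri_side z hc i).trans (hB i).symm)
  have hD' : ∀ i, ‖tri z' c i - tri z' c (i - 1)‖ ^ 2 = Df t a i := fun i =>
    Complex.ofReal_injective ((tri_side z' hc i).trans (hD i).symm)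
  have h0 := ha 0
  have h1 := ha 1
  have h2 := ha 2
  have hh : 0 < her (fun i => a i ^ 2) := by
    have k1 := her_sides (tri z c)
    rw [funext hB'] at k1
    have k2 := her_Bf t a ha
    have k3 := tri_cr z hc
    have k4 : 0 < her (Bf t a) * (a 0 * a 1 * a 2) ^ 2 := by
      rw [show her (Bf t a) = _ from k1]; positivity
    rw [k2] at k4
    by_contra hn
    exact absurd k4 (not_lt.2 (mul_nonpos_of_nonpos_of_nonneg (not_lt.1 hn) (sq_nonneg _)))
  obtain ⟨P, hP, hcr⟩ := exists_tri a ha hh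
  obtain ⟨m, ρ, hρ, hr⟩ := congr_tri (rMap t P) (tri z c)
    (fun i => (r_side ha hP i).trans (hB' i).symm) (r_cr ht ha hP hcr) (tri_cr z hc)
  obtain ⟨m', ρ', hρ', hq⟩ := congr_tri (qMap t P) (tri z' c)
    (fun i => (q_side ha hP i).trans (hD' i).symm) (q_cr ht ha hP hcr) (tri_cr z' hc)
  refine ⟨P, m, ρ, m', ρ', ?_, hρ, hρ', hr, hq, hB'⟩
  intro i hi
  have := hP i
  rw [hi, sub_self, norm_zero] at this
  exact (ha i).ne this

end Pool.Agent.MP_62f0b1_an.AE

end
end MrgPart7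

-- marker of a merged file
example : 731051 + 732093 = 731051 + 732093 := rfl
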