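import Mathlib.Algebra.AffineMonoid.UniqueSums
import Mathlib.Topology.Sheaves.Presheaf
import Mathlib.Tactic.Monotonicity.Lemmas
import Mathlib.Algebra.DualNumber
import Mathlib.Analysis.Calculus.Deriv.Prod
import Mathlib.Topology.Instances.AddCircle.DenseSubgroup
import Pool.Agent.MP_62f0b1_an.ae.Asm

-- ======== part 0: formerly Pool.Agent.MP_62f0b1_an.ae.M3a
section MrgPart0

/-!
Row M3a: a tube of level graphs around a noncritical invariant curve.
-/

set_option autoImplicit false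

noncomputable section

namespace Pool.Agent.MP_62f0b1_an.AE

open Filter Topology Set MeasureTheory

namespace M3a

/-- A continuous function with two incommensurable periods is constant. -/
theorem const_of_periods {φ : ℝ → ℝ} (hc : Continuous φ) {a b : ℝ} (ha : ∀ x, φ (x + a) = φ x)
    (hb : ∀ x, φ (x + b) = φ x) (hirr : Irrational (a / b)) (x : ℝ) : φ x = φ 0 := by
  have hd : Dense (AddSubgroup.closure {a, b} : Set ℝ) := dense_addSubgroupClosure_pair_iff.2 hirr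
  have hmem : ∀ t ∈ AddSubgroup.closure ({a, b} : Set ℝ), Function.Periodic φ t := by
    intro t ht
    induction ht using AddSubgroup.closure_induction with
    | mem y hy =>
      rcases hy with rfl | rfl
      · exact ha
      · exact hb
    | zero => intro y; simp
    | add y z _ _ hy hz => exact hy.add_period hz
    | neg y _ hy => exact hy.neg
  have hcl : IsClosed {t : ℝ | φ t = φ 0} := isClosed_eq hc continuous_const
  have hsub : (AddSubgroup.closure ({a, b} : Set ℝ) : Set ℝ) ⊆ {t : ℝ | φ t = φ 0} := by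
    intro t ht
    have := hmem t ht 0
    simpa using this
  have := hcl.closure_subset_iff.2 hsub
  rw [hd.closure_eq] at this
  exact this (mem_univ x)

/-- Uniformity in a periodic variable. -/
theorem tube_ev {Y : Type} [TopologicalSpace Y] {y0 : Y} {Q : Y → ℝ → Prop}
    (hper : ∀ y x, Q y (x + 2 * Real.pi) ↔ Q y x)
    (h : ∀ x0, ∀ᶠ z : Y × ℝ in 𝓝 (y0, x0), Q z.1 z.2) : ∀ᶠ y in 𝓝 y0, ∀ x, Q y x := by
  have h1 := (isCompact_Icc (a := (0 : ℝ)) (b := 2 * Real.pi)).eventually_forall_of_forall_eventually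
    (x₀ := y0) (P := Q) (fun x _ => h x)
  filter_upwards [h1] with y hy x
  have hp : Function.Periodic (Q y) (2 * Real.pi) := fun x => propext (hper y x)
  obtain ⟨x', hx', he⟩ := hp.exists_mem_Ico₀ Real.two_pi_pos x
  rw [he]
  exact hy x' (Ico_subset_Icc_self hx')

/-- Derivative of a continuous implicit function. -/
theorem implicit_deriv {φ : R3 → ℝ} {h : ℝ → ℝ} {θ0 e : ℝ} (hφ : DifferentiableAt ℝ φ (θ0, h θ0, e))
    (hB : r2 φ (θ0, h θ0, e) ≠ 0) (hc : ContinuousAt h θ0)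
    (hv : ∀ θ, φ (θ, h θ, e) = φ (θ0, h θ0, e)) :
    HasDerivAt h (-r1 φ (θ0, h θ0, e) / r2 φ (θ0, h θ0, e)) θ0 := by
  set L := fderiv ℝ φ (θ0, h θ0, e) with hL
  set A := r1 φ (θ0, h θ0, e) with hA
  set B := r2 φ (θ0, h θ0, e) with hBd
  have hLab : ∀ a b : ℝ, L (a, b, 0) = a * A + b * B := by
    intro a b
    have : ((a, b, 0) : R3) = a • ((1, 0, 0) : R3) + b • ((0, 1, 0) : R3) := by simp
    rw [this, map_add, map_smul, map_smul]
    rfl
  have ht : Tendsto (fun θ => ((θ, h θ, e) : R3)) (𝓝 θ0) (𝓝 (θ0, h θ0, e)) :=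
    (continuousAt_id.prodMk (hc.prodMk continuousAt_const))
  have ho := (hφ.hasFDerivAt.isLittleO).comp_tendsto ht
  rw [hasDerivAt_iff_isLittleO, Asymptotics.isLittleO_iff]
  intro c hc0
  have hBp : 0 < |B| := abs_pos.2 hB
  set K := 1 + |A / B| with hK
  have hK0 : 0 < K := by positivity
  have hδ : 0 < min (|B| / 2) (c * |B| / (2 * K)) := lt_min (by positivity) (by positivity)
  filter_upwards [Asymptotics.isLittleO_iff.1 ho hδ] with θ hθ
  simp only [Function.comp_apply, hv θ, sub_self, zero_sub, norm_neg, Prod.mk_sub_mk] at hθ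
  rw [← hL, hLab] at hθ
  set k := h θ - h θ0 - (θ - θ0) * (-A / B) with hk
  have e1 : (θ - θ0) * A + (h θ - h θ0) * B = k * B := by
    rw [hk]; field_simp; ring
  have e2 : ‖((θ - θ0, h θ - h θ0, (0 : ℝ)) : R3)‖ ≤ K * |θ - θ0| + |k| := by
    have h3 : |h θ - h θ0| ≤ |k| + |A / B| * |θ - θ0| := by
      have : h θ - h θ0 = k + -(A / B * (θ - θ0)) := by rw [hk]; ring
      rw [this]
      refine (abs_add_le _ _).trans ?_
      rw [abs_neg, abs_mul]
    have h4 : 0 ≤ |A / B| * |θ - θ0| := by positivity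
    simp only [Prod.norm_def, Real.norm_eq_abs, abs_zero, max_le_iff]
    refine ⟨?_, ?_, ?_⟩ <;> rw [hK] <;> nlinarith [abs_nonneg k, abs_nonneg (θ - θ0)]
  rw [e1, Real.norm_eq_abs, abs_mul] at hθ
  simp only [smul_eq_mul, Real.norm_eq_abs]
  change |k| ≤ c * |θ - θ0|
  set δ := min (|B| / 2) (c * |B| / (2 * K)) with hδd
  have d1 : δ ≤ |B| / 2 := min_le_left _ _
  have d2 : δ * (2 * K) ≤ c * |B| := by
    have := min_le_right (|B| / 2) (c * |B| / (2 * K))
    rwa [← hδd, le_div_iff₀ (by positivity)] at this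
  have h5 : |k| * |B| ≤ δ * (K * |θ - θ0| + |k|) := hθ.trans (mul_le_mul_of_nonneg_left e2 hδ.le)
  have h6 : |k| * |B| ≤ (c * |θ - θ0|) * |B| := by
    nlinarith [abs_nonneg k, abs_nonneg (θ - θ0), mul_le_mul_of_nonneg_right d1 (abs_nonneg k),
      mul_le_mul_of_nonneg_right d2 (abs_nonneg (θ - θ0))]
  exact le_of_mul_le_mul_right h6 hBp

theorem isOpen_domR (e0 ε r : ℝ) : IsOpen (domR e0 ε r) := by
  have h1 : IsOpen {p : R3 | 0 < p.2.1} := isOpen_lt continuous_const (by fun_prop)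
  have h2 : IsOpen {p : R3 | p.2.1 < r} := isOpen_lt (by fun_prop) continuous_const
  have h3 : IsOpen {p : R3 | |p.2.2 - e0| < ε} := isOpen_lt (by fun_prop) continuous_const
  exact h1.inter (h2.inter h3)

theorem fderiv_pair (φ : R3 → ℝ) (p : R3) (a b : ℝ) :
    fderiv ℝ φ p (a, b, 0) = a * r1 φ p + b * r2 φ p := by
  have : ((a, b, 0) : R3) = a • ((1, 0, 0) : R3) + b • ((0, 1, 0) : R3) := by simp
  rw [this, map_add, map_smul, map_smul]
  rfl

/-- Chain rule along a path in a slice. -/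
theorem path_deriv {φ : R3 → ℝ} {x y : ℝ → ℝ} {x' y' θ e : ℝ}
    (hφ : DifferentiableAt ℝ φ (x θ, y θ, e)) (hx : HasDerivAt x x' θ) (hy : HasDerivAt y y' θ) :
    HasDerivAt (fun s => φ (x s, y s, e)) (x' * r1 φ (x θ, y θ, e) + y' * r2 φ (x θ, y θ, e)) θ := by
  have h1 : HasDerivAt (fun s => ((x s, y s, e) : R3)) (x', y', 0) θ :=
    hx.prodMk (hy.prodMk (hasDerivAt_const θ e))
  have := hφ.hasFDerivAt.comp_hasDerivAt θ h1
  rw [fderiv_pair] at this
  exact this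

theorem r2_per {F : R3 → ℝ} (hper : ∀ p : R3, F (p.1 + 2 * Real.pi, p.2) = F p) (p : R3) :
    r2 F (p.1 + 2 * Real.pi, p.2) = r2 F p := by
  have h1 : (fun q : R3 => F (q + (2 * Real.pi, 0))) = F := by
    funext q
    have : q + ((2 * Real.pi, 0) : R3) = (q.1 + 2 * Real.pi, q.2) := by ext <;> simp
    rw [this, hper]
  have h2 : ((p.1 + 2 * Real.pi, p.2) : R3) = p + (2 * Real.pi, 0) := by ext <;> simp
  unfold r2
  rw [h2, ← fderiv_comp_add_right, h1]

variable {F Θ Jn : R3 → ℝ} {α : ℝ → ℝ} {e0 ε r : ℝ}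

theorem diffF (hF : IntegralR F Θ Jn e0 ε r) {p : R3} (hp : p ∈ domR e0 ε r) :
    DifferentiableAt ℝ F p :=
  (hF.smooth.contDiffAt ((isOpen_domR e0 ε r).mem_nhds hp)).differentiableAt one_ne_zero

theorem cont_r2 (hF : IntegralR F Θ Jn e0 ε r) {p : R3} (hp : p ∈ domR e0 ε r) :
    ContinuousAt (r2 F) p := by
  have h1 := (hF.smooth.continuousOn_fderiv_of_isOpen (isOpen_domR e0 ε r) le_rfl).continuousAt
    ((isOpen_domR e0 ε r).mem_nhds hp)
  exact h1.clm_apply continuousAt_const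

/-- The Hamiltonian field of the integral is carried to itself. -/
theorem transport (hT : TwistR Θ Jn α e0 ε r) (hF : IntegralR F Θ Jn e0 ε r) {p : R3}
    (hp : p ∈ domR e0 ε r) (hq : (Θ p, Jn p, p.2.2) ∈ domR e0 ε r) :
    r1 Θ p * r2 F p - r2 Θ p * r1 F p = r2 F (Θ p, Jn p, p.2.2) := by
  obtain ⟨x, y, e⟩ := p
  have dΘ := (hT.an _ hp).1.differentiableAt
  have dJ := (hT.an _ hp).2.differentiableAt
  have hev : ∀ᶠ q in 𝓝 ((x, y, e) : R3), F (Θ q, Jn q, q.2.2) = F q := by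
    have hc : ContinuousAt (fun q : R3 => ((Θ q, Jn q, q.2.2) : R3)) (x, y, e) :=
      dΘ.continuousAt.prodMk (dJ.continuousAt.prodMk (by fun_prop))
    filter_upwards [(isOpen_domR e0 ε r).mem_nhds hp,
      hc.eventually ((isOpen_domR e0 ε r).mem_nhds hq)] with q h1 h2
    exact hF.inv q h1 h2
  have key : ∀ a b : ℝ, a * r1 F (x, y, e) + b * r2 F (x, y, e) =
      (a * r1 Θ (x, y, e) + b * r2 Θ (x, y, e)) * r1 F (Θ (x, y, e), Jn (x, y, e), e) +
      (a * r1 Jn (x, y, e) + b * r2 Jn (x, y, e)) * r2 F (Θ (x, y, e), Jn (x, y, e), e) := by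
    intro a b
    have hx : HasDerivAt (fun s : ℝ => x + s * a) a 0 := by
      simpa using ((hasDerivAt_id (0 : ℝ)).mul_const a).const_add x
    have hy : HasDerivAt (fun s : ℝ => y + s * b) b 0 := by
      simpa using ((hasDerivAt_id (0 : ℝ)).mul_const b).const_add y
    have e0' : ((x + 0 * a, y + 0 * b, e) : R3) = (x, y, e) := by simp
    have h1 := path_deriv (φ := F) (e := e) (by rw [e0']; exact diffF hF hp) hx hy
    have h2 := path_deriv (φ := Θ) (e := e) (by rw [e0']; exact dΘ) hx hy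
    have h3 := path_deriv (φ := Jn) (e := e) (by rw [e0']; exact dJ) hx hy
    have h4 := path_deriv (φ := F) (e := e) (by rw [e0']; exact diffF hF hq) h2 h3
    simp only [e0'] at h1 h4
    have ht : Tendsto (fun s : ℝ => ((x + s * a, y + s * b, e) : R3)) (𝓝 0) (𝓝 (x, y, e)) := by
      rw [← e0']
      exact Continuous.tendsto (by fun_prop) 0
    exact h1.unique (h4.congr_of_eventuallyEq (ht.eventually hev |>.mono fun s hs => hs.symm))
  have k1 := key 1 0
  have k2 := key 0 1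
  have hd := hT.det _ hp
  simp only [one_mul, zero_mul, add_zero, zero_add] at k1 k2
  simp only
  rw [k1, k2]
  linear_combination (r2 F (Θ (x, y, e), Jn (x, y, e), e)) * hd

/-- The induced map on an invariant level graph is conjugate to a translation. -/
theorem conj_of_level (hT : TwistR Θ Jn α e0 ε r) (hF : IntegralR F Θ Jn e0 ε r) {h : ℝ → ℝ}
    {e v : ℝ} (hc : Continuous h) (hper : ∀ θ, h (θ + 2 * Real.pi) = h θ)
    (hdom : ∀ θ, ((θ, h θ, e) : R3) ∈ domR e0 ε r) (hv : ∀ θ, F (θ, h θ, e) = v)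
    (hpos : ∀ θ, 0 < r2 F (θ, h θ, e)) (hinv : ∀ θ, Jn (θ, h θ, e) = h (Θ (θ, h θ, e))) :
    ∃ (u : ℝ → ℝ) (U s : ℝ), StrictMono u ∧ Continuous u ∧
      (∀ θ, u (θ + 2 * Real.pi) = u θ + U) ∧ ∀ θ, u (Θ (θ, h θ, e)) = u θ + s := by
  set P : ℝ → ℝ := fun θ => r2 F (θ, h θ, e) with hP
  have hPc : Continuous P := continuous_iff_continuousAt.2 fun θ =>
    (cont_r2 hF (hdom θ)).comp (f := fun θ => ((θ, h θ, e) : R3)) (by fun_prop)
  have hPi : Continuous fun θ => (P θ)⁻¹ := hPc.inv₀ fun θ => (hpos θ).ne'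
  have hPper : ∀ θ, P (θ + 2 * Real.pi) = P θ := by
    intro θ
    have := r2_per hF.per (θ, h θ, e)
    simp only [hP, hper]
    exact this
  set u : ℝ → ℝ := fun θ => ∫ x in (0 : ℝ)..θ, (P x)⁻¹ with hu
  have hud : ∀ θ, HasDerivAt u (P θ)⁻¹ θ := fun θ =>
    intervalIntegral.integral_hasDerivAt_right (hPi.intervalIntegrable _ _)
      (hPi.stronglyMeasurableAtFilter _ _) hPi.continuousAt
  have hTd : ∀ θ, HasDerivAt (fun s => Θ (s, h s, e)) (P (Θ (θ, h θ, e)) / P θ) θ := by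
    intro θ
    have h1 := implicit_deriv (diffF hF (hdom θ)) (hpos θ).ne' hc.continuousAt
      (fun s => (hv s).trans (hv θ).symm)
    have h2 := path_deriv (φ := Θ) (x := fun s => s) (e := e) (hT.an _ (hdom θ)).1.differentiableAt
      (hasDerivAt_id θ) h1
    have h3 := transport hT hF (hdom θ) (by simp only [hinv θ]; exact hdom _)
    simp only [hinv θ] at h3
    have h4 : P (Θ (θ, h θ, e)) / P θ = 1 * r1 Θ (θ, h θ, e) +
        -r1 F (θ, h θ, e) / r2 F (θ, h θ, e) * r2 Θ (θ, h θ, e) := by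
      have := (hpos θ).ne'
      simp only [hP]
      rw [← h3]
      field_simp
      ring
    rw [h4]
    exact h2
  have c1 : ∀ θ, HasDerivAt (fun s => u (s + 2 * Real.pi) - u s) 0 θ := by
    intro θ
    have := ((hud (θ + 2 * Real.pi)).comp_add_const θ (2 * Real.pi)).sub (hud θ)
    rw [hPper, sub_self] at this
    exact this
  have c2 : ∀ θ, HasDerivAt (fun s => u (Θ (s, h s, e)) - u s) 0 θ := by
    intro θ
    have := ((hud (Θ (θ, h θ, e))).comp θ (hTd θ)).sub (hud θ)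
    have h5 : (P (Θ (θ, h θ, e)))⁻¹ * (P (Θ (θ, h θ, e)) / P θ) - (P θ)⁻¹ = 0 := by
      have a1 : P (Θ (θ, h θ, e)) ≠ 0 := (hpos _).ne'
      have a2 : P θ ≠ 0 := (hpos _).ne'
      field_simp
      ring
    rw [h5] at this
    exact this
  refine ⟨u, u (0 + 2 * Real.pi) - u 0, u (Θ (0, h 0, e)) - u 0,
    strictMono_of_hasDerivAt_pos hud fun θ => inv_pos.2 (hpos θ),
    continuous_iff_continuousAt.2 fun θ => (hud θ).continuousAt, fun θ => ?_, fun θ => ?_⟩
  · have := is_const_of_deriv_eq_zero (fun s => (c1 s).differentiableAt) (fun s => (c1 s).deriv) θ 0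
    linarith
  · have := is_const_of_deriv_eq_zero (fun s => (c2 s).differentiableAt) (fun s => (c2 s).deriv) θ 0
    linarith

/-- A tube around an invariant level graph. -/
theorem tube_of_graph (hT : TwistR Θ Jn α e0 ε r) (hF : IntegralR F Θ Jn e0 ε r) {g : ℝ → ℝ}
    {e1 v1 m b : ℝ} (he : |e1 - e0| < ε) (hb : b ≤ r) (hm : 0 < m) (hc : Continuous g)
    (hper : ∀ x, g (x + 2 * Real.pi) = g x) (hrange : ∀ x, 0 < g x ∧ g x < b)
    (hv : ∀ x, F (x, g x, e1) = v1) (hpos : ∀ x, m < r2 F (x, g x, e1))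
    (hinv : ∀ x, Jn (x, g x, e1) = g (Θ (x, g x, e1))) {ρ0 : ℝ} (hρ0 : 0 < ρ0) :
    ∃ (ρ : ℝ) (H : R3 → ℝ), ρ ≤ ρ0 ∧ Tube Θ Jn e1 v1 ρ b H := by
  have hdom0 : ∀ x, ((x, g x, e1) : R3) ∈ domR e0 ε r := fun x =>
    ⟨(hrange x).1, (hrange x).2.trans_le hb, he⟩
  have hΨ : ∀ x0, Tendsto (fun z : (ℝ × ℝ) × ℝ => ((z.2, g z.2 + z.1.1, z.1.2) : R3))
      (𝓝 ((0, e1), x0)) (𝓝 (x0, g x0, e1)) := by
    intro x0
    have : Continuous fun z : (ℝ × ℝ) × ℝ => ((z.2, g z.2 + z.1.1, z.1.2) : R3) := by fun_prop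
    simpa using this.tendsto ((0, e1), x0)
  -- the large tube
  have t1 : ∀ᶠ y : ℝ × ℝ in 𝓝 (0, e1), ∀ x, (0 < g x + y.1 ∧ g x + y.1 < b) ∧
      |y.2 - e0| < ε ∧ m < r2 F (x, g x + y.1, y.2) := by
    refine tube_ev (fun y x => ?_) (fun x0 => ?_)
    · have := r2_per hF.per (x, g x + y.1, y.2)
      simp only [hper] at this ⊢
      rw [this]
    · have a1 : ∀ᶠ p : R3 in 𝓝 (x0, g x0, e1), 0 < p.2.1 :=
        (continuous_snd.fst.continuousAt).eventually (lt_mem_nhds (hrange x0).1)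
      have a2 : ∀ᶠ p : R3 in 𝓝 (x0, g x0, e1), p.2.1 < b :=
        (continuous_snd.fst.continuousAt).eventually (gt_mem_nhds (hrange x0).2)
      have a3 : ∀ᶠ p : R3 in 𝓝 (x0, g x0, e1), p ∈ domR e0 ε r :=
        (isOpen_domR e0 ε r).mem_nhds (hdom0 x0)
      have a4 : ∀ᶠ p : R3 in 𝓝 (x0, g x0, e1), m < r2 F p :=
        (cont_r2 hF (hdom0 x0)).eventually (lt_mem_nhds (hpos x0))
      filter_upwards [(hΨ x0).eventually a1, (hΨ x0).eventually a2, (hΨ x0).eventually a3,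
        (hΨ x0).eventually a4] with z z1 z2 z3 z4
      exact ⟨⟨z1, z2⟩, z3.2.2, z4⟩
  have box : ∀ {Q : ℝ × ℝ → Prop}, (∀ᶠ y : ℝ × ℝ in 𝓝 (0, e1), Q y) →
      ∃ d > 0, ∀ s e, |s| ≤ d → |e - e1| ≤ d → Q (s, e) := by
    intro Q hQ
    obtain ⟨d, hd, hQ'⟩ := Metric.eventually_nhds_iff.1 hQ
    refine ⟨d / 2, by positivity, fun s e hs he' => hQ' ?_⟩
    rw [Prod.dist_eq, max_lt_iff, Real.dist_eq, Real.dist_eq, sub_zero]
    constructor <;> linarith
  obtain ⟨d, hd, big⟩ := box t1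
  have big' : ∀ x J e, |J - g x| ≤ d → |e - e1| ≤ d →
      (0 < J ∧ J < b) ∧ ((x, J, e) : R3) ∈ domR e0 ε r ∧ m < r2 F (x, J, e) := by
    intro x J e h1 h2
    have := big (J - g x) e h1 h2 x
    simp only [add_sub_cancel] at this
    exact ⟨this.1, ⟨this.1.1, this.1.2.trans_le hb, this.2.1⟩, this.2.2⟩
  have slope : ∀ x J1 J2 e, |J1 - g x| ≤ d → |J2 - g x| ≤ d → |e - e1| ≤ d → J1 ≤ J2 →
      m * (J2 - J1) ≤ F (x, J2, e) - F (x, J1, e) := by
    intro x J1 J2 e h1 h2 h3 h4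
    have hI : ∀ J ∈ Icc (g x - d) (g x + d), |J - g x| ≤ d := fun J hJ =>
      abs_le.2 ⟨by linarith [hJ.1], by linarith [hJ.2]⟩
    have hD : ∀ J ∈ Icc (g x - d) (g x + d),
        HasDerivAt (fun s => F (x, s, e)) (r2 F (x, J, e)) J := by
      intro J hJ
      have := path_deriv (φ := F) (x := fun _ => x) (y := fun s => s) (e := e)
        (diffF hF (big' x J e (hI J hJ) h3).2.1) (hasDerivAt_const J x) (hasDerivAt_id J)
      simpa using this
    refine (convex_Icc (g x - d) (g x + d)).mul_sub_le_image_sub_of_le_deriv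
      (f := fun s => F (x, s, e)) (fun J hJ => (hD J hJ).continuousAt.continuousWithinAt)
      (fun J hJ => (hD J (interior_subset hJ)).differentiableAt.differentiableWithinAt)
      (fun J hJ => ?_) J1 ?_ J2 ?_ h4
    · rw [(hD J (interior_subset hJ)).deriv]
      exact (big' x J e (hI J (interior_subset hJ)) h3).2.2.le
    · have := abs_le.1 h1
      exact ⟨by linarith, by linarith⟩
    · have := abs_le.1 h2
      exact ⟨by linarith, by linarith⟩
  have slope' : ∀ x J1 J2 e, |J1 - g x| ≤ d → |J2 - g x| ≤ d → |e - e1| ≤ d →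
      m * |J2 - J1| ≤ |F (x, J2, e) - F (x, J1, e)| := by
    intro x J1 J2 e h1 h2 h3
    rcases le_total J1 J2 with h | h
    · rw [abs_of_nonneg (sub_nonneg.2 h)]
      exact (slope x J1 J2 e h1 h2 h3 h).trans (le_abs_self _)
    · rw [abs_sub_comm, abs_sub_comm (F _), abs_of_nonneg (sub_nonneg.2 h)]
      exact (slope x J2 J1 e h2 h1 h3 h).trans (le_abs_self _)
  have uniq : ∀ x J1 J2 e, |J1 - g x| ≤ d → |J2 - g x| ≤ d → |e - e1| ≤ d →
      F (x, J2, e) = F (x, J1, e) → J2 = J1 := by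
    intro x J1 J2 e h1 h2 h3 h4
    have := slope' x J1 J2 e h1 h2 h3
    rw [h4, sub_self, abs_zero] at this
    have h5 : |J2 - J1| ≤ 0 := by
      by_contra hh
      push Not at hh
      nlinarith
    exact sub_eq_zero.1 (abs_nonpos_iff.1 h5)
  -- the small tube
  have t2 : ∀ᶠ y : ℝ × ℝ in 𝓝 (0, e1), ∀ x,
      |Jn (x, g x + y.1, y.2) - g (Θ (x, g x + y.1, y.2))| < d := by
    refine tube_ev (fun y x => ?_) (fun x0 => ?_)
    · have := hT.per (x, g x + y.1, y.2)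
      simp only [hper] at this ⊢
      rw [this.1, this.2, hper]
    · have a0 : ContinuousAt (fun p : R3 => |Jn p - g (Θ p)|) (x0, g x0, e1) :=
        ((hT.an _ (hdom0 x0)).2.continuousAt.sub
          (hc.continuousAt.comp (hT.an _ (hdom0 x0)).1.continuousAt)).abs
      have a1 : ∀ᶠ p : R3 in 𝓝 (x0, g x0, e1), |Jn p - g (Θ p)| < d :=
        a0.eventually (gt_mem_nhds (by simp only [hinv x0, sub_self, abs_zero]; exact hd))
      exact (hΨ x0).eventually a1
  obtain ⟨d0, hd0, small⟩ := box t2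
  set d' := min d0 (d / 2) with hd'
  have hd'0 : 0 < d' := lt_min hd0 (by positivity)
  have hd'1 : d' ≤ d0 := min_le_left _ _
  have hd'2 : d' ≤ d / 2 := min_le_right _ _
  have t3 : ∀ᶠ y : ℝ × ℝ in 𝓝 (0, e1), ∀ x, |F (x, g x + y.1, y.2) - v1| < m * d' / 2 := by
    refine tube_ev (fun y x => ?_) (fun x0 => ?_)
    · have := hF.per (x, g x + y.1, y.2)
      simp only [hper] at this ⊢
      rw [this]
    · have a0 : ContinuousAt (fun p : R3 => |F p - v1|) (x0, g x0, e1) :=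
        ((diffF hF (hdom0 x0)).continuousAt.sub continuousAt_const).abs
      have a1 : ∀ᶠ p : R3 in 𝓝 (x0, g x0, e1), |F p - v1| < m * d' / 2 :=
        a0.eventually (gt_mem_nhds (by simp only [hv x0, sub_self, abs_zero]; positivity))
      exact (hΨ x0).eventually a1
  obtain ⟨d3, hd3, lev⟩ := box t3
  set ρ := min (min ρ0 d') (min d3 (m * d' / 2)) with hρ
  have hρp : 0 < ρ := lt_min (lt_min hρ0 hd'0) (lt_min hd3 (by positivity))
  have hρ1 : ρ ≤ ρ0 := (min_le_left _ _).trans (min_le_left _ _)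
  have hρ2 : ρ ≤ d' := (min_le_left _ _).trans (min_le_right _ _)
  have hρ3 : ρ ≤ d3 := (min_le_right _ _).trans (min_le_left _ _)
  have hρ4 : ρ ≤ m * d' / 2 := (min_le_right _ _).trans (min_le_right _ _)
  have ex : ∀ q : R3, ∃ J, |q.2.1 - v1| < ρ → |q.2.2 - e1| < ρ →
      |J - g q.1| ≤ d' ∧ F (q.1, J, q.2.2) = q.2.1 := by
    rintro ⟨x, v, e⟩
    by_cases hq : |v - v1| < ρ ∧ |e - e1| < ρ
    swap
    · exact ⟨0, fun h1 h2 => absurd ⟨h1, h2⟩ hq⟩
    obtain ⟨h1, h2⟩ := hq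
    have h3 : |e - e1| ≤ d := by linarith
    have l0 := lev 0 e (by simpa using hd3.le) (by linarith) x
    simp only [add_zero] at l0
    have l1 := slope x (g x) (g x + d') e (by simpa using hd.le)
      (by rw [add_sub_cancel_left, abs_of_pos hd'0]; linarith) h3 (by linarith)
    have l2 := slope x (g x - d') (g x) e
      (by rw [sub_sub_cancel_left, abs_neg, abs_of_pos hd'0]; linarith) (by simpa using hd.le) h3
      (by linarith)
    have hI : ∀ J ∈ Icc (g x - d') (g x + d'), |J - g x| ≤ d' := fun J hJ =>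
      abs_le.2 ⟨by linarith [hJ.1], by linarith [hJ.2]⟩
    have hcont : ContinuousOn (fun s => F (x, s, e)) (Icc (g x - d') (g x + d')) := by
      intro J hJ
      exact ((diffF hF (big' x J e (by linarith [hI J hJ]) h3).2.1).continuousAt.comp
        (f := fun s => ((x, s, e) : R3)) (by fun_prop)).continuousWithinAt
    have a1 := abs_lt.1 l0
    have a2 := abs_lt.1 h1
    obtain ⟨J, hJ, hJv⟩ := intermediate_value_Icc (by linarith) hcont
      (show v ∈ Icc _ _ from ⟨by nlinarith, by nlinarith⟩)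
    exact ⟨J, fun _ _ => ⟨hI J hJ, hJv⟩⟩
  choose H hH using ex
  have hH' : ∀ x v e, |v - v1| < ρ → |e - e1| < ρ →
      |H (x, v, e) - g x| ≤ d' ∧ F (x, H (x, v, e), e) = v := fun x v e h1 h2 => hH (x, v, e) h1 h2
  have hcont : ContinuousOn H {q | |q.2.1 - v1| < ρ ∧ |q.2.2 - e1| < ρ} := by
    rintro ⟨x, v, e⟩ ⟨h1, h2⟩
    simp only at h1 h2
    obtain ⟨k1, k2⟩ := hH' x v e h1 h2
    set J0 := H (x, v, e) with hJ0
    have b0 : ContinuousAt (fun q : R3 => F (q.1, J0, q.2.2)) (x, v, e) :=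
      (diffF hF (big' x J0 e (by linarith) (by linarith)).2.1).continuousAt.comp
        (f := fun q : R3 => ((q.1, J0, q.2.2) : R3)) (by fun_prop)
    have b1 : Tendsto (fun q : R3 => |q.2.1 - F (q.1, J0, q.2.2)| / m) (𝓝 (x, v, e)) (𝓝 0) := by
      have : ContinuousAt (fun q : R3 => |q.2.1 - F (q.1, J0, q.2.2)| / m) (x, v, e) :=
        ((continuous_snd.fst.continuousAt.sub b0).abs).div_const m
      have h0 := this.tendsto
      simp only [k2, sub_self, abs_zero, zero_div] at h0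
      exact h0
    have b2 : ∀ᶠ q : R3 in 𝓝 (x, v, e), |J0 - g q.1| < d := by
      have : ContinuousAt (fun q : R3 => |J0 - g q.1|) (x, v, e) := by fun_prop
      exact this.eventually (gt_mem_nhds (by simp only; linarith))
    rw [ContinuousWithinAt, tendsto_iff_dist_tendsto_zero]
    refine squeeze_zero' (Eventually.of_forall fun _ => dist_nonneg) ?_
      (b1.mono_left nhdsWithin_le_nhds)
    filter_upwards [self_mem_nhdsWithin, nhdsWithin_le_nhds b2] with q hq hq2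
    obtain ⟨j1, j2⟩ := hH q hq.1 hq.2
    have := slope' q.1 J0 (H q) q.2.2 hq2.le (by linarith) (by linarith [hq.2])
    rw [j2] at this
    rw [Real.dist_eq, le_div_iff₀ hm]
    linarith
  have hperH : ∀ θ v e, |v - v1| < ρ → |e - e1| < ρ → H (θ + 2 * Real.pi, v, e) = H (θ, v, e) := by
    intro θ v e h1 h2
    obtain ⟨k1, k2⟩ := hH' θ v e h1 h2
    obtain ⟨k3, k4⟩ := hH' (θ + 2 * Real.pi) v e h1 h2
    rw [hper] at k3
    have k5 := hF.per (θ, H (θ + 2 * Real.pi, v, e), e)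
    simp only at k5
    exact uniq θ _ _ e (by linarith) (by linarith) (by linarith) (by rw [← k5, k4, k2])
  have hinvH : ∀ θ v e, |v - v1| < ρ → |e - e1| < ρ →
      Jn (θ, H (θ, v, e), e) = H (Θ (θ, H (θ, v, e), e), v, e) := by
    intro θ v e h1 h2
    obtain ⟨k1, k2⟩ := hH' θ v e h1 h2
    obtain ⟨k3, k4⟩ := hH' (Θ (θ, H (θ, v, e), e)) v e h1 h2
    have k5 := small (H (θ, v, e) - g θ) e (by linarith) (by linarith) θ
    simp only [add_sub_cancel] at k5
    have h3 : |e - e1| ≤ d := by linarith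
    have k6 := hF.inv _ (big' θ _ e (by linarith) h3).2.1 (big' _ _ e k5.le h3).2.1
    simp only at k6
    exact uniq _ _ _ e (by linarith) k5.le h3 (by rw [k6, k2, k4])
  refine ⟨ρ, H, hρ1, hρp, hcont, hperH, fun θ v e h1 h2 => ?_, hinvH,
    fun θ v v' e h1 h1' h2 hvv => ?_, fun v e h1 h2 => ?_⟩
  · exact (big' θ _ e (by linarith [(hH' θ v e h1 h2).1]) (by linarith)).1
  · obtain ⟨k1, k2⟩ := hH' θ v e h1 h2
    obtain ⟨k3, k4⟩ := hH' θ v' e h1' h2
    by_contra hh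
    push Not at hh
    have := slope θ _ _ e (by linarith) (by linarith) (by linarith) hh
    rw [k2, k4] at this
    nlinarith
  · have hb' := fun θ => big' θ (H (θ, v, e)) e (by linarith [(hH' θ v e h1 h2).1]) (by linarith)
    refine conj_of_level hT hF (h := fun θ => H (θ, v, e)) (v := v) ?_
      (fun θ => hperH θ v e h1 h2) (fun θ => (hb' θ).2.1) (fun θ => (hH' θ v e h1 h2).2)
      (fun θ => hm.trans (hb' θ).2.2) (fun θ => hinvH θ v e h1 h2)
    exact hcont.comp_continuous (f := fun θ => ((θ, v, e) : R3)) (by fun_prop) fun θ => ⟨h1, h2⟩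

/-- Along the curve the vertical derivative of the integral is a multiple of `u'`. -/
theorem curve_facts (hT : TwistR Θ Jn α e0 ε r) (hF : IntegralR F Θ Jn e0 ε r) {e1 w η : ℝ}
    {u j : ℝ → ℝ} (he : |e1 - e0| < ε) (hη : 0 < η) (hr : 4 * η < r)
    (hK : KAMCurve Θ Jn e1 w η u j) (hirr : Irrational (w / (2 * Real.pi))) :
    ∃ v1 c : ℝ, ∀ θ, F (u θ, j θ, e1) = v1 ∧ r2 F (u θ, j θ, e1) = c * deriv u θ ∧
      deriv u θ * r1 F (u θ, j θ, e1) + deriv j θ * r2 F (u θ, j θ, e1) = 0 := by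
  have hdom : ∀ θ, ((u θ, j θ, e1) : R3) ∈ domR e0 ε r := fun θ =>
    ⟨by linarith [(hK.range θ).1], by linarith [(hK.range θ).2], he⟩
  have hu : ∀ θ, HasDerivAt u (deriv u θ) θ := fun θ =>
    (hK.cu.differentiable one_ne_zero θ).hasDerivAt
  have hj : ∀ θ, HasDerivAt j (deriv j θ) θ := fun θ =>
    (hK.cj.differentiable one_ne_zero θ).hasDerivAt
  have hφ := fun θ => path_deriv (diffF hF (hdom θ)) (hu θ) (hj θ)
  have hdom' : ∀ θ, ((Θ (u θ, j θ, e1), Jn (u θ, j θ, e1), e1) : R3) ∈ domR e0 ε r := by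
    intro θ
    rw [(hK.inv θ).1, (hK.inv θ).2]
    exact hdom _
  have hconst : ∀ θ, F (u θ, j θ, e1) = F (u 0, j 0, e1) := by
    refine const_of_periods (φ := fun θ => F (u θ, j θ, e1))
      (continuous_iff_continuousAt.2 fun θ => (hφ θ).continuousAt) (fun θ => ?_) (fun θ => ?_) hirr
    · have := hF.inv _ (hdom θ) (hdom' θ)
      simp only [(hK.inv θ).1, (hK.inv θ).2] at this
      exact this
    · have := hF.per (u θ, j θ, e1)
      simp only [hK.peru, hK.perj]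
      exact this
  have hzero : ∀ θ, deriv u θ * r1 F (u θ, j θ, e1) + deriv j θ * r2 F (u θ, j θ, e1) = 0 := by
    intro θ
    have h1 := hφ θ
    simp only [hconst] at h1
    exact h1.unique (hasDerivAt_const θ _)
  have hup : ∀ θ, 0 < deriv u θ := fun θ => by linarith [(hK.du θ).1]
  have hψ : ∀ θ, r2 F (u θ, j θ, e1) / deriv u θ = r2 F (u 0, j 0, e1) / deriv u 0 := by
    refine const_of_periods (φ := fun θ => r2 F (u θ, j θ, e1) / deriv u θ) ?_ (fun θ => ?_)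
      (fun θ => ?_) hirr
    · refine Continuous.div (continuous_iff_continuousAt.2 fun θ => ?_)
        (hK.cu.continuous_deriv le_rfl) fun θ => (hup θ).ne'
      exact (cont_r2 hF (hdom θ)).comp (f := fun θ => ((u θ, j θ, e1) : R3))
        ((hu θ).continuousAt.prodMk ((hj θ).continuousAt.prodMk continuousAt_const))
    · have h1 := path_deriv (hT.an _ (hdom θ)).1.differentiableAt (hu θ) (hj θ)
      simp only [fun s => (hK.inv s).1] at h1
      have h2 := h1.unique ((hu (θ + w)).comp_add_const θ w)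
      have h3 := transport hT hF (hdom θ) (hdom' θ)
      simp only [(hK.inv θ).1, (hK.inv θ).2] at h3
      have a1 := (hup θ).ne'
      have a2 := (hup (θ + w)).ne'
      rw [div_eq_div_iff a2 a1, ← h3, ← h2]
      linear_combination (-r2 Θ (u θ, j θ, e1)) * hzero θ
    · have h1 := r2_per hF.per (u θ, j θ, e1)
      have h2 := (hu (θ + 2 * Real.pi)).comp_add_const θ (2 * Real.pi)
      simp only [hK.peru] at h2
      have h3 := h2.unique ((hu θ).add_const (2 * Real.pi))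
      simp only [hK.peru, hK.perj, h3]
      rw [h1]
  refine ⟨F (u 0, j 0, e1), r2 F (u 0, j 0, e1) / deriv u 0, fun θ => ⟨hconst θ, ?_, hzero θ⟩⟩
  rw [← hψ θ, div_mul_cancel₀ _ (hup θ).ne']

theorem main_pos (hT : TwistR Θ Jn α e0 ε r) (hF : IntegralR F Θ Jn e0 ε r) {e1 w η v1 c : ℝ}
    {u j : ℝ → ℝ} (he : |e1 - e0| < ε) (hη : 0 < η) (hr : 4 * η < r)
    (hK : KAMCurve Θ Jn e1 w η u j) (hc : 0 < c)
    (h : ∀ θ, F (u θ, j θ, e1) = v1 ∧ r2 F (u θ, j θ, e1) = c * deriv u θ) {ρ0 : ℝ}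
    (hρ0 : 0 < ρ0) : ∃ (ρ : ℝ) (H : R3 → ℝ), ρ ≤ ρ0 ∧ Tube Θ Jn e1 v1 ρ (4 * η) H := by
  have hmono : StrictMono u := strictMono_of_deriv_pos fun θ => by linarith [(hK.du θ).1]
  have hlow : ∀ x y, x ≤ y → 1 / 2 * (y - x) ≤ u y - u x := fun x y hxy =>
    mul_sub_le_image_sub_of_le_deriv (hK.cu.differentiable one_ne_zero) (fun θ => (hK.du θ).1) hxy
  have hsurj : Function.Surjective u := by
    refine hK.cu.continuous.surjective ?_ ?_
    · refine tendsto_atTop_mono' atTop (f₁ := fun y => 1 / 2 * y + u 0) ?_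
        (tendsto_atTop_add_const_right _ _ (tendsto_id.const_mul_atTop (by norm_num)))
      filter_upwards [eventually_ge_atTop 0] with y hy
      linarith [hlow 0 y hy]
    · refine tendsto_atBot_mono' atBot (f₁ := fun y => 1 / 2 * y + u 0) ?_
        (tendsto_atBot_add_const_right _ _
          (tendsto_id.const_mul_atBot (show (0 : ℝ) < 1 / 2 by norm_num)))
      filter_upwards [eventually_le_atBot 0] with y hy
      linarith [hlow y 0 hy]
  set U := (hmono.orderIsoOfSurjective u hsurj).symm with hU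
  have hU1 : ∀ θ, U (u θ) = θ := fun θ => hmono.orderIsoOfSurjective_symm_apply_self u hsurj θ
  refine tube_of_graph hT hF (g := fun x => j (U x)) (m := c / 4) he hr.le (by positivity)
    (hK.cj.continuous.comp U.continuous) (fun x => ?_) (fun x => ?_) (fun x => ?_) (fun x => ?_)
    (fun x => ?_) hρ0
  · obtain ⟨θ, rfl⟩ := hsurj x
    rw [← hK.peru, hU1, hU1, hK.perj]
  · exact ⟨by linarith [(hK.range (U x)).1], by linarith [(hK.range (U x)).2]⟩
  · obtain ⟨θ, rfl⟩ := hsurj x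
    rw [hU1]
    exact (h θ).1
  · obtain ⟨θ, rfl⟩ := hsurj x
    rw [hU1, (h θ).2]
    nlinarith [(hK.du θ).1]
  · obtain ⟨θ, rfl⟩ := hsurj x
    rw [hU1, (hK.inv θ).1, (hK.inv θ).2, hU1]

end M3a

theorem m3a : M3aStmt := by
  intro F Θ Jn α e0 ε r hT hF e1 w η u j he hη hr hK hirr hex ρ0 hρ0
  obtain ⟨v1, c, h⟩ := M3a.curve_facts hT hF he hη hr hK hirr
  have hc : c ≠ 0 := by
    rintro rfl
    obtain ⟨θ, hθ⟩ := hex
    obtain ⟨-, h2, h3⟩ := h θ
    rw [zero_mul] at h2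
    rw [h2, mul_zero, add_zero] at h3
    have hup : deriv u θ ≠ 0 := (show 0 < deriv u θ by linarith [(hK.du θ).1]).ne'
    exact hθ ⟨(mul_eq_zero.1 h3).resolve_left hup, h2⟩
  rcases lt_or_gt_of_ne hc with hc | hc
  · have hF' : IntegralR (fun p => -F p) Θ Jn e0 ε r :=
      ⟨hF.smooth.neg, fun p => by rw [hF.per], fun p h1 h2 => by rw [hF.inv p h1 h2]⟩
    obtain ⟨ρ, H, h1, h2⟩ := M3a.main_pos hT hF' (v1 := -v1) (c := -c) he hη hr hK (by linarith)
      (fun θ => ⟨by rw [(h θ).1], by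
        have := (h θ).2.1
        unfold r2 at this ⊢
        rw [fderiv_fun_neg, neg_apply, this]
        ring⟩) hρ0
    exact ⟨-v1, ρ, H, h1, h2⟩
  · obtain ⟨ρ, H, h1, h2⟩ := M3a.main_pos hT hF he hη hr hK hc
      (fun θ => ⟨(h θ).1, (h θ).2.1⟩) hρ0
    exact ⟨v1, ρ, H, h1, h2⟩

end Pool.Agent.MP_62f0b1_an.AE

end
end MrgPart0

-- ======== part 1: formerly Pool.Agent.MP_62f0b1_an.ae.A3b_1
section MrgPart1

/-!
Row A3b, part 1: ring identities for the linear and quadratic parts.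
-/

set_option autoImplicit false

noncomputable section

namespace Pool.Agent.MP_62f0b1_an.AE.A3b

variable {S : Type} [CommRing S]

def ell (T g x y u : S) : S :=
  (1 + 2 * T + 2 * T ^ 2) * g + (2 + 5 * T + 2 * T ^ 2) * x + (2 * T + 2 * T ^ 2) * y -
    (T + T ^ 2) * u

theorem core (T g x y u : S) (hgx : g * x = 0) (hxx : x * x = 0) (hxy : x * y = 0)
    (hxu : x * u = 0) (hyy : y * y = 0) (hyu : y * u = 0) (huu : u * u = 0) :
    (1 + g) * ((1 + x + T) ^ 2 + T ^ 2) -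
      T * (1 + x + T) * ((1 + u) ^ 2 - (1 + x) ^ 2 - (1 + y) ^ 2) * (1 + u) =
      (1 + 3 * T + 3 * T ^ 2) + ell T g x y u := by
  unfold ell
  linear_combination (2 + 2 * T + x) * hgx +
    (1 + 3 * T + 3 * T * u + T * u * x + T * x + T ^ 2 + T ^ 2 * u) * hxx +
    (2 * T + 2 * T * u + T * u * y + T * y) * hxy +
    (T - 3 * T * u - T * u ^ 2 + 2 * T ^ 2) * hxu + (T + T * u + T ^ 2 + T ^ 2 * u) * hyy +
    (2 * T + 2 * T ^ 2) * hyu + (-3 * T - T * u - 3 * T ^ 2 - T ^ 2 * u) * huu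

def sg (a : Fin 3 → S) : S := (a 0 - 1) + (a 1 - 1) + (a 2 - 1)

theorem ell_mem {J : Ideal S} (T : S) {g x y u : S} (hg : g ∈ J) (hx : x ∈ J) (hy : y ∈ J)
    (hu : u ∈ J) : ell T g x y u ∈ J :=
  J.sub_mem (J.add_mem (J.add_mem (J.mul_mem_left _ hg) (J.mul_mem_left _ hx))
    (J.mul_mem_left _ hy)) (J.mul_mem_left _ hu)

theorem linE {J : Ideal S} (hJ : ∀ u ∈ J, ∀ v ∈ J, u * v = 0) (T : S) (a b : Fin 3 → S)
    (ha : ∀ j, a j - 1 ∈ J) (hb : ∀ j, b j - 1 ∈ J) (i : Fin 3)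
    (h : Pi3 a * Bt T b i - Pi3 b * Dt T a i = 0) :
    (1 + 3 * T + 3 * T ^ 2) * sg a + ell T (sg b) (b i - 1) (b (i + 1) - 1) (b (i + 2) - 1) -
      (1 + 3 * T + 3 * T ^ 2) * sg b - ell T (sg a) (a i - 1) (a (i + 2) - 1) (a (i + 1) - 1)
      = 0 := by
  have hP : ∀ d : Fin 3 → S, (∀ j, d j - 1 ∈ J) → Pi3 d = 1 + sg d := by
    intro d hd
    unfold Pi3 sg
    linear_combination d 2 * hJ _ (hd 0) _ (hd 1) + hJ _ (hd 0) _ (hd 2) + hJ _ (hd 1) _ (hd 2)
  have hs : ∀ d : Fin 3 → S, (∀ j, d j - 1 ∈ J) → sg d ∈ J := fun d hd =>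
    J.add_mem (J.add_mem (hd 0) (hd 1)) (hd 2)
  have hc : ∀ d : Fin 3 → S, (∀ j, d j - 1 ∈ J) → ∀ p q r : Fin 3,
      (1 + sg d) * ((d p + T) ^ 2 + T ^ 2) - T * (d p + T) * (d r ^ 2 - d p ^ 2 - d q ^ 2) * d r =
        (1 + 3 * T + 3 * T ^ 2) + ell T (sg d) (d p - 1) (d q - 1) (d r - 1) := by
    intro d hd p q r
    have := core T (sg d) (d p - 1) (d q - 1) (d r - 1) (hJ _ (hs d hd) _ (hd p))
      (hJ _ (hd p) _ (hd p)) (hJ _ (hd p) _ (hd q)) (hJ _ (hd p) _ (hd r)) (hJ _ (hd q) _ (hd q))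
      (hJ _ (hd q) _ (hd r)) (hJ _ (hd r) _ (hd r))
    linear_combination this
  have hB : Bt T b i = (1 + 3 * T + 3 * T ^ 2) +
      ell T (sg b) (b i - 1) (b (i + 1) - 1) (b (i + 2) - 1) := by
    rw [Bt, hP b hb]; exact hc b hb i (i + 1) (i + 2)
  have hD : Dt T a i = (1 + 3 * T + 3 * T ^ 2) +
      ell T (sg a) (a i - 1) (a (i + 2) - 1) (a (i + 1) - 1) := by
    rw [Dt, hP a ha]; exact hc a ha i (i + 2) (i + 1)
  have h1 := hJ _ (hs a ha) _ (ell_mem T (hs b hb) (hb i) (hb (i + 1)) (hb (i + 2)))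
  have h2 := hJ _ (hs b hb) _ (ell_mem T (hs a ha) (ha i) (ha (i + 2)) (ha (i + 1)))
  rw [hB, hD, hP a ha, hP b hb] at h
  linear_combination h - h1 + h2

/-- The three linear equations in Fourier form. -/
theorem four {J : Ideal S} (hJ : ∀ u ∈ J, ∀ v ∈ J, u * v = 0) (T W : S) (hW : W ^ 2 + W + 1 = 0)
    (x y : Fin 3 → S) (hx : ∀ j, x j ∈ J) (hy : ∀ j, y j ∈ J)
    (h : ∀ i, Pi3 (aOf W x) * Bt T (aOf W y) i - Pi3 (aOf W y) * Dt T (aOf W x) i = 0) :
    3 * ((1 + T * (1 - W ^ 2)) * (2 + T * (1 - W ^ 2)) * y 0 -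
        (1 + T * (1 - W)) * (2 + T * (1 - W)) * x 0) = 0 ∧
      3 * ((1 + T * (1 - W)) * (2 + T * (1 - W)) * y 1 -
        (1 + T * (1 - W ^ 2)) * (2 + T * (1 - W ^ 2)) * x 1) = 0 ∧
      3 * ((2 + 3 * T) * (y 2 - x 2)) = 0 := by
  have hm : ∀ d : Fin 3 → S, (∀ j, d j ∈ J) → ∀ j, aOf W d j - 1 ∈ J := by
    intro d hd j
    have : aOf W d j - 1 = d 2 + W ^ j.val * d 0 + W ^ (2 * j.val) * d 1 := by unfold aOf; ring
    rw [this]
    exact J.add_mem (J.add_mem (hd 2) (J.mul_mem_left _ (hd 0))) (J.mul_mem_left _ (hd 1))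
  have h3 : W ^ 3 = 1 := by linear_combination (W - 1) * hW
  have h4 : W ^ 4 = W := by linear_combination W * h3
  have e0 : ∀ d : Fin 3 → S, aOf W d 0 - 1 = d 2 + d 0 + d 1 := fun d => by
    simp only [aOf, Fin.val_zero]; ring
  have e1 : ∀ d : Fin 3 → S, aOf W d 1 - 1 = d 2 + W * d 0 + W ^ 2 * d 1 := fun d => by
    simp only [aOf, Fin.val_one]; ring
  have e2 : ∀ d : Fin 3 → S, aOf W d 2 - 1 = d 2 + W ^ 2 * d 0 + W * d 1 := fun d => by
    simp only [aOf, Fin.val_two]; linear_combination d 1 * h4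
  have es : ∀ d : Fin 3 → S, sg (aOf W d) = 3 * d 2 := fun d => by
    rw [sg, e0, e1, e2]; linear_combination (d 0 + d 1) * hW
  have E0 := linE hJ T _ _ (hm x hx) (hm y hy) 0 (h 0)
  have E1 := linE hJ T _ _ (hm x hx) (hm y hy) 1 (h 1)
  have E2 := linE hJ T _ _ (hm x hx) (hm y hy) 2 (h 2)
  have a01 : (0 : Fin 3) + 1 = 1 := rfl
  have a02 : (0 : Fin 3) + 2 = 2 := rfl
  have a11 : (1 : Fin 3) + 1 = 2 := rfl
  have a12 : (1 : Fin 3) + 2 = 0 := rfl
  have a21 : (2 : Fin 3) + 1 = 0 := rfl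
  have a22 : (2 : Fin 3) + 2 = 1 := rfl
  simp only [a01, a02, a11, a12, a21, a22, es, e0, e1, e2, ell] at E0 E1 E2
  refine ⟨?_, ?_, ?_⟩
  · linear_combination E0 + W ^ 2 * E1 + W * E2 + (11 * T * W * x 0 - 4 * T * W * x 1 - 8 * T *
      W * y 0 + 4 * T * W * y 1 - T * W ^ 2 * x 0 + 5 * T * W ^ 2 * x 1 - 2 * T * W ^ 2 * y 0 -
      5 * T * W ^ 2 * y 1 - 4 * T * x 0 + 5 * T * x 1 + 3 * T * x 2 + 4 * T * y 0 - 5 * T * y 1
      - 3 * T * y 2 + 5 * T ^ 2 * W * x 0 - T ^ 2 * W * x 1 - 5 * T ^ 2 * W * y 0 + T ^ 2 * W *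
      y 1 - T ^ 2 * W ^ 2 * x 0 + 2 * T ^ 2 * W ^ 2 * x 1 + T ^ 2 * W ^ 2 * y 0 - 2 * T ^ 2 * W
      ^ 2 * y 1 - T ^ 2 * x 0 + 2 * T ^ 2 * x 1 + T ^ 2 * y 0 - 2 * T ^ 2 * y 1 + 4 * W * x 0 -
      2 * W * x 1 - 4 * W * y 0 + 2 * W * y 1 + 2 * W ^ 2 * x 1 - 2 * W ^ 2 * y 1 - 4 * x 0 + 2
      * x 1 + 2 * x 2 + 4 * y 0 - 2 * y 1 - 2 * y 2) * hW
  · linear_combination E0 + W * E1 + W ^ 2 * E2 + (-4 * T * W * x 0 + 8 * T * W * x 1 + 4 * T *
      W * y 0 - 11 * T * W * y 1 + 5 * T * W ^ 2 * x 0 + 2 * T * W ^ 2 * x 1 - 5 * T * W ^ 2 * y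
      0 + T * W ^ 2 * y 1 + 5 * T * x 0 - 4 * T * x 1 + 3 * T * x 2 - 5 * T * y 0 + 4 * T * y 1
      - 3 * T * y 2 - T ^ 2 * W * x 0 + 5 * T ^ 2 * W * x 1 + T ^ 2 * W * y 0 - 5 * T ^ 2 * W *
      y 1 + 2 * T ^ 2 * W ^ 2 * x 0 - T ^ 2 * W ^ 2 * x 1 - 2 * T ^ 2 * W ^ 2 * y 0 + T ^ 2 * W
      ^ 2 * y 1 + 2 * T ^ 2 * x 0 - T ^ 2 * x 1 - 2 * T ^ 2 * y 0 + T ^ 2 * y 1 - 2 * W * x 0 +
      4 * W * x 1 + 2 * W * y 0 - 4 * W * y 1 + 2 * W ^ 2 * x 0 - 2 * W ^ 2 * y 0 + 2 * x 0 - 4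
      * x 1 + 2 * x 2 - 2 * y 0 + 4 * y 1 - 2 * y 2) * hW
  · linear_combination E0 + E1 + E2 + (6 * T * x 0 + 6 * T * x 1 - 6 * T * y 0 - 6 * T * y 1 + 3
      * T ^ 2 * x 0 + 3 * T ^ 2 * x 1 - 3 * T ^ 2 * y 0 - 3 * T ^ 2 * y 1 + 2 * x 0 + 2 * x 1 -
      2 * y 0 - 2 * y 1) * hW

theorem fld (X e k0 k1 k2 ka kb kc A : S) (he : e * e = 0) (hk : k0 + k1 + k2 = 0)
    (h : 2 * ((X + k0 * e) * (X + k1 * e) * (X + k2 * e)) * A -
      ((X + kc * e) - (X + kb * e)) * (((X + kb * e) + (X + kc * e)) ^ 2 - (X + ka * e) ^ 2) = 0) :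
    2 * X ^ 3 * A - 3 * X ^ 2 * (kc - kb) * e = 0 := by
  linear_combination h - 2 * A * X ^ 2 * e * hk -
    (2 * A * (X * (k0 * k1 + k0 * k2 + k1 * k2) + k0 * k1 * k2 * e) -
      (kc - kb) * (4 * X * (kb + kc) - 2 * X * ka + ((kb + kc) ^ 2 - ka ^ 2) * e)) * he

/-- The field equation as a ring expression. -/
def fe (W : S) (x g : Fin 3 → S) (i : Fin 3) : S :=
  2 * Pi3 (aOf W x) * (g 2 + W ^ i.val * g 0 + W ^ (2 * i.val) * g 1) -
    (aOf W x (i + 2) - aOf W x (i + 1)) *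
      ((aOf W x (i + 1) + aOf W x (i + 2)) ^ 2 - aOf W x i ^ 2)

theorem fe3 (W X e k0 k1 k2 : S) (x g : Fin 3 → S) (hW : W ^ 2 + W + 1 = 0) (he : e * e = 0)
    (hk : k0 + k1 + k2 = 0) (h0 : aOf W x 0 = X + k0 * e) (h1 : aOf W x 1 = X + k1 * e)
    (h2 : aOf W x 2 = X + k2 * e) (h : ∀ i, fe W x g i = 0) :
    2 * X ^ 3 * (g 2 + g 0 + g 1) - 3 * X ^ 2 * (k2 - k1) * e = 0 ∧
      2 * X ^ 3 * (g 2 + W * g 0 + W ^ 2 * g 1) - 3 * X ^ 2 * (k0 - k2) * e = 0 ∧
      2 * X ^ 3 * (g 2 + W ^ 2 * g 0 + W * g 1) - 3 * X ^ 2 * (k1 - k0) * e = 0 := by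
  have h4 : W ^ 4 = W := by linear_combination (W ^ 2 - W) * hW
  have a01 : (0 : Fin 3) + 1 = 1 := rfl
  have a02 : (0 : Fin 3) + 2 = 2 := rfl
  have a11 : (1 : Fin 3) + 1 = 2 := rfl
  have a12 : (1 : Fin 3) + 2 = 0 := rfl
  have a21 : (2 : Fin 3) + 1 = 0 := rfl
  have a22 : (2 : Fin 3) + 2 = 1 := rfl
  have E0 := h 0
  have E1 := h 1
  have E2 := h 2
  simp only [fe, Pi3, a01, a02, a11, a12, a21, a22, h0, h1, h2, Fin.val_zero, Fin.val_one,
    Fin.val_two, Nat.mul_zero, Nat.mul_one, pow_zero, pow_one, one_mul, Nat.reduceMul, h4]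
    at E0 E1 E2
  exact ⟨fld X e k0 k1 k2 k0 k1 k2 _ he hk E0, fld X e k0 k1 k2 k1 k2 k0 _ he hk E1,
    fld X e k0 k1 k2 k2 k0 k1 _ he hk E2⟩

theorem fz (W u c e f : S) (g : Fin 3 → S) (hW : W ^ 2 + W + 1 = 0) (he : e * e = 0)
    (hf : f * f = 0) (hg : g 0 = u * e + c * (e * f)) (h : ∀ i, fe W ![e, 0, f] g i = 0) :
    (6 * c + 18 * u + 18 * (1 + 2 * W)) * (e * f) + (6 * u + 9 * (1 + 2 * W)) * e = 0 := by
  obtain ⟨F0, F1, F2⟩ := fe3 W (1 + f) e 1 W (W ^ 2) _ g hW he (by linear_combination hW)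
    (by simp [aOf]) (by simp [aOf]) (by simp [aOf]) h
  rw [hg] at F0 F1 F2
  generalize g 1 = p at F0 F1 F2
  generalize g 2 = q at F0 F1 F2
  linear_combination F0 + W ^ 2 * F1 + W * F2 + (-6 * W * e - 2 * W * f * q - 6 * W * q + 9 * W
      ^ 2 * e - 2 * W ^ 2 * f * p - 2 * W ^ 2 * f * q - 6 * W ^ 2 * p - 6 * W ^ 2 * q - 12 * W ^
      3 * c * e - 12 * W ^ 3 * c * e * f - 4 * W ^ 3 * c * e * f ^ 2 - 4 * W ^ 3 * e * f * u -
      12 * W ^ 3 * e * u - 3 * W ^ 4 * e - 2 * W ^ 4 * f * p - 6 * W ^ 4 * p - 6 * c * e - 6 * c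
      * e * f - 2 * c * e * f ^ 2 - 2 * e * f * u - 6 * e * u - 2 * f * p - 2 * f * q - 6 * p -
      6 * q) * hf + (-4 * W * c * e * f + 3 * W * e + 6 * W * e * f - 12 * W * e * f * u - 4 * W
      * e * u + 6 * W * f * p + 2 * W * p - 3 * W ^ 2 * e - 6 * W ^ 2 * e * f - 6 * W ^ 2 * f *
      p - 2 * W ^ 2 * p + 4 * c * e * f + 9 * e + 18 * e * f + 12 * e * f * u + 4 * e * u - 6 *
      f * p - 6 * f * q - 2 * p - 2 * q) * hW

theorem fy (W u c e f : S) (g : Fin 3 → S) (hW : W ^ 2 + W + 1 = 0) (he : e * e = 0)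
    (hf : f * f = 0) (hg : g 1 = u * e + c * (e * f)) (h : ∀ i, fe W ![0, e, f] g i = 0) :
    (6 * c + 18 * u - 18 * (1 + 2 * W)) * (e * f) + (6 * u - 9 * (1 + 2 * W)) * e = 0 := by
  have h4 : W ^ 4 = W := by linear_combination (W ^ 2 - W) * hW
  obtain ⟨F0, F1, F2⟩ := fe3 W (1 + f) e 1 (W ^ 2) W _ g hW he (by linear_combination hW)
    (by simp [aOf]) (by simp [aOf]) (by simp [aOf, h4]) h
  rw [hg] at F0 F1 F2
  generalize g 0 = p at F0 F1 F2
  generalize g 2 = q at F0 F1 F2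
  linear_combination F0 + W * F1 + W ^ 2 * F2 + (6 * W * e - 2 * W * f * q - 6 * W * q - 9 * W ^
      2 * e - 2 * W ^ 2 * f * p - 2 * W ^ 2 * f * q - 6 * W ^ 2 * p - 6 * W ^ 2 * q - 12 * W ^ 3
      * c * e - 12 * W ^ 3 * c * e * f - 4 * W ^ 3 * c * e * f ^ 2 - 4 * W ^ 3 * e * f * u - 12
      * W ^ 3 * e * u + 3 * W ^ 4 * e - 2 * W ^ 4 * f * p - 6 * W ^ 4 * p - 6 * c * e - 6 * c *
      e * f - 2 * c * e * f ^ 2 - 2 * e * f * u - 6 * e * u - 2 * f * p - 2 * f * q - 6 * p - 6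
      * q) * hf + (-4 * W * c * e * f - 3 * W * e - 6 * W * e * f - 12 * W * e * f * u - 4 * W *
      e * u + 6 * W * f * p + 2 * W * p + 3 * W ^ 2 * e + 6 * W ^ 2 * e * f - 6 * W ^ 2 * f * p
      - 2 * W ^ 2 * p + 4 * c * e * f - 9 * e - 18 * e * f + 12 * e * f * u + 4 * e * u - 6 * f
      * p - 6 * f * q - 2 * p - 2 * q) * hW

end Pool.Agent.MP_62f0b1_an.AE.A3b

end
end MrgPart1

-- ======== part 2: formerly Pool.Agent.MP_62f0b1_an.ae.A3b
section MrgPart2

/-!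
Row A3b: linear and quadratic parts of the formal map.
-/

set_option autoImplicit false

noncomputable section

namespace Pool.Agent.MP_62f0b1_an.AE

namespace A3b

open MvPolynomial IsLocalRing

section Maps

variable {R S : Type} [CommRing R] [CommRing S]

theorem map_aOf (f : R →+* S) (w : R) (x : Fin 3 → R) :
    (fun j => f (aOf w x j)) = aOf (f w) (fun j => f (x j)) := by
  funext j; simp [aOf]

theorem map_Pi3 (f : R →+* S) (a : Fin 3 → R) : f (Pi3 a) = Pi3 (fun j => f (a j)) := by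
  simp [Pi3]

theorem map_Bt (f : R →+* S) (t : R) (a : Fin 3 → R) (i : Fin 3) :
    f (Bt t a i) = Bt (f t) (fun j => f (a j)) i := by
  simp [Bt, Pi3]

theorem map_Dt (f : R →+* S) (t : R) (a : Fin 3 → R) (i : Fin 3) :
    f (Dt t a i) = Dt (f t) (fun j => f (a j)) i := by
  simp [Dt, Pi3]

theorem map_fe (f : R →+* S) (w : R) (x g : Fin 3 → R) (i : Fin 3) :
    f (fe w x g i) = fe (f w) (fun j => f (x j)) (fun j => f (g j)) i := by
  simp [fe, Pi3, aOf, map_ofNat]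

theorem mul_mem3 {I : Ideal R} {a b : R} (ha : a ∈ I ^ 2) (hb : b ∈ I) : a * b ∈ I ^ 3 := by
  rw [pow_succ I 2]; exact Ideal.mul_mem_mul ha hb

end Maps

variable {O : Type} [CommRing O]

theorem lin_part {u : P3 O} (hu : u ∈ I3 O) :
    ∃ c : Fin 3 → O, u - (C (c 0) * X 0 + C (c 1) * X 1 + C (c 2) * X 2) ∈ I3 O ^ 2 := by
  obtain ⟨r, hr⟩ := Ideal.mem_span_range_iff_exists_fun.1 hu
  refine ⟨fun i => constantCoeff (r i), ?_⟩
  have h1 : ∀ p : P3 O, p - C (constantCoeff p) ∈ I3 O := by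
    intro p
    rw [← pow_one (I3 O), mem_pow_idealOfVars_iff']
    intro x hx
    have : x = 0 := by
      rw [← Finsupp.degree_eq_zero_iff]; omega
    subst this
    simp [constantCoeff_eq]
  have h2 : ∀ i, (r i - C (constantCoeff (r i))) * X i ∈ I3 O ^ 2 := fun i => by
    rw [pow_two]; exact Ideal.mul_mem_mul (h1 _) (X_mem_idealOfVars i)
  have h3 := (I3 O ^ 2).add_mem ((I3 O ^ 2).add_mem (h2 0) (h2 1)) (h2 2)
  rw [Fin.sum_univ_three] at hr
  convert h3 using 1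
  rw [← hr]; ring

/-- A quadratic form in the three variables. -/
def qf (c : Fin 6 → O) : P3 O :=
  c 0 • (X 0 * X 0) + c 1 • (X 0 * X 1) + c 2 • (X 1 * X 1) + c 3 • (X 0 * X 2) +
    c 4 • (X 1 * X 2) + c 5 • (X 2 * X 2)

theorem quad_part {u : P3 O} (hu : u ∈ I3 O ^ 2) : ∃ c : Fin 6 → O, u - qf c ∈ I3 O ^ 3 := by
  rw [pow_two] at hu
  refine Submodule.mul_induction_on hu ?_ ?_
  · intro a ha b hb
    obtain ⟨p, hp⟩ := lin_part ha
    obtain ⟨q, hq⟩ := lin_part hb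
    have hl : C (p 0) * X 0 + C (p 1) * X 1 + C (p 2) * X 2 ∈ I3 O :=
      (I3 O).add_mem ((I3 O).add_mem ((I3 O).mul_mem_left _ (X_mem_idealOfVars 0))
        ((I3 O).mul_mem_left _ (X_mem_idealOfVars 1))) ((I3 O).mul_mem_left _ (X_mem_idealOfVars 2))
    refine ⟨![p 0 * q 0, p 0 * q 1 + p 1 * q 0, p 1 * q 1, p 0 * q 2 + p 2 * q 0,
      p 1 * q 2 + p 2 * q 1, p 2 * q 2], ?_⟩
    have h3 := (I3 O ^ 3).add_mem (mul_mem3 hp hb) (mul_mem3 hq hl)
    convert h3 using 1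
    simp only [qf, smul_eq_C_mul, Matrix.cons_val, map_add, map_mul]
    ring
  · rintro a b ⟨p, hp⟩ ⟨q, hq⟩
    refine ⟨p + q, ?_⟩
    have h3 := (I3 O ^ 3).add_mem hp hq
    convert h3 using 1
    simp only [qf, smul_eq_C_mul, Pi.add_apply, map_add]
    ring

theorem mem_of_unit_C {u : O} (hu : IsUnit u) {J : Ideal (P3 O)} {p : P3 O} (h : C u * p ∈ J) :
    p ∈ J :=
  (Ideal.unit_mul_mem_iff_mem J (hu.map C)).1 h

variable [IsLocalRing O] {l N : ℕ} {c : Ctx O l}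

theorem unit_of_add {u x : O} (hu : IsUnit u) (hx : x ∈ maximalIdeal O) : IsUnit (u + x) := by
  by_contra h
  have h1 : u + x ∈ maximalIdeal O := h
  have h2 : u ∈ maximalIdeal O := by simpa using (maximalIdeal O).sub_mem h1 hx
  exact h2 hu

theorem unit_r (c : Ctx O l) (y : O) : IsUnit ((1 + c.t * y) * (2 + c.t * y)) :=
  (unit_of_add isUnit_one ((maximalIdeal O).mul_mem_right _ c.htm)).mul
    (unit_of_add c.h2 ((maximalIdeal O).mul_mem_right _ c.htm))

theorem ze_pow (c : Ctx O l) : c.ze * c.ze ^ (l - 1) = 1 := by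
  have h5 := c.h5
  rw [← pow_succ', show l - 1 + 1 = l by omega, c.hze.pow_eq_one]

theorem F_X (m : FM c N) (i : Fin 3) : m.F (X i) = X i + C c.t * m.G i := by simp [FM.F]

theorem F_mem (m : FM c N) (i : Fin 3) : m.F (X i) ∈ I3 O := by
  rw [F_X]; exact (I3 O).add_mem (X_mem_idealOfVars i) ((I3 O).mul_mem_left _ (m.hG i))

theorem lin (m : FM c N) (hN : 3 ≤ N) :
    m.F (X 0) - C c.ze * X 0 ∈ I3 O ^ 2 ∧ m.F (X 1) - C (c.ze ^ (l - 1)) * X 1 ∈ I3 O ^ 2 ∧
      m.F (X 2) - C 1 * X 2 ∈ I3 O ^ 2 := by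
  let mk := Ideal.Quotient.mk (I3 O ^ 2)
  let g : P3 O →+* _ := mk.comp (m.F : P3 O →+* P3 O)
  have hJ : ∀ u ∈ (I3 O).map mk, ∀ v ∈ (I3 O).map mk, u * v = 0 := by
    intro u hu v hv
    obtain ⟨u', hu', rfl⟩ := (Ideal.mem_map_iff_of_surjective mk Ideal.Quotient.mk_surjective).1 hu
    obtain ⟨v', hv', rfl⟩ := (Ideal.mem_map_iff_of_surjective mk Ideal.Quotient.mk_surjective).1 hv
    rw [← map_mul, Ideal.Quotient.eq_zero_iff_mem, pow_two]
    exact Ideal.mul_mem_mul hu' hv'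
  have hgC : ∀ x : O, g (C x) = mk (C x) := fun x => by
    simp only [g, RingHom.comp_apply, RingHom.coe_coe, FM.F, aeval_C, algebraMap_eq]
  have hW : mk (C c.w) ^ 2 + mk (C c.w) + 1 = 0 := by
    have := congrArg (fun x => mk (C x)) c.hw
    simpa using this
  obtain ⟨h0, h1, h2⟩ := four hJ (mk (C c.t)) (mk (C c.w)) hW (fun j => mk (X j))
    (fun j => g (X j)) (fun j => Ideal.mem_map_of_mem _ (X_mem_idealOfVars j))
    (fun j => Ideal.mem_map_of_mem _ (F_mem m j)) (fun i => by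
      have h := Ideal.Quotient.eq_zero_iff_mem.2
        (Ideal.pow_le_pow_right (show 2 ≤ N by omega) (m.eqn i))
      have e1 : mk (aeval (fun i => X i + C c.t * m.G i) (Bt (C c.t) c.a i)) =
          g (Bt (C c.t) c.a i) := rfl
      have e2 : mk (aeval (fun i => X i + C c.t * m.G i) (Pi3 c.a)) = g (Pi3 c.a) := rfl
      change mk _ = 0 at h
      rw [map_sub, map_mul, map_mul, e1, e2, map_Pi3, map_Pi3, map_Bt, map_Dt, Ctx.a, map_aOf,
        map_aOf, hgC, hgC] at h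
      exact h)
  have hl := congrArg (fun x => mk (C x)) c.hlam
  have hz := congrArg (fun x => mk (C x)) (ze_pow c)
  simp only [map_mul, map_add, map_sub, map_one, map_pow, map_ofNat] at hl hz
  have e : ∀ i, g (X i) = mk (m.F (X i)) := fun i => rfl
  simp only [e] at h0 h1 h2
  refine ⟨mem_of_unit_C (c.h3.mul (unit_r c (1 - c.w ^ 2))) ?_,
    mem_of_unit_C (c.h3.mul (unit_r c (1 - c.w))) ?_,
    mem_of_unit_C (c.h3.mul (unit_of_add c.h2 ((maximalIdeal O).mul_mem_left 3 c.htm))) ?_⟩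
  all_goals
    rw [← Ideal.Quotient.eq_zero_iff_mem]
    change mk _ = 0
    simp only [map_mul, map_add, map_sub, map_one, map_pow, map_ofNat]
  · linear_combination h0 - 3 * mk (X 0) * hl
  · linear_combination h1 + 3 * mk (X 1) * mk (C c.ze) ^ (l - 1) * hl -
      3 * mk (X 1) * ((1 + mk (C c.t) * (1 - mk (C c.w) ^ 2)) *
        (2 + mk (C c.t) * (1 - mk (C c.w) ^ 2))) * hz
  · linear_combination h2

theorem nat_not_mem (c : Ctx O l) {n : ℕ} (h0 : 0 < n) (hn : n < l) :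
    (n : O) ∉ maximalIdeal O := by
  intro h
  have hc : Nat.Coprime l n := (Nat.Prime.coprime_iff_not_dvd c.hp).2 (Nat.not_dvd_of_pos_of_lt h0 hn)
  obtain ⟨a, b, hab⟩ := (Nat.isCoprime_iff_coprime.2 hc).map (Int.castRingHom O)
  simp only [eq_intCast, Int.cast_natCast] at hab
  have : (1 : O) ∈ maximalIdeal O := by
    rw [← hab]
    exact (maximalIdeal O).add_mem ((maximalIdeal O).mul_mem_left _ c.hlm)
      ((maximalIdeal O).mul_mem_left _ h)
  exact this isUnit_one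

theorem mu1_not_mem (c : Ctx O l) : c.mu 1 ∉ maximalIdeal O := by
  intro h
  have h1 : 3 * (1 + 2 * c.w) ∈ maximalIdeal O := by
    simpa using (maximalIdeal O).sub_mem c.hmu1 ((maximalIdeal O).mul_mem_left 2 h)
  have h2 : (3 : O) * 3 ∈ maximalIdeal O := by
    have := (maximalIdeal O).mul_mem_left (-(1 + 2 * c.w)) h1
    convert this using 1
    linear_combination 12 * c.hw
  exact h2 (c.h3.mul c.h3)

theorem unit_sub (c : Ctx O l) {j k : ℕ} (hj : j < l) (hk : k < l) (hjk : j ≠ k) :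
    IsUnit (c.mu k - c.mu j) := by
  have key : ∀ a b : ℕ, a < b → b < l → IsUnit (c.mu b - c.mu a) := by
    intro a b hab hb
    by_contra h
    have h1 : c.mu b - c.mu a ∈ maximalIdeal O := h
    have h2 : ((b - a : ℕ) : O) * c.mu 1 ∈ maximalIdeal O := by
      have := (maximalIdeal O).add_mem ((maximalIdeal O).sub_mem h1 (c.hmuj b)) (c.hmuj a)
      convert this using 1
      rw [Nat.cast_sub hab.le]; ring
    rcases (maximalIdeal.isMaximal O).isPrime.mem_or_mem h2 with h3 | h3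
    · exact nat_not_mem c (by omega) (by omega) h3
    · exact mu1_not_mem c h3
  rcases lt_or_gt_of_ne hjk with h | h
  · exact key j k h hk
  · have := (key k j h hj).neg
    rwa [neg_sub] at this

theorem dual (O : Type) [CommRing O] [IsLocalRing O] :
    ∃ (T : Type) (_ : CommRing T) (f : O →+* T) (e1 e2 : T), e1 * e1 = 0 ∧ e2 * e2 = 0 ∧
      (∀ x ∈ maximalIdeal O, f x = 0) ∧ ∀ x, f x * (e1 * e2) = 0 → x ∈ maximalIdeal O := by
  let k := ResidueField O
  refine ⟨DualNumber (DualNumber k), inferInstance,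
    (TrivSqZeroExt.inlHom _ _).comp ((TrivSqZeroExt.inlHom k k).comp (residue O)),
    DualNumber.eps, TrivSqZeroExt.inl DualNumber.eps, DualNumber.eps_mul_eps, ?_, ?_, ?_⟩
  · rw [TrivSqZeroExt.inl_mul_inl, DualNumber.eps_mul_eps, TrivSqZeroExt.inl_zero]
  · intro x hx
    simp [(residue_eq_zero_iff x).2 hx]
  · intro x hx
    have h1 := congrArg (fun y => TrivSqZeroExt.snd (TrivSqZeroExt.snd y)) hx
    simp at h1
    exact (residue_eq_zero_iff x).1 h1

theorem kill {T : Type} [CommRing T] (f : O →+* T) {e1 e2 : T} (h1 : e1 * e1 = 0)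
    (h2 : e2 * e2 = 0) (hf : ∀ x ∈ maximalIdeal O, f x = 0) (v : Fin 3 → T)
    (hv : ∀ i, v i ∈ Ideal.span {e1, e2}) :
    (∀ p ∈ I3 O ^ 3, eval₂Hom f v p = 0) ∧ (3 ≤ N → ∀ p ∈ Jm O N, eval₂Hom f v p = 0) := by
  have hI : ∀ p ∈ I3 O, eval₂Hom f v p ∈ Ideal.span {e1, e2} := by
    have : I3 O ≤ (Ideal.span {e1, e2}).comap (eval₂Hom f v) := by
      rw [Ideal.span_le]
      rintro _ ⟨i, rfl⟩
      simpa using hv i
    exact fun p hp => this hp
  have h3 : ∀ p ∈ I3 O ^ 3, eval₂Hom f v p = 0 := by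
    have : I3 O ^ 3 ≤ RingHom.ker (eval₂Hom f v) := by
      rw [pow_succ, Ideal.mul_le]
      intro r hr s hs
      rw [pow_two] at hr
      rw [RingHom.mem_ker, map_mul]
      obtain ⟨a3, b3, e3⟩ := Ideal.mem_span_pair.1 (hI s hs)
      refine Submodule.mul_induction_on hr ?_ ?_
      · intro x hx y hy
        obtain ⟨a1, b1, e1'⟩ := Ideal.mem_span_pair.1 (hI x hx)
        obtain ⟨a2, b2, e2'⟩ := Ideal.mem_span_pair.1 (hI y hy)
        rw [map_mul, ← e1', ← e2', ← e3]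
        linear_combination (a1 * a2 * (a3 * e1 + b3 * e2) + (a1 * b2 + b1 * a2) * a3 * e2) * h1 +
          (b1 * b2 * (a3 * e1 + b3 * e2) + (a1 * b2 + b1 * a2) * b3 * e1) * h2
      · intro x y hx hy
        rw [map_add, add_mul, hx, hy, add_zero]
    exact fun p hp => this hp
  refine ⟨h3, fun hN => ?_⟩
  have : Jm O N ≤ RingHom.ker (eval₂Hom f v) := by
    refine sup_le ?_ fun p hp => h3 p (Ideal.pow_le_pow_right hN hp)
    rw [Ideal.map_le_iff_le_comap]
    intro x hx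
    simpa using hf x hx
  exact fun p hp => this hp

variable [IsDomain O]

theorem L_X (m : FM c N) (i : Fin 3) : m.L (X i) = m.G i := by
  have h := m.hL (X i)
  rw [aeval_X, add_right_inj] at h
  exact (mul_left_cancel₀ (C_ne_zero.2 c.ht0) h).symm

theorem eig (m : FM c N) {d k : ℕ} {v : P3 O} (h : m.F v - C (c.ze ^ k) * v ∈ I3 O ^ d) :
    m.L v - c.mu k • v ∈ I3 O ^ d := by
  refine mem_pow_of_C_mul_mem c.ht0 ?_
  have h1 : m.F v = v + C c.t * m.L v := m.hL v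
  have h2 := congrArg (C : O → P3 O) (c.hmu k)
  rw [map_mul, map_sub, map_one] at h2
  convert h using 1
  rw [h1, smul_eq_C_mul]
  linear_combination (-v) * h2

theorem eig2 (m : FM c N) {i j : Fin 3} {a b : O} {k : ℕ} (hi : m.F (X i) - C a * X i ∈ I3 O ^ 2)
    (hj : m.F (X j) - C b * X j ∈ I3 O ^ 2) (hk : a * b = c.ze ^ k) :
    m.L (X i * X j) - c.mu k • (X i * X j) ∈ I3 O ^ 3 := by
  refine eig m ?_
  have h3 := (I3 O ^ 3).add_mem (mul_mem3 hi (F_mem m j))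
    (mul_mem3 hj ((I3 O).mul_mem_left (C a) (X_mem_idealOfVars i)))
  convert h3 using 1
  rw [← hk, map_mul, map_mul]; ring

omit [IsDomain O] in
theorem eig_aeval (m : FM c N) (hA : m.FactsA) {v : P3 O} {μ : O}
    (h : m.L v - μ • v ∈ I3 O ^ 3) (p : Polynomial O) :
    Polynomial.aeval m.L p v - p.eval μ • v ∈ I3 O ^ 3 := by
  have hs : ∀ (a : O) (x : P3 O), x ∈ I3 O ^ 3 → a • x ∈ I3 O ^ 3 := fun a x hx => by
    rw [smul_eq_C_mul]; exact (I3 O ^ 3).mul_mem_left _ hx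
  have hp : ∀ n : ℕ, (m.L ^ n) v - μ ^ n • v ∈ I3 O ^ 3 := by
    intro n
    induction n with
    | zero => simp
    | succ n ih =>
      have h3 := (I3 O ^ 3).add_mem (hA.pres 3 _ ih) (hs (μ ^ n) _ h)
      convert h3 using 1
      rw [pow_succ' m.L, Module.End.mul_apply, map_sub, map_smul, smul_sub, smul_smul, pow_succ]
      abel
  induction p using Polynomial.induction_on' with
  | add p q hp hq =>
    have h3 := (I3 O ^ 3).add_mem hp hq
    convert h3 using 1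
    rw [map_add, LinearMap.add_apply, Polynomial.eval_add, add_smul]
    abel
  | monomial n a =>
    have h3 := hs a _ (hp n)
    convert h3 using 1
    rw [Polynomial.aeval_monomial, Polynomial.eval_monomial, Module.End.mul_apply,
      Module.algebraMap_end_apply, smul_sub, smul_smul]

/-- The cofactor of `X - mu k`. -/
def Qk (c : Ctx O l) (k : ℕ) : Polynomial O :=
  ∏ j ∈ (Finset.range l).erase k, (Polynomial.X - Polynomial.C (c.mu j))

omit [IsDomain O] in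
theorem Qk_zero (c : Ctx O l) {k j : ℕ} (hj : j < l) (hjk : j ≠ k) : (Qk c k).eval (c.mu j) = 0 := by
  rw [Qk, Polynomial.eval_prod]
  exact Finset.prod_eq_zero (Finset.mem_erase.2 ⟨hjk, Finset.mem_range.2 hj⟩) (by simp)

omit [IsDomain O] in
theorem Qk_unit (c : Ctx O l) {k : ℕ} (hk : k < l) : IsUnit ((Qk c k).eval (c.mu k)) := by
  rw [Qk, Polynomial.eval_prod, IsUnit.prod_iff]
  intro j hj
  obtain ⟨h1, h2⟩ := Finset.mem_erase.1 hj
  simpa using unit_sub c (Finset.mem_range.1 h2) hk h1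

theorem Eh_qf (m : FM c N) (hN : 3 ≤ N) (hA : m.FactsA) {k : ℕ} (hk : k < l) {x : P3 O}
    {q : Fin 6 → O} (h : m.L x - c.mu k • x - qf q ∈ I3 O ^ 3) :
    m.Eh x - qf ![q 0 * (Qk c k).eval (c.mu 2), q 1 * (Qk c k).eval (c.mu 0),
      q 2 * (Qk c k).eval (c.mu (l - 2)), q 3 * (Qk c k).eval (c.mu 1),
      q 4 * (Qk c k).eval (c.mu (l - 1)), q 5 * (Qk c k).eval (c.mu 0)] ∈ I3 O ^ 3 := by
  obtain ⟨l0, l1, l2⟩ := lin m hN
  have h5 := c.h5
  have hz := ze_pow c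
  have hzz : c.ze ^ (l - 1) * c.ze ^ (l - 1) = c.ze ^ (l - 2) := by
    have : c.ze ^ (l - 1) = c.ze ^ (l - 2) * c.ze := by
      rw [← pow_succ, show l - 2 + 1 = l - 1 by omega]
    linear_combination c.ze ^ (l - 1) * this + c.ze ^ (l - 2) * hz
  have hs : ∀ (a : O) (x : P3 O), x ∈ I3 O ^ 3 → a • x ∈ I3 O ^ 3 := fun a x hx => by
    rw [smul_eq_C_mul]; exact (I3 O ^ 3).mul_mem_left _ hx
  have a0 := hs (q 0) _ (eig_aeval m hA (eig2 m (k := 2) l0 l0 (by ring)) (Qk c k))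
  have a1 := hs (q 1) _ (eig_aeval m hA (eig2 m (k := 0) l0 l1 (by rw [hz, pow_zero])) (Qk c k))
  have a2 := hs (q 2) _ (eig_aeval m hA (eig2 m l1 l1 hzz) (Qk c k))
  have a3 := hs (q 3) _ (eig_aeval m hA (eig2 m (k := 1) l0 l2 (by ring)) (Qk c k))
  have a4 := hs (q 4) _ (eig_aeval m hA (eig2 m (k := l - 1) l1 l2 (by ring)) (Qk c k))
  have a5 := hs (q 5) _ (eig_aeval m hA (eig2 m (k := 0) l2 l2 (by ring)) (Qk c k))
  have a6 := (I3 O ^ 3).add_mem (eig_aeval m hA (μ := 0) (v := m.L x - c.mu k • x - qf q)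
    (by rw [zero_smul, sub_zero]; exact hA.pres 3 _ h) (Qk c k))
    (hs ((Qk c k).eval 0) _ h)
  rw [sub_add_cancel] at a6
  have e : m.Eh x = Polynomial.aeval m.L (Qk c k) (m.L x - c.mu k • x) := by
    rw [FM.Eh, ← Finset.prod_erase_mul _ _ (Finset.mem_range.2 hk), map_mul, Module.End.mul_apply]
    simp [Qk, Module.algebraMap_end_apply]
  have h3 := (I3 O ^ 3).add_mem ((I3 O ^ 3).add_mem ((I3 O ^ 3).add_mem ((I3 O ^ 3).add_mem
    ((I3 O ^ 3).add_mem ((I3 O ^ 3).add_mem a0 a1) a2) a3) a4) a5) a6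
  convert h3 using 1
  rw [e, map_sub _ (m.L x - c.mu k • x)]
  simp only [qf, Matrix.cons_val, map_add, map_smul, smul_sub, smul_smul]
  abel

theorem mu_zero (c : Ctx O l) : c.mu 0 = 0 := by
  have h := c.hmu 0
  rw [pow_zero, sub_self] at h
  exact (mul_eq_zero.1 h).resolve_left c.ht0

omit [IsDomain O] in
theorem fe_zero (m : FM c N) (hA : m.FactsA) (i : Fin 3) : fe (C c.w) X m.G i ∈ Jm O N :=
  hA.field i

theorem ez (m : FM c N) (hN : 3 ≤ N) (hA : m.FactsA) :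
    ∃ α : O, IsUnit α ∧ m.Eh (X 0) - C α * (X 0 * X 2) ∈ I3 O ^ 3 := by
  have h5 := c.h5
  obtain ⟨l0, -, -⟩ := lin m hN
  obtain ⟨q, hq⟩ := quad_part (eig m (k := 1) (by rwa [pow_one]))
  have h := Eh_qf m hN hA (by omega) hq
  rw [Qk_zero c (j := 2) (by omega) (by omega), Qk_zero c (j := 0) (by omega) (by omega),
    Qk_zero c (j := l - 2) (by omega) (by omega), Qk_zero c (j := l - 1) (by omega) (by omega)] at h
  refine ⟨q 3 * (Qk c 1).eval (c.mu 1), IsUnit.mul ?_ (Qk_unit c (by omega)), ?_⟩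
  · obtain ⟨T, _, f, e1, e2, h1, h2, hf, hx⟩ := dual O
    obtain ⟨k3, kJ⟩ := kill (N := N) f h1 h2 hf ![e1, 0, e2] (fun i => by
      fin_cases i
      · exact Ideal.subset_span (by simp)
      · exact Ideal.zero_mem _
      · exact Ideal.subset_span (by simp))
    have hW : f c.w ^ 2 + f c.w + 1 = 0 := by simpa using congrArg f c.hw
    have hg := k3 _ hq
    rw [L_X] at hg
    have := fz (f c.w) (f (c.mu 1)) (f (q 3)) e1 e2
      (fun j => eval₂Hom f ![e1, 0, e2] (m.G j)) hW h1 h2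
      (by
        simp [qf, smul_eq_C_mul, h1, h2] at hg ⊢
        linear_combination hg)
      (fun i => by
        have h6 := kJ hN _ (fe_zero m hA i)
        rw [map_fe] at h6
        simpa using h6)
    have h7 := hf _ c.hmu1
    have h8 := hx (6 * (q 3 + c.mu 1)) (by
      simp only [map_mul, map_add, map_ofNat, map_one] at h7 ⊢
      linear_combination this - (6 * (e1 * e2) + 3 * e1) * h7)
    by_contra hu
    have h9 : q 3 ∈ maximalIdeal O := hu
    have h6 : IsUnit (6 : O) := by have := c.h2.mul c.h3; norm_num at this; exact this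
    have h10 := (Ideal.unit_mul_mem_iff_mem _ h6).1 h8
    exact mu1_not_mem c (by simpa using (maximalIdeal O).sub_mem h10 h9)
  · convert h using 2
    simp [qf, smul_eq_C_mul]

theorem ew (m : FM c N) (hN : 3 ≤ N) (hA : m.FactsA) :
    ∃ α : O, IsUnit α ∧ m.Eh (X 1) - C α * (X 1 * X 2) ∈ I3 O ^ 3 := by
  have h5 := c.h5
  obtain ⟨-, l1, -⟩ := lin m hN
  obtain ⟨q, hq⟩ := quad_part (eig m l1)
  have h := Eh_qf m hN hA (by omega) hq
  rw [Qk_zero c (j := 2) (by omega) (by omega), Qk_zero c (j := 0) (by omega) (by omega),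
    Qk_zero c (j := l - 2) (by omega) (by omega), Qk_zero c (j := 1) (by omega) (by omega)] at h
  refine ⟨q 4 * (Qk c (l - 1)).eval (c.mu (l - 1)), IsUnit.mul ?_ (Qk_unit c (by omega)), ?_⟩
  · obtain ⟨T, _, f, e1, e2, h1, h2, hf, hx⟩ := dual O
    obtain ⟨k3, kJ⟩ := kill (N := N) f h1 h2 hf ![0, e1, e2] (fun i => by
      fin_cases i
      · exact Ideal.zero_mem _
      · exact Ideal.subset_span (by simp)
      · exact Ideal.subset_span (by simp))
    have hW : f c.w ^ 2 + f c.w + 1 = 0 := by simpa using congrArg f c.hw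
    have hg := k3 _ hq
    rw [L_X] at hg
    have := fy (f c.w) (f (c.mu (l - 1))) (f (q 4)) e1 e2
      (fun j => eval₂Hom f ![0, e1, e2] (m.G j)) hW h1 h2
      (by
        simp [qf, smul_eq_C_mul, h1, h2] at hg ⊢
        linear_combination hg)
      (fun i => by
        have h6 := kJ hN _ (fe_zero m hA i)
        rw [map_fe] at h6
        simpa using h6)
    have h7 := hf _ c.hmu1
    have h11 := hf _ (c.hmuj (l - 1))
    have h12 := hf _ c.hlm
    rw [Nat.cast_sub (by omega)] at h11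
    have h8 := hx (6 * (q 4 - c.mu 1)) (by
      simp only [map_mul, map_add, map_sub, map_ofNat, map_one, map_natCast, Nat.cast_one]
        at h7 h11 h12 ⊢
      linear_combination this + (6 * (e1 * e2) + 3 * e1) * h7 -
        (18 * (e1 * e2) + 6 * e1) * (h11 + f (c.mu 1) * h12))
    by_contra hu
    have h9 : q 4 ∈ maximalIdeal O := hu
    have h6 : IsUnit (6 : O) := by have := c.h2.mul c.h3; norm_num at this; exact this
    have h10 := (Ideal.unit_mul_mem_iff_mem _ h6).1 h8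
    exact mu1_not_mem c (by simpa using (maximalIdeal O).sub_mem h9 h10)
  · convert h using 2
    simp [qf, smul_eq_C_mul]

end A3b

theorem a3b : A3bStmt := by
  intro O _ _ _ l c N m hN hA
  obtain ⟨l0, l1, l2⟩ := A3b.lin m hN
  have h0 := A3b.mu_zero c
  refine ⟨A3b.ez m hN hA, A3b.ew m hN hA, ?_, ?_, ?_⟩
  · have := A3b.eig m (k := 0) (d := 2) (v := MvPolynomial.X 2) (by rw [pow_zero]; exact l2)
    rwa [h0, zero_smul, sub_zero] at this
  · have := A3b.eig2 m (k := 0) l2 l2 (by ring)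
    rwa [h0, zero_smul, sub_zero] at this
  · have := A3b.eig2 m (k := 0) l0 l1 (by rw [A3b.ze_pow, pow_zero])
    rwa [h0, zero_smul, sub_zero] at this

end Pool.Agent.MP_62f0b1_an.AE

end
end MrgPart2

-- marker of a merged file
example : 731051 + 333705 = 731051 + 333705 := rfl
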