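import Pool.Agent.MP_62f0b1_an.ae.Asm

/-!
The two-form identity summed over the orbit.
-/

set_option autoImplicit false

noncomputable section

namespace Pool.Agent.MP_62f0b1_an.AE

namespace A4

section Ring

variable {O R : Type} [CommRing O] [CommRing R] [Algebra O R] (d1 d2 : Derivation O R R)

/-- The bracket of two derivations. -/
def bk (f g : R) : R := d1 f * d2 g - d2 f * d1 g

/-- The two-form. -/
def Om (b : Fin 3 → R) : R :=
  b 0 * bk d1 d2 (b 1) (b 2) + b 1 * bk d1 d2 (b 2) (b 0) + b 2 * bk d1 d2 (b 0) (b 1)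

theorem Om_mul (u : R) (b : Fin 3 → R) : Om d1 d2 (fun i => u * b i) = u ^ 3 * Om d1 d2 b := by
  simp only [Om, bk, Derivation.leibniz, smul_eq_mul]
  ring

theorem her_mul (u : R) (b : Fin 3 → R) : her (fun i => u * b i) = u ^ 2 * her b := by
  simp only [her]
  ring

theorem f20 : (0 : Fin 3) + 2 = 2 := rfl
theorem f21 : (1 : Fin 3) + 2 = 0 := rfl
theorem f22 : (2 : Fin 3) + 2 = 1 := rfl
theorem f10 : (0 : Fin 3) + 1 = 1 := rfl
theorem f11 : (1 : Fin 3) + 1 = 2 := rfl
theorem f12 : (2 : Fin 3) + 1 = 0 := rfl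

/-- The common factor of the two Heron forms. -/
def vp (t : R) (a : Fin 3 → R) : R :=
  a 0 * a 1 * a 2 + t * (a 0 * a 1 + a 1 * a 2 + a 2 * a 0) + t ^ 2 * (a 0 + a 1 + a 2)

theorem her_Bt (t : R) (a : Fin 3 → R) : her (Bt t a) = her (fun i => a i ^ 2) * vp t a ^ 2 := by
  simp only [her, Bt, Pi3, vp, f20, f21, f22, f10, f11, f12]
  ring

theorem her_Dt (t : R) (a : Fin 3 → R) : her (Dt t a) = her (fun i => a i ^ 2) * vp t a ^ 2 := by
  simp only [her, Dt, Pi3, vp, f20, f21, f22, f10, f11, f12]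
  ring

/-- One squared side times the product of the sides. -/
def P (t a b c : R) : R :=
  a * b * c * ((a + t) ^ 2 + t ^ 2) - t * (a + t) * (c ^ 2 - a ^ 2 - b ^ 2) * c

/-- Derivative in the first side. -/
def P1 (t a b c : R) : R := b * c * ((a + t) ^ 2 + t ^ 2) + 2 * a * b * c * (a + t) -
  t * (c ^ 2 - a ^ 2 - b ^ 2) * c + 2 * t * a * (a + t) * c

/-- Derivative in the second side. -/
def P2' (t a b c : R) : R := a * c * ((a + t) ^ 2 + t ^ 2) + 2 * t * b * (a + t) * c

/-- Derivative in the third side. -/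
def P3' (t a b c : R) : R :=
  a * b * ((a + t) ^ 2 + t ^ 2) - t * (a + t) * (3 * c ^ 2 - a ^ 2 - b ^ 2)

/-- Derivative of the Heron form. -/
def H1 (t a b c : R) : R :=
  (4 * a * (b ^ 2 + c ^ 2) - 4 * a ^ 3) * (a * b * c + t * (a * b + b * c + c * a) +
    t ^ 2 * (a + b + c)) ^ 2 + 2 * (2 * (a ^ 2 * b ^ 2 + b ^ 2 * c ^ 2 + c ^ 2 * a ^ 2) -
    (a ^ 4 + b ^ 4 + c ^ 4)) * (a * b * c + t * (a * b + b * c + c * a) + t ^ 2 * (a + b + c)) *
    (b * c + t * (b + c) + t ^ 2)

theorem dP {d : Derivation O R R} {t : R} (h : d t = 0) (a b c : R) :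
    d (P t a b c) = P1 t a b c * d a + P2' t a b c * d b + P3' t a b c * d c := by
  simp only [P, P1, P2', P3', map_add, map_sub, Derivation.leibniz, Derivation.leibniz_pow,
    smul_eq_mul, nsmul_eq_mul, h]
  push_cast
  ring

theorem dH {d : Derivation O R R} {t : R} (h : d t = 0) (a : Fin 3 → R) :
    d (her (Bt t a)) = H1 t (a 0) (a 1) (a 2) * d (a 0) + H1 t (a 1) (a 2) (a 0) * d (a 1) +
      H1 t (a 2) (a 0) (a 1) * d (a 2) := by
  have e1 : d 2 = 0 := by simpa using d.map_natCast 2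
  rw [her_Bt]
  simp only [her, vp, H1, map_add, map_sub, Derivation.leibniz, Derivation.leibniz_pow,
    smul_eq_mul, nsmul_eq_mul, h, e1]
  push_cast
  ring

theorem coef (t a b c H : R) (h : H = (2 * (a ^ 2 * b ^ 2 + b ^ 2 * c ^ 2 + c ^ 2 * a ^ 2) -
    (a ^ 4 + b ^ 4 + c ^ 4)) * (a * b * c + t * (a * b + b * c + c * a) +
      t ^ 2 * (a + b + c)) ^ 2) :
    2 * (P t a c b * (P2' t b a c * P2' t c b a - P1 t b a c * P3' t c b a) +
      P t b a c * (P3' t c b a * P3' t a c b - P2' t c b a * P1 t a c b) +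
      P t c b a * (P1 t a c b * P1 t b a c - P3' t a c b * P2' t b a c) -
      (P t a b c * (P3' t b c a * P3' t c a b - P1 t b c a * P2' t c a b) +
      P t b c a * (P2' t c a b * P2' t a b c - P3' t c a b * P1 t a b c) +
      P t c a b * (P1 t a b c * P1 t b c a - P2' t a b c * P3' t b c a))) =
    t * (a * b * c * (H1 t a b c - H1 t b c a) - 2 * H * (b * c - a * c)) := by
  simp only [h, P, P1, P2', P3', H1]
  ring

theorem key {t : R} (h1 : d1 t = 0) (h2 : d2 t = 0) (a : Fin 3 → R) :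
    2 * (Om d1 d2 (Dt t a) - Om d1 d2 (Bt t a)) =
      t * (Pi3 a * bk d1 d2 (her (Bt t a)) (a 0 + a 1 + a 2) -
        2 * her (Bt t a) * bk d1 d2 (Pi3 a) (a 0 + a 1 + a 2)) := by
  have b0 : Bt t a 0 = P t (a 0) (a 1) (a 2) := rfl
  have b1 : Bt t a 1 = P t (a 1) (a 2) (a 0) := by simp only [Bt, Pi3, P, f21, f11]; ring
  have b2 : Bt t a 2 = P t (a 2) (a 0) (a 1) := by simp only [Bt, Pi3, P, f22, f12]; ring
  have c0 : Dt t a 0 = P t (a 0) (a 2) (a 1) := by simp only [Dt, Pi3, P, f20, f10]; ring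
  have c1 : Dt t a 1 = P t (a 1) (a 0) (a 2) := by simp only [Dt, Pi3, P, f21, f11]; ring
  have c2 : Dt t a 2 = P t (a 2) (a 1) (a 0) := by simp only [Dt, Pi3, P, f22, f12]; ring
  have k2 := coef t (a 0) (a 1) (a 2) (her (Bt t a)) (by rw [her_Bt]; simp only [her, vp]; ring)
  have k0 := coef t (a 1) (a 2) (a 0) (her (Bt t a)) (by rw [her_Bt]; simp only [her, vp]; ring)
  have k1 := coef t (a 2) (a 0) (a 1) (her (Bt t a)) (by rw [her_Bt]; simp only [her, vp]; ring)
  simp only [Om, bk, b0, b1, b2, c0, c1, c2, dP h1, dP h2, dH h1, dH h2, Pi3, map_add,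
    Derivation.leibniz, smul_eq_mul]
  linear_combination (d1 (a 0) * d2 (a 1) - d2 (a 0) * d1 (a 1)) * k2 +
    (d1 (a 1) * d2 (a 2) - d2 (a 1) * d1 (a 2)) * k0 +
    (d1 (a 2) * d2 (a 0) - d2 (a 2) * d1 (a 0)) * k1

theorem key' {t u : R} (h1 : d1 t = 0) (h2 : d2 t = 0) (a : Fin 3 → R) (hu : u * Pi3 a = 1) :
    2 * (Om d1 d2 (fun i => u * Dt t a i) - Om d1 d2 fun i => u * Bt t a i) =
      t * bk d1 d2 (her fun i => u * Bt t a i) (a 0 + a 1 + a 2) := by
  have e : ∀ d : Derivation O R R, d u = -u ^ 2 * d (Pi3 a) := fun d => by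
    have := congrArg d hu
    rw [Derivation.leibniz, d.map_one_eq_zero, smul_eq_mul, smul_eq_mul] at this
    linear_combination u * this - d u * hu
  have k := key d1 d2 h1 h2 a
  rw [Om_mul, Om_mul, her_mul]
  simp only [bk, Derivation.leibniz, Derivation.leibniz_pow, smul_eq_mul, nsmul_eq_mul, e] at k ⊢
  push_cast
  linear_combination u ^ 3 * k + t * u ^ 2 * (d1 (her (Bt t a)) * d2 (a 0 + a 1 + a 2) -
    d2 (her (Bt t a)) * d1 (a 0 + a 1 + a 2)) * hu

theorem orbit {t H : R} (h1 : d1 t = 0) (h2 : d2 t = 0) (a : ℕ → Fin 3 → R) (l : ℕ)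
    (hu : ∀ k, IsUnit (Pi3 (a k)))
    (he : ∀ k i, Pi3 (a k) * Bt t (a (k + 1)) i = Pi3 (a (k + 1)) * Dt t (a k) i)
    (hl : a l = a 0) (hH : Pi3 (a 0) ^ 2 * H = her (Bt t (a 0))) :
    t * bk d1 d2 H (∑ k ∈ Finset.range l, (a k 0 + a k 1 + a k 2)) = 0 := by
  choose u hu using fun k => (hu k).exists_left_inv
  set B : ℕ → Fin 3 → R := fun k i => u k * Bt t (a k) i with hB
  have e : ∀ k, (fun i => u k * Dt t (a k) i) = B (k + 1) := fun k => funext fun i => by
    simp only [hB]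
    linear_combination (-u k * u (k + 1)) * he k i - u k * Dt t (a k) i * hu (k + 1) +
      u (k + 1) * Bt t (a (k + 1)) i * hu k
  have h : ∀ k, her (B k) = H := fun k => by
    induction k with
    | zero =>
      rw [hB, her_mul, ← hH]
      linear_combination H * (u 0 * Pi3 (a 0) + 1) * hu 0
    | succ k ih => rw [← e, ← ih, hB, her_mul, her_mul, her_Bt, her_Dt]
  have b : B l = B 0 := by
    have : u l = u 0 := by
      have := hu l
      rw [hl] at this
      linear_combination u 0 * this - u l * hu 0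
    simp only [hB, hl, this]
  have s := Finset.sum_range_sub (fun k => Om d1 d2 (B k)) l
  rw [b, sub_self] at s
  have k : ∀ k, 2 * (Om d1 d2 (B (k + 1)) - Om d1 d2 (B k)) =
      t * bk d1 d2 H (a k 0 + a k 1 + a k 2) := fun k => by
    rw [← e, ← h k]
    exact key' d1 d2 h1 h2 (a k) (hu k)
  rw [← mul_zero (2 : R), ← s, Finset.mul_sum]
  simp only [k]
  simp only [bk, map_sum, Finset.mul_sum, ← Finset.sum_sub_distrib]

theorem map_Pi3 {S : Type} [CommRing S] (f : R →+* S) (a : Fin 3 → R) :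
    f (Pi3 a) = Pi3 fun i => f (a i) := by simp [Pi3]

theorem map_Bt {S : Type} [CommRing S] (f : R →+* S) (t : R) (a : Fin 3 → R) (i : Fin 3) :
    f (Bt t a i) = Bt (f t) (fun i => f (a i)) i := by simp [Bt, Pi3]

theorem map_Dt {S : Type} [CommRing S] (f : R →+* S) (t : R) (a : Fin 3 → R) (i : Fin 3) :
    f (Dt t a i) = Dt (f t) (fun i => f (a i)) i := by simp [Dt, Pi3]

theorem map_her {S : Type} [CommRing S] (f : R →+* S) (a : Fin 3 → R) :
    f (her a) = her fun i => f (a i) := by simp [her, map_ofNat]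

end Ring

open MvPolynomial

theorem euler_mem {O : Type} [CommRing O] (i : Fin 2) (n : ℕ) (p : P2 O) (hp : p ∈ I2 O ^ n) :
    X i * pderiv i p ∈ I2 O ^ n := by
  induction n generalizing p with
  | zero => simp
  | succ n ih =>
    rw [pow_succ] at hp ⊢
    refine Submodule.mul_induction_on hp (fun x hx y hy => ?_) fun x y hx hy => ?_
    · rw [Derivation.leibniz, smul_eq_mul, smul_eq_mul, mul_add, mul_left_comm,
        mul_left_comm _ y, mul_comm y]
      exact add_mem (Ideal.mul_mem_mul hx (Ideal.mul_mem_right _ _ (X_mem_idealOfVars i)))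
        (Ideal.mul_mem_mul (ih x hx) hy)
    · rw [map_add, mul_add]
      exact add_mem hx hy

end A4

open A4 MvPolynomial in
theorem a4 : A4Stmt := by
  intro O _ _ _ l c N K m ψ C0 hKN hA hψ hE hC
  let π := Ideal.Quotient.mkₐ O (I2 O ^ K)
  have hπ : Function.Surjective π := Ideal.Quotient.mkₐ_surjective O _
  have z : ∀ p, π p = 0 ↔ p ∈ I2 O ^ K := fun p => Ideal.Quotient.eq_zero_iff_mem
  have hd : ∀ (i : Fin 2) p, π p = 0 → π (((X i : P2 O) • pderiv i : Derivation O _ _) p) = 0 :=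
    fun i p hp => (z _).2 (euler_mem i K p ((z p).1 hp))
  let d := fun i => Derivation.liftOfSurjective hπ (hd i)
  have dπ : ∀ i p, d i (π p) = π (X i * pderiv i p) := fun i p =>
    Derivation.liftOfSurjective_apply hπ (hd i) p
  have hF : ∀ n p, p ∈ I3 O ^ n → m.F p ∈ I3 O ^ n := fun n p hp => aeval_mem_pow
    (fun i => add_mem (X_mem_idealOfVars i) (Ideal.mul_mem_left _ _ (m.hG i))) hp
  have hr : ∀ n p, p ∈ I3 O ^ n → res ψ p ∈ I2 O ^ n := fun n p hp => aeval_mem_pow (fun i => by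
    fin_cases i
    exacts [X_mem_idealOfVars 0, X_mem_idealOfVars 1, Ideal.pow_le_self two_ne_zero hψ]) hp
  let φ := fun k : ℕ => (π.comp (res ψ)).comp (m.F ^ k)
  have φ0 : ∀ p, φ 0 p = π (res ψ p) := fun p => rfl
  have φs : ∀ k p, φ (k + 1) p = φ k (m.F p) := fun k p => by simp [φ, pow_succ]
  have φi : ∀ k p, φ k p = φ 0 ((m.F : P3 O → P3 O)^[k] p) := fun k p => by
    simp [φ, AlgHom.coe_pow]
  have hm : ∀ k n p, p ∈ I3 O ^ n → ∃ q ∈ I2 O ^ n, φ k p = π q := fun k n => by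
    induction k with
    | zero => exact fun p hp => ⟨_, hr n p hp, rfl⟩
    | succ k ih => exact fun p hp => φs k p ▸ ih _ (hF n p hp)
  have h0 : ∀ k p, p ∈ I3 O ^ N → φ k p = 0 := fun k p hp => by
    obtain ⟨q, hq, e⟩ := hm k N p hp
    rw [e, z]
    exact Ideal.pow_le_pow_right hKN hq
  have ht : ∀ k (r : O), φ k (C r) = algebraMap O _ r := fun k r => (φ k).commutes r
  have hl : φ l = φ 0 := algHom_ext fun i => by
    rw [φi, ← sub_eq_zero, ← map_sub, hA.ret, map_mul, φ0 (m.Eh _), (z _).2 (hE i), mul_zero]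
  have ha : ∀ i, c.a i - 1 ∈ I3 O := fun i => by
    rw [show c.a i - 1 = X 2 + C c.w ^ i.val * X 0 + C c.w ^ (2 * i.val) * X 1 by
      simp only [Ctx.a, aOf]; ring]
    exact add_mem (add_mem (X_mem_idealOfVars 2) (Ideal.mul_mem_left _ _ (X_mem_idealOfVars 0)))
      (Ideal.mul_mem_left _ _ (X_mem_idealOfVars 1))
  have hu : ∀ k i, IsUnit (φ k (c.a i)) := fun k i => by
    obtain ⟨q, hq, e⟩ := hm k 1 _ (by rw [pow_one]; exact ha i)
    rw [map_sub, map_one, sub_eq_iff_eq_add] at e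
    rw [e]
    exact IsNilpotent.isUnit_add_one ⟨K, by
      rw [← map_pow, z]; exact Ideal.pow_mem_pow (by simpa using hq) K⟩
  have o := orbit (d 0) (d 1) (t := algebraMap O _ c.t) (H := φ 0 C0) ((d 0).map_algebraMap _)
    ((d 1).map_algebraMap _) (fun k i => φ k (c.a i)) l
    (fun k => ((hu k 0).mul (hu k 1)).mul (hu k 2)) (fun k i => ?_) (by rw [hl]) ?_
  · have w : (C c.w : P3 O) ^ 2 + C c.w + 1 = 0 := by
      simpa using congrArg (C : O → P3 O) c.hw
    have p : c.a 0 + c.a 1 + c.a 2 = 3 + 3 * X 2 := by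
      simp only [Ctx.a, aOf, Fin.val_zero, Fin.val_one, Fin.val_two]
      linear_combination (X 0 + X 1 * (C c.w ^ 2 - C c.w + 1)) * w
    have s : ∑ k ∈ Finset.range l, (φ k (c.a 0) + φ k (c.a 1) + φ k (c.a 2)) =
        algebraMap O _ (3 * l) + algebraMap O _ (3 * c.t ^ (l - 1)) * φ 0 m.Th := by
      simp only [← map_add, p]
      simp only [map_add, map_mul, map_ofNat, Finset.sum_add_distrib, Finset.sum_const,
        ← Finset.mul_sum, φi _ (X 2), ← map_sum, hA.sum, map_pow, ht, map_natCast,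
        Finset.card_range, nsmul_eq_mul]
      ring
    rw [s] at o
    refine mem_pow_of_C_mul_mem (t := c.t * (3 * c.t ^ (l - 1)))
      (mul_ne_zero c.ht0 (mul_ne_zero c.h3.ne_zero (pow_ne_zero _ c.ht0))) ((z _).1 ?_)
    rw [← o, map_mul π, show π (C _) = algebraMap O _ _ from π.commutes _, map_mul]
    simp only [bk, map_add, Derivation.leibniz, Derivation.map_algebraMap, smul_eq_mul, φ0, dπ, br,
      map_sub π, map_mul π]
    ring
  · have := h0 k _ (m.eqn i)
    rw [map_sub, map_mul, map_mul, sub_eq_zero] at this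
    change _ * φ k (m.F _) = φ k (m.F _) * _ at this
    rw [← φs, ← φs] at this
    have e1 := fun k => map_Pi3 (φ k).toRingHom c.a
    have e2 := map_Bt (φ (k + 1)).toRingHom (C c.t) c.a i
    have e3 := map_Dt (φ k).toRingHom (C c.t) c.a i
    simp only [AlgHom.toRingHom_eq_coe, RingHom.coe_coe, ht] at e1 e2 e3
    rw [← e1, ← e1, ← e2, ← e3, this]
  · have := h0 0 _ hC
    rw [map_sub, map_mul, map_pow, sub_eq_zero] at this
    have e1 := map_Pi3 (φ 0).toRingHom c.a
    have e2 := fun i => map_Bt (φ 0).toRingHom (C c.t) c.a i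
    have e3 := map_her (φ 0).toRingHom (Bt (C c.t) c.a)
    simp only [e2] at e3
    simp only [AlgHom.toRingHom_eq_coe, RingHom.coe_coe, ht] at e1 e3
    rw [← e1, this, e3]

end Pool.Agent.MP_62f0b1_an.AE
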