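import Mathlib.Algebra.AffineMonoid.UniqueSums
import Pool.Agent.MP_62f0b1_an.ae.Asm

/-!
Row A5: the invariant `C0` and the function `M`.
-/

set_option autoImplicit false

noncomputable section

namespace Pool.Agent.MP_62f0b1_an.AE

namespace A5

section Ring

variable {R : Type} [CommRing R]

theorem her_Bt (t : R) (a : Fin 3 → R) :
    her (Bt t a) = (a 0 + a 1 + a 2) * (-(a 0 + a 1 + a 2) ^ 3 +
      4 * (a 0 + a 1 + a 2) * (a 0 * a 1 + a 1 * a 2 + a 2 * a 0) - 8 * (a 0 * a 1 * a 2)) *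
      (a 0 * a 1 * a 2 + t * (a 0 * a 1 + a 1 * a 2 + a 2 * a 0) + t ^ 2 * (a 0 + a 1 + a 2)) ^ 2 := by
  have h01 : (0 : Fin 3) + 1 = 1 := rfl
  have h02 : (0 : Fin 3) + 2 = 2 := rfl
  have h11 : (1 : Fin 3) + 1 = 2 := rfl
  have h12 : (1 : Fin 3) + 2 = 0 := rfl
  have h21 : (2 : Fin 3) + 1 = 0 := rfl
  have h22 : (2 : Fin 3) + 2 = 1 := rfl
  simp only [her, Bt, Pi3, h01, h02, h11, h12, h21, h22]
  ring

theorem her_Dt (t : R) (a : Fin 3 → R) : her (Dt t a) = her (Bt t a) := by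
  have h01 : (0 : Fin 3) + 1 = 1 := rfl
  have h02 : (0 : Fin 3) + 2 = 2 := rfl
  have h11 : (1 : Fin 3) + 1 = 2 := rfl
  have h12 : (1 : Fin 3) + 2 = 0 := rfl
  have h21 : (2 : Fin 3) + 1 = 0 := rfl
  have h22 : (2 : Fin 3) + 2 = 1 := rfl
  simp only [her, Bt, Dt, Pi3, h01, h02, h11, h12, h21, h22]
  ring

theorem sym {w : R} (hw : w ^ 2 + w + 1 = 0) (x : Fin 3 → R) :
    aOf w x 0 + aOf w x 1 + aOf w x 2 = 3 * (1 + x 2) ∧
    aOf w x 0 * aOf w x 1 + aOf w x 1 * aOf w x 2 + aOf w x 2 * aOf w x 0 =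
      3 * (1 + x 2) ^ 2 - 3 * (x 0 * x 1) ∧
    aOf w x 0 * aOf w x 1 * aOf w x 2 =
      (1 + x 2) ^ 3 - 3 * (1 + x 2) * (x 0 * x 1) + (x 0 ^ 3 + x 1 ^ 3) := by
  have h0 : aOf w x 0 = 1 + x 2 + x 0 + x 1 := by simp [aOf]
  have h1 : aOf w x 1 = 1 + x 2 + w * x 0 + w ^ 2 * x 1 := by simp [aOf]
  have h2 : aOf w x 2 = 1 + x 2 + w ^ 2 * x 0 + w * x 1 := by
    have : aOf w x 2 = 1 + x 2 + w ^ 2 * x 0 + w ^ 4 * x 1 := by simp [aOf]
    rw [this]; linear_combination (w * (w - 1) * x 1) * hw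
  have hs : aOf w x 1 + aOf w x 2 = 2 * (1 + x 2) - (x 0 + x 1) := by
    rw [h1, h2]; linear_combination (x 0 + x 1) * hw
  have hp : aOf w x 1 * aOf w x 2 =
      (1 + x 2) ^ 2 - (1 + x 2) * (x 0 + x 1) + x 0 ^ 2 - x 0 * x 1 + x 1 ^ 2 := by
    rw [h1, h2]
    linear_combination ((1 + x 2) * (x 0 + x 1) + (w - 1) * (x 0 ^ 2 + x 1 ^ 2) +
      (w ^ 2 - w + 1) * (x 0 * x 1)) * hw
  refine ⟨?_, ?_, ?_⟩
  · rw [h0]; linear_combination hs
  · rw [h0]; linear_combination hp + (1 + x 2 + x 0 + x 1) * hs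
  · rw [h0]; linear_combination (1 + x 2 + x 0 + x 1) * hp

theorem key (s u v t : R) : ∃ A B C : R,
    ((1 + s) ^ 3 - 3 * (1 + s) * u + v) ^ 2 *
      (3 * ((1 + s) ^ 2 + 3 * t * (1 + s) + 3 * t ^ 2) ^ 2 -
        6 * (1 + 3 * t + 3 * t ^ 2) * (6 + 12 * t + 9 * t ^ 2) * u) -
      (3 * (1 + s) ^ 4 - 36 * (1 + s) ^ 2 * u - 24 * (1 + s) * v) *
      (((1 + s) ^ 3 - 3 * (1 + s) * u + v) + t * (3 * (1 + s) ^ 2 - 3 * u) +
        t ^ 2 * (3 * (1 + s))) ^ 2 = s * u * A + u ^ 2 * B + v * C := by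
  refine ⟨(72) + (180) * t + (-378) * t ^ 3 + (-324) * t ^ 4 + (468) * s + (1080) * s * t + (-1890)
      * s * t ^ 3 + (-1458) * s * t ^ 4 + (1296) * s ^ 2 + (2700) * s ^ 2 * t + (-3780) * s ^ 2
      * t ^ 3 + (-2592) * s ^ 2 * t ^ 4 + (1980) * s ^ 3 + (3600) * s ^ 3 * t + (-3780) * s ^ 3
      * t ^ 3 + (-2268) * s ^ 3 * t ^ 4 + (1800) * s ^ 4 + (2700) * s ^ 4 * t + (-1890) * s ^ 4
      * t ^ 3 + (-972) * s ^ 4 * t ^ 4 + (972) * s ^ 5 + (1080) * s ^ 5 * t + (-378) * s ^ 5 * t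
      ^ 3 + (-162) * s ^ 5 * t ^ 4 + (288) * s ^ 6 + (180) * s ^ 6 * t + (36) * s ^ 7,
      (324) * t + (1350) * t ^ 2 + (2106) * t ^ 3 + (1215) * t ^ 4 + (-972) * u * t + (-3078) *
      u * t ^ 2 + (-3402) * u * t ^ 3 + (-1458) * u * t ^ 4 + (-432) * s + (540) * s * t +
      (5400) * s * t ^ 2 + (8586) * s * t ^ 3 + (4374) * s * t ^ 4 + (648) * s * u + (-1296) * s
      * u * t + (-6156) * s * u * t ^ 2 + (-6804) * s * u * t ^ 3 + (-2916) * s * u * t ^ 4 +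
      (-1944) * s ^ 2 + (-1080) * s ^ 2 * t + (8100) * s ^ 2 * t ^ 2 + (13122) * s ^ 2 * t ^ 3 +
      (6075) * s ^ 2 * t ^ 4 + (1620) * s ^ 2 * u + (324) * s ^ 2 * u * t + (-3078) * s ^ 2 * u
      * t ^ 2 + (-3402) * s ^ 2 * u * t ^ 3 + (-1458) * s ^ 2 * u * t ^ 4 + (-3456) * s ^ 3 +
      (-3240) * s ^ 3 * t + (5400) * s ^ 3 * t ^ 2 + (8910) * s ^ 3 * t ^ 3 + (3888) * s ^ 3 * t
      ^ 4 + (1296) * s ^ 3 * u + (648) * s ^ 3 * u * t + (-3024) * s ^ 4 + (-2700) * s ^ 4 * t +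
      (1350) * s ^ 4 * t ^ 2 + (2268) * s ^ 4 * t ^ 3 + (972) * s ^ 4 * t ^ 4 + (324) * s ^ 4 *
      u + (-1296) * s ^ 5 + (-756) * s ^ 5 * t + (-216) * s ^ 6,
      (24) + (162) * t + (432) * t ^ 2 + (540) * t ^ 3 + (270) * t ^ 4 + (48) * v + (162) * v *
      t + (189) * v * t ^ 2 + (54) * v * t ^ 3 + (27) * v * t ^ 4 + (24) * v ^ 2 + (-144) * u +
      (-810) * u * t + (-1674) * u * t ^ 2 + (-1512) * u * t ^ 3 + (-486) * u * t ^ 4 + (-144) *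
      u * v + (-324) * u * v * t + (-378) * u * v * t ^ 2 + (-378) * u * v * t ^ 3 + (-162) * u
      * v * t ^ 4 + (216) * u ^ 2 + (1296) * u ^ 2 * t + (2484) * u ^ 2 * t ^ 2 + (2268) * u ^ 2
      * t ^ 3 + (972) * u ^ 2 * t ^ 4 + (168) * s + (972) * s * t + (2160) * s * t ^ 2 + (2160)
      * s * t ^ 3 + (810) * s * t ^ 4 + (192) * s * v + (486) * s * v * t + (378) * s * v * t ^
      2 + (54) * s * v * t ^ 3 + (24) * s * v ^ 2 + (-576) * s * u + (-2880) * s * u * t +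
      (-5022) * s * u * t ^ 2 + (-3780) * s * u * t ^ 3 + (-1134) * s * u * t ^ 4 + (-216) * s *
      u * v + (-144) * s * u * v * t + (216) * s * u ^ 2 + (1512) * s * u ^ 2 * t + (2484) * s *
      u ^ 2 * t ^ 2 + (2268) * s * u ^ 2 * t ^ 3 + (972) * s * u ^ 2 * t ^ 4 + (504) * s ^ 2 +
      (2430) * s ^ 2 * t + (4320) * s ^ 2 * t ^ 2 + (3240) * s ^ 2 * t ^ 3 + (810) * s ^ 2 * t ^
      4 + (288) * s ^ 2 * v + (486) * s ^ 2 * v * t + (189) * s ^ 2 * v * t ^ 2 + (-936) * s ^ 2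
      * u + (-3780) * s ^ 2 * u * t + (-5022) * s ^ 2 * u * t ^ 2 + (-3024) * s ^ 2 * u * t ^ 3
      + (-972) * s ^ 2 * u * t ^ 4 + (-108) * s ^ 2 * u * v + (216) * s ^ 2 * u ^ 2 * t + (840)
      * s ^ 3 + (3240) * s ^ 3 * t + (4320) * s ^ 3 * t ^ 2 + (2160) * s ^ 3 * t ^ 3 + (270) * s
      ^ 3 * t ^ 4 + (192) * s ^ 3 * v + (162) * s ^ 3 * v * t + (-792) * s ^ 3 * u + (-2160) * s
      ^ 3 * u * t + (-1674) * s ^ 3 * u * t ^ 2 + (-756) * s ^ 3 * u * t ^ 3 + (-324) * s ^ 3 *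
      u * t ^ 4 + (840) * s ^ 4 + (2430) * s ^ 4 * t + (2160) * s ^ 4 * t ^ 2 + (540) * s ^ 4 *
      t ^ 3 + (48) * s ^ 4 * v + (-360) * s ^ 4 * u + (-450) * s ^ 4 * u * t + (504) * s ^ 5 +
      (972) * s ^ 5 * t + (432) * s ^ 5 * t ^ 2 + (-72) * s ^ 5 * u + (168) * s ^ 6 + (162) * s
      ^ 6 * t + (24) * s ^ 7, ?_⟩
  ring

theorem her_congr {J : Ideal R} {b b' : Fin 3 → R} (h : ∀ i, b i - b' i ∈ J) :
    her b - her b' ∈ J := by
  have e : her b - her b' =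
      (b 0 - b' 0) * (2 * b 1 + 2 * b 2 - b 0 - b' 0) + (b 1 - b' 1) * (2 * b' 0 + 2 * b 2 - b 1 - b' 1) +
        (b 2 - b' 2) * (2 * b' 0 + 2 * b' 1 - b 2 - b' 2) := by
    simp only [her]; ring
  rw [e]
  exact J.add_mem (J.add_mem (J.mul_mem_right _ (h 0)) (J.mul_mem_right _ (h 1)))
    (J.mul_mem_right _ (h 2))

theorem her_mul (m : R) (b : Fin 3 → R) : her (fun i => m * b i) = m ^ 2 * her b := by
  simp only [her]; ring

theorem exists_inv {I : Ideal R} {u : R} (hu : u - 1 ∈ I) (N : ℕ) : ∃ q, u * q - 1 ∈ I ^ N := by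
  refine ⟨∑ i ∈ Finset.range N, (1 - u) ^ i, ?_⟩
  have h1 : (1 - u) ^ N ∈ I ^ N := Ideal.pow_mem_pow (by simpa using I.neg_mem hu) N
  have h2 := mul_neg_geom_sum (1 - u) N
  have h3 : u * (∑ i ∈ Finset.range N, (1 - u) ^ i) - 1 = -(1 - u) ^ N := by
    linear_combination h2
  rw [h3]
  exact (I ^ N).neg_mem h1

theorem one_mul_mem {I : Ideal R} {u v : R} (hu : u - 1 ∈ I) (hv : v - 1 ∈ I) : u * v - 1 ∈ I := by
  have : u * v - 1 = (u - 1) * v + (v - 1) := by ring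
  rw [this]
  exact I.add_mem (I.mul_mem_right _ hu) hv

theorem unit_add {O : Type} [CommRing O] [IsLocalRing O] {u x : O} (hu : IsUnit u)
    (h : x - u ∈ IsLocalRing.maximalIdeal O) : IsUnit x := by
  by_contra hx
  have h1 : x ∈ IsLocalRing.maximalIdeal O := hx
  have h2 : u ∈ IsLocalRing.maximalIdeal O := by
    have := (IsLocalRing.maximalIdeal O).sub_mem h1 h
    simpa using this
  exact h2 hu

end Ring

open MvPolynomial

variable {O : Type} [CommRing O]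

theorem aeval_mem {J : Ideal (P3 O)} {L : Module.End O (P3 O)} (hL : ∀ p ∈ J, L p ∈ J)
    (q : Polynomial O) {p : P3 O} (hp : p ∈ J) : Polynomial.aeval L q p ∈ J := by
  induction q using Polynomial.induction_on generalizing p with
  | C a =>
    rw [Polynomial.aeval_C, Module.algebraMap_end_apply, smul_eq_C_mul]
    exact J.mul_mem_left _ hp
  | add q r hq hr =>
    rw [map_add, LinearMap.add_apply]
    exact J.add_mem (hq hp) (hr hp)
  | monomial n a h =>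
    rw [pow_succ, ← mul_assoc, map_mul, Polynomial.aeval_X, Module.End.mul_apply]
    exact h (hL p hp)

theorem aeval_split (L : Module.End O (P3 O)) (q : Polynomial O) (p : P3 O) :
    Polynomial.aeval L q p = C (q.eval 0) * p + Polynomial.aeval L q.divX (L p) := by
  conv_lhs => rw [← Polynomial.divX_mul_X_add q]
  rw [map_add, map_mul, Polynomial.aeval_X, Polynomial.aeval_C, LinearMap.add_apply,
    Module.End.mul_apply, Module.algebraMap_end_apply, smul_eq_C_mul,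
    Polynomial.coeff_zero_eq_eval_zero, add_comm]

theorem map_mem_mapC (I : Ideal O) (L : Module.End O (P3 O)) {p : P3 O}
    (hp : p ∈ I.map (C : O →+* P3 O)) : L p ∈ I.map (C : O →+* P3 O) := by
  rw [mem_map_C_iff] at hp
  rw [p.as_sum, map_sum]
  refine Ideal.sum_mem _ fun d _ => ?_
  have : monomial d (coeff d p) = coeff d p • monomial d (1 : O) := by
    rw [smul_monomial, smul_eq_mul, mul_one]
  rw [this, map_smul, smul_eq_C_mul]
  exact Ideal.mul_mem_right _ _ (Ideal.mem_map_of_mem _ (hp d))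

theorem X_mem (i : Fin 3) : (X i : P3 O) ∈ I3 O := X_mem_idealOfVars i

theorem mem3 (i j k : Fin 3) : (X i * X j * X k : P3 O) ∈ I3 O ^ 3 := by
  rw [pow_succ, pow_two]
  exact Ideal.mul_mem_mul (Ideal.mul_mem_mul (X_mem i) (X_mem j)) (X_mem k)

variable [IsLocalRing O] {l N : ℕ}

theorem unit_mu (c : Ctx O l) {j : ℕ} (h1 : 1 ≤ j) (h2 : j < l) : IsUnit (c.mu j) := by
  have hd : IsUnit (1 + 2 * c.w) := by
    have : (1 + 2 * c.w) * (1 + 2 * c.w) = -3 := by linear_combination 4 * c.hw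
    exact isUnit_of_mul_isUnit_left (this ▸ c.h3.neg)
  have hm : IsUnit (c.mu 1) := by
    have : IsUnit (2 * c.mu 1) :=
      unit_add (c.h3.mul hd).neg (by simpa [sub_neg_eq_add] using c.hmu1)
    exact isUnit_of_mul_isUnit_right this
  have hj : IsUnit (j : O) := by
    have hc : Nat.Coprime j l :=
      (Nat.Coprime.symm ((Nat.Prime.coprime_iff_not_dvd c.hp).2 (Nat.not_dvd_of_pos_of_lt h1 h2)))
    obtain ⟨a, b, hab⟩ := Nat.isCoprime_iff_coprime.2 hc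
    have hab' : (a : O) * j + b * l = 1 := by exact_mod_cast congrArg (Int.cast : ℤ → O) hab
    have : IsUnit ((a : O) * j) := by
      refine unit_add isUnit_one ?_
      have e : (a : O) * j - 1 = -(b * l) := by linear_combination hab'
      rw [e]
      exact neg_mem (Ideal.mul_mem_left _ _ c.hlm)
    exact isUnit_of_mul_isUnit_right this
  exact unit_add (hj.mul hm) (c.hmuj j)

theorem unit_p0 (c : Ctx O l) : IsUnit c.p0 := by
  rw [Ctx.p0, IsUnit.prod_iff]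
  intro j hj
  rw [Finset.mem_Ico] at hj
  exact (unit_mu c hj.1 hj.2).neg

theorem hwC (c : Ctx O l) : (C c.w : P3 O) ^ 2 + C c.w + 1 = 0 := by
  have := congrArg (C : O →+* P3 O) c.hw
  simpa using this

theorem Pi_eq (c : Ctx O l) : Pi3 c.a =
    (1 + X 2) ^ 3 - 3 * (1 + X 2) * (X 0 * X 1) + (X 0 ^ 3 + X 1 ^ 3) := (sym (hwC c) X).2.2

theorem Pi_one (c : Ctx O l) : Pi3 c.a - 1 ∈ I3 O := by
  have : Pi3 c.a - 1 = X 2 * (3 + 3 * X 2 + X 2 ^ 2) + X 0 * (X 0 ^ 2 - 3 * (1 + X 2) * X 1) +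
      X 1 * X 1 ^ 2 := by
    rw [Pi_eq]; ring
  rw [this]
  exact add_mem (add_mem (Ideal.mul_mem_right _ _ (X_mem 2)) (Ideal.mul_mem_right _ _ (X_mem 0)))
    (Ideal.mul_mem_right _ _ (X_mem 1))

theorem her_eq (c : Ctx O l) : her (Bt (C c.t) c.a) = Hpoly O *
    (Pi3 c.a + C c.t * (3 * (1 + X 2) ^ 2 - 3 * (X 0 * X 1)) + C c.t ^ 2 * (3 * (1 + X 2))) ^ 2 := by
  obtain ⟨h1, h2, h3⟩ := sym (hwC c) (X : Fin 3 → P3 O)
  rw [her_Bt, Pi_eq]
  unfold Ctx.a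
  rw [h1, h2, h3, Hpoly]
  ring

theorem pow_le_Jm : I3 O ^ N ≤ Jm O N := le_sup_right

theorem C_mem_Jm {r : O} (hr : r ∈ IsLocalRing.maximalIdeal O) : (C r : P3 O) ∈ Jm O N :=
  Ideal.mem_sup_left (Ideal.mem_map_of_mem _ hr)

variable {c : Ctx O l}

theorem L_Jm (m : FM c N) (hA : m.FactsA) (p : P3 O) (hp : p ∈ Jm O N) : m.L p ∈ Jm O N := by
  obtain ⟨x, hx, y, hy, rfl⟩ := Submodule.mem_sup.1 hp
  rw [map_add]
  exact add_mem (Ideal.mem_sup_left (map_mem_mapC _ _ hx)) (Ideal.mem_sup_right (hA.pres N y hy))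

theorem G2_Jm (m : FM c N) (hA : m.FactsA) : m.G 2 ∈ Jm O N := by
  have h := add_mem (add_mem (hA.field 0) (hA.field 1)) (hA.field 2)
  have h01 : (0 : Fin 3) + 1 = 1 := rfl
  have h02 : (0 : Fin 3) + 2 = 2 := rfl
  have h11 : (1 : Fin 3) + 1 = 2 := rfl
  have h12 : (1 : Fin 3) + 2 = 0 := rfl
  have h21 : (2 : Fin 3) + 1 = 0 := rfl
  have h22 : (2 : Fin 3) + 2 = 1 := rfl
  simp only [h01, h02, h11, h12, h21, h22] at h
  have a0 : m.A 0 = m.G 2 + m.G 0 + m.G 1 := by simp [FM.A]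
  have a1 : m.A 1 = m.G 2 + C c.w * m.G 0 + C c.w ^ 2 * m.G 1 := by simp [FM.A]
  have a2 : m.A 2 = m.G 2 + C c.w ^ 2 * m.G 0 + C c.w ^ 4 * m.G 1 := by simp [FM.A]
  have hs : m.A 0 + m.A 1 + m.A 2 = 3 * m.G 2 := by
    rw [a0, a1, a2]
    linear_combination (m.G 0 + (C c.w ^ 2 - C c.w + 1) * m.G 1) * hwC c
  have h6 : Pi3 c.a * (6 * m.G 2) ∈ Jm O N := by
    refine (congrArg (· ∈ Jm O N) ?_).mp h
    linear_combination (2 * Pi3 c.a) * hs
  have h7 := mem_of_unit_mul_mem pow_le_Jm (Pi_one c) h6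
  obtain ⟨r, hr⟩ := (c.h2.mul c.h3).exists_left_inv
  have h8 : (C r : P3 O) * 6 = 1 := by
    have := congrArg (C : O →+* P3 O) hr
    rw [map_mul, map_mul, map_one, map_ofNat, map_ofNat] at this
    linear_combination this
  have : m.G 2 = C r * (6 * m.G 2) := by rw [← mul_assoc, h8, one_mul]
  rw [this]
  exact Ideal.mul_mem_left _ _ h7

theorem F_mem (m : FM c N) {n : ℕ} {p : P3 O} (hp : p ∈ I3 O ^ n) : m.F p ∈ I3 O ^ n :=
  aeval_mem_pow (fun i => add_mem (X_mem i) (Ideal.mul_mem_left _ _ (m.hG i))) hp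

theorem L_C0 [IsDomain O] (m : FM c N) {C0 : P3 O}
    (hC : Pi3 c.a ^ 2 * C0 - her (Bt (C c.t) c.a) ∈ I3 O ^ N) : m.L C0 ∈ I3 O ^ N := by
  have h1 := F_mem m hC
  have hF : m.F (her (Bt (C c.t) c.a)) = her (fun i => m.F (Bt (C c.t) c.a i)) := by
    simp only [her, map_sub, map_add, map_mul, map_pow, map_ofNat]
  rw [map_sub, map_mul, map_pow, hF] at h1
  have h2 : her (fun i => Pi3 c.a * m.F (Bt (C c.t) c.a i)) -
      her (fun i => m.F (Pi3 c.a) * Dt (C c.t) c.a i) ∈ I3 O ^ N := her_congr m.eqn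
  rw [her_mul, her_mul] at h2
  have h2' : her (fun i => Dt (C c.t) c.a i) = her (Bt (C c.t) c.a) := her_Dt _ _
  rw [h2'] at h2
  have hP : m.F (Pi3 c.a) - 1 ∈ I3 O := by
    have := F_mem m (n := 1) (p := Pi3 c.a - 1) (by simpa using Pi_one c)
    simpa using this
  have hu : Pi3 c.a * Pi3 c.a * (m.F (Pi3 c.a) * m.F (Pi3 c.a)) - 1 ∈ I3 O :=
    one_mul_mem (one_mul_mem (Pi_one c) (Pi_one c)) (one_mul_mem hP hP)
  have h3 : Pi3 c.a * Pi3 c.a * (m.F (Pi3 c.a) * m.F (Pi3 c.a)) * (m.F C0 - C0) ∈ I3 O ^ N := by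
    have := sub_mem (add_mem (Ideal.mul_mem_left _ (Pi3 c.a ^ 2) h1) h2)
      (Ideal.mul_mem_left _ (m.F (Pi3 c.a) ^ 2) hC)
    refine (congrArg (· ∈ I3 O ^ N) ?_).mp this
    ring
  have h4 := mem_of_unit_mul_mem le_rfl hu h3
  have h5 : m.F C0 - C0 = C c.t * m.L C0 := by
    have := m.hL C0
    unfold FM.F
    rw [this]; ring
  rw [h5] at h4
  exact mem_pow_of_C_mul_mem c.ht0 h4

end A5

open MvPolynomial A5 in
theorem a5 : A5Stmt := by
  intro O _ _ _ l c N m hN hA hB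
  obtain ⟨q, hq⟩ := exists_inv (one_mul_mem (Pi_one c) (Pi_one c)) N
  set C0 : P3 O := q * her (Bt (C c.t) c.a) with hC0
  have hC : Pi3 c.a ^ 2 * C0 - her (Bt (C c.t) c.a) ∈ I3 O ^ N := by
    refine (congrArg (· ∈ I3 O ^ N) ?_).mp (Ideal.mul_mem_right (her (Bt (C c.t) c.a)) _ hq)
    rw [hC0]; ring
  clear_value C0
  set P : Polynomial O := ∏ j ∈ Finset.Ico 1 l, (Polynomial.X - Polynomial.C (c.mu j)) with hP
  have hP0 : P.eval 0 = c.p0 := by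
    rw [hP, Polynomial.eval_prod, Ctx.p0]
    simp
  have hTh : m.Th = Polynomial.aeval m.L P (X 2) := rfl
  have hsplit : ∀ p, Polynomial.aeval m.L P p =
      C c.p0 * p + Polynomial.aeval m.L P.divX (m.L p) := fun p => by rw [aeval_split, hP0]
  have hpres : ∀ (d : ℕ) (Q : Polynomial O) (p : P3 O), p ∈ I3 O ^ d →
      Polynomial.aeval m.L Q p ∈ I3 O ^ d := fun d Q p hp => aeval_mem (hA.pres d) Q hp
  have hL2 : m.L (X 2) = m.G 2 := by
    have h := m.hL (X 2)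
    rw [aeval_X, add_right_inj] at h
    exact (mul_left_cancel₀ (by simpa using c.ht0) h).symm
  have hredT : m.Th - C c.p0 * X 2 ∈ Jm O N := by
    rw [hTh, hsplit, add_sub_cancel_left, hL2]
    exact aeval_mem (L_Jm m hA) _ (G2_Jm m hA)
  have hN3 : I3 O ^ N ≤ I3 O ^ 3 := Ideal.pow_le_pow_right hN
  have ht : (C c.t : P3 O) ∈ Jm O N := C_mem_Jm c.htm
  refine ⟨C0, C c.p0 * C0 - C (6 * (1 + 3 * c.t + 3 * c.t ^ 2) * (2 + 3 * c.t)) * m.Th -
    C (3 * (1 + 3 * c.t + 3 * c.t ^ 2) ^ 2 * c.p0), hC, ⟨_, _, by rw [sub_self]; exact zero_mem _⟩,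
    ?_, unit_p0 c, ?_, hredT, ?_⟩
  · refine ⟨-(6 * (1 + 3 * c.t + 3 * c.t ^ 2) * (6 + 12 * c.t + 9 * c.t ^ 2)) * c.p0,
      (3 * (2 + 3 * c.t) ^ 2 + 6 * (1 + 3 * c.t + 3 * c.t ^ 2)) * c.p0, ?_, ?_⟩
    · have h6 : IsUnit (6 : O) := by
        have := c.h2.mul c.h3
        rwa [show (2 : O) * 3 = 6 by norm_num] at this
      refine IsUnit.mul (IsUnit.neg (unit_add (h6.mul h6) ?_)) (unit_p0 c)
      refine (congrArg (· ∈ IsLocalRing.maximalIdeal O) ?_).mp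
        (Ideal.mul_mem_right (180 + 378 * c.t + 378 * c.t ^ 2 + 162 * c.t ^ 3) _ c.htm)
      ring
    · obtain ⟨A, B, D, hk⟩ := key (X 2 : P3 O) (X 0 * X 1) (X 0 ^ 3 + X 1 ^ 3) (C c.t)
      set K1 : P3 O := C (3 * (1 + 3 * c.t + 3 * c.t ^ 2) ^ 2) * 1 +
        C (6 * (1 + 3 * c.t + 3 * c.t ^ 2) * (2 + 3 * c.t)) * X 2 +
        C (3 * (2 + 3 * c.t) ^ 2 + 6 * (1 + 3 * c.t + 3 * c.t ^ 2)) * (X 2 * X 2) -
        C (6 * (1 + 3 * c.t + 3 * c.t ^ 2) * (6 + 12 * c.t + 9 * c.t ^ 2)) * (X 0 * X 1) with hK1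
      have h1 : Pi3 c.a * Pi3 c.a * (C0 - K1) ∈ I3 O ^ 3 := by
        have e : Pi3 c.a * Pi3 c.a * (C0 - K1) =
            (Pi3 c.a ^ 2 * C0 - her (Bt (C c.t) c.a)) - (X 2 * X 0 * X 1 * A +
              X 0 * X 1 * X 0 * (X 1 * B) + X 0 * X 0 * X 0 * D + X 1 * X 1 * X 1 * D) +
              X 2 * X 2 * X 2 * (Pi3 c.a ^ 2 * (6 * (2 + 3 * C c.t) + 3 * X 2)) := by
          rw [her_eq, hK1, Hpoly]
          rw [← Pi_eq c] at hk
          simp only [map_mul, map_add, map_pow, map_ofNat, map_one]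
          linear_combination (-1 : P3 O) * hk
        rw [e]
        refine add_mem (sub_mem (hN3 hC) (add_mem (add_mem (add_mem ?_ ?_) ?_) ?_)) ?_ <;>
          exact Ideal.mul_mem_right _ _ (mem3 _ _ _)
      have h2 : C0 - K1 ∈ I3 O ^ 3 :=
        mem_of_unit_mul_mem le_rfl (one_mul_mem (Pi_one c) (Pi_one c)) h1
      have h3 := hpres 3 P _ h2
      have h4 := hN3 (hpres N P.divX _ (L_C0 m hC))
      have h5 := hpres 3 P.divX _ hB.lss
      have h6 := hpres 3 P.divX _ hB.lzw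
      have h7 : Polynomial.aeval m.L P K1 =
          C (3 * (1 + 3 * c.t + 3 * c.t ^ 2) ^ 2) * C c.p0 +
          C (6 * (1 + 3 * c.t + 3 * c.t ^ 2) * (2 + 3 * c.t)) * m.Th +
          C (3 * (2 + 3 * c.t) ^ 2 + 6 * (1 + 3 * c.t + 3 * c.t ^ 2)) *
            (C c.p0 * (X 2 * X 2) + Polynomial.aeval m.L P.divX (m.L (X 2 * X 2))) -
          C (6 * (1 + 3 * c.t + 3 * c.t ^ 2) * (6 + 12 * c.t + 9 * c.t ^ 2)) *
            (C c.p0 * (X 0 * X 1) + Polynomial.aeval m.L P.divX (m.L (X 0 * X 1))) := by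
        have hCm : ∀ (r : O) (p : P3 O), Polynomial.aeval m.L P (C r * p) =
            C r * Polynomial.aeval m.L P p := fun r p => by
          rw [← smul_eq_C_mul, map_smul, smul_eq_C_mul]
        rw [hK1, map_sub, map_add, map_add, hCm, hCm, hCm, hCm, ← hTh, hsplit 1,
          hsplit (X 2 * X 2), hsplit (X 0 * X 1), hA.one, map_zero, add_zero, mul_one]
      rw [map_sub, h7, hsplit C0] at h3
      refine (congrArg (· ∈ I3 O ^ 3) ?_).mp (sub_mem (add_mem (sub_mem h3 h4)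
        (Ideal.mul_mem_left _ (C (3 * (2 + 3 * c.t) ^ 2 + 6 * (1 + 3 * c.t + 3 * c.t ^ 2))) h5))
        (Ideal.mul_mem_left _
          (C (6 * (1 + 3 * c.t + 3 * c.t ^ 2) * (6 + 12 * c.t + 9 * c.t ^ 2))) h6))
      simp only [map_mul, map_neg]
      ring
  · have := hpres 1 P (X 2) (by simpa using X_mem 2)
    simpa [hTh] using this
  · have h1 : Pi3 c.a * Pi3 c.a * (C0 - Hpoly O) ∈ Jm O N := by
      refine (congrArg (· ∈ Jm O N) ?_).mp (add_mem (pow_le_Jm hC) (Ideal.mul_mem_right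
        (Hpoly O * ((3 * (1 + X 2) ^ 2 - 3 * (X 0 * X 1)) + C c.t * (3 * (1 + X 2))) *
          (2 * Pi3 c.a + C c.t * (3 * (1 + X 2) ^ 2 - 3 * (X 0 * X 1)) +
            C c.t ^ 2 * (3 * (1 + X 2)))) _ ht))
      rw [her_eq]; ring
    have h2 : C0 - Hpoly O ∈ Jm O N :=
      mem_of_unit_mul_mem pow_le_Jm (one_mul_mem (Pi_one c) (Pi_one c)) h1
    refine (congrArg (· ∈ Jm O N) ?_).mp (sub_mem (sub_mem
      (Ideal.mul_mem_left _ (C c.p0) h2)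
      (Ideal.mul_mem_left _ (C (6 * (1 + 3 * c.t + 3 * c.t ^ 2) * (2 + 3 * c.t))) hredT))
      (Ideal.mul_mem_right (C c.p0 * ((54 + 90 * C c.t + 54 * C c.t ^ 2) * X 2 +
        (18 + 45 * C c.t + 54 * C c.t ^ 2 + 27 * C c.t ^ 3))) _ ht))
    simp only [map_mul, map_add, map_pow, map_ofNat, map_one]
    ring

end Pool.Agent.MP_62f0b1_an.AE
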