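import Mathlib.Topology.Sheaves.Presheaf
import Mathlib.Tactic.Monotonicity.Lemmas
import Mathlib.RingTheory.Flat.TorsionFree
import Mathlib.Analysis.SpecialFunctions.Complex.LogBounds
import Mathlib.Analysis.Real.Pi.Bounds
import Mathlib.RingTheory.SimpleRing.Principal
import Mathlib.RingTheory.TotallySplit
import Mathlib.RingTheory.Etale.Weakly
import Pool.Agent.MP_62f0b1_an.ae.Asm

-- ======== part 0: formerly Pool.Agent.MP_62f0b1_an.ae.G3_1
section MrgPart0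

/-!
Polar coordinates: definitions and pointwise facts.
-/

set_option autoImplicit false

noncomputable section

namespace Pool.Agent.MP_62f0b1_an.AE.G3

open Complex Filter Topology Set
open scoped ComplexConjugate

def sg (ν k : ℂ → ℂ) (q : ℂ × ℂ) : ℂ := csqrt (1 - 8 * k q.2 * q.1 / ν q.2)
def rho (ν k : ℂ → ℂ) (q : ℂ × ℂ) : ℂ := csqrt (2 / (ν q.2 * (1 + sg ν k q)))
def am (ν k : ℂ → ℂ) (q : ℂ × ℂ) : ℂ := csqrt q.1 * rho ν k q
def Zf (ν k : ℂ → ℂ) (p : C3) : ℂ := am ν k p.2 * exp (p.1 * I)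
def Wf (ν k : ℂ → ℂ) (p : C3) : ℂ := am ν k p.2 * exp (-(p.1 * I))
def Pf (ν k : ℂ → ℂ) (p : C3) : C3 := (Zf ν k p, Wf ν k p, p.2.2)
def u1 (F : C3 → ℂ) (α ν k : ℂ → ℂ) (p : C3) : ℂ :=
  F (Pf ν k p) / (exp (I * α p.2.2) * Zf ν k p)
def u2 (G : C3 → ℂ) (α ν k : ℂ → ℂ) (p : C3) : ℂ :=
  G (Pf ν k p) / (exp (-(I * α p.2.2)) * Wf ν k p)
def Th (F G : C3 → ℂ) (α ν k : ℂ → ℂ) (p : C3) : ℂ :=
  p.1 + α p.2.2 + (log (u1 F α ν k p) - log (u2 G α ν k p)) / (2 * I)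
def Jf (F G : C3 → ℂ) (ν k : ℂ → ℂ) (p : C3) : ℂ :=
  ν p.2.2 * (F (Pf ν k p) * G (Pf ν k p) - 2 * k p.2.2 * (F (Pf ν k p) * G (Pf ν k p)) ^ 2)

variable {F G : C3 → ℂ} {α ν k : ℂ → ℂ}

theorem am_ne (q : ℂ × ℂ) : am ν k q ≠ 0 := mul_ne_zero (csqrt_ne_zero _) (csqrt_ne_zero _)
theorem Zf_ne (p : C3) : Zf ν k p ≠ 0 := mul_ne_zero (am_ne _) (exp_ne_zero _)
theorem Wf_ne (p : C3) : Wf ν k p ≠ 0 := mul_ne_zero (am_ne _) (exp_ne_zero _)

theorem ZW (p : C3) : Zf ν k p * Wf ν k p = am ν k p.2 ^ 2 := by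
  have : exp (p.1 * I) * exp (-(p.1 * I)) = 1 := by rw [← exp_add, add_neg_cancel, exp_zero]
  rw [Zf, Wf]
  linear_combination am ν k p.2 ^ 2 * this

theorem F_eq (p : C3) : F (Pf ν k p) = exp (I * α p.2.2) * Zf ν k p * u1 F α ν k p := by
  rw [u1, mul_div_cancel₀ _ (mul_ne_zero (exp_ne_zero _) (Zf_ne p))]

theorem G_eq (p : C3) : G (Pf ν k p) = exp (-(I * α p.2.2)) * Wf ν k p * u2 G α ν k p := by
  rw [u2, mul_div_cancel₀ _ (mul_ne_zero (exp_ne_zero _) (Wf_ne p))]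

theorem Pf_per (p : C3) : Pf ν k (p.1 + 2 * Real.pi, p.2) = Pf ν k p := by
  have h1 : exp ((p.1 + 2 * Real.pi) * I) = exp (p.1 * I) := by
    rw [add_mul, exp_add, exp_two_pi_mul_I, mul_one]
  simp only [Pf, Zf, Wf, exp_neg, h1]

theorem per (p : C3) :
    Th F G α ν k (p.1 + 2 * Real.pi, p.2) = Th F G α ν k p + 2 * Real.pi ∧
      Jf F G ν k (p.1 + 2 * Real.pi, p.2) = Jf F G ν k p := by
  have h := Pf_per (ν := ν) (k := k) p
  have h1 : Zf ν k (p.1 + 2 * Real.pi, p.2) = Zf ν k p := congrArg Prod.fst h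
  have h2 : Wf ν k (p.1 + 2 * Real.pi, p.2) = Wf ν k p := congrArg (fun q => q.2.1) h
  refine ⟨?_, by simp only [Jf, h]⟩
  simp only [Th, u1, u2, h, h1, h2]
  ring

theorem ident {q : ℂ × ℂ} (h0 : ν q.2 ≠ 0) (h1 : 1 - 8 * k q.2 * q.1 / ν q.2 ≠ 0)
    (h2 : 1 + sg ν k q ≠ 0) :
    ν q.2 * (rho ν k q ^ 2 - 2 * k q.2 * q.1 * rho ν k q ^ 4) = 1 := by
  have e1 : sg ν k q ^ 2 = 1 - 8 * k q.2 * q.1 / ν q.2 := csqrt_sq h1
  have e2 : rho ν k q ^ 2 = 2 / (ν q.2 * (1 + sg ν k q)) :=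
    csqrt_sq (div_ne_zero two_ne_zero (mul_ne_zero h0 h2))
  have e3 : rho ν k q ^ 4 = (rho ν k q ^ 2) ^ 2 := by ring
  have e4 : 8 * k q.2 * q.1 = ν q.2 * (1 - sg ν k q ^ 2) := by
    rw [e1]
    field_simp
    ring
  rw [e3, e2]
  field_simp
  linear_combination -e4

/-- Pointwise hypotheses at a complex point. -/
structure Good (F G : C3 → ℂ) (α ν k : ℂ → ℂ) (p : C3) : Prop where
  hJ : 0 < p.2.1.re
  aF : AnalyticAt ℂ F (Pf ν k p)
  aG : AnalyticAt ℂ G (Pf ν k p)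
  aα : AnalyticAt ℂ α p.2.2
  aν : AnalyticAt ℂ ν p.2.2
  ak : AnalyticAt ℂ k p.2.2
  aρ : AnalyticAt ℂ (rho ν k) p.2
  s1 : u1 F α ν k p ∈ slitPlane
  s2 : u2 G α ν k p ∈ slitPlane
  idn : ∀ᶠ q in 𝓝 p.2, ν q.2 * (rho ν k q ^ 2 - 2 * k q.2 * q.1 * rho ν k q ^ 4) = 1
  det : jacC F G (Pf ν k p) * (1 - 4 * k p.2.2 * F (Pf ν k p) * G (Pf ν k p)) =
    1 - 4 * k p.2.2 * Zf ν k p * Wf ν k p

variable {p : C3}

theorem Good.an_am (h : Good F G α ν k p) : AnalyticAt ℂ (am ν k) p.2 :=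
  ((analyticAt_csqrt (Or.inl h.hJ)).comp analyticAt_fst).mul h.aρ

theorem Good.an_Z (h : Good F G α ν k p) : AnalyticAt ℂ (Zf ν k) p :=
  (h.an_am.comp analyticAt_snd).mul (analyticAt_fst.mul analyticAt_const).cexp'

theorem Good.an_W (h : Good F G α ν k p) : AnalyticAt ℂ (Wf ν k) p :=
  (h.an_am.comp analyticAt_snd).mul (analyticAt_fst.mul analyticAt_const).neg.cexp'

theorem an_e {f : ℂ → ℂ} (h : AnalyticAt ℂ f p.2.2) : AnalyticAt ℂ (fun q : C3 => f q.2.2) p :=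
  h.comp (f := fun q : C3 => q.2.2) (analyticAt_snd.comp analyticAt_snd)

theorem Good.an_P (h : Good F G α ν k p) : AnalyticAt ℂ (Pf ν k) p :=
  h.an_Z.prod (h.an_W.prod (analyticAt_snd.comp analyticAt_snd))

theorem Good.an (h : Good F G α ν k p) :
    AnalyticAt ℂ (Th F G α ν k) p ∧ AnalyticAt ℂ (Jf F G ν k) p := by
  have a1 : AnalyticAt ℂ (fun q => F (Pf ν k q)) p := h.aF.comp h.an_P
  have a2 : AnalyticAt ℂ (fun q => G (Pf ν k q)) p := h.aG.comp h.an_P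
  have a3 : AnalyticAt ℂ (u1 F α ν k) p :=
    a1.div ((analyticAt_const.mul (an_e h.aα)).cexp'.mul h.an_Z)
      (mul_ne_zero (exp_ne_zero _) (Zf_ne p))
  have a4 : AnalyticAt ℂ (u2 G α ν k) p :=
    a2.div ((analyticAt_const.mul (an_e h.aα)).neg.cexp'.mul h.an_W)
      (mul_ne_zero (exp_ne_zero _) (Wf_ne p))
  exact ⟨(analyticAt_fst.add (an_e h.aα)).add ((a3.clog h.s1).sub (a4.clog h.s2)).div_const,
    (an_e h.aν).mul ((a1.mul a2).sub ((analyticAt_const.mul (an_e h.ak)).mul ((a1.mul a2).pow 2)))⟩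

theorem chain {g : C3 → ℂ} {x y : ℂ → ℂ} {x' y' t e : ℂ} (hg : DifferentiableAt ℂ g (x t, y t, e))
    (hx : HasDerivAt x x' t) (hy : HasDerivAt y y' t) :
    HasDerivAt (fun s => g (x s, y s, e))
      (d1 g (x t, y t, e) * x' + d2 g (x t, y t, e) * y') t := by
  have h := hg.hasFDerivAt.comp_hasDerivAt t (hx.prodMk (hy.prodMk (hasDerivAt_const t e)))
  have e1 : ((x', y', 0) : C3) = x' • ((1, 0, 0) : C3) + y' • ((0, 1, 0) : C3) := by simp
  rw [e1, map_add, map_smul, map_smul, smul_eq_mul, smul_eq_mul, mul_comm x', mul_comm y'] at h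
  exact h

/-- Derivatives of `Th` and `Jf` along a curve. -/
theorem Good.curve {θ J : ℂ → ℂ} {θ' J' a' t e : ℂ} (h : Good F G α ν k (θ t, J t, e))
    (hθ : HasDerivAt θ θ' t) (hJ : HasDerivAt J J' t)
    (ha : HasDerivAt (fun s => am ν k (J s, e)) a' t) :
    ∃ F' G' Z' W' : ℂ, F' = d1 F (Pf ν k (θ t, J t, e)) * Z' + d2 F (Pf ν k (θ t, J t, e)) * W' ∧
      G' = d1 G (Pf ν k (θ t, J t, e)) * Z' + d2 G (Pf ν k (θ t, J t, e)) * W' ∧
      Z' = (a' / am ν k (J t, e) + θ' * I) * Zf ν k (θ t, J t, e) ∧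
      W' = (a' / am ν k (J t, e) - θ' * I) * Wf ν k (θ t, J t, e) ∧
      d1 (Th F G α ν k) (θ t, J t, e) * θ' + d2 (Th F G α ν k) (θ t, J t, e) * J' =
        (F' / F (Pf ν k (θ t, J t, e)) - G' / G (Pf ν k (θ t, J t, e))) / (2 * I) ∧
      d1 (Jf F G ν k) (θ t, J t, e) * θ' + d2 (Jf F G ν k) (θ t, J t, e) * J' =
        ν e * (1 - 4 * k e * F (Pf ν k (θ t, J t, e)) * G (Pf ν k (θ t, J t, e))) *
          (F' * G (Pf ν k (θ t, J t, e)) + F (Pf ν k (θ t, J t, e)) * G') := by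
  have n0 := am_ne (ν := ν) (k := k) (J t, e)
  have hZ : HasDerivAt (fun s => Zf ν k (θ s, J s, e))
      ((a' / am ν k (J t, e) + θ' * I) * Zf ν k (θ t, J t, e)) t := by
    refine (ha.mul (hθ.mul_const I).cexp).congr_deriv ?_
    simp only [Zf]
    field_simp
  have hW : HasDerivAt (fun s => Wf ν k (θ s, J s, e))
      ((a' / am ν k (J t, e) - θ' * I) * Wf ν k (θ t, J t, e)) t := by
    refine (ha.mul (hθ.mul_const I).neg.cexp).congr_deriv ?_
    simp only [Wf, Pi.neg_apply]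
    field_simp
    ring
  have hF := chain (g := F) (e := e) h.aF.differentiableAt hZ hW
  have hG := chain (g := G) (e := e) h.aG.differentiableAt hZ hW
  refine ⟨_, _, _, _, rfl, rfl, rfl, rfl, ?_, ?_⟩
  · have n1 := Zf_ne (ν := ν) (k := k) (θ t, J t, e)
    have n2 := Wf_ne (ν := ν) (k := k) (θ t, J t, e)
    have n3 : F (Pf ν k (θ t, J t, e)) ≠ 0 := by
      rw [F_eq (F := F) (α := α)]
      exact mul_ne_zero (mul_ne_zero (exp_ne_zero _) n1) (slitPlane_ne_zero h.s1)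
    have n4 : G (Pf ν k (θ t, J t, e)) ≠ 0 := by
      rw [G_eq (G := G) (α := α)]
      exact mul_ne_zero (mul_ne_zero (exp_ne_zero _) n2) (slitPlane_ne_zero h.s2)
    have n5 := exp_ne_zero (I * α e)
    have n6 := exp_ne_zero (-(I * α e))
    have v1 := (hF.div (hZ.const_mul (exp (I * α e))) (mul_ne_zero n5 n1)).clog h.s1
    have v2 := (hG.div (hW.const_mul (exp (-(I * α e)))) (mul_ne_zero n6 n2)).clog h.s2
    have v := (hθ.add_const (α e)).add ((v1.sub v2).div_const (2 * I))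
    refine ((chain h.an.1.differentiableAt hθ hJ).unique v).trans ?_
    simp only [Pi.div_apply]
    have e1 : (Zf ν k (θ t, J t, e), Wf ν k (θ t, J t, e), e) = Pf ν k (θ t, J t, e) := rfl
    rw [e1]
    have := I_ne_zero
    field_simp
    ring
  · have v := ((hF.mul hG).sub (((hF.mul hG).pow 2).const_mul (2 * k e))).const_mul (ν e)
    refine ((chain h.an.2.differentiableAt hθ hJ).unique v).trans ?_
    have e1 : (Zf ν k (θ t, J t, e), Wf ν k (θ t, J t, e), e) = Pf ν k (θ t, J t, e) := rfl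
    simp only [Pi.mul_apply, e1]
    push_cast
    ring

theorem Good.jac (h : Good F G α ν k p) : jacC (Th F G α ν k) (Jf F G ν k) p = 1 := by
  obtain ⟨θ, J, e⟩ := p
  have n0 := am_ne (ν := ν) (k := k) (J, e)
  have ha : HasDerivAt (fun s => am ν k (s, e)) (deriv (fun s => am ν k (s, e)) J) J :=
    (h.an_am.comp (f := fun s : ℂ => (s, e))
      (analyticAt_id.prod analyticAt_const)).differentiableAt.hasDerivAt
  generalize deriv (fun s => am ν k (s, e)) J = a' at ha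
  have hid : (fun s => ν e * (am ν k (s, e) ^ 2 - 2 * k e * am ν k (s, e) ^ 4)) =ᶠ[𝓝 J] id := by
    have c : ContinuousAt (fun s : ℂ => (s, e)) J := by fun_prop
    have hJ : J ≠ 0 := fun h0 => by simpa [h0] using h.hJ
    filter_upwards [c.eventually h.idn, eventually_ne_nhds hJ] with s h1 h2
    have h3 := csqrt_sq h2
    have h4 : csqrt s ^ 4 = s ^ 2 := by linear_combination (csqrt s ^ 2 + s) * h3
    simp only [am, mul_pow, h3, h4, id]
    linear_combination s * h1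
  have e0 := (((ha.pow 2).sub ((ha.pow 4).const_mul (2 * k e))).const_mul (ν e)).unique
    ((hasDerivAt_id J).congr_of_eventuallyEq hid)
  obtain ⟨F1, G1, Z1, W1, a1, a2, a3, a4, a5, a6⟩ := Good.curve (θ := id) (J := fun _ => J)
    (t := θ) h (hasDerivAt_id θ) (hasDerivAt_const θ J) (hasDerivAt_const θ _)
  obtain ⟨F2, G2, Z2, W2, b1, b2, b3, b4, b5, b6⟩ := Good.curve (θ := fun _ => θ) (J := id)
    (t := J) h (hasDerivAt_const J θ) (hasDerivAt_id J) ha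
  simp only [id, mul_one, mul_zero, add_zero, zero_add, zero_div, zero_mul, sub_zero, zero_sub,
    one_mul] at a1 a2 a3 a4 a5 a6 b1 b2 b3 b4 b5 b6
  have n3 : F (Pf ν k (θ, J, e)) ≠ 0 := by
    rw [F_eq (F := F) (α := α)]
    exact mul_ne_zero (mul_ne_zero (exp_ne_zero _) (Zf_ne _)) (slitPlane_ne_zero h.s1)
  have n4 : G (Pf ν k (θ, J, e)) ≠ 0 := by
    rw [G_eq (G := G) (α := α)]
    exact mul_ne_zero (mul_ne_zero (exp_ne_zero _) (Wf_ne _)) (slitPlane_ne_zero h.s2)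
  have hd := h.det
  have zw := ZW (ν := ν) (k := k) (θ, J, e)
  have e1 : F1 * G2 - F2 * G1 = jacC F G (Pf ν k (θ, J, e)) * (I * (2 * am ν k (J, e) * a')) := by
    have : Z1 * W2 - Z2 * W1 = I * (2 * am ν k (J, e) * a') := by
      rw [a3, a4, b3, b4]
      field_simp
      linear_combination 2 * a' * zw
    rw [← this, a1, a2, b1, b2, jacC]
    ring
  have e2 : jacC (Th F G α ν k) (Jf F G ν k) (θ, J, e) = ν e *
      (1 - 4 * k e * F (Pf ν k (θ, J, e)) * G (Pf ν k (θ, J, e))) * (F1 * G2 - F2 * G1) / I := by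
    rw [jacC, a5, a6, b5, b6]
    have := I_ne_zero
    field_simp
    ring
  rw [e2, e1, div_eq_iff I_ne_zero]
  simp only at hd zw
  push_cast at e0
  linear_combination ν e * I * (2 * am ν k (J, e) * a') * hd + I * e0 -
    ν e * I * (2 * am ν k (J, e) * a') * 4 * k e * zw

theorem rho_real {J e n κ : ℝ} (hn : ν e = n) (hk : k e = κ) (n0 : 0 < n)
    (hs : 0 < 1 - 8 * κ * J / n) :
    rho ν k (J, e) = ((√(2 / (n * (1 + √(1 - 8 * κ * J / n)))) : ℝ) : ℂ) := by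
  have e1 : sg ν k (J, e) = ((√(1 - 8 * κ * J / n) : ℝ) : ℂ) := by
    rw [← csqrt_ofReal hs, sg]
    simp only [hn, hk]
    push_cast
    rfl
  rw [← csqrt_ofReal (by positivity), rho, e1]
  simp only [hn]
  push_cast
  rfl

/-- Pointwise hypotheses at a real point. -/
structure GoodR (F G : C3 → ℂ) (α ν k : ℂ → ℂ) (p : R3) : Prop where
  g : Good F G α ν k (cp p)
  hα : (α p.2.2).im = 0
  hν : (ν p.2.2).im = 0
  hk : (k p.2.2).im = 0
  ν0 : 0 < (ν p.2.2).re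
  hs : 0 < (1 - 8 * k p.2.2 * p.2.1 / ν p.2.2).re
  hr : G (rp (Zf ν k (cp p)) p.2.2) = conj (F (rp (Zf ν k (cp p)) p.2.2))
  hx : 0 < (1 - 4 * k p.2.2 * (F (Pf ν k (cp p)) * G (Pf ν k (cp p)))).re

theorem eq_re {z : ℂ} (h : z.im = 0) : z = (z.re : ℂ) := Complex.ext rfl (by simpa using h)

variable {q : R3}

theorem GoodR.am_real (h : GoodR F G α ν k q) : ∃ a : ℝ, 0 < a ∧ am ν k (cp q).2 = a := by
  have hJ : 0 < q.2.1 := by simpa [cp] using h.g.hJ
  have hs := h.hs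
  rw [eq_re h.hν, eq_re h.hk] at hs
  have hs' : 0 < 1 - 8 * (k q.2.2).re * q.2.1 / (ν q.2.2).re := by
    convert hs using 1
    norm_cast
  have := h.ν0
  refine ⟨√q.2.1 * √(2 / ((ν q.2.2).re * (1 + √(1 - 8 * (k q.2.2).re * q.2.1 / (ν q.2.2).re)))),
    by positivity, ?_⟩
  change csqrt (q.2.1 : ℂ) * rho ν k (q.2.1, q.2.2) = _
  rw [csqrt_ofReal hJ, rho_real (eq_re h.hν) (eq_re h.hk) h.ν0 hs', ofReal_mul]

theorem GoodR.W_eq (h : GoodR F G α ν k q) : Wf ν k (cp q) = conj (Zf ν k (cp q)) := by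
  obtain ⟨a, -, ha⟩ := h.am_real
  rw [Wf, Zf, ha, map_mul, conj_ofReal, ← exp_conj]
  simp [cp]

theorem GoodR.P_eq (h : GoodR F G α ν k q) : Pf ν k (cp q) = rp (Zf ν k (cp q)) q.2.2 := by
  rw [Pf, h.W_eq]
  rfl

theorem GoodR.GF (h : GoodR F G α ν k q) : G (Pf ν k (cp q)) = conj (F (Pf ν k (cp q))) := by
  rw [h.P_eq, h.hr]

theorem GoodR.Th_eq (h : GoodR F G α ν k q) : Th F G α ν k (cp q) =
    ((q.1 + (α q.2.2).re + arg (u1 F α ν k (cp q)) : ℝ) : ℂ) := by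
  have e1 : u2 G α ν k (cp q) = conj (u1 F α ν k (cp q)) := by
    rw [u2, u1, h.GF, h.W_eq, map_div₀, map_mul, ← exp_conj]
    change _ / (exp (-(I * α q.2.2)) * _) = _ / (exp (conj (I * α q.2.2)) * _)
    rw [eq_re h.hα]
    simp
  rw [Th, e1, log_conj _ (slitPlane_arg_ne_pi h.g.s1), sub_conj, log_im]
  change (q.1 : ℂ) + α q.2.2 + _ = _
  conv_lhs => rw [eq_re h.hα]
  have := I_ne_zero
  push_cast
  field_simp

theorem GoodR.FG (h : GoodR F G α ν k q) :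
    F (Pf ν k (cp q)) * G (Pf ν k (cp q)) = ((‖F (Pf ν k (cp q))‖ ^ 2 : ℝ) : ℂ) := by
  rw [h.GF, mul_conj, normSq_eq_norm_sq]

theorem GoodR.J_eq (h : GoodR F G α ν k q) : Jf F G ν k (cp q) = (((ν q.2.2).re *
    (‖F (Pf ν k (cp q))‖ ^ 2 - 2 * (k q.2.2).re * (‖F (Pf ν k (cp q))‖ ^ 2) ^ 2) : ℝ) : ℂ) := by
  rw [Jf, h.FG]
  change ν q.2.2 * (_ - 2 * k q.2.2 * _) = _
  conv_lhs => rw [eq_re h.hν, eq_re h.hk]
  push_cast
  ring

theorem GoodR.link (h : GoodR F G α ν k q) : F (rp (Zf ν k (cp q)) q.2.2) =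
    Zf ν k (cp (reF (Th F G α ν k) q, reF (Jf F G ν k) q, q.2.2)) := by
  obtain ⟨a, a0, ha⟩ := h.am_real
  have hx := h.hx
  have n0 := h.ν0
  have hF := F_eq (F := F) (α := α) (ν := ν) (k := k) (cp q)
  have f0 : 0 < ‖F (Pf ν k (cp q))‖ := by
    rw [norm_pos_iff, hF]
    exact mul_ne_zero (mul_ne_zero (exp_ne_zero _) (Zf_ne _)) (slitPlane_ne_zero h.g.s1)
  rw [h.FG, eq_re h.hk] at hx
  rw [← h.P_eq, reF, reF, h.Th_eq, h.J_eq, ofReal_re, ofReal_re]
  have hN : ‖F (Pf ν k (cp q))‖ = a * ‖u1 F α ν k (cp q)‖ := by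
    rw [hF, Zf, ha, norm_mul, norm_mul, norm_mul, mul_comm I]
    change ‖exp (α q.2.2 * I)‖ * (_ * ‖exp ((q.1 : ℂ) * I)‖) * _ = _
    rw [eq_re h.hα, norm_exp_ofReal_mul_I, norm_exp_ofReal_mul_I, norm_real, Real.norm_of_nonneg a0.le,
      one_mul, mul_one]
  generalize ‖F (Pf ν k (cp q))‖ = x at *
  have hx1 : 0 < 1 - 4 * (k q.2.2).re * x ^ 2 := by
    convert hx using 1
    norm_cast
  have hx2 : 0 < 1 - 2 * (k q.2.2).re * x ^ 2 := by linarith
  have e1 : 1 - 8 * (k q.2.2).re * ((ν q.2.2).re * (x ^ 2 - 2 * (k q.2.2).re * (x ^ 2) ^ 2)) /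
      (ν q.2.2).re = (1 - 4 * (k q.2.2).re * x ^ 2) ^ 2 := by
    field_simp
    ring
  have e2 : (ν q.2.2).re * (x ^ 2 - 2 * (k q.2.2).re * (x ^ 2) ^ 2) =
      x ^ 2 * ((ν q.2.2).re * (1 - 2 * (k q.2.2).re * x ^ 2)) := by ring
  have e3 : am ν k (((ν q.2.2).re * (x ^ 2 - 2 * (k q.2.2).re * (x ^ 2) ^ 2) : ℝ), q.2.2) = x := by
    rw [am, rho_real (eq_re h.hν) (eq_re h.hk) n0 (by rw [e1]; positivity), e1,
      Real.sqrt_sq hx1.le, csqrt_ofReal (by rw [e2]; positivity), ← ofReal_mul,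
      ← Real.sqrt_mul (by rw [e2]; positivity), e2]
    congr 1
    rw [Real.sqrt_eq_iff_eq_sq (by positivity) f0.le,
      show 1 + (1 - 4 * (k q.2.2).re * x ^ 2) = 2 * (1 - 2 * (k q.2.2).re * x ^ 2) by ring]
    generalize 1 - 2 * (k q.2.2).re * x ^ 2 = y at hx2
    field_simp
  change _ = am ν k (_, _) * exp (((_ : ℝ) : ℂ) * I)
  rw [e3, hF, Zf, ha, hN]
  change exp (I * α q.2.2) * (a * exp ((q.1 : ℂ) * I)) * _ = _
  conv_lhs => rw [eq_re h.hα, ← norm_mul_exp_arg_mul_I (u1 F α ν k (cp q))]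
  push_cast
  rw [add_mul, add_mul, exp_add, exp_add, mul_comm I]
  ring

/-- The inverse of the chart. -/
def inv (ν k : ℂ → ℂ) (x : ℂ × ℝ) : ℝ × ℝ :=
  ((log x.1).im, (ν x.2 * (x.1 * conj x.1 - 2 * k x.2 * (x.1 * conj x.1) ^ 2)).re)

theorem GoodR.inv_spec (h : GoodR F G α ν k q) (hθ : |q.1| < Real.pi) :
    DifferentiableAt ℝ (inv ν k) (Zf ν k (cp q), q.2.2) ∧
      inv ν k (Zf ν k (cp q), q.2.2) = (q.1, q.2.1) := by
  obtain ⟨a, a0, ha⟩ := h.am_real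
  have h1 := abs_lt.1 hθ
  have e1 : arg (Zf ν k (cp q)) = q.1 := by
    rw [Zf, ha]
    change arg (a * exp ((q.1 : ℂ) * I)) = _
    rw [exp_mul_I, arg_mul_cos_add_sin_mul_I a0 ⟨h1.1, h1.2.le⟩]
  have hs : Zf ν k (cp q) ∈ slitPlane := mem_slitPlane_iff_arg.2 ⟨e1 ▸ h1.2.ne, Zf_ne _⟩
  constructor
  · have c0 : DifferentiableAt ℝ (fun x : ℂ × ℝ => (x.2 : ℂ)) (Zf ν k (cp q), q.2.2) :=
      ofRealCLM.differentiableAt.comp _ differentiableAt_snd
    have c1 : DifferentiableAt ℝ (fun x : ℂ × ℝ => ν x.2) (Zf ν k (cp q), q.2.2) :=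
      DifferentiableAt.comp (g := ν) (f := fun x : ℂ × ℝ => (x.2 : ℂ)) _
        (h.g.aν.differentiableAt.restrictScalars ℝ) c0
    have c2 : DifferentiableAt ℝ (fun x : ℂ × ℝ => k x.2) (Zf ν k (cp q), q.2.2) :=
      DifferentiableAt.comp (g := k) (f := fun x : ℂ × ℝ => (x.2 : ℂ)) _
        (h.g.ak.differentiableAt.restrictScalars ℝ) c0
    have c3 : DifferentiableAt ℝ (fun x : ℂ × ℝ => x.1 * conj x.1) (Zf ν k (cp q), q.2.2) :=
      differentiableAt_fst.mul (conjCLE.differentiableAt.comp _ differentiableAt_fst)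
    have c4 : DifferentiableAt ℝ (fun x : ℂ × ℝ => log x.1) (Zf ν k (cp q), q.2.2) :=
      DifferentiableAt.comp (g := log) (f := fun x : ℂ × ℝ => x.1) _
        ((analyticAt_clog hs).differentiableAt.restrictScalars ℝ) differentiableAt_fst
    exact (imCLM.differentiableAt.comp _ c4).prodMk (reCLM.differentiableAt.comp _
      (c1.mul (c3.sub (((differentiableAt_const 2).mul c2).mul (c3.pow 2)))))
  · have hJ : (q.2.1 : ℂ) ≠ 0 := fun h0 => by
      have := h.g.hJ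
      change 0 < (q.2.1 : ℂ).re at this
      simp [h0] at this
    have e2 := h.g.idn.self_of_nhds
    have e3 := csqrt_sq hJ
    rw [inv, log_im, e1, ← h.W_eq, ZW]
    congr 1
    rw [← ofReal_re q.2.1]
    congr 1
    change ν q.2.2 * (rho ν k (q.2.1, q.2.2) ^ 2 -
      2 * k q.2.2 * q.2.1 * rho ν k (q.2.1, q.2.2) ^ 4) = 1 at e2
    change ν q.2.2 * ((csqrt q.2.1 * rho ν k (q.2.1, q.2.2)) ^ 2 -
      2 * k q.2.2 * ((csqrt q.2.1 * rho ν k (q.2.1, q.2.2)) ^ 2) ^ 2) = _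
    rw [mul_pow, e3]
    linear_combination (q.2.1 : ℂ) * e2

theorem contDiff_cp : ContDiff ℝ 1 cp :=
  (ofRealCLM.contDiff.comp contDiff_fst).prodMk
    ((ofRealCLM.contDiff.comp (contDiff_fst.comp contDiff_snd)).prodMk
      (ofRealCLM.contDiff.comp (contDiff_snd.comp contDiff_snd)))

theorem GoodR.smooth (h : GoodR F G α ν k q) : ContDiffAt ℝ 1 (fun x => Zf ν k (cp x)) q :=
  (h.g.an_Z.contDiffAt.restrict_scalars ℝ).comp q contDiff_cp.contDiffAt

end Pool.Agent.MP_62f0b1_an.AE.G3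

end
end MrgPart0

-- ======== part 1: formerly Pool.Agent.MP_62f0b1_an.ae.G3
section MrgPart1

/-!
Polar coordinates: estimates and assembly.
-/

set_option autoImplicit false

noncomputable section

namespace Pool.Agent.MP_62f0b1_an.AE

open Complex Filter Topology Set Asymptotics
open scoped ComplexConjugate

namespace G3

/-- Points of the complex domain with small action and parameter near `e0`. -/
def FF (e0 : ℝ) : Filter C3 :=
  comap Prod.snd (𝓝 ((0 : ℂ), (e0 : ℂ))) ⊓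
    𝓟 {p | |p.1.im| < 1 ∧ |p.2.1.im| < p.2.1.re ∧ p.2.2.im = 0}

def σ (p : C3) : ℝ := √‖p.2.1‖

variable {F G : C3 → ℂ} {α ν k : ℂ → ℂ} {e0 : ℝ}

theorem of_FF {Q : C3 → Prop} (h : ∀ᶠ p in FF e0, Q p) :
    ∃ η > 0, ∀ ε ≤ η, ∀ p ∈ domC e0 ε ε, Q p := by
  rw [FF, eventually_inf_principal, eventually_comap, Metric.eventually_nhds_iff] at h
  obtain ⟨η, h0, h⟩ := h
  refine ⟨η / 2, by positivity, fun ε hε p hp => ?_⟩
  obtain ⟨a1, a2, a3, a4, a5⟩ := hp
  refine h (y := p.2) ?_ p rfl ⟨a1, a2, a4⟩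
  rw [Prod.dist_eq, max_lt_iff, dist_zero_right, dist_eq_norm]
  have b1 := norm_le_abs_re_add_abs_im p.2.1
  have b2 := norm_le_abs_re_add_abs_im (p.2.2 - e0)
  rw [abs_of_pos (lt_of_le_of_lt (abs_nonneg _) a2)] at b1
  rw [sub_re, sub_im, ofReal_re, ofReal_im, a4, sub_zero, abs_zero] at b2
  constructor <;> linarith

theorem t2 : Tendsto Prod.snd (FF e0) (𝓝 ((0 : ℂ), (e0 : ℂ))) := tendsto_comap.mono_left inf_le_left

theorem tJ : Tendsto (fun p : C3 => p.2.1) (FF e0) (𝓝 0) := (continuous_fst.tendsto _).comp t2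

theorem te : Tendsto (fun p : C3 => p.2.2) (FF e0) (𝓝 e0) := (continuous_snd.tendsto _).comp t2

theorem ter : Tendsto (fun p : C3 => p.2.2.re) (FF e0) (𝓝 e0) :=
  (continuous_re.tendsto (e0 : ℂ)).comp te

theorem evS : ∀ᶠ p in FF e0, |p.1.im| < 1 ∧ |p.2.1.im| < p.2.1.re ∧ p.2.2.im = 0 :=
  mem_inf_of_right (mem_principal_self _)

theorem evJ : ∀ᶠ p in FF e0, 0 < p.2.1.re :=
  evS.mono fun _ h => lt_of_le_of_lt (abs_nonneg _) h.2.1

theorem evJ' : ∀ᶠ p in FF e0, p.2.1 ≠ 0 := evJ.mono fun _ h h0 => by simp [h0] at h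

theorem tσ : Tendsto σ (FF e0) (𝓝 0) := by
  have := (tJ (e0 := e0)).norm.sqrt
  rwa [norm_zero, Real.sqrt_zero] at this

theorem σ_le {m n : ℕ} (h : m ≤ n) : (fun p => σ p ^ n) =O[FF e0] fun p => σ p ^ m := by
  refine IsBigO.of_bound' ?_
  filter_upwards [tσ.eventually (eventually_le_nhds one_pos)] with p hp
  have h0 : 0 ≤ σ p := Real.sqrt_nonneg _
  rw [Real.norm_of_nonneg (by positivity), Real.norm_of_nonneg (by positivity)]
  exact pow_le_pow_of_le_one h0 hp h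

theorem to0 {f : C3 → ℂ} {n : ℕ} (h : f =O[FF e0] fun p => σ p ^ (n + 1)) :
    Tendsto f (FF e0) (𝓝 0) :=
  h.trans_tendsto (by simpa using (tσ (e0 := e0)).pow (n + 1))

theorem bdd {f : C3 → ℂ} {c : ℂ} (h : Tendsto f (FF e0) (𝓝 c)) :
    f =O[FF e0] fun p => σ p ^ 0 := by
  simpa using h.isBigO_one ℝ

theorem omul {f g : C3 → ℂ} {m n : ℕ} (h : f =O[FF e0] fun p => σ p ^ m)
    (h' : g =O[FF e0] fun p => σ p ^ n) :
    (fun p => f p * g p) =O[FF e0] fun p => σ p ^ (m + n) := by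
  simpa only [pow_add] using h.mul h'

theorem norm_csqrt {x : ℂ} (h : x ≠ 0) : ‖csqrt x‖ = √‖x‖ := by
  conv_rhs => rw [← csqrt_sq h, norm_pow, Real.sqrt_sq (norm_nonneg _)]

theorem o_s : (fun p : C3 => csqrt p.2.1) =O[FF e0] fun p => σ p ^ 1 :=
  IsBigO.of_bound' (evJ'.mono fun p h => by
    rw [norm_csqrt h, pow_one, σ, Real.norm_of_nonneg (Real.sqrt_nonneg _)])

theorem o_J : (fun p : C3 => p.2.1) =O[FF e0] fun p => σ p ^ 2 :=
  IsBigO.of_bound' (Eventually.of_forall fun p => by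
    rw [σ, Real.sq_sqrt (norm_nonneg _), norm_norm])

theorem o_e1 : (fun p : C3 => exp (p.1 * I)) =O[FF e0] fun p => σ p ^ 0 :=
  IsBigO.of_bound (Real.exp 1) (evS.mono fun p h => by
    rw [norm_exp, pow_zero, norm_one, mul_one, mul_I_re]
    exact Real.exp_le_exp.2 (by linarith [(abs_lt.1 h.1).1]))

theorem o_e2 : (fun p : C3 => exp (-(p.1 * I))) =O[FF e0] fun p => σ p ^ 0 :=
  IsBigO.of_bound (Real.exp 1) (evS.mono fun p h => by
    rw [norm_exp, pow_zero, norm_one, mul_one, neg_re, mul_I_re]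
    exact Real.exp_le_exp.2 (by linarith [(abs_lt.1 h.1).2]))

theorem odiv {f : C3 → ℂ} {n : ℕ} (h : f =O[FF e0] fun p => σ p ^ (n + 1)) :
    (fun p => f p / csqrt p.2.1) =O[FF e0] fun p => σ p ^ n := by
  obtain ⟨C, hC⟩ := h.bound
  refine IsBigO.of_bound C ?_
  filter_upwards [hC, evJ'] with p h1 h2
  have h0 : 0 < σ p := Real.sqrt_pos.2 (norm_pos_iff.2 h2)
  rw [norm_div, norm_csqrt h2, ← σ, div_le_iff₀ h0]
  rw [Real.norm_of_nonneg (by positivity)] at h1 ⊢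
  rw [pow_succ, ← mul_assoc] at h1
  exact h1

theorem tc {f : ℂ → ℂ} (h : AnalyticAt ℂ f e0) :
    Tendsto (fun p : C3 => f p.2.2) (FF e0) (𝓝 (f e0)) := h.continuousAt.tendsto.comp te

section

variable (h : NF F G e0 α ν k)
include h

theorem ν_ne : ν e0 ≠ 0 := fun h0 => by simpa [h0] using h.ν_pos

theorem an_arg : AnalyticAt ℂ (fun q : ℂ × ℂ => 1 - 8 * k q.2 * q.1 / ν q.2) (0, (e0 : ℂ)) :=
  analyticAt_const.sub (((analyticAt_const.mul
    (h.an_k.comp (f := Prod.snd) analyticAt_snd)).mul analyticAt_fst).div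
      (h.an_ν.comp (f := Prod.snd) analyticAt_snd) (ν_ne h))

omit h in
theorem sg0 (e : ℂ) : sg ν k (0, e) = 1 := by simp [sg, csqrt]

theorem an_sg : AnalyticAt ℂ (sg ν k) (0, (e0 : ℂ)) :=
  AnalyticAt.comp (g := csqrt) (analyticAt_csqrt (by simp)) (an_arg h)

theorem an_rho : AnalyticAt ℂ (rho ν k) (0, (e0 : ℂ)) := by
  have h1 : ν e0 * (1 + sg ν k (0, e0)) ≠ 0 := by
    rw [sg0]
    exact mul_ne_zero (ν_ne h) (by norm_num)
  refine AnalyticAt.comp (g := csqrt) (analyticAt_csqrt (Or.inl ?_)) (analyticAt_const.div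
    ((h.an_ν.comp (f := Prod.snd) analyticAt_snd).mul (analyticAt_const.add (an_sg h))) h1)
  have h2 : 2 / (ν e0 * (1 + sg ν k (0, e0))) = (ν e0)⁻¹ := by
    have := ν_ne h
    rw [sg0]
    field_simp
    norm_num
  change 0 < (2 / (ν e0 * (1 + sg ν k (0, e0)))).re
  rw [h2, inv_re]
  exact div_pos h.ν_pos (normSq_pos.2 (ν_ne h))

theorem ev_id : ∀ᶠ q in 𝓝 ((0 : ℂ), (e0 : ℂ)),
    ν q.2 * (rho ν k q ^ 2 - 2 * k q.2 * q.1 * rho ν k q ^ 4) = 1 := by
  have a1 := (h.an_ν.comp (f := Prod.snd) (x := ((0 : ℂ), (e0 : ℂ)))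
    analyticAt_snd).continuousAt.eventually_ne (ν_ne h)
  have a2 := (an_arg h).continuousAt.eventually_ne (y := 0) (by simp)
  have a3 := ((analyticAt_const (v := (1 : ℂ))).add (an_sg h)).continuousAt.eventually_ne (y := 0)
    (by rw [Pi.add_apply, sg0]; norm_num)
  filter_upwards [a1, a2, a3] with q b1 b2 b3 using ident b1 b2 b3

theorem tρ : Tendsto (fun p : C3 => rho ν k p.2) (FF e0) (𝓝 (rho ν k (0, e0))) :=
  (an_rho h).continuousAt.tendsto.comp t2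

theorem o_am : (fun p : C3 => am ν k p.2) =O[FF e0] fun p => σ p ^ 1 := omul o_s (bdd (tρ h))

theorem o_Z : Zf ν k =O[FF e0] fun p => σ p ^ 1 := omul (o_am h) o_e1

theorem o_W : Wf ν k =O[FF e0] fun p => σ p ^ 1 := omul (o_am h) o_e2

theorem tP : Tendsto (Pf ν k) (FF e0) (𝓝 (base e0)) :=
  (to0 (o_Z h)).prodMk_nhds ((to0 (o_W h)).prodMk_nhds te)

theorem o_E : (fun p => u1 F α ν k p - 1 - I * ν p.2.2 * (Zf ν k p * Wf ν k p)) =O[FF e0]
      (fun p => σ p ^ 3) ∧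
    (fun p => u2 G α ν k p - 1 + I * ν p.2.2 * (Zf ν k p * Wf ν k p)) =O[FF e0]
      fun p => σ p ^ 3 := by
  obtain ⟨C, hC⟩ := h.bound
  have a0 : (fun p => ‖(Zf ν k p, Wf ν k p)‖ ^ 4) =O[FF e0] fun p => σ p ^ 4 := by
    simpa only [pow_one] using ((o_Z h).prod_left (o_W h)).norm_left.pow 4
  have a1 := ((tP h).eventually hC).mono fun p hp => hp.1
  have a2 := ((tP h).eventually hC).mono fun p hp => hp.2
  have b1 := (IsBigO.of_bound C (a1.mono fun p hp => hp.trans_eq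
    (by rw [Real.norm_of_nonneg (by positivity)]; rfl))).trans a0
  have b2 := (IsBigO.of_bound C (a2.mono fun p hp => hp.trans_eq
    (by rw [Real.norm_of_nonneg (by positivity)]; rfl))).trans a0
  have c0 := bdd ((tρ h).inv₀ (csqrt_ne_zero _))
  have c1 := bdd (((tc h.an_α).const_mul I).cexp)
  have c2 := bdd (((tc h.an_α).const_mul I).neg.cexp)
  constructor
  · refine (omul (omul (omul (odiv b1) c0) o_e2) c2).congr_left fun p => ?_
    have n1 := csqrt_ne_zero p.2.1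
    have n2 : rho ν k p.2 ≠ 0 := csqrt_ne_zero _
    have n3 := exp_ne_zero (p.1 * I)
    have n4 := exp_ne_zero (I * α p.2.2)
    simp only [u1, Pf, Zf, am, exp_neg]
    field_simp
    ring
  · refine (omul (omul (omul (odiv b2) c0) o_e1) c1).congr_left fun p => ?_
    have n1 := csqrt_ne_zero p.2.1
    have n2 : rho ν k p.2 ≠ 0 := csqrt_ne_zero _
    have n3 := exp_ne_zero (p.1 * I)
    have n4 := exp_ne_zero (I * α p.2.2)
    simp only [u2, Pf, Wf, am, exp_neg]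
    field_simp
    ring

theorem o_N : (fun p => I * ν p.2.2 * (Zf ν k p * Wf ν k p)) =O[FF e0] fun p => σ p ^ 2 :=
  omul (bdd ((tc h.an_ν).const_mul I)) (omul (o_Z h) (o_W h))

theorem o_u : (fun p => u1 F α ν k p - 1) =O[FF e0] (fun p => σ p ^ 2) ∧
    (fun p => u2 G α ν k p - 1) =O[FF e0] fun p => σ p ^ 2 :=
  ⟨(((o_E h).1.trans (σ_le (by norm_num))).add (o_N h)).congr_left fun p => by ring,
    (((o_E h).2.trans (σ_le (by norm_num))).sub (o_N h)).congr_left fun p => by ring⟩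

theorem o_FG : (fun p => F (Pf ν k p) * G (Pf ν k p) - Zf ν k p * Wf ν k p) =O[FF e0]
    fun p => σ p ^ 5 := by
  have a := ((o_E h).1.add (o_E h).2).add
    ((omul (o_u h).1 (o_u h).2).trans (σ_le (by norm_num)))
  refine (omul (omul (o_Z h) (o_W h)) a).congr_left fun p => ?_
  have : exp (I * α p.2.2) * exp (-(I * α p.2.2)) = 1 := by
    rw [← exp_add, add_neg_cancel, exp_zero]
  rw [F_eq (F := F) (α := α), G_eq (G := G) (α := α)]
  linear_combination (-(Zf ν k p * Wf ν k p * u1 F α ν k p * u2 G α ν k p)) * this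

theorem tFG : Tendsto (fun p => F (Pf ν k p) * G (Pf ν k p)) (FF e0) (𝓝 0) := by
  simpa using (to0 (o_FG h)).add (to0 (omul (o_Z h) (o_W h)))

theorem ev_J : ∀ᶠ p in FF e0, ν p.2.2 * (Zf ν k p * Wf ν k p -
    2 * k p.2.2 * (Zf ν k p * Wf ν k p) ^ 2) = p.2.1 := by
  filter_upwards [t2.eventually (ev_id h), evJ'] with p h1 h2
  rw [ZW, am, mul_pow, csqrt_sq h2]
  linear_combination p.2.1 * h1

theorem est_J : (fun p => Jf F G ν k p - p.2.1) =O[FF e0] fun p => σ p ^ 5 := by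
  have a := bdd (((((tc h.an_k).const_mul 2).mul
    ((tFG h).add (to0 (omul (o_Z h) (o_W h))))).const_sub 1).mul (tc h.an_ν))
  refine (omul a (o_FG h)).congr' ?_ EventuallyEq.rfl
  filter_upwards [ev_J h] with p hp
  rw [Jf]
  linear_combination -hp

theorem est_T : (fun p => Th F G α ν k p - p.1 - α p.2.2 - p.2.1) =O[FF e0] fun p => σ p ^ 3 := by
  have l1 := (log_sub_self_isBigO.comp_tendsto (to0 (o_u h).1)).trans ((o_u h).1.pow 2)
  have l2 := (log_sub_self_isBigO.comp_tendsto (to0 (o_u h).2)).trans ((o_u h).2.pow 2)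
  have e : (fun p => (σ p ^ 2) ^ 2) =O[FF e0] fun p => σ p ^ 3 :=
    (σ_le (m := 3) (n := 4) (by norm_num)).congr_left fun p => by ring
  have a := (((l1.trans e).sub (l2.trans e)).add ((o_E h).1.sub (o_E h).2)).const_mul_left
    (2 * I)⁻¹
  have zw := omul (o_Z h) (o_W h)
  have b := (omul (bdd (((tc h.an_k).const_mul 2).mul (tc h.an_ν))) (omul zw zw)).trans
    (σ_le (m := 3) (by norm_num))
  refine (a.add b).congr' ?_ EventuallyEq.rfl
  filter_upwards [ev_J h] with p hp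
  have := I_ne_zero
  simp only [Function.comp, add_sub_cancel, Th]
  rw [← hp]
  field_simp
  ring

theorem ev_good : ∀ᶠ p in FF e0, Good F G α ν k p := by
  have s1 := (to0 (o_u h).1).eventually (Metric.ball_mem_nhds 0 one_pos)
  have s2 := (to0 (o_u h).2).eventually (Metric.ball_mem_nhds 0 one_pos)
  filter_upwards [evJ, (tP h).eventually h.an_F.eventually_analyticAt,
    (tP h).eventually h.an_G.eventually_analyticAt, te.eventually h.an_α.eventually_analyticAt,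
    te.eventually h.an_ν.eventually_analyticAt, te.eventually h.an_k.eventually_analyticAt,
    t2.eventually (an_rho h).eventually_analyticAt, s1, s2,
    t2.eventually (ev_id h).eventually_nhds, (tP h).eventually h.det]
    with p a1 a2 a3 a4 a5 a6 a7 a8 a9 a10 a11
  refine ⟨a1, a2, a3, a4, a5, a6, a7, ?_, ?_, a10, a11⟩
  · simpa using mem_slitPlane_of_norm_lt_one (mem_ball_zero_iff.1 a8)
  · simpa using mem_slitPlane_of_norm_lt_one (mem_ball_zero_iff.1 a9)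

theorem ev_real : ∀ᶠ p in FF e0, ∀ q, p = cp q → GoodR F G α ν k q := by
  have a1 := (continuous_re.tendsto _).comp (tc h.an_ν)
  have a2 := (continuous_re.tendsto _).comp ((an_arg h).continuousAt.tendsto.comp t2)
  have a3 := (continuous_re.tendsto _).comp
    ((((tc h.an_k).const_mul 4).mul (tFG h)).const_sub 1)
  filter_upwards [ev_good h, ter.eventually h.real_co, a1.eventually (lt_mem_nhds h.ν_pos),
    a2.eventually (lt_mem_nhds (a := 0) (by simp)), a3.eventually (lt_mem_nhds (a := 0) (by simp)),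
    ((to0 (o_Z h)).prodMk_nhds ter).eventually h.real] with p b1 b2 b3 b4 b5 b6
  rintro q rfl
  exact ⟨b1, b2.1, b2.2.1, b2.2.2, b3, b4, b6, b5⟩

omit h in
theorem rho0 {e : ℝ} (h1 : (ν e).im = 0) (h2 : (k e).im = 0) (h3 : 0 < (ν e).re) :
    (rho ν k (0, e)).im = 0 ∧ 0 < (rho ν k (0, e)).re := by
  have := rho_real (J := 0) (eq_re h1) (eq_re h2) h3 (by simp)
  rw [ofReal_zero] at this
  rw [this, ofReal_im, ofReal_re]
  exact ⟨rfl, by positivity⟩

theorem asym : ∃ C ρ0 ρ1 : ℝ, 0 < ρ0 ∧ ∀ᶠ p in FF e0, ρ0 ≤ (rho ν k (0, p.2.2)).re ∧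
    (rho ν k (0, p.2.2)).re ≤ ρ1 ∧ ‖rho ν k p.2 - rho ν k (0, p.2.2)‖ ≤ C * σ p := by
  have t0 : Tendsto (fun p : C3 => ((0 : ℂ), p.2.2)) (FF e0) (𝓝 (0, e0)) :=
    tendsto_const_nhds.prodMk_nhds te
  have a1 := (continuous_re.tendsto _).comp ((an_rho h).continuousAt.tendsto.comp t0)
  have a2 := h.real_co.self_of_nhds
  have a3 := (rho0 a2.2.1 a2.2.2 h.ν_pos).2
  have a4 := (an_rho h).hasStrictFDerivAt.isBigO_sub.comp_tendsto (t2.prodMk_nhds t0)
  have a5 : (fun p : C3 => p.2 - ((0 : ℂ), p.2.2)) =O[FF e0] fun p => σ p ^ 1 := by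
    refine IsBigO.trans (IsBigO.of_bound' (Eventually.of_forall fun p => ?_))
      (o_J.trans (σ_le (by norm_num)))
    simp [Prod.norm_def]
  obtain ⟨C, hC⟩ := (a4.trans a5).bound
  refine ⟨C, (rho ν k (0, e0)).re / 2, 2 * (rho ν k (0, e0)).re, by positivity, ?_⟩
  filter_upwards [hC, a1.eventually (le_mem_nhds (half_lt_self a3)),
    a1.eventually (ge_mem_nhds (lt_two_mul_self a3))] with p b1 b2 b3
  refine ⟨b2, b3, b1.trans_eq ?_⟩
  rw [pow_one, σ, Real.norm_of_nonneg (Real.sqrt_nonneg _)]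

theorem alphaOK : ∃ η > 0, ∀ ε ≤ η, AlphaOK (fun e : ℝ => (α e).re) e0 ε := by
  have t0 : Tendsto (fun e : ℝ => (e : ℂ)) (𝓝 e0) (𝓝 e0) := continuous_ofReal.tendsto _
  have a1 := ((continuous_re.tendsto _).comp (h.an_α.deriv.continuousAt.tendsto.comp t0)).eventually
    (le_mem_nhds (half_lt_self h.α_pos))
  obtain ⟨η, h0, a⟩ := Metric.eventually_nhds_iff.1
    (a1.and (t0.eventually h.an_α.eventually_analyticAt))
  refine ⟨η, h0, fun ε hε => ?_⟩
  have b : ∀ e ∈ Ioo (e0 - ε) (e0 + ε), (deriv α e0).re / 2 ≤ (deriv α e).re ∧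
      HasDerivAt (fun x : ℝ => (α x).re) (deriv α e).re e := fun e he => by
    have := a (y := e) (by rw [Real.dist_eq, abs_lt]; constructor <;> linarith [he.1, he.2])
    exact ⟨this.1, this.2.differentiableAt.hasDerivAt.real_of_complex⟩
  have c : ContinuousOn (fun e : ℝ => (α e).re) (Ioo (e0 - ε) (e0 + ε)) := fun e he =>
    (b e he).2.continuousAt.continuousWithinAt
  refine ⟨c, (deriv α e0).re / 2, half_pos h.α_pos,
    (convex_Ioo _ _).mul_sub_le_image_sub_of_le_deriv c (fun e he => ?_) fun e he => ?_⟩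
  · exact (b e (interior_subset he)).2.differentiableAt.differentiableWithinAt
  · rw [(b e (interior_subset he)).2.deriv]
    exact (b e (interior_subset he)).1

end

theorem cp_mem {q : R3} {ε r : ℝ} (h : q ∈ domR e0 ε r) : cp q ∈ domC e0 ε r := by
  simpa [cp, domC, domR] using h

end G3

open G3 in
theorem g3 : G3Stmt := by
  intro F G e0 α ν k h N hN
  obtain ⟨C1, c1⟩ := (est_T h).bound
  obtain ⟨C2, c2⟩ := (est_J h).bound
  obtain ⟨C, ρ0, ρ1, r0, c3⟩ := asym h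
  obtain ⟨η1, p1, H⟩ := of_FF ((ev_good h).and ((ev_real h).and (c1.and (c2.and (c3.and
    (((tP h).eventually hN).and (ter.eventually h.real_co)))))))
  obtain ⟨η2, p2, H2⟩ := alphaOK h
  have cb : Continuous base := by unfold base; fun_prop
  obtain ⟨η3, p3, H3⟩ := Metric.eventually_nhds_iff.1 ((cb.tendsto e0).eventually hN)
  have p0 : 0 < min η1 (min η2 η3) := by positivity
  have m1 := min_le_left η1 (min η2 η3)
  have m2 := (min_le_right η1 _).trans (min_le_left η2 η3)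
  have m3 := (min_le_right η1 _).trans (min_le_right η2 η3)
  generalize min η1 (min η2 η3) = ε at p0 m1 m2 m3
  replace H := H ε m1
  have HR : ∀ q ∈ domR e0 ε ε, GoodR F G α ν k q := fun q hq => (H _ (cp_mem hq)).2.1 q rfl
  refine ⟨Th F G α ν k, Jf F G ν k, fun q => Zf ν k (cp q), ε, ε,
    ⟨p0, p0, fun p hp => (H p hp).1.an, per, fun q hq => ?_, fun p hp => (H p hp).1.jac,
      fun δ hδ => ?_, H2 ε m2⟩,
    ⟨fun q hq => (HR q hq).smooth.contDiffWithinAt, fun q => ?_, fun q hq => (HR q hq).link,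
      ⟨C, ρ0, ρ1, fun e => (rho ν k (0, e)).re, r0, fun q hq => ?_⟩,
      ⟨inv ν k, fun q hq => (HR q hq).inv_spec⟩, fun q hq => ?_, fun e he => H3 ?_⟩⟩
  · rw [(HR q hq).Th_eq, (HR q hq).J_eq]
    exact ⟨ofReal_im _, ofReal_im _⟩
  · have k0 : 0 < |C1| + |C2| + 1 := by positivity
    refine ⟨(δ / (|C1| + |C2| + 1)) ^ 2, by positivity, fun p hp hr => ?_⟩
    obtain ⟨-, -, a1, a2, -, -, a3⟩ := H p hp
    have s0 : 0 ≤ σ p := Real.sqrt_nonneg _
    have s1 : σ p ^ 2 = ‖p.2.1‖ := Real.sq_sqrt (norm_nonneg _)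
    have s2 : σ p * (|C1| + |C2| + 1) < δ := by
      rw [← lt_div_iff₀ k0]
      exact (Real.sqrt_lt' (by positivity)).2 hr
    have s3 : C1 * σ p ≤ δ := by nlinarith [le_abs_self C1, abs_nonneg C2]
    have s4 : C2 * σ p ≤ δ := by nlinarith [le_abs_self C2, abs_nonneg C1]
    have e1 : ((p.2.2.re : ℝ) : ℂ) = p.2.2 := (eq_re hp.2.2.2.1).symm
    rw [Real.norm_of_nonneg (by positivity)] at a1 a2
    rw [← eq_re a3.1, e1, ← s1]
    constructor
    · calc _ ≤ C1 * σ p ^ 3 := a1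
        _ = C1 * σ p * σ p ^ 2 := by ring
        _ ≤ _ := by gcongr
    · calc _ ≤ C2 * σ p ^ 5 := a2
        _ = C2 * σ p * (σ p ^ 2) ^ 2 := by ring
        _ ≤ _ := by gcongr
  · have := congrArg Prod.fst (Pf_per (ν := ν) (k := k) (cp q))
    simpa [Pf, cp] using this
  · obtain ⟨-, -, -, -, ⟨a1, a2, a3⟩, -⟩ := H _ (cp_mem hq)
    have g := HR q hq
    have b := (rho0 g.hν g.hk g.ν0).1
    refine ⟨a1, a2, ?_⟩
    have s0 : σ (cp q) = √q.2.1 := by
      rw [σ]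
      simp [cp, abs_of_pos hq.1]
    have e : Zf ν k (cp q) - (((rho ν k (0, q.2.2)).re * √q.2.1 : ℝ) : ℂ) * exp ((q.1 : ℂ) * I) =
        ((√q.2.1 : ℝ) : ℂ) * (rho ν k (cp q).2 - rho ν k (0, (cp q).2.2)) *
          exp ((q.1 : ℂ) * I) := by
      rw [ofReal_mul, ← eq_re b, ← csqrt_ofReal hq.1]
      simp only [Zf, am, cp]
      ring
    rw [e, norm_mul, norm_mul, norm_exp_ofReal_mul_I, mul_one, norm_real,
      Real.norm_of_nonneg (Real.sqrt_nonneg _)]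
    calc _ ≤ √q.2.1 * (C * √q.2.1) := by rw [← s0]; gcongr; exact Real.sqrt_nonneg _
      _ = C * (√q.2.1 * √q.2.1) := by ring
      _ = _ := by rw [Real.mul_self_sqrt hq.1.le]
  · rw [← (HR q hq).P_eq]
    exact (H _ (cp_mem hq)).2.2.2.2.2.1
  · rw [Real.dist_eq]
    exact he.trans_le m3

end Pool.Agent.MP_62f0b1_an.AE

end
end MrgPart1

-- ======== part 2: formerly Pool.Agent.MP_62f0b1_an.ae.G5
section MrgPart2

/-!
Third order jets along a line of isosceles triangles; positivity of the twist.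
-/

noncomputable section

namespace Pool.Agent.MP_62f0b1_an.AE

open Complex Filter Topology Set Asymptotics
open scoped ComplexConjugate

namespace G5

theorem step {α : Type} {F : Filter α} [F.NeBot] {σ ψ : α → ℂ} (h0 : Tendsto σ F (𝓝 0))
    (hn : ∀ᶠ x in F, σ x ≠ 0) {u v : ℂ} {n : ℕ} (hψ : Tendsto ψ F (𝓝 v))
    (h : (fun x => u + σ x * ψ x) =O[F] fun x => σ x ^ (n + 1)) :
    u = 0 ∧ ψ =O[F] fun x => σ x ^ n := by
  have h1 : Tendsto (fun x => u + σ x * ψ x) F (𝓝 u) := by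
    simpa using (h0.mul hψ).const_add u
  have h2 : Tendsto (fun x => u + σ x * ψ x) F (𝓝 0) :=
    h.trans_tendsto (by simpa using h0.pow (n + 1))
  have hu := tendsto_nhds_unique h1 h2
  refine ⟨hu, ((isBigO_refl (fun x => (σ x)⁻¹) F).mul h).congr' ?_ ?_⟩
  · filter_upwards [hn] with x hx
    rw [hu, zero_add, inv_mul_cancel_left₀ hx]
  · filter_upwards [hn] with x hx
    rw [pow_succ', inv_mul_cancel_left₀ hx]

theorem uniq {α : Type} {F : Filter α} [F.NeBot] {σ : α → ℂ} (h0 : Tendsto σ F (𝓝 0))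
    (hn : ∀ᶠ x in F, σ x ≠ 0) {u0 u1 u2 u3 : ℂ}
    (h : (fun x => u0 + u1 * σ x + u2 * σ x ^ 2 + u3 * σ x ^ 3) =O[F] fun x => σ x ^ 4) :
    u0 = 0 ∧ u1 = 0 ∧ u2 = 0 ∧ u3 = 0 := by
  have t3 : Tendsto (fun x => u3 + σ x * 0) F (𝓝 (u3 + 0 * 0)) := (h0.mul_const 0).const_add _
  have t2 := (h0.mul t3).const_add u2
  have t1 := (h0.mul t2).const_add u1
  obtain ⟨a0, b0⟩ := step h0 hn (u := u0) (n := 3) t1 (h.congr_left fun x => by ring)
  obtain ⟨a1, b1⟩ := step h0 hn t2 b0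
  obtain ⟨a2, b2⟩ := step h0 hn t3 b1
  obtain ⟨a3, -⟩ := step h0 hn tendsto_const_nhds b2
  exact ⟨a0, a1, a2, a3⟩

/-- Third order jet at the origin. -/
def Jet (φ : ℂ → ℂ) (c0 c1 c2 c3 : ℂ) : Prop :=
  (fun s => φ s - (c0 + c1 * s + c2 * s ^ 2 + c3 * s ^ 3)) =O[𝓝 0] fun s : ℂ => s ^ 4

section
variable {φ ψ ρ : ℂ → ℂ} {c0 c1 c2 c3 e0 e1 e2 e3 : ℂ}

theorem bdd (h : ContinuousAt φ 0) : φ =O[𝓝 0] fun _ => (1 : ℂ) := h.tendsto.isBigO_one ℂ

theorem big (h : ContinuousAt φ 0) : (fun s => s ^ 4 * φ s) =O[𝓝 0] fun s : ℂ => s ^ 4 := by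
  simpa using (isBigO_refl (fun s : ℂ => s ^ 4) _).mul (bdd h)

theorem Jet.of_eq (hρ : ContinuousAt ρ 0)
    (h : ∀ᶠ s in 𝓝 0, φ s = c0 + c1 * s + c2 * s ^ 2 + c3 * s ^ 3 + s ^ 4 * ρ s) :
    Jet φ c0 c1 c2 c3 :=
  (big hρ).congr' (h.mono fun s hs => by simp only [hs]; ring) EventuallyEq.rfl

theorem Jet.const (c : ℂ) : Jet (fun _ => c) c 0 0 0 :=
  Jet.of_eq (ρ := fun _ => 0) continuousAt_const (Eventually.of_forall fun s => by ring)

theorem Jet.lin (c d : ℂ) : Jet (fun s => c + d * s) c d 0 0 :=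
  Jet.of_eq (ρ := fun _ => 0) continuousAt_const (Eventually.of_forall fun s => by ring)

theorem Jet.add (h : Jet φ c0 c1 c2 c3) (h' : Jet ψ e0 e1 e2 e3) :
    Jet (fun s => φ s + ψ s) (c0 + e0) (c1 + e1) (c2 + e2) (c3 + e3) :=
  (IsBigO.add h h').congr_left fun s => by ring

theorem Jet.sub (h : Jet φ c0 c1 c2 c3) (h' : Jet ψ e0 e1 e2 e3) :
    Jet (fun s => φ s - ψ s) (c0 - e0) (c1 - e1) (c2 - e2) (c3 - e3) :=
  (IsBigO.sub h h').congr_left fun s => by ring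

theorem Jet.smul (h : Jet φ c0 c1 c2 c3) (c : ℂ) :
    Jet (fun s => c * φ s) (c * c0) (c * c1) (c * c2) (c * c3) :=
  (IsBigO.const_mul_left h c).congr_left fun s => by ring

theorem Jet.bdd (h : Jet φ c0 c1 c2 c3) : φ =O[𝓝 0] fun _ => (1 : ℂ) :=
  ((IsBigO.trans h (G5.bdd (by fun_prop))).add
    (G5.bdd (φ := fun s => c0 + c1 * s + c2 * s ^ 2 + c3 * s ^ 3) (by fun_prop))).congr_left
    fun s => by ring

theorem Jet.mul (h : Jet φ c0 c1 c2 c3) (h' : Jet ψ e0 e1 e2 e3) :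
    Jet (fun s => φ s * ψ s) (c0 * e0) (c0 * e1 + c1 * e0) (c0 * e2 + c1 * e1 + c2 * e0)
      (c0 * e3 + c1 * e2 + c2 * e1 + c3 * e0) := by
  have a1 := IsBigO.mul h h'.bdd
  have a2 := IsBigO.mul
    (G5.bdd (φ := fun s => c0 + c1 * s + c2 * s ^ 2 + c3 * s ^ 3) (by fun_prop)) h'
  have a3 := big (φ := fun s => c1 * e3 + c2 * e2 + c3 * e1 + (c2 * e3 + c3 * e2) * s +
    c3 * e3 * s ^ 2) (by fun_prop)
  simp only [mul_one, one_mul] at a1 a2
  exact ((a1.add a2).add a3).congr_left fun s => by ring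

theorem Jet.co (h : Jet φ c0 c1 c2 c3) (hφ : ∀ᶠ s in 𝓝 0, φ s = ψ s) (h0 : c0 = e0) (h1 : c1 = e1)
    (h2 : c2 = e2) (h3 : c3 = e3) : Jet ψ e0 e1 e2 e3 := by
  subst h0 h1 h2 h3
  exact IsBigO.congr' h (hφ.mono fun s hs => by simp only [hs]) EventuallyEq.rfl

theorem Jet.unique (h : Jet φ c0 c1 c2 c3) (h' : Jet ψ e0 e1 e2 e3)
    (hφ : ∀ᶠ s in 𝓝 0, φ s = ψ s) : c0 = e0 ∧ c1 = e1 ∧ c2 = e2 ∧ c3 = e3 := by
  have a := (IsBigO.sub h' (h.co hφ rfl rfl rfl rfl)).mono (nhdsWithin_le_nhds (s := {0}ᶜ))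
  have := uniq (F := 𝓝[≠] (0 : ℂ)) (σ := fun s => s) (u0 := c0 - e0) (u1 := c1 - e1) (u2 := c2 - e2) (u3 := c3 - e3)
    (tendsto_id.mono_left nhdsWithin_le_nhds) self_mem_nhdsWithin (a.congr_left fun s => by ring)
  simpa only [sub_eq_zero] using this

theorem Jet.exists (h : AnalyticAt ℂ φ 0) : ∃ c1 c2 c3, Jet φ (φ 0) c1 c2 c3 := by
  obtain ⟨F, hF, e⟩ := h.exists_eq_sum_add_pow_mul 4
  refine ⟨iteratedDeriv 1 φ 0, iteratedDeriv 2 φ 0 / 2, iteratedDeriv 3 φ 0 / 6,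
    Jet.of_eq hF.continuousAt (Eventually.of_forall fun s => ?_)⟩
  rw [e s]
  simp [Finset.sum_range_succ, Nat.factorial]
  ring

theorem Jet.comp {l : ℂ → ℂ} (hl : AnalyticAt ℂ l c0) (hφ : AnalyticAt ℂ φ 0) (h0 : φ 0 = c0)
    (h : Jet φ c0 0 c2 c3) :
    Jet (fun s => l (φ s)) (l c0) 0 (deriv l c0 * c2) (deriv l c0 * c3) := by
  have h1 : AnalyticAt ℂ (fun z => l (c0 + z)) 0 :=
    AnalyticAt.fun_comp_of_eq hl (by fun_prop) (by simp)
  obtain ⟨F, hF, e⟩ := h1.exists_eq_sum_add_pow_mul 2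
  have h2 : AnalyticAt ℂ (fun s => F (φ s - c0)) 0 :=
    AnalyticAt.fun_comp_of_eq hF (hφ.sub analyticAt_const) (by simp [h0])
  obtain ⟨f1, f2, f3, h3⟩ := Jet.exists h2
  have h4 := h.sub (Jet.const c0)
  refine (((Jet.const (l c0)).add (h4.smul (deriv l c0))).add ((h4.mul h4).mul h3)).co
    (Eventually.of_forall fun s => ?_) (by ring) (by ring) (by ring) (by ring)
  have := e (φ s - c0)
  simp [Finset.sum_range_succ, deriv_comp_const_add] at this
  rw [this]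
  ring
end

def R1 (e t : ℂ) : ℂ := 2 * e ^ 2 + 6 * e * t + 3 * t ^ 2 + (3 * e * t + 3 * t ^ 2) * om
def R2 (e t : ℂ) : ℂ := e ^ 2 + 6 * e * t + 6 * t ^ 2 + (3 * e * t + 6 * t ^ 2) * om
def R3 (e t : ℂ) : ℂ := 6 * e * t + 9 * t ^ 2 + (3 * e * t + 9 * t ^ 2) * om
def Q1 (e t : ℂ) : ℂ := 2 * e ^ 2 + 3 * e * t - (3 * e * t + 3 * t ^ 2) * om
def Q2 (e t : ℂ) : ℂ := e ^ 2 + 3 * e * t - (3 * e * t + 6 * t ^ 2) * om
def Q3 (e t : ℂ) : ℂ := 3 * e * t - (3 * e * t + 9 * t ^ 2) * om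

theorem rq (e t : ℂ) :
    R1 e t * Q1 e t = (e ^ 2 + 3 * t * e + 3 * t ^ 2) * (4 * e ^ 2 + 6 * t * e + 3 * t ^ 2) := by
  unfold R1 Q1
  linear_combination (-9 * e ^ 2 * t ^ 2 - 18 * e * t ^ 3 - 9 * t ^ 4) * om_rel

theorem sq_slit {k : ℂ} (h : 0 < k.re) : k ^ 2 ∈ slitPlane := by
  rw [mem_slitPlane_iff]
  by_cases h0 : k.im = 0
  · left; simp [sq, h0, h.ne']
  · right; simp only [sq, mul_im]
    rw [mul_comm k.im, ← two_mul]
    exact mul_ne_zero two_ne_zero (mul_ne_zero h.ne' h0)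

/-- The squared sides along the line. -/
theorem line {e t : ℂ} (he : e ≠ 0) : ∃ (a : ℂ → Fin 3 → ℂ) (σ x y : ℂ → ℂ),
    Tendsto a (𝓝 0) (𝓝 fun _ => e) ∧ AnalyticAt ℂ σ 0 ∧ AnalyticAt ℂ x 0 ∧ AnalyticAt ℂ y 0 ∧
    Jet σ (e ^ 2 + 3 * t * e + 3 * t ^ 2) 0 (2 * e ^ 2 - 3 * t ^ 2) (-6 * t ^ 2) ∧
    Jet x 0 (R1 e t) (R2 e t) (R3 e t) ∧ Jet y 0 (Q1 e t) (Q2 e t) (Q3 e t) ∧
    ∀ᶠ s in 𝓝 0, sig (Bf t (a s)) = σ s ∧ zet (Bf t (a s)) = x s ∧ zet' (Bf t (a s)) = y s ∧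
      sig (Df t (a s)) = σ s ∧ zet (Df t (a s)) = y s ∧ zet' (Df t (a s)) = x s := by
  let m : ℂ → ℂ := fun s => (1 + 2 * s) / (1 - s)
  let A : ℂ → ℂ := fun s => e + t + 2 * e * s
  let B : ℂ → ℂ := fun s => e + t + -e * s
  let b0 : ℂ → ℂ := fun s => A s * A s + t ^ 2 + t * (A s * m s)
  let b1 : ℂ → ℂ := fun s => B s * B s + t ^ 2 - t * (B s * (m s * m s - 2))
  let b2 : ℂ → ℂ := fun s => B s * B s + t ^ 2 + t * (B s * m s)
  have n1 : ∀ᶠ s in 𝓝 (0 : ℂ), 1 - s ≠ 0 :=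
    ContinuousAt.eventually_ne (by fun_prop) (by simp)
  have n2 : ∀ᶠ s in 𝓝 (0 : ℂ), 1 + 2 * s ≠ 0 :=
    ContinuousAt.eventually_ne (by fun_prop) (by simp)
  have am : AnalyticAt ℂ m 0 := AnalyticAt.div (by fun_prop) (by fun_prop) (by simp)
  have aA : AnalyticAt ℂ A 0 := by fun_prop
  have aB : AnalyticAt ℂ B 0 := by fun_prop
  have a0 : AnalyticAt ℂ b0 0 := by fun_prop
  have a1 : AnalyticAt ℂ b1 0 := by fun_prop
  have a2 : AnalyticAt ℂ b2 0 := by fun_prop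
  have jm : Jet m 1 3 3 3 := Jet.of_eq (ρ := fun s => 3 / (1 - s))
    (ContinuousAt.div (by fun_prop) (by fun_prop) (by simp))
    (n1.mono fun s hs => by simp only [m]; field_simp; ring)
  have jA : Jet A _ _ _ _ := Jet.lin (e + t) (2 * e)
  have jB : Jet B _ _ _ _ := Jet.lin (e + t) (-e)
  have j0 : Jet b0 _ _ _ _ := ((jA.mul jA).add (Jet.const (t ^ 2))).add ((jA.mul jm).smul t)
  have j1 : Jet b1 _ _ _ _ := ((jB.mul jB).add (Jet.const (t ^ 2))).sub
    ((jB.mul ((jm.mul jm).sub (Jet.const 2))).smul t)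
  have j2 : Jet b2 _ _ _ _ := ((jB.mul jB).add (Jet.const (t ^ 2))).add ((jB.mul jm).smul t)
  refine ⟨fun s => ![e * (1 + 2 * s), e * (1 - s), e * (1 - s)],
    fun s => 1 / 3 * (b0 s + b1 s + b2 s), fun s => 1 / 3 * (b0 s + om ^ 2 * b1 s + om * b2 s),
    fun s => 1 / 3 * (b0 s + om * b1 s + om ^ 2 * b2 s), ?_, by fun_prop, by fun_prop, by fun_prop,
    ?_, ?_, ?_, ?_⟩
  · have : Continuous fun s : ℂ => ![e * (1 + 2 * s), e * (1 - s), e * (1 - s)] := by fun_prop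
    convert this.tendsto 0 using 2
    funext i; fin_cases i <;> simp
  · exact (((j0.add j1).add j2).smul (1 / 3)).co (Eventually.of_forall fun _ => rfl)
      (by ring) (by ring) (by ring) (by ring)
  · refine (((j0.add (j1.smul _)).add (j2.smul _)).smul (1 / 3)).co
      (Eventually.of_forall fun _ => rfl) ?_ ?_ ?_ ?_
    · linear_combination ((1 / 3) * e ^ 2 + e * t + t ^ 2) * om_rel
    · unfold R1; linear_combination (-(2 / 3) * e ^ 2 - 3 * e * t - 2 * t ^ 2) * om_rel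
    · unfold R2; linear_combination ((1 / 3) * e ^ 2 - 3 * e * t - 5 * t ^ 2) * om_rel
    · unfold R3; linear_combination (-3 * e * t - 8 * t ^ 2) * om_rel
  · refine (((j0.add (j1.smul _)).add (j2.smul _)).smul (1 / 3)).co
      (Eventually.of_forall fun _ => rfl) ?_ ?_ ?_ ?_
    · linear_combination ((1 / 3) * e ^ 2 + e * t + t ^ 2) * om_rel
    · unfold Q1; linear_combination (-(2 / 3) * e ^ 2 + t ^ 2) * om_rel
    · unfold Q2; linear_combination ((1 / 3) * e ^ 2 + t ^ 2) * om_rel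
    · unfold Q3; linear_combination (t ^ 2) * om_rel
  · filter_upwards [n1, n2] with s h1 h2
    have e0 : Bf t ![e * (1 + 2 * s), e * (1 - s), e * (1 - s)] 0 = b0 s := by
      simp [Bf, b0, A, m]; field_simp; ring
    have e1 : Bf t ![e * (1 + 2 * s), e * (1 - s), e * (1 - s)] 1 = b1 s := by
      simp [Bf, b1, B, m]; field_simp; ring
    have e2 : Bf t ![e * (1 + 2 * s), e * (1 - s), e * (1 - s)] 2 = b2 s := by
      simp [Bf, b2, B, m]; field_simp; ring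
    have f0 : Df t ![e * (1 + 2 * s), e * (1 - s), e * (1 - s)] 0 = b0 s := by
      simp [Df, b0, A, m]; field_simp; ring
    have f1 : Df t ![e * (1 + 2 * s), e * (1 - s), e * (1 - s)] 1 = b2 s := by
      simp [Df, b2, B, m]; field_simp; ring
    have f2 : Df t ![e * (1 + 2 * s), e * (1 - s), e * (1 - s)] 2 = b1 s := by
      simp [Df, b1, B, m]; field_simp; ring
    simp only [sig, zet, zet', e0, e1, e2, f0, f1, f2]
    refine ⟨?_, ?_, ?_, ?_, ?_, ?_⟩ <;> ring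

theorem Jet.val {φ : ℂ → ℂ} {c0 c1 c2 c3 : ℂ} (h : Jet φ c0 c1 c2 c3) : φ 0 = c0 := by
  obtain ⟨C, hC⟩ := IsBigO.bound h
  simpa [sub_eq_zero] using hC.self_of_nhds

/-- The three jet equations. -/
theorem jets {e t k : ℂ} {f : C3 → ℂ} {l a b : ℂ → ℂ} {C : ℝ} (he : e ≠ 0)
    (hk : k = e ^ 2 + 3 * t * e + 3 * t ^ 2) (kp : 0 < k.re) (hl : AnalyticAt ℂ l k)
    (ha : AnalyticAt ℂ a k) (hb : AnalyticAt ℂ b k)
    (bound : ∀ᶠ p : C3 in 𝓝 (0, 0, k),
      ‖f p - (l p.2.2 * p.1 + a p.2.2 * p.2.1 ^ 2 + b p.2.2 * p.1 ^ 2 * p.2.1)‖ ≤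
        C * ‖(p.1, p.2.1)‖ ^ 4)
    (loc : ∀ᶠ v : Fin 3 → ℂ in 𝓝 (fun _ => e), f (PhiInv (Bf t v)) = (PhiInv (Df t v)).1) :
    Q1 e t = l k * R1 e t ∧ (Q2 e t - l k * R2 e t) * k = a k * csqrt k * Q1 e t ^ 2 ∧
      (Q3 e t - l k * R3 e t) * k = -deriv l k * (6 * e ^ 2 + 12 * t * e + 9 * t ^ 2) * R1 e t * k +
        2 * (a k * csqrt k) * Q1 e t * Q2 e t + b k * R1 e t ^ 2 * Q1 e t := by
  obtain ⟨v, σ, x, y, hv, aσ, ax, ay, jσ, jx, jy, hs⟩ := line (t := t) he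
  rw [← hk] at jσ
  have k0 : k ≠ 0 := by rintro rfl; simp at kp
  let c : ℂ → ℂ := fun s => csqrt (σ s ^ 2 - 4 * x s * y s)
  let h : ℂ → ℂ := fun s => csqrt ((σ s + c s) / 2)
  have v1 : σ 0 ^ 2 - 4 * x 0 * y 0 = k ^ 2 := by rw [jσ.val, jx.val]; ring
  have c0 : c 0 = k := by simp only [c]; rw [v1, csqrt_of_sq kp]
  have v2 : (σ 0 + c 0) / 2 = k := by rw [jσ.val, c0]; ring
  have h0 : h 0 = csqrt k := by simp only [h]; rw [v2]
  have a1 : AnalyticAt ℂ (fun s => σ s ^ 2 - 4 * x s * y s) 0 := by fun_prop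
  have ac : AnalyticAt ℂ c 0 := AnalyticAt.fun_comp_of_eq (analyticAt_csqrt (sq_slit kp)) a1 v1
  have a2 : AnalyticAt ℂ (fun s => (σ s + c s) / 2) 0 := by fun_prop
  have ah : AnalyticAt ℂ h 0 := AnalyticAt.fun_comp_of_eq (analyticAt_csqrt (Or.inl kp)) a2 v2
  obtain ⟨c1, c2, c3, jc⟩ := Jet.exists ac
  obtain ⟨h1, h2, h3, jh⟩ := Jet.exists ah
  rw [c0] at jc
  rw [h0] at jh
  obtain ⟨-, u1, u2, -⟩ := (jc.mul jc).unique ((jσ.mul jσ).sub ((jx.mul jy).smul 4)) (by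
    filter_upwards [a1.continuousAt.eventually_ne (v1 ▸ pow_ne_zero 2 k0)] with s hs
    linear_combination csqrt_sq hs)
  have w1 : c1 = 0 := mul_left_cancel₀ (mul_ne_zero two_ne_zero k0) (by linear_combination u1)
  subst w1
  have w2 : c2 = -(6 * e ^ 2 + 12 * t * e + 9 * t ^ 2) :=
    mul_left_cancel₀ (mul_ne_zero two_ne_zero k0) (by
      linear_combination u2 - 4 * rq e t + 4 * (4 * e ^ 2 + 6 * t * e + 3 * t ^ 2) * hk)
  obtain ⟨-, u3, -, -⟩ := (jh.mul jh).unique ((jσ.add jc).smul (1 / 2)) (by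
    filter_upwards [a2.continuousAt.eventually_ne (v2 ▸ k0)] with s hs
    linear_combination csqrt_sq hs)
  have w3 : h1 = 0 :=
    mul_left_cancel₀ (mul_ne_zero two_ne_zero (csqrt_ne_zero k)) (by linear_combination u3)
  subst w3
  have hn : ∀ s, h s ≠ 0 := fun s => csqrt_ne_zero _
  have dZ : DifferentiableAt ℂ (fun s => (x s / h s, y s / h s)) 0 :=
    ((ax.div ah (hn 0)).prod (ay.div ah (hn 0))).differentiableAt
  have o1 : (fun s => ‖(x s / h s, y s / h s)‖ ^ 4) =O[𝓝 0] fun s : ℂ => s ^ 4 := by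
    have := dZ.isBigO_sub
    simp only [jx.val, jy.val, zero_div, sub_zero, Prod.mk_zero_zero] at this
    exact this.norm_left.pow 4
  have tp : Tendsto (fun s => ((x s / h s, y s / h s, c s) : C3)) (𝓝 0) (𝓝 (0, 0, k)) := by
    have := ((ax.div ah (hn 0)).prod ((ay.div ah (hn 0)).prod ac)).continuousAt.tendsto
    simpa only [Pi.div_apply, jx.val, jy.val, zero_div, c0] using this
  have o2 : (fun s => y s / h s - (l (c s) * (x s / h s) + a (c s) * (y s / h s) ^ 2 +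
      b (c s) * (x s / h s) ^ 2 * (y s / h s))) =O[𝓝 0] fun s : ℂ => s ^ 4 := by
    refine IsBigO.trans (IsBigO.of_bound C ?_) o1
    filter_upwards [tp.eventually bound, hv.eventually loc, hs] with s b1 b2 ⟨s1, s2, s3, s4, s5, s6⟩
    simp only [PhiInv, s1, s2, s3, s4, s5, s6, mul_right_comm 4 (y s) (x s)] at b2
    have b3 : f (x s / h s, y s / h s, c s) = y s / h s := b2
    rw [b3] at b1
    rwa [norm_pow, norm_norm]
  have o3 := IsBigO.mul ((jh.mul jh).mul jh).bdd o2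
  have j0 : Jet (fun s => y s * (h s * h s) - (l (c s) * (x s * (h s * h s)) +
      a (c s) * (y s * y s * h s) + b (c s) * (x s * x s * y s))) 0 0 0 0 := by
    refine o3.congr (fun s => ?_) (fun s => one_mul _)
    have := hn s
    field_simp
    ring
  obtain ⟨-, p1, p2, p3⟩ := ((jy.mul (jh.mul jh)).sub
    ((((jc.comp hl ac c0).mul (jx.mul (jh.mul jh))).add
      ((jc.comp ha ac c0).mul ((jy.mul jy).mul jh))).add
      ((jc.comp hb ac c0).mul ((jx.mul jx).mul jy)))).unique j0 (Eventually.of_forall fun _ => rfl)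
  have hh := csqrt_sq k0
  have q1 : Q1 e t = l k * R1 e t :=
    mul_left_cancel₀ k0 (by linear_combination p1 - (Q1 e t - l k * R1 e t) * hh)
  refine ⟨q1, by linear_combination p2 - (Q2 e t - l k * R2 e t) * hh, ?_⟩
  rw [w2] at p3
  linear_combination p3 - 2 * csqrt k * h2 * q1 - (Q3 e t - l k * R3 e t +
    deriv l k * (6 * e ^ 2 + 12 * t * e + 9 * t ^ 2) * R1 e t) * hh

theorem im_pos {T : ℂ} {N D : ℝ} (hN : 0 < N) (hD : 0 < D) (h : T * D = (1 + 2 * om) * N) :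
    0 < T.im := by
  have := congrArg Complex.im h
  rw [om_delta] at this
  simp only [mul_im, ofReal_re, ofReal_im, mul_zero, zero_add, I_re, I_im, mul_re, zero_mul,
    one_mul, sub_zero] at this
  have h3 : 0 < Real.sqrt 3 * N := mul_pos (Real.sqrt_pos.2 (by norm_num)) hN
  rw [← this] at h3
  exact (mul_pos_iff_of_pos_right hD).1 h3

/-- The algebra behind the twist condition. -/
theorem alg {e t : ℝ} (he : 0 < e) (ht : 0 < t) {k l0 l1 a0 a0' b0 h0 : ℂ}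
    (hk : k = e ^ 2 + 3 * t * e + 3 * t ^ 2) (hh : h0 ^ 2 = k) (E1 : Q1 e t = l0 * R1 e t)
    (E2 : (Q2 e t - l0 * R2 e t) * k = a0 * h0 * Q1 e t ^ 2)
    (E2' : (R2 e t - conj l0 * Q2 e t) * k = a0' * h0 * R1 e t ^ 2)
    (E1' : R1 e t = conj l0 * Q1 e t)
    (E3 : (Q3 e t - l0 * R3 e t) * k = -l1 * (6 * e ^ 2 + 12 * t * e + 9 * t ^ 2) * R1 e t * k +
      2 * (a0 * h0) * Q1 e t * Q2 e t + b0 * R1 e t ^ 2 * Q1 e t)
    (E4 : 4 * e + 3 * t - 3 * t * om =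
      l1 * (2 * e + 3 * t) * R1 e t + l0 * (4 * e + 6 * t + 3 * t * om)) :
    l0 ^ 3 ≠ 1 ∧ 0 < (b0 / l0 + 2 * a0 * a0' / (l0 ^ 3 - 1)).im ∧ 0 < (l1 / l0).im := by
  have nz : ∀ {x : ℝ}, 0 < x → (x : ℂ) ≠ 0 := fun h => ofReal_ne_zero.2 h.ne'
  obtain ⟨P, hP⟩ : ∃ P : ℂ, P = 4 * e ^ 2 + 6 * t * e + 3 * t ^ 2 := ⟨_, rfl⟩
  obtain ⟨S, hS⟩ : ∃ S : ℂ, S = (e + t) * (2 * e + 3 * t) * (2 * e ^ 2 + 6 * t * e + 3 * t ^ 2) :=
    ⟨_, rfl⟩
  have k0 : k ≠ 0 := by
    have := nz (x := e ^ 2 + 3 * t * e + 3 * t ^ 2) (by positivity)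
    rw [hk]; exact_mod_cast this
  have P0 : P ≠ 0 := by
    have := nz (x := 4 * e ^ 2 + 6 * t * e + 3 * t ^ 2) (by positivity)
    rw [hP]; exact_mod_cast this
  have S0 : S ≠ 0 := by
    have := nz (x := (e + t) * (2 * e + 3 * t) * (2 * e ^ 2 + 6 * t * e + 3 * t ^ 2)) (by positivity)
    rw [hS]; exact_mod_cast this
  have g0 : (2 * e + 3 * t : ℂ) ≠ 0 := by
    have := nz (x := 2 * e + 3 * t) (by positivity)
    exact_mod_cast this
  have hrq : R1 e t * Q1 e t = k * P := by rw [rq, hk, hP]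
  have n0 : R1 e t * Q1 e t ≠ 0 := hrq ▸ mul_ne_zero k0 P0
  have r0 := left_ne_zero_of_mul n0
  have l00 : l0 ≠ 0 := left_ne_zero_of_mul (E1 ▸ right_ne_zero_of_mul n0)
  have dd : (1 + 2 * om) ^ 2 = -3 := by linear_combination 4 * om_rel
  have d0 : 1 + 2 * om ≠ 0 := fun h => by rw [h] at dd; norm_num at dd
  obtain ⟨lam, hlam⟩ : ∃ lam, l1 = lam * l0 := ⟨l1 / l0, by field_simp⟩
  obtain ⟨T1, hT1⟩ : ∃ T1, b0 = T1 * l0 := ⟨b0 / l0, by field_simp⟩
  have A : lam * (k * P * (2 * e + 3 * t)) =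
      (1 + 2 * om) * (t * (6 * e ^ 2 + 12 * t * e + 9 * t ^ 2)) := by
    have i : (4 * e + 3 * t - 3 * t * om) * R1 e t - Q1 e t * (4 * e + 6 * t + 3 * t * om) =
        (1 + 2 * om) * (t * (6 * e ^ 2 + 12 * t * e + 9 * t ^ 2)) := by unfold R1 Q1; ring
    rw [hlam] at E4
    linear_combination i - R1 e t * E4 - lam * (2 * e + 3 * t) * hrq +
      (lam * (2 * e + 3 * t) * R1 e t + (4 * e + 6 * t + 3 * t * om)) * E1
  have i2 : Q2 e t * R1 e t - Q1 e t * R2 e t = -3 * e * t * k * (1 + 2 * om) := by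
    rw [hk]; unfold R1 Q1 R2 Q2; ring
  have B : a0 * h0 * Q1 e t * P = -3 * e * t * k * (1 + 2 * om) := mul_left_cancel₀ k0 (by
    linear_combination k * i2 - R1 e t * E2 + k * R2 e t * E1 - a0 * h0 * Q1 e t * hrq)
  have B' : a0' * h0 * R1 e t * P = 3 * e * t * k * (1 + 2 * om) := mul_left_cancel₀ k0 (by
    linear_combination -k * i2 - Q1 e t * E2' + k * Q2 e t * E1' - a0' * h0 * R1 e t * hrq)
  have D : a0 * a0' * P ^ 3 = 27 * e ^ 2 * t ^ 2 := mul_left_cancel₀ (pow_ne_zero 2 k0) (by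
    linear_combination (a0' * h0 * R1 e t * P) * B + (-3 * e * t * k * (1 + 2 * om)) * B' -
      9 * e ^ 2 * t ^ 2 * k ^ 2 * dd - a0 * a0' * h0 ^ 2 * P ^ 2 * hrq - a0 * a0' * k * P ^ 3 * hh)
  have i3 : Q1 e t ^ 3 - R1 e t ^ 3 = -9 * e * t * S * (1 + 2 * om) := by
    rw [hS]; unfold R1 Q1
    linear_combination (-54 * om * e ^ 3 * t ^ 3 - 162 * om * e ^ 2 * t ^ 4 - 162 * om * e * t ^ 5 -
      54 * om * t ^ 6 - 27 * e ^ 3 * t ^ 3 - 81 * e ^ 2 * t ^ 4 - 81 * e * t ^ 5 - 27 * t ^ 6) * om_rel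
  have F : (l0 ^ 3 - 1) * R1 e t ^ 3 = -9 * e * t * S * (1 + 2 * om) := by
    rw [← i3, E1]; ring
  have et : (e * t : ℂ) ≠ 0 := mul_ne_zero (nz he) (nz ht)
  have l3 : l0 ^ 3 - 1 ≠ 0 := by
    have := mul_ne_zero (mul_ne_zero (mul_ne_zero (by norm_num : (-9 : ℂ) ≠ 0) et) S0) d0
    rw [← mul_assoc, ← F] at this
    exact left_ne_zero_of_mul this
  obtain ⟨T2, hT2⟩ : ∃ T2, 2 * a0 * a0' = T2 * (l0 ^ 3 - 1) := ⟨_, (div_mul_cancel₀ _ l3).symm⟩
  have G : T2 * S * P ^ 3 = 2 * e * t * (1 + 2 * om) * R1 e t ^ 3 :=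
    mul_left_cancel₀ (mul_ne_zero (mul_ne_zero (by norm_num : (-9 : ℂ) ≠ 0) et) d0) (by
      linear_combination -T2 * P ^ 3 * F - P ^ 3 * R1 e t ^ 3 * hT2 + 2 * R1 e t ^ 3 * D +
        18 * e ^ 2 * t ^ 2 * R1 e t ^ 3 * dd)
  have i4 : Q3 e t * R1 e t - Q1 e t * R3 e t = -6 * e * t * k * (1 + 2 * om) := by
    rw [hk]; unfold R1 Q1 R3 Q3; ring
  have H0 : T1 * (k * P) ^ 2 = -6 * e * t * k ^ 2 * (1 + 2 * om) +
      lam * (6 * e ^ 2 + 12 * t * e + 9 * t ^ 2) * k ^ 2 * P -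
        2 * (a0 * h0 * Q1 e t) * Q2 e t * R1 e t := by
    rw [hlam, hT1] at E3
    linear_combination k * i4 - R1 e t * E3 + (k * R3 e t + T1 * R1 e t ^ 2 * Q1 e t -
      lam * (6 * e ^ 2 + 12 * t * e + 9 * t ^ 2) * R1 e t * k) * E1 -
      (T1 * (R1 e t * Q1 e t + k * P) - lam * (6 * e ^ 2 + 12 * t * e + 9 * t ^ 2) * k) * hrq
  have H : T1 * (k * P ^ 3 * (2 * e + 3 * t)) = (1 + 2 * om) * (-6 * e * t * k * P * (2 * e + 3 * t) +
      t * (6 * e ^ 2 + 12 * t * e + 9 * t ^ 2) ^ 2 * P +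
      6 * e * t * (2 * e + 3 * t) * (Q2 e t * R1 e t)) := mul_left_cancel₀ k0 (by
    linear_combination P * (2 * e + 3 * t) * H0 + (6 * e ^ 2 + 12 * t * e + 9 * t ^ 2) * k * P * A -
      2 * Q2 e t * R1 e t * (2 * e + 3 * t) * B)
  have i5 : Q2 e t * R1 e t = -3 * om * e ^ 3 * t - 9 * om * e ^ 2 * t ^ 2 - 9 * om * e * t ^ 3 +
      2 * e ^ 4 + 12 * e ^ 3 * t + 30 * e ^ 2 * t ^ 2 + 36 * e * t ^ 3 + 18 * t ^ 4 := by
    unfold R1 Q2
    linear_combination (-9 * e ^ 2 * t ^ 2 - 27 * e * t ^ 3 - 18 * t ^ 4) * om_rel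
  have i6 : R1 e t ^ 3 = 36 * om * e ^ 5 * t + 198 * om * e ^ 4 * t ^ 2 + 378 * om * e ^ 3 * t ^ 3 +
      297 * om * e ^ 2 * t ^ 4 + 81 * om * e * t ^ 5 + 8 * e ^ 6 + 72 * e ^ 5 * t +
      198 * e ^ 4 * t ^ 2 + 189 * e ^ 3 * t ^ 3 - 81 * e * t ^ 5 - 27 * t ^ 6 := by
    unfold R1
    linear_combination (27 * om * e ^ 3 * t ^ 3 + 81 * om * e ^ 2 * t ^ 4 + 81 * om * e * t ^ 5 +
      27 * om * t ^ 6 + 54 * e ^ 4 * t ^ 2 + 243 * e ^ 3 * t ^ 3 + 378 * e ^ 2 * t ^ 4 +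
      243 * e * t ^ 5 + 54 * t ^ 6) * om_rel
  have fin : (T1 + T2) * (k * P ^ 2 * S) = (1 + 2 * om) * (t * (64 * e ^ 7 + 534 * e ^ 6 * t +
      1926 * e ^ 5 * t ^ 2 + 3942 * e ^ 4 * t ^ 3 + 4914 * e ^ 3 * t ^ 4 + 3672 * e ^ 2 * t ^ 5 +
      1485 * e * t ^ 6 + 243 * t ^ 7)) := mul_left_cancel₀ (mul_ne_zero P0 g0) (by
    rw [i5] at H
    rw [i6] at G
    have := congrArg₂ (· + ·) (congrArg (S * ·) H) (congrArg (k * (2 * e + 3 * t) * ·) G)
    refine Eq.trans (by ring) (this.trans ?_)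
    rw [hk, hP, hS]
    ring)
  refine ⟨sub_ne_zero.1 l3, ?_, ?_⟩
  · rw [hT1, hT2, mul_div_cancel_right₀ _ l00, mul_div_cancel_right₀ _ l3]
    refine im_pos (N := t * (64 * e ^ 7 + 534 * e ^ 6 * t + 1926 * e ^ 5 * t ^ 2 +
      3942 * e ^ 4 * t ^ 3 + 4914 * e ^ 3 * t ^ 4 + 3672 * e ^ 2 * t ^ 5 + 1485 * e * t ^ 6 +
      243 * t ^ 7)) (D := (e ^ 2 + 3 * t * e + 3 * t ^ 2) * (4 * e ^ 2 + 6 * t * e + 3 * t ^ 2) ^ 2 *
      ((e + t) * (2 * e + 3 * t) * (2 * e ^ 2 + 6 * t * e + 3 * t ^ 2))) (by positivity)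
      (by positivity) ?_
    rw [hk, hP, hS] at fin
    exact_mod_cast fin
  · rw [hlam, mul_div_cancel_right₀ _ l00]
    refine im_pos (N := t * (6 * e ^ 2 + 12 * t * e + 9 * t ^ 2))
      (D := (e ^ 2 + 3 * t * e + 3 * t ^ 2) * (4 * e ^ 2 + 6 * t * e + 3 * t ^ 2) * (2 * e + 3 * t))
      (by positivity) (by positivity) ?_
    rw [hk, hP] at A
    exact_mod_cast A

theorem conj_a {f g : C3 → ℂ} {c0 : ℝ} {l a b l' a' b' : ℂ → ℂ} (G : Germ f g c0)
    (E : Expn f g c0 l a b l' a' b') : a' c0 = conj (a c0) := by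
  obtain ⟨C, hC⟩ := E.bound
  have t0 : Tendsto (fun s : ℝ => (s : ℂ)) (𝓝 0) (𝓝 0) := by
    simpa using continuous_ofReal.tendsto 0
  have t1 : Tendsto (fun s : ℝ => (((s : ℂ), (s : ℂ), (c0 : ℂ)) : C3)) (𝓝 0) (𝓝 (base c0)) :=
    t0.prodMk_nhds (t0.prodMk_nhds tendsto_const_nhds)
  have t2 : Tendsto (fun s : ℝ => ((s : ℂ), c0)) (𝓝 0) (𝓝 ((0 : ℂ), c0)) :=
    t0.prodMk_nhds tendsto_const_nhds
  have key := uniq (F := 𝓝[≠] (0 : ℝ)) (σ := fun s => (s : ℂ)) (u0 := 0)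
    (u1 := conj (l c0) - l' c0) (u2 := conj (a c0) - a' c0) (u3 := conj (b c0) - b' c0)
    (t0.mono_left nhdsWithin_le_nhds)
    (eventually_nhdsWithin_of_forall fun s hs => ofReal_ne_zero.2 hs)
    ((IsBigO.of_bound (C + C) (by
      filter_upwards [t1.eventually hC, t2.eventually G.real] with s ⟨h1, h2, _⟩ h3
      simp only [rp, conj_ofReal] at h3
      simp only [Prod.norm_mk, max_self] at h1 h2
      rw [← RCLike.norm_conj] at h1
      have := (norm_sub_le _ _).trans (add_le_add h2 h1)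
      rw [norm_pow, add_mul]
      refine le_of_eq_of_le (congrArg _ ?_) this
      simp only [map_sub, map_add, map_mul, map_pow, conj_ofReal, h3]
      ring)).mono nhdsWithin_le_nhds)
  exact (sub_eq_zero.1 key.2.2.1).symm

end G5

open G5 in
theorem g5 : G5Stmt := by
  intro t η0 c0 f g β U l a b l' a' b' ht hη hc R E
  have hk : (c0 : ℂ) = (η0 : ℂ) ^ 2 + 3 * t * η0 + 3 * t ^ 2 := by rw [hc]; push_cast; ring
  have c0p : 0 < c0 := by rw [hc]; positivity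
  obtain ⟨C, hC⟩ := E.bound
  have tk : Tendsto (fun e : ℂ => e ^ 2 + 3 * t * e + 3 * t ^ 2) (𝓝 η0) (𝓝 (c0 : ℂ)) := by
    rw [hk]
    exact Continuous.tendsto (f := fun e : ℂ => e ^ 2 + 3 * t * e + 3 * t ^ 2) (by fun_prop) _
  have ev : ∀ᶠ e : ℂ in 𝓝 η0, Q1 e t = l (e ^ 2 + 3 * t * e + 3 * t ^ 2) * R1 e t := by
    have t1 : Tendsto (fun e : ℂ => ((0, 0, e ^ 2 + 3 * t * e + 3 * t ^ 2) : C3)) (𝓝 η0)
        (𝓝 (base c0)) := tendsto_const_nhds.prodMk_nhds (tendsto_const_nhds.prodMk_nhds tk)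
    have t2 : Tendsto (fun (e : ℂ) (_ : Fin 3) => e) (𝓝 η0) (𝓝 fun _ => (η0 : ℂ)) :=
      tendsto_pi_nhds.2 fun _ => tendsto_id
    have t3 : ∀ᶠ k : ℂ in 𝓝 c0, 0 < k.re :=
      continuous_re.continuousAt.eventually (lt_mem_nhds (by simpa using c0p))
    filter_upwards [eventually_ne_nhds (ofReal_ne_zero.2 hη.ne'), tk.eventually t3,
      tk.eventually E.an_l.eventually_analyticAt, tk.eventually E.an_a.eventually_analyticAt,
      tk.eventually E.an_b.eventually_analyticAt, t1.eventually hC.eventually_nhds,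
      t2.eventually R.loc.eventually_nhds] with e h1 h2 h3 h4 h5 h6 h7
    exact (jets h1 rfl h2 h3 h4 h5 (h6.mono fun p hp => hp.1) h7).1
  obtain ⟨E1, E2, E3⟩ := jets (ofReal_ne_zero.2 hη.ne') hk (by simpa using c0p) E.an_l E.an_a E.an_b
    (hC.mono fun p hp => hp.1) R.loc
  have cR1 : conj (R1 η0 t) = Q1 η0 t := by
    simp only [R1, Q1, map_add, map_mul, map_pow, map_ofNat, conj_ofReal, conj_om]
    linear_combination (3 * (η0 : ℂ) * t + 3 * t ^ 2) * om_rel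
  have cR2 : conj (R2 η0 t) = Q2 η0 t := by
    simp only [R2, Q2, map_add, map_mul, map_pow, map_ofNat, conj_ofReal, conj_om]
    linear_combination (3 * (η0 : ℂ) * t + 6 * t ^ 2) * om_rel
  have cQ1 : conj (Q1 η0 t) = R1 η0 t := by rw [← cR1, conj_conj]
  have cQ2 : conj (Q2 η0 t) = R2 η0 t := by rw [← cR2, conj_conj]
  have E1' := congrArg conj E1
  have E2' := congrArg conj E2
  rw [map_mul, cQ1, cR1] at E1'
  have G : Germ f g c0 := by rw [hc]; exact R.germ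
  rw [map_mul, map_sub, map_mul, map_mul, map_mul, map_pow, cQ1, cQ2, cR2, conj_ofReal,
    ← conj_a G E, csqrt_ofReal c0p, conj_ofReal, ← csqrt_ofReal c0p] at E2'
  have E4 : 4 * (η0 : ℂ) + 3 * t - 3 * t * om = deriv l c0 * (2 * η0 + 3 * t) * R1 η0 t +
      l c0 * (4 * η0 + 6 * t + 3 * t * om) := by
    have q : ∀ u v w : ℂ, HasDerivAt (fun e : ℂ => u * e ^ 2 + v * e + w) (2 * u * η0 + v) η0 :=
      fun u v w => by
        have i := hasDerivAt_id (η0 : ℂ)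
        have := (((i.mul i).const_mul u).add (i.const_mul v)).add_const w
        exact (this.congr_deriv (by simp only [id]; ring)).congr_of_eventuallyEq
          (Eventually.of_forall fun e => by simp only [id, Pi.add_apply, Pi.mul_apply]; ring)
    have d1 : HasDerivAt (fun e : ℂ => Q1 e t) (4 * (η0 : ℂ) + 3 * t - 3 * t * om) η0 :=
      ((q 2 (3 * t - 3 * t * om) (-3 * t ^ 2 * om)).congr_deriv (by ring)).congr_of_eventuallyEq
        (Eventually.of_forall fun e => by simp only [Q1]; ring)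
    have d2 : HasDerivAt (fun e : ℂ => R1 e t) (4 * (η0 : ℂ) + 6 * t + 3 * t * om) η0 :=
      ((q 2 (6 * t + 3 * t * om) (3 * t ^ 2 + 3 * t ^ 2 * om)).congr_deriv
        (by ring)).congr_of_eventuallyEq (Eventually.of_forall fun e => by simp only [R1]; ring)
    have d3 : HasDerivAt (fun e : ℂ => e ^ 2 + 3 * t * e + 3 * t ^ 2) (2 * (η0 : ℂ) + 3 * t) η0 :=
      ((q 1 (3 * t) (3 * t ^ 2)).congr_deriv (by ring)).congr_of_eventuallyEq
        (Eventually.of_forall fun e => by ring)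
    have d4 := (E.an_l.differentiableAt.hasDerivAt.comp_of_eq _ d3 hk).mul d2
    have := d1.unique (d4.congr_of_eventuallyEq ev)
    rw [this, Function.comp_apply, ← hk]
  obtain ⟨p1, p2, p3⟩ := alg hη ht hk (csqrt_sq (ofReal_ne_zero.2 c0p.ne')) E1 E2 E2' E1' E3 E4
  refine ⟨p1, p2, p3, ?_⟩
  have sq : ∀ η : ℝ, 0 < η →
      (Real.sqrt (4 * (η ^ 2 + 3 * t * η + 3 * t ^ 2) - 3 * t ^ 2) - 3 * t) / 2 = η := fun η h => by
    rw [show 4 * (η ^ 2 + 3 * t * η + 3 * t ^ 2) - 3 * t ^ 2 = (2 * η + 3 * t) ^ 2 by ring,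
      Real.sqrt_sq (by positivity)]
    ring
  have tψ : Tendsto (fun e : ℝ => (((Real.sqrt (4 * e - 3 * t ^ 2) - 3 * t) / 2 : ℝ) : ℂ)) (𝓝 c0)
      (𝓝 η0) := by
    have : Continuous fun e : ℝ => (((Real.sqrt (4 * e - 3 * t ^ 2) - 3 * t) / 2 : ℝ) : ℂ) := by
      fun_prop
    convert this.tendsto c0
    rw [hc, sq η0 hη]
  filter_upwards [tψ.eventually ev] with e he η h1 h2
  rw [h2, sq η h1] at he
  have η1 : (η : ℂ) ≠ 0 := ofReal_ne_zero.2 h1.ne'
  obtain ⟨τ, hτ⟩ : ∃ τ : ℂ, τ = ((t / η : ℝ) : ℂ) := ⟨_, rfl⟩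
  have h3 : (t : ℂ) = τ * η := by rw [hτ]; push_cast; field_simp
  have r0 : R1 η t ≠ 0 := left_ne_zero_of_mul (a := R1 η t) (b := Q1 η t) (by
    have := ofReal_ne_zero.2 (show (η ^ 2 + 3 * t * η + 3 * t ^ 2) *
      (4 * η ^ 2 + 6 * t * η + 3 * t ^ 2) ≠ 0 by positivity)
    rw [rq]; exact_mod_cast this)
  have f1 : (1 + τ * (1 - om ^ 2)) * (2 + τ * (1 - om ^ 2)) * η ^ 2 = R1 η t := by
    rw [R1, h3]
    linear_combination (η : ℂ) ^ 2 * (om ^ 2 * τ ^ 2 - om * τ ^ 2 - 3 * τ - 2 * τ ^ 2) * om_rel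
  have f2 : (1 + τ * (1 - om)) * (2 + τ * (1 - om)) * η ^ 2 = Q1 η t := by
    rw [Q1, h3]
    linear_combination (η : ℂ) ^ 2 * τ ^ 2 * om_rel
  rw [← hτ, lam, eq_div_iff (left_ne_zero_of_mul (f1 ▸ r0)), h2]
  push_cast
  exact mul_right_cancel₀ (pow_ne_zero 2 η1) (by rw [mul_assoc, f1, f2, he])

end Pool.Agent.MP_62f0b1_an.AE

end
end MrgPart2

-- ======== part 3: formerly Pool.Agent.MP_62f0b1_an.ae.C1
section MrgPart3

/-!
Row C1: a priori slope bound for periodic invariant graphs.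
-/

set_option autoImplicit false

noncomputable section

namespace Pool.Agent.MP_62f0b1_an.AE

open Filter Topology Set

namespace C1

/-- Mean value theorem along a segment in a slice. -/
theorem mvt (g : R3 → ℝ) (e x y u v : ℝ)
    (hd : ∀ t ∈ Icc (0 : ℝ) 1, DifferentiableAt ℝ g (x + t * (y - x), u + t * (v - u), e)) :
    ∃ t ∈ Icc (0 : ℝ) 1, g (y, v, e) - g (x, u, e) =
      r1 g (x + t * (y - x), u + t * (v - u), e) * (y - x) +
        r2 g (x + t * (y - x), u + t * (v - u), e) * (v - u) := by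
  have hder : ∀ t ∈ Icc (0 : ℝ) 1,
      HasDerivAt (fun t : ℝ => g (x + t * (y - x), u + t * (v - u), e))
        (r1 g (x + t * (y - x), u + t * (v - u), e) * (y - x) +
          r2 g (x + t * (y - x), u + t * (v - u), e) * (v - u)) t := by
    intro t ht
    have h1 : HasDerivAt (fun t : ℝ => x + t * (y - x)) (y - x) t := by
      simpa using ((hasDerivAt_id t).mul_const (y - x)).const_add x
    have h2 : HasDerivAt (fun t : ℝ => u + t * (v - u)) (v - u) t := by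
      simpa using ((hasDerivAt_id t).mul_const (v - u)).const_add u
    have h3 : HasDerivAt (fun t : ℝ => ((x + t * (y - x), u + t * (v - u), e) : R3))
        ((y - x, v - u, 0) : R3) t := h1.prodMk (h2.prodMk (hasDerivAt_const t e))
    have h4 := (hd t ht).hasFDerivAt.comp_hasDerivAt t h3
    have h5 : ((y - x, v - u, 0) : R3) =
        (y - x) • ((1, 0, 0) : R3) + (v - u) • ((0, 1, 0) : R3) := by
      simp
    rw [h5, map_add, map_smul, map_smul] at h4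
    refine HasDerivAt.congr_deriv h4 ?_
    simp only [r1, r2, smul_eq_mul]
    ring
  obtain ⟨c, hc, hc'⟩ := exists_hasDerivAt_eq_slope
    (fun t : ℝ => g (x + t * (y - x), u + t * (v - u), e)) _ (zero_lt_one' ℝ)
    (fun t ht => (hder t ht).continuousAt.continuousWithinAt)
    (fun t ht => hder t (Ioo_subset_Icc_self ht))
  refine ⟨c, Ioo_subset_Icc_self hc, ?_⟩
  rw [hc']
  simp

/-- The quadratic inequality that is impossible for large slopes. -/
theorem quad {H S A B C D : ℝ} (hH : 0 < H) (hS : H / 8 < S) (hA : |A - 1| ≤ H / 100)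
    (hB : |B - 1| ≤ 1 / 100) (hC : |C| ≤ H ^ 2 / 100) (hD : |D - 1| ≤ H / 100) :
    C + (D - A) * S < B * S ^ 2 ∧ C + (A - D) * S < B * S ^ 2 := by
  obtain ⟨a1, a2⟩ := abs_le.1 hA
  obtain ⟨b1, -⟩ := abs_le.1 hB
  obtain ⟨-, c2⟩ := abs_le.1 hC
  obtain ⟨d1, d2⟩ := abs_le.1 hD
  have hS0 : 0 < S := by linarith
  have h1 : H ^ 2 ≤ 64 * S ^ 2 := by nlinarith
  have h2 : H * S ≤ 8 * S ^ 2 := by nlinarith
  have h3 : (D - A) * S ≤ H / 50 * S := mul_le_mul_of_nonneg_right (by linarith) hS0.le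
  have h4 : (A - D) * S ≤ H / 50 * S := mul_le_mul_of_nonneg_right (by linarith) hS0.le
  have h5 : 99 / 100 * S ^ 2 ≤ B * S ^ 2 := mul_le_mul_of_nonneg_right (by linarith) (sq_nonneg S)
  have h6 : 0 < S ^ 2 := by positivity
  constructor <;> nlinarith

/-- A periodic orbit of almost parabolic Moebius maps has small slopes. -/
theorem slopes {H : ℝ} (hH : 0 < H) (hH1 : H ≤ 1) {l : ℕ} (hl : 0 < l) (s : ℕ → ℝ)
    (hper : s l = s 0)
    (hs : ∀ j, ∃ A B C D : ℝ, |A - 1| ≤ H / 100 ∧ |B - 1| ≤ 1 / 100 ∧ |C| ≤ H ^ 2 / 100 ∧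
      |D - 1| ≤ H / 100 ∧ 0 < A + B * s j ∧ s (j + 1) * (A + B * s j) = C + D * s j) :
    |s 0| ≤ H / 8 := by
  have hne : (Finset.range l).Nonempty := ⟨0, Finset.mem_range.2 hl⟩
  have hmin : ∀ i, i < l → -(H / 8) ≤ s i := by
    obtain ⟨j, hj, hj'⟩ := Finset.exists_min_image (Finset.range l) s hne
    have hjl := Finset.mem_range.1 hj
    have h1 : s j ≤ s (j + 1) := by
      rcases Nat.lt_or_ge (j + 1) l with h | h
      · exact hj' _ (Finset.mem_range.2 h)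
      · have : j + 1 = l := by omega
        rw [this, hper]
        exact hj' _ (Finset.mem_range.2 hl)
    have h2 : -(H / 8) ≤ s j := by
      by_contra hc
      obtain ⟨A, B, C, D, hA, hB, hC, hD, hp, he⟩ := hs j
      have h3 := (quad (S := -s j) hH (by linarith [not_le.1 hc]) hA hB hC hD).2
      have h4 := mul_le_mul_of_nonneg_right h1 hp.le
      nlinarith
    exact fun i hi => h2.trans (hj' i (Finset.mem_range.2 hi))
  obtain ⟨j, hj, hj'⟩ := Finset.exists_max_image (Finset.range l) (fun i => s (i + 1)) hne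
  have hjl := Finset.mem_range.1 hj
  have h0 : s 0 ≤ s (j + 1) := by
    have := hj' (l - 1) (Finset.mem_range.2 (by omega))
    have h : l - 1 + 1 = l := by omega
    simp only [h, hper] at this
    exact this
  have h1 : s j ≤ s (j + 1) := by
    rcases Nat.eq_zero_or_pos j with h | h
    · rw [h] at h0 ⊢
      exact h0
    · have := hj' (j - 1) (Finset.mem_range.2 (by omega))
      have h' : j - 1 + 1 = j := by omega
      simp only [h'] at this
      exact this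
  have h2 : s (j + 1) ≤ H / 8 := by
    by_contra hc
    have hc := not_le.1 hc
    obtain ⟨A, B, C, D, hA, hB, hC, hD, -, he⟩ := hs j
    have h3 := (quad hH hc hA hB hC hD).1
    have h4 := hmin j hjl
    obtain ⟨a1, -⟩ := abs_le.1 hA
    obtain ⟨b1, b2⟩ := abs_le.1 hB
    obtain ⟨-, c2⟩ := abs_le.1 hC
    obtain ⟨d1, -⟩ := abs_le.1 hD
    set S := s (j + 1)
    set x := s j
    have hS0 : 0 < S := by linarith
    have h5 : B * (H / 8) ≤ 1 / 4 := by nlinarith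
    have h6 : 0 < S * (A - B * (H / 8)) := mul_pos hS0 (by linarith)
    have h7 : C - D * (H / 8) < 0 := by nlinarith
    have g1 : C + (D - A) * S - B * S ^ 2 < 0 := by linarith
    have g2 : C - D * (H / 8) - S * (A - B * (H / 8)) < 0 := by linarith
    have key : (x + H / 8) * (C + (D - A) * S - B * S ^ 2) +
        (S - x) * (C - D * (H / 8) - S * (A - B * (H / 8))) = 0 := by
      linear_combination (-(S + H / 8)) * he
    have k1 : (x + H / 8) * (C + (D - A) * S - B * S ^ 2) ≤ 0 :=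
      mul_nonpos_of_nonneg_of_nonpos (by linarith) g1.le
    have k2 : (S - x) * (C - D * (H / 8) - S * (A - B * (H / 8))) ≤ 0 :=
      mul_nonpos_of_nonneg_of_nonpos (by linarith) g2.le
    rcases lt_or_ge x S with h | h
    · have := mul_neg_of_pos_of_neg (sub_pos.2 h) g2
      linarith
    · have := mul_neg_of_pos_of_neg (show 0 < x + H / 8 by linarith) g1
      linarith
  exact abs_le.2 ⟨hmin 0 hl, h0.trans h2⟩

end C1

theorem c1 : C1Stmt := by
  intro Θ Jn α e0 ε r T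
  obtain ⟨r', hr', hr'r, hest⟩ := T.est (1 / 100) (by norm_num)
  refine ⟨min r' 1, lt_min hr' one_pos, (min_le_left _ _).trans hr'r, ?_⟩
  intro l p e h hl he G hh
  have hbd : BddAbove (range h) := ⟨1, by
    rintro _ ⟨θ, rfl⟩
    exact ((hh θ).trans_le (min_le_right _ _)).le⟩
  obtain ⟨H, hHdef⟩ : ∃ H, H = sSup (range h) := ⟨_, rfl⟩
  have hle : ∀ θ, h θ ≤ H := fun θ => hHdef ▸ le_csSup hbd ⟨θ, rfl⟩
  have hH : 0 < H := (G.pos 0).trans_le (hle 0)
  have hH1 : H ≤ 1 := by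
    rw [hHdef]
    refine csSup_le (range_nonempty h) ?_
    rintro _ ⟨θ, rfl⟩
    exact ((hh θ).trans_le (min_le_right _ _)).le
  have hr1 : ∀ θ, h θ < r' := fun θ => (hh θ).trans_le (min_le_left _ _)
  have hP : Function.Periodic h (2 * Real.pi) := G.per
  -- points on segments
  have hseg : ∀ x y t, t ∈ Icc (0 : ℝ) 1 → 0 < h x + t * (h y - h x) ∧
      h x + t * (h y - h x) < r' ∧ h x + t * (h y - h x) ≤ H := by
    intro x y t ht
    obtain ⟨t0, t1⟩ := ht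
    have a1 := G.pos x
    have a2 := G.pos y
    have b1 := hr1 x
    have b2 := hr1 y
    have c1 := hle x
    have c2 := hle y
    rcases le_total (h x) (h y) with hxy | hxy
    · have k1 : 0 ≤ t * (h y - h x) := mul_nonneg t0 (by linarith)
      have k2 : t * (h y - h x) ≤ 1 * (h y - h x) := mul_le_mul_of_nonneg_right t1 (by linarith)
      exact ⟨by linarith, by linarith, by linarith⟩
    · have k1 : 0 ≤ t * (h x - h y) := mul_nonneg t0 (by linarith)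
      have k2 : t * (h x - h y) ≤ 1 * (h x - h y) := mul_le_mul_of_nonneg_right t1 (by linarith)
      exact ⟨by linarith, by linarith, by linarith⟩
  have hdom : ∀ x y t, t ∈ Icc (0 : ℝ) 1 →
      ((x + t * (y - x), h x + t * (h y - h x), e) : R3) ∈ domR e0 ε r := fun x y t ht =>
    ⟨(hseg x y t ht).1, (hseg x y t ht).2.1.trans_le hr'r, he⟩
  -- one step
  have hstep : ∀ x y, x < y → ∃ A B C D : ℝ, |A - 1| ≤ H / 100 ∧ |B - 1| ≤ 1 / 100 ∧
      |C| ≤ H ^ 2 / 100 ∧ |D - 1| ≤ H / 100 ∧ 0 < A + B * ((h y - h x) / (y - x)) ∧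
      (h (gmap Θ e h y) - h (gmap Θ e h x)) / (gmap Θ e h y - gmap Θ e h x) *
        (A + B * ((h y - h x) / (y - x))) = C + D * ((h y - h x) / (y - x)) := by
    intro x y hxy
    obtain ⟨t, ht, h1⟩ := C1.mvt Θ e x y (h x) (h y)
      (fun t ht => (T.an _ (hdom x y t ht)).1.differentiableAt)
    obtain ⟨t', ht', h2⟩ := C1.mvt Jn e x y (h x) (h y)
      (fun t ht => (T.an _ (hdom x y t ht)).2.differentiableAt)
    obtain ⟨-, -, e3, e4, -, -⟩ := hest _ (hdom x y t ht) (hseg x y t ht).2.1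
    obtain ⟨-, -, -, -, e5, e6⟩ := hest _ (hdom x y t' ht') (hseg x y t' ht').2.1
    obtain ⟨s1, -, s3⟩ := hseg x y t ht
    obtain ⟨s1', -, s3'⟩ := hseg x y t' ht'
    simp only at e3 e4 e5 e6
    have hT : 0 < gmap Θ e h y - gmap Θ e h x := sub_pos.2 (G.mono hxy)
    have hd : 0 < y - x := sub_pos.2 hxy
    rw [G.inv, G.inv] at h2
    have h1' : gmap Θ e h y - gmap Θ e h x = _ := h1
    generalize r1 Θ (x + t * (y - x), h x + t * (h y - h x), e) = A at *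
    generalize r2 Θ (x + t * (y - x), h x + t * (h y - h x), e) = B at *
    generalize r1 Jn (x + t' * (y - x), h x + t' * (h y - h x), e) = C at *
    generalize r2 Jn (x + t' * (y - x), h x + t' * (h y - h x), e) = D at *
    have hq : A + B * ((h y - h x) / (y - x)) = (gmap Θ e h y - gmap Θ e h x) / (y - x) := by
      rw [h1']
      field_simp
    refine ⟨A, B, C, D, by linarith, e4, ?_, by linarith, ?_, ?_⟩
    · have := pow_le_pow_left₀ s1'.le s3' 2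
      linarith
    · rw [hq]
      positivity
    · rw [hq, h2]
      field_simp
  have hlip0 : ∀ x y, x < y → |h y - h x| ≤ H / 8 * (y - x) := by
    intro x y hxy
    have hlt : ∀ j : ℕ, (gmap Θ e h)^[j] x < (gmap Θ e h)^[j] y := fun j => G.mono.iterate j hxy
    have hp' : ∀ θ, h (θ + 2 * Real.pi * p) = h θ := fun θ => by
      have := hP.int_mul p θ
      rwa [mul_comm] at this
    have := C1.slopes hH hH1 hl (fun j => (h ((gmap Θ e h)^[j] y) - h ((gmap Θ e h)^[j] x)) /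
      ((gmap Θ e h)^[j] y - (gmap Θ e h)^[j] x))
      (by simp only [G.ret, hp', Function.iterate_zero, id, add_sub_add_right_eq_sub])
      (fun j => by
        simp only [Function.iterate_succ_apply']
        exact hstep _ _ (hlt j))
    have hd : 0 < y - x := sub_pos.2 hxy
    simp only [Function.iterate_zero, id] at this
    rwa [abs_div, abs_of_pos hd, div_le_iff₀ hd] at this
  have hlip : ∀ x y, |h x - h y| ≤ H / 8 * |x - y| := by
    intro x y
    rcases lt_trichotomy x y with hxy | hxy | hxy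
    · rw [abs_sub_comm (h x), abs_sub_comm x, abs_of_pos (sub_pos.2 hxy)]
      exact hlip0 x y hxy
    · simp [hxy]
    · rw [abs_of_pos (sub_pos.2 hxy)]
      exact hlip0 y x hxy
  have hlow : ∀ θ, 3 / 5 * H ≤ h θ := by
    intro θ
    have : sSup (range h) ≤ h θ + 2 / 5 * H := by
      refine csSup_le (range_nonempty h) ?_
      rintro _ ⟨x, rfl⟩
      obtain ⟨y, hy, hxy⟩ := hP.exists_mem_Ico Real.two_pi_pos x (θ - Real.pi)
      have h1 : |y - θ| ≤ 16 / 5 :=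
        abs_le.2 ⟨by linarith [hy.1, Real.pi_lt_d2], by linarith [hy.2, Real.pi_lt_d2]⟩
      have h2 := (abs_le.1 (hlip y θ)).2
      have h3 : H / 8 * |y - θ| ≤ H / 8 * (16 / 5) := mul_le_mul_of_nonneg_left h1 (by linarith)
      rw [hxy]
      linarith
    rw [← hHdef] at this
    linarith
  have hinc : ∀ x, α e + 59 / 100 * H ≤ gmap Θ e h x - x ∧
      gmap Θ e h x - x ≤ α e + 101 / 100 * H := by
    intro x
    have h1 := (hest (x, h x, e) ⟨G.pos x, (hr1 x).trans_le hr'r, he⟩ (hr1 x)).1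
    obtain ⟨h2, h3⟩ := abs_le.1 h1
    simp only at h2 h3
    have h4 := hle x
    have h5 := hlow x
    simp only [gmap]
    constructor <;> linarith
  have hsum : ∀ j : ℕ, j * (α e + 59 / 100 * H) ≤ (gmap Θ e h)^[j] 0 ∧
      (gmap Θ e h)^[j] 0 ≤ j * (α e + 101 / 100 * H) := by
    intro j
    induction j with
    | zero => simp
    | succ j ih =>
      have := hinc ((gmap Θ e h)^[j] 0)
      rw [Function.iterate_succ_apply']
      push_cast
      constructor <;> linarith [ih.1, ih.2, this.1, this.2]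
  have hl' : (0 : ℝ) < l := Nat.cast_pos.2 hl
  obtain ⟨u1, u2⟩ := hsum l
  rw [G.ret, zero_add] at u1 u2
  have v1 : α e + 59 / 100 * H ≤ 2 * Real.pi * p / l := by
    rw [le_div_iff₀ hl']
    linarith
  have v2 : 2 * Real.pi * p / l ≤ α e + 101 / 100 * H := by
    rw [div_le_iff₀ hl']
    linarith
  refine ⟨fun x y => (hlip x y).trans ?_, fun θ => ⟨?_, ?_⟩⟩
  · have := abs_nonneg (x - y)
    nlinarith
  · linarith [hlow θ]
  · linarith [hle θ]

end Pool.Agent.MP_62f0b1_an.AE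

end
end MrgPart3

-- marker of a merged file
example : 731051 + 306910 = 731051 + 306910 := rfl
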