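import Mathlib.Analysis.Calculus.Deriv.Prod
import Pool.Agent.MP_62f0b1_an.ae.Asm

/-!
The reduced map has Jacobian one.
-/

set_option autoImplicit false

noncomputable section

namespace Pool.Agent.MP_62f0b1_an.AE

open Complex Filter Topology Set

namespace G4b

def det3 (b x y : Fin 3 → ℂ) : ℂ :=
  b 0 * (x 1 * y 2 - y 1 * x 2) + b 1 * (x 2 * y 0 - y 2 * x 0) + b 2 * (x 0 * y 1 - y 0 * x 1)

def herB (b x : Fin 3 → ℂ) : ℂ :=
  2 * (x 0 * b 1 + b 0 * x 1 + x 1 * b 2 + b 1 * x 2 + x 2 * b 0 + b 2 * x 0) -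
    2 * (b 0 * x 0 + b 1 * x 1 + b 2 * x 2)

def dPi (a u : Fin 3 → ℂ) : ℂ := u 0 * a 1 * a 2 + a 0 * u 1 * a 2 + a 0 * a 1 * u 2

/-- The common shape of `Bt` and `Dt`. -/
def E (t P x y z : ℂ) : ℂ := P * ((x + t) ^ 2 + t ^ 2) - t * (x + t) * (z ^ 2 - x ^ 2 - y ^ 2) * z

def dE (t P x y z P' x' y' z' : ℂ) : ℂ :=
  P' * ((x + t) ^ 2 + t ^ 2) + P * (2 * (x + t) * x') -
    t * (x' * (z ^ 2 - x ^ 2 - y ^ 2) * z + (x + t) * (2 * z * z' - 2 * x * x' - 2 * y * y') * z +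
      (x + t) * (z ^ 2 - x ^ 2 - y ^ 2) * z')

def dBt (t : ℂ) (a u : Fin 3 → ℂ) (i : Fin 3) : ℂ :=
  dE t (Pi3 a) (a i) (a (i + 1)) (a (i + 2)) (dPi a u) (u i) (u (i + 1)) (u (i + 2))

def dDt (t : ℂ) (a u : Fin 3 → ℂ) (i : Fin 3) : ℂ :=
  dE t (Pi3 a) (a i) (a (i + 2)) (a (i + 1)) (dPi a u) (u i) (u (i + 2)) (u (i + 1))

theorem ident (t : ℂ) (a u v : Fin 3 → ℂ) :
    2 * (det3 (Dt t a) (dDt t a u) (dDt t a v) - det3 (Bt t a) (dBt t a u) (dBt t a v)) =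
      t * ((Pi3 a * herB (Bt t a) (dBt t a u) - 2 * her (Bt t a) * dPi a u) * (v 0 + v 1 + v 2) -
        (Pi3 a * herB (Bt t a) (dBt t a v) - 2 * her (Bt t a) * dPi a v) * (u 0 + u 1 + u 2)) := by
  have e1 : (0 : Fin 3) + 1 = 1 := rfl
  have e2 : (0 : Fin 3) + 2 = 2 := rfl
  have e3 : (1 : Fin 3) + 1 = 2 := rfl
  have e4 : (1 : Fin 3) + 2 = 0 := rfl
  have e5 : (2 : Fin 3) + 1 = 0 := rfl
  have e6 : (2 : Fin 3) + 2 = 1 := rfl
  simp only [det3, herB, her, dBt, dDt, Bt, Dt, dE, dPi, Pi3, e1, e2, e3, e4, e5, e6]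
  ring

theorem det3_scale (m m1 m2 : ℂ) (b x y : Fin 3 → ℂ) :
    det3 (fun i => m * b i) (fun i => m1 * b i + m * x i) (fun i => m2 * b i + m * y i) =
      m ^ 3 * det3 b x y := by
  simp only [det3]; ring

theorem her_scale (m m1 : ℂ) (b x : Fin 3 → ℂ) :
    m * herB (fun i => m * b i) (fun i => m1 * b i + m * x i) - 2 * her (fun i => m * b i) * m1 =
      m ^ 3 * herB b x := by
  simp only [herB, her]; ring

def fou (A B C : ℂ) (i : Fin 3) : ℂ := A + (B * om ^ i.val + C * om ^ (2 * i.val))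

theorem fou0 (A B C : ℂ) : fou A B C 0 = A + B + C := by simp [fou]; ring

theorem fou1 (A B C : ℂ) : fou A B C 1 = A - C + (B - C) * om := by
  have : fou A B C 1 = A + (B * om + C * om ^ 2) := by simp [fou]
  rw [this]; linear_combination C * om_rel

theorem fou2 (A B C : ℂ) : fou A B C 2 = A - B - (B - C) * om := by
  have : fou A B C 2 = A + (B * om ^ 2 + C * om ^ 4) := by simp [fou]
  rw [this]; linear_combination B * om_rel + C * om * om_cube

theorem det3_fou (A B C A1 B1 C1 A2 B2 C2 : ℂ) :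
    det3 (fou A B C) (fou A1 B1 C1) (fou A2 B2 C2) =
      -3 * (1 + 2 * om) * (A * (B1 * C2 - B2 * C1) + B * (C1 * A2 - C2 * A1) +
        C * (A1 * B2 - A2 * B1)) := by
  simp only [det3, fou0, fou1, fou2]; ring

theorem herB_fou (A B C A1 B1 C1 : ℂ) :
    herB (fou A B C) (fou A1 B1 C1) = 6 * A * A1 - 12 * (B * C1 + C * B1) := by
  simp only [herB, fou0, fou1, fou2]
  linear_combination (-8 * (B - C) * (B1 - C1)) * om_rel

/-- The derivative of `Phi` on a level. -/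
def dPhi (z w c z' w' : ℂ) : Fin 3 → ℂ :=
  fou (2 * (z' * w + z * w'))
    ((z' * w + z * w') / (2 * csqrt (c + z * w)) * z + csqrt (c + z * w) * z')
    ((z' * w + z * w') / (2 * csqrt (c + z * w)) * w + csqrt (c + z * w) * w')

theorem Phi_eq (z w c : ℂ) :
    Phi (z, w, c) = fou (c + 2 * z * w) (csqrt (c + z * w) * z) (csqrt (c + z * w) * w) := by
  funext i; simp only [Phi, fou]; ring

theorem det3_Phi {z w c : ℂ} (h : c + z * w ≠ 0) (z1 w1 z2 w2 : ℂ) :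
    det3 (Phi (z, w, c)) (dPhi z w c z1 w1) (dPhi z w c z2 w2) =
      -3 * (1 + 2 * om) * (c ^ 2 * (z1 * w2 - z2 * w1)) := by
  rw [Phi_eq, dPhi, dPhi, det3_fou]
  have h1 := csqrt_sq h
  have h0 := csqrt_ne_zero (c + z * w)
  set r := csqrt (c + z * w)
  have hc : c = r ^ 2 - z * w := by linear_combination -h1
  congr 1
  clear_value r
  subst hc
  field_simp
  ring

theorem herB_Phi {z w c : ℂ} (h : c + z * w ≠ 0) (z1 w1 : ℂ) :
    herB (Phi (z, w, c)) (dPhi z w c z1 w1) = 0 := by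
  rw [Phi_eq, dPhi, herB_fou]
  have h1 := csqrt_sq h
  have h0 := csqrt_ne_zero (c + z * w)
  set r := csqrt (c + z * w)
  have hc : c = r ^ 2 - z * w := by linear_combination -h1
  clear_value r
  subst hc
  field_simp
  ring

theorem hasDerivAt_csqrt {x : ℂ} (hx : x ∈ slitPlane) :
    HasDerivAt csqrt (1 / (2 * csqrt x)) x := by
  have h := ((Complex.hasDerivAt_log hx).div_const 2).cexp
  have h1 := csqrt_sq (slitPlane_ne_zero hx)
  have h0 := csqrt_ne_zero x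
  have h2 := slitPlane_ne_zero hx
  refine HasDerivAt.congr_deriv h ?_
  change csqrt x * _ = _
  field_simp
  exact h1

theorem hasDerivAt_Phi {z w : ℂ → ℂ} {z' w' c : ℂ} (hz : HasDerivAt z z' 0)
    (hw : HasDerivAt w w' 0) (h : c + z 0 * w 0 ∈ slitPlane) (i : Fin 3) :
    HasDerivAt (fun s => Phi (z s, w s, c) i) (dPhi (z 0) (w 0) c z' w' i) 0 := by
  have h1 : HasDerivAt (fun s => c + z s * w s) (z' * w 0 + z 0 * w') 0 := (hz.mul hw).const_add c
  have h2 := (hasDerivAt_csqrt h).comp (0 : ℂ) h1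
  have h3 := (((hz.const_mul 2).mul hw).const_add c).add
    (h2.mul ((hz.mul_const (om ^ i.val)).add (hw.mul_const (om ^ (2 * i.val)))))
  refine HasDerivAt.congr_deriv h3 ?_
  simp only [dPhi, fou, Function.comp, Pi.add_apply]
  ring

theorem hasDerivAt_E {t : ℂ} {P x y z : ℂ → ℂ} {P' x' y' z' : ℂ} (hP : HasDerivAt P P' 0)
    (hx : HasDerivAt x x' 0) (hy : HasDerivAt y y' 0) (hz : HasDerivAt z z' 0) :
    HasDerivAt (fun s => E t (P s) (x s) (y s) (z s))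
      (dE t (P 0) (x 0) (y 0) (z 0) P' x' y' z') 0 := by
  have h := (hP.mul ((((hx.add_const t).pow 2)).add_const (t ^ 2))).sub
    (((((hx.add_const t).const_mul t)).mul (((hz.pow 2).sub (hx.pow 2)).sub (hy.pow 2))).mul hz)
  refine HasDerivAt.congr_deriv h ?_
  simp only [dE, Pi.mul_apply, Pi.pow_apply, Pi.sub_apply]
  push_cast
  ring

theorem hasDerivAt_Pi3 {a : ℂ → Fin 3 → ℂ} {u : Fin 3 → ℂ}
    (ha : ∀ i, HasDerivAt (fun s => a s i) (u i) 0) :
    HasDerivAt (fun s => Pi3 (a s)) (dPi (a 0) u) 0 := by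
  have h := ((ha 0).mul (ha 1)).mul (ha 2)
  refine HasDerivAt.congr_deriv h ?_
  simp only [dPi, Pi.mul_apply]
  ring

theorem Bt_eq {t : ℂ} {a : Fin 3 → ℂ} (ha : ∀ i, a i ≠ 0) (i : Fin 3) :
    Bt t a i = Pi3 a * Bf t a i := by
  have h0 := ha 0; have h1 := ha 1; have h2 := ha 2
  fin_cases i <;> simp [Bt, Bf, Pi3] <;> field_simp

theorem Dt_eq {t : ℂ} {a : Fin 3 → ℂ} (ha : ∀ i, a i ≠ 0) (i : Fin 3) :
    Dt t a i = Pi3 a * Df t a i := by
  have h0 := ha 0; have h1 := ha 1; have h2 := ha 2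
  fin_cases i <;> simp [Dt, Df, Pi3] <;> field_simp

/-- Derivative along a complex line. -/
theorem line {V : Type} [NormedAddCommGroup V] [NormedSpace ℂ V] {φ : C3 → V} {p : C3}
    (h : DifferentiableAt ℂ φ p) (x : C3) :
    HasDerivAt (fun s : ℂ => φ (p + s • x)) (fderiv ℂ φ p x) 0 := by
  have h1 : HasDerivAt (fun s : ℂ => p + s • x) x 0 := by
    simpa using ((hasDerivAt_id (0 : ℂ)).smul_const x).const_add p
  have h2 : HasFDerivAt φ (fderiv ℂ φ p) (p + (0 : ℂ) • x) := by simpa using h.hasFDerivAt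
  exact h2.comp_hasDerivAt (0 : ℂ) h1

theorem line_ev {p : C3} {Q : C3 → Prop} (h : ∀ᶠ q in 𝓝 p, Q q) (x : C3) :
    ∀ᶠ s : ℂ in 𝓝 0, Q (p + s • x) := by
  have h1 : Tendsto (fun s : ℂ => p + s • x) (𝓝 0) (𝓝 (p + (0 : ℂ) • x)) :=
    (by fun_prop : Continuous fun s : ℂ => p + s • x).tendsto 0
  exact (by simpa using h1 : Tendsto (fun s : ℂ => p + s • x) (𝓝 0) (𝓝 p)).eventually h

theorem dirB {t : ℂ} {β : C3 → Fin 3 → ℂ} {F G : C3 → ℂ} {p : C3} (hβ : DifferentiableAt ℂ β p)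
    (hF : DifferentiableAt ℂ F p) (hG : DifferentiableAt ℂ G p) (j k : Fin 3 → Fin 3)
    (hs : p.2.2 + F p * G p ∈ slitPlane)
    (h : ∀ᶠ q in 𝓝 p, ∀ i, E t (Pi3 (β q)) (β q i) (β q (j i)) (β q (k i)) =
      Pi3 (β q) * Phi (F q, G q, q.2.2) i) (x : C3) (hx : x.2.2 = 0) (i : Fin 3) :
    dE t (Pi3 (β p)) (β p i) (β p (j i)) (β p (k i)) (dPi (β p) (fderiv ℂ β p x))
      (fderiv ℂ β p x i) (fderiv ℂ β p x (j i)) (fderiv ℂ β p x (k i)) =
      dPi (β p) (fderiv ℂ β p x) * Phi (F p, G p, p.2.2) i +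
        Pi3 (β p) * dPhi (F p) (G p) p.2.2 (fderiv ℂ F p x) (fderiv ℂ G p x) i := by
  have ha : ∀ i, HasDerivAt (fun s : ℂ => β (p + s • x) i) (fderiv ℂ β p x i) 0 :=
    hasDerivAt_pi.1 (line hβ x)
  have hP := hasDerivAt_Pi3 ha
  have h1 := hasDerivAt_E (t := t) hP (ha i) (ha (j i)) (ha (k i))
  have h2 := hP.mul (hasDerivAt_Phi (c := p.2.2) (line hF x) (line hG x) (by simpa using hs) i)
  have h3 := h2.congr_of_eventuallyEq (f₁ := fun s : ℂ => E t (Pi3 (β (p + s • x)))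
    (β (p + s • x) i) (β (p + s • x) (j i)) (β (p + s • x) (k i))) (by
      filter_upwards [line_ev h x] with s hs
      rw [hs i]
      simp [hx])
  simpa using h1.unique h3

end G4b

open G4b in
theorem g4b : G4bStmt := by
  intro t c0 f g β hc hf hg f0 g0 hβ hne hB hD
  have hz : ∀ q : C3, DifferentiableAt ℂ (fun q : C3 => q.1) q := fun q => by fun_prop
  have hw : ∀ q : C3, DifferentiableAt ℂ (fun q : C3 => q.2.1) q := fun q => by fun_prop
  have hsl : (c0 : ℂ) ∈ slitPlane := ofReal_mem_slitPlane.2 hc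
  have n1 : ∀ᶠ q in 𝓝 (base c0), ∀ i, β q i ≠ 0 := eventually_all.2 fun i =>
    (((continuous_apply i).continuousAt.comp hβ.continuousAt)).eventually_ne (hne i)
  have n2 : ∀ᶠ q : C3 in 𝓝 (base c0), q.2.2 + q.1 * q.2.1 ∈ slitPlane :=
    (by fun_prop : ContinuousAt (fun q : C3 => q.2.2 + q.1 * q.2.1) (base c0)).eventually_mem
      (isOpen_slitPlane.mem_nhds (by simpa [base] using hsl))
  have n3 : ∀ᶠ q : C3 in 𝓝 (base c0), q.2.2 + f q * g q ∈ slitPlane :=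
    ((by fun_prop : ContinuousAt (fun q : C3 => q.2.2) (base c0)).add
      (hf.continuousAt.mul hg.continuousAt)).eventually_mem
      (isOpen_slitPlane.mem_nhds (by
        change (base c0).2.2 + f (base c0) * g (base c0) ∈ slitPlane
        rw [f0, g0]; simpa [base] using hsl))
  have n4 : ∀ᶠ q : C3 in 𝓝 (base c0), q.2.2 ≠ 0 :=
    (by fun_prop : ContinuousAt (fun q : C3 => q.2.2) (base c0)).eventually_ne
      (by simpa [base] using hc.ne')
  have eB : ∀ᶠ q in 𝓝 (base c0), ∀ i, Bt (t : ℂ) (β q) i = Pi3 (β q) * Phi (q.1, q.2.1, q.2.2) i := by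
    filter_upwards [n1, hB] with q h1 h2 i
    rw [Bt_eq h1, h2]
  have eD : ∀ᶠ q in 𝓝 (base c0), ∀ i, Dt (t : ℂ) (β q) i = Pi3 (β q) * Phi (f q, g q, q.2.2) i := by
    filter_upwards [n1, hD] with q h1 h2 i
    rw [Dt_eq h1, h2]
  filter_upwards [n1, n2, n3, n4, eB.eventually_nhds, eD.eventually_nhds,
    hf.eventually_analyticAt, hg.eventually_analyticAt, hβ.eventually_analyticAt]
    with p p1 p2 p3 p4 pB pD af ag aβ
  have kB := dirB (t := t) aβ.differentiableAt (hz p) (hw p) (· + 1) (· + 2) p2 pB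
  have kD := dirB (t := t) aβ.differentiableAt af.differentiableAt ag.differentiableAt
    (· + 2) (· + 1) p3 pD
  have id := ident t (β p) (fderiv ℂ β p (1, 0, 0)) (fderiv ℂ β p (0, 1, 0))
  have b0 : Bt (t : ℂ) (β p) = _ := funext pB.self_of_nhds
  have b1 : dBt t (β p) (fderiv ℂ β p (1, 0, 0)) = _ := funext (kB (1, 0, 0) rfl)
  have b2 : dBt t (β p) (fderiv ℂ β p (0, 1, 0)) = _ := funext (kB (0, 1, 0) rfl)
  have c0' : Dt (t : ℂ) (β p) = _ := funext pD.self_of_nhds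
  have c1 : dDt t (β p) (fderiv ℂ β p (1, 0, 0)) = _ := funext (kD (1, 0, 0) rfl)
  have c2 : dDt t (β p) (fderiv ℂ β p (0, 1, 0)) = _ := funext (kD (0, 1, 0) rfl)
  rw [b0, b1, b2, c0', c1, c2, det3_scale, det3_scale, her_scale, her_scale,
    det3_Phi (slitPlane_ne_zero p2), det3_Phi (slitPlane_ne_zero p3),
    herB_Phi (slitPlane_ne_zero p2), herB_Phi (slitPlane_ne_zero p2)] at id
  have fz : fderiv ℂ (fun q : C3 => q.1) p = ContinuousLinearMap.fst ℂ ℂ (ℂ × ℂ) := fderiv_fst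
  have fw : fderiv ℂ (fun q : C3 => q.2.1) p =
      (ContinuousLinearMap.fst ℂ ℂ ℂ).comp (ContinuousLinearMap.snd ℂ ℂ (ℂ × ℂ)) :=
    ((ContinuousLinearMap.fst ℂ ℂ ℂ).comp (ContinuousLinearMap.snd ℂ ℂ (ℂ × ℂ))).fderiv
  rw [fz, fw] at id
  have hP : Pi3 (β p) ≠ 0 := mul_ne_zero (mul_ne_zero (p1 0) (p1 1)) (p1 2)
  have hom : 1 + 2 * om ≠ 0 := by
    rw [om_delta]
    exact mul_ne_zero I_ne_zero (ofReal_ne_zero.2 (by positivity))
  have key : (Pi3 (β p) ^ 3 * (-6 * (1 + 2 * om)) * p.2.2 ^ 2) * (jacC f g p - 1) = 0 := by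
    simp only [ContinuousLinearMap.coe_fst', ContinuousLinearMap.comp_apply,
      ContinuousLinearMap.coe_snd'] at id
    simp only [jacC, d1, d2]
    linear_combination id
  have hne' : Pi3 (β p) ^ 3 * (-6 * (1 + 2 * om)) * p.2.2 ^ 2 ≠ 0 :=
    mul_ne_zero (mul_ne_zero (pow_ne_zero _ hP) (mul_ne_zero (by norm_num) hom)) (pow_ne_zero _ p4)
  exact sub_eq_zero.1 ((mul_eq_zero.1 key).resolve_left hne')

end Pool.Agent.MP_62f0b1_an.AE
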