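import Mathlib.Tactic.Monotonicity.Lemmas
import Mathlib.Analysis.Complex.Liouville
import Mathlib.Analysis.Calculus.Deriv.Prod
import Mathlib.Analysis.Complex.Schwarz
import Mathlib.RingTheory.SimpleRing.Principal
import Pool.Agent.MP_62f0b1_an.ae.Asm

-- ======== part 0: formerly Pool.Agent.MP_62f0b1_an.ae.K2_1
section MrgPart0

/-!
Tools for the Newton step: strips, periodic holomorphic functions, Cauchy and Taylor estimates.
-/

set_option autoImplicit false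

noncomputable section

namespace Pool.Agent.MP_62f0b1_an.AE

open Complex Filter Topology Set MeasureTheory
open scoped ComplexConjugate

namespace K2

theorem isOpen_strip (ρ : ℝ) : IsOpen (Strip ρ) :=
  isOpen_lt (continuous_abs.comp Complex.continuous_im) continuous_const

theorem add_mem {ρ : ℝ} {x : ℂ} (hx : x ∈ Strip ρ) (w : ℝ) : x + w ∈ Strip ρ := by
  simpa [Strip] using hx

theorem sub_mem {ρ : ℝ} {x : ℂ} (hx : x ∈ Strip ρ) (w : ℝ) : x - w ∈ Strip ρ := by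
  simpa [Strip] using hx

theorem real_mem {ρ : ℝ} (h : 0 < ρ) (x : ℝ) : (x : ℂ) ∈ Strip ρ := by
  simpa [Strip] using h

theorem strip_mono {ρ ρ' : ℝ} (h : ρ' ≤ ρ) : Strip ρ' ⊆ Strip ρ :=
  fun _ hx => lt_of_lt_of_le hx h

theorem im_deriv {f : ℂ → ℂ} {x : ℝ} {f' : ℂ} (hf : HasDerivAt f f' x)
    (hr : ∀ᶠ t : ℝ in 𝓝 x, (f t).im = 0) : f'.im = 0 := by
  have h1 : HasDerivAt (fun t : ℝ => f t) f' x := hf.comp_ofReal
  have h2 : HasDerivAt (fun t : ℝ => (f t).im) f'.im x :=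
    Complex.imCLM.hasFDerivAt.comp_hasDerivAt x h1
  have h3 : HasDerivAt (fun t : ℝ => (f t).im) 0 x :=
    (hasDerivAt_const x (0 : ℝ)).congr_of_eventuallyEq hr
  exact h2.unique h3

theorem ph_at {ρ : ℝ} {f : ℂ → ℂ} (hf : PerHol ρ f) {x : ℂ} (hx : x ∈ Strip ρ) :
    DifferentiableAt ℂ f x :=
  hf.diff.differentiableAt ((isOpen_strip ρ).mem_nhds hx)

theorem ph_mono {ρ ρ' : ℝ} {f : ℂ → ℂ} (hf : PerHol ρ f) (h : ρ' ≤ ρ) : PerHol ρ' f :=
  ⟨hf.diff.mono (strip_mono h), fun x hx => hf.per x (strip_mono h hx), hf.real⟩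

theorem ph_shift {ρ : ℝ} {f : ℂ → ℂ} (hf : PerHol ρ f) (w : ℝ) :
    PerHol ρ (fun x => f (x + w)) := by
  refine ⟨fun x hx => ?_, fun x hx => ?_, fun x => ?_⟩
  · exact ((ph_at hf (add_mem hx w)).comp x
      (differentiableAt_id.add_const (w : ℂ))).differentiableWithinAt
  · rw [← hf.per _ (add_mem hx w)]; congr 1; ring
  · have := hf.real (x + w); push_cast at this; exact this

theorem ph_shift' {ρ : ℝ} {f : ℂ → ℂ} (hf : PerHol ρ f) (w : ℝ) :
    PerHol ρ (fun x => f (x - w)) := by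
  have := ph_shift hf (-w)
  simpa [sub_eq_add_neg] using this

theorem ph_const (ρ : ℝ) {c : ℂ} (hc : c.im = 0) : PerHol ρ (fun _ => c) :=
  ⟨differentiableOn_const c, fun _ _ => rfl, fun _ => hc⟩

theorem ph_add {ρ : ℝ} {f g : ℂ → ℂ} (hf : PerHol ρ f) (hg : PerHol ρ g) :
    PerHol ρ (fun x => f x + g x) :=
  ⟨hf.diff.add hg.diff, fun x hx => by rw [hf.per x hx, hg.per x hx],
    fun x => by simp [hf.real x, hg.real x]⟩

theorem ph_sub {ρ : ℝ} {f g : ℂ → ℂ} (hf : PerHol ρ f) (hg : PerHol ρ g) :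
    PerHol ρ (fun x => f x - g x) :=
  ⟨hf.diff.sub hg.diff, fun x hx => by rw [hf.per x hx, hg.per x hx],
    fun x => by simp [hf.real x, hg.real x]⟩

theorem ph_mul {ρ : ℝ} {f g : ℂ → ℂ} (hf : PerHol ρ f) (hg : PerHol ρ g) :
    PerHol ρ (fun x => f x * g x) :=
  ⟨hf.diff.mul hg.diff, fun x hx => by rw [hf.per x hx, hg.per x hx],
    fun x => by simp [hf.real x, hg.real x]⟩

theorem ph_inv {ρ : ℝ} {f : ℂ → ℂ} (hf : PerHol ρ f) (h0 : ∀ x ∈ Strip ρ, f x ≠ 0) :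
    PerHol ρ (fun x => (f x)⁻¹) :=
  ⟨hf.diff.inv h0, fun x hx => by rw [hf.per x hx], fun x => by simp [hf.real x]⟩

theorem ph_deriv {ρ : ℝ} (hρ : 0 < ρ) {f : ℂ → ℂ} (hf : PerHol ρ f) : PerHol ρ (deriv f) := by
  refine ⟨hf.diff.deriv (isOpen_strip ρ), fun x hx => ?_, fun x => ?_⟩
  · rw [← deriv_comp_add_const]
    apply Filter.EventuallyEq.deriv_eq
    filter_upwards [(isOpen_strip ρ).mem_nhds hx] with y hy using hf.per y hy
  · exact im_deriv (ph_at hf (real_mem hρ x)).hasDerivAt (Eventually.of_forall hf.real)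

theorem ph_cont {ρ : ℝ} (hρ : 0 < ρ) {f : ℂ → ℂ} (hf : PerHol ρ f) :
    Continuous (fun θ : ℝ => f θ) :=
  hf.diff.continuousOn.comp_continuous Complex.continuous_ofReal (real_mem hρ)

theorem ph_re {ρ : ℝ} {f : ℂ → ℂ} (hf : PerHol ρ f) (x : ℝ) : (((f x).re : ℝ) : ℂ) = f x := by
  apply Complex.ext <;> simp [hf.real x]

theorem ph_int_im {ρ : ℝ} {f : ℂ → ℂ} (hf : PerHol ρ f) :
    (∫ θ in (0 : ℝ)..2 * Real.pi, f θ).im = 0 := by
  have : (fun θ : ℝ => f θ) = fun θ : ℝ => (((f θ).re : ℝ) : ℂ) :=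
    funext fun θ => (ph_re hf θ).symm
  rw [this, intervalIntegral.integral_ofReal, Complex.ofReal_im]

theorem ph_int_shift {ρ : ℝ} (hρ : 0 < ρ) {f : ℂ → ℂ} (hf : PerHol ρ f) (w : ℝ) :
    ∫ θ in (0 : ℝ)..2 * Real.pi, f (θ + w) = ∫ θ in (0 : ℝ)..2 * Real.pi, f θ := by
  have hp : Function.Periodic (fun θ : ℝ => f θ) (2 * Real.pi) := fun θ => by
    have := hf.per θ (real_mem hρ θ)
    simp only []
    push_cast
    exact this
  have h1 := intervalIntegral.integral_comp_add_right (a := 0) (b := 2 * Real.pi)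
    (fun θ : ℝ => f θ) w
  have h2 := hp.intervalIntegral_add_eq w 0
  push_cast at h1
  rw [h1, zero_add, add_comm, h2, zero_add]

theorem cauchy {ρ d M : ℝ} {f : ℂ → ℂ} (hd : 0 < d) (hf : DifferentiableOn ℂ f (Strip ρ))
    (hM : ∀ x ∈ Strip ρ, ‖f x‖ ≤ M) {x : ℂ} (hx : x ∈ Strip (ρ - d)) : ‖deriv f x‖ ≤ M / d := by
  have hs : Metric.closedBall x d ⊆ Strip ρ := by
    intro z hz
    have h1 : |(z - x).im| ≤ d := (Complex.abs_im_le_norm _).trans (by simpa [dist_eq_norm] using hz)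
    have h2 : |x.im| < ρ - d := hx
    have h3 : |z.im| ≤ |(z - x).im| + |x.im| := by
      have : z.im = (z - x).im + x.im := by simp
      conv_lhs => rw [this]
      exact abs_add_le _ _
    show |z.im| < ρ
    linarith
  refine Complex.norm_deriv_le_of_forall_mem_sphere_norm_le hd ?_
    (fun z hz => hM z (hs (Metric.sphere_subset_closedBall hz)))
  exact (hf.mono hs).diffContOnCl_ball subset_rfl

theorem taylor1 {g : ℂ → ℂ} {R M : ℝ} (hR : 1 < R) (hg : DifferentiableOn ℂ g (Metric.ball 0 R))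
    (hM : ∀ z ∈ Metric.ball (0 : ℂ) R, ‖g z‖ ≤ M) : ‖g 1 - g 0 - deriv g 0‖ ≤ 4 * M / R ^ 2 := by
  have hR0 : 0 < R := by linarith
  have h0 : (0 : ℂ) ∈ Metric.ball (0 : ℂ) R := Metric.mem_ball_self hR0
  have h1 : (1 : ℂ) ∈ Metric.ball (0 : ℂ) R := by simpa using hR
  have ha : ∀ z ∈ Metric.ball (0 : ℂ) R, ‖dslope g 0 z‖ ≤ 2 * M / R := fun z hz =>
    Complex.norm_dslope_le_div_of_mapsTo_ball hg (fun y hy => by
      rw [mem_closedBall_iff_norm]
      have := norm_sub_le (g y) (g 0)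
      linarith [hM y hy, hM 0 h0]) hz
  have hb : DifferentiableOn ℂ (dslope g 0) (Metric.ball 0 R) :=
    (Complex.differentiableOn_dslope (Metric.ball_mem_nhds 0 hR0)).2 hg
  have hc := Complex.dist_le_div_mul_dist_of_mapsTo_ball (R₂ := 4 * M / R) hb (fun y hy => by
      rw [mem_closedBall_iff_norm]
      have := norm_sub_le (dslope g 0 y) (dslope g 0 0)
      have e : 4 * M / R = 2 * M / R + 2 * M / R := by ring
      linarith [ha y hy, ha 0 h0]) h1
  rw [dist_eq_norm, dslope_same, dslope_of_ne _ one_ne_zero, slope_def_field] at hc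
  have e : 4 * M / R / R * dist (1 : ℂ) 0 = 4 * M / R ^ 2 := by
    simp; field_simp
  rw [e] at hc
  simpa using hc

/-- The region in which the curves lie. -/
def core : Set (ℂ × ℂ) := {p | |p.1.im| ≤ 5 / 8 ∧ ‖p.2‖ ≤ 1 / 4}

theorem isOpen_domL : IsOpen domL := (isOpen_strip 1).prod Metric.isOpen_ball

theorem add_mem_domL {p h : ℂ × ℂ} (hp : p ∈ core) (h1 : ‖h.1‖ ≤ 1 / 4) (h2 : ‖h.2‖ ≤ 1 / 2) :
    p + h ∈ domL := by
  refine ⟨?_, ?_⟩
  · show |(p.1 + h.1).im| < 1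
    have := abs_add_le p.1.im h.1.im
    have h3 := Complex.abs_im_le_norm h.1
    rw [Complex.add_im]
    linarith [hp.1]
  · show p.2 + h.2 ∈ Metric.ball (0 : ℂ) 1
    rw [mem_ball_zero_iff]
    have := norm_add_le p.2 h.2
    linarith [hp.2]

theorem core_sub {p : ℂ × ℂ} (hp : p ∈ core) : p ∈ domL := by
  simpa using add_mem_domL (h := 0) hp (by simp) (by simp)

theorem line_deriv {F : ℂ × ℂ → ℂ} {p h : ℂ × ℂ} {t : ℂ}
    (hF : DifferentiableAt ℂ F (p + t • h)) :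
    HasDerivAt (fun τ : ℂ => F (p + τ • h)) (fderiv ℂ F (p + t • h) h) t := by
  have h1 : HasDerivAt (fun τ : ℂ => p + τ • h) h t := by
    simpa using ((hasDerivAt_id t).smul_const h).const_add p
  exact hF.hasFDerivAt.comp_hasDerivAt t h1

theorem taylor2 {F : ℂ × ℂ → ℂ} {δ N : ℝ} (hF : AnalyticOnNhd ℂ F domL)
    (hb : ∀ p ∈ domL, ‖F p‖ ≤ δ) (hδ : δ ≤ 1 / 100) {p h : ℂ × ℂ} (hp : p ∈ core)
    (h1 : ‖h.1‖ ≤ N) (h2 : ‖h.2‖ ≤ 2 * N) (hN : N ≤ 1 / 16) :
    ‖F (p + h) - F p - fderiv ℂ F p h‖ ≤ N ^ 2 := by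
  have hN0 : 0 ≤ N := (norm_nonneg _).trans h1
  rcases hN0.eq_or_lt with rfl | hN0
  · have : h = 0 := Prod.ext (norm_le_zero_iff.1 h1) (norm_le_zero_iff.1 (by simpa using h2))
    simp [this]
  have hm : ∀ z ∈ Metric.ball (0 : ℂ) (1 / (4 * N)), p + z • h ∈ domL := by
    intro z hz
    rw [mem_ball_zero_iff, lt_div_iff₀ (by positivity)] at hz
    have hz0 := norm_nonneg z
    refine add_mem_domL hp ?_ ?_
    · show ‖z * h.1‖ ≤ _
      rw [norm_mul]; nlinarith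
    · show ‖z * h.2‖ ≤ _
      rw [norm_mul]; nlinarith
  have hR : 1 < 1 / (4 * N) := by rw [lt_div_iff₀ (by positivity)]; linarith
  have ht := taylor1 (g := fun τ : ℂ => F (p + τ • h)) hR
    (fun z hz => (line_deriv (hF _ (hm z hz)).differentiableAt).differentiableAt.differentiableWithinAt)
    (fun z hz => hb _ (hm z hz))
  have hd : deriv (fun τ : ℂ => F (p + τ • h)) 0 = fderiv ℂ F p h := by
    have := (line_deriv (t := 0) (h := h) (p := p) (F := F)
      (by simpa using (hF _ (core_sub hp)).differentiableAt)).deriv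
    simpa using this
  rw [hd] at ht
  simp only [one_smul, zero_smul, add_zero] at ht
  refine ht.trans ?_
  have e : 4 * δ / (1 / (4 * N)) ^ 2 = 64 * δ * N ^ 2 := by field_simp; ring
  rw [e]
  nlinarith [sq_nonneg N]

theorem ds_bound {F : ℂ × ℂ → ℂ} {δ : ℝ} (hF : AnalyticOnNhd ℂ F domL)
    (hb : ∀ p ∈ domL, ‖F p‖ ≤ δ) (hδ : δ ≤ 1 / 100) {p : ℂ × ℂ} (hp : p ∈ core) :
    ‖fderiv ℂ F p (0, 1)‖ ≤ 1 / 50 := by
  have hm : ∀ z ∈ Metric.closedBall (0 : ℂ) (1 / 2), p + z • ((0, 1) : ℂ × ℂ) ∈ domL := by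
    intro z hz
    rw [mem_closedBall_zero_iff] at hz
    exact add_mem_domL hp (by simp) (by simpa using hz)
  have hd : deriv (fun τ : ℂ => F (p + τ • ((0, 1) : ℂ × ℂ))) 0 = fderiv ℂ F p (0, 1) := by
    have := (line_deriv (t := 0) (h := (0, 1)) (p := p) (F := F)
      (by simpa using (hF _ (core_sub hp)).differentiableAt)).deriv
    simpa only [zero_smul, add_zero] using this
  have hdiff : DifferentiableOn ℂ (fun τ : ℂ => F (p + τ • ((0, 1) : ℂ × ℂ)))
      (Metric.closedBall 0 (1 / 2)) := fun z hz =>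
    (line_deriv (hF _ (hm z hz)).differentiableAt).differentiableAt.differentiableWithinAt
  have := Complex.norm_deriv_le_of_forall_mem_sphere_norm_le (c := 0) (R := 1 / 2) (C := δ)
    (by norm_num) (hdiff.diffContOnCl_ball subset_rfl)
    (fun z hz => hb _ (hm z (Metric.sphere_subset_closedBall hz)))
  rw [hd] at this
  linarith

/-- Analytic on the domain, periodic in the angle, real on real points. -/
structure Good (F : ℂ × ℂ → ℂ) : Prop where
  an : AnalyticOnNhd ℂ F domL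
  per : ∀ p ∈ domL, F (p.1 + 2 * Real.pi, p.2) = F p
  real : ∀ x s : ℝ, |s| < 1 → (F (x, s)).im = 0

theorem Good.ds {F : ℂ × ℂ → ℂ} (hF : Good F) : Good (fun p => fderiv ℂ F p (0, 1)) := by
  refine ⟨fun p hp => ?_, fun p hp => ?_, fun x s hs => ?_⟩
  · exact ((ContinuousLinearMap.apply ℂ ℂ ((0, 1) : ℂ × ℂ)).analyticAt _).comp (hF.an.fderiv p hp)
  · have e : ((p.1 + 2 * Real.pi, p.2) : ℂ × ℂ) = p + ((2 * Real.pi : ℂ), (0 : ℂ)) := by
      ext <;> simp
    rw [e, ← fderiv_comp_add_right]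
    congr 1
    apply Filter.EventuallyEq.fderiv_eq
    filter_upwards [isOpen_domL.mem_nhds hp] with q hq
    rw [← hF.per q hq]
    congr 1
    ext <;> simp
  · have hm : ((x : ℂ), (s : ℂ)) ∈ domL :=
      ⟨real_mem one_pos x, by simpa [mem_ball_zero_iff] using hs⟩
    have h1 : HasDerivAt (fun t : ℂ => ((x : ℂ), t)) (0, 1) (s : ℂ) :=
      (hasDerivAt_const _ _).prodMk (hasDerivAt_id _)
    have h2 := (hF.an _ hm).differentiableAt.hasFDerivAt.comp_hasDerivAt (s : ℂ) h1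
    refine im_deriv h2 ?_
    have : {t : ℝ | |t| < 1} ∈ 𝓝 s :=
      (isOpen_lt continuous_abs continuous_const).mem_nhds hs
    filter_upwards [this] with t ht using hF.real x t ht

theorem fderiv_pair (F : ℂ × ℂ → ℂ) (p : ℂ × ℂ) (a b : ℂ) :
    fderiv ℂ F p (a, b) = a * fderiv ℂ F p (1, 0) + b * fderiv ℂ F p (0, 1) := by
  have e : ((a, b) : ℂ × ℂ) = a • ((1, 0) : ℂ × ℂ) + b • ((0, 1) : ℂ × ℂ) := by
    ext <;> simp
  rw [e, map_add, map_smul, map_smul, smul_eq_mul, smul_eq_mul]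

end K2

end Pool.Agent.MP_62f0b1_an.AE

end
end MrgPart0

-- ======== part 1: formerly Pool.Agent.MP_62f0b1_an.ae.K2_2
section MrgPart1

/-!
The error function of the invariance equation: derivative, mean value and linearisation.
-/

set_option autoImplicit false

noncomputable section

namespace Pool.Agent.MP_62f0b1_an.AE

open Complex Filter Topology Set MeasureTheory
open scoped ComplexConjugate

namespace K2

def P (η w : ℝ) (φ : ℂ → ℂ) (x : ℂ) : ℂ × ℂ := (uL η φ x, sL w φ x)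
def L (η : ℝ) (φ : ℂ → ℂ) (x : ℂ) : ℂ := 1 + η * deriv φ x
def GH (η w : ℝ) (F : ℂ × ℂ → ℂ) (φ : ℂ → ℂ) (x : ℂ) : ℂ := sL w φ x + F (P η w φ x)
def kap (η w : ℝ) (F : ℂ × ℂ → ℂ) (φ : ℂ → ℂ) (x : ℂ) : ℂ :=
  1 + fderiv ℂ F (P η w φ x) (0, 1)

/-- The standing assumptions on the approximate solution. -/
structure Ctx (η ρ : ℝ) (φ : ℂ → ℂ) : Prop where
  η0 : 0 < η
  η1 : η ≤ 1
  ρ0 : 0 < ρ
  ρ1 : ρ ≤ 1 / 2
  ph : PerHol ρ φ
  bd : ∀ x ∈ Strip ρ, ‖φ x‖ ≤ 1 / 8 ∧ ‖deriv φ x‖ ≤ 1 / 8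

variable {η w δ ρ : ℝ} {φ : ℂ → ℂ} {A B F : ℂ × ℂ → ℂ}

theorem errL_eq (x : ℂ) : errL η w A B φ x = GH η w B φ (x - w) - GH η w A φ x := by
  simp only [errL, GH, P]; ring

theorem P_core (c : Ctx η ρ φ) {x : ℂ} (hx : x ∈ Strip ρ) : P η w φ x ∈ core := by
  have h1 := (c.bd x hx).1
  have h2 := (c.bd _ (add_mem hx w)).1
  refine ⟨?_, ?_⟩
  · show |(x + η * φ x).im| ≤ 5 / 8
    have h3 : |x.im| < ρ := hx
    have h4 : |((η : ℂ) * φ x).im| ≤ 1 / 8 := by
      refine (Complex.abs_im_le_norm _).trans ?_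
      rw [norm_mul, Complex.norm_real, Real.norm_of_nonneg c.η0.le]
      nlinarith [c.η0, c.η1, norm_nonneg (φ x)]
    have := abs_add_le x.im ((η : ℂ) * φ x).im
    rw [Complex.add_im]
    linarith [c.ρ1]
  · show ‖φ (x + w) - φ x‖ ≤ 1 / 4
    have := norm_sub_le (φ (x + w)) (φ x)
    linarith

theorem L_near (c : Ctx η ρ φ) {x : ℂ} (hx : x ∈ Strip ρ) : ‖L η φ x - 1‖ ≤ 1 / 8 := by
  have h1 := (c.bd x hx).2
  have : L η φ x - 1 = η * deriv φ x := by simp [L]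
  rw [this, norm_mul, Complex.norm_real, Real.norm_of_nonneg c.η0.le]
  nlinarith [c.η0, c.η1, norm_nonneg (deriv φ x)]

theorem ph_L (c : Ctx η ρ φ) : PerHol ρ (L η φ) :=
  ph_add (ph_const ρ (c := 1) (by simp))
    (ph_mul (ph_const ρ (c := (η : ℂ)) (by simp)) (ph_deriv c.ρ0 c.ph))

theorem ph_s (c : Ctx η ρ φ) : PerHol ρ (sL w φ) := ph_sub (ph_shift c.ph w) c.ph

theorem s_deriv (c : Ctx η ρ φ) {x : ℂ} (hx : x ∈ Strip ρ) :
    HasDerivAt (sL w φ) (deriv φ (x + w) - deriv φ x) x :=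
  ((ph_at c.ph (add_mem hx w)).hasDerivAt.comp_add_const x (w : ℂ)).sub
    (ph_at c.ph hx).hasDerivAt

theorem P_deriv (c : Ctx η ρ φ) {x : ℂ} (hx : x ∈ Strip ρ) :
    HasDerivAt (P η w φ) (L η φ x, deriv φ (x + w) - deriv φ x) x := by
  have h1 : HasDerivAt (uL η φ) (L η φ x) x :=
    (hasDerivAt_id x).add ((ph_at c.ph hx).hasDerivAt.const_mul (η : ℂ))
  exact h1.prodMk (s_deriv c hx)

theorem ph_comp (c : Ctx η ρ φ) (hF : Good F) : PerHol ρ (fun x => F (P η w φ x)) := by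
  refine ⟨fun x hx => ?_, fun x hx => ?_, fun x => ?_⟩
  · exact ((hF.an _ (core_sub (P_core c hx))).differentiableAt.comp x
      (P_deriv c hx).differentiableAt).differentiableWithinAt
  · rw [← hF.per _ (core_sub (P_core (w := w) c hx))]
    congr 1
    refine Prod.ext ?_ ((ph_s c).per x hx)
    show uL η φ (x + 2 * Real.pi) = uL η φ x + 2 * Real.pi
    simp only [uL]
    rw [c.ph.per x hx]; ring
  · have hs := ph_re (ph_s (w := w) c) x
    have hu : ((x + η * (φ x).re : ℝ) : ℂ) = uL η φ x := by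
      simp only [uL]; push_cast; rw [ph_re c.ph x]
    have hb : |(sL w φ x).re| < 1 := by
      have h1 := (P_core (w := w) c (real_mem c.ρ0 x)).2
      have h2 := Complex.abs_re_le_norm (sL w φ x)
      have h3 : ‖sL w φ x‖ ≤ 1 / 4 := h1
      linarith
    have := hF.real (x + η * (φ x).re) _ hb
    rw [hu, hs] at this
    exact this

theorem ph_GH (c : Ctx η ρ φ) (hF : Good F) : PerHol ρ (GH η w F φ) :=
  ph_add (ph_s c) (ph_comp c hF)

theorem ph_kap (c : Ctx η ρ φ) (hF : Good F) : PerHol ρ (kap η w F φ) :=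
  ph_add (ph_const ρ (c := 1) (by simp)) (ph_comp c hF.ds)

theorem goodA (h : LData η δ A B) : Good A :=
  ⟨h.anA, fun p hp => (h.per p hp).1, fun x s hs => (h.real x s hs).1⟩

theorem goodB (h : LData η δ A B) : Good B :=
  ⟨h.anB, fun p hp => (h.per p hp).2, fun x s hs => (h.real x s hs).2⟩

theorem ph_err (c : Ctx η ρ φ) (h : LData η δ A B) : PerHol ρ (errL η w A B φ) := by
  have : errL η w A B φ = fun x => GH η w B φ (x - w) - GH η w A φ x := funext errL_eq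
  rw [this]
  exact ph_sub (ph_shift' (ph_GH c (goodB h)) w) (ph_GH c (goodA h))

theorem GH_deriv (c : Ctx η ρ φ) (hF : Good F) {x : ℂ} (hx : x ∈ Strip ρ) :
    HasDerivAt (GH η w F φ) (L η φ x * fderiv ℂ F (P η w φ x) (1, 0) +
      (deriv φ (x + w) - deriv φ x) * kap η w F φ x) x := by
  have h1 := (hF.an _ (core_sub (P_core (w := w) c hx))).differentiableAt.hasFDerivAt.comp_hasDerivAt
    x (P_deriv c hx)
  have h2 := (s_deriv (w := w) c hx).add h1
  refine HasDerivAt.congr_deriv (f := GH η w F φ) h2 ?_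
  rw [fderiv_pair F _ (L η φ x), kap]; ring

theorem mean_zero (c : Ctx η ρ φ) (h : LData η δ A B) :
    ∫ θ in (0 : ℝ)..2 * Real.pi, L η φ θ * errL η w A B φ θ = 0 := by
  set f : ℝ → ℝ := fun θ => (φ θ).re with hf
  have hfc : ∀ θ : ℝ, ((f θ : ℝ) : ℂ) = φ θ := ph_re c.ph
  have hfd : ∀ θ : ℝ, HasDerivAt f (deriv φ θ).re θ := fun θ =>
    (ph_at c.ph (real_mem c.ρ0 θ)).hasDerivAt.real_of_complex
  have hf1 : ContDiff ℝ 1 f := contDiff_iff_contDiffAt.2 fun θ =>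
    (c.ph.diff.analyticAt
      ((isOpen_strip ρ).mem_nhds (real_mem c.ρ0 θ))).contDiffAt.real_of_complex
  have hfp : ∀ θ : ℝ, f (θ + 2 * Real.pi) = f θ := fun θ => by
    have := c.ph.per θ (real_mem c.ρ0 θ)
    simp only [hf]; push_cast; rw [this]
  have hs : ∀ θ : ℝ, ((f (θ + w) - f θ : ℝ) : ℂ) = sL w φ θ := fun θ => by
    push_cast; rw [hfc, hfc]; push_cast; rfl
  have hu : ∀ θ : ℝ, ((θ + η * f θ : ℝ) : ℂ) = uL η φ θ := fun θ => by
    push_cast; rw [hfc]; rfl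
  have hfl := h.flux (fun θ => θ + η * f θ) (fun θ => f (θ + w) - f θ)
    (contDiff_id.add (contDiff_const.mul hf1))
    ((hf1.comp (contDiff_id.add contDiff_const)).sub hf1)
    (fun θ => by rw [hfp]; ring)
    (fun θ => by rw [hfp, add_right_comm, hfp])
    (fun θ => by
      have h3 : ‖sL w φ θ‖ ≤ 1 / 4 := (P_core (w := w) c (real_mem c.ρ0 θ)).2
      rw [← hs, Complex.norm_real, Real.norm_eq_abs] at h3
      linarith)
  have hdu : ∀ θ : ℝ, deriv (fun θ => θ + η * f θ) θ = 1 + η * (deriv φ θ).re := fun θ =>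
    ((hasDerivAt_id θ).add ((hfd θ).const_mul η)).deriv
  have hds : ∀ θ : ℝ, deriv (fun θ => f (θ + w) - f θ) θ =
      (deriv φ (θ + w : ℝ)).re - (deriv φ θ).re := fun θ =>
    (((hfd (θ + w)).comp_add_const θ w).sub (hfd θ)).deriv
  have hB := ph_GH (w := w) c (goodB h)
  have hA := ph_GH (w := w) c (goodA h)
  have hL := ph_L c
  have e1 : ∫ θ in (0 : ℝ)..2 * Real.pi,
      (L η φ (θ + w) * GH η w B φ θ - L η φ θ * GH η w A φ θ) = 0 := by
    have h0 := congrArg (fun r : ℝ => (r : ℂ)) hfl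
    simp only [← intervalIntegral.integral_ofReal, Complex.ofReal_zero] at h0
    rw [← h0]
    refine intervalIntegral.integral_congr fun θ _ => ?_
    rw [hdu, hds, hu, hs]
    have a1 := ph_re (ph_comp (w := w) c (goodA h)) θ
    have a2 := ph_re (ph_comp (w := w) c (goodB h)) θ
    have a3 := ph_re (ph_deriv c.ρ0 c.ph) θ
    have a4 := ph_re (ph_deriv c.ρ0 c.ph) (θ + w)
    have a5 := hs θ
    simp only [P] at a1 a2
    push_cast at a4 a5 ⊢
    rw [a1, a2, a3, a4, a5]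
    simp only [L, GH, P]
    ring
  have e2 := ph_int_shift c.ρ0 (ph_mul hL (ph_shift' hB w)) w
  simp only [add_sub_cancel_right] at e2
  have i1 := (ph_cont c.ρ0 (ph_mul hL (ph_shift' hB w))).intervalIntegrable (μ := volume) 0
    (2 * Real.pi)
  have i2 := (ph_cont c.ρ0 (ph_mul hL hA)).intervalIntegrable (μ := volume) 0 (2 * Real.pi)
  have i3 := (ph_cont c.ρ0 (ph_mul (ph_shift hL w) hB)).intervalIntegrable (μ := volume) 0
    (2 * Real.pi)
  rw [intervalIntegral.integral_sub i3 i2, e2, ← intervalIntegral.integral_sub i1 i2] at e1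
  rw [← e1]
  refine intervalIntegral.integral_congr fun θ _ => ?_
  simp only [errL_eq]; ring

theorem kap_near (c : Ctx η ρ φ) (h : LData η δ A B) (hδ : δ ≤ 1 / 100) {x : ℂ}
    (hx : x ∈ Strip ρ) : ‖kap η w A φ x - 1‖ ≤ 1 / 50 := by
  have := ds_bound h.anA (fun p hp => (h.bound p hp).1) hδ (P_core (w := w) c hx)
  simpa [kap] using this

/-- The increment of the point `P` in the direction `ψ`. -/
def dP (η w : ℝ) (ψ : ℂ → ℂ) (x : ℂ) : ℂ × ℂ := (η * ψ x, ψ (x + w) - ψ x)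

/-- The Taylor remainder. -/
def rem (η w : ℝ) (F : ℂ × ℂ → ℂ) (φ ψ : ℂ → ℂ) (x : ℂ) : ℂ :=
  F (P η w φ x + dP η w ψ x) - F (P η w φ x) - fderiv ℂ F (P η w φ x) (dP η w ψ x)

theorem GH_add (ψ : ℂ → ℂ) (x : ℂ) :
    GH η w F (fun y => φ y + ψ y) x = GH η w F φ x +
      η * ψ x * fderiv ℂ F (P η w φ x) (1, 0) + (ψ (x + w) - ψ x) * kap η w F φ x +
      rem η w F φ ψ x := by
  have e : P η w (fun y => φ y + ψ y) x = P η w φ x + dP η w ψ x := by
    ext <;> simp [P, dP, uL, sL] <;> ring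
  simp only [GH, rem, kap]
  rw [e, dP, fderiv_pair F _ (η * ψ x)]
  simp only [sL]
  ring

/-- The new error after the Newton correction `L v`. -/
theorem new_err (c : Ctx η ρ φ) (h : LData η δ A B) (v : ℂ → ℂ) {x : ℂ} (hx : x ∈ Strip ρ)
    (hv : kap η w A φ x * L η φ x * L η φ (x + w) * (v (x + w) - v x) -
      kap η w A φ (x - w) * L η φ (x - w) * L η φ x * (v x - v (x - w)) =
        L η φ x * errL η w A B φ x) :
    errL η w A B (fun y => φ y + L η φ y * v y) x = η * v x * deriv (errL η w A B φ) x +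
      rem η w B φ (fun y => L η φ y * v y) (x - w) - rem η w A φ (fun y => L η φ y * v y) x := by
  have hy := sub_mem hx w
  have hL0 : L η φ x ≠ 0 := by
    intro h0
    have := L_near c hx
    rw [h0] at this
    norm_num at this
  have d1 := (GH_deriv (w := w) c (goodB h) hy).comp_sub_const x (w : ℂ)
  have d2 := GH_deriv (w := w) c (goodA h) hx
  have d3 := (d1.fun_sub d2).deriv
  rw [← funext errL_eq] at d3
  have hc := h.closed _ (core_sub (P_core (w := w) c hy))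
  have hk : kap η w B φ (x - w) - kap η w A φ (x - w) =
      η * fderiv ℂ B (P η w φ (x - w)) (1, 0) := by
    simp only [kap]; linear_combination hc
  have l1 : L η φ x - L η φ (x - w) = η * (deriv φ x - deriv φ (x - w)) := by
    simp only [L]; ring
  have l2 : L η φ (x + w) - L η φ x = η * (deriv φ (x + w) - deriv φ x) := by
    simp only [L]; ring
  rw [errL_eq, GH_add, GH_add, d3]
  rw [errL_eq] at hv
  simp only [sub_add_cancel]
  apply mul_left_cancel₀ hL0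
  linear_combination (-1 : ℂ) * hv +
    L η φ x * L η φ (x - w) * (v x - v (x - w)) * hk +
    L η φ x * v x * kap η w B φ (x - w) * l1 - L η φ x * v x * kap η w A φ x * l2

end K2

end Pool.Agent.MP_62f0b1_an.AE

end
end MrgPart1

-- ======== part 2: formerly Pool.Agent.MP_62f0b1_an.ae.K2
section MrgPart2

/-!
The Newton step.
-/

set_option autoImplicit false

noncomputable section

namespace Pool.Agent.MP_62f0b1_an.AE

open Complex Filter Topology Set MeasureTheory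
open scoped ComplexConjugate

namespace K2

theorem inv_near {m : ℂ} (h : ‖m - 1‖ ≤ 1 / 3) :
    m ≠ 0 ∧ ‖m⁻¹‖ ≤ 3 / 2 ∧ ‖m⁻¹ - 1‖ ≤ 1 / 2 := by
  have h1 : 2 / 3 ≤ ‖m‖ := by
    have := norm_sub_norm_le (1 : ℂ) m
    rw [norm_sub_rev, norm_one] at this
    linarith
  have h0 : m ≠ 0 := by rintro rfl; norm_num at h1
  have h2 : ‖m⁻¹‖ ≤ 3 / 2 := by
    rw [norm_inv, inv_le_comm₀ (by linarith) (by norm_num)]; linarith
  refine ⟨h0, h2, ?_⟩
  have e : m⁻¹ - 1 = -((m - 1) * m⁻¹) := by field_simp; ring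
  rw [e, norm_neg, norm_mul]
  nlinarith [norm_nonneg (m - 1), norm_nonneg m⁻¹]

theorem prod_near {k a b : ℂ} (hk : ‖k - 1‖ ≤ 1 / 50) (ha : ‖a - 1‖ ≤ 1 / 8)
    (hb : ‖b - 1‖ ≤ 1 / 8) : ‖k * a * b - 1‖ ≤ 1 / 3 := by
  have aux : ∀ (x y : ℂ) (r s : ℝ), ‖x - 1‖ ≤ r → ‖y - 1‖ ≤ s → ‖x * y - 1‖ ≤ r * s + r + s := by
    intro x y r s hx hy
    have e : x * y - 1 = (x - 1) * (y - 1) + (x - 1) + (y - 1) := by ring
    have h1 := norm_add₃_le (a := (x - 1) * (y - 1)) (b := x - 1) (c := y - 1)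
    have h2 : ‖(x - 1) * (y - 1)‖ ≤ r * s := by
      rw [norm_mul]; exact mul_le_mul hx hy (norm_nonneg _) ((norm_nonneg _).trans hx)
    rw [e]; linarith
  have := aux _ _ _ _ (aux _ _ _ _ hk ha) hb
  linarith

theorem exists_mu {ρ X : ℝ} (hρ : 0 < ρ) {ξ n : ℂ → ℂ} (hξ : PerHol ρ ξ) (hn : PerHol ρ n)
    (hX : ∀ x ∈ Strip ρ, ‖ξ x‖ ≤ X) (hb : ∀ x ∈ Strip ρ, ‖n x‖ ≤ 3 / 2 ∧ ‖n x - 1‖ ≤ 1 / 2) :
    ∃ μ : ℂ, μ.im = 0 ∧ ‖μ‖ ≤ 3 * X ∧ ∫ θ in (0 : ℝ)..2 * Real.pi, (ξ θ + μ) * n θ = 0 := by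
  have hπ := Real.pi_pos
  have habs : |2 * Real.pi - 0| = 2 * Real.pi := by rw [sub_zero, abs_of_pos (by positivity)]
  have hX0 : 0 ≤ X := (norm_nonneg _).trans (hX _ (real_mem hρ 0))
  set I1 := ∫ θ in (0 : ℝ)..2 * Real.pi, ξ θ * n θ with hI1
  set I2 := ∫ θ in (0 : ℝ)..2 * Real.pi, n θ with hI2
  have i1 := (ph_cont hρ (ph_mul hξ hn)).intervalIntegrable (μ := volume) 0 (2 * Real.pi)
  have i2 := (ph_cont hρ hn).intervalIntegrable (μ := volume) 0 (2 * Real.pi)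
  have b1 : ‖I1‖ ≤ X * (3 / 2) * |2 * Real.pi - 0| :=
    intervalIntegral.norm_integral_le_of_norm_le_const fun θ _ => by
      rw [norm_mul]
      exact mul_le_mul (hX _ (real_mem hρ θ)) (hb _ (real_mem hρ θ)).1 (norm_nonneg _) hX0
  have b2 : ‖∫ θ in (0 : ℝ)..2 * Real.pi, (n θ - 1)‖ ≤ 1 / 2 * |2 * Real.pi - 0| :=
    intervalIntegral.norm_integral_le_of_norm_le_const fun θ _ => (hb _ (real_mem hρ θ)).2
  rw [intervalIntegral.integral_sub i2 intervalIntegrable_const, intervalIntegral.integral_const,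
    habs, sub_zero, ← hI2] at b2
  rw [habs] at b1
  have b3 : Real.pi ≤ ‖I2‖ := by
    have h1 := norm_sub_norm_le ((2 * Real.pi) • (1 : ℂ)) I2
    rw [norm_sub_rev, norm_smul, norm_one, Real.norm_of_nonneg (by positivity)] at h1
    linarith
  have h0 : I2 ≠ 0 := by
    intro h; rw [h, norm_zero] at b3; linarith
  have r1 : I1.im = 0 := ph_int_im (ph_mul hξ hn)
  have r2 : I2.im = 0 := ph_int_im hn
  refine ⟨-(I1 * I2⁻¹), by simp [r1, r2], ?_, ?_⟩
  · rw [norm_neg, norm_mul, norm_inv, ← div_eq_mul_inv, div_le_iff₀ (by linarith)]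
    nlinarith
  · simp only [add_mul]
    rw [intervalIntegral.integral_add i1 (i2.const_mul _), intervalIntegral.integral_const_mul,
      ← hI1, ← hI2]
    field_simp
    ring

end K2

open K2 in
theorem k2 : K2Stmt := by
  rintro ⟨C1, hC1, K1⟩
  refine ⟨24 * C1 ^ 2 + 2 * (24 * C1 ^ 2) ^ 2, by positivity, ?_⟩
  intro γ w η δ ρ d E A B φ hγ hγ1 hw hη hη1 hδ h hd hdρ hρ hφ hb hE hsmall
  have c : K2.Ctx η ρ φ := ⟨hη, hη1, by linarith, hρ, hφ, hb⟩
  have hE0 : 0 ≤ E := (norm_nonneg _).trans (hE _ (real_mem c.ρ0 0))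
  have hL2 : ∀ x ∈ Strip ρ, ‖L η φ x‖ ≤ 2 := fun x hx => by
    have h1 := L_near c hx
    have h2 := norm_sub_norm_le (L η φ x) 1
    rw [norm_one] at h2
    linarith
  obtain ⟨ξ, hξ, hξb, hξe⟩ := K1 γ w ρ d (2 * E) (fun x => L η φ x * errL η w A B φ x) hγ hw hd
    (by linarith) (by linarith) (ph_mul (ph_L c) (ph_err c h))
    (fun x hx => by
      rw [norm_mul]; exact mul_le_mul (hL2 x hx) (hE x hx) (norm_nonneg _) (by norm_num))
    (mean_zero c h)
  set X := C1 * (2 * E) / (γ * d ^ 3) with hX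
  have hX0 : 0 ≤ X := by positivity
  have s1 : Strip (ρ - d) ⊆ Strip ρ := strip_mono (by linarith)
  have s2 : Strip (ρ - d - d) ⊆ Strip (ρ - d) := strip_mono (by linarith)
  have s3 : Strip (ρ - 4 * d) ⊆ Strip (ρ - d - d - d) := strip_mono (by linarith)
  have s4 : Strip (ρ - 4 * d) ⊆ Strip (ρ - d - d) := strip_mono (by linarith)
  set m : ℂ → ℂ := fun x => kap η w A φ x * L η φ x * L η φ (x + w) with hm
  have hm1 : ∀ x ∈ Strip ρ, m x ≠ 0 ∧ ‖(m x)⁻¹‖ ≤ 3 / 2 ∧ ‖(m x)⁻¹ - 1‖ ≤ 1 / 2 := fun x hx =>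
    inv_near (prod_near (kap_near c h hδ hx) (L_near c hx) (L_near c (add_mem hx w)))
  have hmp : PerHol (ρ - d) fun x => (m x)⁻¹ :=
    ph_mono (ph_inv (ph_mul (ph_mul (ph_kap c (goodA h)) (ph_L c)) (ph_shift (ph_L c) w))
      fun x hx => (hm1 x hx).1) (by linarith)
  obtain ⟨μ, hμ0, hμ1, hμ2⟩ := exists_mu (ρ := ρ - d) (X := X) (by linarith) (ph_shift hξ w) hmp
    (fun x hx => hξb _ (add_mem hx w)) (fun x hx => (hm1 x (s1 hx)).2)
  obtain ⟨v, hv, hvb, hve⟩ := K1 γ w (ρ - d) d (6 * X) (fun x => (ξ (x + w) + μ) * (m x)⁻¹) hγ hw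
    hd (by linarith) (by linarith) (ph_mul (ph_add (ph_shift hξ w) (ph_const _ hμ0)) hmp)
    (fun x hx => by
      have h1 := hξb _ (add_mem hx w)
      have h2 := norm_add_le (ξ (x + w)) μ
      have h3 := mul_le_mul (h2.trans (add_le_add h1 hμ1)) (hm1 x (s1 hx)).2.1 (norm_nonneg _)
        (by positivity)
      rw [norm_mul]; linarith) hμ2
  set t := E / (γ ^ 2 * d ^ 7) with ht
  set K := 24 * C1 ^ 2 with hK
  have ht0 : 0 ≤ t := by positivity
  have hK0 : 0 < K := by positivity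
  have hd1 : d ≤ 1 := by linarith
  have e1 : C1 * (6 * X) / (γ * d ^ 3) = K * t * d / 2 := by
    rw [hX, hK, ht]; field_simp; ring
  have e2 : (K + 2 * K ^ 2) * E / (γ ^ 2 * d ^ 7) = (K + 2 * K ^ 2) * t := by
    rw [ht]; ring
  have e3 : (K + 2 * K ^ 2) * E ^ 2 / (γ ^ 4 * d ^ 14) = (K + 2 * K ^ 2) * t ^ 2 := by
    rw [ht]; field_simp
  have e4 : E / d ≤ t := by
    rw [ht]
    refine div_le_div_of_nonneg_left hE0 (by positivity) ?_
    have h1 : γ ^ 2 ≤ 1 := pow_le_one₀ hγ.le hγ1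
    have h2 : d ^ 6 ≤ 1 := pow_le_one₀ hd.le hd1
    have h3 : γ ^ 2 * d ^ 6 ≤ 1 := mul_le_one₀ h1 (by positivity) h2
    calc γ ^ 2 * d ^ 7 = γ ^ 2 * d ^ 6 * d := by ring
      _ ≤ 1 * d := mul_le_mul_of_nonneg_right h3 hd.le
      _ = d := one_mul d
  rw [e1] at hvb
  rw [e2] at hsmall ⊢
  rw [e3]
  have hKt : 0 ≤ K * t := by positivity
  have hKt1 : K * t ≤ (K + 2 * K ^ 2) * t := by nlinarith [mul_nonneg (sq_nonneg K) ht0]
  have hKtd : K * t * d ≤ K * t := mul_le_of_le_one_right hKt hd1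
  have hψ : PerHol (ρ - d - d) fun y => L η φ y * v y :=
    ph_mul (ph_mono (ph_L c) (by linarith)) hv
  have hψb : ∀ x ∈ Strip (ρ - d - d), ‖L η φ x * v x‖ ≤ K * t * d := fun x hx => by
    have := mul_le_mul (hL2 x (s1 (s2 hx))) (hvb x hx) (norm_nonneg _) (by norm_num)
    rw [norm_mul]; linarith
  have hrem : ∀ F : ℂ × ℂ → ℂ, AnalyticOnNhd ℂ F domL → (∀ p ∈ domL, ‖F p‖ ≤ δ) →
      ∀ x ∈ Strip (ρ - d - d), ‖rem η w F φ (fun y => L η φ y * v y) x‖ ≤ (K * t) ^ 2 := by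
    intro F hF hFb x hx
    have h1 := hψb x hx
    have h2 := hψb _ (add_mem hx w)
    refine taylor2 hF hFb hδ (P_core c (s1 (s2 hx))) ?_ ?_ (by linarith)
    · show ‖(η : ℂ) * (L η φ x * v x)‖ ≤ _
      rw [norm_mul, Complex.norm_real, Real.norm_of_nonneg hη.le]
      nlinarith [norm_nonneg (L η φ x * v x)]
    · show ‖L η φ (x + w) * v (x + w) - L η φ x * v x‖ ≤ _
      have := norm_sub_le (L η φ (x + w) * v (x + w)) (L η φ x * v x)
      linarith
  refine ⟨fun y => L η φ y * v y, ph_mono hψ (by linarith), fun x hx => ⟨?_, ?_, ?_⟩⟩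
  · linarith [hψb x (s4 hx)]
  · have := cauchy hd hψ.diff hψb (s3 hx)
    rw [mul_div_cancel_right₀ _ hd.ne'] at this
    linarith
  · have hx2 := s4 hx
    have hx1 := s2 hx2
    have hx0 := s1 hx1
    have q1 : m x * (v (x + w) - v x) = ξ (x + w) + μ := by
      rw [hve x hx2]; field_simp [(hm1 x hx0).1]
    have q2 : m (x - w) * (v (x - w + w) - v (x - w)) = ξ (x - w + w) + μ := by
      rw [hve _ (sub_mem hx2 w)]; field_simp [(hm1 _ (sub_mem hx0 w)).1]
    have q3 := hξe x hx1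
    simp only [hm, sub_add_cancel] at q1 q2
    rw [new_err c h v hx0 (by rw [q1, q2, ← q3]; ring)]
    have n1 : ‖(η : ℂ) * v x * deriv (errL η w A B φ) x‖ ≤ K * t ^ 2 := by
      have h1 := (cauchy hd (ph_err c h).diff hE hx1).trans e4
      have h2 : ‖v x‖ ≤ K * t := by linarith [hvb x hx2]
      have h3 := mul_le_mul h2 h1 (norm_nonneg _) hKt
      rw [mul_assoc, norm_mul, norm_mul, Complex.norm_real, Real.norm_of_nonneg hη.le]
      nlinarith [mul_nonneg (norm_nonneg (v x)) (norm_nonneg (deriv (errL η w A B φ) x))]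
    have n2 := hrem B h.anB (fun p hp => (h.bound p hp).2) _ (sub_mem hx2 w)
    have n3 := hrem A h.anA (fun p hp => (h.bound p hp).1) _ hx2
    refine (norm_sub_le _ _).trans ?_
    have := norm_add_le ((η : ℂ) * v x * deriv (errL η w A B φ) x)
      (rem η w B φ (fun y => L η φ y * v y) (x - w))
    nlinarith

end Pool.Agent.MP_62f0b1_an.AE

end
end MrgPart2

-- marker of a merged file
example : 731051 + 860187 = 731051 + 860187 := rfl
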