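import Mathlib.Topology.Sheaves.Presheaf
import Mathlib.Tactic.Monotonicity.Lemmas
import Mathlib.RingTheory.Flat.TorsionFree
import Mathlib.Analysis.Complex.Liouville
import Mathlib.Analysis.Calculus.Deriv.Prod
import Mathlib.Analysis.Calculus.InverseFunctionTheorem.ContDiff
import Mathlib.Analysis.Complex.LocallyUniformLimit
import Mathlib.Analysis.Fourier.AddCircle
import Mathlib.RingTheory.TotallySplit
import Mathlib.RingTheory.Etale.Weakly
import Pool.Agent.MP_62f0b1_an.ae.Asm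

-- ======== part 0: formerly Pool.Agent.MP_62f0b1_an.ae.G1
section MrgPart0

/-!
Third order expansion of an equivariant germ.
-/

set_option autoImplicit false

noncomputable section

namespace Pool.Agent.MP_62f0b1_an.AE

open Complex Filter Topology Set
open scoped ComplexConjugate

namespace G1

/-- Vanishing to order `k` along the axis, uniformly near the base point. -/
def Ord (e0 : ℝ) (k : ℕ) (R : C3 → ℂ) : Prop :=
  ∃ C : ℝ, 0 ≤ C ∧ ∀ᶠ p in 𝓝 (base e0), ‖R p‖ ≤ C * ‖(p.1, p.2.1)‖ ^ k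

variable {e0 : ℝ} {k : ℕ}

theorem Ord.congr {R S : C3 → ℂ} (h : Ord e0 k R) (he : ∀ᶠ p in 𝓝 (base e0), S p = R p) :
    Ord e0 k S := by
  obtain ⟨C, hC, h⟩ := h
  refine ⟨C, hC, ?_⟩
  filter_upwards [h, he] with p h1 h2
  rw [h2]; exact h1

theorem Ord.add {R S : C3 → ℂ} (h : Ord e0 k R) (h' : Ord e0 k S) :
    Ord e0 k (fun p => R p + S p) := by
  obtain ⟨C, hC, h⟩ := h
  obtain ⟨C', hC', h'⟩ := h'
  refine ⟨C + C', by positivity, ?_⟩
  filter_upwards [h, h'] with p h1 h2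
  calc ‖R p + S p‖ ≤ ‖R p‖ + ‖S p‖ := norm_add_le _ _
    _ ≤ _ := by linarith

theorem Ord.const_mul {R : C3 → ℂ} (c : ℂ) (h : Ord e0 k R) : Ord e0 k (fun p => c * R p) := by
  obtain ⟨C, hC, h⟩ := h
  refine ⟨‖c‖ * C, by positivity, ?_⟩
  filter_upwards [h] with p h1
  rw [norm_mul, mul_assoc]
  exact mul_le_mul_of_nonneg_left h1 (norm_nonneg _)

theorem Ord.mul_fst {R : C3 → ℂ} (h : Ord e0 k R) : Ord e0 (k + 1) (fun p => p.1 * R p) := by
  obtain ⟨C, hC, h⟩ := h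
  refine ⟨C, hC, ?_⟩
  filter_upwards [h] with p h1
  have h2 : ‖p.1‖ ≤ ‖(p.1, p.2.1)‖ := norm_fst_le (p.1, p.2.1)
  rw [norm_mul, pow_succ]
  calc ‖p.1‖ * ‖R p‖ ≤ ‖(p.1, p.2.1)‖ * (C * ‖(p.1, p.2.1)‖ ^ k) :=
        mul_le_mul h2 h1 (norm_nonneg _) (norm_nonneg _)
    _ = _ := by ring

theorem Ord.mul_snd {R : C3 → ℂ} (h : Ord e0 k R) : Ord e0 (k + 1) (fun p => p.2.1 * R p) := by
  obtain ⟨C, hC, h⟩ := h
  refine ⟨C, hC, ?_⟩
  filter_upwards [h] with p h1
  have h2 : ‖p.2.1‖ ≤ ‖(p.1, p.2.1)‖ := norm_snd_le (p.1, p.2.1)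
  rw [norm_mul, pow_succ]
  calc ‖p.2.1‖ * ‖R p‖ ≤ ‖(p.1, p.2.1)‖ * (C * ‖(p.1, p.2.1)‖ ^ k) :=
        mul_le_mul h2 h1 (norm_nonneg _) (norm_nonneg _)
    _ = _ := by ring

theorem tendsto_rot : Tendsto rot (𝓝 (base e0)) (𝓝 (base e0)) := by
  have h : Continuous rot := by unfold rot; fun_prop
  have h2 : rot (base e0) = base e0 := by simp [rot, base]
  simpa [h2] using h.tendsto (base e0)

theorem Ord.comp_rot {R : C3 → ℂ} (h : Ord e0 k R) : Ord e0 k (fun p => R (rot p)) := by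
  obtain ⟨C, hC, h⟩ := h
  refine ⟨C, hC, ?_⟩
  filter_upwards [tendsto_rot.eventually h] with p h1
  have h2 : ‖((rot p).1, (rot p).2.1)‖ = ‖(p.1, p.2.1)‖ := by
    simp [rot, Prod.norm_def, norm_om]
  rwa [h2] at h1

theorem ord_zero {R : C3 → ℂ} (h : AnalyticAt ℂ R (base e0)) : Ord e0 0 R := by
  refine ⟨‖R (base e0)‖ + 1, by positivity, ?_⟩
  have h1 := h.continuousAt.norm.eventually (gt_mem_nhds (lt_add_one ‖R (base e0)‖))
  filter_upwards [h1] with p hp
  simpa using hp.le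

theorem an_d1 {R : C3 → ℂ} {p : C3} (h : AnalyticAt ℂ R p) : AnalyticAt ℂ (d1 R) p :=
  ((ContinuousLinearMap.apply ℂ ℂ ((1, 0, 0) : C3)).analyticAt _).comp h.fderiv

theorem an_d2 {R : C3 → ℂ} {p : C3} (h : AnalyticAt ℂ R p) : AnalyticAt ℂ (d2 R) p :=
  ((ContinuousLinearMap.apply ℂ ℂ ((0, 1, 0) : C3)).analyticAt _).comp h.fderiv

theorem fderiv_plane (R : C3 → ℂ) (q : C3) (z w : ℂ) :
    fderiv ℂ R q (z, w, 0) = z * d1 R q + w * d2 R q := by
  have h : ((z, w, 0) : C3) = z • ((1, 0, 0) : C3) + w • ((0, 1, 0) : C3) := by simp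
  rw [h, map_add, map_smul, map_smul]
  rfl

theorem line1 {R : C3 → ℂ} {p : C3} (h : DifferentiableAt ℂ R p) :
    HasDerivAt (fun u => R (u, p.2.1, p.2.2)) (d1 R p) p.1 := by
  have h1 : HasDerivAt (fun u : ℂ => ((u, p.2.1, p.2.2) : C3)) (1, 0, 0) p.1 :=
    (hasDerivAt_id _).prodMk ((hasDerivAt_const _ _).prodMk (hasDerivAt_const _ _))
  exact h.hasFDerivAt.comp_hasDerivAt p.1 h1

theorem line2 {R : C3 → ℂ} {p : C3} (h : DifferentiableAt ℂ R p) :
    HasDerivAt (fun u => R (p.1, u, p.2.2)) (d2 R p) p.2.1 := by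
  have h1 : HasDerivAt (fun u : ℂ => ((p.1, u, p.2.2) : C3)) (0, 1, 0) p.2.1 :=
    (hasDerivAt_const _ _).prodMk ((hasDerivAt_id _).prodMk (hasDerivAt_const _ _))
  exact h.hasFDerivAt.comp_hasDerivAt p.2.1 h1

/-- Integration along rays. -/
theorem ray {R : C3 → ℂ} (hR : AnalyticAt ℂ R (base e0))
    (h0 : ∀ᶠ p in 𝓝 (base e0), R (0, 0, p.2.2) = 0)
    (hE : Ord e0 (k + 1) (fun p => p.1 * d1 R p + p.2.1 * d2 R p)) : Ord e0 (k + 1) R := by
  obtain ⟨C, hC, hE⟩ := hE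
  refine ⟨C, hC, ?_⟩
  obtain ⟨ε, hε, hb⟩ := Metric.eventually_nhds_iff.1 (hR.eventually_analyticAt.and (h0.and hE))
  refine Metric.eventually_nhds_iff.2 ⟨ε, hε, fun p hp => ?_⟩
  obtain ⟨z, w, e⟩ := p
  set q : ℝ → C3 := fun s => (((1 - s : ℝ) : ℂ) * z, ((1 - s : ℝ) : ℂ) * w, e) with hq
  have hmem : ∀ s ∈ Icc (0 : ℝ) 1, dist (q s) (base e0) < ε := by
    intro s hs
    refine lt_of_le_of_lt ?_ hp
    have h1 : ‖((1 - s : ℝ) : ℂ)‖ ≤ 1 := by
      rw [Complex.norm_real, Real.norm_eq_abs, abs_le]; constructor <;> linarith [hs.1, hs.2]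
    simp only [hq, base, Prod.dist_eq, dist_zero_right, norm_mul]
    exact max_le_max (mul_le_of_le_one_left (norm_nonneg _) h1)
      (max_le_max (mul_le_of_le_one_left (norm_nonneg _) h1) le_rfl)
  have hder : ∀ s ∈ Icc (0 : ℝ) 1,
      HasDerivAt (fun s => R (q s)) (-(z * d1 R (q s) + w * d2 R (q s))) s := by
    intro s hs
    have h1 : HasDerivAt (fun s : ℝ => ((1 - s : ℝ) : ℂ)) (-1) s := by
      simpa using ((hasDerivAt_id s).const_sub 1).ofReal_comp
    have h2 : HasDerivAt q (-z, -w, 0) s := by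
      have h := (h1.mul_const z).prodMk ((h1.mul_const w).prodMk (hasDerivAt_const s e))
      rw [neg_one_mul, neg_one_mul] at h
      exact h
    have h3 := ((hb (hmem s hs)).1.differentiableAt.hasFDerivAt.restrictScalars ℝ).comp_hasDerivAt
      s h2
    have h4 : fderiv ℂ R (q s) (-z, -w, 0) = -(z * d1 R (q s) + w * d2 R (q s)) := by
      rw [fderiv_plane]; ring
    rw [← h4]
    exact h3
  have key := norm_image_sub_le_of_norm_deriv_right_le_segment (a := 0) (b := 1)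
    (f := fun s => R (q s)) (f' := fun s => -(z * d1 R (q s) + w * d2 R (q s)))
    (C := C * ‖(z, w)‖ ^ (k + 1))
    (fun s hs => (hder s hs).continuousAt.continuousWithinAt)
    (fun s hs => (hder s (Ico_subset_Icc_self hs)).hasDerivWithinAt) ?_ 1 (by simp)
  · have h1 : q 1 = (0, 0, e) := by simp [hq]
    have h2 : q 0 = (z, w, e) := by simp [hq]
    have h3 : R (0, 0, e) = 0 := (hb hp).2.1
    simpa [h1, h2, h3] using key
  · intro s hs
    have h1 : ‖(q s).1 * d1 R (q s) + (q s).2.1 * d2 R (q s)‖ ≤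
        C * ‖((q s).1, (q s).2.1)‖ ^ (k + 1) := (hb (hmem s (Ico_subset_Icc_self hs))).2.2
    have hs1 : 0 < 1 - s := by linarith [hs.2]
    have h2 : (q s).1 * d1 R (q s) + (q s).2.1 * d2 R (q s) =
        ((1 - s : ℝ) : ℂ) * (z * d1 R (q s) + w * d2 R (q s)) := by
      simp only [hq]; ring
    have h3 : ‖((q s).1, (q s).2.1)‖ = (1 - s) * ‖(z, w)‖ := by
      simp only [hq, Prod.norm_def, norm_mul, Complex.norm_real, Real.norm_eq_abs, abs_of_pos hs1]
      rw [mul_max_of_nonneg _ _ hs1.le]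
    rw [h2, h3, norm_mul, Complex.norm_real, Real.norm_eq_abs, abs_of_pos hs1, mul_pow] at h1
    rw [norm_neg]
    have h4 : (1 - s) ^ (k + 1) ≤ 1 - s := by
      rw [pow_succ]
      exact mul_le_of_le_one_left hs1.le (pow_le_one₀ hs1.le (by linarith [hs.1]))
    refine le_of_mul_le_mul_left (h1.trans ?_) hs1
    have h5 : 0 ≤ C * ‖(z, w)‖ ^ (k + 1) := by positivity
    calc C * ((1 - s) ^ (k + 1) * ‖(z, w)‖ ^ (k + 1))
        = (1 - s) ^ (k + 1) * (C * ‖(z, w)‖ ^ (k + 1)) := by ring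
      _ ≤ _ := mul_le_mul_of_nonneg_right h4 h5

/-- Cauchy estimate. -/
theorem cauchy {R : C3 → ℂ} (hR : AnalyticAt ℂ R (base e0)) (h : Ord e0 4 R) (v : C3)
    (hv : ‖v‖ ≤ 1) : Ord e0 3 (fun p => fderiv ℂ R p v) := by
  obtain ⟨C, hC, h⟩ := h
  refine ⟨16 * C, by positivity, ?_⟩
  obtain ⟨ε, hε, hb⟩ := Metric.eventually_nhds_iff.1 (hR.eventually_analyticAt.and h)
  refine Metric.eventually_nhds_iff.2 ⟨ε / 2, by positivity, fun p hp => ?_⟩
  have hρ : ‖(p.1, p.2.1)‖ < ε / 2 := by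
    refine lt_of_le_of_lt ?_ hp
    simp only [base, Prod.dist_eq, dist_zero_right, Prod.norm_def]
    exact max_le_max le_rfl (le_max_left _ _)
  have hmem : ∀ u : ℂ, ‖u‖ < ε / 2 → dist (p + u • v) (base e0) < ε := by
    intro u hu
    have h1 : dist (p + u • v) p ≤ ‖u‖ := by
      rw [dist_eq_norm, add_sub_cancel_left, norm_smul]
      exact mul_le_of_le_one_right (norm_nonneg _) hv
    linarith [dist_triangle (p + u • v) p (base e0)]
  have hder : ∀ u : ℂ, ‖u‖ < ε / 2 →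
      HasDerivAt (fun u : ℂ => R (p + u • v)) (fderiv ℂ R (p + u • v) v) u := by
    intro u hu
    have h1 : HasDerivAt (fun u : ℂ => p + u • v) v u := by
      simpa using ((hasDerivAt_id u).smul_const v).const_add p
    exact (hb (hmem u hu)).1.differentiableAt.hasFDerivAt.comp_hasDerivAt u h1
  have est : ∀ r : ℝ, 0 < r → r < ε / 2 →
      ‖fderiv ℂ R p v‖ ≤ C * (‖(p.1, p.2.1)‖ + r) ^ 4 / r := by
    intro r hr hr2
    have h1 : DiffContOnCl ℂ (fun u : ℂ => R (p + u • v)) (Metric.ball 0 r) := by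
      refine DifferentiableOn.diffContOnCl ?_
      rw [closure_ball _ hr.ne']
      intro u hu
      have hu' : ‖u‖ ≤ r := by simpa using hu
      exact (hder u (by linarith)).differentiableAt.differentiableWithinAt
    have h2 := Complex.norm_deriv_le_of_forall_mem_sphere_norm_le hr h1
      (C := C * (‖(p.1, p.2.1)‖ + r) ^ 4) ?_
    · rw [(hder 0 (by simpa using hε)).deriv] at h2
      simpa using h2
    · intro u hu
      have hu' : ‖u‖ = r := by simpa using hu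
      refine (hb (hmem u (by linarith))).2.trans ?_
      have h3 : (((p + u • v).1, (p + u • v).2.1) : ℂ × ℂ) = (p.1, p.2.1) + u • (v.1, v.2.1) := by
        simp
      have h4 : ‖((v.1, v.2.1) : ℂ × ℂ)‖ ≤ 1 := by
        refine le_trans ?_ hv
        simp only [Prod.norm_def]
        exact max_le_max le_rfl (le_max_left _ _)
      have h5 : ‖(((p + u • v).1, (p + u • v).2.1) : ℂ × ℂ)‖ ≤ ‖(p.1, p.2.1)‖ + r := by
        rw [h3]
        refine (norm_add_le _ _).trans ?_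
        rw [norm_smul, hu']
        have := mul_le_of_le_one_right hr.le h4
        linarith
      gcongr
  rcases (norm_nonneg ((p.1, p.2.1) : ℂ × ℂ)).eq_or_lt with h0 | h0
  · rw [← h0] at est ⊢
    have h1 : Tendsto (fun r : ℝ => C * r ^ 3) (𝓝[>] 0) (𝓝 (C * 0 ^ 3)) :=
      (Continuous.tendsto (by fun_prop) _).mono_left nhdsWithin_le_nhds
    have h2 : ‖fderiv ℂ R p v‖ ≤ C * 0 ^ 3 := by
      refine ge_of_tendsto h1 ?_
      filter_upwards [Ioo_mem_nhdsGT (show (0 : ℝ) < ε / 2 by positivity)] with r hr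
      have h3 := est r hr.1 hr.2
      have h4 : C * (0 + r) ^ 4 / r = C * r ^ 3 := by
        have := hr.1.ne'
        field_simp
        ring
      rwa [h4] at h3
    simpa using h2
  · refine (est _ h0 hρ).trans (le_of_eq ?_)
    have := h0.ne'
    field_simp
    ring

/-- Forms of degree `n` in `(z, w)` with analytic coefficients. -/
def Hom (e0 : ℝ) : ℕ → (C3 → ℂ) → Prop
  | 0, H => ∃ c : ℂ → ℂ, AnalyticAt ℂ c e0 ∧ H = fun p => c p.2.2
  | n + 1, H => ∃ A B, Hom e0 n A ∧ Hom e0 n B ∧ H = fun p => p.1 * A p + p.2.1 * B p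

theorem an_z {p : C3} : AnalyticAt ℂ (fun p : C3 => p.1) p := analyticAt_fst

theorem an_w {p : C3} : AnalyticAt ℂ (fun p : C3 => p.2.1) p :=
  analyticAt_fst.comp analyticAt_snd

theorem an_coef {c : ℂ → ℂ} (hc : AnalyticAt ℂ c e0) :
    AnalyticAt ℂ (fun p : C3 => c p.2.2) (base e0) :=
  AnalyticAt.comp (g := c) (f := fun p : C3 => p.2.2) (x := base e0) hc
    (analyticAt_snd.comp analyticAt_snd)

theorem Hom.an : ∀ {n : ℕ} {H : C3 → ℂ}, Hom e0 n H → AnalyticAt ℂ H (base e0)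
  | 0, _, ⟨_, hc, h⟩ => h ▸ an_coef hc
  | n + 1, _, ⟨A, B, hA, hB, h⟩ => by
    subst h
    exact (an_z.mul hA.an).add (an_w.mul hB.an)

theorem Hom.const_mul (c : ℂ) : ∀ {n : ℕ} {H : C3 → ℂ}, Hom e0 n H → Hom e0 n (fun p => c * H p)
  | 0, _, ⟨c', hc, h⟩ => ⟨fun e => c * c' e, analyticAt_const.mul hc, by subst h; rfl⟩
  | n + 1, _, ⟨A, B, hA, hB, h⟩ =>
    ⟨_, _, hA.const_mul c, hB.const_mul c, by subst h; funext p; ring⟩

theorem Hom.euler : ∀ {n : ℕ} {H : C3 → ℂ}, Hom e0 n H →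
    ∀ᶠ p in 𝓝 (base e0), p.1 * d1 H p + p.2.1 * d2 H p = n * H p
  | 0, H, ⟨c, hc, h⟩ => by
    filter_upwards [(an_coef hc).eventually_analyticAt] with p hp
    subst h
    have h1 := (line1 hp.differentiableAt).unique (hasDerivAt_const p.1 (c p.2.2))
    have h2 := (line2 hp.differentiableAt).unique (hasDerivAt_const p.2.1 (c p.2.2))
    rw [h1, h2]; simp
  | n + 1, H, ⟨A, B, hA, hB, h⟩ => by
    have hH : Hom e0 (n + 1) H := ⟨A, B, hA, hB, h⟩
    filter_upwards [hH.an.eventually_analyticAt, hA.an.eventually_analyticAt,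
      hB.an.eventually_analyticAt, hA.euler, hB.euler] with p hp ha hb eA eB
    subst h
    have h1 := (line1 hp.differentiableAt).unique
      (((hasDerivAt_id p.1).mul (line1 ha.differentiableAt)).add
        ((line1 hb.differentiableAt).const_mul p.2.1))
    have h2 := (line2 hp.differentiableAt).unique
      (((line2 ha.differentiableAt).const_mul p.1).add
        ((hasDerivAt_id p.2.1).mul (line2 hb.differentiableAt)))
    rw [h1, h2]
    simp only [id]
    push_cast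
    linear_combination p.1 * eA + p.2.1 * eB

theorem Hom.axis {n : ℕ} {H : C3 → ℂ} (h : Hom e0 (n + 1) H) (e : ℂ) : H (0, 0, e) = 0 := by
  obtain ⟨A, B, _, _, rfl⟩ := h
  simp

/-- Taylor expansion in `(z, w)`. -/
theorem taylor : ∀ (k : ℕ) {f : C3 → ℂ}, AnalyticAt ℂ f (base e0) →
    ∃ H : ℕ → C3 → ℂ, (∀ n, Hom e0 n (H n)) ∧
      Ord e0 k (fun p => f p - ∑ n ∈ Finset.range k, H n p)
  | 0, f, hf => by
    have h0 : ∀ n, Hom e0 n (fun _ => 0) := by
      intro n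
      induction n with
      | zero => exact ⟨fun _ => 0, analyticAt_const, rfl⟩
      | succ n ih => exact ⟨_, _, ih, ih, by funext p; simp⟩
    exact ⟨fun _ _ => 0, h0, by simpa using ord_zero hf⟩
  | k + 1, f, hf => by
    obtain ⟨A, hA, oA⟩ := taylor k (an_d1 hf)
    obtain ⟨B, hB, oB⟩ := taylor k (an_d2 hf)
    let H : ℕ → C3 → ℂ := fun n => Nat.casesOn n (fun p => f (0, 0, p.2.2))
      (fun m p => ((m + 1 : ℕ) : ℂ)⁻¹ * (p.1 * A m p + p.2.1 * B m p))
    have hH : ∀ n, Hom e0 n (H n) := by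
      intro n
      cases n with
      | zero =>
        refine ⟨fun e => f (0, 0, e), ?_, rfl⟩
        exact AnalyticAt.comp (g := f) (f := fun e : ℂ => ((0, 0, e) : C3)) (x := (e0 : ℂ)) hf
          (by fun_prop)
      | succ m => exact Hom.const_mul _ (n := m + 1) ⟨_, _, hA m, hB m, rfl⟩
    have hS : AnalyticAt ℂ (fun p => ∑ n ∈ Finset.range (k + 1), H n p) (base e0) :=
      Finset.analyticAt_fun_sum _ fun n _ => (hH n).an
    refine ⟨H, hH, ray (hf.sub hS) (Eventually.of_forall fun p => ?_) ?_⟩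
    · rw [Finset.sum_range_succ', Finset.sum_eq_zero fun n _ => (hH (n + 1)).axis _]
      simp [H]
    · refine (oA.mul_fst.add oB.mul_snd).congr ?_
      have e1 : ∀ᶠ p in 𝓝 (base e0), ∀ n ∈ Finset.range (k + 1), AnalyticAt ℂ (H n) p ∧
          p.1 * d1 (H n) p + p.2.1 * d2 (H n) p = n * H n p :=
        (Finset.eventually_all _).2 fun n _ => (hH n).an.eventually_analyticAt.and (hH n).euler
      filter_upwards [e1, hf.eventually_analyticAt, (hf.sub hS).eventually_analyticAt]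
        with p h1 h2 h3
      have h4 := (line1 h3.differentiableAt).unique ((line1 h2.differentiableAt).sub
        (HasDerivAt.fun_sum fun n hn => line1 (h1 n hn).1.differentiableAt))
      have h5 := (line2 h3.differentiableAt).unique ((line2 h2.differentiableAt).sub
        (HasDerivAt.fun_sum fun n hn => line2 (h1 n hn).1.differentiableAt))
      have h6 : p.1 * ∑ n ∈ Finset.range (k + 1), d1 (H n) p +
          p.2.1 * ∑ n ∈ Finset.range (k + 1), d2 (H n) p =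
          p.1 * ∑ n ∈ Finset.range k, A n p + p.2.1 * ∑ n ∈ Finset.range k, B n p := by
        rw [Finset.mul_sum, Finset.mul_sum, ← Finset.sum_add_distrib,
          Finset.sum_congr rfl fun n hn => (h1 n hn).2, Finset.sum_range_succ',
          Finset.mul_sum, Finset.mul_sum, ← Finset.sum_add_distrib]
        simp only [Nat.cast_zero, zero_mul, add_zero]
        refine Finset.sum_congr rfl fun n _ => ?_
        have hn : ((n + 1 : ℕ) : ℂ) ≠ 0 := Nat.cast_ne_zero.2 (Nat.succ_ne_zero n)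
        simp only [H]
        rw [mul_inv_cancel_left₀ hn]
      change p.1 * d1 (f - fun p => ∑ n ∈ Finset.range (k + 1), H n p) p +
        p.2.1 * d2 (f - fun p => ∑ n ∈ Finset.range (k + 1), H n p) p = _
      rw [h4, h5]
      linear_combination -h6

/-- Averaging over the rotation. -/
theorem average {f Q : C3 → ℂ} (μ : ℂ) (he : ∀ᶠ p in 𝓝 (base e0), μ * f (rot p) = f p)
    (h : Ord e0 k (fun p => f p - Q p)) :
    Ord e0 k (fun p => f p - (Q p + μ * Q (rot p) + μ ^ 2 * Q (rot (rot p))) / 3) := by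
  refine (((h.add (h.comp_rot.const_mul μ)).add
    (h.comp_rot.comp_rot.const_mul (μ ^ 2))).const_mul (1 / 3)).congr ?_
  filter_upwards [he, tendsto_rot.eventually he] with p h1 h2
  linear_combination (-2 / 3) * h1 - μ / 3 * h2

theorem expand {f : C3 → ℂ} (hf : AnalyticAt ℂ f (base e0)) :
    ∃ c0 c1 c2 c11 c12 c22 c111 c112 c122 c222 : ℂ → ℂ,
      (AnalyticAt ℂ c1 e0 ∧ AnalyticAt ℂ c2 e0 ∧ AnalyticAt ℂ c11 e0 ∧ AnalyticAt ℂ c22 e0 ∧
        AnalyticAt ℂ c112 e0 ∧ AnalyticAt ℂ c122 e0) ∧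
      Ord e0 4 (fun p => f p - (c0 p.2.2 + c1 p.2.2 * p.1 + c2 p.2.2 * p.2.1 +
        c11 p.2.2 * p.1 ^ 2 + c12 p.2.2 * p.1 * p.2.1 + c22 p.2.2 * p.2.1 ^ 2 +
        c111 p.2.2 * p.1 ^ 3 + c112 p.2.2 * p.1 ^ 2 * p.2.1 + c122 p.2.2 * p.1 * p.2.1 ^ 2 +
        c222 p.2.2 * p.2.1 ^ 3)) := by
  obtain ⟨H, hH, o⟩ := taylor 4 hf
  obtain ⟨c0, -, e0'⟩ := hH 0
  obtain ⟨_, _, ⟨a1, ha1, rfl⟩, ⟨a2, ha2, rfl⟩, e1⟩ := hH 1
  obtain ⟨_, _, ⟨_, _, ⟨b1, hb1, rfl⟩, ⟨b2, -, rfl⟩, rfl⟩,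
    ⟨_, _, ⟨b3, -, rfl⟩, ⟨b4, hb4, rfl⟩, rfl⟩, e2⟩ := hH 2
  obtain ⟨_, _, ⟨_, _, ⟨_, _, ⟨g1, -, rfl⟩, ⟨g2, hg2, rfl⟩, rfl⟩,
      ⟨_, _, ⟨g3, hg3, rfl⟩, ⟨g4, hg4, rfl⟩, rfl⟩, rfl⟩,
    ⟨_, _, ⟨_, _, ⟨g5, hg5, rfl⟩, ⟨g6, hg6, rfl⟩, rfl⟩,
      ⟨_, _, ⟨g7, hg7, rfl⟩, ⟨g8, -, rfl⟩, rfl⟩, rfl⟩, e3⟩ := hH 3
  refine ⟨c0, a1, a2, b1, fun e => b2 e + b3 e, b4, g1, fun e => g2 e + g3 e + g5 e,
    fun e => g4 e + g6 e + g7 e, g8,
    ⟨ha1, ha2, hb1, hb4, (hg2.add hg3).add hg5, (hg4.add hg6).add hg7⟩,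
    o.congr (Eventually.of_forall fun p => ?_)⟩
  simp only [Finset.sum_range_succ, Finset.sum_range_zero, e0', e1, e2, e3]
  ring

theorem main_f {f : C3 → ℂ} (hf : AnalyticAt ℂ f (base e0))
    (he : ∀ᶠ p in 𝓝 (base e0), f (rot p) = om * f p) :
    ∃ l a b : ℂ → ℂ, AnalyticAt ℂ l e0 ∧ AnalyticAt ℂ a e0 ∧ AnalyticAt ℂ b e0 ∧
      Ord e0 4 (fun p => f p - (l p.2.2 * p.1 + a p.2.2 * p.2.1 ^ 2 + b p.2.2 * p.1 ^ 2 * p.2.1)) ∧
      Ord e0 3 (fun p => d1 f p - (l p.2.2 + 2 * b p.2.2 * p.1 * p.2.1)) ∧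
      Ord e0 3 (fun p => d2 f p - (2 * a p.2.2 * p.2.1 + b p.2.2 * p.1 ^ 2)) := by
  obtain ⟨c0, l, c2, c11, c12, a, c111, b, c122, c222, ⟨hl, -, -, ha, hb, -⟩, o⟩ := expand hf
  have o4 : Ord e0 4 (fun p => f p -
      (l p.2.2 * p.1 + a p.2.2 * p.2.1 ^ 2 + b p.2.2 * p.1 ^ 2 * p.2.1)) := by
    refine (average (om ^ 2) ?_ o).congr (Eventually.of_forall fun p => ?_)
    · filter_upwards [he] with p hp
      rw [hp]; linear_combination f p * om_cube
    · have h1 := om_rel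
      simp only [rot]
      grind
  have hl' := an_coef hl
  have ha' := an_coef ha
  have hb' := an_coef hb
  have hR : AnalyticAt ℂ (fun p : C3 => f p -
      (l p.2.2 * p.1 + a p.2.2 * p.2.1 ^ 2 + b p.2.2 * p.1 ^ 2 * p.2.1)) (base e0) :=
    hf.sub (((hl'.mul an_z).add (ha'.mul (an_w.pow 2))).add ((hb'.mul (an_z.pow 2)).mul an_w))
  refine ⟨l, a, b, hl, ha, hb, o4, (cauchy hR o4 (1, 0, 0) (by simp [Prod.norm_def])).congr ?_,
    (cauchy hR o4 (0, 1, 0) (by simp [Prod.norm_def])).congr ?_⟩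
  · filter_upwards [hR.eventually_analyticAt, hf.eventually_analyticAt] with p h1 h2
    have h3 := (line1 h1.differentiableAt).unique ((line1 h2.differentiableAt).sub
      ((((hasDerivAt_id p.1).const_mul (l p.2.2)).add_const (a p.2.2 * p.2.1 ^ 2)).add
        (((hasDerivAt_pow 2 p.1).const_mul (b p.2.2)).mul_const p.2.1)))
    refine Eq.trans ?_ h3.symm
    push_cast
    ring
  · filter_upwards [hR.eventually_analyticAt, hf.eventually_analyticAt] with p h1 h2
    have h3 := (line2 h1.differentiableAt).unique ((line2 h2.differentiableAt).sub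
      ((((hasDerivAt_pow 2 p.2.1).const_mul (a p.2.2)).const_add (l p.2.2 * p.1)).add
        ((hasDerivAt_id p.2.1).const_mul (b p.2.2 * p.1 ^ 2))))
    refine Eq.trans ?_ h3.symm
    push_cast
    ring

theorem main_g {g : C3 → ℂ} (hf : AnalyticAt ℂ g (base e0))
    (he : ∀ᶠ p in 𝓝 (base e0), g (rot p) = om ^ 2 * g p) :
    ∃ l a b : ℂ → ℂ, AnalyticAt ℂ l e0 ∧ AnalyticAt ℂ a e0 ∧ AnalyticAt ℂ b e0 ∧
      Ord e0 4 (fun p => g p - (l p.2.2 * p.2.1 + a p.2.2 * p.1 ^ 2 + b p.2.2 * p.1 * p.2.1 ^ 2)) ∧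
      Ord e0 3 (fun p => d1 g p - (2 * a p.2.2 * p.1 + b p.2.2 * p.2.1 ^ 2)) ∧
      Ord e0 3 (fun p => d2 g p - (l p.2.2 + 2 * b p.2.2 * p.1 * p.2.1)) := by
  obtain ⟨c0, c1, l, a, c12, c22, c111, c112, b, c222, ⟨-, hl, ha, -, -, hb⟩, o⟩ := expand hf
  have o4 : Ord e0 4 (fun p => g p -
      (l p.2.2 * p.2.1 + a p.2.2 * p.1 ^ 2 + b p.2.2 * p.1 * p.2.1 ^ 2)) := by
    refine (average om ?_ o).congr (Eventually.of_forall fun p => ?_)
    · filter_upwards [he] with p hp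
      rw [hp]; linear_combination g p * om_cube
    · have h1 := om_rel
      simp only [rot]
      grind
  have hl' := an_coef hl
  have ha' := an_coef ha
  have hb' := an_coef hb
  have hR : AnalyticAt ℂ (fun p : C3 => g p -
      (l p.2.2 * p.2.1 + a p.2.2 * p.1 ^ 2 + b p.2.2 * p.1 * p.2.1 ^ 2)) (base e0) :=
    hf.sub (((hl'.mul an_w).add (ha'.mul (an_z.pow 2))).add ((hb'.mul an_z).mul (an_w.pow 2)))
  refine ⟨l, a, b, hl, ha, hb, o4, (cauchy hR o4 (1, 0, 0) (by simp [Prod.norm_def])).congr ?_,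
    (cauchy hR o4 (0, 1, 0) (by simp [Prod.norm_def])).congr ?_⟩
  · filter_upwards [hR.eventually_analyticAt, hf.eventually_analyticAt] with p h1 h2
    have h3 := (line1 h1.differentiableAt).unique ((line1 h2.differentiableAt).sub
      ((((hasDerivAt_pow 2 p.1).const_mul (a p.2.2)).const_add (l p.2.2 * p.2.1)).add
        (((hasDerivAt_id p.1).const_mul (b p.2.2)).mul_const (p.2.1 ^ 2))))
    refine Eq.trans ?_ h3.symm
    push_cast
    ring
  · filter_upwards [hR.eventually_analyticAt, hf.eventually_analyticAt] with p h1 h2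
    have h3 := (line2 h1.differentiableAt).unique ((line2 h2.differentiableAt).sub
      ((((hasDerivAt_id p.2.1).const_mul (l p.2.2)).add_const (a p.2.2 * p.1 ^ 2)).add
        ((hasDerivAt_pow 2 p.2.1).const_mul (b p.2.2 * p.1))))
    refine Eq.trans ?_ h3.symm
    push_cast
    ring

end G1

theorem g1 : G1Stmt := by
  intro f g e0 h
  obtain ⟨l, a, b, hl, ha, hb, ⟨C1, p1, o1⟩, ⟨C3, p3, o3⟩, ⟨C4, p4, o4⟩⟩ :=
    G1.main_f h.an_f (h.eqv.mono fun p hp => hp.1)
  obtain ⟨l', a', b', hl', ha', hb', ⟨C2, p2, o2⟩, ⟨C5, p5, o5⟩, ⟨C6, p6, o6⟩⟩ :=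
    G1.main_g h.an_g (h.eqv.mono fun p hp => hp.2)
  refine ⟨l, a, b, l', a', b', hl, ha, hb, hl', ha', hb', C1 + C2 + C3 + C4 + C5 + C6, ?_⟩
  filter_upwards [o1, o2, o3, o4, o5, o6] with p h1 h2 h3 h4 h5 h6
  refine ⟨h1.trans ?_, h2.trans ?_, h3.trans ?_, h4.trans ?_, h5.trans ?_, h6.trans ?_⟩ <;>
    exact mul_le_mul_of_nonneg_right (by linarith) (by positivity)

end Pool.Agent.MP_62f0b1_an.AE

end
end MrgPart0

-- ======== part 1: formerly Pool.Agent.MP_62f0b1_an.ae.G2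
section MrgPart1

/-!
Conjugation of the germ to the Birkhoff normal form of order three.
-/

set_option autoImplicit false

noncomputable section

namespace Pool.Agent.MP_62f0b1_an.AE

open Complex Filter Topology Set Asymptotics
open scoped ComplexConjugate

namespace G2

/-- The quadratic change of coordinates. -/
def psi (κ κ' : ℂ → ℂ) (p : C3) : C3 :=
  (p.1 + κ p.2.2 * p.2.1 ^ 2, p.2.1 + κ' p.2.2 * p.1 ^ 2, p.2.2)

theorem psi_base (κ κ' : ℂ → ℂ) (e0 : ℝ) : psi κ κ' (base e0) = base e0 := by simp [psi, base]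

theorem an1 (p : C3) : AnalyticAt ℂ (fun q : C3 => q.1) p := analyticAt_fst
theorem an2 (p : C3) : AnalyticAt ℂ (fun q : C3 => q.2.1) p := analyticAt_fst.comp analyticAt_snd
theorem an3 (p : C3) : AnalyticAt ℂ (fun q : C3 => q.2.2) p := analyticAt_snd.comp analyticAt_snd

theorem an_par {κ : ℂ → ℂ} {p : C3} (h : AnalyticAt ℂ κ p.2.2) :
    AnalyticAt ℂ (fun q : C3 => κ q.2.2) p :=
  AnalyticAt.comp (f := fun q : C3 => q.2.2) h (an3 p)

theorem an_psi {κ κ' : ℂ → ℂ} {p : C3} (h : AnalyticAt ℂ κ p.2.2) (h' : AnalyticAt ℂ κ' p.2.2) :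
    AnalyticAt ℂ (psi κ κ') p :=
  ((an1 p).add ((an_par h).mul ((an2 p).pow 2))).prod
    (((an2 p).add ((an_par h').mul ((an1 p).pow 2))).prod (an3 p))

theorem der_sq {c d : C3 → ℂ} {p : C3} (hc : AnalyticAt ℂ c p) (hd : AnalyticAt ℂ d p)
    (h0 : d p = 0) : HasFDerivAt (fun q => c q * d q ^ 2) (0 : C3 →L[ℂ] ℂ) p := by
  have h := (hc.mul hd).differentiableAt.hasFDerivAt.mul hd.differentiableAt.hasFDerivAt
  refine (h.congr_fderiv (ContinuousLinearMap.ext fun v => by simp [h0])).congr_of_eventuallyEq (Eventually.of_forall fun q => ?_)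
  simp only [Pi.mul_apply]
  ring

theorem exists_inv {κ κ' : ℂ → ℂ} {e0 : ℝ} (h : AnalyticAt ℂ κ e0) (h' : AnalyticAt ℂ κ' e0) :
    ∃ φ : C3 → C3, AnalyticAt ℂ φ (base e0) ∧ φ (base e0) = base e0 ∧
      (∀ᶠ p in 𝓝 (base e0), φ (psi κ κ' p) = p) ∧ ∀ᶠ q in 𝓝 (base e0), psi κ κ' (φ q) = q := by
  have ha : ContDiffAt ℂ ⊤ (psi κ κ') (base e0) := (an_psi (p := base e0) h h').contDiffAt
  have h1 := der_sq (an_par (p := base e0) h) (an2 _) rfl
  have h2 := der_sq (an_par (p := base e0) h') (an1 _) rfl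
  have hd : HasFDerivAt (psi κ κ') ((ContinuousLinearEquiv.refl ℂ C3 : C3 ≃L[ℂ] C3) : C3 →L[ℂ] C3)
      (base e0) := by
    have h3 := (hasFDerivAt_id (𝕜 := ℂ) (base e0)).add
      (h1.prodMk (h2.prodMk (hasFDerivAt_const (0 : ℂ) (base e0))))
    have h4 : ContinuousLinearMap.id ℂ C3 + (0 : C3 →L[ℂ] ℂ).prod
        ((0 : C3 →L[ℂ] ℂ).prod (0 : C3 →L[ℂ] ℂ)) =
        ((ContinuousLinearEquiv.refl ℂ C3 : C3 ≃L[ℂ] C3) : C3 →L[ℂ] C3) := by
      refine ContinuousLinearMap.ext fun v => ?_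
      simp
    rw [h4] at h3
    refine h3.congr_of_eventuallyEq (Eventually.of_forall fun q => ?_)
    simp [psi, Prod.ext_iff]
  have hs := ha.hasStrictFDerivAt' hd (by simp)
  refine ⟨ha.localInverse hd (by simp), ?_, ?_, hs.eventually_left_inverse, ?_⟩
  · have h5 := ha.to_localInverse hd (by simp)
    rw [psi_base] at h5
    exact h5.analyticAt
  · have h5 := ha.localInverse_apply_image hd (by simp)
    rwa [psi_base] at h5
  · have h5 := hs.eventually_right_inverse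
    rwa [psi_base] at h5

/-! ### Chain rule for the Jacobian -/

theorem chain {h u v : C3 → ℂ} {p : C3} (hh : DifferentiableAt ℂ h (u p, v p, p.2.2))
    (hu : DifferentiableAt ℂ u p) (hv : DifferentiableAt ℂ v p) (x y : ℂ) :
    fderiv ℂ (fun q => h (u q, v q, q.2.2)) p (x, y, 0) =
      d1 h (u p, v p, p.2.2) * fderiv ℂ u p (x, y, 0) +
        d2 h (u p, v p, p.2.2) * fderiv ℂ v p (x, y, 0) := by
  have h3 : HasFDerivAt (fun q : C3 => q.2.2)
      ((ContinuousLinearMap.snd ℂ ℂ ℂ).comp (ContinuousLinearMap.snd ℂ ℂ (ℂ × ℂ))) p :=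
    hasFDerivAt_snd.comp p hasFDerivAt_snd
  have h4 := hh.hasFDerivAt.comp p (hu.hasFDerivAt.prodMk (hv.hasFDerivAt.prodMk h3))
  have h5 : fderiv ℂ (fun q => h (u q, v q, q.2.2)) p = _ := h4.fderiv
  rw [h5, d1, d2, mul_comm, mul_comm _ (fderiv ℂ v p _), ← smul_eq_mul, ← smul_eq_mul,
    ← map_smul, ← map_smul, ← map_add]
  simp

theorem jac_comp {h k u v : C3 → ℂ} {p : C3} (hh : DifferentiableAt ℂ h (u p, v p, p.2.2))
    (hk : DifferentiableAt ℂ k (u p, v p, p.2.2)) (hu : DifferentiableAt ℂ u p)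
    (hv : DifferentiableAt ℂ v p) :
    jacC (fun q => h (u q, v q, q.2.2)) (fun q => k (u q, v q, q.2.2)) p =
      jacC h k (u p, v p, p.2.2) * jacC u v p := by
  have e1 := chain hh hu hv 1 0
  have e2 := chain hh hu hv 0 1
  have e3 := chain hk hu hv 1 0
  have e4 := chain hk hu hv 0 1
  simp only [jacC]
  change d1 _ _ = _ * d1 _ _ + _ * d1 _ _ at e1 e3
  change d2 _ _ = _ * d2 _ _ + _ * d2 _ _ at e2 e4
  rw [e1, e2, e3, e4]
  ring

theorem der_quad {κ : ℂ → ℂ} {p : C3} (h : DifferentiableAt ℂ κ p.2.2) (A B : C3 →L[ℂ] ℂ)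
    (x y : ℂ) : fderiv ℂ (fun q : C3 => A q + κ q.2.2 * B q ^ 2) p (x, y, 0) =
      A (x, y, 0) + 2 * κ p.2.2 * B p * B (x, y, 0) := by
  have h3 : HasFDerivAt (fun q : C3 => q.2.2)
      ((ContinuousLinearMap.snd ℂ ℂ ℂ).comp (ContinuousLinearMap.snd ℂ ℂ (ℂ × ℂ))) p :=
    hasFDerivAt_snd.comp p hasFDerivAt_snd
  have h4 := A.hasFDerivAt.add ((h.hasFDerivAt.comp p h3).mul (B.hasFDerivAt.pow 2))
  have h5 : fderiv ℂ (fun q : C3 => A q + κ q.2.2 * B q ^ 2) p = _ := h4.fderiv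
  rw [h5]
  simp
  ring

theorem jac_psi {κ κ' : ℂ → ℂ} {p : C3} (h : DifferentiableAt ℂ κ p.2.2)
    (h' : DifferentiableAt ℂ κ' p.2.2) :
    jacC (fun q => (psi κ κ' q).1) (fun q => (psi κ κ' q).2.1) p =
      1 - 4 * (κ p.2.2 * κ' p.2.2) * p.1 * p.2.1 := by
  have e1 := der_quad h (ContinuousLinearMap.fst ℂ ℂ (ℂ × ℂ))
    ((ContinuousLinearMap.fst ℂ ℂ ℂ).comp (ContinuousLinearMap.snd ℂ ℂ (ℂ × ℂ)))
  have e2 := der_quad h' ((ContinuousLinearMap.fst ℂ ℂ ℂ).comp (ContinuousLinearMap.snd ℂ ℂ (ℂ × ℂ)))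
    (ContinuousLinearMap.fst ℂ ℂ (ℂ × ℂ))
  simp only [ContinuousLinearMap.coe_fst', ContinuousLinearMap.coe_comp, Function.comp_apply,
    ContinuousLinearMap.coe_snd'] at e1 e2
  simp only [jacC, d1, d2, psi, e1, e2]
  ring

/-! ### Jets in one variable -/

theorem jet_step {c : ℂ} {h : ℝ → ℂ} {n : ℕ} (hh : ContinuousAt h 0)
    (H : (fun s : ℝ => c + s * h s) =O[𝓝[≠] 0] fun s => s ^ (n + 1)) :
    c = 0 ∧ h =O[𝓝[≠] 0] fun s => s ^ n := by
  have h0 : c = 0 := by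
    have t1 : Tendsto (fun s : ℝ => s ^ (n + 1)) (𝓝[≠] 0) (𝓝 0) := by
      have : Tendsto (fun s : ℝ => s ^ (n + 1)) (𝓝 0) (𝓝 (0 ^ (n + 1))) :=
        (continuous_pow _).tendsto 0
      rw [zero_pow (Nat.succ_ne_zero n)] at this
      exact this.mono_left nhdsWithin_le_nhds
    have t2 : ContinuousAt (fun s : ℝ => c + s * h s) 0 :=
      continuousAt_const.add (continuous_ofReal.continuousAt.mul hh)
    have t3 := t2.tendsto.mono_left (nhdsWithin_le_nhds (s := {0}ᶜ))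
    simp only [ofReal_zero, zero_mul, add_zero] at t3
    exact tendsto_nhds_unique t3 (H.trans_tendsto t1)
  refine ⟨h0, ?_⟩
  obtain ⟨C, hC⟩ := H.bound
  refine IsBigO.of_bound C ?_
  filter_upwards [hC, self_mem_nhdsWithin] with s hs h1
  have h2 : 0 < ‖s‖ := norm_pos_iff.2 h1
  rw [h0, zero_add, norm_mul, Complex.norm_real, pow_succ', norm_mul, mul_left_comm] at hs
  exact le_of_mul_le_mul_left hs h2

theorem jet3 {c0 c1 c2 : ℂ}
    (H : (fun s : ℝ => c0 + s * (c1 + s * (c2 + s * 0))) =O[𝓝[≠] 0] fun s => s ^ 3) :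
    c0 = 0 ∧ c1 = 0 ∧ c2 = 0 := by
  obtain ⟨e0, H1⟩ := jet_step (by fun_prop) H
  obtain ⟨e1, H2⟩ := jet_step (by fun_prop) H1
  exact ⟨e0, e1, (jet_step (h := fun _ => 0) continuousAt_const H2).1⟩

theorem jet4 {c1 c2 c3 : ℂ}
    (H : (fun s : ℝ => 0 + s * (c1 + s * (c2 + s * (c3 + s * 0)))) =O[𝓝[≠] 0] fun s => s ^ 4) :
    c1 = 0 ∧ c2 = 0 ∧ c3 = 0 :=
  jet3 (jet_step (by fun_prop) H).2

theorem norm_diag (s : ℝ) : ‖((s : ℂ), (s : ℂ))‖ = ‖s‖ := by simp

theorem bigO_of {r : ℝ → ℂ} {C : ℝ} {n : ℕ}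
    (h : ∀ᶠ s : ℝ in 𝓝 0, ‖r s‖ ≤ C * ‖((s : ℂ), (s : ℂ))‖ ^ n) : r =O[𝓝[≠] 0] fun s => s ^ n := by
  refine IsBigO.of_bound C ?_
  filter_upwards [h.filter_mono nhdsWithin_le_nhds] with s hs
  rwa [norm_diag, ← norm_pow] at hs

theorem cont_one {c : ℝ → ℂ} (h : ContinuousAt c 0) : c =O[𝓝[≠] 0] fun _ => (1 : ℝ) :=
  (h.tendsto.mono_left nhdsWithin_le_nhds).isBigO_one ℝ

theorem cont_mul {c r : ℝ → ℂ} {n : ℕ} (h : c =O[𝓝[≠] 0] fun _ => (1 : ℝ))
    (hr : r =O[𝓝[≠] 0] fun s => s ^ n) : (fun s => c s * r s) =O[𝓝[≠] 0] fun s => s ^ n := by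
  simpa using h.mul hr

theorem jac_jet {l a b l' a' b' : ℂ} {u1 u2 u3 u4 : ℝ → ℂ}
    (h1 : (fun s : ℝ => u1 s - (l + 2 * b * s * s)) =O[𝓝[≠] 0] fun s => s ^ 3)
    (h2 : (fun s : ℝ => u2 s - (2 * a * s + b * s ^ 2)) =O[𝓝[≠] 0] fun s => s ^ 3)
    (h3 : (fun s : ℝ => u3 s - (2 * a' * s + b' * s ^ 2)) =O[𝓝[≠] 0] fun s => s ^ 3)
    (h4 : (fun s : ℝ => u4 s - (l' + 2 * b' * s * s)) =O[𝓝[≠] 0] fun s => s ^ 3)
    (h : ∀ᶠ s : ℝ in 𝓝 0, u1 s * u4 s - u2 s * u3 s = 1) :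
    l * l' = 1 ∧ b * l' + b' * l = 2 * a * a' := by
  have s3 : (fun s : ℝ => (s : ℂ) ^ 3) =O[𝓝[≠] 0] fun s => s ^ 3 :=
    IsBigO.of_bound 1 (Eventually.of_forall fun s => by simp)
  have s1 : (fun s : ℝ => s ^ 3) =O[𝓝[≠] 0] fun _ => (1 : ℝ) :=
    (((continuous_pow 3).tendsto (0 : ℝ)).mono_left nhdsWithin_le_nhds).isBigO_one ℝ
  have k1 := cont_mul (cont_one (c := fun s : ℝ => l + 2 * b * s * s) (by fun_prop)) h4
  have k2 := cont_mul (cont_one (c := fun s : ℝ => l' + 2 * b' * s * s) (by fun_prop)) h1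
  have k3 := cont_mul (h1.trans s1) h4
  have k4 := cont_mul (cont_one (c := fun s : ℝ => 2 * a * s + b * s ^ 2) (by fun_prop)) h3
  have k5 := cont_mul (cont_one (c := fun s : ℝ => 2 * a' * s + b' * s ^ 2) (by fun_prop)) h2
  have k6 := cont_mul (h2.trans s1) h3
  have k7 := cont_mul (cont_one (c := fun s : ℝ => 2 * a * b' + 2 * a' * b - 3 * b * b' * s)
    (by fun_prop)) s3
  have k := (((k4.add k5).add k6).add k7).sub ((k1.add k2).add k3)
  have H : (fun s : ℝ => (l * l' - 1) + s * (0 + s * ((2 * (b * l' + b' * l) - 4 * a * a') +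
      s * 0))) =O[𝓝[≠] 0] fun s => s ^ 3 := by
    refine k.congr' ?_ EventuallyEq.rfl
    filter_upwards [h.filter_mono nhdsWithin_le_nhds] with s hs
    linear_combination (-1 : ℂ) * hs
  obtain ⟨e0, -, e2⟩ := jet3 H
  exact ⟨by linear_combination e0, by linear_combination (1 / 2 : ℂ) * e2⟩

theorem real_jet {l a b l' a' b' : ℂ} {u v : ℝ → ℂ}
    (h1 : (fun s : ℝ => u s - (l * s + a * s ^ 2 + b * s ^ 2 * s)) =O[𝓝[≠] 0] fun s => s ^ 4)
    (h2 : (fun s : ℝ => v s - (l' * s + a' * s ^ 2 + b' * s * s ^ 2)) =O[𝓝[≠] 0] fun s => s ^ 4)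
    (h : ∀ᶠ s : ℝ in 𝓝 0, v s = conj (u s)) : l' = conj l ∧ a' = conj a ∧ b' = conj b := by
  have h3 : (fun s : ℝ => conj (u s - (l * s + a * s ^ 2 + b * s ^ 2 * s))) =O[𝓝[≠] 0]
      fun s => s ^ 4 :=
    (IsBigO.of_bound 1 (Eventually.of_forall fun s => by rw [norm_conj, one_mul])).trans h1
  have H : (fun s : ℝ => 0 + s * ((l' - conj l) + s * ((a' - conj a) + s * ((b' - conj b) +
      s * 0)))) =O[𝓝[≠] 0] fun s => s ^ 4 := by
    refine (h3.sub h2).congr' ?_ EventuallyEq.rfl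
    filter_upwards [h.filter_mono nhdsWithin_le_nhds] with s hs
    simp only [hs, map_sub, map_add, map_mul, map_pow, conj_ofReal]
    ring
  obtain ⟨e1, e2, e3⟩ := jet4 H
  exact ⟨sub_eq_zero.1 e1, sub_eq_zero.1 e2, sub_eq_zero.1 e3⟩

/-! ### Remainders of order four -/

theorem mono {c u v : C3 → ℂ} {n : C3 → ℝ} {x : C3} (hc : ContinuousAt c x) (hu : u =O[𝓝 x] n)
    (hv : v =O[𝓝 x] n) (i j : ℕ) :
    (fun p => c p * u p ^ i * v p ^ j) =O[𝓝 x] fun p => n p ^ (i + j) := by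
  have h := ((hc.tendsto.isBigO_one ℝ).mul (hu.pow i)).mul (hv.pow j)
  simpa only [one_mul, pow_add] using h

theorem bigZ (x : C3) : (fun p : C3 => p.1) =O[𝓝 x] fun p => ‖(p.1, p.2.1)‖ :=
  IsBigO.of_bound 1 (Eventually.of_forall fun p => by
    rw [norm_norm, one_mul]; exact norm_fst_le (p.1, p.2.1))

theorem bigW (x : C3) : (fun p : C3 => p.2.1) =O[𝓝 x] fun p => ‖(p.1, p.2.1)‖ :=
  IsBigO.of_bound 1 (Eventually.of_forall fun p => by
    rw [norm_norm, one_mul]; exact norm_snd_le (p.1, p.2.1))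

theorem ofb {r : C3 → ℂ} {C : ℝ} {x : C3} (h : ∀ᶠ p in 𝓝 x, ‖r p‖ ≤ C * ‖(p.1, p.2.1)‖ ^ 4) :
    r =O[𝓝 x] fun p => ‖(p.1, p.2.1)‖ ^ 4 :=
  IsBigO.of_bound C (h.mono fun p hp => by rwa [norm_pow, norm_norm])

theorem quad_O {κ u v : C3 → ℂ} {n : C3 → ℝ} {x : C3} (hκ : ContinuousAt κ x)
    (cv : ContinuousAt v x) (hu : u =O[𝓝 x] n) (hv : v =O[𝓝 x] n) :
    (fun p => u p + κ p * v p ^ 2) =O[𝓝 x] n := by
  have h := mono (hκ.mul cv) hu hv 0 1
  simp only [zero_add, pow_one] at h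
  exact hu.add (h.congr_left fun p => by simp only [Pi.mul_apply]; ring)

theorem rem {l a b l' κ κ' c u v : C3 → ℂ} {n : C3 → ℝ} {x : C3} (ha : ContinuousAt a x)
    (hb : ContinuousAt b x) (hl' : ContinuousAt l' x) (hκ : ContinuousAt κ x)
    (hκ' : ContinuousAt κ' x) (hc : ContinuousAt c x) (cu : ContinuousAt u x)
    (cv : ContinuousAt v x) (hu : u =O[𝓝 x] n) (hv : v =O[𝓝 x] n)
    (h : ∀ᶠ p in 𝓝 x, κ p * (l' p ^ 2 - l p) = a p) :
    (fun p => l p * (u p + κ p * v p ^ 2) + a p * (v p + κ' p * u p ^ 2) ^ 2 +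
      b p * (u p + κ p * v p ^ 2) ^ 2 * (v p + κ' p * u p ^ 2) -
      (l p * u p + (b p + 2 * a p * κ' p) * u p ^ 2 * v p +
        κ p * (l' p * v p + c p * v p ^ 2 * u p) ^ 2)) =O[𝓝 x] fun p => n p ^ 4 := by
  have k1 := mono (c := fun p => a p * κ' p ^ 2 + b p * κ' p) (by fun_prop) hu hv 4 0
  have k2 := mono (c := fun p => 2 * b p * κ p * κ' p * u p +
    (b p * κ p ^ 2 * κ' p - κ p * c p ^ 2) * v p ^ 2) (by fun_prop) hu hv 2 2
  have k3 := mono (c := fun p => 2 * b p * κ p - 2 * κ p * l' p * c p) (by fun_prop) hu hv 1 3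
  have k4 := mono (c := fun p => b p * κ p ^ 2 * v p) (by fun_prop) hu hv 0 4
  refine (((k1.add k2).add k3).add k4).congr' ?_ EventuallyEq.rfl
  filter_upwards [h] with p hp
  linear_combination (v p ^ 2) * hp

theorem jac_congr {u v u' v' : C3 → ℂ} {p : C3} (hu : u =ᶠ[𝓝 p] u') (hv : v =ᶠ[𝓝 p] v') :
    jacC u v p = jacC u' v' p := by
  simp only [jacC, d1, d2, hu.fderiv_eq, hv.fderiv_eq]

theorem tend3 (e0 : ℝ) : Tendsto (fun p : C3 => p.2.2) (𝓝 (base e0)) (𝓝 (e0 : ℂ)) :=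
  (an3 (base e0)).continuousAt

theorem tend_rp (e0 : ℝ) :
    Tendsto (fun q : ℂ × ℝ => rp q.1 q.2) (𝓝 (0, e0)) (𝓝 (base e0)) := by
  have h : Continuous fun q : ℂ × ℝ => rp q.1 q.2 := by unfold rp; fun_prop
  simpa [rp, base] using h.tendsto (0, e0)

theorem diff_rp (q : ℂ × ℝ) : DifferentiableAt ℝ (fun q : ℂ × ℝ => rp q.1 q.2) q :=
  differentiableAt_fst.prodMk ((conjCLE.differentiableAt.comp q differentiableAt_fst).prodMk
    (ofRealCLM.differentiableAt.comp q differentiableAt_snd))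

theorem coef_jac {f g : C3 → ℂ} {e0 : ℝ} {l a b l' a' b' : ℂ → ℂ}
    (hE : Expn f g e0 l a b l' a' b') (hj : ∀ᶠ p in 𝓝 (base e0), jacC f g p = 1) :
    ∀ᶠ e : ℂ in 𝓝 (e0 : ℂ), l e * l' e = 1 ∧ b e * l' e + b' e * l e = 2 * a e * a' e := by
  obtain ⟨C, hC⟩ := hE.bound
  have h : Continuous fun q : ℂ × ℝ => (((q.2 : ℂ), (q.2 : ℂ), q.1) : C3) := by fun_prop
  have ht : Tendsto (fun q : ℂ × ℝ => (((q.2 : ℂ), (q.2 : ℂ), q.1) : C3)) (𝓝 (e0, 0))
      (𝓝 (base e0)) := by simpa [base] using h.tendsto (e0, 0)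
  filter_upwards [(ht.eventually (hC.and hj)).curry_nhds] with e he
  exact jac_jet (bigO_of (he.mono fun s hs => hs.1.2.2.1)) (bigO_of (he.mono fun s hs => hs.1.2.2.2.1))
    (bigO_of (he.mono fun s hs => hs.1.2.2.2.2.1)) (bigO_of (he.mono fun s hs => hs.1.2.2.2.2.2))
    (he.mono fun s hs => hs.2)

theorem coef_real {f g : C3 → ℂ} {e0 : ℝ} {l a b l' a' b' : ℂ → ℂ} (hG : Germ f g e0)
    (hE : Expn f g e0 l a b l' a' b') :
    ∀ᶠ e : ℝ in 𝓝 e0, l' e = conj (l e) ∧ a' e = conj (a e) ∧ b' e = conj (b e) := by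
  obtain ⟨C, hC⟩ := hE.bound
  have h : Continuous fun q : ℝ × ℝ => (((q.2 : ℂ), (q.2 : ℂ), (q.1 : ℂ)) : C3) := by fun_prop
  have ht : Tendsto (fun q : ℝ × ℝ => (((q.2 : ℂ), (q.2 : ℂ), (q.1 : ℂ)) : C3)) (𝓝 (e0, 0))
      (𝓝 (base e0)) := by simpa [base] using h.tendsto (e0, 0)
  have h' : Continuous fun q : ℝ × ℝ => ((q.2 : ℂ), q.1) := by fun_prop
  have ht' : Tendsto (fun q : ℝ × ℝ => ((q.2 : ℂ), q.1)) (𝓝 (e0, 0)) (𝓝 (0, e0)) := by
    simpa using h'.tendsto (e0, 0)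
  filter_upwards [((ht.eventually hC).and (ht'.eventually hG.real)).curry_nhds] with e he
  refine real_jet (bigO_of (he.mono fun s hs => hs.1.1)) (bigO_of (he.mono fun s hs => hs.1.2.1))
    (he.mono fun s hs => ?_)
  simpa only [rp, conj_ofReal] using hs.2

/-- The conjugated map, for given coefficients of the change of coordinates. -/
theorem conjugate {f g : C3 → ℂ} {e0 : ℝ} {l a b l' a' b' κ κ' : ℂ → ℂ} (hG : Germ f g e0)
    (hE : Expn f g e0 l a b l' a' b') (hj : ∀ᶠ p in 𝓝 (base e0), jacC f g p = 1)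
    (aκ : AnalyticAt ℂ κ e0) (aκ' : AnalyticAt ℂ κ' e0)
    (hκ : ∀ᶠ e : ℂ in 𝓝 (e0 : ℂ), κ e * (l' e ^ 2 - l e) = a e)
    (hκ' : ∀ᶠ e : ℂ in 𝓝 (e0 : ℂ), κ' e * (l e ^ 2 - l' e) = a' e)
    (hr : ∀ᶠ e : ℝ in 𝓝 e0, κ' e = conj (κ e)) :
    ∃ F G : C3 → ℂ, AnalyticAt ℂ F (base e0) ∧ AnalyticAt ℂ G (base e0) ∧
      (∃ C : ℝ, ∀ᶠ p in 𝓝 (base e0),
        ‖F p - (l p.2.2 * p.1 + (b p.2.2 + 2 * a p.2.2 * κ' p.2.2) * p.1 ^ 2 * p.2.1)‖ ≤
          C * ‖(p.1, p.2.1)‖ ^ 4 ∧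
        ‖G p - (l' p.2.2 * p.2.1 + (b' p.2.2 + 2 * a' p.2.2 * κ p.2.2) * p.2.1 ^ 2 * p.1)‖ ≤
          C * ‖(p.1, p.2.1)‖ ^ 4) ∧
      (∀ᶠ q in 𝓝 ((0 : ℂ), e0), G (rp q.1 q.2) = conj (F (rp q.1 q.2))) ∧
      (∀ᶠ p in 𝓝 (base e0), jacC F G p * (1 - 4 * (κ p.2.2 * κ' p.2.2) * F p * G p) =
        1 - 4 * (κ p.2.2 * κ' p.2.2) * p.1 * p.2.1) ∧ Conj f F κ e0 := by
  obtain ⟨φ, aφ, φ0, hl, hrt⟩ := exists_inv aκ aκ'
  obtain ⟨C, hC⟩ := hE.bound
  have aψ : AnalyticAt ℂ (psi κ κ') (base e0) := an_psi (p := base e0) aκ aκ'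
  have tψ : Tendsto (psi κ κ') (𝓝 (base e0)) (𝓝 (base e0)) := by
    have := aψ.continuousAt.tendsto
    rwa [psi_base] at this
  have f0 : f (base e0) = 0 := by simpa [base] using hC.self_of_nhds.1
  have g0 : g (base e0) = 0 := by simpa [base] using hC.self_of_nhds.2.1
  set A : C3 → C3 := fun p => (f (psi κ κ' p), g (psi κ κ' p), p.2.2) with hA
  have aA : AnalyticAt ℂ A (base e0) :=
    (hG.an_f.comp_of_eq aψ (psi_base _ _ _)).prod
      ((hG.an_g.comp_of_eq aψ (psi_base _ _ _)).prod (an3 _))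
  have A0 : A (base e0) = base e0 := by
    rw [hA]; simp only [psi_base, f0, g0]; rfl
  have tA : Tendsto A (𝓝 (base e0)) (𝓝 (base e0)) := by
    have := aA.continuousAt.tendsto
    rwa [A0] at this
  have aΦ : AnalyticAt ℂ (fun p => φ (A p)) (base e0) := aφ.comp_of_eq aA A0
  have tΦ : Tendsto (fun p => φ (A p)) (𝓝 (base e0)) (𝓝 (base e0)) := by
    have := aΦ.continuousAt.tendsto
    rwa [A0, φ0] at this
  set F : C3 → ℂ := fun p => (φ (A p)).1 with hF
  set G : C3 → ℂ := fun p => (φ (A p)).2.1 with hGd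
  have aF : AnalyticAt ℂ F (base e0) := (an1 _).comp aΦ
  have aG : AnalyticAt ℂ G (base e0) := (an2 _).comp aΦ
  have key : ∀ᶠ p in 𝓝 (base e0), φ (A p) = (F p, G p, p.2.2) ∧
      psi κ κ' (F p, G p, p.2.2) = A p := by
    filter_upwards [tA.eventually hrt] with p hp
    have h3 : (φ (A p)).2.2 = p.2.2 := (congrArg (fun q : C3 => q.2.2) hp :)
    have h4 : φ (A p) = (F p, G p, p.2.2) := by rw [← h3]
    exact ⟨h4, by rw [← h4, hp]⟩
  have cp : ∀ {c : ℂ → ℂ}, AnalyticAt ℂ c e0 → ContinuousAt (fun p : C3 => c p.2.2) (base e0) :=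
    fun h => (an_par (p := base e0) h).continuousAt
  have cZ := (an1 (base e0)).continuousAt
  have cW := (an2 (base e0)).continuousAt
  have c3 := (an3 (base e0)).continuousAt
  have cl := cp hE.an_l
  have ca := cp hE.an_a
  have cb := cp hE.an_b
  have cl' := cp hE.an_l'
  have ca' := cp hE.an_a'
  have cb' := cp hE.an_b'
  have cκ := cp aκ
  have cκ' := cp aκ'
  have cc : ContinuousAt (fun p : C3 => b p.2.2 + 2 * a p.2.2 * κ' p.2.2) (base e0) :=
    cb.add ((continuousAt_const.mul ca).mul cκ')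
  have cc' : ContinuousAt (fun p : C3 => b' p.2.2 + 2 * a' p.2.2 * κ p.2.2) (base e0) :=
    cb'.add ((continuousAt_const.mul ca').mul cκ)
  have real : ∀ᶠ q : ℂ × ℝ in 𝓝 (0, e0), G (rp q.1 q.2) = conj (F (rp q.1 q.2)) ∧
      psi κ κ' (rp q.1 q.2) = rp (q.1 + κ q.2 * conj q.1 ^ 2) q.2 ∧
      f (psi κ κ' (rp q.1 q.2)) = F (rp q.1 q.2) + κ q.2 * G (rp q.1 q.2) ^ 2 := by
    have t2 : Tendsto (fun q : ℂ × ℝ => q.2) (𝓝 (0, e0)) (𝓝 e0) := continuous_snd.tendsto (0, e0)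
    have t3 : Tendsto (fun q : ℂ × ℝ => ((psi κ κ' (rp q.1 q.2)).1, q.2)) (𝓝 (0, e0))
        (𝓝 (0, e0)) := ((cZ.tendsto.comp tψ).comp (tend_rp e0)).prodMk_nhds t2
    have cs : Continuous fun p : C3 => ((conj p.2.1, conj p.1, p.2.2) : C3) := by fun_prop
    have t4 : Tendsto (fun p : C3 => ((conj p.2.1, conj p.1, p.2.2) : C3)) (𝓝 (base e0))
        (𝓝 (base e0)) := by simpa [base] using cs.tendsto (base e0)
    filter_upwards [t2.eventually hr, t3.eventually hG.real, (tend_rp e0).eventually key,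
      ((t4.comp tΦ).comp (tend_rp e0)).eventually hl] with q h1 h2 h3 h4
    have e1 : psi κ κ' (rp q.1 q.2) = rp (q.1 + κ q.2 * conj q.1 ^ 2) q.2 := by
      simp [psi, rp, h1]
    have e2 : (psi κ κ' (rp q.1 q.2)).1 = q.1 + κ q.2 * conj q.1 ^ 2 := rfl
    have e3 : F (rp q.1 q.2) + κ q.2 * G (rp q.1 q.2) ^ 2 = f (psi κ κ' (rp q.1 q.2)) :=
      congrArg (fun r : C3 => r.1) h3.2
    have e4 : G (rp q.1 q.2) + κ' q.2 * F (rp q.1 q.2) ^ 2 = g (psi κ κ' (rp q.1 q.2)) :=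
      congrArg (fun r : C3 => r.2.1) h3.2
    simp only [e2] at h2
    rw [← e1] at h2
    refine ⟨?_, e1, e3.symm⟩
    simp only [Function.comp_apply, h3.1] at h4
    have e5 : psi κ κ' (conj (G (rp q.1 q.2)), conj (F (rp q.1 q.2)), (rp q.1 q.2).2.2) =
        A (rp q.1 q.2) := by
      refine Prod.ext ?_ (Prod.ext ?_ rfl)
      · change conj (G _) + κ q.2 * conj (F _) ^ 2 = f _
        rw [← conj_conj (f _), ← h2, ← e4, h1]
        simp
      · change conj (F _) + κ' q.2 * conj (G _) ^ 2 = g _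
        rw [h2, ← e3, h1]
        simp
    rw [e5, h3.1] at h4
    exact congrArg (fun r : C3 => r.2.1) h4
  refine ⟨F, G, aF, aG, ?_, real.mono fun q h => h.1, ?_, aκ, ?_, fun q => (φ (rp q.1 q.2)).1, ?_⟩
  · set T : C3 → C3 := fun p =>
      (l p.2.2 * p.1 + (b p.2.2 + 2 * a p.2.2 * κ' p.2.2) * p.1 ^ 2 * p.2.1,
        l' p.2.2 * p.2.1 + (b' p.2.2 + 2 * a' p.2.2 * κ p.2.2) * p.2.1 ^ 2 * p.1, p.2.2) with hT
    have tT : Tendsto T (𝓝 (base e0)) (𝓝 (base e0)) := by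
      have h1 : ContinuousAt T (base e0) :=
        ((cl.mul cZ).add ((cc.mul (cZ.pow 2)).mul cW)).prodMk
          (((cl'.mul cW).add ((cc'.mul (cW.pow 2)).mul cZ)).prodMk c3)
      have h2 : T (base e0) = base e0 := by simp [hT, base]
      have := h1.tendsto
      rwa [h2] at this
    have nψ : (fun p => ‖((psi κ κ' p).1, (psi κ κ' p).2.1)‖ ^ 4) =O[𝓝 (base e0)]
        fun p => ‖(p.1, p.2.1)‖ ^ 4 :=
      ((quad_O cκ cW (bigZ _) (bigW _)).prod_left (quad_O cκ' cZ (bigW _) (bigZ _))).norm_left.pow 4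
    have b1 := ((ofb (hC.mono fun p h => h.1)).comp_tendsto tψ).trans nψ
    have b2 := ((ofb (hC.mono fun p h => h.2.1)).comp_tendsto tψ).trans nψ
    have r1 := rem (l := fun p : C3 => l p.2.2) ca cb cl' cκ cκ' cc' cZ cW
      (bigZ _) (bigW _) ((tend3 e0).eventually hκ)
    have r2 := rem (l := fun p : C3 => l' p.2.2) ca' cb' cl cκ' cκ cc cW cZ
      (bigW _) (bigZ _) ((tend3 e0).eventually hκ')
    have hAB : (fun p => A p - psi κ κ' (T p)) =O[𝓝 (base e0)] fun p => ‖(p.1, p.2.1)‖ ^ 4 := by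
      refine ((b1.add r1).prod_left ((b2.add r2).prod_left
        (isBigO_zero (E' := ℂ) _ _))).congr_left fun p => ?_
      refine Prod.ext ?_ (Prod.ext ?_ ?_)
      · simp only [hA, hT, psi, Function.comp_apply, Prod.fst_sub]; ring
      · simp only [hA, hT, psi, Function.comp_apply, Prod.fst_sub, Prod.snd_sub]; ring
      · simp only [hA, hT, psi, Prod.snd_sub, sub_self]
    obtain ⟨C', hC'⟩ := ((aφ.hasStrictFDerivAt.isBigO_sub.comp_tendsto
      (tA.prodMk_nhds (tψ.comp tT))).trans hAB).bound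
    refine ⟨C', ?_⟩
    filter_upwards [hC', key, tT.eventually hl] with p h1 h2 h3
    simp only [Function.comp_apply, h2.1, h3, norm_pow, norm_norm] at h1
    exact ⟨(norm_fst_le _).trans h1, ((norm_fst_le _).trans (norm_snd_le _)).trans h1⟩
  · filter_upwards [key.eventually_nhds, tψ.eventually hj,
      tψ.eventually hG.an_f.eventually_analyticAt, tψ.eventually hG.an_g.eventually_analyticAt,
      aF.eventually_analyticAt, aG.eventually_analyticAt,
      (tend3 e0).eventually aκ.eventually_analyticAt,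
      (tend3 e0).eventually aκ'.eventually_analyticAt] with p h1 h2 h3 h4 h5 h6 h7 h8
    have k1 := (an_psi h7 h8).differentiableAt
    have k2 := (an_psi (p := (F p, G p, p.2.2)) h7 h8).differentiableAt
    have j1 := jac_comp (u := fun q => (psi κ κ' q).1) (v := fun q => (psi κ κ' q).2.1)
      h3.differentiableAt h4.differentiableAt k1.fst k1.snd.fst
    have j2 := jac_comp (h := fun q => (psi κ κ' q).1) (k := fun q => (psi κ κ' q).2.1)
      k2.fst k2.snd.fst h5.differentiableAt h6.differentiableAt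
    have j3 := jac_psi (p := (F p, G p, p.2.2)) h7.differentiableAt h8.differentiableAt
    have j4 := jac_congr (h1.mono fun q h => congrArg (fun r : C3 => r.1) h.2)
      (h1.mono fun q h => congrArg (fun r : C3 => r.2.1) h.2)
    change jacC f g (psi κ κ' p) = 1 at h2
    change _ = jacC f g (psi κ κ' p) * _ at j1
    rw [h2, one_mul, jac_psi h7.differentiableAt h8.differentiableAt] at j1
    rw [j3] at j2
    rw [mul_comm, ← j2, j4]
    exact j1
  · filter_upwards [real] with q h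
    rw [← h.2.1, h.2.2, h.1]
  · filter_upwards [real, (tend_rp e0).eventually hl,
      (tψ.comp (tend_rp e0)).eventually aφ.eventually_analyticAt] with q h1 h2 h3
    simp only [Function.comp_apply, h1.2.1] at h3
    refine ⟨?_, ?_⟩
    · exact (DifferentiableAt.comp (g := φ) (f := fun q : ℂ × ℝ => rp q.1 q.2)
        (q.1 + κ q.2 * conj q.1 ^ 2, q.2) (h3.differentiableAt.restrictScalars ℝ) (diff_rp _)).fst
    · rw [← h1.2.1, h2]
      rfl

end G2

open G2

theorem g2 : G2Stmt := by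
  intro _ f g e0 l a b l' a' b' hG hE hj h3 hν hα
  have J := coef_jac hE hj
  have R := coef_real hG hE
  have J0 := J.self_of_nhds.1
  have l0 : l e0 ≠ 0 := left_ne_zero_of_mul_eq_one J0
  have n1 : l' e0 ^ 2 - l e0 ≠ 0 := fun h =>
    h3 (by linear_combination (-l e0 ^ 2) * h + (l e0 * l' e0 + 1) * J0)
  have n2 : l e0 ^ 2 - l' e0 ≠ 0 := fun h => h3 (by linear_combination l e0 * h + J0)
  have a1 := (hE.an_l'.pow 2).sub hE.an_l
  have a2 := (hE.an_l.pow 2).sub hE.an_l'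
  set κ : ℂ → ℂ := fun e => a e / (l' e ^ 2 - l e) with hκd
  set κ' : ℂ → ℂ := fun e => a' e / (l e ^ 2 - l' e) with hκd'
  have aκ : AnalyticAt ℂ κ e0 := hE.an_a.div a1 n1
  have aκ' : AnalyticAt ℂ κ' e0 := hE.an_a'.div a2 n2
  have hκ : ∀ᶠ e : ℂ in 𝓝 (e0 : ℂ), κ e * (l' e ^ 2 - l e) = a e :=
    (a1.continuousAt.eventually_ne n1).mono fun e h => div_mul_cancel₀ _ h
  have hκ' : ∀ᶠ e : ℂ in 𝓝 (e0 : ℂ), κ' e * (l e ^ 2 - l' e) = a' e :=
    (a2.continuousAt.eventually_ne n2).mono fun e h => div_mul_cancel₀ _ h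
  have hr : ∀ᶠ e : ℝ in 𝓝 e0, κ' e = conj (κ e) := R.mono fun e h => by
    simp only [hκd, hκd', h.1, h.2.1, map_div₀, map_sub, map_pow, conj_conj]
  obtain ⟨F, G, aF, aG, ⟨C, hC⟩, hreal, hdet, hc⟩ := conjugate hG hE hj aκ aκ' hκ hκ' hr
  have hb : ∀ᶠ e : ℂ in 𝓝 (e0 : ℂ),
      (b e + 2 * a e * κ' e) * l' e + (b' e + 2 * a' e * κ e) * l e = 0 := by
    filter_upwards [J, hκ, hκ'] with e h1 h2 h4
    rw [← h2, ← h4] at h1 ⊢
    linear_combination h1.2 + 2 * κ e * κ' e * (l e * l' e) * h1.1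
  have hα' : ∀ᶠ e : ℂ in 𝓝 (e0 : ℂ), l e = exp (I * (-I * (log (l e0) + log (l e / l e0)))) := by
    filter_upwards [J] with e h
    have h1 : l e ≠ 0 := left_ne_zero_of_mul_eq_one h.1
    have h2 : I * (-I * (log (l e0) + log (l e / l e0))) = log (l e0) + log (l e / l e0) := by
      linear_combination (-(log (l e0) + log (l e / l e0))) * I_mul_I
    rw [h2, exp_add, exp_log l0, exp_log (div_ne_zero h1 l0), mul_div_cancel₀ _ l0]
  have sl : l e0 / l e0 ∈ slitPlane := by rw [div_self l0]; exact one_mem_slitPlane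
  have tr : Tendsto (fun e : ℝ => (e : ℂ)) (𝓝 e0) (𝓝 (e0 : ℂ)) := continuous_ofReal.tendsto e0
  refine ⟨F, G, fun e => -I * (log (l e0) + log (l e / l e0)),
    fun e => -I * ((b e + 2 * a e * κ' e) / l e), fun e => κ e * κ' e, κ,
    ⟨aF, aG, ?_, ?_, aκ.mul aκ', ?_, ?_, ?_, ⟨C, ?_⟩, hreal, hdet⟩, hc, hα'⟩
  · exact analyticAt_const.mul (analyticAt_const.add
      ((hE.an_l.div analyticAt_const l0).clog sl))
  · exact analyticAt_const.mul
      ((hE.an_b.add ((analyticAt_const.mul hE.an_a).mul aκ')).div hE.an_l l0)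
  · filter_upwards [R, hr, tr.eventually J, tr.eventually hb, tr.eventually hα'] with e h1 h2 h4 h5 h6
    have h7 : l e ≠ 0 := left_ne_zero_of_mul_eq_one h4.1
    refine ⟨?_, ?_, ?_⟩
    · have h8 : ‖l e‖ ^ 2 = 1 := by
        have := h4.1
        rw [h1.1, mul_conj, normSq_eq_norm_sq] at this
        exact_mod_cast this
      have h9 : ‖l e‖ = 1 := (pow_eq_one_iff_of_nonneg (norm_nonneg _) two_ne_zero).1 h8
      rw [h6, norm_exp, Real.exp_eq_one_iff, I_mul_re, neg_eq_zero] at h9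
      exact h9
    · rw [← conj_eq_iff_im]
      have h8 : conj (l e) ≠ 0 := (_root_.map_ne_zero _).2 h7
      have h9 : conj (κ' e) = κ e := by rw [h2, conj_conj]
      simp only [map_mul, map_neg, conj_I, map_div₀, map_add, h9, map_ofNat]
      rw [h1.1, h1.2.1, h1.2.2] at h5
      field_simp
      linear_combination h5
    · rw [h2, mul_conj, ofReal_im]
  · have h4 : (b e0 + 2 * a e0 * κ' e0) / l e0 =
        b e0 / l e0 + 2 * a e0 * a' e0 / (l e0 ^ 3 - 1) := by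
      have h5 : l e0 ^ 3 - 1 = l e0 * (l e0 ^ 2 - l' e0) := by linear_combination J0
      rw [h5, hκd']
      field_simp
    simp only [h4, neg_mul, neg_re, I_mul_re, neg_neg]
    exact hν
  · have h4 := (((hE.an_l.differentiableAt.hasDerivAt.div_const (l e0)).clog sl).const_add
      (log (l e0))).const_mul (-I)
    rw [h4.deriv, div_self l0, div_one, neg_mul, neg_re, I_mul_re, neg_neg]
    exact hα
  · filter_upwards [hC, (tend3 e0).eventually J, (tend3 e0).eventually hb,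
      (tend3 e0).eventually hα'] with p h1 h2 h4 h5
    have h7 : l p.2.2 ≠ 0 := left_ne_zero_of_mul_eq_one h2.1
    have h8 : l' p.2.2 = (l p.2.2)⁻¹ := eq_inv_of_mul_eq_one_right h2.1
    have h9 : ∀ x : ℂ, I * (-I * x) = x := fun x => by linear_combination (-x) * I_mul_I
    rw [exp_neg, ← h5, ← h8, h9]
    have e1 : l p.2.2 * p.1 * (1 + (b p.2.2 + 2 * a p.2.2 * κ' p.2.2) / l p.2.2 * p.1 * p.2.1) =
        l p.2.2 * p.1 + (b p.2.2 + 2 * a p.2.2 * κ' p.2.2) * p.1 ^ 2 * p.2.1 := by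
      field_simp
    have e2 : l' p.2.2 * p.2.1 *
        (1 - (b p.2.2 + 2 * a p.2.2 * κ' p.2.2) / l p.2.2 * p.1 * p.2.1) =
        l' p.2.2 * p.2.1 + (b' p.2.2 + 2 * a' p.2.2 * κ p.2.2) * p.2.1 ^ 2 * p.1 := by
      field_simp
      linear_combination (-(p.1 * p.2.1 ^ 2)) * h4
    rw [e1, e2]
    exact h1

end Pool.Agent.MP_62f0b1_an.AE

end
end MrgPart1

-- ======== part 2: formerly Pool.Agent.MP_62f0b1_an.ae.K1
section MrgPart2

/-!
The cohomological equation on strips.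
-/

set_option autoImplicit false

noncomputable section

namespace Pool.Agent.MP_62f0b1_an.AE

open Complex Filter Topology Set
open scoped ComplexConjugate

namespace K1

/-- Fourier coefficient of a periodic function on the line. -/
def co (f : ℝ → ℂ) (k : ℤ) : ℂ :=
  (1 / (2 * Real.pi) : ℝ) • ∫ θ in (0 : ℝ)..2 * Real.pi, exp (-(k * θ * I)) * f θ

theorem hasSum_co (f : ℝ → ℂ) (hc : Continuous f) (hp : Function.Periodic f (2 * Real.pi))
    (hs : Summable (co f)) (θ : ℝ) : HasSum (fun k : ℤ => co f k * exp (k * θ * I)) (f θ) := by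
  have : Fact (0 < 2 * Real.pi) := ⟨Real.two_pi_pos⟩
  have hpi : (Real.pi : ℂ) ≠ 0 := by exact_mod_cast Real.pi_ne_zero
  let F : C(AddCircle (2 * Real.pi), ℂ) := ⟨hp.lift, continuous_coinduced_dom.2 hc⟩
  have hF : ∀ x : ℝ, F (x : AddCircle (2 * Real.pi)) = f x := fun x => rfl
  have hfo : ∀ (k : ℤ) (x : ℝ), fourier k (x : AddCircle (2 * Real.pi)) = exp (k * x * I) := by
    intro k x
    rw [fourier_coe_apply]
    congr 1
    push_cast
    field_simp
  have hco : fourierCoeff F = co f := by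
    funext k
    rw [fourierCoeff_eq_intervalIntegral F k 0, zero_add, co]
    congr 1
    refine intervalIntegral.integral_congr fun x _ => ?_
    simp only [hfo, hF, smul_eq_mul]
    congr 2
    push_cast
    ring
  have h := has_pointwise_sum_fourier_series_of_summable (f := F) (by rw [hco]; exact hs)
    (θ : AddCircle (2 * Real.pi))
  rw [hco, hF] at h
  simpa only [hfo, smul_eq_mul] using h

theorem mem_strip {ρ : ℝ} (x y : ℝ) (hy : |y| < ρ) : (x : ℂ) + y * I ∈ Strip ρ := by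
  simpa [Strip] using hy

theorem isOpen_strip (ρ : ℝ) : IsOpen (Strip ρ) :=
  isOpen_lt (continuous_abs.comp Complex.continuous_im) continuous_const

/-- Shift of the contour. -/
theorem shift {ρ : ℝ} {f : ℂ → ℂ} (hd : DifferentiableOn ℂ f (Strip ρ))
    (hp : ∀ x ∈ Strip ρ, f (x + 2 * Real.pi) = f x) {y : ℝ} (hy : |y| < ρ) :
    ∫ θ in (0 : ℝ)..2 * Real.pi, f (θ + y * I) = ∫ θ in (0 : ℝ)..2 * Real.pi, f θ := by
  have hsub : ∀ s ∈ uIcc (0 : ℝ) y, |s| < ρ := by
    intro s hs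
    have := abs_sub_left_of_mem_uIcc hs
    simp only [sub_zero] at this
    exact this.trans_lt hy
  have h := Complex.integral_boundary_rect_eq_zero_of_differentiableOn f 0
    ((2 * Real.pi : ℝ) + y * I) (hd.mono (by
      intro z hz
      have h2 := (Complex.mem_reProdIm.1 hz).2
      simp only [Complex.zero_im, Complex.add_im, Complex.ofReal_im, Complex.mul_im,
        Complex.ofReal_re, Complex.I_im, Complex.I_re, mul_one, mul_zero, add_zero,
        zero_add] at h2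
      exact hsub _ h2))
  simp only [Complex.zero_im, Complex.zero_re, Complex.add_im, Complex.add_re, Complex.ofReal_im,
    Complex.mul_im, Complex.mul_re, Complex.ofReal_re, Complex.I_im, Complex.I_re, mul_one,
    mul_zero, add_zero, zero_add, sub_zero, Complex.ofReal_zero, zero_mul] at h
  have h3 : ∫ s in (0 : ℝ)..y, f ((2 * Real.pi : ℝ) + s * I) = ∫ s in (0 : ℝ)..y, f (s * I) := by
    refine intervalIntegral.integral_congr fun s hs => ?_
    have := hp _ (mem_strip 0 s (hsub s hs))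
    simp only [Complex.ofReal_zero, zero_add] at this
    rw [← this]
    congr 1
    push_cast
    ring
  rw [h3] at h
  linear_combination -h

theorem co_shift {ρ : ℝ} {g : ℂ → ℂ} (hg : PerHol ρ g) {y : ℝ} (hy : |y| < ρ) (k : ℤ) :
    co (fun θ => g (θ + y * I)) k = co (fun θ => g θ) k * exp (-(k * y)) := by
  have h := shift (ρ := ρ) (f := fun z => exp (-(k * z * I)) * g z)
    (DifferentiableOn.mul (by fun_prop) hg.diff) (by
      intro x hx
      rw [hg.per x hx]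
      congr 1
      have : -((k : ℂ) * (x + 2 * Real.pi) * I) = -(k * x * I) + (-k : ℤ) * (2 * Real.pi * I) := by
        push_cast; ring
      rw [this, Complex.exp_add, Complex.exp_int_mul_two_pi_mul_I, mul_one]) hy
  rw [co, co, smul_mul_assoc, ← h, ← intervalIntegral.integral_mul_const]
  congr 1
  refine intervalIntegral.integral_congr fun x _ => ?_
  have : -((k : ℂ) * x * I) = -(k * (x + y * I) * I) + -(k * y) := by
    linear_combination (k * y : ℂ) * I_mul_I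
  rw [this, Complex.exp_add]
  ring

theorem norm_co_le {f : ℝ → ℂ} {M : ℝ} (hM : ∀ θ, ‖f θ‖ ≤ M) (k : ℤ) : ‖co f k‖ ≤ M := by
  have h : ‖∫ θ in (0 : ℝ)..2 * Real.pi, exp (-(k * θ * I)) * f θ‖ ≤ M * |2 * Real.pi - 0| := by
    refine intervalIntegral.norm_integral_le_of_norm_le_const fun θ _ => ?_
    rw [norm_mul, Complex.norm_exp]
    simpa using hM θ
  have hp := Real.two_pi_pos
  rw [co, norm_smul, Real.norm_of_nonneg (by positivity)]
  rw [sub_zero, abs_of_pos hp] at h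
  calc _ ≤ 1 / (2 * Real.pi) * (M * (2 * Real.pi)) := by gcongr
    _ = M := by field_simp

theorem norm_co_decay {ρ M : ℝ} {g : ℂ → ℂ} (hg : PerHol ρ g) (hM : ∀ x ∈ Strip ρ, ‖g x‖ ≤ M)
    {s : ℝ} (hs0 : 0 ≤ s) (hs : s < ρ) (k : ℕ) :
    ‖co (fun θ => g θ) k‖ ≤ M * Real.exp (-(k * s)) := by
  have hy : |(-s)| < ρ := by rwa [abs_neg, abs_of_nonneg hs0]
  have h1 := norm_co_le (f := fun θ : ℝ => g (θ + (-s : ℝ) * I)) (M := M)
    (fun θ => hM _ (mem_strip θ _ hy)) k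
  rw [co_shift hg hy, norm_mul, Complex.norm_exp] at h1
  have h2 : (-(((k : ℤ) : ℂ) * ((-s : ℝ) : ℂ))).re = k * s := by simp
  rw [h2] at h1
  rw [Real.exp_neg, ← div_eq_mul_inv, le_div_iff₀ (Real.exp_pos _)]
  exact h1

theorem co_neg {f : ℝ → ℂ} (hf : ∀ θ, (f θ).im = 0) (k : ℤ) : co f (-k) = conj (co f k) := by
  rw [co, co, Complex.real_smul, Complex.real_smul, map_mul, Complex.conj_ofReal]
  congr 1
  rw [intervalIntegral.integral_of_le Real.two_pi_pos.le,
    intervalIntegral.integral_of_le Real.two_pi_pos.le, ← integral_conj]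
  refine MeasureTheory.integral_congr_ae (Eventually.of_forall fun θ => ?_)
  simp only [map_mul, ← Complex.exp_conj, map_neg, Complex.conj_ofReal, Complex.conj_I,
    map_intCast, Complex.conj_eq_iff_im.2 (hf θ)]
  congr 2
  push_cast
  ring

theorem sum_bound {d : ℝ} (hd : 0 < d) (hd1 : d ≤ 1) :
    ∃ S : ℝ, HasSum (fun k : ℕ => (k : ℝ) ^ 2 * Real.exp (-(k * (d / 2)))) S ∧ S ≤ 54 / d ^ 3 := by
  set r := Real.exp (-(d / 2)) with hr
  have hr0 : 0 < r := Real.exp_pos _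
  have hr1 : r ≤ 1 - d / 3 := by
    have h1 : d / 2 + 1 ≤ Real.exp (d / 2) := Real.add_one_le_exp _
    have h2 : r * Real.exp (d / 2) = 1 := by rw [hr, ← Real.exp_add]; simp
    nlinarith
  have hn : ‖r‖ < 1 := by rw [Real.norm_of_nonneg hr0.le]; linarith
  have he : ∀ k : ℕ, Real.exp (-(k * (d / 2))) = r ^ k := by
    intro k; rw [hr, ← Real.exp_nat_mul]; congr 1; ring
  simp only [he]
  have hs := summable_pow_mul_geometric_of_norm_lt_one 2 hn
  refine ⟨_, hs.hasSum, ?_⟩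
  have h2 := (hasSum_choose_mul_geometric_of_norm_lt_one 2 hn).mul_left 2
  have h3 : ∑' k : ℕ, (k : ℝ) ^ 2 * r ^ k ≤ 2 * (1 / (1 - r) ^ (2 + 1)) := by
    refine hasSum_le (fun k => ?_) hs.hasSum h2
    rw [← mul_assoc]
    gcongr
    rw [Nat.cast_choose_two]
    push_cast
    have : (0 : ℝ) ≤ k := Nat.cast_nonneg k
    nlinarith
  refine h3.trans ?_
  have h4 : (d / 3) ^ 3 ≤ (1 - r) ^ 3 := by gcongr; linarith
  calc 2 * (1 / (1 - r) ^ (2 + 1)) ≤ 2 * (1 / (d / 3) ^ 3) := by gcongr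
    _ = 54 / d ^ 3 := by field_simp; norm_num

theorem norm_exp_le {s : ℝ} {x : ℂ} (hx : x ∈ Strip s) (k : ℕ) :
    ‖exp (k * x * I)‖ ≤ Real.exp (k * s) ∧ ‖exp (-(k * x * I))‖ ≤ Real.exp (k * s) := by
  have h := abs_lt.1 (show |x.im| < s from hx)
  have hk : (0 : ℝ) ≤ k := Nat.cast_nonneg k
  rw [Complex.norm_exp, Complex.norm_exp]
  constructor <;> apply Real.exp_le_exp.2 <;> simp <;> nlinarith [h.1, h.2]

end K1

open K1 in
theorem k1 : K1Stmt := by
  refine ⟨108, by norm_num, ?_⟩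
  intro γ w ρ d M g hγ hw hd hdρ hρ hg hM h0
  have hM0 : 0 ≤ M := (norm_nonneg _).trans (hM 0 (by simp [Strip]; linarith))
  set c : ℤ → ℂ := co (fun θ => g θ) with hc
  have hc0 : c 0 = 0 := by simp [hc, co, h0]
  have hcn : ∀ k : ℤ, c (-k) = conj (c k) := co_neg hg.real
  have hcd : ∀ k : ℕ, ‖c k‖ ≤ M * Real.exp (-(k * (ρ - d / 2))) :=
    norm_co_decay hg hM (by linarith) (by linarith)
  obtain ⟨S, hS, hSle⟩ := sum_bound hd (by linarith)
  set a : ℕ → ℂ := fun k => c k / (exp (k * w * I) - 1) with ha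
  have hden : ∀ k : ℕ, k ≠ 0 → exp (k * w * I) - 1 ≠ 0 := by
    intro k hk h
    have h1 := hw k hk
    rw [h, norm_zero] at h1
    have : (0 : ℝ) < k := Nat.cast_pos.2 (Nat.pos_of_ne_zero hk)
    have : 0 < γ / (k : ℝ) ^ 2 := by positivity
    linarith
  have hac : ∀ k : ℕ, a k * (exp (k * w * I) - 1) = c k := by
    intro k
    by_cases hk : k = 0
    · subst hk; simp [hc0]
    · exact div_mul_cancel₀ _ (hden k hk)
  have han : ∀ k : ℕ, ‖a k‖ ≤ M / γ * (k ^ 2 * Real.exp (-(k * (ρ - d / 2)))) := by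
    intro k
    by_cases hk : k = 0
    · subst hk; simp [ha]
    · have hk0 : (0 : ℝ) < k := Nat.cast_pos.2 (Nat.pos_of_ne_zero hk)
      simp only [ha]
      rw [norm_div]
      calc _ ≤ M * Real.exp (-(k * (ρ - d / 2))) / (γ / (k : ℝ) ^ 2) :=
            div_le_div₀ (by positivity) (hcd k) (by positivity) (hw k hk)
        _ = _ := by field_simp
  set T : ℕ → ℂ → ℂ := fun k x => a k * exp (k * x * I) + conj (a k) * exp (-(k * x * I)) with hT
  have hTn : ∀ (k : ℕ) (x : ℂ), x ∈ Strip (ρ - d) →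
      ‖T k x‖ ≤ 2 * (M / γ) * (k ^ 2 * Real.exp (-(k * (d / 2)))) := by
    intro k x hx
    obtain ⟨h1, h2⟩ := norm_exp_le hx k
    have h3 : Real.exp (-(k * (ρ - d / 2))) * Real.exp (k * (ρ - d)) =
        Real.exp (-(k * (d / 2))) := by
      rw [← Real.exp_add]; congr 1; ring
    have h4 := han k
    calc ‖T k x‖ ≤ ‖a k‖ * ‖exp (k * x * I)‖ + ‖a k‖ * ‖exp (-(k * x * I))‖ := by
          refine (norm_add_le _ _).trans ?_
          rw [norm_mul, norm_mul, Complex.norm_conj]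
      _ ≤ M / γ * (k ^ 2 * Real.exp (-(k * (ρ - d / 2)))) * Real.exp (k * (ρ - d)) +
          M / γ * (k ^ 2 * Real.exp (-(k * (ρ - d / 2)))) * Real.exp (k * (ρ - d)) := by
          gcongr
      _ = _ := by rw [← h3]; ring
  have hU := hS.mul_left (2 * (M / γ))
  have hsum : ∀ x ∈ Strip (ρ - d), Summable fun k => T k x := fun x hx =>
    Summable.of_norm_bounded hU.summable fun k => hTn k x hx
  refine ⟨fun x => ∑' k, T k x, ⟨?_, ?_, ?_⟩, ?_, ?_⟩
  · exact Complex.differentiableOn_tsum_of_summable_norm hU.summable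
      (fun k => by simp only [hT]; fun_prop) (isOpen_strip _) hTn
  · intro x _
    refine tsum_congr fun k => ?_
    have h1 : exp ((k : ℂ) * (x + 2 * Real.pi) * I) = exp (k * x * I) := by
      have : (k : ℂ) * (x + 2 * Real.pi) * I = k * x * I + k * (2 * Real.pi * I) := by ring
      rw [this, Complex.exp_add, Complex.exp_nat_mul_two_pi_mul_I, mul_one]
    simp only [hT, Complex.exp_neg, h1]
  · intro x
    have hx : (x : ℂ) ∈ Strip (ρ - d) := by simp [Strip]; linarith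
    rw [Complex.im_tsum (hsum x hx)]
    have : ∀ k : ℕ, (T k x).im = 0 := by
      intro k
      have h1 : exp (-((k : ℂ) * x * I)) = conj (exp (k * x * I)) := by
        rw [← Complex.exp_conj]; simp
      simp only [hT]
      rw [h1, ← map_mul, Complex.add_conj, Complex.ofReal_im]
    simp [this]
  · intro x hx
    calc _ ≤ 2 * (M / γ) * S := tsum_of_norm_bounded hU fun k => hTn k x hx
      _ ≤ 2 * (M / γ) * (54 / d ^ 3) := by gcongr
      _ = 108 * M / (γ * d ^ 3) := by field_simp; ring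
  · intro x hx
    have hx' : x + w ∈ Strip (ρ - d) := by simpa [Strip] using hx
    have hy : |x.im| < ρ - d := hx
    have hyρ : |x.im| < ρ := by linarith
    have hcont : Continuous fun θ : ℝ => g (θ + x.im * I) :=
      hg.diff.continuousOn.comp_continuous (by fun_prop) fun θ => mem_strip θ _ hyρ
    have hper : Function.Periodic (fun θ : ℝ => g (θ + x.im * I)) (2 * Real.pi) := by
      intro θ
      have := hg.per _ (mem_strip θ _ hyρ)
      simp only
      rw [← this]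
      congr 1
      push_cast
      ring
    have hgeo : Summable fun k : ℕ => M * Real.exp (-(d / 2)) ^ k :=
      (summable_geometric_of_lt_one (Real.exp_pos _).le
        (Real.exp_lt_one_iff.2 (by linarith))).mul_left M
    have hb : ∀ (k : ℕ) (z : ℂ) (y : ℝ), ‖z‖ = ‖c k‖ → |y| < ρ - d →
        ‖z * exp (-(k * y))‖ ≤ M * Real.exp (-(d / 2)) ^ k := by
      intro k z y hz hy'
      have hk : (0 : ℝ) ≤ k := Nat.cast_nonneg k
      have h1 : ‖exp (-((k : ℂ) * y))‖ ≤ Real.exp (k * (ρ - d)) := by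
        rw [Complex.norm_exp]
        apply Real.exp_le_exp.2
        have := (abs_lt.1 hy').1
        simp
        nlinarith
      rw [norm_mul, hz, ← Real.exp_nat_mul]
      calc _ ≤ M * Real.exp (-(k * (ρ - d / 2))) * Real.exp (k * (ρ - d)) := by
            gcongr
            exact hcd k
        _ = _ := by rw [mul_assoc, ← Real.exp_add]; congr 2; ring
    have hs : Summable (co fun θ : ℝ => g (θ + x.im * I)) := by
      apply Summable.of_nat_of_neg
      · refine Summable.of_norm_bounded hgeo fun k => ?_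
        rw [co_shift hg hyρ]
        simpa using hb k (c k) x.im rfl hy
      · refine Summable.of_norm_bounded hgeo fun k => ?_
        rw [co_shift hg hyρ]
        have := hb k (c (-k)) (-x.im) (by rw [hcn, Complex.norm_conj]) (by rwa [abs_neg])
        simpa using this
    have hF := hasSum_co _ hcont hper hs x.re
    rw [Complex.re_add_im] at hF
    have hF2 : HasSum (fun k : ℤ => c k * exp (k * x * I)) (g x) := by
      have e : (fun k : ℤ => c k * exp (k * x * I)) = fun k : ℤ =>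
          co (fun θ : ℝ => g (θ + x.im * I)) k * exp (k * x.re * I) := by
        funext k
        have h1 : (k : ℂ) * x * I = -(k * x.im) + k * x.re * I := by
          conv_lhs => rw [← Complex.re_add_im x]
          linear_combination (k * x.im : ℂ) * I_mul_I
        rw [co_shift hg hyρ, h1, Complex.exp_add, ← mul_assoc]
      rw [e]
      exact hF
    have hF3 := hF2.nat_add_neg
    rw [hc0, zero_mul, add_zero] at hF3
    have hD := (hsum _ hx').hasSum.sub (hsum _ hx).hasSum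
    refine hD.unique ?_
    suffices e : (fun k : ℕ => T k (x + w) - T k x) = fun n : ℕ =>
        c n * exp ((n : ℤ) * x * I) + c (-n) * exp ((-n : ℤ) * x * I) by
      rw [e]
      exact hF3
    funext k
    have h1 : exp (-((k : ℂ) * w * I)) = conj (exp (k * w * I)) := by
      rw [← Complex.exp_conj]; simp
    have h2 : conj (a k) * (exp (-((k : ℂ) * w * I)) - 1) = c (-k) := by
      rw [hcn, ← hac k, map_mul, map_sub, map_one, h1]
    have h3 : (k : ℂ) * (x + w) * I = k * x * I + k * w * I := by ring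
    simp only [hT]
    rw [h3, neg_add, Complex.exp_add, Complex.exp_add, ← h2, ← hac k]
    push_cast
    rw [neg_mul, neg_mul]
    ring

end Pool.Agent.MP_62f0b1_an.AE

end
end MrgPart2

-- ======== part 3: formerly Pool.Agent.MP_62f0b1_an.ae.K0b
section MrgPart3

/-!
Row K0b: the invariant curve of the twist family from the mixed form.
-/

set_option autoImplicit false

noncomputable section

namespace Pool.Agent.MP_62f0b1_an.AE

open Complex Filter Topology Set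
open scoped ComplexConjugate

namespace K0b

theorem isOpen_strip (ρ : ℝ) : IsOpen (Strip ρ) :=
  isOpen_lt (continuous_abs.comp Complex.continuous_im) continuous_const

theorem real_mem {ρ : ℝ} (hρ : 0 < ρ) (x : ℝ) : (x : ℂ) ∈ Strip ρ := by
  simpa [Strip] using hρ

theorem add_mem {ρ : ℝ} {x : ℂ} (hx : x ∈ Strip ρ) (w : ℝ) : x + w ∈ Strip ρ := by
  simpa [Strip] using hx

theorem ldata_mono {η δ δ' : ℝ} {A B : ℂ × ℂ → ℂ} (h : LData η δ A B) (hδ : δ ≤ δ') :
    LData η δ' A B :=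
  ⟨h.anA, h.anB, h.per, h.real,
    fun p hp => ⟨(h.bound p hp).1.trans hδ, (h.bound p hp).2.trans hδ⟩, h.closed, h.flux⟩

theorem contDiff_re {ρ : ℝ} (hρ : 0 < ρ) {f : ℂ → ℂ} (hf : DifferentiableOn ℂ f (Strip ρ)) :
    ContDiff ℝ 1 (fun x : ℝ => (f x).re) := by
  rw [contDiff_iff_contDiffAt]
  intro x
  have h1 : ContDiffAt ℂ 1 f x :=
    (hf.analyticOnNhd (isOpen_strip ρ) x (real_mem hρ x)).contDiffAt
  have h2 : ContDiffAt ℝ 1 f x := h1.restrict_scalars ℝ
  exact Complex.reCLM.contDiff.contDiffAt.comp x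
    (h2.comp x Complex.ofRealCLM.contDiff.contDiffAt)

theorem deriv_re {ρ : ℝ} (hρ : 0 < ρ) {f : ℂ → ℂ} (hf : DifferentiableOn ℂ f (Strip ρ)) (x : ℝ) :
    deriv (fun x : ℝ => (f x).re) x = (deriv f x).re :=
  ((hf.differentiableAt ((isOpen_strip ρ).mem_nhds (real_mem hρ x))).hasDerivAt.real_of_complex).deriv

theorem cauchy {f : ℂ → ℂ} (hf : DifferentiableOn ℂ f (Strip (1 / 4))) {C : ℝ}
    (hC : ∀ x ∈ Strip (1 / 4), ‖f x‖ ≤ C) (x : ℝ) : ‖deriv f x‖ ≤ C / (1 / 8) := by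
  have hsub : Metric.closedBall (x : ℂ) (1 / 8) ⊆ Strip (1 / 4) := by
    intro y hy
    rw [Metric.mem_closedBall, dist_eq_norm] at hy
    have h1 := (Complex.abs_im_le_norm (y - x)).trans hy
    simp only [Complex.sub_im, Complex.ofReal_im, sub_zero] at h1
    show |y.im| < 1 / 4
    linarith
  apply Complex.norm_deriv_le_of_forall_mem_sphere_norm_le (by norm_num)
  · apply DifferentiableOn.diffContOnCl
    rw [closure_ball _ (by norm_num)]
    exact hf.mono hsub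
  · intro y hy
    exact hC y (hsub (Metric.sphere_subset_closedBall hy))

variable {η w : ℝ} {φ : ℂ → ℂ}

theorem norm_sL (hb : ∀ x ∈ Strip (1 / 4), ‖φ x‖ ≤ 1 / 8) {x : ℂ} (hx : x ∈ Strip (1 / 4)) :
    ‖sL w φ x‖ ≤ 1 / 4 := by
  have h1 := hb x hx
  have h2 := hb _ (add_mem hx w)
  have h3 := norm_sub_le (φ (x + w)) (φ x)
  unfold sL
  linarith

theorem mem_domL (h0 : 0 < η) (h1 : η ≤ 1) (hb : ∀ x ∈ Strip (1 / 4), ‖φ x‖ ≤ 1 / 8) {x : ℂ}
    (hx : x ∈ Strip (1 / 4)) : (uL η φ x, sL w φ x) ∈ domL := by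
  refine ⟨?_, ?_⟩
  · show |(uL η φ x).im| < 1
    have h2 : |x.im| < 1 / 4 := hx
    have h3 : |((η : ℂ) * φ x).im| ≤ 1 / 8 := by
      refine (Complex.abs_im_le_norm _).trans ?_
      rw [norm_mul, Complex.norm_real, Real.norm_eq_abs, abs_of_pos h0]
      have := hb x hx
      nlinarith [norm_nonneg (φ x)]
    unfold uL
    rw [Complex.add_im]
    have := abs_add_le x.im ((η : ℂ) * φ x).im
    linarith
  · rw [mem_ball_zero_iff]
    have := norm_sL (w := w) hb hx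
    show ‖sL w φ x‖ < 1
    linarith

theorem diff_uL (hφ : DifferentiableOn ℂ φ (Strip (1 / 4))) :
    DifferentiableOn ℂ (uL η φ) (Strip (1 / 4)) :=
  differentiableOn_id.add (hφ.const_mul _)

theorem diff_sL (hφ : DifferentiableOn ℂ φ (Strip (1 / 4))) :
    DifferentiableOn ℂ (sL w φ) (Strip (1 / 4)) :=
  (hφ.comp (differentiableOn_id.add_const (w : ℂ)) (fun _ hx => add_mem hx w)).sub hφ

theorem eq_re {z : ℂ} (h : z.im = 0) : ((z.re : ℝ) : ℂ) = z :=
  Complex.ext (by simp) (by simp [h])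

end K0b

open K0b

theorem k0b : K0bStmt := by
  intro h0a hKL Θ Jn α e0 ε r hT hE γ hγ
  obtain ⟨δ0, hδ0, hK⟩ := hKL γ hγ
  obtain ⟨r', hr', hA⟩ := h0a Θ Jn α e0 ε r hT hE (min δ0 (1 / 100))
    (lt_min hδ0 (by norm_num))
  refine ⟨min r' 1, lt_min hr' one_pos, ?_⟩
  intro η hη hηr e he w hw h1 h2
  have hη1 : η < 1 := hηr.trans_le (min_le_right _ _)
  obtain ⟨A, B, hL, hAB⟩ := hA η e w hη (hηr.trans_le (min_le_left _ _)) he h1 h2
  have hη' : 0 < η / 4 := by positivity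
  have hη'1 : η / 4 ≤ 1 := by linarith
  obtain ⟨φ, hφ, hφb⟩ := hK w (η / 4) A B hw hη' hη'1 (ldata_mono hL (min_le_left _ _))
  have hb : ∀ x ∈ Strip (1 / 4), ‖φ x‖ ≤ 1 / 8 := fun x hx => (hφb x hx).1
  have hq : (0 : ℝ) < 1 / 4 := by norm_num
  have hdom : ∀ x ∈ Strip (1 / 4), (uL (η / 4) φ x, sL w φ x) ∈ domL :=
    fun x hx => mem_domL hη' hη'1 hb hx
  -- the vertical displacement
  set V : ℂ → ℂ := fun x => ((η / 4 : ℝ) : ℂ) * (sL w φ x + A (uL (η / 4) φ x, sL w φ x))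
    with hV
  have hdA : DifferentiableOn ℂ (fun x => A (uL (η / 4) φ x, sL w φ x)) (Strip (1 / 4)) :=
    hL.anA.differentiableOn.comp ((diff_uL hφ.diff).prodMk (diff_sL hφ.diff)) hdom
  have hdV : DifferentiableOn ℂ V (Strip (1 / 4)) := ((diff_sL hφ.diff).add hdA).const_mul _
  have hVb : ∀ x ∈ Strip (1 / 4), ‖V x‖ ≤ η / 4 * (26 / 100) := by
    intro x hx
    have h3 := norm_sL (w := w) hb hx
    have h4 := ((hL.bound _ (hdom x hx)).1).trans (min_le_right _ _)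
    have h5 := norm_add_le (sL w φ x) (A (uL (η / 4) φ x, sL w φ x))
    simp only [hV]
    rw [norm_mul, Complex.norm_real, Real.norm_eq_abs, abs_of_pos hη']
    apply mul_le_mul_of_nonneg_left _ hη'.le
    linarith
  have hdJ : DifferentiableOn ℂ (fun x => ((w - α e : ℝ) : ℂ) + V x) (Strip (1 / 4)) :=
    hdV.const_add _
  have hure : ∀ θ : ℝ, (uL (η / 4) φ θ).im = 0 := by
    intro θ
    unfold uL
    rw [Complex.add_im, Complex.ofReal_im, Complex.im_ofReal_mul, hφ.real]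
    simp
  have hsre : ∀ θ : ℝ, (sL w φ θ).im = 0 := by
    intro θ
    unfold sL
    rw [← Complex.ofReal_add, Complex.sub_im, hφ.real, hφ.real]
    simp
  have hVre : ∀ θ : ℝ, (V θ).im = 0 := by
    intro θ
    have h3 : |(sL w φ θ).re| < 1 := by
      have := (Complex.abs_re_le_norm _).trans (norm_sL (w := w) hb (real_mem hq θ))
      linarith
    have h4 := (hL.real (uL (η / 4) φ θ).re (sL w φ θ).re h3).1
    rw [eq_re (hure θ), eq_re (hsre θ)] at h4
    simp only [hV]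
    rw [Complex.im_ofReal_mul, Complex.add_im, hsre, h4]
    simp
  have huper : ∀ θ : ℝ, uL (η / 4) φ ((θ + 2 * Real.pi : ℝ) : ℂ) = uL (η / 4) φ θ + 2 * Real.pi := by
    intro θ
    unfold uL
    push_cast
    rw [hφ.per _ (real_mem hq θ)]
    ring
  have hsper : ∀ θ : ℝ, sL w φ ((θ + 2 * Real.pi : ℝ) : ℂ) = sL w φ θ := by
    intro θ
    unfold sL
    push_cast
    rw [hφ.per _ (real_mem hq θ), add_right_comm, hφ.per _ (add_mem (real_mem hq θ) w)]
  have hcp : ∀ θ : ℝ, cp ((uL (η / 4) φ θ).re, (((w - α e : ℝ) : ℂ) + V θ).re, e) =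
      (uL (η / 4) φ θ, ((w - α e : ℝ) : ℂ) + V θ, (e : ℂ)) := by
    intro θ
    unfold cp
    rw [eq_re (hure θ), eq_re (by rw [Complex.add_im, hVre, Complex.ofReal_im, add_zero])]
  refine ⟨fun θ => (uL (η / 4) φ θ).re, fun θ => (((w - α e : ℝ) : ℂ) + V θ).re,
    contDiff_re hq (diff_uL hφ.diff), contDiff_re hq hdJ, ?_, ?_, ?_, ?_, ?_, ?_⟩
  · intro θ
    simp only [huper, Complex.add_re]
    simp
  · intro θ
    have h3 := (hL.per _ (hdom _ (real_mem hq θ))).1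
    simp only [hV, huper, hsper]
    rw [h3]
  · intro θ
    rw [deriv_re hq (diff_uL hφ.diff)]
    have h3 : HasDerivAt (uL (η / 4) φ) (1 + ((η / 4 : ℝ) : ℂ) * deriv φ θ) θ :=
      (hasDerivAt_id _).add
        ((hφ.diff.differentiableAt
          ((isOpen_strip _).mem_nhds (real_mem hq θ))).hasDerivAt.const_mul _)
    rw [h3.deriv, Complex.add_re, Complex.one_re, Complex.re_ofReal_mul]
    have h4 := abs_le.1 ((Complex.abs_re_le_norm _).trans (hφb _ (real_mem hq θ)).2.1)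
    constructor <;> nlinarith [h4.1, h4.2]
  · intro θ
    rw [deriv_re hq hdJ, deriv_const_add]
    have h3 := (Complex.abs_re_le_norm _).trans (cauchy hdV hVb θ)
    refine h3.trans ?_
    rw [div_le_one (by norm_num)]
    linarith
  · intro θ
    have h3 := abs_le.1 ((Complex.abs_re_le_norm _).trans (hVb _ (real_mem hq θ)))
    rw [Complex.add_re, Complex.ofReal_re]
    constructor <;> linarith [h3.1, h3.2]
  · intro θ
    obtain ⟨h3, h4⟩ := hAB _ (hdom _ (real_mem hq θ))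
    have h5 := (hφb _ (real_mem hq (θ + w))).2.2
    constructor
    · unfold reF
      rw [hcp]
      simp only [hV]
      rw [h3]
      congr 1
      unfold uL sL
      push_cast
      ring
    · unfold reF
      rw [hcp]
      simp only [hV]
      rw [h4]
      congr 2
      unfold errL at h5
      have h6 : ((θ + w : ℝ) : ℂ) - w = θ := by push_cast; ring
      rw [h6] at h5
      congr 1
      linear_combination h5

end Pool.Agent.MP_62f0b1_an.AE

end
end MrgPart3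

-- ======== part 4: formerly Pool.Agent.MP_62f0b1_an.ae.M2
section MrgPart4

/-!
Two invariant curves with different rotation angles are ordered graphs, and the difference of the
angles is at most a constant times the area between them.
-/

set_option autoImplicit false

noncomputable section

namespace Pool.Agent.MP_62f0b1_an.AE

open Filter Topology Set

namespace M2

variable {Θ Jn : R3 → ℝ} {α : ℝ → ℝ} {e0 ε r e w w1 w2 η : ℝ} {u j u1 j1 u2 j2 U U1 U2 : ℝ → ℝ}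

/-- `U` is a monotone Lipschitz inverse of `u`. -/
structure Inv (u U : ℝ → ℝ) : Prop where
  r : ∀ x, u (U x) = x
  l : ∀ θ, U (u θ) = θ
  lip : ∀ x y, x ≤ y → U x ≤ U y ∧ U y - U x ≤ 2 * (y - x)

theorem inv_ex (h : KAMCurve Θ Jn e w η u j) : ∃ U, Inv u U := by
  have lo : ∀ a b, a ≤ b → 1 / 2 * (b - a) ≤ u b - u a := fun a b hab =>
    mul_sub_le_image_sub_of_le_deriv (h.cu.differentiable one_ne_zero) (fun x => (h.du x).1) hab
  have su : Function.Surjective u := fun x => by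
    have a := lo (-(2 * |x - u 0|)) 0 (by simp)
    have b := lo 0 (2 * |x - u 0|) (by positivity)
    exact intermediate_value_univ (-(2 * |x - u 0|)) (2 * |x - u 0|) h.cu.continuous
      ⟨by linarith [neg_abs_le (x - u 0)], by linarith [le_abs_self (x - u 0)]⟩
  choose U hU using su
  have mo : ∀ x y, x ≤ y → U x ≤ U y := fun x y hxy => by
    by_contra c
    have := lo _ _ (not_le.1 c).le
    rw [hU, hU] at this
    linarith [not_le.1 c]
  refine ⟨U, hU, fun θ => ?_, fun x y hxy => ⟨mo x y hxy, ?_⟩⟩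
  · rcases le_total θ (U (u θ)) with c | c
    · have := lo _ _ c
      rw [hU] at this
      linarith
    · have := lo _ _ c
      rw [hU] at this
      linarith
  · have := lo _ _ (mo x y hxy)
    rw [hU, hU] at this
    linarith

theorem Inv.abs (h : Inv u U) (x y : ℝ) : |U x - U y| ≤ 2 * |x - y| := by
  rcases le_total x y with c | c
  · rw [abs_sub_comm, abs_sub_comm x, abs_of_nonneg (sub_nonneg.2 (h.lip _ _ c).1),
      abs_of_nonneg (sub_nonneg.2 c)]
    exact (h.lip _ _ c).2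
  · rw [abs_of_nonneg (sub_nonneg.2 (h.lip _ _ c).1), abs_of_nonneg (sub_nonneg.2 c)]
    exact (h.lip _ _ c).2

theorem Inv.cont (h : Inv u U) : Continuous U :=
  (LipschitzWith.of_dist_le_mul (K := 2) fun x y => by simpa [Real.dist_eq] using h.abs x y).continuous

theorem Inv.per (h : Inv u U) (hu : ∀ θ, u (θ + 2 * Real.pi) = u θ + 2 * Real.pi) (x : ℝ) :
    U (x + 2 * Real.pi) = U x + 2 * Real.pi := by
  rw [← h.l (U x + 2 * Real.pi), hu, h.r]

theorem jlip (h : KAMCurve Θ Jn e w η u j) (a b : ℝ) : |j a - j b| ≤ |a - b| := by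
  simpa using Convex.norm_image_sub_le_of_norm_deriv_le (s := univ) (C := 1)
    (fun x _ => (h.cj.differentiable one_ne_zero) x) (fun x _ => h.dj x) convex_univ
    (mem_univ b) (mem_univ a)

theorem twist (h : TwistR Θ Jn α e0 ε r) : ∃ r1 > (0 : ℝ), ∀ x e a b : ℝ, |e - e0| < ε → 0 < a →
    a ≤ b → b < r1 → Θ (x, a, e) ≤ Θ (x, b, e) ∧ Θ (x, b, e) - Θ (x, a, e) ≤ 3 / 2 * (b - a) := by
  obtain ⟨r1, p, le, es⟩ := h.est (1 / 2) (by norm_num)
  refine ⟨r1, p, fun x e a b he ha hab hb => ?_⟩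
  have d : ∀ J ∈ Ioo 0 r1, HasDerivAt (fun J => Θ (x, J, e)) (r2 Θ (x, J, e)) J ∧
      |r2 Θ (x, J, e) - 1| ≤ 1 / 2 := fun J hJ => by
    have m : (x, J, e) ∈ domR e0 ε r := ⟨hJ.1, hJ.2.trans_le le, he⟩
    exact ⟨(h.an _ m).1.differentiableAt.hasFDerivAt.comp_hasDerivAt J
      ((hasDerivAt_const J x).prodMk ((hasDerivAt_id J).prodMk (hasDerivAt_const J e))),
      (es _ m hJ.2).2.2.2.1⟩
  have c : ContinuousOn (fun J => Θ (x, J, e)) (Ioo 0 r1) := fun J hJ =>
    (d J hJ).1.continuousAt.continuousWithinAt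
  have c' : DifferentiableOn ℝ (fun J => Θ (x, J, e)) (interior (Ioo 0 r1)) := fun J hJ =>
    (d J (interior_subset hJ)).1.differentiableAt.differentiableWithinAt
  have ma : a ∈ Ioo 0 r1 := ⟨ha, hab.trans_lt hb⟩
  have mb : b ∈ Ioo 0 r1 := ⟨ha.trans_le hab, hb⟩
  refine ⟨?_, (convex_Ioo 0 r1).image_sub_le_mul_sub_of_deriv_le c c' (fun J hJ => ?_)
    a ma b mb hab⟩
  · have := (convex_Ioo 0 r1).mul_sub_le_image_sub_of_le_deriv c c' (C := 0) (fun J hJ => by
      have k := d J (interior_subset hJ)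
      rw [k.1.deriv]
      linarith [(abs_le.1 k.2).1]) a ma b mb hab
    linarith
  · have k := d J (interior_subset hJ)
    rw [k.1.deriv]
    linarith [(abs_le.1 k.2).2]

/-- Two curves with different angles have no common point. -/
theorem apart (h1 : KAMCurve Θ Jn e w1 η u1 j1) (h2 : KAMCurve Θ Jn e w2 η u2 j2) (hw : w1 < w2)
    {a b : ℝ} (eu : u1 a = u2 b) (ej : j1 a = j2 b) : False := by
  have bd : ∀ u : ℝ → ℝ, Continuous u → (∀ θ, u (θ + 2 * Real.pi) = u θ + 2 * Real.pi) →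
      ∃ B, ∀ θ, |u θ - θ| ≤ B := fun u hu hp => by
    have p : Function.Periodic (fun θ => u θ - θ) (2 * Real.pi) := fun θ => by
      simp only [hp]; ring
    obtain ⟨B, hB⟩ := isBounded_iff_forall_norm_le.1
      (p.isBounded_of_continuous (by positivity) (hu.sub continuous_id))
    exact ⟨B, fun θ => hB _ ⟨θ, rfl⟩⟩
  obtain ⟨B1, b1⟩ := bd u1 h1.cu.continuous h1.peru
  obtain ⟨B2, b2⟩ := bd u2 h2.cu.continuous h2.peru
  have k : ∀ n : ℕ, u1 (a + n * w1) = u2 (b + n * w2) ∧ j1 (a + n * w1) = j2 (b + n * w2) := by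
    intro n
    induction n with
    | zero => simpa using ⟨eu, ej⟩
    | succ n ih =>
      rw [Nat.cast_succ, add_mul, add_mul, one_mul, one_mul, ← add_assoc, ← add_assoc,
        ← (h1.inv _).1, ← (h1.inv _).2, ← (h2.inv _).1, ← (h2.inv _).2, ih.1, ih.2]
      exact ⟨rfl, rfl⟩
  obtain ⟨n, hn⟩ := exists_nat_gt ((B1 + B2 + a - b) / (w2 - w1))
  rw [div_lt_iff₀ (sub_pos.2 hw)] at hn
  linarith [(k n).1, (abs_le.1 (b1 (a + n * w1))).2, (abs_le.1 (b2 (b + n * w2))).1]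

/-- The mean advance. -/
theorem mean {V : ℝ → ℝ} (hV : Continuous V) (hp : ∀ θ, V (θ + 2 * Real.pi) = V θ + 2 * Real.pi)
    (w1 w2 : ℝ) : ∫ θ in (0 : ℝ)..2 * Real.pi, (V (θ + w2) - (V θ + w1)) =
      2 * Real.pi * (w2 - w1) := by
  have p : Function.Periodic (fun θ => V θ - θ) (2 * Real.pi) := fun θ => by
    simp only [hp]; ring
  have c : Continuous fun θ => V θ - θ := hV.sub continuous_id
  have e1 : ∫ θ in (0 : ℝ)..2 * Real.pi, (V (θ + w2) - (θ + w2)) =
      ∫ θ in (0 : ℝ)..2 * Real.pi, (V θ - θ) := by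
    rw [intervalIntegral.integral_comp_add_right (fun θ => V θ - θ), zero_add, add_comm,
      p.intervalIntegral_add_eq w2 0, zero_add]
  have e2 : (fun θ => V (θ + w2) - (V θ + w1)) =
      fun θ => (V (θ + w2) - (θ + w2)) - (V θ - θ) + (w2 - w1) := funext fun θ => by ring
  have c1 : Continuous fun θ => V (θ + w2) - (θ + w2) := by fun_prop
  have i1 := c1.intervalIntegrable (μ := MeasureTheory.volume) 0 (2 * Real.pi)
  have i2 := c.intervalIntegrable (μ := MeasureTheory.volume) 0 (2 * Real.pi)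
  rw [e2, intervalIntegral.integral_add (i1.sub i2) intervalIntegrable_const,
    intervalIntegral.integral_sub i1 i2, e1, intervalIntegral.integral_const]
  simp

/-- Change of variable. -/
theorem area (h : KAMCurve Θ Jn e w η u j) {D : ℝ → ℝ} (hD : Continuous D)
    (hp : Function.Periodic D (2 * Real.pi)) (h0 : ∀ x, 0 ≤ D x) :
    ∫ θ in (0 : ℝ)..2 * Real.pi, D (u θ) ≤ 2 * ∫ x in (-Real.pi)..Real.pi, D x := by
  have cd : Continuous (deriv u) := h.cu.continuous_deriv le_rfl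
  have e1 := intervalIntegral.integral_comp_mul_deriv (a := 0) (b := 2 * Real.pi)
    (fun x _ => ((h.cu.differentiable one_ne_zero) x).hasDerivAt) cd.continuousOn hD
  have e2 := h.peru 0
  rw [zero_add] at e2
  rw [e2, hp.intervalIntegral_add_eq (u 0) (-Real.pi),
    show -Real.pi + 2 * Real.pi = Real.pi by ring] at e1
  rw [← e1, ← intervalIntegral.integral_const_mul]
  have c : Continuous fun θ => D (u θ) := hD.comp h.cu.continuous
  refine intervalIntegral.integral_mono_on (by positivity) (c.intervalIntegrable _ _)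
    ((continuous_const.mul (c.mul cd)).intervalIntegrable _ _) fun θ _ => ?_
  have := mul_le_mul_of_nonneg_left (h.du θ).1 (h0 (u θ))
  simp only [Function.comp_apply]
  linarith

theorem two {r1 : ℝ} (hη : 0 < η) (hr : 3 * η < r1)
    (tw : ∀ x a b : ℝ, 0 < a → a ≤ b → b < r1 →
      Θ (x, a, e) ≤ Θ (x, b, e) ∧ Θ (x, b, e) - Θ (x, a, e) ≤ 3 / 2 * (b - a))
    (h1 : KAMCurve Θ Jn e w1 η u1 j1) (h2 : KAMCurve Θ Jn e w2 η u2 j2) (i1 : Inv u1 U1)
    (i2 : Inv u2 U2) (hw : w1 < w2) : (∀ x, j1 (U1 x) ≤ j2 (U2 x)) ∧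
      w2 - w1 ≤ 3 / Real.pi * ∫ x in (-Real.pi)..Real.pi, (j2 (U2 x) - j1 (U1 x)) := by
  have cD : Continuous fun x => j2 (U2 x) - j1 (U1 x) :=
    (h2.cj.continuous.comp i2.cont).sub (h1.cj.continuous.comp i1.cont)
  have pD : Function.Periodic (fun x => j2 (U2 x) - j1 (U1 x)) (2 * Real.pi) := fun x => by
    simp only [i1.per h1.peru, i2.per h2.peru, h1.perj, h2.perj]
  have cV : Continuous fun θ => U1 (u2 θ) := i1.cont.comp h2.cu.continuous
  have m := mean cV (fun θ => by rw [h2.peru, i1.per h1.peru]) w1 w2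
  have ci : Continuous fun θ => U1 (u2 (θ + w2)) - (U1 (u2 θ) + w1) :=
    (cV.comp (continuous_add_const w2)).sub (cV.add continuous_const)
  have c3 : Continuous fun θ => 3 * (j2 (U2 (u2 θ)) - j1 (U1 (u2 θ))) :=
    continuous_const.mul (cD.comp h2.cu.continuous)
  have t : ∀ θ, U1 (u2 (θ + w2)) - (U1 (u2 θ) + w1) =
      U1 (Θ (u2 θ, j2 (U2 (u2 θ)), e)) - U1 (Θ (u2 θ, j1 (U1 (u2 θ)), e)) := fun θ => by
    have := (h1.inv (U1 (u2 θ))).1
    rw [i1.r] at this
    rw [i2.l, (h2.inv θ).1, this, i1.l]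
  have p1 : ∀ θ, 0 < j1 θ ∧ j1 θ < r1 := fun θ => by
    constructor <;> linarith [(h1.range θ).1, (h1.range θ).2]
  have p2 : ∀ θ, 0 < j2 θ ∧ j2 θ < r1 := fun θ => by
    constructor <;> linarith [(h2.range θ).1, (h2.range θ).2]
  have pi := Real.pi_pos
  have ord : ∀ x, j1 (U1 x) ≤ j2 (U2 x) := by
    by_contra c
    obtain ⟨x, hx⟩ := not_forall.1 c
    have neg : ∀ y, j2 (U2 y) ≤ j1 (U1 y) := fun y => by
      by_contra c'
      obtain ⟨z, hz⟩ := intermediate_value_univ x y cD (show (0 : ℝ) ∈ _ from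
        ⟨by linarith [not_le.1 hx], by linarith [not_le.1 c']⟩)
      exact apart h1 h2 hw ((i1.r z).trans (i2.r z).symm) (by linarith)
    have := intervalIntegral.integral_mono_on (a := 0) (b := 2 * Real.pi) (by positivity)
      (ci.intervalIntegrable (μ := MeasureTheory.volume) _ _)
      (intervalIntegrable_const (c := (0 : ℝ))) fun θ _ => by
        rw [t]
        exact sub_nonpos.2 (i1.lip _ _ (tw _ _ _ (p2 _).1 (neg _) (p1 _).2).1).1
    rw [m, intervalIntegral.integral_zero] at this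
    nlinarith
  refine ⟨ord, ?_⟩
  have a := area h2 cD pD fun x => sub_nonneg.2 (ord x)
  have b := intervalIntegral.integral_mono_on (a := 0) (b := 2 * Real.pi) (by positivity)
    (ci.intervalIntegrable (μ := MeasureTheory.volume) _ _)
    (c3.intervalIntegrable _ _) fun θ _ => by
      have k := tw (u2 θ) _ _ (p1 _).1 (ord (u2 θ)) (p2 _).2
      have k' := (i1.lip _ _ k.1).2
      rw [t]
      linarith [k.2]
  rw [m, intervalIntegral.integral_const_mul] at b
  rw [div_mul_eq_mul_div, le_div_iff₀ pi]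
  linarith

end M2

open M2

theorem m2 : M2Stmt := by
  intro Θ Jn α e0 ε r h
  obtain ⟨r1, p, tw⟩ := twist h
  refine ⟨r1 / 3, by positivity, 3 / Real.pi, fun η e hη hr he Ω u j k => ?_⟩
  choose! U hU using fun w hw => inv_ex (k w hw)
  refine ⟨fun w x => j w (U w x), fun w hw x => ⟨U w x, (hU w hw).r x, rfl⟩, fun w hw x y =>
    (jlip (k w hw) _ _).trans ((hU w hw).abs x y), fun w1 h1 w2 h2 hw => ?_⟩
  exact two hη (by linarith) (fun x a b => tw x e a b he) (k w1 h1) (k w2 h2) (hU w1 h1)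
    (hU w2 h2) hw

end Pool.Agent.MP_62f0b1_an.AE

end
end MrgPart4

-- ======== part 5: formerly Pool.Agent.MP_62f0b1_an.ae.W2
section MrgPart5

/-!
Periodic graphs that shrink to the fixed point give periodic orbits of side lengths.
-/

set_option autoImplicit false

noncomputable section

namespace Pool.Agent.MP_62f0b1_an.AE

open Complex Filter Topology Set
open scoped ComplexConjugate

namespace W2

theorem cast_B (t η : ℝ) (hη : η ≠ 0) (b : Fin 3 → ℂ) (h : ∀ i, (b i).im = 0 ∧ 0 < (b i).re)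
    (i : Fin 3) : ((Bf (t / η) (fun i => (b i).re / η) i : ℝ) : ℂ) = Bf (t : ℂ) b i / η ^ 2 ∧
      ((Df (t / η) (fun i => (b i).re / η) i : ℝ) : ℂ) = Df (t : ℂ) b i / η ^ 2 := by
  have e : ∀ i, ((b i).re : ℂ) = b i := fun i => Complex.ext rfl (by simp [(h i).1])
  have n : ∀ i, b i ≠ 0 := fun i k => by have := (h i).2; simp [k] at this
  have hη' : (η : ℂ) ≠ 0 := by exact_mod_cast hη
  have := n i
  have := n (i + 1)
  have := n (i + 2)
  simp only [Bf, Df]
  push_cast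
  simp only [e]
  constructor <;> field_simp

theorem zet_Phi (p : C3) (c : ℂ) :
    zet (fun i => Phi p i / c) = csqrt (p.2.2 + p.1 * p.2.1) * p.1 / c := by
  have h1 := om_rel
  have h2 := om_cube
  simp only [zet, Phi, Fin.val_zero, Fin.val_one, Fin.val_two]
  generalize csqrt (p.2.2 + p.1 * p.2.1) = s
  linear_combination c⁻¹ / 3 * ((p.2.2 + 2 * p.1 * p.2.1) * h1 + 2 * s * p.1 * h2 +
    s * p.2.1 * (h1 + (om + om ^ 2) * h2))

theorem norm_rp (z : ℂ) (e es : ℝ) : ‖rp z e - base es‖ ≤ ‖z‖ + |e - es| := by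
  have a := norm_nonneg z
  have b := abs_nonneg (e - es)
  simp only [rp, base, Prod.mk_sub_mk, sub_zero, Prod.norm_mk, Complex.norm_conj,
    ← Complex.ofReal_sub, Complex.norm_real, Real.norm_eq_abs]
  exact max_le (by linarith) (max_le (by linarith) (by linarith))

/-- Size and direction of a point with the given asymptotic form. -/
theorem size {z u : ℂ} {ρ ρ0 ρ1 C J s : ℝ} (hu : ‖u‖ = 1) (h0 : 0 < ρ0) (h1 : ρ0 ≤ ρ) (h2 : ρ ≤ ρ1)
    (hs : 0 < s) (j1 : s ^ 2 / 2 ≤ J) (j2 : J ≤ 2 * s ^ 2) (hC : 8 * |C| * s ≤ ρ0)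
    (h : ‖z - ((ρ * Real.sqrt J : ℝ) : ℂ) * u‖ ≤ C * J) :
    ρ0 * s / 4 ≤ ‖z‖ ∧ ‖z‖ ≤ 3 * ρ1 * s ∧ ‖z / (‖z‖ : ℂ) - u‖ ≤ 16 * |C| / ρ0 * s := by
  have a1 : s / 2 ≤ Real.sqrt J := Real.le_sqrt_of_sq_le (by nlinarith)
  have a2 : Real.sqrt J ≤ 2 * s := Real.sqrt_le_iff.2 ⟨by positivity, by nlinarith⟩
  have a3 : C * J ≤ 2 * |C| * s ^ 2 := by
    have := le_abs_self C
    have := abs_nonneg C
    nlinarith
  have a4 : ρ0 * (s / 2) ≤ ρ * Real.sqrt J := by gcongr; linarith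
  have a5 : ρ * Real.sqrt J ≤ ρ1 * (2 * s) := by gcongr; linarith
  generalize ρ * Real.sqrt J = A at *
  have a6 : 0 < A := lt_of_lt_of_le (by positivity) a4
  have a7 : |‖z‖ - A| ≤ 2 * |C| * s ^ 2 := by
    have := abs_norm_sub_norm_le z (A * u)
    rw [norm_mul, hu, mul_one, Complex.norm_real, Real.norm_of_nonneg a6.le] at this
    linarith
  obtain ⟨b1, b2⟩ := abs_le.1 a7
  have b3 : ρ0 * s / 4 ≤ ‖z‖ := by nlinarith
  have b4 : 0 < ‖z‖ := lt_of_lt_of_le (by positivity) b3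
  refine ⟨b3, by nlinarith, ?_⟩
  have b5 : ‖z - (‖z‖ : ℂ) * u‖ ≤ 4 * |C| * s ^ 2 := by
    have e : z - (‖z‖ : ℂ) * u = (z - A * u) - ((‖z‖ - A : ℝ) : ℂ) * u := by push_cast; ring
    have := norm_sub_le (z - A * u) (((‖z‖ - A : ℝ) : ℂ) * u)
    rw [← e, norm_mul, hu, mul_one, Complex.norm_real, Real.norm_eq_abs] at this
    linarith
  have b6 : (‖z‖ : ℂ) ≠ 0 := by exact_mod_cast b4.ne'
  rw [div_sub' b6, norm_div, Complex.norm_real, norm_norm, div_le_iff₀ b4]
  refine b5.trans ?_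
  calc 4 * |C| * s ^ 2 = 16 * |C| / ρ0 * s * (ρ0 * s / 4) := by field_simp; ring
    _ ≤ _ := by gcongr

end W2

open W2 in
theorem w2 : W2Stmt := by
  intro t η0 c0 f g β U N χ Θ Jn α ε r l p es e' η ht _ hR hN hχ hα hes he' hlt hH hη hβ hη2 u hu
  choose! H hH using hH
  obtain ⟨C, ρ0, ρ1, ρ, hρ, hA⟩ := hχ.asym
  obtain ⟨κ, hκ, hm⟩ := hα.mono
  have es0 : 0 < es := by rw [hη2]; positivity
  have io : ∀ {e : ℝ}, |e - c0| < ε → e ∈ Ioo (c0 - ε) (c0 + ε) := fun h =>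
    ⟨by linarith [(abs_lt.1 h).1], by linarith [(abs_lt.1 h).2]⟩
  have rng : ∀ e ∈ Ioo e' es, |e - c0| < ε := fun e he =>
    abs_lt.2 ⟨by linarith [(abs_lt.1 he').1, he.1], by linarith [(abs_lt.1 hes).2, he.2]⟩
  obtain ⟨K, hK0, hK⟩ := (hR.an _ (hN (hχ.nb0 es hes))).differentiableAt.isBigO_sub.exists_pos
  obtain ⟨δ, hδ, hK⟩ := Metric.eventually_nhds_iff.1 hK.bound
  let P : ℝ → ℕ → R3 := fun e j =>
    ((gmap Θ e (H e))^[j] u.arg, H e ((gmap Θ e (H e))^[j] u.arg), e)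
  have hP : ∀ e ∈ Ioo e' es, ∀ j, P e j ∈ domR c0 ε r := fun e he j =>
    ⟨(hH e he).1.pos _, ((hH e he).2 _).1, rng e he⟩
  have hU : ∀ e ∈ Ioo e' es, ∀ j, rp (χ (P e j)) e ∈ U := fun e he j => hN (hχ.nb _ (hP e he j))
  let s : ℝ → ℝ := fun e => Real.sqrt (α es - α e)
  have hs : ∀ e ∈ Ioo e' es, 0 < s e ∧ s e ^ 2 = α es - α e ∧ es - e ≤ s e ^ 2 / κ := fun e he => by
    have h1 := hm e (io (rng e he)) es (io hes) he.2.le
    have h2 : 0 < α es - α e := lt_of_lt_of_le (mul_pos hκ (sub_pos.2 he.2)) h1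
    refine ⟨Real.sqrt_pos.2 h2, Real.sq_sqrt h2.le, ?_⟩
    rw [Real.sq_sqrt h2.le, le_div_iff₀ hκ]
    linarith
  have ts : Tendsto s (𝓝[<] es) (𝓝 0) := by
    have h1 : ContinuousAt α es := hα.cont.continuousAt (isOpen_Ioo.mem_nhds (io hes))
    have h2 : ContinuousAt s es := (continuousAt_const.sub h1).sqrt
    have h3 := h2.tendsto.mono_left (nhdsWithin_le_nhds (s := Iio es))
    simpa [s] using h3
  have sm : ∀ a b : ℝ, 0 < b → ∀ᶠ e in 𝓝[<] es, a * s e < b := fun a b hb =>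
    (ts.const_mul a).eventually_lt_const (by simpa using hb)
  set M := 3 * ρ1 + 1 / κ with hM
  obtain ⟨e, te, he⟩ := exists_seq_forall_of_frequently ((((sm 1 1 one_pos).and
    (sm (8 * |C|) ρ0 hρ)).and ((sm M δ hδ).and (Ioo_mem_nhdsLT (half_lt_self es0)))).and
      (Ioo_mem_nhdsLT hlt)).frequently
  have hI : ∀ k, e k ∈ Ioo e' es := fun k => (he k).2
  have tk := ts.comp te
  have sz : ∀ k j, ρ0 * s (e k) / 4 ≤ ‖χ (P (e k) j)‖ ∧ ‖χ (P (e k) j)‖ ≤ 3 * ρ1 * s (e k) ∧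
      ‖χ (P (e k) j) / (‖χ (P (e k) j)‖ : ℂ) - exp (((P (e k) j).1 : ℂ) * I)‖ ≤
        16 * |C| / ρ0 * s (e k) := fun k j => by
    obtain ⟨a1, a2, a3⟩ := hA _ (hP _ (hI k) j)
    obtain ⟨-, b1, b2⟩ := (hH _ (hI k)).2 (P (e k) j).1
    rw [← (hs _ (hI k)).2.1] at b1 b2
    exact size (norm_exp_ofReal_mul_I _) hρ a1 a2 (hs _ (hI k)).1 b1 b2 (he k).1.1.2.le a3
  have ρ1p : 0 < ρ1 := by
    obtain ⟨a1, a2, -⟩ := hA _ (hP _ (hI 0) 0)
    linarith
  let a : ℕ → ℕ → Fin 3 → ℝ := fun k j i => (β (rp (χ (P (e k) j)) (e k)) i).re / η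
  have cB := fun k j => cast_B t η hη.ne' _ (hR.real _ _ (hU _ (hI k) j)).2
  let S : ℕ → ℝ := fun k => Real.sqrt (e k + ‖χ (P (e k) 0)‖ ^ 2) / η ^ 2
  have hz : ∀ k, ztOf (t / η) (a k 0) = S k * χ (P (e k) 0) := fun k => by
    have h1 : (fun i => ((Bf (t / η) (a k 0) i : ℝ) : ℂ)) =
        fun i => Phi (rp (χ (P (e k) 0)) (e k)) i / η ^ 2 := funext fun i => by
      rw [← hR.eqB _ (hU _ (hI k) 0)]
      exact (cB k 0 i).1
    have h2 : 0 < e k + ‖χ (P (e k) 0)‖ ^ 2 := by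
      have := (half_pos es0).trans (he k).1.2.2.1
      positivity
    rw [ztOf, h1, zet_Phi]
    simp only [rp, S]
    rw [Complex.mul_conj, Complex.normSq_eq_norm_sq, ← Complex.ofReal_add, csqrt_ofReal h2]
    push_cast
    ring
  have S1 : ∀ k, Real.sqrt (es / 2) / η ^ 2 ≤ S k := fun k => by
    have := (he k).1.2.2.1
    simp only [S]
    gcongr
    nlinarith [sq_nonneg ‖χ (P (e k) 0)‖]
  have S0 : 0 < Real.sqrt (es / 2) / η ^ 2 := by positivity
  have S2 : ∀ k, S k ≤ Real.sqrt (es + (3 * ρ1) ^ 2) / η ^ 2 := fun k => by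
    have h1 := (hI k).2
    have h2 := (sz k 0).2.1
    have h3 := (he k).1.1.1
    simp only [S]
    gcongr
    nlinarith
  have nz : ∀ k, ‖ztOf (t / η) (a k 0)‖ = S k * ‖χ (P (e k) 0)‖ := fun k => by
    rw [hz, norm_mul, Complex.norm_real, Real.norm_of_nonneg (S0.trans_le (S1 k)).le]
  have z0 : ∀ k, 0 < ‖χ (P (e k) 0)‖ := fun k =>
    lt_of_lt_of_le (by have := (hs _ (hI k)).1; positivity) (sz k 0).1
  refine ⟨K * M / η / (Real.sqrt (es / 2) / η ^ 2 * (ρ0 / 4)), a, fun k => ?_, fun k j _ => ?_,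
    fun k => ?_, ?_, ?_, fun k j _ i => ?_⟩
  · have h1 := (hH _ (hI k)).1
    have h2 : Function.Periodic (H (e k)) (2 * Real.pi) := h1.per
    have h3 : Function.Periodic (fun x => χ (x, H (e k) u.arg, e k)) (2 * Real.pi) := fun x =>
      hχ.per (x, H (e k) u.arg, e k)
    have h4 : χ (P (e k) l) = χ (P (e k) 0) := by
      simp only [P, h1.ret, Function.iterate_zero, id]
      rw [mul_comm, h2.int_mul p]
      exact h3.int_mul p _
    simp only [a, h4]
  · funext i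
    refine Complex.ofReal_injective ((cB k (j + 1) i).1.trans (Eq.trans ?_ (cB k j i).2.symm))
    have h1 : f (rp (χ (P (e k) j)) (e k)) = χ (P (e k) (j + 1)) := by
      refine (hχ.link _ (hP _ (hI k) j)).trans ?_
      simp only [P, Function.iterate_succ_apply', (hH _ (hI k)).1.inv]
      rfl
    rw [hR.eqB _ (hU _ (hI k) (j + 1)), hR.eqD _ (hU _ (hI k) j), (hR.real _ _ (hU _ (hI k) j)).1,
      h1]
    rfl
  · rw [← norm_pos_iff, nz]
    exact mul_pos (S0.trans_le (S1 k)) (z0 k)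
  · refine squeeze_zero_norm (a := fun k =>
      Real.sqrt (es + (3 * ρ1) ^ 2) / η ^ 2 * (3 * ρ1) * s (e k)) (fun k => ?_)
      (by simpa using tk.const_mul (Real.sqrt (es + (3 * ρ1) ^ 2) / η ^ 2 * (3 * ρ1)))
    rw [nz, mul_assoc]
    exact mul_le_mul (S2 k) (sz k 0).2.1 (norm_nonneg _) (by positivity)
  · rw [tendsto_iff_norm_sub_tendsto_zero]
    refine squeeze_zero (g := fun k => 16 * |C| / ρ0 * s (e k)) (fun _ => norm_nonneg _)
      (fun k => ?_) (by simpa using tk.const_mul (16 * |C| / ρ0))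
    have h1 : exp (((P (e k) 0).1 : ℂ) * I) = u := by
      have := Complex.norm_mul_exp_arg_mul_I u
      rwa [hu, Complex.ofReal_one, one_mul] at this
    have h2 : (S k : ℂ) ≠ 0 := by exact_mod_cast (S0.trans_le (S1 k)).ne'
    rw [nz, hz, Complex.ofReal_mul, mul_div_mul_left _ _ h2, ← h1]
    exact (sz k 0).2.2
  · obtain ⟨s0, -, s1⟩ := hs _ (hI k)
    have s2 := (he k).1.1.1
    have h1 : ‖rp (χ (P (e k) j)) (e k) - base es‖ ≤ M * s (e k) := by
      refine (norm_rp _ _ _).trans ?_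
      have : s (e k) ^ 2 / κ ≤ 1 / κ * s (e k) := by
        rw [div_mul_eq_mul_div]
        gcongr
        nlinarith
      rw [abs_sub_comm, abs_of_pos (sub_pos.2 (hI k).2), hM, add_mul]
      linarith [(sz k j).2.1]
    have h2 := hK (y := rp (χ (P (e k) j)) (e k))
      (by rw [dist_eq_norm]; exact h1.trans_lt (he k).1.2.1)
    have h3 : |(β (rp (χ (P (e k) j)) (e k)) i).re - η| ≤ K * (M * s (e k)) := by
      have := (Complex.abs_re_le_norm _).trans
        ((norm_le_pi_norm (β (rp (χ (P (e k) j)) (e k)) - β (base es)) i).trans h2)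
      rw [hβ] at this
      exact this.trans (by gcongr)
    have h4 : Real.sqrt (es / 2) / η ^ 2 * (ρ0 * s (e k) / 4) ≤ ‖ztOf (t / η) (a k 0)‖ := by
      rw [nz]
      exact mul_le_mul (S1 k) (sz k 0).1 (by positivity) (S0.trans_le (S1 k)).le
    have M0 : 0 < M := by positivity
    calc |a k j i - 1| = |(β (rp (χ (P (e k) j)) (e k)) i).re - η| / η := by
          simp only [a]
          rw [div_sub_one hη.ne', abs_div, abs_of_pos hη]
      _ ≤ K * (M * s (e k)) / η := by gcongr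
      _ = K * M / η / (Real.sqrt (es / 2) / η ^ 2 * (ρ0 / 4)) *
          (Real.sqrt (es / 2) / η ^ 2 * (ρ0 * s (e k) / 4)) := by
          have : Real.sqrt (es / 2) ≠ 0 := by positivity
          field_simp
      _ ≤ _ := by gcongr

end Pool.Agent.MP_62f0b1_an.AE

end
end MrgPart5

-- marker of a merged file
example : 731051 + 390202 = 731051 + 390202 := rfl
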