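import Pool.Agent.MP_62f0b1_an.ae.Asm
import Pool.Agent.MP_62f0b1_an.ae.W2
import Pool.Agent.MP_62f0b1_an.ae.C1
import Pool.Agent.MP_62f0b1_an.ae.W1a
import Pool.Agent.MP_62f0b1_an.ae.G4b
import Pool.Agent.MP_62f0b1_an.ae.W1d
import Pool.Agent.MP_62f0b1_an.ae.K2
import Pool.Agent.MP_62f0b1_an.ae.W1c
import Pool.Agent.MP_62f0b1_an.ae.A3b
import Pool.Agent.MP_62f0b1_an.ae.A7
import Pool.Agent.MP_62f0b1_an.ae.A4
import Pool.Agent.MP_62f0b1_an.ae.A5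

/-!
The main theorem.
-/

set_option autoImplicit false

namespace Pool.Agent.MP_62f0b1_an.AE

theorem aConcl : AConcl :=
  aConcl_of (a1b a1a) a2 a3a a3b a0a a0b a4 a5 a6 a7 a8

theorem main : MainStmt :=
  w0 (mainPos_of g1 g2 g3 (g4 g4b) g5 g6 r x k0a k0b (k3 (k2 k1)) (m4 m0 m1 m2 m3a m3b)
    (c5 c1 c2 c3 c4) aConcl w1a w1b w1c w1d w2)

end Pool.Agent.MP_62f0b1_an.AE
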